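import Pool.Agent.DBN.NewmanQ

/-!
# At every negative time the growth exponent of the flow is nonnegative

Mean value of `flow (-κ / log T) (1/2 + iT) / gam (1/2 + iT)` against the test sum
`∑_{K < m ≤ 2K} m^(iT)`, `K = X^(1/2-η)`, over `X ≤ T ≤ 2X`.
-/

set_option autoImplicit false

namespace Pool.Agent.DBN.Nw

open Complex MeasureTheory Set Filter Topology

/-- the test sum -/
noncomputable def tst (K : ℕ) (T : ℝ) : ℂ :=
  ∑ m ∈ Finset.Ioc K (2 * K), exp ((T * Real.log m : ℝ) * I)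

lemma continuous_tst (K : ℕ) : Continuous (tst K) := by
  unfold tst
  fun_prop

lemma tst_sq {K : ℕ} {X : ℝ} (hX : 0 ≤ X) (hK2 : (K : ℝ) ^ 2 ≤ X) :
    ∫ T in X..(2 * X), ‖tst K T‖ ^ 2 ≤ 5 * K * X := by
  set S := Finset.Ioc K (2 * K) with hS
  have hcard : S.card = K := by
    rw [hS, Nat.card_Ioc]; omega
  have e1 : ∀ T : ℝ, ((‖tst K T‖ ^ 2 : ℝ) : ℂ) = ∑ m ∈ S, ∑ m' ∈ S,
      exp ((T * (Real.log m - Real.log m') : ℝ) * I) := by
    intro T
    rw [← Complex.normSq_eq_norm_sq, ← Complex.mul_conj, tst, map_sum, Finset.sum_mul_sum]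
    refine Finset.sum_congr rfl fun m _ => Finset.sum_congr rfl fun m' _ => ?_
    rw [← Complex.exp_conj, ← Complex.exp_add]
    congr 1
    rw [map_mul, Complex.conj_ofReal, Complex.conj_I]
    push_cast
    ring
  have e2 : ((∫ T in X..(2 * X), ‖tst K T‖ ^ 2 : ℝ) : ℂ) = ∑ m ∈ S, ∑ m' ∈ S,
      ∫ T in X..(2 * X), exp ((T * (Real.log m - Real.log m') : ℝ) * I) := by
    rw [← intervalIntegral.integral_ofReal]
    simp_rw [e1]
    rw [intervalIntegral.integral_finsetSum]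
    · refine Finset.sum_congr rfl fun m _ => ?_
      rw [intervalIntegral.integral_finsetSum]
      intro m' _
      exact Continuous.intervalIntegrable (by fun_prop) _ _
    · intro m _
      exact Continuous.intervalIntegrable (by fun_prop) _ _
  have hterm : ∀ m ∈ S, ∀ m' ∈ S,
      ‖∫ T in X..(2 * X), exp ((T * (Real.log m - Real.log m') : ℝ) * I)‖ ≤
        (if m = m' then X else 0) + 4 * K := by
    intro m hm m' hm'
    rw [hS, Finset.mem_Ioc] at hm hm'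
    by_cases h : m = m'
    · rw [if_pos h, h]
      have : (∫ T in X..(2 * X), exp ((T * (Real.log m' - Real.log m') : ℝ) * I)) = (X : ℂ) := by
        simp only [sub_self, mul_zero, ofReal_zero, zero_mul, Complex.exp_zero,
          intervalIntegral.integral_const]
        rw [Complex.real_smul, mul_one]
        push_cast
        ring
      rw [this, Complex.norm_real, Real.norm_of_nonneg hX]
      have : (0 : ℝ) ≤ 4 * K := by positivity
      linarith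
    · rw [if_neg h, zero_add]
      -- the gap
      have key : ∀ a b : ℕ, K < a → a < b → b ≤ 2 * K →
          1 / (2 * K : ℝ) ≤ Real.log b - Real.log a := by
        intro a b ha hab hb
        refine le_trans ?_ (log_gap (by omega) hab)
        have hb0 : (0 : ℝ) < b := by
          have : 0 < b := by omega
          exact_mod_cast this
        have h1 : (1 : ℝ) ≤ (b : ℝ) - a := by
          have : a + 1 ≤ b := hab
          have h2 : ((a + 1 : ℕ) : ℝ) ≤ b := by exact_mod_cast this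
          push_cast at h2
          linarith
        have h2 : (b : ℝ) ≤ 2 * K := by exact_mod_cast hb
        calc 1 / (2 * K : ℝ) ≤ 1 / b := by gcongr
          _ ≤ _ := by gcongr
      have hK0 : (0 : ℝ) < K := by
        have : 0 < K := by omega
        exact_mod_cast this
      have hgap : 1 / (2 * K : ℝ) ≤ |Real.log m - Real.log m'| := by
        rcases lt_or_gt_of_ne h with h' | h'
        · rw [abs_sub_comm]
          exact (key m m' hm.1 h' hm'.2).trans (le_abs_self _)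
        · exact (key m' m hm'.1 h' hm.2).trans (le_abs_self _)
      have hgap0 : 0 < 1 / (2 * K : ℝ) := by positivity
      have hne : Real.log m - Real.log m' ≠ 0 := by
        intro h0
        rw [h0, abs_zero] at hgap
        linarith
      refine (osc_one hX hne).trans ?_
      calc 2 / |Real.log m - Real.log m'| ≤ 2 / (1 / (2 * K : ℝ)) := by gcongr
        _ = 4 * K := by field_simp; ring
  have h3 : ∫ T in X..(2 * X), ‖tst K T‖ ^ 2 ≤
      ‖((∫ T in X..(2 * X), ‖tst K T‖ ^ 2 : ℝ) : ℂ)‖ := by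
    rw [Complex.norm_real, Real.norm_eq_abs]
    exact le_abs_self _
  refine h3.trans ?_
  rw [e2]
  have h4 : ∀ m ∈ S, ∑ m' ∈ S, ((if m = m' then X else 0) + 4 * K : ℝ) = X + K * (4 * K) := by
    intro m hm
    rw [Finset.sum_add_distrib, Finset.sum_ite_eq, if_pos hm, Finset.sum_const, hcard, nsmul_eq_mul]
  calc ‖∑ m ∈ S, ∑ m' ∈ S, ∫ T in X..(2 * X), exp ((T * (Real.log m - Real.log m') : ℝ) * I)‖
      ≤ ∑ m ∈ S, ∑ m' ∈ S, ((if m = m' then X else 0) + 4 * K : ℝ) := by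
        refine (norm_sum_le _ _).trans (Finset.sum_le_sum fun m hm => ?_)
        exact (norm_sum_le _ _).trans (Finset.sum_le_sum fun m' hm' => hterm m hm m' hm')
    _ = K * (X + K * (4 * K)) := by
        rw [Finset.sum_congr rfl h4, Finset.sum_const, hcard, nsmul_eq_mul]
    _ ≤ 5 * K * X := by
        have hK0 : (0 : ℝ) ≤ K := Nat.cast_nonneg K
        nlinarith [mul_nonneg hK0 (sub_nonneg.2 hK2)]

lemma tst_int {K : ℕ} {X : ℝ} (hX : 0 ≤ X) (hK : 0 < K) (hK2 : (K : ℝ) ^ 2 ≤ X) :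
    ∫ T in X..(2 * X), ‖tst K T‖ ≤ 3 * (K : ℝ) ^ (1 / 2 : ℝ) * X := by
  have hX2 : X ≤ 2 * X := by linarith
  have hK0 : (0 : ℝ) < K := by exact_mod_cast hK
  set s : ℝ := (K : ℝ) ^ (1 / 2 : ℝ) with hs
  have hs0 : 0 < s := by positivity
  have hs2 : s ^ 2 = K := by
    rw [hs, ← Real.rpow_natCast, ← Real.rpow_mul hK0.le]
    norm_num
  have hc := continuous_tst K
  have h1 : ∫ T in X..(2 * X), ‖tst K T‖ ≤
      ∫ T in X..(2 * X), (s / 2 + (2 * s)⁻¹ * ‖tst K T‖ ^ 2) := by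
    apply intervalIntegral.integral_mono_on hX2
    · exact Continuous.intervalIntegrable (by fun_prop) _ _
    · exact Continuous.intervalIntegrable (by fun_prop) _ _
    · intro T _
      have h2 : s / 2 + (2 * s)⁻¹ * ‖tst K T‖ ^ 2 - ‖tst K T‖ =
          (2 * s)⁻¹ * (‖tst K T‖ - s) ^ 2 := by
        field_simp
        ring
      have h3 : 0 ≤ (2 * s)⁻¹ * (‖tst K T‖ - s) ^ 2 := by positivity
      linarith
  refine h1.trans ?_
  rw [intervalIntegral.integral_add (by simp) (Continuous.intervalIntegrable (by fun_prop) _ _),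
    intervalIntegral.integral_const, intervalIntegral.integral_const_mul, smul_eq_mul]
  have h4 := tst_sq hX hK2
  calc (2 * X - X) * (s / 2) + (2 * s)⁻¹ * ∫ T in X..(2 * X), ‖tst K T‖ ^ 2
      ≤ (2 * X - X) * (s / 2) + (2 * s)⁻¹ * (5 * K * X) := by gcongr
    _ = 3 * s * X := by
        rw [← hs2]
        field_simp
        ring

/-- the weighted Dirichlet polynomial -/
noncomputable def pol (κ : ℝ) (N : ℕ) (T : ℝ) : ℂ :=
  ∑ n ∈ Finset.range N, wt κ (n + 1) T * ((n + 1 : ℝ) : ℂ) ^ (-(1 / 2 + T * I : ℂ))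

lemma term_eq {x : ℝ} (hx : 0 < x) (T L : ℝ) :
    (x : ℂ) ^ (-(1 / 2 + T * I : ℂ)) * exp ((T * L : ℝ) * I) =
      ((x ^ (-(1 / 2) : ℝ) : ℝ) : ℂ) * exp ((T * (L - Real.log x) : ℝ) * I) := by
  have hx0 : (x : ℂ) ≠ 0 := by exact_mod_cast hx.ne'
  rw [Real.rpow_def_of_pos hx, Complex.cpow_def_of_ne_zero hx0, ← Complex.ofReal_log hx.le,
    Complex.ofReal_exp, ← Complex.exp_add, ← Complex.exp_add]
  congr 1
  push_cast
  ring

/-- the `(n, m)` term of the mean value -/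
noncomputable def J (κ X : ℝ) (n m : ℕ) : ℂ :=
  ∫ T in X..(2 * X), wt κ (n + 1) T * ((n + 1 : ℝ) : ℂ) ^ (-(1 / 2 + T * I : ℂ)) *
    exp ((T * Real.log m : ℝ) * I)

lemma J_eq (κ X : ℝ) (n m : ℕ) : J κ X n m = (((n + 1 : ℝ) ^ (-(1 / 2) : ℝ) : ℝ) : ℂ) *
    ∫ T in X..(2 * X), wt κ (n + 1) T * exp ((T * (Real.log m - Real.log (n + 1)) : ℝ) * I) := by
  rw [J, ← intervalIntegral.integral_const_mul]
  congr 1
  funext T
  rw [mul_assoc, term_eq (by positivity)]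
  ring

lemma continuousOn_wt (κ x : ℝ) {X : ℝ} (hX : 3 ≤ X) :
    ContinuousOn (wt κ x) (Icc X (2 * X)) := fun t ht =>
  (hasDerivAt_wt κ x (by linarith [ht.1])).continuousAt.continuousWithinAt

lemma J_off {κ X : ℝ} (hκ : 0 < κ) (hX : 3 ≤ X) {n m K : ℕ} (hm0 : K < m)
    (hn : (n + 1 : ℝ) ≤ X ^ (7 / 5 : ℝ)) (hnm : n + 1 ≠ m) :
    ‖J κ X n m‖ ≤ (2 + 5 * κ) * Real.exp κ * ((n + 1 : ℝ) ^ (-(1 / 2) : ℝ) *
      (1 / |Real.log m - Real.log (n + 1 : ℝ)|)) := by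
  have hX0 : 0 < X := by linarith
  have hn1 : (0 : ℝ) < (n : ℝ) + 1 := by positivity
  have hmpos : (0 : ℝ) < m := by
    have : 0 < m := by omega
    exact_mod_cast this
  have hne : Real.log m - Real.log (n + 1 : ℝ) ≠ 0 := by
    intro h
    have h1 : Real.log m = Real.log (n + 1 : ℝ) := by linarith
    have h2 := Real.log_injOn_pos (mem_Ioi.2 hmpos) (mem_Ioi.2 hn1) h1
    have h3 : ((n + 1 : ℕ) : ℝ) = (m : ℝ) := by push_cast; linarith
    exact hnm (by exact_mod_cast h3)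
  have hosc := osc (X := X) (M := Real.exp κ) (M' := 5 * κ * Real.exp κ / X) hX0.le hne
    (f := wt κ (n + 1)) (f' := dwt κ (n + 1))
    (fun T hT => hasDerivAt_wt κ (n + 1) (by linarith [hT.1])) (continuousOn_dwt κ (n + 1) hX)
    (fun T hT => (wt_bounds hκ hX hT.1 (by linarith [(Nat.cast_nonneg n : (0 : ℝ) ≤ n)]) hn).1)
    (fun T hT => (wt_bounds hκ hX hT.1 (by linarith [(Nat.cast_nonneg n : (0 : ℝ) ≤ n)]) hn).2)
  rw [J_eq, norm_mul, Complex.norm_real, Real.norm_of_nonneg (by positivity)]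
  calc (n + 1 : ℝ) ^ (-(1 / 2) : ℝ) * _ ≤ (n + 1 : ℝ) ^ (-(1 / 2) : ℝ) *
        ((2 * Real.exp κ + 5 * κ * Real.exp κ / X * X) /
          |Real.log m - Real.log (n + 1 : ℝ)|) := by gcongr
    _ = _ := by
        field_simp

lemma J_diag {κ η X : ℝ} (hκ : 0 < κ) (hη : 0 < η) (hκη : κ * η ≤ 1) (hX : 3 ≤ X)
    (hX' : 1 ≤ η * Real.log X) {n m K : ℕ} (hKm : K < m) (hm : m ≤ 2 * K)
    (hK1 : (K : ℝ) ≤ X ^ (1 / 2 - η : ℝ)) (hK2 : X ^ (1 / 2 - η : ℝ) ≤ K + 1) (hnm : n + 1 = m) :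
    (2 * (K : ℝ) ^ (1 / 2 : ℝ))⁻¹ * (X * (1 / 2 * X ^ (-(κ * η ^ 2 / 4) : ℝ))) ≤
      (J κ X n m).re := by
  have hX0 : 0 < X := by linarith
  have hX2 : X ≤ 2 * X := by linarith
  have hK0 : 0 < K := by omega
  have hKR : (0 : ℝ) < K := by exact_mod_cast hK0
  have hmR : (m : ℝ) = (n : ℝ) + 1 := by
    rw [← hnm]; push_cast; ring
  have hx1 : X ^ (1 / 2 - η : ℝ) ≤ (n : ℝ) + 1 := by
    rw [← hmR]
    have : K + 1 ≤ m := hKm
    have h2 : ((K + 1 : ℕ) : ℝ) ≤ m := by exact_mod_cast this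
    push_cast at h2
    linarith
  have hx3 : (n : ℝ) + 1 ≤ 2 * K := by
    rw [← hmR]
    exact_mod_cast hm
  have hx2 : (n : ℝ) + 1 ≤ 2 * X ^ (1 / 2 - η : ℝ) := by linarith
  rw [J_eq, Complex.re_ofReal_mul]
  have e1 : (∫ T in X..(2 * X), wt κ (n + 1) T *
      exp ((T * (Real.log m - Real.log (n + 1)) : ℝ) * I)) = ∫ T in X..(2 * X), wt κ (n + 1) T := by
    congr 1
    funext T
    rw [hmR]
    simp
  rw [e1]
  have hint : IntervalIntegrable (wt κ (n + 1)) volume X (2 * X) :=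
    ContinuousOn.intervalIntegrable (by rw [uIcc_of_le hX2]; exact continuousOn_wt κ _ hX)
  have e2 : (∫ T in X..(2 * X), wt κ (n + 1) T).re = ∫ T in X..(2 * X), (wt κ (n + 1) T).re :=
    (Complex.reCLM.intervalIntegral_comp_comm hint).symm
  have h1 : X * (1 / 2 * X ^ (-(κ * η ^ 2 / 4) : ℝ)) ≤ (∫ T in X..(2 * X), wt κ (n + 1) T).re := by
    rw [e2]
    have e3 : X * (1 / 2 * X ^ (-(κ * η ^ 2 / 4) : ℝ)) =
        ∫ T in X..(2 * X), (1 / 2 * X ^ (-(κ * η ^ 2 / 4) : ℝ)) := by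
      rw [intervalIntegral.integral_const, smul_eq_mul]
      ring
    rw [e3]
    apply intervalIntegral.integral_mono_on hX2 (by simp)
    · apply ContinuousOn.intervalIntegrable
      rw [uIcc_of_le hX2]
      exact Complex.continuous_re.comp_continuousOn (continuousOn_wt κ _ hX)
    · intro T hT
      exact re_wt_lower hκ hη hκη hX hX' hT.1 hT.2 hx1 hx2
  have h2 : (2 * (K : ℝ) ^ (1 / 2 : ℝ))⁻¹ ≤ (n + 1 : ℝ) ^ (-(1 / 2) : ℝ) := by
    have h3 : (2 * (K : ℝ) ^ (1 / 2 : ℝ))⁻¹ = (4 * K : ℝ) ^ (-(1 / 2) : ℝ) := by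
      rw [Real.rpow_neg (by positivity), Real.mul_rpow (by norm_num) hKR.le]
      congr 2
      rw [show (4 : ℝ) = 2 ^ (2 : ℝ) by norm_num, ← Real.rpow_mul (by norm_num)]
      norm_num
    rw [h3]
    apply Real.rpow_le_rpow_of_nonpos (by positivity) (by linarith) (by norm_num)
  have h5 : 0 ≤ X * (1 / 2 * X ^ (-(κ * η ^ 2 / 4) : ℝ)) := by positivity
  exact mul_le_mul h2 h1 h5 (by positivity)

/-- the mean value from below -/
lemma mean_lower {κ η X : ℝ} (hκ : 0 < κ) (hη : 0 < η) (hκη : κ * η ≤ 1) (hX : 3 ≤ X)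
    (hX' : 1 ≤ η * Real.log X) {N K : ℕ}
    (hK1 : (K : ℝ) ≤ X ^ (1 / 2 - η : ℝ)) (hK2 : X ^ (1 / 2 - η : ℝ) ≤ K + 1)
    (hKN : 2 * K ≤ N) (hN : (N : ℝ) ≤ X ^ (7 / 5 : ℝ)) :
    (K : ℝ) * ((2 * (K : ℝ) ^ (1 / 2 : ℝ))⁻¹ * (X * (1 / 2 * X ^ (-(κ * η ^ 2 / 4) : ℝ))) -
      (2 + 5 * κ) * Real.exp κ * (4 * (N : ℝ) ^ (1 / 2 : ℝ) + 16 * K * (K : ℝ) ^ (1 / 2 : ℝ))) ≤
      (∫ T in X..(2 * X), pol κ N T * tst K T).re := by
  have hX2 : X ≤ 2 * X := by linarith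
  have hcard : (Finset.Ioc K (2 * K)).card = K := by
    rw [Nat.card_Ioc]; omega
  have hcpow : ∀ n : ℕ, Continuous fun T : ℝ => ((n + 1 : ℝ) : ℂ) ^ (-(1 / 2 + T * I : ℂ)) := by
    intro n
    have h : ((n + 1 : ℝ) : ℂ) ≠ 0 := by
      exact_mod_cast (by positivity : (n + 1 : ℝ) ≠ 0)
    exact Continuous.const_cpow (by fun_prop) (Or.inl h)
  have htc : ∀ n m : ℕ, ContinuousOn (fun T : ℝ => wt κ (n + 1) T *
      ((n + 1 : ℝ) : ℂ) ^ (-(1 / 2 + T * I : ℂ)) * exp ((T * Real.log m : ℝ) * I))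
      (uIcc X (2 * X)) := by
    intro n m
    rw [uIcc_of_le hX2]
    exact ((continuousOn_wt κ _ hX).mul (hcpow n).continuousOn).mul
      (Continuous.continuousOn (by fun_prop))
  have e1 : (∫ T in X..(2 * X), pol κ N T * tst K T) =
      ∑ m ∈ Finset.Ioc K (2 * K), ∑ n ∈ Finset.range N, J κ X n m := by
    have e2 : ∀ T : ℝ, pol κ N T * tst K T = ∑ m ∈ Finset.Ioc K (2 * K), ∑ n ∈ Finset.range N,
        wt κ (n + 1) T * ((n + 1 : ℝ) : ℂ) ^ (-(1 / 2 + T * I : ℂ)) *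
          exp ((T * Real.log m : ℝ) * I) := by
      intro T
      rw [pol, tst, Finset.sum_mul_sum, Finset.sum_comm]
    simp_rw [e2]
    rw [intervalIntegral.integral_finsetSum]
    · refine Finset.sum_congr rfl fun m _ => ?_
      rw [intervalIntegral.integral_finsetSum]
      · rfl
      · intro n _
        exact (htc n m).intervalIntegrable
    · intro m _
      apply ContinuousOn.intervalIntegrable
      exact continuousOn_finsetSum _ fun n _ => htc n m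
  rw [e1, Complex.re_sum]
  have hm : ∀ m ∈ Finset.Ioc K (2 * K),
      (2 * (K : ℝ) ^ (1 / 2 : ℝ))⁻¹ * (X * (1 / 2 * X ^ (-(κ * η ^ 2 / 4) : ℝ))) -
      (2 + 5 * κ) * Real.exp κ * (4 * (N : ℝ) ^ (1 / 2 : ℝ) + 16 * K * (K : ℝ) ^ (1 / 2 : ℝ)) ≤
      (∑ n ∈ Finset.range N, J κ X n m).re := by
    intro m hm
    rw [Finset.mem_Ioc] at hm
    have hmem : m - 1 ∈ Finset.range N := by
      rw [Finset.mem_range]; omega
    rw [← Finset.add_sum_erase _ _ hmem, Complex.add_re]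
    have h1 := J_diag (n := m - 1) hκ hη hκη hX hX' hm.1 hm.2 hK1 hK2 (by omega)
    have h2 : ‖∑ n ∈ (Finset.range N).erase (m - 1), J κ X n m‖ ≤
        (2 + 5 * κ) * Real.exp κ * (4 * (N : ℝ) ^ (1 / 2 : ℝ) + 16 * K * (K : ℝ) ^ (1 / 2 : ℝ)) := by
      refine (norm_sum_le _ _).trans ?_
      calc ∑ n ∈ (Finset.range N).erase (m - 1), ‖J κ X n m‖
          ≤ ∑ n ∈ (Finset.range N).erase (m - 1), (2 + 5 * κ) * Real.exp κ *
            ((n + 1 : ℝ) ^ (-(1 / 2) : ℝ) * (1 / |Real.log m - Real.log (n + 1 : ℝ)|)) := by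
            refine Finset.sum_le_sum fun n hn => ?_
            have h3 := Finset.ne_of_mem_erase hn
            have h4 := Finset.mem_range.1 (Finset.mem_of_mem_erase hn)
            apply J_off hκ hX hm.1 _ (by omega)
            have h5 : ((n + 1 : ℕ) : ℝ) ≤ N := by exact_mod_cast h4
            push_cast at h5
            linarith
        _ = (2 + 5 * κ) * Real.exp κ * ∑ n ∈ (Finset.range N).erase (m - 1),
            ((n + 1 : ℝ) ^ (-(1 / 2) : ℝ) * (1 / |Real.log m - Real.log (n + 1 : ℝ)|)) := by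
            rw [Finset.mul_sum]
        _ ≤ _ := by
            gcongr
            exact offdiag_sum hm.1 hm.2
    have h3 := (abs_le.1 (Complex.abs_re_le_norm
      (∑ n ∈ (Finset.range N).erase (m - 1), J κ X n m))).1
    linarith
  calc _ = ∑ m ∈ Finset.Ioc K (2 * K),
      ((2 * (K : ℝ) ^ (1 / 2 : ℝ))⁻¹ * (X * (1 / 2 * X ^ (-(κ * η ^ 2 / 4) : ℝ))) -
      (2 + 5 * κ) * Real.exp κ * (4 * (N : ℝ) ^ (1 / 2 : ℝ) + 16 * K * (K : ℝ) ^ (1 / 2 : ℝ))) := by
        rw [Finset.sum_const, hcard, nsmul_eq_mul]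
    _ ≤ _ := Finset.sum_le_sum hm

lemma tendsto_pow_neg {a b c : ℝ} (h : a < b) :
    Tendsto (fun X : ℝ => c * X ^ (a - b)) atTop (𝓝 0) := by
  have h1 := tendsto_rpow_neg_atTop (y := b - a) (by linarith)
  have h2 := h1.const_mul c
  rw [mul_zero] at h2
  refine h2.congr fun X => ?_
  rw [neg_sub]

/-- the final inequality at one height -/
lemma final_ineq {κ η δ C0 C1 C2 X : ℝ} (hκ : 0 < κ) (hη : 0 < η) (hη8 : η ≤ 1 / 8)
    (hκη : κ * η ≤ 1) (hC0 : 0 ≤ C0) (hC1 : 0 ≤ C1) (hC2 : 0 ≤ C2) (hX : 16 ≤ X)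
    (hX' : 1 ≤ η * Real.log X)
    (hP : ∀ (N : ℕ) (T : ℝ), X ≤ T → T ≤ 2 * X → X ^ (7 / 5 : ℝ) / 2 ≤ N →
      (N : ℝ) ≤ X ^ (7 / 5 : ℝ) →
      ‖pol κ N T‖ ≤ C0 * C1 * X ^ (-δ) + C2 * X ^ (-(1 / 10) : ℝ)) :
    1 / 4 * X ^ (-(κ * η ^ 2 / 4) : ℝ) ≤ 3 * (C0 * C1 * X ^ (-δ) + C2 * X ^ (-(1 / 10) : ℝ)) +
      (2 + 5 * κ) * Real.exp κ * (4 * X ^ (-(1 / 20) : ℝ) + 16 * X ^ (-(2 * η) : ℝ)) := by
  have hX0 : 0 < X := by linarith
  have hX1 : 1 ≤ X := by linarith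
  have hX2 : X ≤ 2 * X := by linarith
  -- the lengths
  set x : ℝ := X ^ (1 / 2 - η : ℝ) with hx
  have hx1 : 1 ≤ x := Real.one_le_rpow hX1 (by linarith)
  set K : ℕ := ⌊x⌋₊ with hK
  have hK1 : (K : ℝ) ≤ x := Nat.floor_le (by linarith)
  have hK2 : x ≤ K + 1 := (Nat.lt_floor_add_one x).le
  have hK0 : 0 < K := Nat.floor_pos.2 hx1
  have hKR : (1 : ℝ) ≤ K := by exact_mod_cast hK0
  set y : ℝ := X ^ (7 / 5 : ℝ) with hy
  have hy1 : 1 ≤ y := Real.one_le_rpow hX1 (by norm_num)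
  set N : ℕ := ⌊y⌋₊ with hN
  have hN1 : (N : ℝ) ≤ y := Nat.floor_le (by linarith)
  have hN2 : y / 2 ≤ N := by
    have h1 := Nat.lt_floor_add_one y
    have h2 : 0 < N := Nat.floor_pos.2 hy1
    have h3 : (1 : ℝ) ≤ N := by exact_mod_cast h2
    linarith
  have hxX : x ≤ X ^ (1 / 2 : ℝ) := Real.rpow_le_rpow_of_exponent_le hX1 (by linarith)
  have hsq : X ^ (1 / 2 : ℝ) * X ^ (1 / 2 : ℝ) = X := by
    rw [← Real.rpow_add hX0]; norm_num
  have h4 : 4 ≤ X ^ (1 / 2 : ℝ) := by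
    have h5 : (16 : ℝ) ^ (1 / 2 : ℝ) = 4 := by
      rw [show (16 : ℝ) = 4 ^ (2 : ℝ) by norm_num, ← Real.rpow_mul (by norm_num)]
      norm_num
    rw [← h5]
    exact Real.rpow_le_rpow (by norm_num) hX (by norm_num)
  have hXy : X ≤ y := by
    calc X = X ^ (1 : ℝ) := (Real.rpow_one X).symm
      _ ≤ y := Real.rpow_le_rpow_of_exponent_le hX1 (by norm_num)
  have hKN : 2 * K ≤ N := by
    have h5 : (2 * K : ℝ) ≤ N := by
      have : 4 * x ≤ y := by nlinarith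
      linarith
    exact_mod_cast h5
  have hKX : (K : ℝ) ^ 2 ≤ X := by
    calc (K : ℝ) ^ 2 ≤ (X ^ (1 / 2 : ℝ)) ^ 2 := by
          gcongr
          linarith
      _ = X := by rw [sq]; exact hsq
  -- lower and upper bounds
  have hlow := mean_lower hκ hη hκη (by linarith) hX' hK1 hK2 hKN hN1
  set M : ℝ := C0 * C1 * X ^ (-δ) + C2 * X ^ (-(1 / 10) : ℝ) with hM
  have hM0 : 0 ≤ M := by positivity
  have hc := continuous_tst K
  have hup : ‖∫ T in X..(2 * X), pol κ N T * tst K T‖ ≤ M * (3 * (K : ℝ) ^ (1 / 2 : ℝ) * X) := by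
    have h1 : ‖∫ T in X..(2 * X), pol κ N T * tst K T‖ ≤ ∫ T in X..(2 * X), M * ‖tst K T‖ := by
      apply intervalIntegral.norm_integral_le_of_norm_le hX2
      · refine Eventually.of_forall fun T hT => ?_
        rw [norm_mul]
        have := hP N T hT.1.le hT.2 hN2 hN1
        gcongr
      · exact Continuous.intervalIntegrable (by fun_prop) _ _
    refine h1.trans ?_
    rw [intervalIntegral.integral_const_mul]
    have := tst_int hX0.le hK0 hKX
    gcongr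
  have hre : (∫ T in X..(2 * X), pol κ N T * tst K T).re ≤ M * (3 * (K : ℝ) ^ (1 / 2 : ℝ) * X) :=
    (Complex.re_le_norm _).trans hup
  set s : ℝ := (K : ℝ) ^ (1 / 2 : ℝ) with hs
  have hs0 : 0 < s := by positivity
  have hs2 : (K : ℝ) = s ^ 2 := by
    rw [hs, ← Real.rpow_natCast, ← Real.rpow_mul (by linarith)]
    norm_num
  set n : ℝ := (N : ℝ) ^ (1 / 2 : ℝ) with hn
  have hn0 : 0 ≤ n := by positivity
  set M1 : ℝ := (2 + 5 * κ) * Real.exp κ with hM1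
  have hM10 : 0 ≤ M1 := by positivity
  set Z : ℝ := X ^ (-(κ * η ^ 2 / 4) : ℝ) with hZ
  have hcomb := hlow.trans hre
  rw [hs2] at hcomb
  -- powers
  have hs4 : s ^ 4 ≤ X * X ^ (-(2 * η) : ℝ) := by
    calc s ^ 4 = (K : ℝ) ^ 2 := by rw [hs2]; ring
      _ ≤ x ^ 2 := by gcongr
      _ = X * X ^ (-(2 * η) : ℝ) := by
        rw [hx, ← Real.rpow_natCast, ← Real.rpow_mul hX0.le]
        nth_rewrite 2 [← Real.rpow_one X]
        rw [← Real.rpow_add hX0]
        congr 1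
        push_cast
        ring
  have hns : n * s ≤ X * X ^ (-(1 / 20) : ℝ) := by
    have h5 : n ≤ X ^ (7 / 10 : ℝ) := by
      calc n ≤ y ^ (1 / 2 : ℝ) := Real.rpow_le_rpow (Nat.cast_nonneg N) hN1 (by norm_num)
        _ = X ^ (7 / 10 : ℝ) := by
          rw [hy, ← Real.rpow_mul hX0.le]; norm_num
    have h6 : s ≤ X ^ (1 / 4 : ℝ) := by
      calc s ≤ (X ^ (1 / 2 : ℝ)) ^ (1 / 2 : ℝ) :=
            Real.rpow_le_rpow (by linarith) (by linarith) (by norm_num)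
        _ = X ^ (1 / 4 : ℝ) := by
          rw [← Real.rpow_mul hX0.le]; norm_num
    calc n * s ≤ X ^ (7 / 10 : ℝ) * X ^ (1 / 4 : ℝ) := by gcongr
      _ = X ^ (1 + -(1 / 20) : ℝ) := by
        rw [← Real.rpow_add hX0]; norm_num
      _ = X * X ^ (-(1 / 20) : ℝ) := by
        rw [Real.rpow_add hX0, Real.rpow_one]
  have e1 : s ^ 2 * ((2 * s)⁻¹ * (X * (1 / 2 * Z)) - M1 * (4 * n + 16 * s ^ 2 * s)) =
      s * (1 / 4 * X * Z - M1 * (4 * (n * s) + 16 * s ^ 4)) := by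
    field_simp
    ring
  have e2 : M * (3 * s * X) = s * (3 * M * X) := by ring
  rw [e1, e2] at hcomb
  have h7 := le_of_mul_le_mul_left hcomb hs0
  have h8 : M1 * (4 * (n * s) + 16 * s ^ 4) ≤
      X * (M1 * (4 * X ^ (-(1 / 20) : ℝ) + 16 * X ^ (-(2 * η) : ℝ))) := by
    calc M1 * (4 * (n * s) + 16 * s ^ 4) ≤
        M1 * (4 * (X * X ^ (-(1 / 20) : ℝ)) + 16 * (X * X ^ (-(2 * η) : ℝ))) := by gcongr
      _ = _ := by ring
  have h9 : X * (1 / 4 * Z) ≤ X * (3 * M +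
      M1 * (4 * X ^ (-(1 / 20) : ℝ) + 16 * X ^ (-(2 * η) : ℝ))) := by linarith
  exact le_of_mul_le_mul_left h9 hX0

theorem newman_aux {κ A : ℝ} (hκ : 0 < κ) (h : GrowthLe (-κ) A) : 0 ≤ A := by
  by_contra hA
  push Not at hA
  obtain ⟨δ, hδ⟩ : ∃ δ : ℝ, δ = -A / 2 := ⟨_, rfl⟩
  have hδ0 : 0 < δ := by rw [hδ]; linarith
  obtain ⟨C0, hC0⟩ := h δ hδ0
  obtain ⟨C1, hC1, hgam⟩ := size_le_gam
  obtain ⟨C2, X₁, hC2, hX₁, hflow⟩ := flow_approx hκ
  obtain ⟨η, hη⟩ : ∃ η : ℝ, η = min (1 / 8) (min (1 / κ) δ) := ⟨_, rfl⟩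
  have hη0 : 0 < η := by
    rw [hη]
    exact lt_min (by norm_num) (lt_min (by positivity) hδ0)
  have hη8 : η ≤ 1 / 8 := by rw [hη]; exact min_le_left _ _
  have hη1 : η ≤ 1 / κ := by rw [hη]; exact (min_le_right _ _).trans (min_le_left _ _)
  have hη2 : η ≤ δ := by rw [hη]; exact (min_le_right _ _).trans (min_le_right _ _)
  have hκη : κ * η ≤ 1 := by
    calc κ * η ≤ κ * (1 / κ) := by gcongr
      _ = 1 := by field_simp
  set θ : ℝ := κ * η ^ 2 / 4 with hθ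
  have hθη : θ ≤ η / 4 := by
    rw [hθ]
    nlinarith
  -- pointwise bound of the Dirichlet polynomial
  have hP : ∀ X : ℝ, X₁ ≤ X → ∀ (N : ℕ) (T : ℝ), X ≤ T → T ≤ 2 * X → X ^ (7 / 5 : ℝ) / 2 ≤ N →
      (N : ℝ) ≤ X ^ (7 / 5 : ℝ) →
      ‖pol κ N T‖ ≤ |C0| * C1 * X ^ (-δ) + C2 * X ^ (-(1 / 10) : ℝ) := by
    intro X hX N T hXT hT2 hN1 hN2
    have hX0 : 0 < X := by linarith
    have hT0 : 0 < T := by linarith
    have h1 := hflow X T N hX hXT hT2 hN1 hN2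
    have h2 := hC0 T (by linarith)
    have h3 := hgam T (by linarith)
    have hg0 : 0 < ‖gam (1 / 2 + T * I)‖ := norm_pos_iff.2 (gam_ne_zero T)
    have hs0 : 0 ≤ size T := by
      rw [size]
      positivity
    have h4 : ‖flow (-κ / Real.log T) (1 / 2 + T * I) / gam (1 / 2 + T * I)‖ ≤
        |C0| * C1 * X ^ (-δ) := by
      rw [norm_div, div_le_iff₀ hg0]
      have e : A + δ = -δ := by rw [hδ]; ring
      rw [e] at h2
      calc ‖flow (-κ / Real.log T) (1 / 2 + T * I)‖ ≤ C0 * T ^ (-δ) * size T := h2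
        _ ≤ |C0| * T ^ (-δ) * size T := by
            gcongr
            exact le_abs_self C0
        _ ≤ |C0| * X ^ (-δ) * (C1 * ‖gam (1 / 2 + T * I)‖) := by
            have h5 : T ^ (-δ) ≤ X ^ (-δ) :=
              Real.rpow_le_rpow_of_nonpos hX0 hXT (by linarith)
            gcongr
        _ = _ := by ring
    have e : pol κ N T = flow (-κ / Real.log T) (1 / 2 + T * I) / gam (1 / 2 + T * I) -
        (flow (-κ / Real.log T) (1 / 2 + T * I) / gam (1 / 2 + T * I) - pol κ N T) := by ring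
    rw [e]
    refine (norm_sub_le _ _).trans (add_le_add h4 ?_)
    exact h1
  -- the limit
  have hlim : Tendsto (fun X : ℝ => 3 * (|C0| * C1) * X ^ (θ - δ) + 3 * C2 * X ^ (θ - 1 / 10) +
      (2 + 5 * κ) * Real.exp κ * 4 * X ^ (θ - 1 / 20) +
      (2 + 5 * κ) * Real.exp κ * 16 * X ^ (θ - 2 * η)) atTop (𝓝 (0 + 0 + 0 + 0)) := by
    refine ((Tendsto.add ?_ ?_).add ?_).add ?_
    · exact tendsto_pow_neg (by linarith)
    · exact tendsto_pow_neg (by linarith)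
    · exact tendsto_pow_neg (by linarith)
    · exact tendsto_pow_neg (by linarith)
  rw [add_zero, add_zero, add_zero] at hlim
  have hev := hlim.eventually (gt_mem_nhds (show (0 : ℝ) < 1 / 4 by norm_num))
  have hlog : ∀ᶠ X : ℝ in atTop, 1 / η ≤ Real.log X :=
    Real.tendsto_log_atTop.eventually_ge_atTop _
  obtain ⟨X, hX1, hX2, hX3, hX4⟩ := (hev.and (hlog.and ((eventually_ge_atTop X₁).and
    (eventually_ge_atTop (16 : ℝ))))).exists
  have hX0 : 0 < X := by linarith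
  have hX' : 1 ≤ η * Real.log X := by
    calc (1 : ℝ) = η * (1 / η) := by field_simp
      _ ≤ _ := by gcongr
  have hfin := final_ineq (δ := δ) hκ hη0 hη8 hκη (abs_nonneg C0) (by linarith) hC2 hX4 hX'
    (hP X hX3)
  rw [← hθ] at hfin
  have hmul := mul_le_mul_of_nonneg_left hfin (Real.rpow_nonneg hX0.le θ)
  have e0 : X ^ θ * (1 / 4 * X ^ (-θ)) = 1 / 4 := by
    have : X ^ θ * X ^ (-θ) = 1 := by
      rw [← Real.rpow_add hX0]; simp
    linear_combination (1 / 4) * this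
  have e1 : ∀ b : ℝ, X ^ θ * X ^ (-b) = X ^ (θ - b) := by
    intro b
    rw [← Real.rpow_add hX0]
    congr 1
  rw [e0] at hmul
  have e2 : X ^ θ * (3 * (|C0| * C1 * X ^ (-δ) + C2 * X ^ (-(1 / 10) : ℝ)) +
      (2 + 5 * κ) * Real.exp κ * (4 * X ^ (-(1 / 20) : ℝ) + 16 * X ^ (-(2 * η) : ℝ))) =
      3 * (|C0| * C1) * X ^ (θ - δ) + 3 * C2 * X ^ (θ - 1 / 10) +
      (2 + 5 * κ) * Real.exp κ * 4 * X ^ (θ - 1 / 20) +
      (2 + 5 * κ) * Real.exp κ * 16 * X ^ (θ - 2 * η) := by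
    rw [← e1 δ, ← e1 (1 / 10), ← e1 (1 / 20), ← e1 (2 * η)]
    ring
  rw [e2] at hmul
  linarith

end Pool.Agent.DBN.Nw

namespace Pool.Agent.DBN

/-- Newman's side: at every negative time the growth exponent is nonnegative -/
theorem newman {c A : ℝ} (hc : c < 0) (h : GrowthLe c A) : 0 ≤ A := by
  have h1 : GrowthLe (-(-c)) A := by rwa [neg_neg]
  exact Nw.newman_aux (κ := -c) (by linarith) h1

end Pool.Agent.DBN
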