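import Pool.Agent.DBN.Good
import Pool.Agent.DBN.Newman

/-!
# The Lindelof analogue of the de Bruijn-Newman constant
-/

set_option autoImplicit false

namespace Pool.Agent.DBN

open Complex MeasureTheory Set Filter Topology

lemma good_nonneg {c : ℝ} (h : GrowthLe c (c / 16)) : 0 ≤ c := by
  by_contra hc
  push Not at hc
  have := newman hc h
  linarith

/-- the Lindelöf analogue `Λ` of the de Bruijn-Newman constant -/
theorem exists_const : ∃ Λ : ℝ, 0 ≤ Λ ∧ Λ ≤ 4 ∧ (∀ c, GrowthLe c (c / 16) ↔ Λ ≤ c) := by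
  set S : Set ℝ := {c | GrowthLe c (c / 16)} with hS
  have h4 : (4 : ℝ) ∈ S := good_four le_rfl
  have hb : ∀ c ∈ S, 0 ≤ c := fun c hc => good_nonneg hc
  have hbdd : BddBelow S := ⟨0, hb⟩
  have hne : S.Nonempty := ⟨4, h4⟩
  have h0 : 0 ≤ sInf S := le_csInf hne hb
  refine ⟨sInf S, h0, csInf_le hbdd h4, fun c => ⟨fun h => csInf_le hbdd h, fun h => ?_⟩⟩
  have key : ∀ c', sInf S < c' → GrowthLe c' (c' / 16) := by
    intro c' hc'
    obtain ⟨c₀, hc₀, hlt⟩ := exists_lt_of_csInf_lt hne hc'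
    exact good_mono (hb c₀ hc₀) hc₀ hlt.le
  rcases eq_or_lt_of_le h with h1 | h1
  · rw [← h1]
    exact good_closed h0 key
  · exact key c h1

/-- the Lindelöf hypothesis -/
def LH : Prop :=
  ∀ ε : ℝ, 0 < ε → ∃ C : ℝ, ∀ t : ℝ, ‖riemannZeta (1 / 2 + t * I)‖ ≤ C * (1 + |t|) ^ ε

lemma lh_iff : LH ↔ MuLe (1 / 2) 0 := by
  constructor
  · intro h ε hε
    obtain ⟨C, h1⟩ := h ε hε
    refine ⟨|C| * 2 ^ ε, fun T hT => ?_⟩
    have hT0 : 0 < T := by linarith
    have e1 : (((1 / 2 : ℝ) : ℂ) + T * I) = 1 / 2 + T * I := by push_cast; ring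
    rw [e1]
    refine (h1 T).trans ?_
    rw [abs_of_pos hT0, zero_add, mul_assoc, ← Real.mul_rpow (by norm_num) hT0.le]
    have h2 : (1 + T) ^ ε ≤ (2 * T) ^ ε := by gcongr; linarith
    have h3 : 0 ≤ (1 + T) ^ ε := by positivity
    calc C * (1 + T) ^ ε ≤ |C| * (1 + T) ^ ε := by gcongr; exact le_abs_self C
      _ ≤ _ := by gcongr
  · intro h ε hε
    obtain ⟨C, h1⟩ := h ε hε
    have hcont : Continuous fun t : ℝ => ‖riemannZeta (1 / 2 + t * I)‖ := by
      rw [continuous_iff_continuousAt]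
      intro t
      have h2 : ContinuousAt riemannZeta (1 / 2 + t * I) := by
        apply (differentiableAt_riemannZeta _).continuousAt
        intro h3
        have := congrArg Complex.re h3
        norm_num at this
      have h3 : ContinuousAt (fun t : ℝ => (1 / 2 : ℂ) + t * I) t := by fun_prop
      exact (ContinuousAt.comp (f := fun t : ℝ => (1 / 2 : ℂ) + t * I) h2 h3).norm
    obtain ⟨B, hB⟩ := (isCompact_Icc.image (s := Icc (-2 : ℝ) 2) hcont).bddAbove
    refine ⟨|C| + |B|, fun t => ?_⟩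
    have hp : 1 ≤ (1 + |t|) ^ ε := Real.one_le_rpow (by linarith [abs_nonneg t]) hε.le
    have key : ∀ T : ℝ, 2 ≤ T → ‖riemannZeta (1 / 2 + T * I)‖ ≤ |C| * (1 + |T|) ^ ε := by
      intro T hT
      have h2 := h1 T hT
      have e1 : (((1 / 2 : ℝ) : ℂ) + T * I) = 1 / 2 + T * I := by push_cast; ring
      rw [e1, zero_add] at h2
      refine h2.trans ?_
      rw [abs_of_pos (by linarith : 0 < T)]
      have h3 : T ^ ε ≤ (1 + T) ^ ε := by gcongr; linarith
      have h4 : 0 ≤ T ^ ε := by positivity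
      calc C * T ^ ε ≤ |C| * T ^ ε := by gcongr; exact le_abs_self C
        _ ≤ _ := by gcongr
    have hB0 := abs_nonneg B
    have hC0 := abs_nonneg C
    rcases le_total 2 |t| with h2 | h2
    · have h3 : ‖riemannZeta (1 / 2 + t * I)‖ ≤ |C| * (1 + |t|) ^ ε := by
        rcases le_total 0 t with h4 | h4
        · rw [abs_of_nonneg h4] at h2
          exact key t h2
        · rw [abs_of_nonpos h4] at h2
          have h5 := key (-t) h2
          have e2 : (1 / 2 + ((-t : ℝ) : ℂ) * I : ℂ) =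
              (starRingEnd ℂ) (1 / 2 + (t : ℂ) * I) := by
            apply Complex.ext <;> simp
          rw [e2, riemannZeta_conj, Complex.norm_conj, abs_neg] at h5
          exact h5
      nlinarith
    · have h3 : ‖riemannZeta (1 / 2 + t * I)‖ ≤ B := hB ⟨t, abs_le.mp h2, rfl⟩
      have h4 := le_abs_self B
      nlinarith

end Pool.Agent.DBN
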