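import Pool.Agent.DBN.Down2

/-!
# The Lindelof analogue of the de Bruijn-Newman constant
-/

set_option autoImplicit false

namespace Pool.Agent.DBN

open Complex MeasureTheory Set Filter Topology

lemma flow_zero (s : ℂ) : flow 0 s = xi s := by
  unfold flow
  have hp : ((√Real.pi : ℝ) : ℂ) ≠ 0 := by
    exact_mod_cast (Real.sqrt_pos.mpr Real.pi_pos).ne'
  have h1 : ∀ u : ℝ, (Real.exp (-u ^ 2) : ℂ) * xi (s + (√(0 : ℝ) + √(-(0 : ℝ)) * I) * u) =
      (Real.exp (-u ^ 2) : ℂ) * xi s := by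
    intro u
    simp
  simp_rw [h1]
  rw [integral_mul_const, integral_complex_ofReal]
  have h2 : ∫ u : ℝ, Real.exp (-u ^ 2) = √Real.pi := by
    have := integral_gaussian 1
    simpa using this
  rw [h2]
  field_simp

lemma growth_zero {A : ℝ} : GrowthLe 0 A ↔ MuLe (1 / 2) A := by
  obtain ⟨C₀, hC₀, h0⟩ := xi_two (1 / 2)
  have key : ∀ T : ℝ, 2 ≤ T → ‖xi (1 / 2 + T * I)‖ ≤
      C₀ * (size T * ‖riemannZeta ((1 / 2 : ℝ) + T * I)‖) ∧
      size T * ‖riemannZeta ((1 / 2 : ℝ) + T * I)‖ ≤ C₀ * ‖xi (1 / 2 + T * I)‖ := by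
    intro T hT
    have h1 := h0 (1 / 2) T (by rw [abs_of_pos (by norm_num)]) hT
    have e1 : ((1 / 2 : ℝ) - 1 / 2) / 2 = 0 := by norm_num
    rw [e1, Real.rpow_zero, one_mul] at h1
    have e2 : (((1 / 2 : ℝ) : ℂ) + T * I) = 1 / 2 + T * I := by push_cast; ring
    rw [e2] at h1 ⊢
    exact h1
  constructor
  · intro h ε hε
    obtain ⟨C, h1⟩ := h ε hε
    refine ⟨C₀ * C, fun T hT => ?_⟩
    have hs0 := size_pos (by linarith : 0 < T)
    have h2 := h1 T hT
    rw [zero_div, flow_zero] at h2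
    have h3 := (key T hT).2.trans (mul_le_mul_of_nonneg_left h2 (by linarith))
    have h4 : size T * ‖riemannZeta ((1 / 2 : ℝ) + T * I)‖ ≤
        size T * (C₀ * C * T ^ (A + ε)) := h3.trans_eq (by ring)
    exact le_of_mul_le_mul_left h4 hs0
  · intro h ε hε
    obtain ⟨C, h1⟩ := h ε hε
    refine ⟨C₀ * C, fun T hT => ?_⟩
    have hs0 := size_pos (by linarith : 0 < T)
    rw [zero_div, flow_zero]
    refine (key T hT).1.trans ?_
    calc C₀ * (size T * ‖riemannZeta ((1 / 2 : ℝ) + T * I)‖)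
        ≤ C₀ * (size T * (C * T ^ (A + ε))) := by
          gcongr
          exact h1 T hT
      _ = _ := by ring

lemma flow_small {c : ℝ} (hc : c < 0) (T₀ : ℝ) : ∃ B : ℝ, ∀ T : ℝ, 2 ≤ T → T ≤ T₀ →
    ‖flow (c / Real.log T) (1 / 2 + T * I)‖ ≤ B := by
  have hl : 0 < Real.log 2 := Real.log_pos (by norm_num)
  set δ : ℝ := Real.log 2 / (4 * -c) with hδ
  have hc' : 0 < -c := by linarith
  have hδ0 : 0 < δ := by positivity
  obtain ⟨C, hC, h⟩ := subG_xi δ hδ0
  refine ⟨(√Real.pi)⁻¹ * ((C * Real.exp (2 * δ * (T₀ + 1) ^ 2)) * √(Real.pi / (1 / 2))),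
    fun T hT hT0 => ?_⟩
  have hL := log_pos_of hT
  set L := Real.log T with hLd
  have ht : c / L ≤ 0 := div_nonpos_of_nonpos_of_nonneg hc.le hL.le
  set r := √(-(c / L)) with hr
  have hr2 : r ^ 2 = -c / L := by
    rw [hr, Real.sq_sqrt (by linarith)]
    ring
  have hz : √(c / L) = 0 := Real.sqrt_eq_zero_of_nonpos ht
  have hr3 : δ * (2 * r ^ 2) ≤ 1 / 2 := by
    have h1 : Real.log 2 ≤ L := Real.log_le_log (by norm_num) hT
    rw [hr2, hδ]
    have e1 : Real.log 2 / (4 * -c) * (2 * (-c / L)) = Real.log 2 / L / 2 := by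
      have : c ≠ 0 := hc.ne
      field_simp
      norm_num
    rw [e1]
    have : Real.log 2 / L ≤ 1 := (div_le_one hL).mpr h1
    linarith
  unfold flow
  rw [hz, ← hr, norm_mul, norm_inv, Complex.norm_real, Real.norm_eq_abs,
    abs_of_nonneg (Real.sqrt_nonneg _)]
  have h4 : ∀ u : ℝ, ‖(Real.exp (-u ^ 2) : ℂ) *
      xi (1 / 2 + T * I + (((0 : ℝ) : ℂ) + r * I) * u)‖ ≤
      (C * Real.exp (2 * δ * (T₀ + 1) ^ 2)) * Real.exp (-(1 / 2) * u ^ 2) := by
    intro u
    rw [norm_mul, Complex.norm_real, Real.norm_eq_abs, abs_of_pos (Real.exp_pos _)]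
    have e1 : (1 / 2 + T * I + (((0 : ℝ) : ℂ) + r * I) * u : ℂ) =
        (1 / 2 : ℝ) + ((T + r * u : ℝ) : ℂ) * I := by
      push_cast; ring
    have h5 : ‖(1 / 2 + T * I + (((0 : ℝ) : ℂ) + r * I) * u : ℂ)‖ ^ 2 ≤
        2 * (T₀ + 1) ^ 2 + 2 * r ^ 2 * u ^ 2 := by
      rw [e1, ← Complex.normSq_eq_norm_sq, Complex.normSq_add_mul_I]
      have h6 : (T + r * u) ^ 2 ≤ 2 * T ^ 2 + 2 * (r * u) ^ 2 := by
        nlinarith [sq_nonneg (T - r * u)]
      nlinarith
    have h6 := h (1 / 2 + T * I + (((0 : ℝ) : ℂ) + r * I) * u)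
    calc Real.exp (-u ^ 2) * ‖xi (1 / 2 + T * I + (((0 : ℝ) : ℂ) + r * I) * u)‖
        ≤ Real.exp (-u ^ 2) * (C * Real.exp (δ * (2 * (T₀ + 1) ^ 2 + 2 * r ^ 2 * u ^ 2))) := by
          gcongr
          exact h6.trans (by gcongr)
      _ ≤ Real.exp (-u ^ 2) * (C * Real.exp (2 * δ * (T₀ + 1) ^ 2 + 1 / 2 * u ^ 2)) := by
          gcongr
          nlinarith [sq_nonneg u]
      _ = (C * Real.exp (2 * δ * (T₀ + 1) ^ 2)) * (Real.exp (-u ^ 2) *
          Real.exp (1 / 2 * u ^ 2)) := by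
          rw [Real.exp_add]; ring
      _ = _ := by rw [← Real.exp_add]; congr 2; ring
  have h5 := norm_gauss_le (by norm_num : (0 : ℝ) < 1 / 2) h4
  gcongr

/-- before time zero the flow is an average over the critical line -/
lemma growth_neg_of_mu {c A : ℝ} (hc : c < 0) (h : MuLe (1 / 2) A) : GrowthLe c A := by
  have hc' : 0 < -c := by linarith
  have h0 := growth_zero.mpr h
  intro ε hε
  obtain ⟨R, C₁, hR, hC₁, h1⟩ := xi_far hc' (-A)
  obtain ⟨C₂, h2⟩ := h0 ε hε
  set E : ℝ := 2 ^ (7 / 4 : ℝ) * Real.exp (Real.pi * R / 4) with hE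
  have hE0 : 0 < E := by positivity
  set P : ℝ := 2 ^ |A + ε| with hP
  have hP0 : 0 < P := by positivity
  -- large heights
  have hlarge : ∀ T : ℝ, 2 * R + 2 ≤ T → 2 ≤ T →
      ‖flow (c / Real.log T) (1 / 2 + T * I)‖ ≤
        (√Real.pi)⁻¹ * ((C₁ + |C₂| * E * P) * √(Real.pi / (1 / 2))) * T ^ (A + ε) * size T := by
    intro T hT3 hT2
    have hT0 : 0 < T := by linarith
    have hs0 := size_pos hT0
    have hL := log_pos_of hT2
    set L := Real.log T with hLd
    have ht : c / L ≤ 0 := div_nonpos_of_nonpos_of_nonneg hc.le hL.le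
    set r := √(-(c / L)) with hr
    have hr2 : r ^ 2 = -c / L := by
      rw [hr, Real.sq_sqrt (by linarith)]
      ring
    have hz : √(c / L) = 0 := Real.sqrt_eq_zero_of_nonpos ht
    unfold flow
    rw [hz, ← hr, norm_mul, norm_inv, Complex.norm_real, Real.norm_eq_abs,
      abs_of_nonneg (Real.sqrt_nonneg _)]
    have h4 : ∀ u : ℝ, ‖(Real.exp (-u ^ 2) : ℂ) *
        xi (1 / 2 + T * I + (((0 : ℝ) : ℂ) + r * I) * u)‖ ≤
        ((C₁ + |C₂| * E * P) * (size T * T ^ (A + ε))) * Real.exp (-(1 / 2) * u ^ 2) := by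
      intro u
      rw [norm_mul, Complex.norm_real, Real.norm_eq_abs, abs_of_pos (Real.exp_pos _)]
      have e1 : (1 / 2 + T * I + (((0 : ℝ) : ℂ) + r * I) * u : ℂ) =
          1 / 2 + T * I + ((r * u : ℝ) : ℂ) * I := by
        push_cast; ring
      rw [e1]
      have hexp : Real.exp (-u ^ 2) ≤ Real.exp (-(1 / 2) * u ^ 2) := by
        rw [Real.exp_le_exp]
        nlinarith [sq_nonneg u]
      rcases le_total R |r * u| with hu | hu
      · have h5 : ‖(((r * u : ℝ) : ℂ) * I)‖ = |r * u| := by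
          rw [norm_mul, Complex.norm_I, mul_one, Complex.norm_real, Real.norm_eq_abs]
        have h6 := h1 T _ hT2 (h5 ▸ hu)
        rw [h5, sq_abs, mul_pow, hr2, neg_neg] at h6
        have e2 : -c / L * u ^ 2 * Real.log T / (2 * -c) = u ^ 2 / 2 := by
          rw [← hLd]
          have : c ≠ 0 := hc.ne
          field_simp
        rw [e2] at h6
        have h7 : T ^ A ≤ T ^ (A + ε) :=
          Real.rpow_le_rpow_of_exponent_le (by linarith) (by linarith)
        calc Real.exp (-u ^ 2) * ‖xi (1 / 2 + T * I + ((r * u : ℝ) : ℂ) * I)‖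
            ≤ Real.exp (-u ^ 2) * (C₁ * size T * T ^ A * Real.exp (u ^ 2 / 2)) := by gcongr
          _ = C₁ * (size T * T ^ A) * (Real.exp (-u ^ 2) * Real.exp (u ^ 2 / 2)) := by ring
          _ = C₁ * (size T * T ^ A) * Real.exp (-(1 / 2) * u ^ 2) := by
              rw [← Real.exp_add]; congr 2; ring
          _ ≤ ((C₁ + |C₂| * E * P) * (size T * T ^ (A + ε))) * Real.exp (-(1 / 2) * u ^ 2) := by
              gcongr
              have : 0 ≤ |C₂| * E * P := by positivity
              linarith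
      · set T' := T + r * u with hT'
        have hTT : |T' - T| ≤ R := by simpa [hT'] using hu
        have habs := abs_le.mp hTT
        have hT'2 : 2 ≤ T' := by linarith
        have hT'0 : 0 < T' := by linarith
        have hs0' := size_pos hT'0
        have hlow : T / 2 ≤ T' := by linarith
        have hup : T' ≤ 2 * T := by linarith
        have h5 := h2 T' hT'2
        rw [zero_div, flow_zero] at h5
        have e3 : (1 / 2 + T * I + ((r * u : ℝ) : ℂ) * I : ℂ) = 1 / 2 + T' * I := by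
          rw [hT']; push_cast; ring
        rw [e3]
        have hp1 : 0 < T' ^ (A + ε) := by positivity
        have h6 : ‖xi (1 / 2 + T' * I)‖ ≤ |C₂| * (size T' * T' ^ (A + ε)) := by
          refine h5.trans ?_
          rw [mul_assoc, mul_comm (T' ^ (A + ε))]
          apply mul_le_mul_of_nonneg_right (le_abs_self _) (by positivity)
        have h7 : size T' * T' ^ (A + ε) ≤ E * P * (size T * T ^ (A + ε)) := by
          calc size T' * T' ^ (A + ε) ≤ (E * size T) * (P * T ^ (A + ε)) := by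
                gcongr
                · exact size_shift_le hT0 hlow hup hTT
                · exact rpow_shift_le hT0 hlow hup _
            _ = _ := by ring
        calc Real.exp (-u ^ 2) * ‖xi (1 / 2 + T' * I)‖
            ≤ Real.exp (-(1 / 2) * u ^ 2) * (|C₂| * (E * P * (size T * T ^ (A + ε)))) := by
              gcongr
              exact h6.trans (by gcongr)
          _ = (|C₂| * E * P) * (size T * T ^ (A + ε)) * Real.exp (-(1 / 2) * u ^ 2) := by ring
          _ ≤ ((C₁ + |C₂| * E * P) * (size T * T ^ (A + ε))) * Real.exp (-(1 / 2) * u ^ 2) := by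
              gcongr
              linarith
    have h5 := norm_gauss_le (by norm_num : (0 : ℝ) < 1 / 2) h4
    calc (√Real.pi)⁻¹ * _ ≤ (√Real.pi)⁻¹ * (((C₁ + |C₂| * E * P) * (size T * T ^ (A + ε))) *
          √(Real.pi / (1 / 2))) := by gcongr
      _ = _ := by ring
  -- small heights
  have hcomp : ∃ C₃ : ℝ, ∀ T : ℝ, 2 ≤ T → T ≤ 2 * R + 2 →
      ‖flow (c / Real.log T) (1 / 2 + T * I)‖ ≤ C₃ * T ^ (A + ε) * size T := by
    obtain ⟨B, hB⟩ := flow_small hc (2 * R + 2)
    have hcont : ContinuousOn (fun T : ℝ => T ^ (A + ε) * size T) (Icc 2 (2 * R + 2)) := by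
      intro T hT
      apply ContinuousAt.continuousWithinAt
      unfold size
      have h3 := Real.continuousAt_rpow_const T (A + ε) (Or.inl (by linarith [hT.1]))
      have h4 := Real.continuousAt_rpow_const T (7 / 4) (Or.inl (by linarith [hT.1]))
      have h5 : ContinuousAt (fun T : ℝ => Real.exp (-(Real.pi * T / 4))) T := by fun_prop
      exact h3.mul (h4.mul h5)
    obtain ⟨T₁, hT₁, hmin⟩ := isCompact_Icc.exists_isMinOn (nonempty_Icc.mpr (by linarith)) hcont
    have hpos : 0 < T₁ ^ (A + ε) * size T₁ := by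
      have h3 : 0 < T₁ := by linarith [hT₁.1]
      have h4 := size_pos h3
      positivity
    refine ⟨|B| / (T₁ ^ (A + ε) * size T₁), fun T hT hT' => ?_⟩
    have h3 : T₁ ^ (A + ε) * size T₁ ≤ T ^ (A + ε) * size T := hmin ⟨hT, hT'⟩
    calc ‖flow (c / Real.log T) (1 / 2 + T * I)‖ ≤ |B| := (hB T hT hT').trans (le_abs_self _)
      _ = |B| / (T₁ ^ (A + ε) * size T₁) * (T₁ ^ (A + ε) * size T₁) :=
          (div_mul_cancel₀ _ hpos.ne').symm
      _ ≤ |B| / (T₁ ^ (A + ε) * size T₁) * (T ^ (A + ε) * size T) := by gcongr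
      _ = _ := by ring
  obtain ⟨C₃, h3⟩ := hcomp
  refine ⟨max ((√Real.pi)⁻¹ * ((C₁ + |C₂| * E * P) * √(Real.pi / (1 / 2)))) C₃, fun T hT => ?_⟩
  have hs0 := size_pos (by linarith : 0 < T)
  have hp1 : 0 < T ^ (A + ε) := by positivity
  rcases le_total (2 * R + 2) T with h4 | h4
  · refine (hlarge T h4 hT).trans ?_
    gcongr
    exact le_max_left _ _
  · refine (h3 T hT h4).trans ?_
    gcongr
    exact le_max_right _ _

/-! ### The set of times `c` with growth exponent at most `c / 16` -/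

/-- even form of Lindelöf's function: from `1 / 2 + τ` to all of `[1/2 - τ, 1/2 + τ]` -/
lemma mu_inside {τ : ℝ} (hτ : 0 < τ) (h : MuLe (1 / 2 + τ) 0) {σ : ℝ} (hσ : |σ| ≤ τ) :
    MuLe (1 / 2 + σ) (τ / 2 - σ / 2) := by
  have h1 : MuLe (1 / 2 - τ) τ := by simpa using mu_symm.mp h
  have habs := abs_le.mp hσ
  intro ε hε
  obtain ⟨C, h2⟩ := mu_interp (by linarith : 1 / 2 - τ < 1 / 2 + τ) h1 h hε
  refine ⟨C, fun T hT => (h2 (1 / 2 + σ) T (by linarith) (by linarith) hT).trans_eq ?_⟩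
  congr 2
  field_simp
  ring

lemma mu_outside {τ : ℝ} (h : MuLe (1 / 2 + τ) 0) {σ : ℝ} (hσ : τ ≤ σ) :
    MuLe (1 / 2 + σ) 0 := by
  rcases eq_or_lt_of_le hσ with rfl | hσ'
  · exact h
  · intro ε hε
    have h1 : MuLe (max (1 / 2 + σ) 2) 0 := mu_zero (lt_of_lt_of_le (by norm_num)
      (le_max_right _ _))
    have h0 := le_max_left (1 / 2 + σ) 2
    obtain ⟨C, h2⟩ := mu_interp (by linarith : 1 / 2 + τ < max (1 / 2 + σ) 2) h h1 hε
    refine ⟨C, fun T hT => (h2 (1 / 2 + σ) T (by linarith) h0 hT).trans_eq ?_⟩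
    congr 2
    ring

lemma abs_half_le {c : ℝ} (hc : 0 < c) (σ : ℝ) : |σ| / 2 ≤ c / 16 + σ ^ 2 / c := by
  have h2 : 0 ≤ (|σ| - c / 4) ^ 2 / c := by positivity
  have h3 : (|σ| - c / 4) ^ 2 / c = σ ^ 2 / c - |σ| / 2 + c / 16 := by
    rw [sub_sq, sq_abs]
    field_simp
    ring
  linarith

/-- if `μ(1/2 + τ) = 0` then the growth exponent at `c ≥ 8 τ` is `c / 16` -/
lemma good_of_mu {τ c : ℝ} (hc : 0 < c) (hτ : 0 ≤ τ) (h : MuLe (1 / 2 + τ) 0)
    (h8 : 8 * τ ≤ c) : GrowthLe c (c / 16) := by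
  apply growth_of_mu hc
  intro σ
  have h1 := abs_half_le hc σ
  rcases le_total τ |σ| with h2 | h2
  · rcases le_total 0 σ with h3 | h3
    · rw [abs_of_nonneg h3] at h1 h2
      exact (mu_outside h h2).mono (by linarith)
    · rw [abs_of_nonpos h3] at h1 h2
      have h4 := mu_symm.mp (mu_outside h h2)
      rw [sub_neg_eq_add, zero_add] at h4
      exact h4.mono (by linarith)
  · rcases eq_or_lt_of_le hτ with h3 | h3
    · have h4 : σ = 0 := by
        rw [← h3] at h2
        exact abs_nonpos_iff.mp h2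
      rw [h4]
      rw [← h3] at h
      have h5 : 0 ≤ c / 16 := by positivity
      have e1 : c / 16 + (0 : ℝ) ^ 2 / c - 0 / 2 = c / 16 := by ring
      rw [e1]
      exact h.mono h5
    · refine (mu_inside h3 h h2).mono ?_
      have h4 : 0 ≤ σ ^ 2 / c := by positivity
      linarith

/-- conversely `μ(1/2 + c/4) = 0` if the growth exponent at `c` is `c / 16` -/
lemma mu_of_good {c : ℝ} (hc : 0 ≤ c) (h : GrowthLe c (c / 16)) : MuLe (1 / 2 + c / 4) 0 := by
  rcases eq_or_lt_of_le hc with h0 | h0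
  · rw [← h0] at h ⊢
    have := growth_zero.mp h
    simpa using this
  · refine (mu_of_growth h0 h (c / 4)).mono ?_
    apply le_of_eq
    field_simp
    ring

lemma good_four {c : ℝ} (hc : 4 ≤ c) : GrowthLe c (c / 16) :=
  good_of_mu (τ := 1 / 2) (by linarith) (by norm_num) (mu_right le_rfl) (by linarith)

lemma good_mono {c c' : ℝ} (hc : 0 ≤ c) (h : GrowthLe c (c / 16)) (hcc : c ≤ c') :
    GrowthLe c' (c' / 16) := by
  rcases eq_or_lt_of_le hcc with rfl | hlt
  · exact h
  have hc' : 0 < c' := by linarith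
  rcases eq_or_lt_of_le hc with h0 | h0
  · rw [← h0] at h
    have h1 : MuLe (1 / 2 + 0) 0 := by
      have := growth_zero.mp h
      simpa using this
    exact good_of_mu hc' le_rfl h1 (by linarith)
  · apply growth_of_mu hc'
    intro σ
    have h1 := abs_half_le hc' σ
    have h5 := mu_of_good hc h
    rcases le_total (c / 4) |σ| with h2 | h2
    · rcases le_total 0 σ with h3 | h3
      · rw [abs_of_nonneg h3] at h1 h2
        exact (mu_outside h5 h2).mono (by linarith)
      · rw [abs_of_nonpos h3] at h1 h2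
        have h4 := mu_symm.mp (mu_outside h5 h2)
        rw [sub_neg_eq_add, zero_add] at h4
        exact h4.mono (by linarith)
    · refine (mu_of_growth h0 h σ).mono ?_
      have h3 : σ ^ 2 ≤ (c / 4) ^ 2 := by
        rw [← sq_abs σ]
        exact pow_le_pow_left₀ (abs_nonneg _) h2 2
      have h4 : σ ^ 2 / c - σ ^ 2 / c' ≤ (c' - c) / 16 := by
        have e1 : σ ^ 2 / c - σ ^ 2 / c' = σ ^ 2 * (c' - c) / (c * c') := by
          field_simp
        rw [e1, div_le_div_iff₀ (by positivity) (by norm_num)]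
        have h6 : σ ^ 2 * 16 ≤ c * c' := by nlinarith
        nlinarith
      linarith

/-- a bound `μ(1/2) ≤ a` gives the growth exponent `c / 16` for `c ≥ 2 / (1 - 2 a)` -/
lemma good_of_half {a c : ℝ} (ha : 0 < a) (ha4 : a ≤ 1 / 4) (h : MuLe (1 / 2) a)
    (hc : 2 / (1 - 2 * a) ≤ c) : GrowthLe c (c / 16) := by
  have h1a : 0 < 1 - 2 * a := by linarith
  have hc0 : 0 < c := lt_of_lt_of_le (by positivity) hc
  rw [div_le_iff₀ h1a] at hc
  have key : ∀ σ : ℝ, 0 ≤ σ → σ ≤ 1 / 2 → a * (1 - 2 * σ) + σ / 2 ≤ c / 16 + σ ^ 2 / c := by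
    intro σ h0 h2
    have h3 : 0 ≤ (σ - c * (1 / 4 - a)) ^ 2 / c := by positivity
    have h4 : (σ - c * (1 / 4 - a)) ^ 2 / c =
        σ ^ 2 / c + c * (1 / 4 - a) ^ 2 - 2 * σ * (1 / 4 - a) := by
      field_simp
      ring
    have h5 : a ≤ c * (a * (1 / 2 - a)) := by nlinarith
    nlinarith
  have hin : ∀ σ : ℝ, 0 ≤ σ → σ ≤ 1 / 2 → MuLe (1 / 2 + σ) (a * (1 - 2 * σ)) := by
    intro σ h0 h2 ε hε
    obtain ⟨C, h3⟩ := mu_interp (by norm_num : (1 / 2 : ℝ) < 1 / 2 + 1 / 2) h
      (mu_right (le_refl (1 / 2 : ℝ))) hε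
    refine ⟨C, fun T hT => (h3 (1 / 2 + σ) T (by linarith) (by linarith) hT).trans_eq ?_⟩
    congr 2
    ring
  apply growth_of_mu hc0
  intro σ
  have h1 := abs_half_le hc0 σ
  rcases le_total (1 / 2) |σ| with h2 | h2
  · rcases le_total 0 σ with h3 | h3
    · rw [abs_of_nonneg h3] at h1 h2
      exact (mu_right h2).mono (by linarith)
    · rw [abs_of_nonpos h3] at h1 h2
      exact (mu_left (by linarith)).mono (by linarith)
  · rcases le_total 0 σ with h3 | h3
    · rw [abs_of_nonneg h3] at h2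
      exact (hin σ h3 h2).mono (by have := key σ h3 h2; linarith)
    · rw [abs_of_nonpos h3] at h2
      have h4 := mu_symm.mp (hin (-σ) (by linarith) h2)
      rw [sub_neg_eq_add] at h4
      have h5 := key (-σ) (by linarith) h2
      rw [neg_sq] at h5
      exact h4.mono (by linarith)

lemma good_closed {c : ℝ} (hc : 0 ≤ c) (h : ∀ c', c < c' → GrowthLe c' (c' / 16)) :
    GrowthLe c (c / 16) := by
  rcases eq_or_lt_of_le hc with h0 | h0
  · rw [← h0, zero_div]
    rw [← h0] at h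
    apply growth_zero.mpr
    apply mu_closed
    intro b hb
    have h1 := mu_of_growth (c := 16 * b) (by linarith) (h (16 * b) (by linarith)) 0
    simp only [add_zero] at h1
    exact h1.mono (by
      have e1 : 16 * b / 16 + 0 ^ 2 / (16 * b) - 0 / 2 = b := by ring
      rw [e1])
  · apply growth_of_mu h0
    intro σ
    apply mu_closed
    intro b hb
    set d := b - (c / 16 + σ ^ 2 / c - σ / 2) with hd
    have hd0 : 0 < d := by linarith
    have h1 := mu_of_growth (c := c + 16 * d) (by linarith) (h (c + 16 * d) (by linarith)) σ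
    refine h1.mono ?_
    have h2 : σ ^ 2 / (c + 16 * d) ≤ σ ^ 2 / c := by gcongr; linarith
    linarith

end Pool.Agent.DBN
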