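import Mathlib

/-!
# Weyl's bound for the sums of `n ^ (-i T)` over an interval, from a second derivative test

`zthird_of`: the third derivative (Weyl) bound follows from the second derivative test `vdc2` by the
van der Corput inequality.
-/

set_option autoImplicit false

namespace Pool.Agent.DBN

namespace V3_

open scoped ComplexConjugate

lemma sum_range_eq (f : ℤ → ℂ) (H : ℕ) :
    ∑ h ∈ Finset.range H, f (h : ℤ) = ∑ h ∈ Finset.Ico (0 : ℤ) H, f h := by
  rw [← Finset.sum_image (s := Finset.range H) (g := fun n : ℕ => (n : ℤ))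
    (f := f) (fun x _ y _ h => Nat.cast_injective (R := ℤ) h)]
  congr 1
  ext k
  simp only [Finset.mem_image, Finset.mem_range, Finset.mem_Ico]
  constructor
  · rintro ⟨n, hn, rfl⟩
    omega
  · rintro ⟨h1, h2⟩
    exact ⟨k.toNat, by omega, by omega⟩

lemma shift_sum (f : ℤ → ℂ) (H : ℕ) (hf : ∀ h, (h < 0 ∨ (H : ℤ) ≤ h) → f h = 0)
    (α β c : ℤ) (h1 : α + c ≤ 0) (h2 : (H : ℤ) ≤ β + c) :
    ∑ h ∈ Finset.Ico α β, f (h + c) = ∑ h ∈ Finset.range H, f (h : ℤ) := by
  rw [sum_range_eq]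
  have h3 : ∑ h ∈ Finset.Ico α β, f (h + c) = ∑ h ∈ Finset.Ico (α + c) (β + c), f h := by
    rw [← Finset.image_add_right_Ico, Finset.sum_image (fun x _ y _ h => by simpa using h)]
  rw [h3]
  symm
  refine Finset.sum_subset ?_ ?_
  · intro x hx
    rw [Finset.mem_Ico] at hx ⊢
    omega
  · intro x _ hx
    rw [Finset.mem_Ico] at hx
    exact hf x (by omega)

lemma point (a : ℤ → ℂ) (H M : ℕ) (hM : 0 < M) (hMH : M ≤ H)
    (ha : ∀ h, (h < 0 ∨ (H : ℤ) ≤ h) → a h = 0) :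
    (M : ℝ) ^ 2 * ‖∑ h ∈ Finset.range H, a (h : ℤ)‖ ^ 2 ≤
      2 * (H : ℝ) * ∑ m ∈ Finset.range M, ∑ m' ∈ Finset.range M,
        (∑ h ∈ Finset.range H, a (h + ((m : ℤ) - m')) * conj (a h)).re := by
  set I : Finset ℤ := Finset.Ico (1 - (M : ℤ)) H with hI
  have hcard : (I.card : ℝ) ≤ 2 * (H : ℝ) := by
    rw [hI, Int.card_Ico]
    have : ((H : ℤ) - (1 - (M : ℤ))).toNat ≤ 2 * H := by omega
    exact_mod_cast this
  -- the shifted sums
  have h1 : (M : ℂ) * ∑ h ∈ Finset.range H, a (h : ℤ)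
      = ∑ h ∈ I, ∑ m ∈ Finset.range M, a (h + m) := by
    rw [Finset.sum_comm]
    rw [← nsmul_eq_mul, ← Finset.card_range M, ← Finset.sum_const, Finset.card_range]
    refine Finset.sum_congr rfl fun m hm => ?_
    rw [Finset.mem_range] at hm
    exact (shift_sum a H ha _ _ _ (by omega) (by omega)).symm
  have h2 : (M : ℝ) ^ 2 * ‖∑ h ∈ Finset.range H, a (h : ℤ)‖ ^ 2
      = ‖∑ h ∈ I, ∑ m ∈ Finset.range M, a (h + m)‖ ^ 2 := by
    rw [← h1, norm_mul, mul_pow, Complex.norm_natCast]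
  rw [h2]
  have h3 : ‖∑ h ∈ I, ∑ m ∈ Finset.range M, a (h + m)‖ ^ 2
      ≤ I.card * ∑ h ∈ I, ‖∑ m ∈ Finset.range M, a (h + m)‖ ^ 2 :=
    (pow_le_pow_left₀ (norm_nonneg _) (norm_sum_le _ _) 2).trans sq_sum_le_card_mul_sum_sq
  have h4 : ∑ h ∈ I, ‖∑ m ∈ Finset.range M, a (h + m)‖ ^ 2
      = ∑ m ∈ Finset.range M, ∑ m' ∈ Finset.range M,
        (∑ h ∈ Finset.range H, a (h + ((m : ℤ) - m')) * conj (a h)).re := by
    have h5 : ∀ h : ℤ, ‖∑ m ∈ Finset.range M, a (h + m)‖ ^ 2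
        = ∑ m ∈ Finset.range M, ∑ m' ∈ Finset.range M, (a (h + m) * conj (a (h + m'))).re := by
      intro h
      have h6 : ((‖∑ m ∈ Finset.range M, a (h + m)‖ ^ 2 : ℝ) : ℂ)
          = ∑ m ∈ Finset.range M, ∑ m' ∈ Finset.range M, (a (h + m) * conj (a (h + m'))) := by
        rw [← Finset.sum_mul_sum, ← map_sum, Complex.mul_conj, Complex.normSq_eq_norm_sq]
      have h7 := congrArg Complex.re h6
      rw [Complex.ofReal_re] at h7
      rw [h7, Complex.re_sum]
      exact Finset.sum_congr rfl fun m _ => Complex.re_sum _ _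
    rw [Finset.sum_congr rfl fun h _ => h5 h, Finset.sum_comm]
    refine Finset.sum_congr rfl fun m hm => ?_
    rw [Finset.sum_comm]
    refine Finset.sum_congr rfl fun m' hm' => ?_
    rw [Finset.mem_range] at hm hm'
    rw [← Complex.re_sum]
    congr 1
    have h8 := shift_sum (fun k => a (k + ((m : ℤ) - m')) * conj (a k)) H
      (fun k hk => by rw [ha k hk, map_zero, mul_zero]) (1 - (M : ℤ)) H m' (by omega) (by omega)
    rw [← h8]
    refine Finset.sum_congr rfl fun h _ => ?_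
    congr 2
    ring
  rw [h4] at h3
  have h9 : 0 ≤ ∑ m ∈ Finset.range M, ∑ m' ∈ Finset.range M,
        (∑ h ∈ Finset.range H, a (h + ((m : ℤ) - m')) * conj (a h)).re := by
    rw [← h4]
    positivity
  exact h3.trans (mul_le_mul_of_nonneg_right hcard h9)

/-- the correlation sums of a sequence extended by zero -/
lemma corr_le (a : ℕ → ℂ) (L : ℕ) (A : ℤ → ℂ)
    (hA : A = fun h : ℤ => if 0 ≤ h ∧ h < L then a h.toNat else 0) (c : ℤ) :
    ‖∑ h ∈ Finset.range L, A (h + c) * conj (A h)‖ ≤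
      ‖∑ n ∈ Finset.range (L - c.natAbs), a (n + c.natAbs) * conj (a n)‖ := by
  have hAn : ∀ n : ℕ, n < L → A n = a n := by
    intro n hn
    rw [hA]
    have h1 : (0 : ℤ) ≤ (n : ℤ) ∧ (n : ℤ) < L := ⟨by omega, by exact_mod_cast hn⟩
    simp only [h1, and_self, if_true, Int.toNat_natCast]
  have hA0 : ∀ h : ℤ, (h < 0 ∨ (L : ℤ) ≤ h) → A h = 0 := by
    intro h hh
    rw [hA]
    simp only
    rw [if_neg]
    omega
  rcases le_total 0 c with hc | hc
  · obtain ⟨k, rfl⟩ := Int.eq_ofNat_of_zero_le hc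
    rw [Int.natAbs_natCast]
    apply le_of_eq
    congr 1
    symm
    rw [← Finset.sum_subset (Finset.range_subset_range.mpr (Nat.sub_le L k))]
    · refine Finset.sum_congr rfl fun n hn => ?_
      have hn' := Finset.mem_range.mp hn
      have h1 : ((n : ℤ) + (k : ℤ)) = ((n + k : ℕ) : ℤ) := by push_cast; ring
      rw [h1, hAn _ (by omega), hAn _ (by omega)]
    · intro n hn hn2
      have hn' := Finset.mem_range.mp hn
      rw [Finset.mem_range] at hn2
      rw [hA0 ((n : ℤ) + k) (by omega), zero_mul]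
  · obtain ⟨k, hk⟩ := Int.eq_ofNat_of_zero_le (neg_nonneg.mpr hc)
    have hck : c = -(k : ℤ) := by omega
    subst hck
    rw [Int.natAbs_neg, Int.natAbs_natCast]
    have h1 : ∑ h ∈ Finset.range L, A (h + -(k : ℤ)) * conj (A h) =
        conj (∑ n ∈ Finset.range (L - k), a (n + k) * conj (a n)) := by
      rcases Nat.lt_or_ge L k with hLk | hLk
      · have h2 : L - k = 0 := by omega
        rw [h2, Finset.range_zero, Finset.sum_empty, map_zero]
        refine Finset.sum_eq_zero fun n hn => ?_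
        have hn' := Finset.mem_range.mp hn
        rw [hA0 ((n : ℤ) + -(k : ℤ)) (by omega), zero_mul]
      rw [Finset.range_eq_Ico, ← Finset.sum_Ico_consecutive _ (Nat.zero_le k) hLk]
      have h2 : ∑ h ∈ Finset.Ico 0 k, A (h + -(k : ℤ)) * conj (A h) = 0 := by
        refine Finset.sum_eq_zero fun n hn => ?_
        have hn' := Finset.mem_Ico.mp hn
        rw [hA0 ((n : ℤ) + -(k : ℤ)) (by omega), zero_mul]
      rw [h2, zero_add, Finset.sum_Ico_eq_sum_range, map_sum]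
      refine Finset.sum_congr rfl fun n hn => ?_
      have hn' := Finset.mem_range.mp hn
      have h3 : (((k + n : ℕ) : ℤ) + -(k : ℤ)) = (n : ℤ) := by push_cast; ring
      rw [h3, hAn _ (by omega), hAn _ (by omega), map_mul, Complex.conj_conj, add_comm k n,
        mul_comm]
    rw [h1, Complex.norm_conj]

lemma sum_dist_le (b : ℕ → ℝ) (hb : ∀ k, 0 ≤ b k) (R m : ℕ) (hm : m < R) :
    ∑ m' ∈ Finset.range R, b ((m : ℤ) - m').natAbs ≤ b 0 + 2 * ∑ k ∈ Finset.Ico 1 R, b k := by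
  rw [Finset.range_eq_Ico, ← Finset.sum_Ico_consecutive _ (Nat.zero_le (m + 1)) hm]
  have h1 : ∑ m' ∈ Finset.Ico 0 (m + 1), b ((m : ℤ) - m').natAbs ≤
      b 0 + ∑ k ∈ Finset.Ico 1 R, b k := by
    have h2 : ∑ m' ∈ Finset.Ico 0 (m + 1), b ((m : ℤ) - m').natAbs =
        ∑ k ∈ Finset.range (m + 1), b k := by
      rw [← Finset.range_eq_Ico, ← Finset.sum_range_reflect b (m + 1)]
      refine Finset.sum_congr rfl fun m' hm' => ?_
      have := Finset.mem_range.mp hm'
      congr 1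
      omega
    rw [h2, Finset.range_eq_Ico, Finset.sum_eq_sum_Ico_succ_bot (Nat.succ_pos m), zero_add]
    have h3 : ∑ k ∈ Finset.Ico 1 (m + 1), b k ≤ ∑ k ∈ Finset.Ico 1 R, b k :=
      Finset.sum_le_sum_of_subset_of_nonneg (Finset.Ico_subset_Ico le_rfl hm)
        fun k _ _ => hb k
    linarith
  have h2 : ∑ m' ∈ Finset.Ico (m + 1) R, b ((m : ℤ) - m').natAbs ≤
      ∑ k ∈ Finset.Ico 1 R, b k := by
    rw [Finset.sum_Ico_eq_sum_range]
    have h3 : ∑ j ∈ Finset.range (R - (m + 1)), b ((m : ℤ) - ((m + 1 + j : ℕ) : ℤ)).natAbs =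
        ∑ k ∈ Finset.Ico 1 (R - m), b k := by
      rw [Finset.sum_Ico_eq_sum_range]
      have h4 : R - m - 1 = R - (m + 1) := by omega
      rw [h4]
      refine Finset.sum_congr rfl fun j _ => ?_
      congr 1
      omega
    rw [h3]
    exact Finset.sum_le_sum_of_subset_of_nonneg (Finset.Ico_subset_Ico le_rfl (by omega))
        fun k _ _ => hb k
  linarith

/-- the van der Corput inequality -/
lemma vdc_ineq (a : ℕ → ℂ) (L R : ℕ) (hR : 0 < R) (hRL : R ≤ L) (ha : ∀ n, ‖a n‖ ≤ 1) :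
    (R : ℝ) * ‖∑ n ∈ Finset.range L, a n‖ ^ 2 ≤ 2 * (L : ℝ) ^ 2 +
      4 * L * ∑ k ∈ Finset.Ico 1 R, ‖∑ n ∈ Finset.range (L - k), a (n + k) * conj (a n)‖ := by
  set A : ℤ → ℂ := fun h : ℤ => if 0 ≤ h ∧ h < L then a h.toNat else 0 with hA
  set b : ℕ → ℝ := fun k => ‖∑ n ∈ Finset.range (L - k), a (n + k) * conj (a n)‖ with hb
  have h0 := point A L R hR hRL (fun h hh => by
    rw [hA]
    simp only
    rw [if_neg]
    omega)
  have h1 : ∑ h ∈ Finset.range L, A (h : ℤ) = ∑ n ∈ Finset.range L, a n := by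
    refine Finset.sum_congr rfl fun n hn => ?_
    have hn' := Finset.mem_range.mp hn
    rw [hA]
    have h1 : (0 : ℤ) ≤ (n : ℤ) ∧ (n : ℤ) < L := ⟨by omega, by exact_mod_cast hn'⟩
    simp only [h1, and_self, if_true, Int.toNat_natCast]
  rw [h1] at h0
  have h2 : ∑ m ∈ Finset.range R, ∑ m' ∈ Finset.range R,
      (∑ h ∈ Finset.range L, A (h + ((m : ℤ) - m')) * conj (A h)).re ≤
      R * (b 0 + 2 * ∑ k ∈ Finset.Ico 1 R, b k) := by
    calc _ ≤ ∑ m ∈ Finset.range R, ∑ m' ∈ Finset.range R, b ((m : ℤ) - m').natAbs := by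
          refine Finset.sum_le_sum fun m _ => Finset.sum_le_sum fun m' _ => ?_
          exact (Complex.re_le_norm _).trans (corr_le a L A hA _)
      _ ≤ ∑ m ∈ Finset.range R, (b 0 + 2 * ∑ k ∈ Finset.Ico 1 R, b k) := by
          refine Finset.sum_le_sum fun m hm => ?_
          exact sum_dist_le b (fun k => norm_nonneg _) R m (Finset.mem_range.mp hm)
      _ = _ := by rw [Finset.sum_const, Finset.card_range, nsmul_eq_mul]
  have hb0 : b 0 ≤ L := by
    simp only [hb]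
    refine (norm_sum_le _ _).trans ?_
    calc ∑ n ∈ Finset.range (L - 0), ‖a (n + 0) * conj (a n)‖
        ≤ ∑ n ∈ Finset.range (L - 0), (1 : ℝ) := by
          refine Finset.sum_le_sum fun n _ => ?_
          rw [norm_mul, RCLike.norm_conj]
          exact mul_le_one₀ (ha _) (norm_nonneg _) (ha _)
      _ = L := by simp
  have hR0 : (0 : ℝ) < R := by exact_mod_cast hR
  have hL0 : (0 : ℝ) ≤ L := Nat.cast_nonneg L
  set Sb := ∑ k ∈ Finset.Ico 1 R, b k with hSb
  set S2 := ‖∑ n ∈ Finset.range L, a n‖ ^ 2 with hS2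
  have h3 : (R : ℝ) ^ 2 * S2 ≤ 2 * L * (R * (b 0 + 2 * Sb)) :=
    h0.trans (mul_le_mul_of_nonneg_left h2 (by positivity))
  have h4 : (R : ℝ) * (R * S2) ≤ R * (2 * L ^ 2 + 4 * L * Sb) := by
    calc (R : ℝ) * (R * S2) = R ^ 2 * S2 := by ring
      _ ≤ 2 * L * (R * (b 0 + 2 * Sb)) := h3
      _ ≤ 2 * L * (R * (L + 2 * Sb)) := by gcongr
      _ = _ := by ring
  exact le_of_mul_le_mul_left h4 hR0

/-! ## The phases -/

/-- the negative of the second difference of the logarithm -/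
noncomputable def lg2 (x : ℝ) : ℝ := 2 * Real.log (x + 1) - Real.log x - Real.log (x + 2)

lemma lg2_step {x : ℝ} (hx : 0 < x) :
    1 / (x + 1) ^ 3 ≤ lg2 x - lg2 (x + 1) ∧ lg2 x - lg2 (x + 1) ≤ 2 / x ^ 3 := by
  have e1 : lg2 x - lg2 (x + 1) =
      Real.log ((x + 1) ^ 3 * (x + 3)) - Real.log (x * (x + 2) ^ 3) := by
    rw [Real.log_mul (by positivity) (by positivity), Real.log_mul (by positivity) (by positivity),
      Real.log_pow, Real.log_pow]
    unfold lg2
    have h1 : x + 1 + 1 = x + 2 := by ring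
    have h2 : x + 1 + 2 = x + 3 := by ring
    rw [h1, h2]
    push_cast
    ring
  have e2 : Real.log ((x + 1) ^ 3 * (x + 3)) - Real.log (x * (x + 2) ^ 3) =
      Real.log (((x + 1) ^ 3 * (x + 3)) / (x * (x + 2) ^ 3)) := by
    rw [Real.log_div (by positivity) (by positivity)]
  constructor
  · have h1 : 1 - (((x + 1) ^ 3 * (x + 3)) / (x * (x + 2) ^ 3))⁻¹ ≤
        Real.log (((x + 1) ^ 3 * (x + 3)) / (x * (x + 2) ^ 3)) :=
      Real.one_sub_inv_le_log_of_pos (by positivity)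
    rw [e1, e2]
    refine le_trans ?_ h1
    rw [inv_div]
    have h2 : 1 - x * (x + 2) ^ 3 / ((x + 1) ^ 3 * (x + 3)) =
        (2 * x + 3) / ((x + 1) ^ 3 * (x + 3)) := by
      rw [eq_div_iff (by positivity), sub_mul, div_mul_cancel₀ _ (by positivity)]
      ring
    rw [h2, div_le_div_iff₀ (by positivity) (by positivity)]
    have h3 : 0 < (x + 1) ^ 3 := by positivity
    nlinarith
  · have h1 := Real.log_le_sub_one_of_pos
      (show 0 < ((x + 1) ^ 3 * (x + 3)) / (x * (x + 2) ^ 3) by positivity)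
    rw [e1, e2]
    refine h1.trans ?_
    have h2 : ((x + 1) ^ 3 * (x + 3)) / (x * (x + 2) ^ 3) - 1 =
        (2 * x + 3) / (x * (x + 2) ^ 3) := by
      rw [eq_div_iff (by positivity), sub_mul, div_mul_cancel₀ _ (by positivity)]
      ring
    rw [h2, div_le_div_iff₀ (by positivity) (by positivity)]
    have h3 : (2 * x + 3) * x ^ 2 ≤ 2 * (x + 2) ^ 3 := by nlinarith [sq_nonneg x]
    calc (2 * x + 3) * x ^ 3 = x * ((2 * x + 3) * x ^ 2) := by ring
      _ ≤ x * (2 * (x + 2) ^ 3) := by gcongr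
      _ = _ := by ring

lemma lg2_sum {x : ℝ} (hx : 0 < x) (k : ℕ) :
    (k : ℝ) / (x + k) ^ 3 ≤ lg2 x - lg2 (x + k) ∧ lg2 x - lg2 (x + k) ≤ 2 * k / x ^ 3 := by
  induction k with
  | zero => simp
  | succ k ih =>
    obtain ⟨h1, h2⟩ := ih
    have hxk : 0 < x + k := by positivity
    obtain ⟨h3, h4⟩ := lg2_step hxk
    have e1 : x + ((k + 1 : ℕ) : ℝ) = x + k + 1 := by push_cast; ring
    rw [e1]
    push_cast
    constructor
    · have h5 : (k : ℝ) / (x + k + 1) ^ 3 ≤ (k : ℝ) / (x + k) ^ 3 := by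
        apply div_le_div_of_nonneg_left (by positivity) (by positivity)
        exact pow_le_pow_left₀ hxk.le (by linarith) 3
      have h6 : ((k : ℝ) + 1) / (x + k + 1) ^ 3 =
          (k : ℝ) / (x + k + 1) ^ 3 + 1 / (x + k + 1) ^ 3 := by rw [add_div]
      rw [h6]
      linarith
    · have h5 : 2 / (x + k) ^ 3 ≤ 2 / x ^ 3 := by
        gcongr
        linarith [(Nat.cast_nonneg k : (0 : ℝ) ≤ k)]
      have h6 : 2 * ((k : ℝ) + 1) / x ^ 3 = 2 * k / x ^ 3 + 2 / x ^ 3 := by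
        rw [mul_add, add_div, mul_one]
      rw [h6]
      linarith

lemma sum_inv_sqrt (n : ℕ) : ∑ k ∈ Finset.range n, 1 / √((k : ℝ) + 1) ≤ 2 * √n := by
  induction n with
  | zero => simp
  | succ n ih =>
    rw [Finset.sum_range_succ]
    have h1 : 0 < √((n : ℝ) + 1) := Real.sqrt_pos.mpr (by positivity)
    have h2 : 0 ≤ √(n : ℝ) := Real.sqrt_nonneg _
    have h3 : √((n : ℝ) + 1) ^ 2 = n + 1 := Real.sq_sqrt (by positivity)
    have h4 : √(n : ℝ) ^ 2 = n := Real.sq_sqrt (by positivity)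
    have h5 : 1 / √((n : ℝ) + 1) ≤ 2 * (√((n : ℝ) + 1) - √n) := by
      rw [div_le_iff₀ h1]
      nlinarith [sq_nonneg (√((n : ℝ) + 1) - √n)]
    push_cast
    linarith

end V3_

end Pool.Agent.DBN
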