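import Pool.Agent.DBN.Vdc2
import Pool.Agent.DBN.Vdc3a

/-!
# Weyl's bound for the sums of `n ^ (-i T)`
-/

set_option autoImplicit false

namespace Pool.Agent.DBN

open Complex

open scoped ComplexConjugate

namespace V3_

/-- the correlation sums of `exp (-i T log (N + n))` -/
lemma corr_bound {C : ℝ} (hC : 1 ≤ C) (hv : ∀ (m : ℕ) (θ : ℕ → ℝ) (l h : ℝ), 0 < l → 1 ≤ h →
    (∀ n, n + 2 < m → l ≤ θ (n + 2) - 2 * θ (n + 1) + θ n ∧
      θ (n + 2) - 2 * θ (n + 1) + θ n ≤ h * l) →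
    ‖∑ n ∈ Finset.range m, exp (θ n * I)‖ ≤ C * (h * m * √l + 1 / √l))
    {N M k : ℕ} {T w : ℝ} (hN : 1 ≤ N) (hMN : M ≤ N) (hT : 1 ≤ T) (hk : 1 ≤ k)
    (hw : 0 < w) (hw2 : w ^ 2 = T / (16 * (N : ℝ) ^ 3)) :
    ‖∑ n ∈ Finset.range (M - k), exp (-(T * Real.log (N + (n + k : ℕ)) : ℝ) * I) *
        conj (exp (-(T * Real.log (N + n) : ℝ) * I))‖ ≤
      C * (32 * N * (√k * w) + 1 / (√k * w)) := by
  have hN0 : (1 : ℝ) ≤ N := by exact_mod_cast hN
  have hk0 : (1 : ℝ) ≤ k := by exact_mod_cast hk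
  have hkpos : (0 : ℝ) < k := by linarith
  set θ : ℕ → ℝ := fun n => T * (Real.log (N + n + k) - Real.log (N + n)) with hθ
  have e1 : ∑ n ∈ Finset.range (M - k), exp (-(T * Real.log (N + (n + k : ℕ)) : ℝ) * I) *
        conj (exp (-(T * Real.log (N + n) : ℝ) * I)) =
      conj (∑ n ∈ Finset.range (M - k), exp (θ n * I)) := by
    rw [map_sum]
    refine Finset.sum_congr rfl fun n _ => ?_
    rw [← Complex.exp_conj, ← Complex.exp_conj, ← Complex.exp_add]
    congr 1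
    simp only [map_mul, map_neg, Complex.conj_ofReal, Complex.conj_I, hθ]
    have h1 : ((N : ℝ) + ((n + k : ℕ) : ℝ)) = N + n + k := by push_cast; ring
    rw [h1]
    push_cast
    ring
  rw [e1, Complex.norm_conj]
  set l : ℝ := (√k * w) ^ 2 with hl
  have hsk : 0 < √(k : ℝ) := Real.sqrt_pos.mpr hkpos
  have hl0 : 0 < l := by positivity
  have hl1 : l = k * (T / (16 * (N : ℝ) ^ 3)) := by
    rw [hl, mul_pow, Real.sq_sqrt hkpos.le, hw2]
  have hsl : √l = √k * w := by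
    rw [hl]
    exact Real.sqrt_sq (by positivity)
  have h1 := hv (M - k) θ l 32 hl0 (by norm_num) (by
    intro n hn
    have hx : (0 : ℝ) < N + n := by positivity
    have e2 : θ (n + 2) - 2 * θ (n + 1) + θ n =
        T * (lg2 ((N : ℝ) + n) - lg2 ((N : ℝ) + n + k)) := by
      simp only [hθ, lg2]
      have a1 : ((N : ℝ) + ((n + 2 : ℕ) : ℝ)) = N + n + 2 := by push_cast; ring
      have a2 : ((N : ℝ) + ((n + 1 : ℕ) : ℝ)) = N + n + 1 := by push_cast; ring
      have a3 : (N : ℝ) + n + 2 + k = N + n + k + 2 := by ring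
      have a4 : (N : ℝ) + n + 1 + k = N + n + k + 1 := by ring
      rw [a1, a2, a3, a4]
      ring
    obtain ⟨h2, h3⟩ := lg2_sum hx k
    have hnk : (n : ℝ) + k ≤ N := by
      have : n + k ≤ N := by omega
      exact_mod_cast this
    rw [e2, hl1]
    constructor
    · have h4 : (k : ℝ) / (16 * (N : ℝ) ^ 3) ≤ k / ((N : ℝ) + n + k) ^ 3 := by
        apply div_le_div_of_nonneg_left hkpos.le (by positivity)
        calc ((N : ℝ) + n + k) ^ 3 ≤ (2 * N) ^ 3 :=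
              pow_le_pow_left₀ (by positivity) (by linarith) 3
          _ = 8 * (N : ℝ) ^ 3 := by ring
          _ ≤ 16 * (N : ℝ) ^ 3 := by
              have : (0 : ℝ) ≤ (N : ℝ) ^ 3 := by positivity
              linarith
      calc (k : ℝ) * (T / (16 * (N : ℝ) ^ 3)) = T * (k / (16 * (N : ℝ) ^ 3)) := by ring
        _ ≤ T * (k / ((N : ℝ) + n + k) ^ 3) := by gcongr
        _ ≤ _ := by gcongr
    · have h4 : 2 * (k : ℝ) / ((N : ℝ) + n) ^ 3 ≤ 2 * k / (N : ℝ) ^ 3 := by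
        apply div_le_div_of_nonneg_left (by positivity) (by positivity)
        exact pow_le_pow_left₀ (by positivity) (by linarith [(Nat.cast_nonneg n : (0 : ℝ) ≤ n)]) 3
      calc T * (lg2 ((N : ℝ) + n) - lg2 ((N : ℝ) + n + k))
          ≤ T * (2 * k / (N : ℝ) ^ 3) := by gcongr; exact h3.trans h4
        _ = 32 * (k * (T / (16 * (N : ℝ) ^ 3))) := by
            field_simp
            ring)
  rw [hsl] at h1
  refine h1.trans ?_
  have hMk : ((M - k : ℕ) : ℝ) ≤ N := by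
    have : M - k ≤ N := by omega
    exact_mod_cast this
  gcongr

end V3_

open V3_ in
theorem zthird : ∃ C : ℝ, 1 ≤ C ∧ ∀ (N M : ℕ) (T : ℝ), 1 ≤ N → M ≤ N → 1 ≤ T →
    ‖∑ n ∈ Finset.range M, exp (-(T * Real.log (N + n) : ℝ) * I)‖ ≤
      C * ((N : ℝ) ^ (1 / 2 : ℝ) * T ^ (1 / 6 : ℝ) + N * T ^ (-(1 / 6) : ℝ)) := by
  obtain ⟨C, hC, hv⟩ := vdc2
  refine ⟨64 * C, by linarith, fun N M T hN hMN hT => ?_⟩
  have hN0 : (1 : ℝ) ≤ N := by exact_mod_cast hN
  have hMN0 : (M : ℝ) ≤ N := by exact_mod_cast hMN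
  have hT0 : 0 < T := by linarith
  set p : ℝ := T ^ (1 / 6 : ℝ) with hp
  set q : ℝ := √N with hq
  have hp1 : 1 ≤ p := Real.one_le_rpow hT (by norm_num)
  have hp0 : 0 < p := by linarith
  have hq1 : 1 ≤ q := by
    rw [hq]
    exact Real.one_le_sqrt.mpr hN0
  have hq0 : 0 < q := by linarith
  have hqN : q ^ 2 = N := Real.sq_sqrt (by linarith)
  have hpT : p ^ 6 = T := by
    rw [hp, ← Real.rpow_natCast, ← Real.rpow_mul hT0.le]
    norm_num
  have hN2 : (N : ℝ) ^ (1 / 2 : ℝ) = q := by rw [hq, Real.sqrt_eq_rpow]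
  have hT2 : T ^ (-(1 / 6) : ℝ) = p⁻¹ := by rw [Real.rpow_neg hT0.le, hp]
  rw [hN2, hT2]
  set a : ℕ → ℂ := fun n => exp (-(T * Real.log (N + n) : ℝ) * I) with ha
  have ha1 : ∀ n, ‖a n‖ ≤ 1 := by
    intro n
    simp only [ha]
    rw [← Complex.ofReal_neg, Complex.norm_exp_ofReal_mul_I]
  have htriv : ‖∑ n ∈ Finset.range M, a n‖ ≤ M := by
    refine (norm_sum_le _ _).trans ?_
    calc ∑ n ∈ Finset.range M, ‖a n‖ ≤ ∑ n ∈ Finset.range M, (1 : ℝ) :=
          Finset.sum_le_sum fun n _ => ha1 n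
      _ = M := by simp
  have hgoal0 : 0 ≤ q * p + N * p⁻¹ := by positivity
  -- short sums
  rcases lt_or_ge (q ^ 2) (p ^ 2) with hqp | hqp
  · have h1 : q ≤ p := by nlinarith
    calc ‖∑ n ∈ Finset.range M, a n‖ ≤ M := htriv
      _ ≤ q ^ 2 := by rw [hqN]; exact hMN0
      _ ≤ q * p := by nlinarith
      _ ≤ q * p + N * p⁻¹ := by
          have : 0 ≤ (N : ℝ) * p⁻¹ := by positivity
          linarith
      _ ≤ 64 * C * (q * p + N * p⁻¹) := by nlinarith
  set r : ℝ := q ^ 2 / p ^ 2 with hr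
  have hr1 : 1 ≤ r := by rwa [hr, one_le_div (by positivity)]
  set R : ℕ := ⌊r⌋₊ with hR
  have hR1 : 1 ≤ R := by rwa [hR, Nat.one_le_floor_iff]
  have hRr : (R : ℝ) ≤ r := Nat.floor_le (by linarith)
  have hrR : r < R + 1 := Nat.lt_floor_add_one r
  have hR1' : (1 : ℝ) ≤ R := by exact_mod_cast hR1
  have hrR2 : r / 2 ≤ R := by linarith
  rcases Nat.lt_or_ge M R with hMR | hMR
  · have h1 : (M : ℝ) ≤ r := by
      have : (M : ℝ) ≤ R := by exact_mod_cast hMR.le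
      linarith
    have h2 : r ≤ N * p⁻¹ := by
      rw [hr, hqN, ← div_eq_mul_inv]
      apply div_le_div_of_nonneg_left (by positivity) hp0
      nlinarith
    calc ‖∑ n ∈ Finset.range M, a n‖ ≤ M := htriv
      _ ≤ N * p⁻¹ := h1.trans h2
      _ ≤ q * p + N * p⁻¹ := by
          have : 0 ≤ q * p := by positivity
          linarith
      _ ≤ 64 * C * (q * p + N * p⁻¹) := by nlinarith
  -- the main case
  set w : ℝ := p ^ 3 / (4 * q ^ 3) with hw
  have hw0 : 0 < w := by positivity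
  have hw2 : w ^ 2 = T / (16 * (N : ℝ) ^ 3) := by
    rw [hw, ← hqN, ← hpT, div_pow]
    congr 1 <;> ring
  have h1 := vdc_ineq a M R hR1 hMR ha1
  set ρ : ℝ := √R with hρ
  have hρ0 : 0 < ρ := Real.sqrt_pos.mpr (by linarith)
  have hρ2 : ρ ^ 2 = R := Real.sq_sqrt (by linarith)
  have hsum : ∑ k ∈ Finset.Ico 1 R, ‖∑ n ∈ Finset.range (M - k), a (n + k) * conj (a n)‖ ≤
      C * (32 * N * w * (R * ρ) + 2 * ρ / w) := by
    calc ∑ k ∈ Finset.Ico 1 R, ‖∑ n ∈ Finset.range (M - k), a (n + k) * conj (a n)‖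
        ≤ ∑ k ∈ Finset.Ico 1 R, C * (32 * N * (√k * w) + 1 / (√k * w)) := by
          refine Finset.sum_le_sum fun k hk => ?_
          exact corr_bound hC hv hN hMN hT (Finset.mem_Ico.mp hk).1 hw0 hw2
      _ = C * (32 * N * w * ∑ k ∈ Finset.Ico 1 R, √(k : ℝ) +
          (∑ k ∈ Finset.Ico 1 R, 1 / √(k : ℝ)) / w) := by
          rw [← Finset.mul_sum, Finset.sum_add_distrib, Finset.mul_sum, Finset.sum_div]
          congr 2
          · refine Finset.sum_congr rfl fun k _ => ?_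
            ring
          · refine Finset.sum_congr rfl fun k _ => ?_
            rw [div_div]
      _ ≤ _ := by
          have h2 : ∑ k ∈ Finset.Ico 1 R, √(k : ℝ) ≤ R * ρ := by
            calc ∑ k ∈ Finset.Ico 1 R, √(k : ℝ) ≤ ∑ k ∈ Finset.Ico 1 R, ρ := by
                  refine Finset.sum_le_sum fun k hk => ?_
                  have := (Finset.mem_Ico.mp hk).2
                  exact Real.sqrt_le_sqrt (by exact_mod_cast this.le)
              _ = ((R - 1 : ℕ) : ℝ) * ρ := by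
                  rw [Finset.sum_const, Nat.card_Ico, nsmul_eq_mul]
              _ ≤ R * ρ := by
                  gcongr
                  exact Nat.sub_le R 1
          have h3 : ∑ k ∈ Finset.Ico 1 R, 1 / √(k : ℝ) ≤ 2 * ρ := by
            rw [Finset.sum_Ico_eq_sum_range]
            have h4 : ∑ k ∈ Finset.range (R - 1), 1 / √(((1 + k : ℕ)) : ℝ) =
                ∑ k ∈ Finset.range (R - 1), 1 / √((k : ℝ) + 1) := by
              refine Finset.sum_congr rfl fun k _ => ?_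
              push_cast
              rw [add_comm]
            rw [h4]
            refine (sum_inv_sqrt (R - 1)).trans ?_
            have : √((R - 1 : ℕ) : ℝ) ≤ ρ :=
              Real.sqrt_le_sqrt (by exact_mod_cast Nat.sub_le R 1)
            linarith
          gcongr
  set S : ℝ := ‖∑ n ∈ Finset.range M, a n‖ with hS
  have hS0 : 0 ≤ S := norm_nonneg _
  have hM0 : (0 : ℝ) ≤ M := Nat.cast_nonneg M
  have hR0 : (0 : ℝ) < R := by linarith
  have h2 : (R : ℝ) * S ^ 2 ≤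
      2 * (q ^ 2) ^ 2 + 4 * q ^ 2 * (C * (32 * q ^ 2 * w * (R * ρ) + 2 * ρ / w)) := by
    rw [hqN]
    refine h1.trans ?_
    gcongr
  -- ρ ≤ q / p and 1 / ρ ≤ 2 p / q
  have hρ1 : ρ ≤ q / p := by
    rw [hρ, show q / p = √(r) by
      rw [hr, ← div_pow, Real.sqrt_sq (by positivity)]]
    exact Real.sqrt_le_sqrt hRr
  have hρ3 : q / p ≤ 2 * ρ := by
    have h3 : (q / p) ^ 2 ≤ (2 * ρ) ^ 2 := by
      rw [div_pow, ← hr, mul_pow, hρ2]
      linarith
    exact (sq_le_sq₀ (by positivity) (by positivity)).mp h3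
  have h3 : S ^ 2 ≤ 4 * q ^ 2 * p ^ 2 + 4 * C * (8 * q ^ 2 * p ^ 2 + 16 * q ^ 4 / p ^ 2) := by
    have h4 : (R : ℝ) * S ^ 2 ≤ R * (4 * q ^ 2 * p ^ 2 +
        4 * C * (8 * q ^ 2 * p ^ 2 + 16 * q ^ 4 / p ^ 2)) := by
      refine h2.trans ?_
      have h5 : 2 * (q ^ 2) ^ 2 ≤ R * (4 * q ^ 2 * p ^ 2) := by
        have h6 : r / 2 * (4 * q ^ 2 * p ^ 2) ≤ R * (4 * q ^ 2 * p ^ 2) := by gcongr
        refine le_trans (le_of_eq ?_) h6
        rw [hr]
        field_simp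
        ring
      have h6 : 4 * q ^ 2 * (C * (32 * q ^ 2 * w * (R * ρ))) ≤
          R * (4 * C * (8 * q ^ 2 * p ^ 2)) := by
        have h7 : q ^ 2 * (32 * q ^ 2 * w) * ρ ≤ 8 * q ^ 2 * p ^ 2 := by
          calc q ^ 2 * (32 * q ^ 2 * w) * ρ ≤ q ^ 2 * (32 * q ^ 2 * w) * (q / p) := by gcongr
            _ = 8 * q ^ 2 * p ^ 2 := by
                rw [hw]
                field_simp
                ring
        calc 4 * q ^ 2 * (C * (32 * q ^ 2 * w * (R * ρ)))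
            = R * (4 * C * (q ^ 2 * (32 * q ^ 2 * w) * ρ)) := by ring
          _ ≤ _ := by gcongr
      have h8 : 4 * q ^ 2 * (C * (2 * ρ / w)) ≤ R * (4 * C * (16 * q ^ 4 / p ^ 2)) := by
        have h9 : q ^ 2 * (2 / w) ≤ ρ * (16 * q ^ 4 / p ^ 2) := by
          calc q ^ 2 * (2 / w) = (q / p) * (8 * q ^ 4 / p ^ 2) := by
                rw [hw]
                field_simp
                ring
            _ ≤ (2 * ρ) * (8 * q ^ 4 / p ^ 2) := by gcongr
            _ = _ := by ring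
        calc 4 * q ^ 2 * (C * (2 * ρ / w)) = 4 * C * ρ * (q ^ 2 * (2 / w)) := by ring
          _ ≤ 4 * C * ρ * (ρ * (16 * q ^ 4 / p ^ 2)) := by gcongr
          _ = ρ ^ 2 * (4 * C * (16 * q ^ 4 / p ^ 2)) := by ring
          _ = _ := by rw [hρ2]
      have h10 : 2 * (q ^ 2) ^ 2 + 4 * q ^ 2 * (C * (32 * q ^ 2 * w * (R * ρ) + 2 * ρ / w)) =
          2 * (q ^ 2) ^ 2 + 4 * q ^ 2 * (C * (32 * q ^ 2 * w * (R * ρ))) +
            4 * q ^ 2 * (C * (2 * ρ / w)) := by ring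
      rw [h10]
      have h11 : R * (4 * q ^ 2 * p ^ 2 + 4 * C * (8 * q ^ 2 * p ^ 2 + 16 * q ^ 4 / p ^ 2)) =
          R * (4 * q ^ 2 * p ^ 2) + R * (4 * C * (8 * q ^ 2 * p ^ 2)) +
            R * (4 * C * (16 * q ^ 4 / p ^ 2)) := by ring
      rw [h11]
      linarith
    exact le_of_mul_le_mul_left h4 hR0
  have h4 : S ^ 2 ≤ (64 * C * (q * p + N * p⁻¹)) ^ 2 := by
    refine h3.trans ?_
    rw [← hqN]
    set x : ℝ := q * p with hx
    set y : ℝ := q ^ 2 * p⁻¹ with hy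
    have hx0 : 0 ≤ x := by positivity
    have hy0 : 0 ≤ y := by positivity
    have e1 : 4 * q ^ 2 * p ^ 2 + 4 * C * (8 * q ^ 2 * p ^ 2 + 16 * q ^ 4 / p ^ 2) =
        4 * x ^ 2 + 32 * C * x ^ 2 + 64 * C * y ^ 2 := by
      rw [hx, hy]
      field_simp
      ring
    rw [e1]
    have hC2 : C ≤ C ^ 2 := by nlinarith
    have hxy : 0 ≤ x * y := by positivity
    have e2 : (64 * C * (x + y)) ^ 2 = 4096 * C ^ 2 * (x ^ 2 + 2 * (x * y) + y ^ 2) := by ring
    rw [e2]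
    have hx2 : 0 ≤ x ^ 2 := by positivity
    have hy2 : 0 ≤ y ^ 2 := by positivity
    have f1 : C * x ^ 2 ≤ C ^ 2 * x ^ 2 := by gcongr
    have f2 : C * y ^ 2 ≤ C ^ 2 * y ^ 2 := by gcongr
    have f3 : x ^ 2 ≤ C * x ^ 2 := by nlinarith
    have f4 : 0 ≤ C ^ 2 * (x * y) := by positivity
    have f5 : 0 ≤ C ^ 2 * x ^ 2 := by positivity
    have f6 : 0 ≤ C ^ 2 * y ^ 2 := by positivity
    nlinarith
  exact (sq_le_sq₀ hS0 (by positivity)).mp h4

end Pool.Agent.DBN
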