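import Pool.Agent.DBN.GrowWin

/-!
# The windowed Fourier transform from the growth of the flow
-/

set_option autoImplicit false

namespace Pool.Agent.DBN

open Complex MeasureTheory Set Filter Topology

/-- the windowed transform is bounded at bounded heights -/
lemma win_small (T₀ : ℝ) : ∃ B : ℝ, ∀ T ω : ℝ, 2 ≤ T → T ≤ T₀ → ‖win ω T‖ ≤ B := by
  obtain ⟨C, hC, h⟩ := subG_xi (1 / 4) (by norm_num)
  refine ⟨(C * Real.exp (1 / 2 * (T₀ + 1) ^ 2)) * √(Real.pi / (1 / 2)), fun T ω hT hT0 => ?_⟩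
  unfold win
  apply norm_gauss_le (by norm_num)
  intro v
  rw [norm_mul, Complex.norm_exp]
  have e1 : (-(v : ℂ) ^ 2 + ω * v * I).re = -v ^ 2 := by
    have : (-(v : ℂ) ^ 2 + ω * v * I) = ((-v ^ 2 : ℝ) : ℂ) + ((ω * v : ℝ) : ℂ) * I := by
      push_cast; ring
    rw [this]
    simp [-Complex.ofReal_neg, -Complex.ofReal_pow, -Complex.ofReal_mul]
  have e2 : (1 / 2 + (T + v) * I : ℂ) = ((1 / 2 : ℝ) : ℂ) + ((T + v : ℝ) : ℂ) * I := by
    push_cast; ring
  have h2 : ‖(1 / 2 + (T + v) * I : ℂ)‖ ^ 2 ≤ 2 * (T₀ + 1) ^ 2 + 2 * v ^ 2 := by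
    rw [e2, ← Complex.normSq_eq_norm_sq, Complex.normSq_add_mul_I]
    nlinarith [sq_nonneg (T - v)]
  rw [e1]
  calc Real.exp (-v ^ 2) * ‖xi (1 / 2 + (T + v) * I)‖
      ≤ Real.exp (-v ^ 2) * (C * Real.exp (1 / 4 * (2 * (T₀ + 1) ^ 2 + 2 * v ^ 2))) := by
        gcongr
        exact (h _).trans (by gcongr)
    _ = (C * Real.exp (1 / 2 * (T₀ + 1) ^ 2)) * (Real.exp (-v ^ 2) *
        Real.exp (1 / 2 * v ^ 2)) := by
        have e3 : 1 / 4 * (2 * (T₀ + 1) ^ 2 + 2 * v ^ 2) =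
            1 / 2 * (T₀ + 1) ^ 2 + 1 / 2 * v ^ 2 := by ring
        rw [e3, Real.exp_add]; ring
    _ = _ := by rw [← Real.exp_add]; congr 2; ring

/-- the flow at the time `c / log T` at the heights `T + v`, all `v` -/
lemma flow_window {c A : ℝ} (h : GrowthLe c A) {ε : ℝ} (hε : 0 < ε) :
    ∃ C T₀ : ℝ, 0 ≤ C ∧ 2 ≤ T₀ ∧ ∀ T v : ℝ, T₀ ≤ T →
      Real.exp (-(2 / 3) * v ^ 2) * ‖flow (c / Real.log T) (1 / 2 + (T + v) * I)‖ ≤
        C * T ^ (A + ε) * size T * Real.exp (-(1 / 2) * v ^ 2) := by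
  have hA := growth_lower h
  have hA0 : 0 ≤ A := (le_max_left _ _).trans hA
  obtain ⟨C₁, h1⟩ := h ε hε
  obtain ⟨C₂, T₂, hC₂, hT₂, h2⟩ := time_shift_log c
  obtain ⟨C₃, K, T₃, hC₃, hK, hT₃, h3⟩ := flow_near c
  obtain ⟨T₄, hT₄, hnear⟩ := log_near
  have hlog : ∀ᶠ T : ℝ in atTop, 12 * K ≤ Real.log T :=
    Real.tendsto_log_atTop.eventually_ge_atTop _
  obtain ⟨T₅, hT₅⟩ := eventually_atTop.mp hlog
  set P : ℝ := 2 ^ |A + ε| with hP
  have hP0 : 0 < P := by positivity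
  refine ⟨(|C₁| + C₂) * (2 ^ (7 / 4 : ℝ) * P * Real.exp 2) + C₃,
    max (max T₂ T₃) (max T₄ T₅), by positivity, hT₂.trans ((le_max_left _ _).trans
      (le_max_left _ _)), ?_⟩
  intro T v hT
  have hTa : T₂ ≤ T := ((le_max_left _ _).trans (le_max_left _ _)).trans hT
  have hTb : T₃ ≤ T := ((le_max_right _ _).trans (le_max_left _ _)).trans hT
  have hTc : T₄ ≤ T := ((le_max_left _ _).trans (le_max_right _ _)).trans hT
  have hTd : T₅ ≤ T := ((le_max_right _ _).trans (le_max_right _ _)).trans hT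
  have hT2 : 2 ≤ T := hT₂.trans hTa
  have hT0 : 0 < T := by linarith
  have hs0 := size_pos hT0
  have hL := log_pos_of hT2
  have h12 := hT₅ T hTd
  set L := Real.log T with hLd
  have hπ := Real.pi_pos
  have hπ4 := Real.pi_lt_four
  rcases le_total L |v| with hv | hv
  · have h4 := h3 T v hTb
    have h5 : Real.exp (-(2 / 3) * v ^ 2) * (T ^ K * Real.exp (K * |v|)) ≤
        T ^ (A + ε) * Real.exp (-(1 / 2) * v ^ 2) := by
      rw [Real.rpow_def_of_pos hT0, Real.rpow_def_of_pos hT0, ← Real.exp_add, ← Real.exp_add,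
        ← Real.exp_add, Real.exp_le_exp, ← hLd]
      have h6 : 0 ≤ L * (A + ε) := by positivity
      have h7 : L * K ≤ K * |v| := by nlinarith
      have h8 : 12 * K * |v| ≤ v ^ 2 := by
        rw [← sq_abs v, sq]
        gcongr
        linarith
      nlinarith
    calc Real.exp (-(2 / 3) * v ^ 2) * ‖flow (c / L) (1 / 2 + (T + v) * I)‖
        ≤ Real.exp (-(2 / 3) * v ^ 2) * (C₃ * size T * T ^ K * Real.exp (K * |v|)) := by
          gcongr
      _ = C₃ * size T * (Real.exp (-(2 / 3) * v ^ 2) * (T ^ K * Real.exp (K * |v|))) := by ring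
      _ ≤ C₃ * size T * (T ^ (A + ε) * Real.exp (-(1 / 2) * v ^ 2)) := by gcongr
      _ = C₃ * (T ^ (A + ε) * size T * Real.exp (-(1 / 2) * v ^ 2)) := by ring
      _ ≤ ((|C₁| + C₂) * (2 ^ (7 / 4 : ℝ) * P * Real.exp 2) + C₃) *
          (T ^ (A + ε) * size T * Real.exp (-(1 / 2) * v ^ 2)) := by
          gcongr
          have : 0 ≤ (|C₁| + C₂) * (2 ^ (7 / 4 : ℝ) * P * Real.exp 2) := by positivity
          linarith
      _ = _ := by ring
  · set T' := T + v with hT'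
    have hTT : |T' - T| ≤ L := by simpa [hT'] using hv
    obtain ⟨hT'2, h4⟩ := h2 T T' hTa hTT
    obtain ⟨-, hlow, hup, -⟩ := hnear T T' hTc hTT
    have hT'0 : 0 < T' := by linarith
    have hs0' := size_pos hT'0
    have h5 := h1 T' hT'2
    have e1 : (1 / 2 + (T + v) * I : ℂ) = 1 / 2 + T' * I := by
      rw [hT']; push_cast; ring
    rw [e1]
    have h6 : ‖flow (c / L) (1 / 2 + T' * I)‖ ≤
        (|C₁| + C₂) * (size T' * T' ^ (A + ε)) := by
      have h7 : flow (c / L) (1 / 2 + T' * I) = flow (c / Real.log T') (1 / 2 + T' * I) +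
          (flow (c / L) (1 / 2 + T' * I) - flow (c / Real.log T') (1 / 2 + T' * I)) := by ring
      rw [h7]
      refine (norm_add_le _ _).trans ?_
      have h9 : T' ^ (max 0 (c / 16) - 1 / 16) ≤ T' ^ (A + ε) :=
        Real.rpow_le_rpow_of_exponent_le (by linarith) (by linarith)
      have hp1 : 0 < T' ^ (A + ε) := by positivity
      calc ‖flow (c / Real.log T') (1 / 2 + T' * I)‖ +
            ‖flow (c / L) (1 / 2 + T' * I) - flow (c / Real.log T') (1 / 2 + T' * I)‖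
          ≤ |C₁| * T' ^ (A + ε) * size T' + C₂ * size T' * T' ^ (A + ε) := by
            apply add_le_add
            · refine h5.trans ?_
              apply mul_le_mul_of_nonneg_right _ hs0'.le
              exact mul_le_mul_of_nonneg_right (le_abs_self _) hp1.le
            · refine h4.trans ?_
              gcongr
        _ = _ := by ring
    have h7 : size T' ≤ 2 ^ (7 / 4 : ℝ) * size T * Real.exp |v| := by
      unfold size
      have h8 := rpow_shift_le hT0 hlow hup (7 / 4)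
      rw [abs_of_pos (by norm_num : (0 : ℝ) < 7 / 4)] at h8
      have h9 : Real.exp (-(Real.pi * T' / 4)) ≤
          Real.exp (-(Real.pi * T / 4)) * Real.exp |v| := by
        rw [← Real.exp_add, Real.exp_le_exp, hT']
        have h10 := neg_abs_le v
        have h11 := abs_nonneg v
        nlinarith
      calc T' ^ (7 / 4 : ℝ) * Real.exp (-(Real.pi * T' / 4))
          ≤ (2 ^ (7 / 4 : ℝ) * T ^ (7 / 4 : ℝ)) * (Real.exp (-(Real.pi * T / 4)) *
            Real.exp |v|) := by gcongr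
        _ = _ := by ring
    have h8 : T' ^ (A + ε) ≤ P * T ^ (A + ε) := rpow_shift_le hT0 hlow hup _
    have h9 : Real.exp (-(2 / 3) * v ^ 2) * Real.exp |v| ≤
        Real.exp 2 * Real.exp (-(1 / 2) * v ^ 2) := by
      rw [← Real.exp_add, ← Real.exp_add, Real.exp_le_exp, ← sq_abs v]
      nlinarith [sq_nonneg (|v| - 3)]
    calc Real.exp (-(2 / 3) * v ^ 2) * ‖flow (c / L) (1 / 2 + T' * I)‖
        ≤ Real.exp (-(2 / 3) * v ^ 2) * ((|C₁| + C₂) *
          ((2 ^ (7 / 4 : ℝ) * size T * Real.exp |v|) * (P * T ^ (A + ε)))) := by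
          gcongr
          exact h6.trans (by gcongr)
      _ = (|C₁| + C₂) * (2 ^ (7 / 4 : ℝ) * P) * (T ^ (A + ε) * size T) *
          (Real.exp (-(2 / 3) * v ^ 2) * Real.exp |v|) := by ring
      _ ≤ (|C₁| + C₂) * (2 ^ (7 / 4 : ℝ) * P) * (T ^ (A + ε) * size T) *
          (Real.exp 2 * Real.exp (-(1 / 2) * v ^ 2)) := by gcongr
      _ = ((|C₁| + C₂) * (2 ^ (7 / 4 : ℝ) * P * Real.exp 2)) *
          (T ^ (A + ε) * size T * Real.exp (-(1 / 2) * v ^ 2)) := by ring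
      _ ≤ ((|C₁| + C₂) * (2 ^ (7 / 4 : ℝ) * P * Real.exp 2) + C₃) *
          (T ^ (A + ε) * size T * Real.exp (-(1 / 2) * v ^ 2)) := by
          gcongr
          linarith
      _ = _ := by ring

lemma abs_two_mul_le {y η : ℝ} (hy : |y| ≤ 1 / 2) (hη : |η| ≤ 1) :
    |2 * y * η + η ^ 2| ≤ 2 * |η| := by
  have h8 : 2 * y * η + η ^ 2 = (2 * y + η) * η := by ring
  rw [h8, abs_mul]
  have h9 : |2 * y + η| ≤ 2 := by
    calc |2 * y + η| ≤ |2 * y| + |η| := abs_add_le _ _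
      _ = 2 * |y| + |η| := by rw [abs_mul, abs_of_pos (by norm_num : (0 : ℝ) < 2)]
      _ ≤ 2 := by linarith
  exact mul_le_mul_of_nonneg_right h9 (abs_nonneg η)

lemma freq_factor {c y η L t ε : ℝ} (hy : |y| ≤ 1 / 2) (hη : |η| ≤ 1) (hcη : |c| * |η| ≤ ε)
    (hL : 0 < L) (ht : t = c / L) (ht1 : |t| ≤ 1 / 2) :
    -(t * ((y + η) * L) ^ 2 / (4 * (1 + t))) ≤ (-(c * y ^ 2 / 4) + ε / 2) * L + 2 * c ^ 2 := by
  have habs := abs_le.mp ht1
  have ht0 : 0 < 1 + t := by linarith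
  have e1 : t * ((y + η) * L) ^ 2 / (4 * (1 + t)) = c * (y + η) ^ 2 * L / 4 / (1 + t) := by
    rw [ht]
    field_simp
  have e2 : c * (y + η) ^ 2 * L / 4 / (1 + t) = c * (y + η) ^ 2 * L / 4 -
      c ^ 2 * (y + η) ^ 2 / 4 / (1 + t) := by
    have e3 : c ^ 2 * (y + η) ^ 2 / 4 / (1 + t) = c * (y + η) ^ 2 * L / 4 * t / (1 + t) := by
      have : c ^ 2 = c * L * t := by rw [ht]; field_simp
      rw [this]
      ring
    rw [e3]
    field_simp
    ring
  rw [e1, e2]
  have h7 : |y + η| ≤ 3 / 2 := (abs_add_le _ _).trans (by linarith)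
  have h8 : (y + η) ^ 2 ≤ 9 / 4 := by
    rw [← sq_abs]
    have h9 : |y + η| ^ 2 ≤ (3 / 2) ^ 2 := pow_le_pow_left₀ (abs_nonneg _) h7 2
    linarith
  have h9 : c ^ 2 * (y + η) ^ 2 / 4 / (1 + t) ≤ 2 * c ^ 2 := by
    rw [div_le_iff₀ ht0]
    have h10 : c ^ 2 * (y + η) ^ 2 ≤ c ^ 2 * (9 / 4) := by gcongr
    have h11 : c ^ 2 * (1 / 2) ≤ c ^ 2 * (1 + t) := by gcongr; linarith
    have h12 := sq_nonneg c
    linarith
  have h10 : -(c * (y + η) ^ 2 * L / 4) ≤ (-(c * y ^ 2 / 4) + ε / 2) * L := by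
    have e3 : -(c * (y + η) ^ 2 * L / 4) = (-(c * y ^ 2 / 4) -
        c * (2 * y * η + η ^ 2) / 4) * L := by ring
    rw [e3]
    apply mul_le_mul_of_nonneg_right _ hL.le
    have h12 : -(c * (2 * y * η + η ^ 2)) ≤ |c| * (2 * |η|) := by
      calc -(c * (2 * y * η + η ^ 2)) ≤ |c * (2 * y * η + η ^ 2)| := neg_le_abs _
        _ = |c| * |2 * y * η + η ^ 2| := abs_mul _ _
        _ ≤ _ := mul_le_mul_of_nonneg_left (abs_two_mul_le hy hη) (abs_nonneg c)
    linarith
  linarith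

theorem win_of_growth {c A : ℝ} (h : GrowthLe c A) {y : ℝ} (hy : |y| ≤ 1 / 2) :
    WinLe y (A - c * y ^ 2 / 4) := by
  intro ε hε
  obtain ⟨C₁, T₁, hC₁, hT₁, h1⟩ := flow_window h (ε := ε / 2) (by positivity)
  have hlog : ∀ᶠ T : ℝ in atTop, 2 * |c| ≤ Real.log T :=
    Real.tendsto_log_atTop.eventually_ge_atTop _
  obtain ⟨T₂, hT₂⟩ := eventually_atTop.mp hlog
  have hc1 : 0 < |c| + 1 := by positivity
  set δ : ℝ := min 1 (ε / (|c| + 1)) with hδ
  have hδ0 : 0 < δ := by positivity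
  have hδ1 : δ ≤ 1 := min_le_left _ _
  have hδ2 : δ ≤ ε / (|c| + 1) := min_le_right _ _
  set T₀ : ℝ := max T₁ T₂ with hT₀
  obtain ⟨B, hB⟩ := win_small T₀
  -- a lower bound of the right side at small heights
  obtain ⟨m, hm0, hm⟩ : ∃ m : ℝ, 0 < m ∧ ∀ T : ℝ, 2 ≤ T → T ≤ T₀ →
      m ≤ T ^ (A - c * y ^ 2 / 4 + ε) * size T := by
    rcases lt_or_ge T₀ 2 with h3 | h3
    · exact ⟨1, one_pos, fun T hT hT' => by linarith⟩
    have hcont : ContinuousOn (fun T : ℝ => T ^ (A - c * y ^ 2 / 4 + ε) * size T)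
        (Icc 2 T₀) := by
      intro T hT
      apply ContinuousAt.continuousWithinAt
      unfold size
      have h3 := Real.continuousAt_rpow_const T (A - c * y ^ 2 / 4 + ε)
        (Or.inl (by linarith [hT.1]))
      have h4 := Real.continuousAt_rpow_const T (7 / 4) (Or.inl (by linarith [hT.1]))
      have h5 : ContinuousAt (fun T : ℝ => Real.exp (-(Real.pi * T / 4))) T := by fun_prop
      exact h3.mul (h4.mul h5)
    obtain ⟨T', hT', hmin⟩ := isCompact_Icc.exists_isMinOn (nonempty_Icc.mpr h3) hcont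
    have hpos : 0 < T' := by linarith [hT'.1]
    have hs := size_pos hpos
    exact ⟨T' ^ (A - c * y ^ 2 / 4 + ε) * size T', by positivity,
      fun T hT hT2 => hmin ⟨hT, hT2⟩⟩
  set E : ℝ := 2 * Real.exp (2 * c ^ 2) * (C₁ * √(Real.pi / (1 / 2))) with hE
  refine ⟨δ, hδ0, max E (|B| / m), fun T ω hT hω => ?_⟩
  have hT0 : 0 < T := by linarith
  have hs0 := size_pos hT0
  have hp : 0 < T ^ (A - c * y ^ 2 / 4 + ε) := by positivity
  rcases le_total T T₀ with h3 | h3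
  · have h4 := hm T hT h3
    calc ‖win ω T‖ ≤ |B| := (hB T ω hT h3).trans (le_abs_self _)
      _ = |B| / m * m := by field_simp
      _ ≤ |B| / m * (T ^ (A - c * y ^ 2 / 4 + ε) * size T) := by gcongr
      _ ≤ max E (|B| / m) * (T ^ (A - c * y ^ 2 / 4 + ε) * size T) := by
          gcongr
          exact le_max_right _ _
      _ = _ := by ring
  have hTa : T₁ ≤ T := (le_max_left _ _).trans h3
  have hTb : T₂ ≤ T := (le_max_right _ _).trans h3
  have hL := log_pos_of hT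
  have hcL := hT₂ T hTb
  set L := Real.log T with hLd
  set t : ℝ := c / L with ht
  have ht1 : |t| ≤ 1 / 2 := by
    rw [ht, abs_div, abs_of_pos hL, div_le_iff₀ hL]
    linarith
  have habs := abs_le.mp ht1
  have ht0 : 0 < 1 + t := by linarith
  have hsq : (√(1 + t))⁻¹ ≤ 2 := by
    have h3 : (1 : ℝ) / 2 ≤ √(1 + t) := Real.le_sqrt_of_sq_le (by nlinarith)
    calc (√(1 + t))⁻¹ ≤ (1 / 2 : ℝ)⁻¹ := by gcongr
      _ = 2 := by norm_num
  rw [win_eq_flow (by linarith : -1 < t), norm_mul, Complex.norm_real, Real.norm_eq_abs,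
    abs_of_nonneg (by positivity)]
  -- the integral
  have h4 : ∀ v : ℝ, ‖exp ((-(v : ℂ) ^ 2 + ω * v * I) / (1 + t)) *
      flow t (1 / 2 + (T + v) * I)‖ ≤
      (C₁ * T ^ (A + ε / 2) * size T) * Real.exp (-(1 / 2) * v ^ 2) := by
    intro v
    rw [norm_mul, Complex.norm_exp]
    have e1 : ((-(v : ℂ) ^ 2 + ω * v * I) / (1 + t)).re = -v ^ 2 / (1 + t) := by
      have : ((-(v : ℂ) ^ 2 + ω * v * I) / (1 + t)) =
          ((-v ^ 2 / (1 + t) : ℝ) : ℂ) + ((ω * v / (1 + t) : ℝ) : ℂ) * I := by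
        push_cast; ring
      rw [this]
      simp [-Complex.ofReal_neg, -Complex.ofReal_pow, -Complex.ofReal_mul,
        -Complex.ofReal_div]
    rw [e1]
    have h5 : Real.exp (-v ^ 2 / (1 + t)) ≤ Real.exp (-(2 / 3) * v ^ 2) := by
      rw [Real.exp_le_exp, div_le_iff₀ ht0]
      nlinarith [sq_nonneg v]
    refine le_trans ?_ (h1 T v hTa)
    gcongr
  have h5 := norm_gauss_le (by norm_num : (0 : ℝ) < 1 / 2) h4
  -- the exponential factor
  set η : ℝ := ω / L - y with hη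
  have hηL : ω = (y + η) * L := by
    rw [hη]; field_simp; ring
  have hη2 : |η| ≤ δ := by
    have e1 : ω - y * L = η * L := by rw [hηL]; ring
    rw [e1, abs_mul, abs_of_pos hL] at hω
    exact le_of_mul_le_mul_right hω hL
  have h6 : -(t * ω ^ 2 / (4 * (1 + t))) ≤ (-(c * y ^ 2 / 4) + ε / 2) * L + 2 * c ^ 2 := by
    rw [hηL]
    refine freq_factor hy (hη2.trans hδ1) ?_ hL rfl ht1
    calc |c| * |η| ≤ (|c| + 1) * (ε / (|c| + 1)) := by
          gcongr
          · linarith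
          · exact hη2.trans hδ2
      _ = ε := by field_simp
  have h7 : Real.exp (-(t * ω ^ 2 / (4 * (1 + t)))) ≤
      T ^ (-(c * y ^ 2 / 4) + ε / 2) * Real.exp (2 * c ^ 2) := by
    rw [Real.rpow_def_of_pos hT0, ← Real.exp_add, Real.exp_le_exp, ← hLd]
    linarith
  have e5 : T ^ (-(c * y ^ 2 / 4) + ε / 2) * T ^ (A + ε / 2) =
      T ^ (A - c * y ^ 2 / 4 + ε) := by
    rw [← Real.rpow_add hT0]; congr 1; ring
  calc (√(1 + t))⁻¹ * Real.exp (-(t * ω ^ 2 / (4 * (1 + t)))) * _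
      ≤ 2 * (T ^ (-(c * y ^ 2 / 4) + ε / 2) * Real.exp (2 * c ^ 2)) *
        ((C₁ * T ^ (A + ε / 2) * size T) * √(Real.pi / (1 / 2))) := by gcongr
    _ = E * (T ^ (-(c * y ^ 2 / 4) + ε / 2) * T ^ (A + ε / 2)) * size T := by
        rw [hE]; ring
    _ = E * T ^ (A - c * y ^ 2 / 4 + ε) * size T := by rw [e5]
    _ ≤ _ := by
        gcongr
        exact le_max_left _ _

/-- the growth exponent at every real time in terms of the smoothed zeta sums -/
theorem growth_iff_sum (c A : ℝ) : GrowthLe c A ↔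
    ∀ α : ℝ, 0 ≤ α → α ≤ 1 → SumLe α (A - c * (α - 1 / 2) ^ 2 / 4) := by
  constructor
  · intro h α h0 h1
    have hy : |α - 1 / 2| ≤ 1 / 2 := abs_le.mpr ⟨by linarith, by linarith⟩
    have h2 := win_of_growth h hy
    have hA := growth_lower h
    have hy2 : (α - 1 / 2) ^ 2 ≤ 1 / 4 := by nlinarith
    have h3 : 0 ≤ A - c * (α - 1 / 2) ^ 2 / 4 := by
      have h4 : c * (α - 1 / 2) ^ 2 / 4 ≤ max 0 (c / 16) := by
        rcases le_total c 0 with hc | hc
        · refine le_trans ?_ (le_max_left _ _)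
          nlinarith [sq_nonneg (α - 1 / 2)]
        · refine le_trans ?_ (le_max_right _ _)
          nlinarith [sq_nonneg (α - 1 / 2)]
      linarith
    have h4 := (winLe_iff hy h3).mp h2
    have e1 : 1 / 2 + (α - 1 / 2) = α := by ring
    rwa [e1] at h4
  · intro h
    apply growth_of_win
    intro y hy
    have habs := abs_le.mp hy
    have h1 := h (1 / 2 + y) (by linarith) (by linarith)
    have e1 : 1 / 2 + y - 1 / 2 = y := by ring
    rw [e1] at h1
    exact (winLe_iff hy (sumLe_nonneg (by linarith) (by linarith) h1)).mpr h1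

end Pool.Agent.DBN
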