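import Pool.Agent.DBN.Vert0

/-!
# The flow at negative times: regularity, growth and symmetry
-/

set_option autoImplicit false

namespace Pool.Agent.DBN

open Complex MeasureTheory Set Filter Topology

/-! ## Symmetry of xi -/

lemma Gammaℝ_conj (s : ℂ) : Gammaℝ ((starRingEnd ℂ) s) = (starRingEnd ℂ) (Gammaℝ s) := by
  rw [Gammaℝ_def, Gammaℝ_def, map_mul, ← Complex.Gamma_conj]
  have h1 : (starRingEnd ℂ) s / 2 = (starRingEnd ℂ) (s / 2) := by
    rw [map_div₀]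
    congr 1
    exact (Complex.conj_ofReal 2).symm
  rw [h1]
  congr 1
  have h2 : -(starRingEnd ℂ) s / 2 = (starRingEnd ℂ) (-s / 2) := by
    rw [map_div₀, map_neg]
    congr 1
    exact (Complex.conj_ofReal 2).symm
  rw [h2]
  have h3 := Complex.cpow_conj (Real.pi : ℂ) (-s / 2)
    (by rw [Complex.arg_ofReal_of_nonneg Real.pi_pos.le]; exact Real.pi_pos.ne)
  rw [Complex.conj_ofReal] at h3
  exact h3

theorem xi_conj (s : ℂ) : xi ((starRingEnd ℂ) s) = (starRingEnd ℂ) (xi s) := by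
  have key : ∀ z : ℂ, z.im ≠ 0 → xi z = z * (z - 1) / 2 * Gammaℝ z * riemannZeta z := by
    intro z hz
    apply xi_eq
    · rintro rfl
      simp at hz
    · rintro rfl
      simp at hz
    · exact gammaR_ne_zero hz
  have h1 : ∀ z : ℂ, z.im ≠ 0 → xi ((starRingEnd ℂ) z) = (starRingEnd ℂ) (xi z) := by
    intro z hz
    have h' : ((starRingEnd ℂ) z).im ≠ 0 := by
      rw [Complex.conj_im]
      exact neg_ne_zero.2 hz
    rw [key z hz, key _ h', riemannZeta_conj, Gammaℝ_conj]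
    simp only [map_mul, map_div₀, map_sub, map_one]
    congr 3
    exact (Complex.conj_ofReal 2).symm
  have hc := differentiable_xi.continuous
  have h2 : (fun r : ℝ => xi ((starRingEnd ℂ) (s + r * I))) =
      fun r : ℝ => (starRingEnd ℂ) (xi (s + r * I)) := by
    apply Continuous.ext_on (dense_compl_singleton (-s.im))
    · exact hc.comp (Complex.continuous_conj.comp (by fun_prop))
    · exact Complex.continuous_conj.comp (hc.comp (by fun_prop))
    · intro r hr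
      apply h1
      intro h0
      apply hr
      simp only [mem_singleton_iff]
      simp at h0
      linarith
  have h3 := congrFun h2 0
  simpa using h3

/-! ## Gaussian averages along a line -/

lemma SubG.deriv {f : ℂ → ℂ} (hf : Differentiable ℂ f) (hS : SubG f) : SubG (deriv f) := by
  intro δ hδ
  obtain ⟨C, hC, h⟩ := hS (δ / 2) (by positivity)
  refine ⟨C * Real.exp δ, by positivity, fun s => ?_⟩
  have h1 : ‖_root_.deriv f s‖ ≤ (C * Real.exp (δ / 2 * (‖s‖ + 1) ^ 2)) / 1 := by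
    apply Complex.norm_deriv_le_of_forall_mem_sphere_norm_le one_pos hf.diffContOnCl
    intro z hz
    refine (h z).trans ?_
    have h2 : ‖z‖ ≤ ‖s‖ + 1 := by
      have h3 : ‖z - s‖ = 1 := by rwa [mem_sphere_iff_norm] at hz
      calc ‖z‖ = ‖s + (z - s)‖ := by congr 1; ring
        _ ≤ ‖s‖ + ‖z - s‖ := norm_add_le _ _
        _ = _ := by rw [h3]
    gcongr
  rw [div_one] at h1
  refine h1.trans ?_
  rw [mul_assoc, ← Real.exp_add]
  apply mul_le_mul_of_nonneg_left _ hC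
  rw [Real.exp_le_exp]
  nlinarith [mul_nonneg hδ.le (sq_nonneg (‖s‖ - 1))]

lemma gauss_bound {f : ℂ → ℂ} (hS : SubG f) (c : ℂ) {δ : ℝ} (hδ : 0 < δ)
    (hδc : 4 * δ * ‖c‖ ^ 2 ≤ 1) : ∃ C : ℝ, 0 ≤ C ∧ ∀ (s : ℂ) (u : ℝ),
      ‖f (s + c * u)‖ ≤ C * Real.exp (2 * δ * ‖s‖ ^ 2) * Real.exp (u ^ 2 / 2) := by
  obtain ⟨C, hC, h⟩ := hS δ hδ
  refine ⟨C, hC, fun s u => (h _).trans ?_⟩
  rw [mul_assoc, ← Real.exp_add]
  apply mul_le_mul_of_nonneg_left _ hC
  rw [Real.exp_le_exp]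
  have h1 : ‖s + c * u‖ ≤ ‖s‖ + ‖c‖ * |u| := by
    refine (norm_add_le _ _).trans_eq ?_
    rw [norm_mul, Complex.norm_real, Real.norm_eq_abs]
  have h2 : ‖s + c * u‖ ^ 2 ≤ (‖s‖ + ‖c‖ * |u|) ^ 2 := by gcongr
  have h3 : (‖s‖ + ‖c‖ * |u|) ^ 2 ≤ 2 * ‖s‖ ^ 2 + 2 * ‖c‖ ^ 2 * u ^ 2 := by
    rw [← sq_abs u]
    nlinarith [sq_nonneg (‖s‖ - ‖c‖ * |u|)]
  have h4 : δ * ‖s + c * u‖ ^ 2 ≤ δ * (2 * ‖s‖ ^ 2 + 2 * ‖c‖ ^ 2 * u ^ 2) :=
    mul_le_mul_of_nonneg_left (h2.trans h3) hδ.le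
  nlinarith [mul_le_mul_of_nonneg_right hδc (sq_nonneg u)]

lemma exists_delta (c : ℂ) : ∃ δ : ℝ, 0 < δ ∧ 4 * δ * ‖c‖ ^ 2 ≤ 1 := by
  refine ⟨1 / (4 * (‖c‖ ^ 2 + 1)), by positivity, ?_⟩
  rw [show 4 * (1 / (4 * (‖c‖ ^ 2 + 1))) * ‖c‖ ^ 2 = ‖c‖ ^ 2 / (‖c‖ ^ 2 + 1) by field_simp]
  rw [div_le_one (by positivity)]
  linarith

lemma exp_half (u : ℝ) : Real.exp (-u ^ 2) * Real.exp (u ^ 2 / 2) = Real.exp (-(1 / 2) * u ^ 2) := by
  rw [← Real.exp_add]
  congr 1
  ring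

lemma integrable_gauss_line {f : ℂ → ℂ} (hf : Continuous f) (hS : SubG f) (c s : ℂ) :
    Integrable fun u : ℝ => (Real.exp (-u ^ 2) : ℂ) * f (s + c * u) := by
  obtain ⟨δ, hδ, hδc⟩ := exists_delta c
  obtain ⟨C, hC, h⟩ := gauss_bound hS c hδ hδc
  have h1 : Integrable fun u : ℝ => C * Real.exp (2 * δ * ‖s‖ ^ 2) *
      Real.exp (-(1 / 2) * u ^ 2) :=
    (integrable_exp_neg_mul_sq (by norm_num)).const_mul _
  refine h1.mono' ?_ (Eventually.of_forall fun u => ?_)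
  · apply Continuous.aestronglyMeasurable
    fun_prop
  · rw [norm_mul, Complex.norm_real, Real.norm_of_nonneg (Real.exp_pos _).le]
    calc Real.exp (-u ^ 2) * ‖f (s + c * u)‖
        ≤ Real.exp (-u ^ 2) * (C * Real.exp (2 * δ * ‖s‖ ^ 2) * Real.exp (u ^ 2 / 2)) :=
          mul_le_mul_of_nonneg_left (h s u) (Real.exp_pos _).le
      _ = C * Real.exp (2 * δ * ‖s‖ ^ 2) * (Real.exp (-u ^ 2) * Real.exp (u ^ 2 / 2)) := by ring
      _ = _ := by rw [exp_half]

lemma differentiable_gauss_line {f : ℂ → ℂ} (hf : Differentiable ℂ f) (hS : SubG f) (c : ℂ) :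
    Differentiable ℂ fun s : ℂ => ∫ u : ℝ, (Real.exp (-u ^ 2) : ℂ) * f (s + c * u) := by
  intro s₀
  obtain ⟨δ, hδ, hδc⟩ := exists_delta c
  obtain ⟨C, hC, h⟩ := gauss_bound (SubG.deriv hf hS) c hδ hδc
  have hfc := hf.continuous
  have hfdc : Continuous (deriv f) := (hf.contDiff (n := 1)).continuous_deriv le_rfl
  have h1 : Integrable fun u : ℝ => C * Real.exp (2 * δ * (‖s₀‖ + 1) ^ 2) *
      Real.exp (-(1 / 2) * u ^ 2) :=
    (integrable_exp_neg_mul_sq (by norm_num)).const_mul _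
  have key := hasDerivAt_integral_of_dominated_loc_of_deriv_le
    (F := fun (s : ℂ) (u : ℝ) => (Real.exp (-u ^ 2) : ℂ) * f (s + c * u))
    (F' := fun (s : ℂ) (u : ℝ) => (Real.exp (-u ^ 2) : ℂ) * deriv f (s + c * u))
    (μ := volume) (x₀ := s₀) (s := Metric.ball s₀ 1) (Metric.ball_mem_nhds _ one_pos)
    (bound := fun u : ℝ => C * Real.exp (2 * δ * (‖s₀‖ + 1) ^ 2) * Real.exp (-(1 / 2) * u ^ 2))
    (Eventually.of_forall fun s => by
      apply Continuous.aestronglyMeasurable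
      fun_prop)
    (integrable_gauss_line hfc hS c s₀)
    (by
      apply Continuous.aestronglyMeasurable
      fun_prop)
    (Eventually.of_forall fun u s hs => by
      rw [norm_mul, Complex.norm_real, Real.norm_of_nonneg (Real.exp_pos _).le]
      have h2 : ‖s‖ ≤ ‖s₀‖ + 1 := by
        have h3 : ‖s - s₀‖ < 1 := by rwa [mem_ball_iff_norm] at hs
        calc ‖s‖ = ‖s₀ + (s - s₀)‖ := by congr 1; ring
          _ ≤ ‖s₀‖ + ‖s - s₀‖ := norm_add_le _ _
          _ ≤ _ := by linarith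
      calc Real.exp (-u ^ 2) * ‖deriv f (s + c * u)‖
          ≤ Real.exp (-u ^ 2) * (C * Real.exp (2 * δ * ‖s‖ ^ 2) * Real.exp (u ^ 2 / 2)) :=
            mul_le_mul_of_nonneg_left (h s u) (Real.exp_pos _).le
        _ ≤ Real.exp (-u ^ 2) *
            (C * Real.exp (2 * δ * (‖s₀‖ + 1) ^ 2) * Real.exp (u ^ 2 / 2)) := by gcongr
        _ = C * Real.exp (2 * δ * (‖s₀‖ + 1) ^ 2) *
            (Real.exp (-u ^ 2) * Real.exp (u ^ 2 / 2)) := by ring
        _ = _ := by rw [exp_half])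
    h1
    (Eventually.of_forall fun u s _ => by
      have h2 : HasDerivAt (fun s : ℂ => f (s + c * u)) (deriv f (s + c * u)) s := by
        have h3 := (hf (s + c * u)).hasDerivAt
        have h4 : HasDerivAt (fun s : ℂ => s + c * u) 1 s := (hasDerivAt_id s).add_const _
        have h5 := h3.comp s h4
        rwa [mul_one] at h5
      exact h2.const_mul _)
  exact key.2.differentiableAt

lemma subG_gauss_line {f : ℂ → ℂ} (hS : SubG f) (c : ℂ) :
    SubG fun s : ℂ => ∫ u : ℝ, (Real.exp (-u ^ 2) : ℂ) * f (s + c * u) := by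
  intro ε hε
  obtain ⟨δ₀, hδ₀, hδc⟩ := exists_delta c
  set δ := min δ₀ (ε / 2) with hδ'
  have hδ : 0 < δ := lt_min hδ₀ (by positivity)
  have h2 : 4 * δ * ‖c‖ ^ 2 ≤ 1 := by
    refine le_trans ?_ hδc
    have : δ ≤ δ₀ := min_le_left _ _
    gcongr
  have h3 : 2 * δ ≤ ε := by
    have : δ ≤ ε / 2 := min_le_right _ _
    linarith
  obtain ⟨C, hC, h⟩ := gauss_bound hS c hδ h2
  have hI : Integrable fun u : ℝ => Real.exp (-(1 / 2) * u ^ 2) :=
    integrable_exp_neg_mul_sq (by norm_num)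
  have hI0 : 0 ≤ ∫ u : ℝ, Real.exp (-(1 / 2) * u ^ 2) :=
    integral_nonneg fun u => (Real.exp_pos _).le
  refine ⟨C * ∫ u : ℝ, Real.exp (-(1 / 2) * u ^ 2), by positivity, fun s => ?_⟩
  calc ‖∫ u : ℝ, (Real.exp (-u ^ 2) : ℂ) * f (s + c * u)‖
      ≤ ∫ u : ℝ, C * Real.exp (2 * δ * ‖s‖ ^ 2) * Real.exp (-(1 / 2) * u ^ 2) := by
        refine norm_integral_le_of_norm_le (hI.const_mul _) (Eventually.of_forall fun u => ?_)
        rw [norm_mul, Complex.norm_real, Real.norm_of_nonneg (Real.exp_pos _).le]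
        calc Real.exp (-u ^ 2) * ‖f (s + c * u)‖
            ≤ Real.exp (-u ^ 2) * (C * Real.exp (2 * δ * ‖s‖ ^ 2) * Real.exp (u ^ 2 / 2)) :=
              mul_le_mul_of_nonneg_left (h s u) (Real.exp_pos _).le
          _ = C * Real.exp (2 * δ * ‖s‖ ^ 2) *
              (Real.exp (-u ^ 2) * Real.exp (u ^ 2 / 2)) := by ring
          _ = _ := by rw [exp_half]
    _ = (C * ∫ u : ℝ, Real.exp (-(1 / 2) * u ^ 2)) * Real.exp (2 * δ * ‖s‖ ^ 2) := by
        rw [integral_const_mul]; ring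
    _ ≤ _ := by
        apply mul_le_mul_of_nonneg_left _ (by positivity)
        rw [Real.exp_le_exp]
        gcongr

/-! ## The flow at negative times -/

lemma flow_vert' {t : ℝ} (ht : t ≤ 0) : flow t = fun s : ℂ =>
    (√Real.pi : ℂ)⁻¹ * ∫ u : ℝ, (Real.exp (-u ^ 2) : ℂ) * xi (s + (√(-t) * I) * u) := by
  funext s
  rw [flow_vert ht]
  congr 1
  refine integral_congr_ae (Eventually.of_forall fun u => ?_)
  simp only
  congr 2
  ring

theorem differentiable_flow_neg {t : ℝ} (ht : t ≤ 0) : Differentiable ℂ (flow t) := by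
  rw [flow_vert' ht]
  exact (differentiable_gauss_line differentiable_xi subG_xi _).const_mul _

theorem subG_flow_neg {t : ℝ} (ht : t ≤ 0) : SubG (flow t) := by
  rw [flow_vert' ht]
  intro δ hδ
  obtain ⟨C, hC, h⟩ := subG_gauss_line subG_xi (√(-t) * I) δ hδ
  refine ⟨‖(√Real.pi : ℂ)⁻¹‖ * C, by positivity, fun s => ?_⟩
  rw [norm_mul, mul_assoc]
  exact mul_le_mul_of_nonneg_left (h s) (norm_nonneg _)

theorem flow_neg_symm {t : ℝ} (ht : t ≤ 0) (s : ℂ) :
    flow t (1 - (starRingEnd ℂ) s) = (starRingEnd ℂ) (flow t s) := by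
  rw [flow_vert ht, flow_vert ht, map_mul, map_inv₀, Complex.conj_ofReal, ← integral_conj]
  congr 1
  refine integral_congr_ae (Eventually.of_forall fun u => ?_)
  simp only
  rw [map_mul, Complex.conj_ofReal, ← xi_conj]
  congr 1
  rw [← xi_one_sub]
  congr 1
  simp only [map_add, map_mul, Complex.conj_ofReal, Complex.conj_I]
  ring

theorem norm_flow_symm {t : ℝ} (ht : t ≤ 0) (σ T : ℝ) :
    ‖flow t (1 / 2 + T * I + (-σ : ℝ))‖ = ‖flow t (1 / 2 + T * I + σ)‖ := by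
  have h1 : (1 / 2 + T * I + (-σ : ℝ) : ℂ) = 1 - (starRingEnd ℂ) (1 / 2 + T * I + σ) := by
    simp only [map_add, map_mul, map_div₀, map_one, Complex.conj_ofReal, Complex.conj_I]
    rw [show (starRingEnd ℂ) (2 : ℂ) = 2 from Complex.conj_ofReal 2]
    push_cast
    ring
  rw [h1, flow_neg_symm ht, Complex.norm_conj]

end Pool.Agent.DBN
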