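import Pool.Agent.DBN.WinSumD
import Pool.Agent.DBN.Newman
import Pool.Agent.DBN.Vert

/-!
# The growth exponents of the smoothed zeta sums are nonnegative
-/

set_option autoImplicit false

namespace Pool.Agent.DBN.Nw

open Complex MeasureTheory Set Filter Topology

/-- the absolute values of the terms of `zsum` -/
noncomputable def wg (N : ℝ) (n : ℕ) : ℝ :=
  Real.exp (-(Real.log ((n + 1 : ℝ) / N)) ^ 2 / 4) * (n + 1 : ℝ) ^ (-(1 / 2) : ℝ)

lemma wg_nonneg (N : ℝ) (n : ℕ) : 0 ≤ wg N n := by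
  rw [wg]
  positivity

lemma wg_le {N : ℝ} (hN : 0 < N) (n : ℕ) :
    wg N n ≤ Real.exp 1 * N * (n + 1 : ℝ) ^ (-(3 / 2) : ℝ) := by
  have h := norm_zt_le hN 0 n
  rwa [norm_zt] at h

lemma wg_le' (N : ℝ) (n : ℕ) : wg N n ≤ (n + 1 : ℝ) ^ (-(1 / 2) : ℝ) := by
  rw [wg]
  have h1 : Real.exp (-(Real.log ((n + 1 : ℝ) / N)) ^ 2 / 4) ≤ 1 := by
    rw [Real.exp_le_one_iff]
    have := sq_nonneg (Real.log ((n + 1 : ℝ) / N))
    linarith
  have h2 : 0 ≤ (n + 1 : ℝ) ^ (-(1 / 2) : ℝ) := by positivity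
  calc _ ≤ 1 * (n + 1 : ℝ) ^ (-(1 / 2) : ℝ) := by gcongr
    _ = _ := one_mul _

lemma zt_mul (N T L : ℝ) (n : ℕ) : zt N T n * exp ((T * L : ℝ) * I) =
    ((wg N n : ℝ) : ℂ) * exp ((T * (L - Real.log (n + 1 : ℝ)) : ℝ) * I) := by
  have hc : ((n + 1 : ℕ) : ℝ) = (n : ℝ) + 1 := by push_cast; ring
  have hc' : ((n + 1 : ℕ) : ℂ) = (((n : ℝ) + 1 : ℝ) : ℂ) := by push_cast; ring
  have h := term_eq (x := (n : ℝ) + 1) (by positivity) T L
  rw [zt, hc, hc', mul_assoc, h, wg]
  push_cast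
  ring

lemma continuous_zt (N : ℝ) (n : ℕ) : Continuous fun T : ℝ => zt N T n := by
  have h : ((n + 1 : ℕ) : ℂ) ≠ 0 := by
    exact_mod_cast Nat.succ_ne_zero n
  unfold zt
  exact continuous_const.mul (Continuous.const_cpow (by fun_prop) (Or.inl h))

lemma continuous_zsum {N : ℝ} (hN : 0 < N) : Continuous fun T : ℝ => zsum N T := by
  have h : (fun T : ℝ => zsum N T) = fun T : ℝ => ∑' n, zt N T n := by
    funext T
    rfl
  rw [h]
  exact continuous_tsum (continuous_zt N) (summable_32.mul_left (Real.exp 1 * N))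
    fun n T => norm_zt_le hN T n

/-- the mean value against one frequency -/
lemma hasSum_freq {N X : ℝ} (hN : 0 < N) (L : ℝ) :
    HasSum (fun n : ℕ => ∫ T in X..(2 * X), ((wg N n : ℝ) : ℂ) *
      exp ((T * (L - Real.log (n + 1 : ℝ)) : ℝ) * I))
      (∫ T in X..(2 * X), zsum N T * exp ((T * L : ℝ) * I)) := by
  refine intervalIntegral.hasSum_integral_of_dominated_convergence (μ := volume)
    (F := fun (n : ℕ) (T : ℝ) => ((wg N n : ℝ) : ℂ) *
      exp ((T * (L - Real.log (n + 1 : ℝ)) : ℝ) * I))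
    (f := fun T : ℝ => zsum N T * exp ((T * L : ℝ) * I))
    (fun (n : ℕ) (_ : ℝ) => Real.exp 1 * N * (n + 1 : ℝ) ^ (-(3 / 2) : ℝ)) ?_ ?_ ?_ ?_ ?_
  · intro n
    exact Continuous.aestronglyMeasurable (by fun_prop)
  · intro n
    refine Filter.Eventually.of_forall fun T _ => ?_
    rw [norm_mul, Complex.norm_real, Real.norm_of_nonneg (wg_nonneg N n),
      Complex.norm_exp_ofReal_mul_I, mul_one]
    exact wg_le hN n
  · exact Filter.Eventually.of_forall fun T _ => summable_32.mul_left _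
  · exact intervalIntegrable_const
  · refine Filter.Eventually.of_forall fun T _ => ?_
    have h := (summable_zt hN T).hasSum.mul_right (exp ((T * L : ℝ) * I))
    simp_rw [zt_mul] at h
    exact h

/-- one frequency from below -/
lemma freq_lower {N X : ℝ} {K m : ℕ} (hX : 0 ≤ X) (hN1 : (K : ℝ) ≤ N) (hN2 : N ≤ K + 1)
    (hKm : K < m) (hm : m ≤ 2 * K) :
    X / (4 * (K : ℝ) ^ (1 / 2 : ℝ)) -
      (4 * Real.exp 1 * S32 * N + 32 * K * (K : ℝ) ^ (1 / 2 : ℝ)) ≤
      (∫ T in X..(2 * X), zsum N T * exp ((T * Real.log m : ℝ) * I)).re := by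
  have hK0 : 0 < K := by omega
  have hKR : (1 : ℝ) ≤ K := by exact_mod_cast hK0
  have hN0 : 0 < N := by linarith
  have hmR : (0 : ℝ) < m := by
    have : 0 < m := by omega
    exact_mod_cast this
  have hm1 : (K : ℝ) + 1 ≤ m := by
    have : K + 1 ≤ m := hKm
    exact_mod_cast this
  have hm2 : (m : ℝ) ≤ 2 * K := by exact_mod_cast hm
  set n₀ : ℕ := m - 1 with hn₀
  have hn₀R : (n₀ : ℝ) + 1 = m := by
    have : n₀ + 1 = m := by omega
    exact_mod_cast this
  set f : ℕ → ℂ := fun n : ℕ => ∫ T in X..(2 * X), ((wg N n : ℝ) : ℂ) *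
      exp ((T * (Real.log m - Real.log (n + 1 : ℝ)) : ℝ) * I) with hf
  have hsum : HasSum f (∫ T in X..(2 * X), zsum N T * exp ((T * Real.log m : ℝ) * I)) :=
    hasSum_freq hN0 _
  set M : ℂ := ∫ T in X..(2 * X), zsum N T * exp ((T * Real.log m : ℝ) * I) with hM
  -- the diagonal term
  have hdiag : f n₀ = ((wg N n₀ * X : ℝ) : ℂ) := by
    rw [hf]
    simp only
    rw [hn₀R]
    simp only [sub_self, mul_zero, ofReal_zero, zero_mul, Complex.exp_zero, mul_one,
      intervalIntegral.integral_const, Complex.real_smul]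
    push_cast
    ring
  have hwg : (4 * (K : ℝ) ^ (1 / 2 : ℝ))⁻¹ ≤ wg N n₀ := by
    rw [wg, hn₀R]
    have h1 : 1 ≤ (m : ℝ) / N := by
      rw [le_div_iff₀ hN0]
      linarith
    have h2 : (m : ℝ) / N ≤ 2 := by
      rw [div_le_iff₀ hN0]
      linarith
    have h3 : 0 ≤ Real.log ((m : ℝ) / N) := Real.log_nonneg h1
    have h4 : Real.log ((m : ℝ) / N) ≤ 1 := by
      have := Real.log_le_log (by positivity) h2
      have h5 := Real.log_two_lt_d9
      linarith
    have h5 : 1 / 2 ≤ Real.exp (-(Real.log ((m : ℝ) / N)) ^ 2 / 4) := by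
      have h6 := Real.add_one_le_exp (-(Real.log ((m : ℝ) / N)) ^ 2 / 4)
      nlinarith
    have h6 : (2 * (K : ℝ) ^ (1 / 2 : ℝ))⁻¹ ≤ (m : ℝ) ^ (-(1 / 2) : ℝ) := by
      have h3 : (2 * (K : ℝ) ^ (1 / 2 : ℝ))⁻¹ = (4 * K : ℝ) ^ (-(1 / 2) : ℝ) := by
        rw [Real.rpow_neg (by positivity), Real.mul_rpow (by norm_num) (by positivity)]
        congr 2
        rw [show (4 : ℝ) = 2 ^ (2 : ℝ) by norm_num, ← Real.rpow_mul (by norm_num)]
        norm_num
      rw [h3]
      apply Real.rpow_le_rpow_of_nonpos (by positivity) (by linarith) (by norm_num)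
    calc (4 * (K : ℝ) ^ (1 / 2 : ℝ))⁻¹ = 1 / 2 * (2 * (K : ℝ) ^ (1 / 2 : ℝ))⁻¹ := by
          field_simp
          norm_num
      _ ≤ _ := by gcongr
  -- the rest
  have hrest : HasSum (fun n => f n - if n = n₀ then f n₀ else 0) (M - f n₀) :=
    hsum.sub (hasSum_ite_eq n₀ (f n₀))
  set g : ℕ → ℝ := fun n => 4 * Real.exp 1 * N * (n + 1 : ℝ) ^ (-(3 / 2) : ℝ) +
    (if n < 4 * K then 8 * K * (n + 1 : ℝ) ^ (-(1 / 2) : ℝ) else 0) with hg
  have hgs : HasSum g (4 * Real.exp 1 * N * S32 + ∑ n ∈ Finset.range (4 * K),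
      (if n < 4 * K then 8 * K * (n + 1 : ℝ) ^ (-(1 / 2) : ℝ) else 0)) := by
    apply HasSum.add
    · exact summable_32.hasSum.mul_left _
    · apply hasSum_sum_of_ne_finset_zero
      intro n hn
      rw [Finset.mem_range] at hn
      rw [if_neg hn]
  have hfg : ∀ n, ‖f n - if n = n₀ then f n₀ else 0‖ ≤ g n := by
    intro n
    by_cases hn : n = n₀
    · rw [if_pos hn, hn, sub_self, norm_zero, hg]
      simp only
      split_ifs <;> positivity
    · rw [if_neg hn, sub_zero, hf]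
      simp only
      have hn' : n + 1 ≠ m := by omega
      have hn1 : (0 : ℝ) < (n : ℝ) + 1 := by positivity
      have hne : Real.log m - Real.log (n + 1 : ℝ) ≠ 0 := by
        intro h
        have h1 : Real.log m = Real.log (n + 1 : ℝ) := by linarith
        have h2 := Real.log_injOn_pos (mem_Ioi.2 hmR) (mem_Ioi.2 hn1) h1
        have h3 : ((n + 1 : ℕ) : ℝ) = (m : ℝ) := by push_cast; linarith
        exact hn' (by exact_mod_cast h3)
      rw [intervalIntegral.integral_const_mul, norm_mul, Complex.norm_real,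
        Real.norm_of_nonneg (wg_nonneg N n)]
      have h1 := osc_one (X := X) hX hne
      have h2 := inv_gap hKm hm hn'
      have hw0 := wg_nonneg N n
      have hw1 := wg_le hN0 n
      have hw2 := wg_le' N n
      calc wg N n * ‖∫ T in X..(2 * X), exp ((T * (Real.log m - Real.log (n + 1 : ℝ)) : ℝ) * I)‖
          ≤ wg N n * (2 / |Real.log m - Real.log (n + 1 : ℝ)|) := by gcongr
        _ = 2 * wg N n * (1 / |Real.log m - Real.log (n + 1 : ℝ)|) := by ring
        _ ≤ 2 * wg N n * (2 + (if n < 4 * K then (4 * K : ℝ) else 0)) := by gcongr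
        _ ≤ g n := by
          rw [hg]
          simp only
          split_ifs
          · have h3 : 8 * K * wg N n ≤ 8 * K * (n + 1 : ℝ) ^ (-(1 / 2) : ℝ) := by gcongr
            linarith
          · linarith
  have hnorm := hrest.norm_le_of_bounded hgs hfg
  have hfin : ∑ n ∈ Finset.range (4 * K),
      (if n < 4 * K then 8 * K * (n + 1 : ℝ) ^ (-(1 / 2) : ℝ) else 0) ≤
      32 * K * (K : ℝ) ^ (1 / 2 : ℝ) := by
    have h1 : ∑ n ∈ Finset.range (4 * K),
        (if n < 4 * K then 8 * K * (n + 1 : ℝ) ^ (-(1 / 2) : ℝ) else 0) =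
        8 * K * ∑ n ∈ Finset.range (4 * K), (n + 1 : ℝ) ^ (-(1 / 2) : ℝ) := by
      rw [Finset.mul_sum]
      refine Finset.sum_congr rfl fun n hn => ?_
      rw [if_pos (Finset.mem_range.1 hn)]
    rw [h1]
    have h2 := sum_rpow_half (4 * K)
    push_cast at h2
    rw [Real.mul_rpow (by norm_num) (Nat.cast_nonneg K)] at h2
    have h4 : (4 : ℝ) ^ (1 / 2 : ℝ) = 2 := by
      rw [show (4 : ℝ) = 2 ^ (2 : ℝ) by norm_num, ← Real.rpow_mul (by norm_num)]
      norm_num
    rw [h4] at h2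
    calc 8 * (K : ℝ) * ∑ n ∈ Finset.range (4 * K), (n + 1 : ℝ) ^ (-(1 / 2) : ℝ) ≤
        8 * K * (2 * (2 * (K : ℝ) ^ (1 / 2 : ℝ))) := by gcongr
      _ = _ := by ring
  have hre : M.re = wg N n₀ * X + (M - f n₀).re := by
    rw [Complex.sub_re, hdiag, Complex.ofReal_re]
    ring
  have hre2 := (abs_le.1 (Complex.abs_re_le_norm (M - f n₀))).1
  have h7 : X / (4 * (K : ℝ) ^ (1 / 2 : ℝ)) ≤ wg N n₀ * X := by
    rw [div_eq_inv_mul]
    gcongr
  rw [hre]
  linarith

/-- the mean value -/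
lemma mean_big {N X S : ℝ} {K : ℕ} (hX : 0 < X) (hK : 0 < K) (hN1 : (K : ℝ) ≤ N)
    (hN2 : N ≤ K + 1) (hK2 : (K : ℝ) ^ 2 ≤ X) (hS : ∀ T ∈ Icc X (2 * X), ‖zsum N T‖ ≤ S) :
    X / 4 ≤ 3 * S * X + (8 * Real.exp 1 * S32 + 32) * (K : ℝ) ^ 2 := by
  have hX2 : X ≤ 2 * X := by linarith
  have hKR : (1 : ℝ) ≤ K := by exact_mod_cast hK
  have hN0 : 0 < N := by linarith
  set r : ℝ := (K : ℝ) ^ (1 / 2 : ℝ) with hr
  have hr0 : 0 < r := by positivity
  have hr2 : r ^ 2 = K := by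
    rw [hr, ← Real.rpow_natCast, ← Real.rpow_mul (by linarith)]
    norm_num
  have hr1 : 1 ≤ r := Real.one_le_rpow hKR (by norm_num)
  have hcard : (Finset.Ioc K (2 * K)).card = K := by
    rw [Nat.card_Ioc]; omega
  have hcz := continuous_zsum hN0
  have e1 : (∫ T in X..(2 * X), zsum N T * tst K T) =
      ∑ m ∈ Finset.Ioc K (2 * K), ∫ T in X..(2 * X), zsum N T * exp ((T * Real.log m : ℝ) * I) := by
    have e2 : ∀ T : ℝ, zsum N T * tst K T = ∑ m ∈ Finset.Ioc K (2 * K),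
        zsum N T * exp ((T * Real.log m : ℝ) * I) := by
      intro T
      rw [tst, Finset.mul_sum]
    simp_rw [e2]
    rw [intervalIntegral.integral_finsetSum]
    intro m _
    exact (hcz.mul (by fun_prop)).intervalIntegrable _ _
  have hlow : (K : ℝ) * (X / (4 * r) - (4 * Real.exp 1 * S32 * N + 32 * K * r)) ≤
      (∫ T in X..(2 * X), zsum N T * tst K T).re := by
    rw [e1, Complex.re_sum]
    calc _ = ∑ m ∈ Finset.Ioc K (2 * K),
        (X / (4 * r) - (4 * Real.exp 1 * S32 * N + 32 * K * r)) := by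
          rw [Finset.sum_const, hcard, nsmul_eq_mul]
      _ ≤ _ := Finset.sum_le_sum fun m hm => by
          rw [Finset.mem_Ioc] at hm
          exact freq_lower hX.le hN1 hN2 hm.1 hm.2
  have hS0 : 0 ≤ S := (norm_nonneg _).trans (hS X ⟨le_rfl, hX2⟩)
  have hup : (∫ T in X..(2 * X), zsum N T * tst K T).re ≤ S * (3 * r * X) := by
    have hct := continuous_tst K
    calc (∫ T in X..(2 * X), zsum N T * tst K T).re ≤
        ‖∫ T in X..(2 * X), zsum N T * tst K T‖ := Complex.re_le_norm _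
      _ ≤ ∫ T in X..(2 * X), ‖zsum N T * tst K T‖ :=
          intervalIntegral.norm_integral_le_integral_norm hX2
      _ ≤ ∫ T in X..(2 * X), S * ‖tst K T‖ := by
          apply intervalIntegral.integral_mono_on hX2
          · exact (hcz.mul hct).norm.intervalIntegrable _ _
          · exact (continuous_const.mul hct.norm).intervalIntegrable _ _
          · intro T hT
            rw [norm_mul]
            gcongr
            exact hS T hT
      _ = S * ∫ T in X..(2 * X), ‖tst K T‖ := intervalIntegral.integral_const_mul _ _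
      _ ≤ S * (3 * r * X) := by
          gcongr
          exact tst_int hX.le hK hK2
  have h1 := hlow.trans hup
  have hS32 := S32_nonneg
  have h2 : (K : ℝ) * (X / (4 * r)) = r * (X / 4) := by
    rw [← hr2]
    field_simp
  have h3 : (K : ℝ) * (4 * Real.exp 1 * S32 * N + 32 * K * r) ≤
      r * ((8 * Real.exp 1 * S32 + 32) * (K : ℝ) ^ 2) := by
    have h4 : N ≤ 2 * K * r := by nlinarith
    have h5 : 4 * Real.exp 1 * S32 * N ≤ 4 * Real.exp 1 * S32 * (2 * K * r) := by gcongr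
    calc (K : ℝ) * (4 * Real.exp 1 * S32 * N + 32 * K * r) ≤
        (K : ℝ) * (4 * Real.exp 1 * S32 * (2 * K * r) + 32 * K * r) := by gcongr
      _ = _ := by ring
  have h6 : r * (X / 4) ≤ r * (3 * S * X + (8 * Real.exp 1 * S32 + 32) * (K : ℝ) ^ 2) := by
    rw [mul_sub, h2] at h1
    linarith
  exact le_of_mul_le_mul_left h6 hr0

end Pool.Agent.DBN.Nw

namespace Pool.Agent.DBN

open Complex MeasureTheory Set Filter Topology Nw

/-- for `0 < β < 1/2` some smoothed sum of length `X^β` at a height in `[X, 2X]` is large -/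
theorem exists_big {β : ℝ} (hβ0 : 0 < β) (hβ1 : β < 1 / 2) : ∃ X₀ : ℝ, 2 ≤ X₀ ∧
    ∀ X : ℝ, X₀ ≤ X → ∃ T ∈ Icc X (2 * X), 1 / 24 < ‖zsum (X ^ β) T‖ := by
  have hS32 := S32_nonneg
  set D : ℝ := 8 * Real.exp 1 * S32 + 32 with hD
  have hD0 : 0 < D := by positivity
  have hlim : Tendsto (fun X : ℝ => D * X ^ (-(1 - 2 * β))) atTop (𝓝 (D * 0)) :=
    (tendsto_rpow_neg_atTop (by linarith)).const_mul D
  rw [mul_zero] at hlim
  have hev := hlim.eventually (gt_mem_nhds (show (0 : ℝ) < 1 / 8 by norm_num))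
  obtain ⟨X₁, hX₁⟩ := (hev.and (eventually_ge_atTop 2)).exists_forall_of_atTop
  refine ⟨max X₁ 2, le_max_right _ _, fun X hX => ?_⟩
  obtain ⟨h1, _⟩ := hX₁ X ((le_max_left _ _).trans hX)
  have hX2 : 2 ≤ X := (le_max_right _ _).trans hX
  have hX0 : 0 < X := by linarith
  by_contra hcon
  push Not at hcon
  set N : ℝ := X ^ β with hN
  have hN1 : 1 ≤ N := Real.one_le_rpow (by linarith) hβ0.le
  set K : ℕ := ⌊N⌋₊ with hK
  have hK1 : (K : ℝ) ≤ N := Nat.floor_le (by linarith)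
  have hK2 : N ≤ K + 1 := (Nat.lt_floor_add_one N).le
  have hK0 : 0 < K := Nat.floor_pos.2 hN1
  have hKsq : (K : ℝ) ^ 2 ≤ X ^ (2 * β) := by
    calc (K : ℝ) ^ 2 ≤ N ^ 2 := by gcongr
      _ = X ^ (2 * β) := by
        rw [hN, ← Real.rpow_natCast, ← Real.rpow_mul hX0.le]
        congr 1
        push_cast
        ring
  have hKX : (K : ℝ) ^ 2 ≤ X := by
    refine hKsq.trans ?_
    calc X ^ (2 * β) ≤ X ^ (1 : ℝ) := Real.rpow_le_rpow_of_exponent_le (by linarith) (by linarith)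
      _ = X := Real.rpow_one X
  have h2 := mean_big hX0 hK0 hK1 hK2 hKX hcon
  have h3 : D * (K : ℝ) ^ 2 ≤ D * X ^ (-(1 - 2 * β)) * X := by
    have h4 : X ^ (-(1 - 2 * β)) * X = X ^ (2 * β) := by
      nth_rewrite 2 [← Real.rpow_one X]
      rw [← Real.rpow_add hX0]
      congr 1
      ring
    rw [mul_assoc, h4]
    gcongr
  have h5 : D * X ^ (-(1 - 2 * β)) * X < 1 / 8 * X := by gcongr
  linarith

lemma sumLe_mono {α a b : ℝ} (hab : a ≤ b) (h : SumLe α a) : SumLe α b := by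
  intro ε hε
  obtain ⟨δ, hδ, C, h1⟩ := h ε hε
  refine ⟨δ, hδ, |C|, fun T N hT hN1 hN2 => ?_⟩
  have hT0 : 0 < T := by linarith
  refine (h1 T N hT hN1 hN2).trans ?_
  have h2 : T ^ (a + ε) ≤ T ^ (b + ε) :=
    Real.rpow_le_rpow_of_exponent_le (by linarith) (by linarith)
  calc C * T ^ (a + ε) ≤ |C| * T ^ (a + ε) := by
        gcongr
        exact le_abs_self _
    _ ≤ _ := by gcongr

/-- the first half of the range -/
theorem sumLe_nonneg_aux {α a : ℝ} (h0 : 0 ≤ α) (h1 : α ≤ 1 / 2) (h : SumLe α a) : 0 ≤ a := by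
  by_contra ha
  push Not at ha
  obtain ⟨δ, hδ, C, hC⟩ := h (-a / 2) (by linarith)
  -- a length exponent inside the range
  obtain ⟨β, hβ0, hβ1, hβa, hβb⟩ : ∃ β : ℝ, 0 < β ∧ β < 1 / 2 ∧ α - δ / 2 < β ∧ β < α + δ / 2 := by
    set η : ℝ := min (δ / 4) (1 / 8) with hη
    have hη0 : 0 < η := lt_min (by positivity) (by norm_num)
    have hη1 : η ≤ δ / 4 := min_le_left _ _
    have hη2 : η ≤ 1 / 8 := min_le_right _ _
    rcases le_total α (1 / 4) with h2 | h2
    · exact ⟨α + η, by linarith, by linarith, by linarith, by linarith⟩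
    · exact ⟨α - η, by linarith, by linarith, by linarith, by linarith⟩
  obtain ⟨X₀, hX₀, hbig⟩ := exists_big hβ0 hβ1
  have hlim1 : Tendsto (fun X : ℝ => |C| * X ^ (-(-a / 2))) atTop (𝓝 (|C| * 0)) :=
    (tendsto_rpow_neg_atTop (by linarith)).const_mul |C|
  rw [mul_zero] at hlim1
  have hev1 := hlim1.eventually (gt_mem_nhds (show (0 : ℝ) < 1 / 24 by norm_num))
  have hev2 := (tendsto_rpow_atTop (show 0 < δ / 2 by positivity)).eventually_ge_atTop
    (Real.exp |α - δ|)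
  obtain ⟨X, hX1, hX2, hX3⟩ := (hev1.and (hev2.and (eventually_ge_atTop X₀))).exists
  obtain ⟨T, hT, hTbig⟩ := hbig X hX3
  have hX2' : 2 ≤ X := hX₀.trans hX3
  have hX0 : 0 < X := by linarith
  have hT2 : 2 ≤ T := hX2'.trans hT.1
  have hT0 : 0 < T := by linarith
  obtain ⟨hl1, hl2⟩ := log_near hX0 hT.1 hT.2
  have hN1 : T ^ (α - δ) ≤ X ^ β := by
    calc T ^ (α - δ) ≤ Real.exp |α - δ| * X ^ (α - δ) :=
          rpow_near hX0 hT0 (abs_le.2 ⟨by linarith, by linarith⟩) _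
      _ ≤ X ^ (δ / 2) * X ^ (α - δ) := by gcongr
      _ = X ^ (α - δ / 2) := by
        rw [← Real.rpow_add hX0]
        congr 1
        ring
      _ ≤ X ^ β := Real.rpow_le_rpow_of_exponent_le (by linarith) hβa.le
  have hN2 : X ^ β ≤ T ^ (α + δ) := by
    calc X ^ β ≤ T ^ β := Real.rpow_le_rpow hX0.le hT.1 hβ0.le
      _ ≤ T ^ (α + δ) := Real.rpow_le_rpow_of_exponent_le (by linarith) (by linarith)
  have h2 := hC T (X ^ β) hT2 hN1 hN2
  have h3 : T ^ (a + -a / 2) ≤ X ^ (-(-a / 2)) := by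
    have e : a + -a / 2 = -(-a / 2) := by ring
    rw [e]
    exact Real.rpow_le_rpow_of_nonpos hX0 hT.1 (by linarith)
  have h4 : C * T ^ (a + -a / 2) ≤ |C| * X ^ (-(-a / 2)) := by
    calc C * T ^ (a + -a / 2) ≤ |C| * T ^ (a + -a / 2) := by
          gcongr
          exact le_abs_self _
      _ ≤ _ := by gcongr
  linarith

/-- symmetry of the windowed transform -/
theorem norm_win_neg (ω T : ℝ) : ‖win (-ω) T‖ = ‖win ω T‖ := by
  have h : win (-ω) T = (starRingEnd ℂ) (win ω T) := by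
    rw [win, win, ← integral_conj]
    congr 1
    funext v
    rw [map_mul, ← xi_conj, ← Complex.exp_conj]
    have e1 : (starRingEnd ℂ) (1 / 2 + ((T : ℂ) + v) * I) = 1 - (1 / 2 + ((T : ℂ) + v) * I) := by
      simp only [map_add, map_mul, map_div₀, map_one, Complex.conj_ofReal, Complex.conj_I]
      have e2 : (starRingEnd ℂ) 2 = 2 := Complex.conj_ofReal 2
      rw [e2]
      ring
    have e3 : (starRingEnd ℂ) (-(v : ℂ) ^ 2 + ω * v * I) = -(v : ℂ) ^ 2 + ((-ω : ℝ) : ℂ) * v * I := by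
      simp only [map_add, map_mul, map_neg, map_pow, Complex.conj_ofReal, Complex.conj_I]
      push_cast
      ring
    rw [e1, e3, xi_one_sub]
  rw [h, RCLike.norm_conj]

theorem winLe_neg {y a : ℝ} (h : WinLe y a) : WinLe (-y) a := by
  intro ε hε
  obtain ⟨δ, hδ, C, h1⟩ := h ε hε
  refine ⟨δ, hδ, C, fun T ω hT hω => ?_⟩
  rw [← norm_win_neg]
  apply h1 T (-ω) hT
  rw [← abs_neg]
  convert hω using 2
  ring

/-- the growth exponents of the smoothed zeta sums of all lengths are nonnegative -/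
theorem sumLe_nonneg {α a : ℝ} (h0 : 0 ≤ α) (h1 : α ≤ 1) (h : SumLe α a) : 0 ≤ a := by
  rcases le_total α (1 / 2) with h2 | h2
  · exact sumLe_nonneg_aux h0 h2 h
  · by_contra ha
    push Not at ha
    have h3 : SumLe (1 / 2 + (α - 1 / 2)) (max a (-(1 / 20))) := by
      rw [show 1 / 2 + (α - 1 / 2) = α by ring]
      exact sumLe_mono (le_max_left _ _) h
    have h4 := winLe_of_sumLe (y := α - 1 / 2) (abs_le.2 ⟨by linarith, by linarith⟩)
      (le_max_right _ _) h3
    have h5 := winLe_neg h4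
    have h6 := sumLe_of_winLe (y := -(α - 1 / 2)) (abs_le.2 ⟨by linarith, by linarith⟩)
      (le_max_right _ _) h5
    have h7 := sumLe_nonneg_aux (by linarith) (by linarith) h6
    rcases le_total a (-(1 / 20)) with h8 | h8
    · rw [max_eq_right h8] at h7
      linarith
    · rw [max_eq_left h8] at h7
      linarith

end Pool.Agent.DBN
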