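import Pool.Agent.DBN.WinSumB

/-!
# The windowed Fourier transform of xi is a smoothed zeta sum, III
-/

set_option autoImplicit false

namespace Pool.Agent.DBN.Nw

open Complex MeasureTheory Set Filter Topology

/-- the terms of `zsum` -/
noncomputable def zt (N T : ℝ) (n : ℕ) : ℂ :=
  (Real.exp (-(Real.log ((n + 1 : ℕ) / N)) ^ 2 / 4) : ℂ) *
    ((n + 1 : ℕ) : ℂ) ^ (-(1 / 2 + T * I) : ℂ)

lemma zsum_eq (N T : ℝ) : zsum N T = ∑' n, zt N T n := rfl

lemma norm_zt (N T : ℝ) (n : ℕ) : ‖zt N T n‖ =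
    Real.exp (-(Real.log ((n + 1 : ℝ) / N)) ^ 2 / 4) * (n + 1 : ℝ) ^ (-(1 / 2) : ℝ) := by
  have hc : ((n + 1 : ℕ) : ℝ) = (n : ℝ) + 1 := by push_cast; ring
  have hc' : ((n + 1 : ℕ) : ℂ) = (((n : ℝ) + 1 : ℝ) : ℂ) := by push_cast; ring
  rw [zt, norm_mul, Complex.norm_real, Real.norm_of_nonneg (Real.exp_pos _).le, hc, hc',
    norm_cpow_eq_rpow_re_of_pos (by positivity)]
  congr 2
  simp

lemma norm_zt_le {N : ℝ} (hN : 0 < N) (T : ℝ) (n : ℕ) :
    ‖zt N T n‖ ≤ Real.exp 1 * N * (n + 1 : ℝ) ^ (-(3 / 2) : ℝ) := by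
  have hn : (0 : ℝ) < (n : ℝ) + 1 := by positivity
  rw [norm_zt]
  set L : ℝ := Real.log ((n + 1 : ℝ) / N) with hL
  have h1 : Real.exp (-L ^ 2 / 4) ≤ Real.exp 1 * (N / (n + 1)) := by
    have h2 : Real.exp (-L) = N / (n + 1) := by
      rw [hL, Real.exp_neg, Real.exp_log (by positivity), inv_div]
    rw [← h2, ← Real.exp_add, Real.exp_le_exp]
    nlinarith [sq_nonneg (L / 2 - 1)]
  have h3 : (n + 1 : ℝ) ^ (-(3 / 2) : ℝ) = (n + 1 : ℝ)⁻¹ * (n + 1 : ℝ) ^ (-(1 / 2) : ℝ) := by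
    rw [← Real.rpow_neg_one, ← Real.rpow_add hn]
    norm_num
  rw [h3]
  calc Real.exp (-L ^ 2 / 4) * (n + 1 : ℝ) ^ (-(1 / 2) : ℝ) ≤
        Real.exp 1 * (N / (n + 1)) * (n + 1 : ℝ) ^ (-(1 / 2) : ℝ) := by gcongr
    _ = _ := by ring

lemma summable_32 : Summable fun n : ℕ => (n + 1 : ℝ) ^ (-(3 / 2) : ℝ) := by
  have h1 := (Real.summable_nat_rpow (p := -(3 / 2))).mpr (by norm_num)
  have h2 := (summable_nat_add_iff 1).mpr h1
  simpa using h2

lemma summable_zt {N : ℝ} (hN : 0 < N) (T : ℝ) : Summable (zt N T) := by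
  apply Summable.of_norm_bounded (g := fun n : ℕ => Real.exp 1 * N * (n + 1 : ℝ) ^ (-(3 / 2) : ℝ))
  · exact summable_32.mul_left _
  · exact norm_zt_le hN T

/-- the constant -/
noncomputable def S32 : ℝ := ∑' n : ℕ, (n + 1 : ℝ) ^ (-(3 / 2) : ℝ)

lemma S32_nonneg : 0 ≤ S32 := tsum_nonneg fun n => by positivity

/-- crude bound of the smoothed sums -/
lemma norm_zsum_le {N : ℝ} (hN : 0 < N) (T : ℝ) : ‖zsum N T‖ ≤ Real.exp 1 * S32 * N := by
  rw [zsum_eq]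
  have h := tsum_of_norm_bounded ((summable_32.mul_left (Real.exp 1 * N)).hasSum)
    (norm_zt_le hN T)
  rw [tsum_mul_left] at h
  refine h.trans (le_of_eq ?_)
  rw [S32]
  ring

lemma log_len (ω : ℝ) {T : ℝ} (hT : 0 < T) : Real.log (Real.exp ω * √(T / (2 * Real.pi))) =
    ω + Real.log (T / (2 * Real.pi)) / 2 := by
  have hpi := Real.pi_pos
  have h : 0 < √(T / (2 * Real.pi)) := Real.sqrt_pos.2 (by positivity)
  rw [Real.log_mul (Real.exp_pos _).ne' h.ne', Real.log_exp, Real.log_sqrt (by positivity)]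

/-- the constant factor -/
noncomputable def cf (l : ℝ) : ℂ :=
  (√Real.pi : ℂ) * exp (((Real.pi ^ 2 / 64 : ℝ) : ℂ) + ((-(Real.pi / 8 * l) : ℝ) : ℂ) * I)

lemma norm_cf (l : ℝ) : ‖cf l‖ = √Real.pi * Real.exp (Real.pi ^ 2 / 64) := by
  rw [cf, norm_mul, Complex.norm_real, Real.norm_of_nonneg (Real.sqrt_nonneg _), Complex.norm_exp,
    Complex.add_re, Complex.ofReal_re, Complex.re_ofReal_mul, Complex.I_re, mul_zero, add_zero]

lemma one_le_cf (l : ℝ) : 1 ≤ ‖cf l‖ := by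
  rw [norm_cf]
  have h1 : 1 ≤ √Real.pi := by
    rw [Real.one_le_sqrt]
    linarith [Real.pi_gt_three]
  have h2 : 1 ≤ Real.exp (Real.pi ^ 2 / 64) := Real.one_le_exp (by positivity)
  nlinarith

lemma cf_le (l : ℝ) : ‖cf l‖ ≤ 2 * Real.exp 1 := by
  rw [norm_cf]
  have h1 : √Real.pi ≤ 2 := by
    rw [Real.sqrt_le_left (by norm_num)]
    linarith [Real.pi_lt_four]
  have h2 : Real.exp (Real.pi ^ 2 / 64) ≤ Real.exp 1 := by
    rw [Real.exp_le_exp]
    nlinarith [Real.pi_lt_four, Real.pi_pos]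
  have h3 := Real.exp_pos (Real.pi ^ 2 / 64)
  calc √Real.pi * Real.exp (Real.pi ^ 2 / 64) ≤ 2 * Real.exp 1 := by gcongr

lemma term_id (ω : ℝ) {T : ℝ} (hT : 0 < T) (n : ℕ) :
    (√Real.pi : ℂ) * (exp (-(bb ω T (n + 1)) ^ 2 / 4) *
      ((n + 1 : ℝ) : ℂ) ^ (-(1 / 2 + T * I : ℂ))) =
    cf (Real.log (Real.exp ω * √(T / (2 * Real.pi)))) *
      zt (Real.exp ω * √(T / (2 * Real.pi))) (T - Real.pi / 8) n := by
  have hpi := Real.pi_pos
  have hN : 0 < Real.exp ω * √(T / (2 * Real.pi)) :=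
    mul_pos (Real.exp_pos _) (Real.sqrt_pos.2 (by positivity))
  have hn : (0 : ℝ) < (n : ℝ) + 1 := by positivity
  have hn' : (((n : ℝ) + 1 : ℝ) : ℂ) ≠ 0 := by exact_mod_cast hn.ne'
  have hc : ((n + 1 : ℕ) : ℝ) = (n : ℝ) + 1 := by push_cast; ring
  have hc' : ((n + 1 : ℕ) : ℂ) = (((n : ℝ) + 1 : ℝ) : ℂ) := by push_cast; ring
  rw [zt, hc, hc', Real.log_div hn.ne' hN.ne', log_len ω hT, cf, bb,
    Complex.cpow_def_of_ne_zero hn', Complex.cpow_def_of_ne_zero hn', ← Complex.ofReal_log hn.le,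
    Complex.ofReal_exp, mul_assoc, ← Complex.exp_add, ← Complex.exp_add, ← Complex.exp_add]
  congr 2
  push_cast
  linear_combination (-(Real.pi ^ 2 / 64) : ℂ) * Complex.I_sq

/-- the tail of the smoothed sum -/
lemma tail_le {T ω : ℝ} (hl : 100 ≤ Real.log T) (hT : 0 < T) (hω : |ω| ≤ 11 / 20 * Real.log T)
    {N : ℕ} (hN0 : 1 ≤ N) (hN : T ^ (7 / 5 : ℝ) ≤ N + 1) (T' : ℝ) :
    ‖∑' n, zt (Real.exp ω * √(T / (2 * Real.pi))) T' (n + N)‖ ≤ (N : ℝ) ^ (-(3 / 2) : ℝ) := by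
  have hpi := Real.pi_pos
  set N1 : ℝ := Real.exp ω * √(T / (2 * Real.pi)) with hN1
  have hN1pos : 0 < N1 := mul_pos (Real.exp_pos _) (Real.sqrt_pos.2 (by positivity))
  obtain ⟨hp0, hp2⟩ := log_two_pi
  have hlogN1 : Real.log N1 ≤ 21 / 20 * Real.log T := by
    rw [hN1, log_len ω hT, Real.log_div hT.ne' (by positivity)]
    have := (abs_le.1 hω).2
    linarith
  have hs : Summable fun n : ℕ => (((n + N : ℕ) : ℝ) + 1) ^ (-(1 / 2) - 2 : ℝ) := by
    have h1 := (Real.summable_nat_rpow (p := -(1 / 2) - 2)).mpr (by norm_num)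
    have h2 := (summable_nat_add_iff (N + 1)).mpr h1
    refine h2.congr fun n => ?_
    push_cast
    ring_nf
  have h1 : ∀ n : ℕ, ‖zt N1 T' (n + N)‖ ≤ (((n + N : ℕ) : ℝ) + 1) ^ (-(1 / 2) - 2 : ℝ) := by
    intro n
    rw [norm_zt]
    set x : ℝ := ((n + N : ℕ) : ℝ) + 1 with hx
    have hx0 : 0 < x := by positivity
    have hxT : T ^ (7 / 5 : ℝ) ≤ x := by
      refine hN.trans ?_
      rw [hx]
      push_cast
      have : (0 : ℝ) ≤ n := Nat.cast_nonneg n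
      linarith
    have hlx : 7 / 5 * Real.log T ≤ Real.log x := by
      rw [← Real.log_rpow hT]
      exact Real.log_le_log (by positivity) hxT
    have hL : 1 / 4 * Real.log x ≤ Real.log (x / N1) := by
      rw [Real.log_div hx0.ne' hN1pos.ne']
      linarith
    have h2 : Real.exp (-(Real.log (x / N1)) ^ 2 / 4) ≤ x ^ (-2 : ℝ) := by
      rw [Real.rpow_def_of_pos hx0, Real.exp_le_exp]
      nlinarith
    have h3 : x ^ (-(1 / 2) - 2 : ℝ) = x ^ (-2 : ℝ) * x ^ (-(1 / 2) : ℝ) := by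
      rw [← Real.rpow_add hx0]; norm_num
    rw [h3]
    gcongr
  exact (tsum_of_norm_bounded hs.hasSum h1).trans (sum_rpow_le hN0)

/-- the windowed transform of xi is the smoothed zeta sum, up to `O(T^(-1/10))` -/
theorem win_eq_zsum : ∃ C T₀ : ℝ, 0 ≤ C ∧ 2 ≤ T₀ ∧ ∀ T ω : ℝ, T₀ ≤ T →
    |ω| ≤ 11 / 20 * Real.log T →
    ‖win ω T / gam (1 / 2 + T * I) - cf (Real.log (Real.exp ω * √(T / (2 * Real.pi)))) *
      zsum (Real.exp ω * √(T / (2 * Real.pi))) (T - Real.pi / 8)‖ ≤ C * T ^ (-(1 / 10) : ℝ) := by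
  obtain ⟨C, T₁, hC, hT₁, h1⟩ := win_approx
  refine ⟨C + 2 * Real.exp 1 * 3, T₁ + Real.exp 100, by positivity,
    by linarith [Real.exp_pos 100], fun T ω hT hω => ?_⟩
  have hT2 : 2 ≤ T := by linarith [Real.exp_pos 100]
  have hT0 : 0 < T := by linarith
  have hT1 : 1 ≤ T := by linarith
  have hpi := Real.pi_pos
  have hl : 100 ≤ Real.log T := by
    rw [Real.le_log_iff_exp_le hT0]
    linarith
  set y : ℝ := T ^ (7 / 5 : ℝ) with hy
  have hy1 : 1 ≤ y := Real.one_le_rpow hT1 (by norm_num)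
  set N : ℕ := ⌊y⌋₊ with hN
  have hN1 : (N : ℝ) ≤ y := Nat.floor_le (by linarith)
  have hN0 : 1 ≤ N := Nat.floor_pos.2 hy1
  have hN0' : (1 : ℝ) ≤ N := by exact_mod_cast hN0
  have hN3 : y ≤ N + 1 := (Nat.lt_floor_add_one y).le
  have hN2 : y / 2 ≤ N := by linarith
  have h2 := h1 T ω N (by linarith [Real.exp_pos 100]) hN2 hN1
  set M : ℝ := Real.exp ω * √(T / (2 * Real.pi)) with hM
  have hMpos : 0 < M := mul_pos (Real.exp_pos _) (Real.sqrt_pos.2 (by positivity))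
  have htail := tail_le hl hT0 hω hN0 hN3 (T - Real.pi / 8)
  rw [← hM] at htail
  have hsplit := (summable_zt hMpos (T - Real.pi / 8)).sum_add_tsum_nat_add N
  rw [← zsum_eq] at hsplit
  have hterm : ∑ n ∈ Finset.range N, (√Real.pi : ℂ) * (exp (-(bb ω T (n + 1)) ^ 2 / 4) *
      ((n + 1 : ℝ) : ℂ) ^ (-(1 / 2 + T * I : ℂ))) =
      cf (Real.log M) * ∑ n ∈ Finset.range N, zt M (T - Real.pi / 8) n := by
    rw [Finset.mul_sum]
    refine Finset.sum_congr rfl fun n _ => ?_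
    rw [term_id ω hT0, ← hM]
  rw [hterm] at h2
  have heq : win ω T / gam (1 / 2 + T * I) - cf (Real.log M) * zsum M (T - Real.pi / 8) =
      (win ω T / gam (1 / 2 + T * I) -
        cf (Real.log M) * ∑ n ∈ Finset.range N, zt M (T - Real.pi / 8) n) -
      cf (Real.log M) * ∑' n, zt M (T - Real.pi / 8) (n + N) := by
    rw [← hsplit]
    ring
  rw [heq]
  refine (norm_sub_le _ _).trans ?_
  rw [norm_mul (cf (Real.log M))]
  have h3 : (N : ℝ) ^ (-(3 / 2) : ℝ) ≤ 3 * T ^ (-(1 / 10) : ℝ) := by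
    calc (N : ℝ) ^ (-(3 / 2) : ℝ) ≤ (y / 2) ^ (-(3 / 2) : ℝ) :=
          Real.rpow_le_rpow_of_nonpos (by positivity) hN2 (by norm_num)
      _ = T ^ (-(21 / 10) : ℝ) * 2 ^ (3 / 2 : ℝ) := by
          rw [hy, Real.div_rpow (by positivity) (by norm_num), ← Real.rpow_mul hT0.le,
            Real.rpow_neg (by norm_num : (0 : ℝ) ≤ 2), div_inv_eq_mul]
          norm_num
      _ ≤ T ^ (-(1 / 10) : ℝ) * 3 := by
          have h4 : (2 : ℝ) ^ (3 / 2 : ℝ) ≤ 3 := by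
            have h3 : (2 : ℝ) ^ (3 / 2 : ℝ) = 2 * √2 := by
              rw [show (3 / 2 : ℝ) = 1 + 1 / 2 by norm_num, Real.rpow_add (by norm_num),
                Real.rpow_one, Real.sqrt_eq_rpow]
            rw [h3]
            have h4 : √2 ≤ 3 / 2 := by
              rw [Real.sqrt_le_left (by norm_num)]
              norm_num
            linarith
          have h5 : T ^ (-(21 / 10) : ℝ) ≤ T ^ (-(1 / 10) : ℝ) :=
            Real.rpow_le_rpow_of_exponent_le hT1 (by norm_num)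
          gcongr
      _ = _ := by ring
  have h4 : ‖cf (Real.log M)‖ * ‖∑' n, zt M (T - Real.pi / 8) (n + N)‖ ≤
      2 * Real.exp 1 * (3 * T ^ (-(1 / 10) : ℝ)) := by
    apply mul_le_mul (cf_le _) (htail.trans h3) (norm_nonneg _) (by positivity)
  calc _ ≤ C * T ^ (-(1 / 10) : ℝ) + 2 * Real.exp 1 * (3 * T ^ (-(1 / 10) : ℝ)) :=
        add_le_add h2 h4
    _ = _ := by ring

end Pool.Agent.DBN.Nw

namespace Pool.Agent.DBN

open Complex MeasureTheory Set Filter Topology Nw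

/-- the windowed transform of xi and the smoothed zeta sums have the same size -/
theorem win_zsum : ∃ C T₀ : ℝ, 1 ≤ C ∧ 2 ≤ T₀ ∧ ∀ T ω : ℝ, T₀ ≤ T → |ω| ≤ 11 / 20 * Real.log T →
    ‖win ω T‖ ≤ C * size T * (‖zsum (Real.exp ω * √(T / (2 * Real.pi))) (T - Real.pi / 8)‖ + T ^ (-(1 / 20) : ℝ)) ∧
    size T * ‖zsum (Real.exp ω * √(T / (2 * Real.pi))) (T - Real.pi / 8)‖ ≤
      C * (‖win ω T‖ + size T * T ^ (-(1 / 20) : ℝ)) := by
  obtain ⟨C, T₁, hC, hT₁, h1⟩ := win_eq_zsum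
  obtain ⟨C2, hC2, h2⟩ := size_le_gam
  obtain ⟨C3, hC3, h3⟩ := gam_le_size
  refine ⟨C3 * (2 * Real.exp 1 + C) + (C2 + C), T₁, ?_, hT₁, fun T ω hT hω => ?_⟩
  · have : 0 ≤ C3 * (2 * Real.exp 1 + C) := by positivity
    linarith
  have hT2 : 2 ≤ T := by linarith
  have hT0 : 0 < T := by linarith
  have hT1 : 1 ≤ T := by linarith
  have hlow := h2 T hT2
  have hup := h3 T hT2
  have happ := h1 T ω hT hω
  set g0 : ℂ := gam (1 / 2 + T * I) with hg0
  have hg0' : 0 < ‖g0‖ := norm_pos_iff.2 (gam_ne_zero T)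
  set M : ℝ := Real.exp ω * √(T / (2 * Real.pi)) with hM
  set Z : ℂ := zsum M (T - Real.pi / 8) with hZ
  have hs0 : 0 < size T := by rw [size]; positivity
  set Y : ℝ := T ^ (-(1 / 20) : ℝ) with hY
  have hY0 : 0 < Y := by positivity
  have hYY : T ^ (-(1 / 10) : ℝ) ≤ Y := Real.rpow_le_rpow_of_exponent_le hT1 (by norm_num)
  have happ' : ‖win ω T / g0 - cf (Real.log M) * Z‖ ≤ C * Y := happ.trans (by gcongr)
  have hwin : ‖win ω T‖ = ‖g0‖ * ‖win ω T / g0‖ := by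
    rw [norm_div]
    field_simp
  constructor
  · have h4 : ‖win ω T / g0‖ ≤ 2 * Real.exp 1 * ‖Z‖ + C * Y := by
      have e : win ω T / g0 = cf (Real.log M) * Z + (win ω T / g0 - cf (Real.log M) * Z) := by ring
      rw [e]
      refine (norm_add_le _ _).trans (add_le_add ?_ happ')
      rw [norm_mul]
      exact mul_le_mul_of_nonneg_right (cf_le _) (norm_nonneg _)
    have hZ0 := norm_nonneg Z
    rw [hwin]
    calc ‖g0‖ * ‖win ω T / g0‖ ≤ C3 * size T * (2 * Real.exp 1 * ‖Z‖ + C * Y) := by gcongr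
      _ ≤ C3 * size T * ((2 * Real.exp 1 + C) * (‖Z‖ + Y)) := by
          gcongr
          have h5 : 0 ≤ C * ‖Z‖ := by positivity
          have h6 : 0 ≤ 2 * Real.exp 1 * Y := by positivity
          linarith
      _ = C3 * (2 * Real.exp 1 + C) * size T * (‖Z‖ + Y) := by ring
      _ ≤ _ := by
          gcongr
          linarith
  · have h4 : ‖Z‖ ≤ ‖win ω T / g0‖ + C * Y := by
      have e : cf (Real.log M) * Z = win ω T / g0 - (win ω T / g0 - cf (Real.log M) * Z) := by ring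
      calc ‖Z‖ = 1 * ‖Z‖ := (one_mul _).symm
        _ ≤ ‖cf (Real.log M)‖ * ‖Z‖ := by
            gcongr
            exact one_le_cf _
        _ = ‖cf (Real.log M) * Z‖ := (norm_mul _ _).symm
        _ = ‖win ω T / g0 - (win ω T / g0 - cf (Real.log M) * Z)‖ := by rw [← e]
        _ ≤ ‖win ω T / g0‖ + ‖win ω T / g0 - cf (Real.log M) * Z‖ := norm_sub_le _ _
        _ ≤ _ := by gcongr
    have h5 : size T * ‖win ω T / g0‖ ≤ C2 * ‖win ω T‖ := by
      rw [hwin]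
      have := norm_nonneg (win ω T / g0)
      calc size T * ‖win ω T / g0‖ ≤ (C2 * ‖g0‖) * ‖win ω T / g0‖ := by gcongr
        _ = _ := by ring
    have hw0 := norm_nonneg (win ω T)
    calc size T * ‖Z‖ ≤ size T * (‖win ω T / g0‖ + C * Y) := by gcongr
      _ = size T * ‖win ω T / g0‖ + C * (size T * Y) := by ring
      _ ≤ C2 * ‖win ω T‖ + C * (size T * Y) := by gcongr
      _ ≤ (C2 + C) * (‖win ω T‖ + size T * Y) := by
          have h6 : 0 ≤ C * ‖win ω T‖ := by positivity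
          have h7 : 0 ≤ C2 * (size T * Y) := by positivity
          linarith
      _ ≤ _ := by
          apply mul_le_mul_of_nonneg_right _ (by positivity)
          have : 0 ≤ C3 * (2 * Real.exp 1 + C) := by positivity
          linarith

end Pool.Agent.DBN
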