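import Pool.Agent.DBN.Defs
import Pool.Agent.SelTwo.STIR

/-!
# Two-sided bound for the gamma function in vertical strips
-/

set_option autoImplicit false

namespace Pool.Agent.DBN

open Complex MeasureTheory Set Filter Topology

lemma abs_arcsin_le {u : ℝ} (hu : |u| ≤ 1) : |Real.arcsin u| ≤ Real.pi / 2 * |u| := by
  have key : ∀ v : ℝ, 0 ≤ v → v ≤ 1 → Real.arcsin v ≤ Real.pi / 2 * v := by
    intro v h0 h1
    have h2 := Real.mul_le_sin (Real.arcsin_nonneg.2 h0) (Real.arcsin_le_pi_div_two v)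
    rw [Real.sin_arcsin (by linarith) h1] at h2
    have hpi := Real.pi_pos
    have h3 : Real.pi / 2 * (2 / Real.pi * Real.arcsin v) = Real.arcsin v := by
      field_simp
    rw [← h3]
    apply mul_le_mul_of_nonneg_left h2 (by positivity)
  rcases le_total 0 u with h | h
  · rw [abs_of_nonneg (Real.arcsin_nonneg.2 h), abs_of_nonneg h]
    exact key u h (by rwa [abs_of_nonneg h] at hu)
  · rw [abs_of_nonpos (Real.arcsin_nonpos.2 h), abs_of_nonpos h, ← Real.arcsin_neg]
    exact key (-u) (by linarith) (by rwa [abs_of_nonpos h] at hu)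

/-- `‖Γ(x + iy)‖` is `y^(x-1/2) exp(-π y/2)` up to constants, uniformly for `|x| ≤ A`, `y ≥ 1` -/
theorem gamma_two (A : ℝ) : ∃ C : ℝ, 1 ≤ C ∧ ∀ x y : ℝ, |x| ≤ A → 1 ≤ y →
    ‖Gamma (x + y * I)‖ ≤ C * (y ^ (x - 1 / 2) * Real.exp (-(Real.pi * y / 2))) ∧
    y ^ (x - 1 / 2) * Real.exp (-(Real.pi * y / 2)) ≤ C * ‖Gamma (x + y * I)‖ := by
  obtain ⟨C, hC⟩ := Pool.Agent.SelTwo.p_STIR A
  set B : ℝ := |Real.log (2 * Real.pi) / 2| + (A + 1 / 2) * A ^ 2 + Real.pi / 2 * A + A + |C| with hB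
  refine ⟨Real.exp |B|, Real.one_le_exp (abs_nonneg _), fun x y hx hy => ?_⟩
  have hA0 : 0 ≤ A := (abs_nonneg x).trans hx
  have hy0 : 0 < y := by linarith
  set z : ℂ := x + y * I with hz
  have hre : z.re = x := by simp [hz]
  have him : z.im = y := by simp [hz]
  obtain ⟨e, he, hG⟩ := hC z (by rwa [hre]) (by rwa [him, abs_of_pos hy0])
  rw [him, abs_of_pos hy0] at he
  have he1 : |e.re| ≤ |C| := by
    refine (Complex.abs_re_le_norm e).trans (he.trans ?_)
    calc C / y ≤ |C| / y := by gcongr; exact le_abs_self C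
      _ ≤ |C| := div_le_self (abs_nonneg _) hy
  have hz0 : z ≠ 0 := by
    intro h
    rw [h] at him
    simp at him
    linarith
  have hzn : y ≤ ‖z‖ := by
    have := Complex.abs_im_le_norm z
    rwa [him, abs_of_pos hy0] at this
  have hzn0 : 0 < ‖z‖ := by linarith
  have hxz : |x| ≤ ‖z‖ := by
    have := Complex.abs_re_le_norm z
    rwa [hre] at this
  have harg : z.arg = Real.pi / 2 - Real.arcsin (x / ‖z‖) := by
    rw [Complex.arg_of_im_nonneg_of_ne_zero (by rw [him]; exact hy0.le) hz0, hre,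
      Real.arccos_eq_pi_div_two_sub_arcsin]
  have hpart : ((Real.log (2 * Real.pi) / 2 : ℝ) + (z - 1 / 2) * log z - z + e : ℂ).re =
      Real.log (2 * Real.pi) / 2 + (x - 1 / 2) * Real.log ‖z‖ -
        y * (Real.pi / 2 - Real.arcsin (x / ‖z‖)) - x + e.re := by
    rw [← harg]
    have e1 : ((z - 1 / 2) * log z).re = (x - 1 / 2) * Real.log ‖z‖ - y * z.arg := by
      rw [Complex.mul_re, Complex.log_re, Complex.log_im]
      have h1 : (z - 1 / 2).re = x - 1 / 2 := by
        simp [hre]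
      have h2 : (z - 1 / 2).im = y := by
        simp [him]
      rw [h1, h2]
    rw [Complex.add_re, Complex.sub_re, Complex.add_re, e1, hre, Complex.ofReal_re]
    ring
  have hlog1 : Real.log y ≤ Real.log ‖z‖ := Real.log_le_log hy0 hzn
  have hlog2 : Real.log ‖z‖ ≤ Real.log y + A ^ 2 := by
    have h1 : ‖z‖ ^ 2 = x ^ 2 + y ^ 2 := by
      rw [← Complex.normSq_eq_norm_sq, Complex.normSq_apply, hre, him]; ring
    have h2 : ‖z‖ ≤ y * Real.exp (A ^ 2) := by
      apply abs_le_of_sq_le_sq' _ (by positivity) |>.2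
      rw [h1, mul_pow, ← Real.exp_nat_mul]
      have h3 : 1 + 2 * A ^ 2 ≤ Real.exp ((2 : ℕ) * A ^ 2) := by
        have := Real.add_one_le_exp ((2 : ℕ) * A ^ 2)
        push_cast at this ⊢
        linarith
      have h4 : x ^ 2 ≤ A ^ 2 := sq_le_sq' (by linarith [(abs_le.1 hx).1]) (abs_le.1 hx).2
      have h5 : 1 ≤ y ^ 2 := one_le_pow₀ hy
      nlinarith
    calc Real.log ‖z‖ ≤ Real.log (y * Real.exp (A ^ 2)) := Real.log_le_log hzn0 h2
      _ = Real.log y + A ^ 2 := by rw [Real.log_mul hy0.ne' (Real.exp_pos _).ne', Real.log_exp]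
  have hmain : |Real.log (2 * Real.pi) / 2 + (x - 1 / 2) * (Real.log ‖z‖ - Real.log y) +
      y * Real.arcsin (x / ‖z‖) - x + e.re| ≤ B := by
    have h1 : |(x - 1 / 2) * (Real.log ‖z‖ - Real.log y)| ≤ (A + 1 / 2) * A ^ 2 := by
      rw [abs_mul]
      apply mul_le_mul _ _ (abs_nonneg _) (by positivity)
      · have := abs_sub x (1 / 2)
        rw [abs_of_pos (show (0 : ℝ) < 1 / 2 by norm_num)] at this
        linarith
      · rw [abs_of_nonneg (by linarith)]; linarith
    have h2 : |y * Real.arcsin (x / ‖z‖)| ≤ Real.pi / 2 * A := by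
      rw [abs_mul, abs_of_pos hy0]
      have h3 : |x / ‖z‖| ≤ 1 := by
        rw [abs_div, abs_of_pos hzn0]
        exact (div_le_one hzn0).2 hxz
      have h4 := abs_arcsin_le h3
      rw [abs_div, abs_of_pos hzn0] at h4
      calc y * |Real.arcsin (x / ‖z‖)| ≤ ‖z‖ * (Real.pi / 2 * (|x| / ‖z‖)) := by gcongr
        _ = Real.pi / 2 * |x| := by field_simp
        _ ≤ _ := by gcongr
    have h5 := abs_add_le (Real.log (2 * Real.pi) / 2 + (x - 1 / 2) * (Real.log ‖z‖ - Real.log y) +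
      y * Real.arcsin (x / ‖z‖) - x) e.re
    have h6 := abs_sub (Real.log (2 * Real.pi) / 2 + (x - 1 / 2) * (Real.log ‖z‖ - Real.log y) +
      y * Real.arcsin (x / ‖z‖)) x
    have h7 := abs_add_le (Real.log (2 * Real.pi) / 2 +
      (x - 1 / 2) * (Real.log ‖z‖ - Real.log y)) (y * Real.arcsin (x / ‖z‖))
    have h8 := abs_add_le (Real.log (2 * Real.pi) / 2) ((x - 1 / 2) * (Real.log ‖z‖ - Real.log y))
    rw [hB]
    linarith
  have hnorm : ‖Gamma z‖ = y ^ (x - 1 / 2) * Real.exp (-(Real.pi * y / 2)) *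
      Real.exp (Real.log (2 * Real.pi) / 2 + (x - 1 / 2) * (Real.log ‖z‖ - Real.log y) +
      y * Real.arcsin (x / ‖z‖) - x + e.re) := by
    rw [hG, Complex.norm_exp, hpart, Real.rpow_def_of_pos hy0, ← Real.exp_add, ← Real.exp_add]
    congr 1
    ring
  have hP : 0 < y ^ (x - 1 / 2) * Real.exp (-(Real.pi * y / 2)) := by positivity
  rw [abs_le] at hmain
  constructor
  · rw [hnorm, mul_comm (Real.exp |B|)]
    apply mul_le_mul_of_nonneg_left _ hP.le
    rw [Real.exp_le_exp]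
    exact hmain.2.trans (le_abs_self B)
  · rw [hnorm]
    have h1 : 1 ≤ Real.exp |B| *
        Real.exp (Real.log (2 * Real.pi) / 2 + (x - 1 / 2) * (Real.log ‖z‖ - Real.log y) +
      y * Real.arcsin (x / ‖z‖) - x + e.re) := by
      rw [← Real.exp_add]
      apply Real.one_le_exp
      linarith [hmain.1, le_abs_self B]
    calc y ^ (x - 1 / 2) * Real.exp (-(Real.pi * y / 2))
        = y ^ (x - 1 / 2) * Real.exp (-(Real.pi * y / 2)) * 1 := by ring
      _ ≤ y ^ (x - 1 / 2) * Real.exp (-(Real.pi * y / 2)) * (Real.exp |B| *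
        Real.exp (Real.log (2 * Real.pi) / 2 + (x - 1 / 2) * (Real.log ‖z‖ - Real.log y) +
      y * Real.arcsin (x / ‖z‖) - x + e.re)) := mul_le_mul_of_nonneg_left h1 hP.le
      _ = _ := by ring

end Pool.Agent.DBN
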