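import Pool.Agent.DBN.Defs
import Pool.Agent.DBN.Stir
import Pool.Agent.Lib.ChiBound

/-!
# Elementary properties of the Riemann xi function

The product formula, entirety, the functional equation, the conjugation symmetry, and the
two-sided bound of `‖xi (x + iT)‖` by `T^((x-1/2)/2) * size T * ‖ζ(x + iT)‖` in vertical strips.
-/

set_option autoImplicit false

namespace Pool.Agent.DBN

open Complex MeasureTheory

theorem xi_eq {s : ℂ} (h0 : s ≠ 0) (h1 : s ≠ 1) (h : Gammaℝ s ≠ 0) :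
    xi s = s * (s - 1) / 2 * Gammaℝ s * riemannZeta s := by
  have h1' : (1 : ℂ) - s ≠ 0 := sub_ne_zero.2 (Ne.symm h1)
  have h2 : Gammaℝ s * riemannZeta s =
      completedRiemannZeta₀ s - 1 / s - 1 / (1 - s) := by
    rw [riemannZeta_def_of_ne_zero h0, ← completedRiemannZeta_eq]
    field_simp
  rw [mul_assoc, h2, xi]
  field_simp
  ring

theorem differentiable_xi : Differentiable ℂ xi := by
  unfold xi
  have h := differentiable_completedZeta₀
  fun_prop

theorem xi_one_sub (s : ℂ) : xi (1 - s) = xi s := by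
  unfold xi
  rw [completedRiemannZeta₀_one_sub]
  ring

lemma gammaR_ne_zero {s : ℂ} (h : s.im ≠ 0) : Gammaℝ s ≠ 0 := by
  intro h0
  rw [Gammaℝ_eq_zero_iff] at h0
  obtain ⟨n, hn⟩ := h0
  apply h
  rw [hn]
  simp

theorem norm_xi_conj (s : ℂ) : ‖xi ((starRingEnd ℂ) s)‖ = ‖xi s‖ := by
  by_cases h : s.im = 0
  · rw [Complex.conj_eq_iff_im.2 h]
  · have key : ∀ z : ℂ, z.im ≠ 0 → xi z = z * (z - 1) / 2 * Gammaℝ z * riemannZeta z := by
      intro z hz
      apply xi_eq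
      · rintro rfl
        simp at hz
      · rintro rfl
        simp at hz
      · exact gammaR_ne_zero hz
    have h' : ((starRingEnd ℂ) s).im ≠ 0 := by
      rw [Complex.conj_im]
      exact neg_ne_zero.2 h
    rw [key s h, key _ h', riemannZeta_conj]
    have e1 : (starRingEnd ℂ) s - 1 = (starRingEnd ℂ) (s - 1) := by simp
    rw [e1]
    simp only [norm_mul, norm_div, RCLike.norm_conj, Pool.Agent.Lib.ChiBound.norm_Gammaℝ_conj]

theorem norm_xi_symm (x T : ℝ) : ‖xi ((1 - x : ℝ) + T * I)‖ = ‖xi (x + T * I)‖ := by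
  have h : (((1 - x : ℝ) : ℂ) + T * I) = 1 - (starRingEnd ℂ) ((x : ℂ) + T * I) := by
    simp only [map_add, map_mul, Complex.conj_ofReal, Complex.conj_I]
    push_cast
    ring
  rw [h, xi_one_sub, norm_xi_conj]

/-- `‖ξ(x + iT)‖` is `T^((x-1/2)/2) * size T * ‖ζ(x + iT)‖` up to constants, uniformly for
`|x| ≤ R`, `T ≥ 2` -/
theorem xi_two (R : ℝ) : ∃ C : ℝ, 1 ≤ C ∧ ∀ x T : ℝ, |x| ≤ R → 2 ≤ T →
    ‖xi (x + T * I)‖ ≤ C * (T ^ ((x - 1 / 2) / 2) * size T * ‖riemannZeta (x + T * I)‖) ∧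
    T ^ ((x - 1 / 2) / 2) * size T * ‖riemannZeta (x + T * I)‖ ≤ C * ‖xi (x + T * I)‖ := by
  obtain ⟨C, hC1, hC⟩ := gamma_two (|R| / 2)
  set P : ℝ := Real.pi ^ (|R| / 2) with hP
  set Q : ℝ := (2 : ℝ) ^ ((|R| + 1) / 2) with hQ
  have hR0 : 0 ≤ |R| := abs_nonneg R
  have hpi1 : 1 ≤ Real.pi := by linarith [Real.pi_gt_three]
  have hP1 : 1 ≤ P := Real.one_le_rpow hpi1 (by positivity)
  have hQ1 : 1 ≤ Q := Real.one_le_rpow (by norm_num) (by positivity)
  have hK : 1 ≤ (|R| + 1) * (|R| + 2) := by nlinarith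
  have hCPQ : 1 ≤ C * P * Q := by
    have h1 : 1 ≤ C * P := one_le_mul_of_one_le_of_one_le hC1 hP1
    exact one_le_mul_of_one_le_of_one_le h1 hQ1
  refine ⟨2 * ((|R| + 1) * (|R| + 2)) * (C * P * Q), ?_, fun x T hx hT => ?_⟩
  · nlinarith [mul_le_mul hK hCPQ zero_le_one (by linarith)]
  have hxR : |x| ≤ |R| := hx.trans (le_abs_self R)
  have hT0 : 0 < T := by linarith
  set s : ℂ := (x : ℂ) + T * I with hs
  have hre : s.re = x := by simp [hs]
  have him : s.im = T := by simp [hs]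
  have hs0 : s ≠ 0 := by
    intro h
    rw [h] at him
    simp at him
    linarith
  have hs1 : s ≠ 1 := by
    intro h
    rw [h] at him
    simp at him
    linarith
  have hG0 : Gammaℝ s ≠ 0 := gammaR_ne_zero (by rw [him]; exact hT0.ne')
  -- sizes of `s` and `s - 1`
  have ha1 : T ≤ ‖s‖ := by
    have := Complex.abs_im_le_norm s
    rwa [him, abs_of_pos hT0] at this
  have hb1 : T ≤ ‖s - 1‖ := by
    have := Complex.abs_im_le_norm (s - 1)
    have h2 : (s - 1).im = T := by simp [him]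
    rwa [h2, abs_of_pos hT0] at this
  have ha2 : ‖s‖ ≤ (|R| + 1) * T := by
    have := Complex.norm_le_abs_re_add_abs_im s
    rw [hre, him, abs_of_pos hT0] at this
    nlinarith
  have hb2 : ‖s - 1‖ ≤ (|R| + 2) * T := by
    have h1 := norm_sub_le s 1
    have h2 := Complex.norm_le_abs_re_add_abs_im s
    rw [hre, him, abs_of_pos hT0] at h2
    rw [norm_one] at h1
    nlinarith
  -- the gamma factor
  have hg := hC (x / 2) (T / 2) (by rw [abs_div, abs_of_pos (show (0 : ℝ) < 2 by norm_num)]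
                                    linarith) (by linarith)
  set g : ℝ := ‖Gamma (((x / 2 : ℝ) : ℂ) + ((T / 2 : ℝ) : ℂ) * I)‖ with hgdef
  have hGR : ‖Gammaℝ s‖ = Real.pi ^ (-x / 2) * g := by
    rw [hs, Pool.Agent.Lib.ChiBound.norm_Gammaℝ]
  set E : ℝ := (T / 2) ^ (x / 2 - 1 / 2) * Real.exp (-(Real.pi * (T / 2) / 2)) with hE
  obtain ⟨hg1, hg2⟩ := hg
  have hE0 : 0 < E := by positivity
  have hg0 : 0 ≤ g := norm_nonneg _
  -- the constants
  have hxb := abs_le.1 hxR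
  have hp1 : Real.pi ^ (-x / 2) ≤ P := Real.rpow_le_rpow_of_exponent_le hpi1 (by linarith)
  have hp2 : 1 ≤ P * Real.pi ^ (-x / 2) := by
    rw [hP, ← Real.rpow_add Real.pi_pos]
    exact Real.one_le_rpow hpi1 (by linarith)
  have hp0 : 0 < Real.pi ^ (-x / 2) := by positivity
  set q : ℝ := (2 : ℝ) ^ (-(x / 2 - 1 / 2)) with hq
  have hq0 : 0 < q := by positivity
  have hq1 : q ≤ Q := Real.rpow_le_rpow_of_exponent_le (by norm_num) (by linarith)
  have hq2 : 1 ≤ Q * q := by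
    rw [hQ, hq, ← Real.rpow_add (by norm_num)]
    exact Real.one_le_rpow (by norm_num) (by linarith)
  have hmain : T ^ 2 * E = q * (T ^ ((x - 1 / 2) / 2) * size T) := by
    have e1 : (T / 2) ^ (x / 2 - 1 / 2) = T ^ (x / 2 - 1 / 2) * q := by
      rw [Real.div_rpow hT0.le (by norm_num), hq, Real.rpow_neg (by norm_num), div_eq_mul_inv]
    have e2 : T ^ (2 : ℕ) * T ^ (x / 2 - 1 / 2) = T ^ ((x - 1 / 2) / 2) * T ^ (7 / 4 : ℝ) := by
      rw [← Real.rpow_natCast, ← Real.rpow_add hT0, ← Real.rpow_add hT0]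
      congr 1
      push_cast
      ring
    have e3 : -(Real.pi * (T / 2) / 2) = -(Real.pi * T / 4) := by ring
    rw [hE, e1, e3, size]
    linear_combination (q * Real.exp (-(Real.pi * T / 4))) * e2
  set M : ℝ := T ^ ((x - 1 / 2) / 2) * size T with hM
  have hM0 : 0 < M := by
    rw [hM, size]
    positivity
  have hxi : ‖xi s‖ = ‖s‖ * ‖s - 1‖ / 2 * (Real.pi ^ (-x / 2) * g) * ‖riemannZeta s‖ := by
    rw [xi_eq hs0 hs1 hG0, norm_mul, norm_mul, norm_div, norm_mul, hGR]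
    simp
  have hz0 : 0 ≤ ‖riemannZeta s‖ := norm_nonneg _
  have hns : 0 ≤ ‖s‖ := norm_nonneg _
  have hns1 : 0 ≤ ‖s - 1‖ := norm_nonneg _
  constructor
  · have h1 : ‖s‖ * ‖s - 1‖ ≤ (|R| + 1) * (|R| + 2) * T ^ 2 := by
      calc ‖s‖ * ‖s - 1‖ ≤ ((|R| + 1) * T) * ((|R| + 2) * T) :=
            mul_le_mul ha2 hb2 hns1 (by positivity)
        _ = _ := by ring
    have h2 : Real.pi ^ (-x / 2) * g ≤ P * (C * E) :=
      mul_le_mul hp1 hg1 hg0 (by linarith)
    have h3 : ‖xi s‖ ≤ (|R| + 1) * (|R| + 2) * T ^ 2 / 2 * (P * (C * E)) * ‖riemannZeta s‖ := by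
      rw [hxi]
      gcongr
    have h4 : (|R| + 1) * (|R| + 2) * T ^ 2 / 2 * (P * (C * E)) * ‖riemannZeta s‖ =
        (|R| + 1) * (|R| + 2) / 2 * (C * P * q) * (M * ‖riemannZeta s‖) := by
      linear_combination ((|R| + 1) * (|R| + 2) / 2 * P * C * ‖riemannZeta s‖) * hmain
    rw [h4] at h3
    refine h3.trans ?_
    have h5 : (|R| + 1) * (|R| + 2) / 2 * (C * P * q) ≤
        2 * ((|R| + 1) * (|R| + 2)) * (C * P * Q) := by
      have h6 : C * P * q ≤ C * P * Q := by gcongr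
      have h7 : (|R| + 1) * (|R| + 2) / 2 ≤ 2 * ((|R| + 1) * (|R| + 2)) := by linarith
      exact mul_le_mul h7 h6 (by positivity) (by positivity)
    exact mul_le_mul_of_nonneg_right h5 (by positivity)
  · have h1 : M ≤ Q * (T ^ 2 * E) := by
      rw [hmain]
      nlinarith [mul_le_mul_of_nonneg_right hq2 hM0.le]
    have h2 : T ^ 2 ≤ ‖s‖ * ‖s - 1‖ := by
      calc T ^ 2 = T * T := by ring
        _ ≤ _ := mul_le_mul ha1 hb1 hT0.le hns
    have h3 : E ≤ C * (P * (Real.pi ^ (-x / 2) * g)) := by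
      refine hg2.trans ?_
      have h4 : g ≤ P * (Real.pi ^ (-x / 2) * g) := by
        nlinarith [mul_le_mul_of_nonneg_right hp2 hg0]
      exact mul_le_mul_of_nonneg_left h4 (by linarith)
    have h5 : M * ‖riemannZeta s‖ ≤
        Q * ((‖s‖ * ‖s - 1‖) * (C * (P * (Real.pi ^ (-x / 2) * g)))) * ‖riemannZeta s‖ := by
      refine mul_le_mul_of_nonneg_right (h1.trans ?_) hz0
      gcongr
    have h6 : Q * ((‖s‖ * ‖s - 1‖) * (C * (P * (Real.pi ^ (-x / 2) * g)))) * ‖riemannZeta s‖ =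
        2 * (C * P * Q) * ‖xi s‖ := by
      rw [hxi]
      ring
    rw [h6] at h5
    refine h5.trans ?_
    have h7 : 2 * (C * P * Q) ≤ 2 * ((|R| + 1) * (|R| + 2)) * (C * P * Q) := by
      nlinarith [mul_le_mul_of_nonneg_right hK (by linarith : (0:ℝ) ≤ C * P * Q)]
    exact mul_le_mul_of_nonneg_right h7 (norm_nonneg _)

end Pool.Agent.DBN
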