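import Pool.Agent.DBN.Mu
import Pool.Agent.DBN.Xi

/-!
# Lindelöf's function: symmetry and convexity
-/

set_option autoImplicit false

namespace Pool.Agent.DBN

open Complex Set Filter Topology

lemma mu_symm_imp {σ a : ℝ} (h : MuLe (1 / 2 + σ) a) : MuLe (1 / 2 - σ) (a + σ) := by
  intro ε hε
  obtain ⟨C', hC'⟩ := h ε hε
  obtain ⟨C, hC, hx⟩ := xi_two (1 / 2 + |σ|)
  refine ⟨C * C * |C'|, fun T hT => ?_⟩
  have hT0 : 0 < T := by linarith
  have hs : 0 < size T := by unfold size; positivity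
  have hσ1 : |1 / 2 + σ| ≤ 1 / 2 + |σ| := by
    have := abs_add_le (1 / 2) σ
    rwa [abs_of_pos (show (0 : ℝ) < 1 / 2 by norm_num)] at this
  have hσ2 : |1 / 2 - σ| ≤ 1 / 2 + |σ| := by
    have := abs_sub (1 / 2) σ
    rwa [abs_of_pos (show (0 : ℝ) < 1 / 2 by norm_num)] at this
  have h1 := (hx (1 / 2 + σ) T hσ1 hT).1
  have h2 := (hx (1 / 2 - σ) T hσ2 hT).2
  have h3 := norm_xi_symm (1 / 2 + σ) T
  have e1 : (1 - (1 / 2 + σ) : ℝ) = 1 / 2 - σ := by ring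
  rw [e1] at h3
  rw [h3] at h2
  have e2 : (1 / 2 - σ - 1 / 2) / 2 = -(σ / 2) := by ring
  have e3 : (1 / 2 + σ - 1 / 2) / 2 = σ / 2 := by ring
  rw [e2] at h2
  rw [e3] at h1
  have h4 := hC' T hT
  have hp1 : 0 < T ^ (σ / 2) := by positivity
  have hp2 : 0 < T ^ (a + ε) := by positivity
  have hp3 : T ^ (σ / 2) * T ^ (-(σ / 2)) = 1 := by
    rw [← Real.rpow_add hT0]; simp
  have hp4 : T ^ (a + σ + ε) = T ^ (σ / 2) * T ^ (σ / 2) * T ^ (a + ε) := by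
    rw [← Real.rpow_add hT0, ← Real.rpow_add hT0]
    congr 1; ring
  have h5 : T ^ (-(σ / 2)) * size T * ‖riemannZeta ((1 / 2 - σ : ℝ) + T * I)‖ ≤
      C * (C * (T ^ (σ / 2) * size T * (|C'| * T ^ (a + ε)))) := by
    refine h2.trans ?_
    have h6 : ‖riemannZeta ((1 / 2 + σ : ℝ) + T * I)‖ ≤ |C'| * T ^ (a + ε) :=
      h4.trans (by gcongr; exact le_abs_self C')
    calc C * ‖xi ((1 / 2 + σ : ℝ) + T * I)‖
        ≤ C * (C * (T ^ (σ / 2) * size T * ‖riemannZeta ((1 / 2 + σ : ℝ) + T * I)‖)) := by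
          gcongr
      _ ≤ _ := by gcongr
  rw [hp4]
  have h7 : ‖riemannZeta ((1 / 2 - σ : ℝ) + T * I)‖ =
      T ^ (σ / 2) * (size T)⁻¹ * (T ^ (-(σ / 2)) * size T *
        ‖riemannZeta ((1 / 2 - σ : ℝ) + T * I)‖) := by
    calc ‖riemannZeta ((1 / 2 - σ : ℝ) + T * I)‖
        = (T ^ (σ / 2) * T ^ (-(σ / 2))) * ((size T)⁻¹ * size T) *
          ‖riemannZeta ((1 / 2 - σ : ℝ) + T * I)‖ := by
            rw [hp3, inv_mul_cancel₀ hs.ne']; ring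
      _ = _ := by ring
  rw [h7]
  calc T ^ (σ / 2) * (size T)⁻¹ * (T ^ (-(σ / 2)) * size T *
        ‖riemannZeta ((1 / 2 - σ : ℝ) + T * I)‖)
      ≤ T ^ (σ / 2) * (size T)⁻¹ * (C * (C * (T ^ (σ / 2) * size T * (|C'| * T ^ (a + ε))))) := by
        gcongr
    _ = C * C * |C'| * (T ^ (σ / 2) * T ^ (σ / 2) * T ^ (a + ε)) * ((size T)⁻¹ * size T) := by
        ring
    _ = _ := by rw [inv_mul_cancel₀ hs.ne', mul_one]

theorem mu_symm {σ a : ℝ} : MuLe (1 / 2 + σ) a ↔ MuLe (1 / 2 - σ) (a + σ) := by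
  refine ⟨mu_symm_imp, fun h => ?_⟩
  have h1 : MuLe (1 / 2 + -σ) (a + σ) := by rwa [← sub_eq_add_neg]
  have h2 := mu_symm_imp h1
  rwa [sub_neg_eq_add, add_neg_cancel_right] at h2

theorem mu_convexity {σ : ℝ} (hσ : |σ| ≤ 1 / 2) : MuLe (1 / 2 + σ) (1 / 4 - σ / 2) := by
  refine mu_closed fun b hb => ?_
  set δ : ℝ := b - (1 / 4 - σ / 2) with hδ
  have hδ0 : 0 < δ := by linarith
  have h1 : MuLe (1 / 2 + (1 / 2 + δ)) 0 := mu_zero (by linarith)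
  have h2 := mu_symm_imp h1
  have e1 : (1 / 2 - (1 / 2 + δ) : ℝ) = -δ := by ring
  rw [e1] at h2
  have e2 : (1 / 2 + (1 / 2 + δ) : ℝ) = 1 + δ := by ring
  rw [e2] at h1
  intro ε hε
  obtain ⟨C, hC⟩ := mu_interp (by linarith) h2 h1 hε
  refine ⟨|C|, fun T hT => ?_⟩
  have h3 := hC (1 / 2 + σ) T (by linarith [(abs_le.mp hσ).1]) (by linarith [(abs_le.mp hσ).2]) hT
  have e3 : ((0 + (1 / 2 + δ)) * (1 + δ - (1 / 2 + σ)) + 0 * (1 / 2 + σ - -δ)) / (1 + δ - -δ) =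
      1 / 4 - σ / 2 + δ / 2 := by
    have hne : (1 + δ - -δ) ≠ 0 := by
      have : 0 < 1 + δ - -δ := by linarith
      exact this.ne'
    field_simp
    ring
  rw [e3] at h3
  calc ‖riemannZeta ((1 / 2 + σ : ℝ) + T * I)‖
      ≤ C * T ^ (1 / 4 - σ / 2 + δ / 2 + ε) := h3
    _ ≤ |C| * T ^ (1 / 4 - σ / 2 + δ / 2 + ε) := by
      gcongr
      exact le_abs_self C
    _ ≤ |C| * T ^ (b + ε) := by
      gcongr
      · linarith
      · linarith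

theorem mu_right {σ : ℝ} (hσ : 1 / 2 ≤ σ) : MuLe (1 / 2 + σ) 0 := by
  rcases eq_or_lt_of_le hσ with h | h
  · have := mu_convexity (σ := σ) (by rw [← h]; norm_num)
    rw [← h] at this ⊢
    norm_num at this ⊢
    exact this
  · exact mu_zero (by linarith)

theorem mu_left {σ : ℝ} (hσ : σ ≤ -1 / 2) : MuLe (1 / 2 + σ) (-σ) := by
  have h1 : MuLe (1 / 2 + -σ) 0 := mu_right (by linarith)
  have h2 := mu_symm_imp h1
  rwa [sub_neg_eq_add, zero_add] at h2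

end Pool.Agent.DBN
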