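import Pool.Agent.DBN.Gauss

/-!
# Shift of the line of integration for Gaussian integrals of entire functions of slow growth
-/

set_option autoImplicit false

namespace Pool.Agent.DBN

open Complex MeasureTheory Set Filter Topology

/-- a bound for `exp(-b z²) G(z)` in horizontal strips -/
lemma contour_bound {G : ℂ → ℂ} (hS : SubG G) {b : ℝ} (hb : 0 < b) (a : ℝ) :
    ∃ C : ℝ, 0 ≤ C ∧ ∀ v y : ℝ, |y| ≤ |a| →
      ‖exp (-b * ((v : ℂ) + y * I) ^ 2) * G (v + y * I)‖ ≤ C * Real.exp (-(b / 2) * v ^ 2) := by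
  obtain ⟨C, hC, h⟩ := hS (b / 2) (by positivity)
  refine ⟨C * Real.exp (3 * b / 2 * a ^ 2), by positivity, fun v y hy => ?_⟩
  have h1 := h (v + y * I)
  have e1 : ‖((v : ℂ) + y * I)‖ ^ 2 = v ^ 2 + y ^ 2 := by
    rw [← Complex.normSq_eq_norm_sq, Complex.normSq_apply]
    simp
    ring
  rw [e1] at h1
  have e2 : (-(b : ℂ) * ((v : ℂ) + y * I) ^ 2).re = -b * (v ^ 2 - y ^ 2) := by
    simp only [sq, Complex.neg_re, Complex.neg_im, Complex.mul_re, Complex.add_re,
      Complex.ofReal_re, Complex.I_re, Complex.add_im, Complex.ofReal_im, Complex.mul_im,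
      Complex.I_im]
    ring
  rw [norm_mul, Complex.norm_exp, e2]
  have hy2 : y ^ 2 ≤ a ^ 2 := sq_le_sq.2 hy
  calc Real.exp (-b * (v ^ 2 - y ^ 2)) * ‖G (v + y * I)‖
      ≤ Real.exp (-b * (v ^ 2 - y ^ 2)) * (C * Real.exp (b / 2 * (v ^ 2 + y ^ 2))) := by gcongr
    _ = C * (Real.exp (-b * (v ^ 2 - y ^ 2)) * Real.exp (b / 2 * (v ^ 2 + y ^ 2))) := by ring
    _ = C * Real.exp (3 * b / 2 * y ^ 2 + -(b / 2) * v ^ 2) := by
        rw [← Real.exp_add]; congr 2; ring
    _ ≤ C * Real.exp (3 * b / 2 * a ^ 2 + -(b / 2) * v ^ 2) := by gcongr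
    _ = _ := by rw [Real.exp_add]; ring

lemma contour_aux {G : ℂ → ℂ} (hG : Differentiable ℂ G) (hS : SubG G) {b : ℝ} (hb : 0 < b)
    (a : ℝ) : ∫ v : ℝ, exp (-b * ((v : ℂ) + a * I) ^ 2) * G (v + a * I) =
      ∫ v : ℝ, exp (-b * (v : ℂ) ^ 2) * G v := by
  obtain ⟨C, hC, h⟩ := contour_bound hS hb a
  set H : ℂ → ℂ := fun z => exp (-b * z ^ 2) * G z with hH
  have hHd : Differentiable ℂ H := by
    have := hG
    simp only [hH]
    fun_prop
  have hHc : Continuous H := hHd.continuous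
  have hi : ∀ y : ℝ, |y| ≤ |a| → Integrable fun v : ℝ => H (v + y * I) := by
    intro y hy
    have h1 : Integrable fun v : ℝ => C * Real.exp (-(b / 2) * v ^ 2) :=
      (integrable_exp_neg_mul_sq (by positivity)).const_mul C
    refine h1.mono' ?_ (Eventually.of_forall fun v => h v y hy)
    apply Continuous.aestronglyMeasurable
    fun_prop
  have hrect : ∀ R : ℝ, (∫ x in (-R)..R, H (x + (0 : ℝ) * I)) -
      (∫ x in (-R)..R, H (x + a * I)) + I • (∫ y in (0 : ℝ)..a, H (R + y * I)) -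
      I • (∫ y in (0 : ℝ)..a, H ((-R : ℝ) + y * I)) = 0 := by
    intro R
    have := Complex.integral_boundary_rect_eq_zero_of_differentiableOn H ((-R : ℝ) : ℂ)
      ((R : ℂ) + a * I) hHd.differentiableOn
    simpa using this
  have hv : ∀ s : ℝ → ℝ, (∀ R, (s R) ^ 2 = R ^ 2) →
      Tendsto (fun R : ℝ => I • (∫ y in (0 : ℝ)..a, H ((s R : ℝ) + y * I))) atTop (𝓝 0) := by
    intro s hs
    have h1 : ∀ R : ℝ, ‖I • (∫ y in (0 : ℝ)..a, H ((s R : ℝ) + y * I))‖ ≤
        C * Real.exp (-(b / 2) * R ^ 2) * |a| := by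
      intro R
      rw [norm_smul, Complex.norm_I, one_mul]
      have h2 := intervalIntegral.norm_integral_le_of_norm_le_const
        (f := fun y : ℝ => H ((s R : ℝ) + y * I)) (a := 0) (b := a)
        (C := C * Real.exp (-(b / 2) * R ^ 2)) (by
          intro y hy
          have hy' : |y| ≤ |a| := by
            rw [uIoc] at hy
            rcases le_total 0 a with ha | ha
            · rw [min_eq_left ha, max_eq_right ha] at hy
              rw [abs_of_pos hy.1, abs_of_nonneg ha]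
              exact hy.2
            · rw [min_eq_right ha, max_eq_left ha] at hy
              rw [abs_of_nonpos hy.2, abs_of_nonpos ha]
              linarith [hy.1]
          have := h (s R) y hy'
          rwa [hs R] at this)
      simpa using h2
    refine squeeze_zero_norm h1 ?_
    have h3 : Tendsto (fun R : ℝ => Real.exp (-(b / 2) * R ^ 2)) atTop (𝓝 0) := by
      apply Real.tendsto_exp_atBot.comp
      apply Tendsto.const_mul_atTop_of_neg (by linarith : -(b / 2) < 0)
      exact tendsto_pow_atTop (by norm_num)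
    have h4 := (h3.const_mul C).mul_const |a|
    simpa using h4
  have t1 : Tendsto (fun R : ℝ => ∫ x in (-R)..R, H (x + (0 : ℝ) * I)) atTop
      (𝓝 (∫ x : ℝ, H (x + (0 : ℝ) * I))) :=
    intervalIntegral_tendsto_integral (hi 0 (by simp)) tendsto_neg_atTop_atBot tendsto_id
  have t2 : Tendsto (fun R : ℝ => ∫ x in (-R)..R, H (x + a * I)) atTop
      (𝓝 (∫ x : ℝ, H (x + a * I))) :=
    intervalIntegral_tendsto_integral (hi a le_rfl) tendsto_neg_atTop_atBot tendsto_id
  have t3 := hv (fun R => R) (fun R => rfl)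
  have t4 := hv (fun R => -R) (fun R => by ring)
  have t5 := ((t1.sub t2).add t3).sub t4
  have t6 : Tendsto (fun _ : ℝ => (0 : ℂ)) atTop (𝓝 ((∫ x : ℝ, H (x + (0 : ℝ) * I)) -
      (∫ x : ℝ, H (x + a * I)) + 0 - 0)) := by
    refine t5.congr fun R => ?_
    exact hrect R
  have t7 := tendsto_nhds_unique t6 tendsto_const_nhds
  have t8 : (∫ x : ℝ, H (x + (0 : ℝ) * I)) = ∫ x : ℝ, H (x + a * I) := by
    linear_combination t7
  have t9 : (∫ x : ℝ, H (x + (0 : ℝ) * I)) = ∫ x : ℝ, H x := by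
    congr 1
    funext x
    simp
  rw [← t8, t9]

/-- the line of integration may be shifted -/
theorem contour_shift {G : ℂ → ℂ} (hG : Differentiable ℂ G) (hS : SubG G) {b : ℝ} (hb : 0 < b)
    (k : ℂ) (a : ℝ) :
    ∫ v : ℝ, exp (-b * ((v : ℂ) + a * I) ^ 2 + k * (v + a * I)) * G (v + a * I) =
      ∫ v : ℝ, exp (-b * (v : ℂ) ^ 2 + k * v) * G v := by
  have hG' : Differentiable ℂ fun w => exp (k * w) * G w := by
    have := hG
    fun_prop
  have h := contour_aux hG' (hS.mul_exp k) hb a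
  simp only [Complex.exp_add, mul_assoc]
  exact h

/-- the integrals converge absolutely -/
theorem contour_integrable {G : ℂ → ℂ} (hG : Continuous G) (hS : SubG G) {b : ℝ} (hb : 0 < b)
    (k : ℂ) (a : ℝ) :
    Integrable fun v : ℝ => exp (-b * ((v : ℂ) + a * I) ^ 2 + k * (v + a * I)) *
      G (v + a * I) := by
  obtain ⟨C, hC, h⟩ := contour_bound (hS.mul_exp k) hb a
  have h1 : Integrable fun v : ℝ => C * Real.exp (-(b / 2) * v ^ 2) :=
    (integrable_exp_neg_mul_sq (by positivity)).const_mul C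
  refine h1.mono' ?_ (Eventually.of_forall fun v => ?_)
  · apply Continuous.aestronglyMeasurable
    fun_prop
  · have h2 := h v a le_rfl
    rw [← mul_assoc, ← Complex.exp_add] at h2
    exact h2

end Pool.Agent.DBN
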