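import Pool.Agent.DBN.Xi
import Pool.Agent.Lib.ZetaCrude

/-!
# A crude bound for the xi function in the whole plane

`‖ξ(1/2 + iT + w)‖ ≤ C size T * T^(‖w‖/2 + K) (3 + ‖w‖)^(K‖w‖ + K)` for `T ≥ 2` and all complex `w`.
-/

set_option autoImplicit false

namespace Pool.Agent.DBN

open Complex MeasureTheory Set

/-- repeated use of the functional equation of the gamma function -/
lemma gamma_shift (v : ℂ) (B : ℝ) (hB : 0 ≤ B) (n : ℕ)
    (h : ∀ j : ℕ, j < n → v + j ≠ 0 ∧ ‖v + j‖ ≤ B) :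
    ‖Gamma (v + n)‖ ≤ B ^ n * ‖Gamma v‖ := by
  induction n with
  | zero => simp
  | succ n ih =>
    have h1 := ih (fun j hj => h j (by omega))
    obtain ⟨h2, h3⟩ := h n (by omega)
    have e : v + ((n + 1 : ℕ) : ℂ) = (v + n) + 1 := by push_cast; ring
    rw [e, Gamma_add_one _ h2, norm_mul, pow_succ]
    calc ‖v + n‖ * ‖Gamma (v + n)‖ ≤ B * (B ^ n * ‖Gamma v‖) :=
          mul_le_mul h3 h1 (norm_nonneg _) hB
      _ = _ := by ring

lemma gamma_down (u : ℂ) (n : ℕ) (hn : (n : ℝ) ≤ u.re) (h0 : (n : ℝ) < u.re ∨ u.im ≠ 0) :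
    ‖Gamma u‖ ≤ ‖u‖ ^ n * ‖Gamma (u - n)‖ := by
  have h := gamma_shift (u - n) ‖u‖ (norm_nonneg _) n (fun j hj => by
    have hj' : (j : ℝ) < n := by exact_mod_cast hj
    have hj0 : (0 : ℝ) ≤ j := Nat.cast_nonneg j
    have hre : (u - n + j).re = u.re - n + j := by simp
    have him : (u - n + j).im = u.im := by simp
    constructor
    · intro h
      rcases h0 with h0 | h0
      · have : (u - n + j).re = 0 := by rw [h]; simp
        rw [hre] at this
        linarith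
      · apply h0
        rw [← him, h]
        simp
    · apply (sq_le_sq₀ (norm_nonneg _) (norm_nonneg _)).1
      rw [← Complex.normSq_eq_norm_sq, ← Complex.normSq_eq_norm_sq, Complex.normSq_apply,
        Complex.normSq_apply, hre, him]
      nlinarith)
  rwa [sub_add_cancel] at h

/-- a bound in the quarter plane `x ≥ 1/2`, `y ≥ 0` -/
lemma xi_quarter : ∃ C : ℝ, 1 ≤ C ∧ ∀ x y : ℝ, 1 / 2 ≤ x → 0 ≤ y →
    ‖xi (x + y * I)‖ ≤ C * ((3 + x + y) ^ (x / 2 + 5) * Real.exp (-(Real.pi * y / 4))) := by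
  obtain ⟨C₁, hC₁, hG⟩ := gamma_two 1
  obtain ⟨C₂, hC₂, hZ⟩ := Pool.Agent.Lib.ZetaCrude.norm_zeta_le_crude
  -- gamma on a compact rectangle
  obtain ⟨M₁, hM₁⟩ := (isCompact_Icc (a := (1 : ℝ)) (b := 2)).reProdIm
    (isCompact_Icc (a := (0 : ℝ)) (b := 1)) |>.exists_bound_of_continuousOn (f := Gamma) (by
      intro z hz
      have h1 : 1 ≤ z.re := hz.1.1
      refine (Complex.differentiableAt_Gamma z fun m hm => ?_).continuousAt.continuousWithinAt
      rw [hm] at h1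
      simp at h1
      have : (0 : ℝ) ≤ m := Nat.cast_nonneg m
      linarith)
  obtain ⟨M₂, hM₂⟩ := (isCompact_Icc (a := (1 / 2 : ℝ)) (b := 2)).reProdIm
    (isCompact_Icc (a := (0 : ℝ)) (b := 2)) |>.exists_bound_of_continuousOn (f := xi)
      differentiable_xi.continuous.continuousOn
  have hM₁0 : 0 ≤ M₁ := (norm_nonneg _).trans (hM₁ 1 (by simp [Complex.mem_reProdIm]))
  have hM₂0 : 0 ≤ M₂ := (norm_nonneg _).trans (hM₂ 1 (by
    simp only [Complex.mem_reProdIm, Complex.one_re, Complex.one_im, mem_Icc]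
    norm_num))
  set e : ℝ := Real.exp (Real.pi / 2) with he
  have he0 : 0 < e := Real.exp_pos _
  have hC₂0 : 0 ≤ C₂ := by linarith
  have hC12 : 1 ≤ C₁ * C₂ := one_le_mul_of_one_le_of_one_le hC₁ hC₂
  have hnn1 : 0 ≤ M₁ * C₂ * e := by positivity
  have hnn2 : 0 ≤ M₂ * e := by positivity
  refine ⟨C₁ * C₂ + M₁ * C₂ * e + M₂ * e, by linarith, ?_⟩
  intro x y hx hy
  set N : ℝ := 3 + x + y with hN
  have hN1 : 1 ≤ N := by linarith
  have hN0 : 0 < N := by linarith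
  have hpi := Real.pi_gt_three
  have hP5 : 0 < N ^ (x / 2 + 5) := Real.rpow_pos_of_pos hN0 _
  have hP51 : 1 ≤ N ^ (x / 2 + 5) := Real.one_le_rpow hN1 (by linarith)
  -- reduce to one constant
  have hred : ∀ K : ℝ, K ≤ C₁ * C₂ + M₁ * C₂ * e + M₂ * e →
      ‖xi (x + y * I)‖ ≤ K * (N ^ (x / 2 + 5) * Real.exp (-(Real.pi * y / 4))) →
      ‖xi (x + y * I)‖ ≤ (C₁ * C₂ + M₁ * C₂ * e + M₂ * e) *
        (N ^ (x / 2 + 5) * Real.exp (-(Real.pi * y / 4))) := by
    intro K hK h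
    exact h.trans (mul_le_mul_of_nonneg_right hK (by positivity))
  -- the compact part
  by_cases hc : y ≤ 2 ∧ x ≤ 2
  · obtain ⟨hy2, hx2⟩ := hc
    refine hred (M₂ * e) (by linarith) ?_
    have h1 : ‖xi (x + y * I)‖ ≤ M₂ := hM₂ _ (by
      simp only [Complex.mem_reProdIm, mem_Icc]
      simp
      exact ⟨⟨by linarith, hx2⟩, hy, hy2⟩)
    have h2 : 1 ≤ e * Real.exp (-(Real.pi * y / 4)) := by
      rw [he, ← Real.exp_add]
      apply Real.one_le_exp
      nlinarith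
    calc ‖xi (x + y * I)‖ ≤ M₂ * (1 * 1) := by linarith
      _ ≤ M₂ * (N ^ (x / 2 + 5) * (e * Real.exp (-(Real.pi * y / 4)))) := by gcongr
      _ = _ := by ring
  -- the product formula
  set s : ℂ := (x : ℂ) + y * I with hs
  have hre : s.re = x := by simp [hs]
  have him : s.im = y := by simp [hs]
  have hs1n : 1 ≤ ‖s - 1‖ := by
    by_cases hy2 : y ≤ 2
    · have hx2 : 2 < x := by
        by_contra h
        exact hc ⟨hy2, by linarith⟩
      have h1 := Complex.re_le_norm (s - 1)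
      have h2 : (s - 1).re = x - 1 := by simp [hre]
      linarith
    · have h1 := Complex.abs_im_le_norm (s - 1)
      have h2 : (s - 1).im = y := by simp [him]
      rw [h2, abs_of_nonneg hy] at h1
      linarith
  have hs0 : s ≠ 0 := by
    intro h
    rw [h] at hre
    simp at hre
    linarith
  have hs1 : s ≠ 1 := by
    intro h
    rw [h] at hs1n
    simp at hs1n
    linarith
  have hGR : Gammaℝ s ≠ 0 := Gammaℝ_ne_zero_of_re_pos (by rw [hre]; linarith)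
  have hsn : ‖s‖ ≤ x + y := by
    have := Complex.norm_le_abs_re_add_abs_im s
    rwa [hre, him, abs_of_nonneg hy, abs_of_nonneg (by linarith : 0 ≤ x)] at this
  have hs1n' : ‖s - 1‖ ≤ N := by
    have := norm_sub_le s 1
    rw [norm_one] at this
    linarith
  set u : ℂ := ((x / 2 : ℝ) : ℂ) + ((y / 2 : ℝ) : ℂ) * I with hu
  have hure : u.re = x / 2 := by simp [hu]
  have huim : u.im = y / 2 := by simp [hu]
  have hGn : ‖Gammaℝ s‖ ≤ ‖Gamma u‖ := by
    rw [hs, Pool.Agent.Lib.ChiBound.norm_Gammaℝ]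
    have h1 : Real.pi ^ (-x / 2) ≤ 1 :=
      Real.rpow_le_one_of_one_le_of_nonpos (by linarith) (by linarith)
    calc _ ≤ 1 * ‖Gamma u‖ := mul_le_mul_of_nonneg_right h1 (norm_nonneg _)
      _ = _ := one_mul _
  have hun : ‖u‖ ≤ N := by
    have := Complex.norm_le_abs_re_add_abs_im u
    rw [hure, huim, abs_of_nonneg (by linarith : 0 ≤ y / 2),
      abs_of_nonneg (by linarith : 0 ≤ x / 2)] at this
    linarith
  have hζ : ‖riemannZeta s‖ ≤ C₂ * N := by
    refine (hZ s (by rw [hre]; linarith) hs1n).trans ?_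
    have : 1 + ‖s‖ ≤ N := by linarith
    gcongr
  have hpow : ∀ n : ℕ, (n : ℝ) ≤ x / 2 → ‖u‖ ^ n ≤ N ^ (x / 2) := by
    intro n hn
    calc ‖u‖ ^ n ≤ N ^ n := by gcongr
      _ = N ^ (n : ℝ) := (Real.rpow_natCast N n).symm
      _ ≤ N ^ (x / 2) := Real.rpow_le_rpow_of_exponent_le hN1 hn
  have hxi : ‖xi s‖ ≤ N * N * ‖Gamma u‖ * (C₂ * N) := by
    rw [xi_eq hs0 hs1 hGR, norm_mul, norm_mul, norm_div, norm_mul]
    have h2 : ‖(2 : ℂ)‖ = 2 := by simp
    rw [h2]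
    have h3 : ‖s‖ * ‖s - 1‖ / 2 ≤ N * N := by
      have h4 : ‖s‖ * ‖s - 1‖ ≤ N * N :=
        mul_le_mul (by linarith) hs1n' (norm_nonneg _) hN0.le
      have h5 : 0 ≤ ‖s‖ * ‖s - 1‖ := by positivity
      linarith
    gcongr
  have hN5 : N * N * N ^ (x / 2) * N * N = N ^ (x / 2 + 4) := by
    have e1 : N ^ (x / 2 + 4) = N ^ (x / 2) * N ^ (4 : ℕ) := by
      rw [Real.rpow_add hN0]
      congr 1
      exact_mod_cast Real.rpow_natCast N 4
    rw [e1]
    ring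
  have hN45 : N ^ (x / 2 + 4) ≤ N ^ (x / 2 + 5) :=
    Real.rpow_le_rpow_of_exponent_le hN1 (by linarith)
  have hE0 : 0 < Real.exp (-(Real.pi * y / 4)) := Real.exp_pos _
  have hx20 : 0 ≤ x / 2 := by linarith
  have hNx : 0 < N ^ (x / 2) := Real.rpow_pos_of_pos hN0 _
  by_cases hy2 : 2 ≤ y
  · refine hred (C₁ * C₂) (by linarith) ?_
    have hfl := Nat.floor_le hx20
    have hfl2 := Nat.lt_floor_add_one (x / 2)
    set n : ℕ := ⌊x / 2⌋₊ with hn
    have h1 := gamma_down u n (by rw [hure]; exact hfl) (Or.inr (by rw [huim]; linarith))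
    have h2 : u - n = (((x / 2 - n : ℝ)) : ℂ) + ((y / 2 : ℝ) : ℂ) * I := by
      rw [hu]; push_cast; ring
    have h3 := (hG (x / 2 - n) (y / 2) (by
      rw [abs_of_nonneg (by linarith)]; linarith) (by linarith)).1
    rw [← h2] at h3
    have h4 : (y / 2) ^ (x / 2 - n - 1 / 2) ≤ N := by
      calc (y / 2) ^ (x / 2 - n - 1 / 2) ≤ (y / 2) ^ (1 : ℝ) :=
            Real.rpow_le_rpow_of_exponent_le (by linarith) (by linarith)
        _ = y / 2 := Real.rpow_one _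
        _ ≤ N := by linarith
    have h5 : Real.exp (-(Real.pi * (y / 2) / 2)) = Real.exp (-(Real.pi * y / 4)) := by
      congr 1; ring
    rw [h5] at h3
    have h6 : ‖Gamma u‖ ≤ N ^ (x / 2) * (C₁ * (N * Real.exp (-(Real.pi * y / 4)))) := by
      refine h1.trans ?_
      apply mul_le_mul (hpow n hfl) _ (norm_nonneg _) hNx.le
      refine h3.trans ?_
      gcongr
    calc ‖xi s‖ ≤ N * N * ‖Gamma u‖ * (C₂ * N) := hxi
      _ ≤ N * N * (N ^ (x / 2) * (C₁ * (N * Real.exp (-(Real.pi * y / 4))))) * (C₂ * N) := by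
          gcongr
      _ = C₁ * C₂ * ((N * N * N ^ (x / 2) * N * N) * Real.exp (-(Real.pi * y / 4))) := by ring
      _ ≤ C₁ * C₂ * (N ^ (x / 2 + 5) * Real.exp (-(Real.pi * y / 4))) := by
          rw [hN5]
          gcongr
  · push Not at hy2
    have hx2 : 2 < x := by
      by_contra h
      exact hc ⟨hy2.le, by linarith⟩
    refine hred (M₁ * C₂ * e) (by linarith) ?_
    have hfl := Nat.floor_le hx20
    have hfl2 := Nat.lt_floor_add_one (x / 2)
    have hfl3 : 1 ≤ ⌊x / 2⌋₊ := Nat.le_floor (by push_cast; linarith)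
    obtain ⟨n, hn⟩ : ∃ n, ⌊x / 2⌋₊ = n + 1 := ⟨⌊x / 2⌋₊ - 1, by omega⟩
    rw [hn] at hfl hfl2
    push_cast at hfl hfl2
    have h1 := gamma_down u n (by rw [hure]; linarith) (Or.inl (by rw [hure]; linarith))
    have h3 : ‖Gamma (u - n)‖ ≤ M₁ := hM₁ _ (by
      simp only [Complex.mem_reProdIm, mem_Icc, Complex.sub_re, Complex.sub_im, hure, huim,
        Complex.natCast_re, Complex.natCast_im]
      refine ⟨⟨by linarith, by linarith⟩, by linarith, by linarith⟩)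
    have h6 : ‖Gamma u‖ ≤ N ^ (x / 2) * M₁ :=
      h1.trans (mul_le_mul (hpow n (by linarith)) h3 (norm_nonneg _) hNx.le)
    have h7 : 1 ≤ e * Real.exp (-(Real.pi * y / 4)) := by
      rw [he, ← Real.exp_add]
      apply Real.one_le_exp
      nlinarith
    calc ‖xi s‖ ≤ N * N * ‖Gamma u‖ * (C₂ * N) := hxi
      _ ≤ N * N * (N ^ (x / 2) * M₁) * (C₂ * N) := by gcongr
      _ = M₁ * C₂ * (N * N * N ^ (x / 2) * N) := by ring
      _ ≤ M₁ * C₂ * ((N * N * N ^ (x / 2) * N) * N) := by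
          apply mul_le_mul_of_nonneg_left _ (by positivity)
          exact le_mul_of_one_le_right (by positivity) hN1
      _ = M₁ * C₂ * (N ^ (x / 2 + 4) * 1) := by rw [hN5, mul_one]
      _ ≤ M₁ * C₂ * (N ^ (x / 2 + 5) * (e * Real.exp (-(Real.pi * y / 4)))) := by gcongr
      _ = _ := by ring

lemma norm_xi_reflect (x y : ℝ) :
    ‖xi (((1 / 2 + |x - 1 / 2| : ℝ) : ℂ) + ((|y| : ℝ) : ℂ) * I)‖ = ‖xi (x + y * I)‖ := by
  have h1 : ‖xi (((1 / 2 + |x - 1 / 2| : ℝ) : ℂ) + ((|y| : ℝ) : ℂ) * I)‖ =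
      ‖xi (x + ((|y| : ℝ) : ℂ) * I)‖ := by
    rcases le_total 0 (x - 1 / 2) with h | h
    · rw [abs_of_nonneg h]
      congr 4
      ring
    · rw [abs_of_nonpos h, ← norm_xi_symm x]
      congr 4
      ring
  rw [h1]
  rcases le_total 0 y with h | h
  · rw [abs_of_nonneg h]
  · rw [abs_of_nonpos h, ← norm_xi_conj]
    congr 2
    simp

theorem xi_crude : ∃ C K : ℝ, 1 ≤ C ∧ 1 ≤ K ∧ ∀ T : ℝ, 2 ≤ T → ∀ w : ℂ,
    ‖xi (1 / 2 + T * I + w)‖ ≤ C * size T * T ^ (‖w‖ / 2 + K) * (3 + ‖w‖) ^ (K * ‖w‖ + K) := by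
  obtain ⟨C, hC1, hC⟩ := xi_quarter
  refine ⟨C, 6, hC1, by norm_num, fun T hT w => ?_⟩
  set ρ : ℝ := ‖w‖ with hρ
  have hρ0 : 0 ≤ ρ := norm_nonneg w
  have hw1 : |w.re| ≤ ρ := Complex.abs_re_le_norm w
  have hw2 : |w.im| ≤ ρ := Complex.abs_im_le_norm w
  have hT0 : 0 < T := by linarith
  have hpi := Real.pi_gt_three
  have hpi4 := Real.pi_le_four
  have e1 : (1 / 2 + T * I + w : ℂ) = ((1 / 2 + w.re : ℝ) : ℂ) + ((T + w.im : ℝ) : ℂ) * I := by
    apply Complex.ext <;> simp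
  rw [e1, ← norm_xi_reflect]
  have e2 : (1 / 2 + w.re : ℝ) - 1 / 2 = w.re := by ring
  rw [e2]
  set y : ℝ := |T + w.im| with hy
  have hy0 : 0 ≤ y := abs_nonneg _
  have hy1 : T - ρ ≤ y := by
    have := le_abs_self (T + w.im)
    have := (abs_le.1 hw2).1
    linarith
  have hy2 : y ≤ T + ρ := by
    refine (abs_add_le _ _).trans ?_
    rw [abs_of_pos hT0]
    linarith
  refine (hC (1 / 2 + |w.re|) y (by linarith [abs_nonneg w.re]) hy0).trans ?_
  have h3ρ : 1 ≤ 3 + ρ := by linarith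
  have h3ρ0 : 0 < 3 + ρ := by linarith
  have hT1 : 1 ≤ T := by linarith
  -- the power
  have hN : 3 + (1 / 2 + |w.re|) + y ≤ T * (3 + ρ) := by nlinarith
  have hN0 : 0 ≤ 3 + (1 / 2 + |w.re|) + y := by linarith [abs_nonneg w.re]
  have hTρ : 1 ≤ T * (3 + ρ) := by nlinarith
  have h1 : (3 + (1 / 2 + |w.re|) + y) ^ ((1 / 2 + |w.re|) / 2 + 5) ≤
      T ^ (ρ / 2 + 6) * (3 + ρ) ^ (ρ / 2 + 6) := by
    calc _ ≤ (T * (3 + ρ)) ^ ((1 / 2 + |w.re|) / 2 + 5) :=
          Real.rpow_le_rpow hN0 hN (by linarith [abs_nonneg w.re])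
      _ ≤ (T * (3 + ρ)) ^ (ρ / 2 + 6) :=
          Real.rpow_le_rpow_of_exponent_le hTρ (by linarith)
      _ = _ := Real.mul_rpow hT0.le h3ρ0.le
  -- the exponential
  have h2 : Real.exp (-(Real.pi * y / 4)) ≤ size T * (3 + ρ) ^ ρ := by
    have h3 : Real.exp (-(Real.pi * y / 4)) ≤
        Real.exp (-(Real.pi * T / 4)) * Real.exp ρ := by
      rw [← Real.exp_add, Real.exp_le_exp]
      nlinarith
    have h4 : Real.exp ρ ≤ (3 + ρ) ^ ρ := by
      rw [← Real.exp_one_rpow]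
      apply Real.rpow_le_rpow (Real.exp_pos _).le _ hρ0
      linarith [Real.exp_one_lt_d9]
    have h5 : Real.exp (-(Real.pi * T / 4)) ≤ size T := by
      rw [size]
      apply le_mul_of_one_le_left (Real.exp_pos _).le
      exact Real.one_le_rpow hT1 (by norm_num)
    refine h3.trans ?_
    exact mul_le_mul h5 h4 (Real.exp_pos _).le ((Real.exp_pos _).le.trans h5)
  have hS : 0 < size T := by
    rw [size]
    positivity
  have h6 : (3 + ρ) ^ (ρ / 2 + 6) * (3 + ρ) ^ ρ ≤ (3 + ρ) ^ (6 * ρ + 6) := by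
    rw [← Real.rpow_add h3ρ0]
    exact Real.rpow_le_rpow_of_exponent_le h3ρ (by linarith)
  have hTp : 0 < T ^ (ρ / 2 + 6) := Real.rpow_pos_of_pos hT0 _
  have hρp : 0 < (3 + ρ) ^ (ρ / 2 + 6) := Real.rpow_pos_of_pos h3ρ0 _
  calc C * ((3 + (1 / 2 + |w.re|) + y) ^ ((1 / 2 + |w.re|) / 2 + 5) *
        Real.exp (-(Real.pi * y / 4)))
      ≤ C * ((T ^ (ρ / 2 + 6) * (3 + ρ) ^ (ρ / 2 + 6)) * (size T * (3 + ρ) ^ ρ)) := by
        apply mul_le_mul_of_nonneg_left _ (by linarith)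
        exact mul_le_mul h1 h2 (Real.exp_pos _).le (by positivity)
    _ = C * size T * T ^ (ρ / 2 + 6) * ((3 + ρ) ^ (ρ / 2 + 6) * (3 + ρ) ^ ρ) := by ring
    _ ≤ C * size T * T ^ (ρ / 2 + 6) * (3 + ρ) ^ (6 * ρ + 6) := by
        apply mul_le_mul_of_nonneg_left h6 (by positivity)

end Pool.Agent.DBN
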