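import Mathlib

/-!
# Gaussian averages of entire functions of slow growth

`SubG f` : `f` grows slower than every Gaussian. For entire `f` with `SubG f`
`∫ exp(-|w|²) f(w) dA(w) = π f(0)` (mean value property on circles), and from this the inversion
formula for the heat flow: horizontal Gaussian averages determine `f`, at every horizontal distance.
-/

set_option autoImplicit false

namespace Pool.Agent.DBN

open Complex MeasureTheory Set Filter Topology

/-- `f` grows slower than every Gaussian -/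
def SubG (f : ℂ → ℂ) : Prop :=
  ∀ δ : ℝ, 0 < δ → ∃ C : ℝ, 0 ≤ C ∧ ∀ s : ℂ, ‖f s‖ ≤ C * Real.exp (δ * ‖s‖ ^ 2)

lemma SubG.affine {f : ℂ → ℂ} (hf : SubG f) (a b : ℂ) : SubG fun w => f (a + b * w) := by
  intro δ hδ
  obtain ⟨C, hC, h⟩ := hf (δ / (2 * (‖b‖ ^ 2 + 1))) (by positivity)
  refine ⟨C * Real.exp (δ / (‖b‖ ^ 2 + 1) * ‖a‖ ^ 2), by positivity, fun w => ?_⟩
  refine (h _).trans ?_
  rw [mul_assoc, ← Real.exp_add]
  apply mul_le_mul_of_nonneg_left _ hC
  rw [Real.exp_le_exp]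
  have h1 : ‖a + b * w‖ ≤ ‖a‖ + ‖b‖ * ‖w‖ := (norm_add_le _ _).trans_eq (by rw [norm_mul])
  have h2 : ‖a + b * w‖ ^ 2 ≤ 2 * ‖a‖ ^ 2 + 2 * (‖b‖ ^ 2 + 1) * ‖w‖ ^ 2 := by
    have h3 : ‖a + b * w‖ ^ 2 ≤ (‖a‖ + ‖b‖ * ‖w‖) ^ 2 := by gcongr
    nlinarith [sq_nonneg (‖a‖ - ‖b‖ * ‖w‖), sq_nonneg ‖w‖]
  calc δ / (2 * (‖b‖ ^ 2 + 1)) * ‖a + b * w‖ ^ 2
      ≤ δ / (2 * (‖b‖ ^ 2 + 1)) * (2 * ‖a‖ ^ 2 + 2 * (‖b‖ ^ 2 + 1) * ‖w‖ ^ 2) := by gcongr
    _ = δ / (‖b‖ ^ 2 + 1) * ‖a‖ ^ 2 + δ * ‖w‖ ^ 2 := by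
        field_simp

lemma SubG.mul_exp {f : ℂ → ℂ} (hf : SubG f) (a : ℂ) : SubG fun w => exp (a * w) * f w := by
  intro δ hδ
  obtain ⟨C, hC, h⟩ := hf (δ / 2) (by positivity)
  refine ⟨C * Real.exp (‖a‖ ^ 2 / (2 * δ)), by positivity, fun w => ?_⟩
  rw [norm_mul, Complex.norm_exp]
  have h1 : (a * w).re ≤ ‖a‖ * ‖w‖ := (Complex.re_le_norm _).trans_eq (norm_mul _ _)
  have h2 : ‖a‖ * ‖w‖ ≤ ‖a‖ ^ 2 / (2 * δ) + δ / 2 * ‖w‖ ^ 2 := by
    have h3 : 0 ≤ (‖a‖ - δ * ‖w‖) ^ 2 / (2 * δ) := by positivity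
    have h4 : (‖a‖ - δ * ‖w‖) ^ 2 / (2 * δ) =
        ‖a‖ ^ 2 / (2 * δ) + δ / 2 * ‖w‖ ^ 2 - ‖a‖ * ‖w‖ := by
      field_simp
      ring
    linarith
  calc Real.exp (a * w).re * ‖f w‖
      ≤ Real.exp (‖a‖ ^ 2 / (2 * δ) + δ / 2 * ‖w‖ ^ 2) * (C * Real.exp (δ / 2 * ‖w‖ ^ 2)) := by
        apply mul_le_mul _ (h w) (norm_nonneg _) (Real.exp_pos _).le
        rw [Real.exp_le_exp]
        linarith
    _ = C * Real.exp (‖a‖ ^ 2 / (2 * δ)) * Real.exp (δ * ‖w‖ ^ 2) := by
        have e1 : Real.exp (δ * ‖w‖ ^ 2) =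
            Real.exp (δ / 2 * ‖w‖ ^ 2) * Real.exp (δ / 2 * ‖w‖ ^ 2) := by
          rw [← Real.exp_add]; congr 1; ring
        rw [e1, Real.exp_add]
        ring

/-- mean value over `(-π, π)` -/
lemma circle_mean {g : ℂ → ℂ} (hg : Differentiable ℂ g) (r : ℝ) :
    ∫ θ in Ioo (-Real.pi) Real.pi, g (r * (Real.cos θ + Real.sin θ * I)) =
      2 * Real.pi * g 0 := by
  have h1 : Real.circleAverage g 0 r = g 0 :=
    DiffContOnCl.circleAverage (hg.diffContOnCl)
  have h2 : Function.Periodic (fun θ : ℝ => g (circleMap 0 r θ)) (2 * Real.pi) := by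
    intro θ
    simp only
    rw [periodic_circleMap 0 r θ]
  have h3 := h2.intervalIntegral_add_eq (-Real.pi) 0
  have h4 : (-Real.pi) + 2 * Real.pi = Real.pi := by ring
  rw [h4, zero_add] at h3
  rw [← integral_Ioc_eq_integral_Ioo,
    ← intervalIntegral.integral_of_le (by linarith [Real.pi_pos])]
  have h5 : ∀ θ : ℝ, g (r * (Real.cos θ + Real.sin θ * I)) = g (circleMap 0 r θ) := by
    intro θ
    congr 1
    simp [circleMap, Complex.exp_mul_I]
  simp_rw [h5]
  rw [h3]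
  rw [Real.circleAverage] at h1
  rw [← h1, Complex.real_smul]
  push_cast
  have hpi : (2 * (Real.pi : ℂ)) ≠ 0 := by
    simp
  field_simp

/-- the Gaussian mean of an entire function over the plane is its value at the centre -/
theorem plane_mean {g : ℂ → ℂ} (hg : Differentiable ℂ g) (hS : SubG g) :
    ∫ w : ℂ, (Real.exp (-‖w‖ ^ 2) : ℂ) * g w = Real.pi * g 0 := by
  rw [← Complex.integral_comp_polarCoord_symm]
  have hint : IntegrableOn (fun p : ℝ × ℝ => p.1 • ((Real.exp (-‖Complex.polarCoord.symm p‖ ^ 2) : ℂ)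
      * g (Complex.polarCoord.symm p))) polarCoord.target := by
    obtain ⟨C, hC, h⟩ := hS (1 / 2) (by norm_num)
    have hr : IntegrableOn (fun r : ℝ => r * Real.exp (-(1 / 2) * r ^ 2)) (Ioi 0) :=
      (integrable_mul_exp_neg_mul_sq (b := 1 / 2) (by norm_num)).integrableOn
    have hc : IntegrableOn (fun _ : ℝ => C) (Ioo (-Real.pi) Real.pi) :=
      integrableOn_const (by simp)
    have hp : Integrable (fun p : ℝ × ℝ => p.1 * Real.exp (-(1 / 2) * p.1 ^ 2) * C)
        (((volume : Measure ℝ).restrict (Ioi 0)).prod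
          ((volume : Measure ℝ).restrict (Ioo (-Real.pi) Real.pi))) :=
      Integrable.mul_prod hr hc
    rw [Measure.prod_restrict] at hp
    rw [polarCoord_target]
    refine Integrable.mono' hp ?_ ?_
    · apply Continuous.aestronglyMeasurable
      have := hg.continuous
      simp only [Complex.polarCoord_symm_apply]
      fun_prop
    · rw [ae_restrict_iff' (measurableSet_Ioi.prod measurableSet_Ioo)]
      refine Eventually.of_forall fun p hp => ?_
      have hp1 : 0 < p.1 := hp.1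
      have e1 : ‖Complex.polarCoord.symm p‖ = p.1 := by
        rw [Complex.norm_polarCoord_symm, abs_of_pos hp1]
      have h1 := h (Complex.polarCoord.symm p)
      rw [e1] at h1
      rw [norm_smul, norm_mul, e1, Real.norm_of_nonneg hp1.le, Complex.norm_real,
        Real.norm_of_nonneg (Real.exp_pos _).le]
      have e2 : Real.exp (-(1 / 2) * p.1 ^ 2) =
          Real.exp (-p.1 ^ 2) * Real.exp (1 / 2 * p.1 ^ 2) := by
        rw [← Real.exp_add]; congr 1; ring
      rw [e2]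
      calc p.1 * (Real.exp (-p.1 ^ 2) * ‖g (Complex.polarCoord.symm p)‖)
          ≤ p.1 * (Real.exp (-p.1 ^ 2) * (C * Real.exp (1 / 2 * p.1 ^ 2))) := by gcongr
        _ = _ := by ring
  rw [polarCoord_target] at hint ⊢
  rw [Measure.volume_eq_prod] at hint ⊢
  rw [setIntegral_prod _ hint]
  have hin : ∀ r ∈ Ioi (0 : ℝ), ∫ θ in Ioo (-Real.pi) Real.pi,
      ((r, θ) : ℝ × ℝ).1 • ((Real.exp (-‖Complex.polarCoord.symm (r, θ)‖ ^ 2) : ℂ)
      * g (Complex.polarCoord.symm (r, θ))) = (r * Real.exp (-1 * r ^ 2) : ℝ) * (2 * Real.pi * g 0) := by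
    intro r hr
    have hr0 : 0 < r := hr
    have e1 : ∀ θ : ℝ, ((r, θ) : ℝ × ℝ).1 • ((Real.exp (-‖Complex.polarCoord.symm (r, θ)‖ ^ 2) : ℂ)
        * g (Complex.polarCoord.symm (r, θ))) =
        (r * Real.exp (-1 * r ^ 2) : ℝ) * g (r * (Real.cos θ + Real.sin θ * I)) := by
      intro θ
      rw [Complex.norm_polarCoord_symm, abs_of_pos hr0, Complex.polarCoord_symm_apply,
        Complex.real_smul]
      push_cast
      rw [show (-1 * (r : ℂ) ^ 2) = -(r : ℂ) ^ 2 by ring]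
      ring
    simp_rw [e1]
    rw [integral_const_mul, circle_mean hg r]
  rw [setIntegral_congr_fun measurableSet_Ioi hin, integral_mul_const]
  have e2 : ∫ r in Ioi (0 : ℝ), ((r * Real.exp (-1 * r ^ 2) : ℝ) : ℂ) = (2 * 1 : ℂ)⁻¹ := by
    rw [← integral_mul_cexp_neg_mul_sq (b := 1) (by simp)]
    refine integral_congr_ae (Eventually.of_forall fun r => ?_)
    simp only
    push_cast
    rfl
  rw [e2]
  ring

/-- the iterated form -/
theorem plane_mean_iter {g : ℂ → ℂ} (hg : Differentiable ℂ g) (hS : SubG g) :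
    ∫ y : ℝ, ∫ x : ℝ, (Real.exp (-(x ^ 2 + y ^ 2)) : ℂ) * g (x + y * I) = Real.pi * g 0 := by
  have h0 := plane_mean hg hS
  have hint : Integrable (fun p : ℝ × ℝ => (Real.exp (-(p.1 ^ 2 + p.2 ^ 2)) : ℂ) *
      g (p.1 + p.2 * I)) ((volume : Measure ℝ).prod volume) := by
    obtain ⟨C, hC, h⟩ := hS (1 / 2) (by norm_num)
    have hr : Integrable (fun r : ℝ => C * Real.exp (-(1 / 2) * r ^ 2)) :=
      (integrable_exp_neg_mul_sq (b := 1 / 2) (by norm_num)).const_mul C
    have hr' : Integrable (fun r : ℝ => Real.exp (-(1 / 2) * r ^ 2)) :=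
      (integrable_exp_neg_mul_sq (b := 1 / 2) (by norm_num))
    refine Integrable.mono' (Integrable.mul_prod hr hr') ?_ ?_
    · apply Continuous.aestronglyMeasurable
      have := hg.continuous
      fun_prop
    · refine Eventually.of_forall fun p => ?_
      have h1 := h (p.1 + p.2 * I)
      have e1 : ‖((p.1 : ℂ) + p.2 * I)‖ ^ 2 = p.1 ^ 2 + p.2 ^ 2 := by
        rw [← Complex.normSq_eq_norm_sq, Complex.normSq_apply]
        simp
        ring
      rw [e1] at h1
      rw [norm_mul, Complex.norm_real, Real.norm_of_nonneg (Real.exp_pos _).le]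
      calc Real.exp (-(p.1 ^ 2 + p.2 ^ 2)) * ‖g (p.1 + p.2 * I)‖
          ≤ Real.exp (-(p.1 ^ 2 + p.2 ^ 2)) * (C * Real.exp (1 / 2 * (p.1 ^ 2 + p.2 ^ 2))) := by
            gcongr
        _ = C * Real.exp (-(1 / 2) * p.1 ^ 2) * Real.exp (-(1 / 2) * p.2 ^ 2) := by
            have e3 : Real.exp (-(p.1 ^ 2 + p.2 ^ 2)) * Real.exp (1 / 2 * (p.1 ^ 2 + p.2 ^ 2)) =
                Real.exp (-(1 / 2) * p.1 ^ 2) * Real.exp (-(1 / 2) * p.2 ^ 2) := by
              rw [← Real.exp_add, ← Real.exp_add]; congr 1; ring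
            calc _ = C * (Real.exp (-(p.1 ^ 2 + p.2 ^ 2)) *
                Real.exp (1 / 2 * (p.1 ^ 2 + p.2 ^ 2))) := by ring
              _ = _ := by rw [e3]; ring
  rw [← h0, ← (Complex.volume_preserving_equiv_real_prod.symm).integral_comp
    Complex.measurableEquivRealProd.symm.measurableEmbedding, Measure.volume_eq_prod,
    ← integral_prod_swap, integral_prod]
  · refine integral_congr_ae (Eventually.of_forall fun y => ?_)
    refine integral_congr_ae (Eventually.of_forall fun x => ?_)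
    have e1 : Complex.measurableEquivRealProd.symm (x, y) = (x : ℂ) + y * I := by
      rw [Complex.measurableEquivRealProd_symm_apply]
      apply Complex.ext <;> simp
    have e2 : ‖((x : ℂ) + y * I)‖ ^ 2 = x ^ 2 + y ^ 2 := by
      rw [← Complex.normSq_eq_norm_sq, Complex.normSq_apply]
      simp
      ring
    simp only [Prod.swap, e1, e2]
  · have h2 := hint.swap
    refine h2.congr (Eventually.of_forall fun p => ?_)
    have e1 : Complex.measurableEquivRealProd.symm (p.2, p.1) = (p.2 : ℂ) + p.1 * I := by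
      rw [Complex.measurableEquivRealProd_symm_apply]
      apply Complex.ext <;> simp
    have e2 : ‖((p.2 : ℂ) + p.1 * I)‖ ^ 2 = p.2 ^ 2 + p.1 ^ 2 := by
      rw [← Complex.normSq_eq_norm_sq, Complex.normSq_apply]
      simp
      ring
    simp only [Prod.swap, Function.comp_apply, e1, e2]

/-- inversion of the horizontal Gaussian averages, evaluated at horizontal distance `a` -/
theorem inv_flow {f : ℂ → ℂ} (hf : Differentiable ℂ f) (hS : SubG f) (r a : ℝ) (s : ℂ) :
    ∫ y : ℝ, exp (-(y + a * I) ^ 2) *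
      ∫ x : ℝ, (Real.exp (-x ^ 2) : ℂ) * f (s + r * (x + y * I)) = Real.pi * f (s + r * a) := by
  set g : ℂ → ℂ := fun w => exp ((-2 * a : ℂ) * w) * f ((s + r * a) + r * w) with hg
  have hgd : Differentiable ℂ g := by
    have := hf
    simp only [hg]
    fun_prop
  have hgS : SubG g := (hS.affine _ _).mul_exp _
  have h0 := plane_mean_iter hgd hgS
  have e0 : g 0 = f (s + r * a) := by simp [hg]
  rw [e0] at h0
  rw [← h0]
  refine integral_congr_ae (Eventually.of_forall fun y => ?_)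
  simp only
  rw [← integral_const_mul, ← integral_sub_right_eq_self (fun x : ℝ =>
    (Real.exp (-(x ^ 2 + y ^ 2)) : ℂ) * g (x + y * I)) a]
  refine integral_congr_ae (Eventually.of_forall fun x => ?_)
  simp only [hg]
  have e1 : (s + r * a + r * (((x - a : ℝ) : ℂ) + y * I)) = s + r * (x + y * I) := by
    push_cast; ring
  rw [e1, ← mul_assoc, ← mul_assoc]
  congr 1
  rw [Complex.ofReal_exp, Complex.ofReal_exp, ← Complex.exp_add, ← Complex.exp_add]
  congr 1
  push_cast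
  have hI : I ^ 2 = -1 := Complex.I_sq
  linear_combination ((a : ℂ) ^ 2 * (-1)) * hI

end Pool.Agent.DBN
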