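import Pool.Agent.DBN.Crude
import Pool.Agent.DBN.Mu2
import Pool.Agent.DBN.Gauss

/-!
# The xi function far from a point, and the pointwise bound behind the flow estimates
-/

set_option autoImplicit false

namespace Pool.Agent.DBN

open Complex MeasureTheory Set Filter Topology

lemma size_pos {T : ℝ} (hT : 0 < T) : 0 < size T := by unfold size; positivity

lemma log_two_ge : (1 : ℝ) / 2 ≤ Real.log 2 := by
  have := Real.log_two_gt_d9
  linarith

/-- far from `1/2 + i T`, measured in the Gaussian of the time `c / log T`, `xi` is negligible -/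
theorem xi_far {c : ℝ} (hc : 0 < c) (M : ℝ) : ∃ R C : ℝ, 1 ≤ R ∧ 0 ≤ C ∧
    ∀ (T : ℝ) (w : ℂ), 2 ≤ T → R ≤ ‖w‖ →
      ‖xi (1 / 2 + T * I + w)‖ ≤
        C * size T * T ^ (-M) * Real.exp (‖w‖ ^ 2 * Real.log T / (2 * c)) := by
  obtain ⟨C, K, hC, hK, h⟩ := xi_crude
  set B : ℝ := 2 * c * (13 * K + 1 + |M|) with hB
  have hM0 := abs_nonneg M
  have hB0 : 0 < B := by positivity
  refine ⟨max 3 (B ^ 2), C, le_trans (by norm_num) (le_max_left _ _), by linarith, ?_⟩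
  intro T w hT hw
  have hT0 : 0 < T := by linarith
  set ρ := ‖w‖ with hρ
  have hρ3 : 3 ≤ ρ := (le_max_left _ _).trans hw
  have hρB : B ^ 2 ≤ ρ := (le_max_right _ _).trans hw
  set L := Real.log T with hL
  have hL2 : 1 / 2 ≤ L := log_two_ge.trans (Real.log_le_log (by norm_num) hT)
  refine (h T hT w).trans ?_
  have hs0 := (size_pos hT0).le
  have e1 : C * size T * T ^ (ρ / 2 + K) * (3 + ρ) ^ (K * ρ + K) =
      C * size T * Real.exp ((ρ / 2 + K) * L + (K * ρ + K) * Real.log (3 + ρ)) := by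
    rw [Real.exp_add, Real.rpow_def_of_pos hT0, Real.rpow_def_of_pos (by linarith : 0 < 3 + ρ)]
    rw [mul_comm (Real.log T), mul_comm (Real.log (3 + ρ))]
    ring
  have e2 : C * size T * T ^ (-M) * Real.exp (ρ ^ 2 * L / (2 * c)) =
      C * size T * Real.exp (-M * L + ρ ^ 2 * L / (2 * c)) := by
    rw [Real.exp_add, Real.rpow_def_of_pos hT0, mul_comm (Real.log T)]
    ring
  rw [e1, e2]
  apply mul_le_mul_of_nonneg_left _ (by positivity)
  rw [Real.exp_le_exp]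
  -- the logarithm
  set s := Real.sqrt ρ with hs
  have hs2 : s ^ 2 = ρ := Real.sq_sqrt (by linarith)
  have hsB : B ≤ s := by
    rw [hs]
    exact Real.le_sqrt_of_sq_le hρB
  have hs1 : 1 ≤ s := by
    rw [hs]
    exact Real.one_le_sqrt.mpr (by linarith)
  have hlog : Real.log (3 + ρ) ≤ 3 * s := by
    have h1 : Real.log (3 + ρ) ≤ Real.log ((3 / 2 * s) ^ 2) := by
      apply Real.log_le_log (by linarith)
      nlinarith
    have h2 : Real.log ((3 / 2 * s) ^ 2) = 2 * Real.log (3 / 2 * s) := by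
      rw [Real.log_pow]; norm_num
    have h3 : Real.log (3 / 2 * s) ≤ 3 / 2 * s - 1 := Real.log_le_sub_one_of_pos (by positivity)
    linarith
  have hlog0 : 0 ≤ Real.log (3 + ρ) := Real.log_nonneg (by linarith)
  have h1 : (K * ρ + K) * Real.log (3 + ρ) ≤ 12 * K * s ^ 3 * L := by
    have h2 : K * ρ + K ≤ 2 * K * s ^ 2 := by nlinarith
    calc (K * ρ + K) * Real.log (3 + ρ) ≤ (2 * K * s ^ 2) * (3 * s) := by gcongr
      _ = 12 * K * s ^ 3 * (1 / 2) := by ring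
      _ ≤ 12 * K * s ^ 3 * L := by gcongr
  have h2 : (ρ / 2 + K) * L + M * L ≤ (K + 1 + |M|) * s ^ 3 * L := by
    rw [← add_mul]
    apply mul_le_mul_of_nonneg_right _ (by linarith)
    have h3 : s ^ 2 ≤ s ^ 3 := pow_le_pow_right₀ hs1 (by norm_num)
    have h4 : 1 ≤ s ^ 3 := one_le_pow₀ hs1
    have h5 : M ≤ |M| := le_abs_self M
    have h6 : |M| ≤ |M| * s ^ 3 := by nlinarith
    have h7 : K ≤ K * s ^ 3 := by nlinarith
    nlinarith
  have h3 : (13 * K + 1 + |M|) * s ^ 3 * L ≤ ρ ^ 2 * L / (2 * c) := by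
    rw [le_div_iff₀ (by positivity)]
    have e3 : (13 * K + 1 + |M|) * s ^ 3 * L * (2 * c) = B * s ^ 3 * L := by rw [hB]; ring
    rw [e3]
    apply mul_le_mul_of_nonneg_right _ (by linarith)
    rw [← hs2]
    have e4 : (s ^ 2) ^ 2 = s * s ^ 3 := by ring
    rw [e4]
    gcongr
  nlinarith

theorem subG_xi : SubG xi := by
  have h0 : SubG fun w => xi (1 / 2 + (2 : ℝ) * I + w) := by
    intro δ hδ
    have hl : 0 < Real.log 2 := Real.log_pos (by norm_num)
    obtain ⟨R, C, hR, hC, h⟩ := xi_far (c := Real.log 2 / (2 * δ)) (by positivity) 0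
    have hcont : Continuous fun w : ℂ => ‖xi (1 / 2 + (2 : ℝ) * I + w)‖ := by
      have := differentiable_xi.continuous
      fun_prop
    obtain ⟨C', hC'⟩ := ((isCompact_closedBall (0 : ℂ) R).image hcont).bddAbove
    have hC0 : 0 ≤ C' := le_trans (norm_nonneg _) (hC' ⟨0, by simp; linarith, rfl⟩)
    have hs0 : 0 ≤ size 2 := (size_pos (by norm_num)).le
    refine ⟨C' + C * size 2, by positivity, fun w => ?_⟩
    rcases le_total R ‖w‖ with h1 | h1
    · refine (h 2 w le_rfl h1).trans ?_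
      rw [neg_zero, Real.rpow_zero, mul_one]
      have e1 : ‖w‖ ^ 2 * Real.log 2 / (2 * (Real.log 2 / (2 * δ))) = δ * ‖w‖ ^ 2 := by
        field_simp
      rw [e1]
      gcongr
      linarith
    · have h2 : ‖xi (1 / 2 + (2 : ℝ) * I + w)‖ ≤ C' := hC' ⟨w, by simpa using h1, rfl⟩
      refine h2.trans ?_
      have h3 : 1 ≤ Real.exp (δ * ‖w‖ ^ 2) := Real.one_le_exp (by positivity)
      have h4 : 0 ≤ C * size 2 := by positivity
      nlinarith
  have h1 := h0.affine (-(1 / 2 + (2 : ℝ) * I)) 1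
  intro δ hδ
  obtain ⟨C, hC, h⟩ := h1 δ hδ
  refine ⟨C, hC, fun s => ?_⟩
  have h2 := h s
  have e : ((1 / 2 : ℂ) + (2 : ℝ) * I + (-(1 / 2 + (2 : ℝ) * I) + 1 * s)) = s := by ring
  beta_reduce at h2
  rwa [e] at h2

/-- the pointwise bound -/
theorem xi_ptwise {c A : ℝ} (hc : 0 < c) (h : ∀ σ, MuLe (1 / 2 + σ) (A + σ ^ 2 / c - σ / 2))
    {ε : ℝ} (hε : 0 < ε) : ∃ C κ : ℝ, 0 ≤ C ∧ 0 < κ ∧ ∀ T σ : ℝ, 2 ≤ T →
      ‖xi (1 / 2 + T * I + σ)‖ ≤
        C * size T * T ^ (A + ε) * Real.exp ((1 / c - κ) * σ ^ 2 * Real.log T) := by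
  obtain ⟨R, C₁, hR, hC₁, h1⟩ := xi_far hc (-A)
  set a : ℝ → ℝ := fun x => A + (x - 1 / 2) ^ 2 / c - (x - 1 / 2) / 2 with ha
  have hac : Continuous a := by simp only [ha]; fun_prop
  have hmu : ∀ x, MuLe x (a x) := by
    intro x
    have := h (x - 1 / 2)
    simpa [ha] using this
  obtain ⟨C₂, hC₂, h2⟩ := mu_unif hac hmu (R + 1 / 2) (ε := ε / 2) (by positivity)
  obtain ⟨C₃, hC₃, h3⟩ := xi_two (R + 1 / 2)
  refine ⟨C₁ + C₃ * C₂, min (1 / (2 * c)) (ε / (2 * R ^ 2)), by positivity, by positivity, ?_⟩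
  intro T σ hT
  set κ := min (1 / (2 * c)) (ε / (2 * R ^ 2)) with hκ
  have hκ1 : κ ≤ 1 / (2 * c) := min_le_left _ _
  have hκ2 : κ ≤ ε / (2 * R ^ 2) := min_le_right _ _
  have hκ0 : 0 < κ := by positivity
  have hT0 : 0 < T := by linarith
  set L := Real.log T with hL
  have hL2 : 1 / 2 ≤ L := log_two_ge.trans (Real.log_le_log (by norm_num) hT)
  have hs0 := size_pos hT0
  rcases le_total R |σ| with hσ | hσ
  · have h4 := h1 T σ hT (by simpa using hσ)
    refine h4.trans ?_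
    have h5 : T ^ (-(-A)) ≤ T ^ (A + ε) := by
      rw [neg_neg]
      exact Real.rpow_le_rpow_of_exponent_le (by linarith) (by linarith)
    have h6 : Real.exp (‖(σ : ℂ)‖ ^ 2 * L / (2 * c)) ≤ Real.exp ((1 / c - κ) * σ ^ 2 * L) := by
      rw [Real.exp_le_exp, Complex.norm_real, Real.norm_eq_abs, sq_abs]
      have e1 : (1 / c - κ) * σ ^ 2 * L - σ ^ 2 * L / (2 * c) = (1 / (2 * c) - κ) * (σ ^ 2 * L) := by
        field_simp
        ring
      have : 0 ≤ (1 / (2 * c) - κ) * (σ ^ 2 * L) := by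
        apply mul_nonneg (by linarith) (by positivity)
      linarith
    calc C₁ * size T * T ^ (-(-A)) * Real.exp (‖(σ : ℂ)‖ ^ 2 * L / (2 * c))
        ≤ C₁ * size T * T ^ (A + ε) * Real.exp ((1 / c - κ) * σ ^ 2 * L) := by gcongr
      _ ≤ (C₁ + C₃ * C₂) * size T * T ^ (A + ε) * Real.exp ((1 / c - κ) * σ ^ 2 * L) := by
          gcongr
          nlinarith
  · have hx : |1 / 2 + σ| ≤ R + 1 / 2 := by
      calc |1 / 2 + σ| ≤ |(1 / 2 : ℝ)| + |σ| := abs_add_le _ _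
        _ ≤ R + 1 / 2 := by rw [abs_of_pos (by norm_num : (0 : ℝ) < 1 / 2)]; linarith
    have h4 := (h3 (1 / 2 + σ) T hx hT).1
    have h5 := h2 (1 / 2 + σ) T hx hT
    have e0 : (1 / 2 + T * I + σ : ℂ) = ((1 / 2 + σ : ℝ) : ℂ) + T * I := by
      push_cast; ring
    rw [e0]
    refine h4.trans ?_
    have e1 : T ^ ((1 / 2 + σ - 1 / 2) / 2) * T ^ (a (1 / 2 + σ) + ε / 2) =
        T ^ (A + ε / 2) * Real.exp (1 / c * σ ^ 2 * L) := by
      rw [← Real.rpow_add hT0, Real.rpow_def_of_pos hT0, Real.rpow_def_of_pos hT0,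
        ← Real.exp_add]
      congr 1
      simp only [ha]
      field_simp
      ring
    have e2 : T ^ (A + ε / 2) * Real.exp (1 / c * σ ^ 2 * L) ≤
        T ^ (A + ε) * Real.exp ((1 / c - κ) * σ ^ 2 * L) := by
      rw [Real.rpow_def_of_pos hT0, Real.rpow_def_of_pos hT0, ← Real.exp_add, ← Real.exp_add,
        Real.exp_le_exp, ← hL]
      have h6 : κ * σ ^ 2 ≤ ε / 2 := by
        have h7 : σ ^ 2 ≤ R ^ 2 := sq_le_sq' (by linarith [neg_abs_le σ]) (by
          linarith [le_abs_self σ])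
        calc κ * σ ^ 2 ≤ ε / (2 * R ^ 2) * R ^ 2 := by gcongr
          _ = ε / 2 := by field_simp
      nlinarith
    calc C₃ * (T ^ ((1 / 2 + σ - 1 / 2) / 2) * size T *
          ‖riemannZeta (((1 / 2 + σ : ℝ) : ℂ) + T * I)‖)
        ≤ C₃ * (T ^ ((1 / 2 + σ - 1 / 2) / 2) * size T * (C₂ * T ^ (a (1 / 2 + σ) + ε / 2))) := by
          gcongr
      _ = C₃ * C₂ * size T *
          (T ^ ((1 / 2 + σ - 1 / 2) / 2) * T ^ (a (1 / 2 + σ) + ε / 2)) := by ring
      _ ≤ C₃ * C₂ * size T * (T ^ (A + ε) * Real.exp ((1 / c - κ) * σ ^ 2 * L)) := by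
          rw [e1]
          gcongr
      _ ≤ (C₁ + C₃ * C₂) * size T * (T ^ (A + ε) * Real.exp ((1 / c - κ) * σ ^ 2 * L)) := by
          gcongr
          linarith
      _ = _ := by ring

end Pool.Agent.DBN
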