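import Pool.Agent.DBN.Defs2
import Pool.Agent.DBN.Far
import Pool.Agent.DBN.Crude
import Pool.Agent.DBN.Contour

/-!
# The windowed Fourier transform at large frequencies, and the flow near the height `T`
-/

set_option autoImplicit false

namespace Pool.Agent.DBN

open Complex MeasureTheory

/-- crude bound of `xi` in the whole plane -/
lemma xi_all : ∃ C : ℝ, 1 ≤ C ∧ ∀ x y : ℝ,
    ‖xi (((1 / 2 + x : ℝ) : ℂ) + y * I)‖ ≤
      C * ((4 + |x| + |y|) ^ (|x| / 2 + 6) * Real.exp (-(Real.pi * |y| / 4))) := by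
  obtain ⟨C, hC, h⟩ := xi_quarter
  refine ⟨C, hC, fun x y => ?_⟩
  have h1 : ‖xi (((1 / 2 + x : ℝ) : ℂ) + y * I)‖ = ‖xi (((1 / 2 + x : ℝ) : ℂ) + |y| * I)‖ := by
    rcases le_or_gt 0 y with hy | hy
    · rw [abs_of_nonneg hy]
    · rw [abs_of_neg hy, ← norm_xi_conj]
      congr 2
      simp only [map_add, map_mul, Complex.conj_ofReal, Complex.conj_I]
      push_cast
      ring
  have h2 : ‖xi (((1 / 2 + x : ℝ) : ℂ) + |y| * I)‖ =
      ‖xi (((1 / 2 + |x| : ℝ) : ℂ) + |y| * I)‖ := by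
    rcases le_or_gt 0 x with hx | hx
    · rw [abs_of_nonneg hx]
    · rw [abs_of_neg hx, ← norm_xi_symm]
      congr 4
      ring
  rw [h1, h2]
  refine (h (1 / 2 + |x|) |y| (by have := abs_nonneg x; linarith) (abs_nonneg y)).trans ?_
  have hx := abs_nonneg x
  have hy := abs_nonneg y
  have h3 : (3 + (1 / 2 + |x|) + |y|) ^ ((1 / 2 + |x|) / 2 + 5) ≤
      (4 + |x| + |y|) ^ (|x| / 2 + 6) :=
    (Real.rpow_le_rpow (by positivity) (by linarith) (by positivity)).trans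
      (Real.rpow_le_rpow_of_exponent_le (by linarith) (by linarith))
  gcongr

lemma size_le_of {T : ℝ} (hT : 2 ≤ T) : Real.exp (-(Real.pi * T / 4)) ≤ size T := by
  unfold size
  have h : (1 : ℝ) ≤ T ^ (7 / 4 : ℝ) := Real.one_le_rpow (by linarith) (by norm_num)
  exact le_mul_of_one_le_left (Real.exp_pos _).le h

/-- the integral of the shifted integrand -/
lemma win_shift (ω T a : ℝ) : win ω T = ∫ v : ℝ,
    exp (-(1 : ℝ) * ((v : ℂ) + a * I) ^ 2 + (ω * I) * (v + a * I)) *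
      xi (((1 / 2 + (-a) : ℝ) : ℂ) + ((T + v : ℝ) : ℂ) * I) := by
  have hG : Differentiable ℂ fun z : ℂ => xi ((1 / 2 + T * I) + I * z) :=
    differentiable_xi.comp ((differentiable_const _).add (differentiable_id.const_mul I))
  have hS : SubG fun z : ℂ => xi ((1 / 2 + T * I) + I * z) := subG_xi.affine _ _
  have h := contour_shift hG hS one_pos (ω * I) a
  have e1 : win ω T = ∫ v : ℝ, exp (-((1 : ℝ) : ℂ) * (v : ℂ) ^ 2 + (ω * I) * v) *
      xi ((1 / 2 + T * I) + I * v) := by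
    unfold win
    congr 1
    funext v
    congr 2
    · push_cast; ring
    · ring
  rw [e1, ← h]
  congr 1
  funext v
  congr 2
  push_cast
  linear_combination (a : ℂ) * I_sq

theorem win_bound : ∃ C : ℝ, 1 ≤ C ∧ ∀ T ω a : ℝ, 2 ≤ T →
    ‖win ω T‖ ≤ C * size T * T ^ (|a| / 2 + 6) *
      Real.exp (a ^ 2 - ω * a + (|a| / 2 + 6) * (2 + |a|) + (|a| / 2 + 6) ^ 2) := by
  obtain ⟨C, hC, h⟩ := xi_all
  have hpi := Real.pi_pos
  have hint : Integrable fun v : ℝ => Real.exp (-(1 / 2 : ℝ) * v ^ 2) :=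
    integrable_exp_neg_mul_sq (by norm_num)
  refine ⟨C * Real.exp 1 * (∫ v : ℝ, Real.exp (-(1 / 2 : ℝ) * v ^ 2)) + 1, ?_, fun T ω a hT => ?_⟩
  · have : 0 ≤ C * Real.exp 1 * (∫ v : ℝ, Real.exp (-(1 / 2 : ℝ) * v ^ 2)) :=
      mul_nonneg (by positivity) (integral_nonneg fun v => (Real.exp_pos _).le)
    linarith
  rw [win_shift ω T a]
  set s : ℝ := |a| / 2 + 6 with hs
  have hs0 : 0 ≤ s := by positivity
  have ha0 := abs_nonneg a
  have hT0 : 0 < T := by linarith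
  have hb : ∀ v : ℝ, ‖exp (-(1 : ℝ) * ((v : ℂ) + a * I) ^ 2 + (ω * I) * (v + a * I)) *
      xi (((1 / 2 + (-a) : ℝ) : ℂ) + ((T + v : ℝ) : ℂ) * I)‖ ≤
      (C * Real.exp 1 * size T * T ^ s *
        Real.exp (a ^ 2 - ω * a + s * (2 + |a|) + s ^ 2)) * Real.exp (-(1 / 2 : ℝ) * v ^ 2) := by
    intro v
    have hv0 := abs_nonneg v
    rw [norm_mul, Complex.norm_exp]
    have e1 : (-(1 : ℝ) * ((v : ℂ) + a * I) ^ 2 + (ω * I) * (v + a * I)).re =
        -v ^ 2 + a ^ 2 - ω * a := by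
      simp [pow_two]
      ring
    rw [e1]
    have h1 := h (-a) (T + v)
    rw [abs_neg] at h1
    have h2 : |T + v| ≤ T + |v| := (abs_add_le T v).trans (by rw [abs_of_pos hT0])
    have h3 : T - |v| ≤ |T + v| := by
      have := abs_sub_abs_le_abs_sub T (-v)
      rw [abs_neg, abs_of_pos hT0, sub_neg_eq_add] at this
      exact this
    have h4 : (4 + |a| + |T + v|) ^ s ≤ T ^ s * Real.exp (s * (2 + |a|) + s * |v|) := by
      have h5 : 4 + |a| + |T + v| ≤ T * (3 + |a| + |v|) := by nlinarith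
      have h6 : 3 + |a| + |v| ≤ Real.exp (2 + |a| + |v|) := by
        have := Real.add_one_le_exp (2 + |a| + |v|)
        linarith
      calc (4 + |a| + |T + v|) ^ s ≤ (T * Real.exp (2 + |a| + |v|)) ^ s :=
            Real.rpow_le_rpow (by positivity) (h5.trans (by gcongr)) hs0
        _ = T ^ s * Real.exp (s * (2 + |a|) + s * |v|) := by
            rw [Real.mul_rpow hT0.le (Real.exp_pos _).le, ← Real.exp_mul]
            congr 2
            ring
    have h7 : Real.exp (-(Real.pi * |T + v| / 4)) ≤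
        Real.exp (-(Real.pi * T / 4)) * Real.exp (Real.pi * |v| / 4) := by
      rw [← Real.exp_add]
      apply Real.exp_le_exp.mpr
      nlinarith
    have h8 : Real.pi * |v| / 4 ≤ v ^ 2 / 4 + 1 := by
      have h9 := Real.pi_lt_d2
      have h10 : v ^ 2 = |v| ^ 2 := (sq_abs v).symm
      rw [h10]
      nlinarith [sq_nonneg (|v| - 2)]
    have h11 : s * |v| ≤ s ^ 2 + v ^ 2 / 4 := by
      have h10 : v ^ 2 = |v| ^ 2 := (sq_abs v).symm
      rw [h10]
      nlinarith [sq_nonneg (|v| / 2 - s)]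
    calc Real.exp (-v ^ 2 + a ^ 2 - ω * a) * ‖xi (((1 / 2 + (-a) : ℝ) : ℂ) + ((T + v : ℝ) : ℂ) * I)‖
        ≤ Real.exp (-v ^ 2 + a ^ 2 - ω * a) * (C * ((T ^ s * Real.exp (s * (2 + |a|) + s * |v|)) *
          (Real.exp (-(Real.pi * T / 4)) * Real.exp (Real.pi * |v| / 4)))) := by
          gcongr
          refine h1.trans ?_
          gcongr
      _ ≤ Real.exp (-v ^ 2 + a ^ 2 - ω * a) * (C * ((T ^ s * Real.exp (s * (2 + |a|) +
          (s ^ 2 + v ^ 2 / 4))) * (size T * Real.exp (v ^ 2 / 4 + 1)))) := by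
          have := size_le_of hT
          have hsz := size_pos hT0
          gcongr
      _ = (C * Real.exp 1 * size T * T ^ s *
        Real.exp (a ^ 2 - ω * a + s * (2 + |a|) + s ^ 2)) * Real.exp (-(1 / 2 : ℝ) * v ^ 2) := by
          rw [show C * Real.exp 1 * size T * T ^ s * Real.exp (a ^ 2 - ω * a + s * (2 + |a|) + s ^ 2) *
            Real.exp (-(1 / 2 : ℝ) * v ^ 2) = C * size T * T ^ s * (Real.exp 1 *
            Real.exp (a ^ 2 - ω * a + s * (2 + |a|) + s ^ 2) * Real.exp (-(1 / 2 : ℝ) * v ^ 2)) by ring,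
            show Real.exp (-v ^ 2 + a ^ 2 - ω * a) * (C * ((T ^ s * Real.exp (s * (2 + |a|) +
            (s ^ 2 + v ^ 2 / 4))) * (size T * Real.exp (v ^ 2 / 4 + 1)))) = C * size T * T ^ s *
            (Real.exp (-v ^ 2 + a ^ 2 - ω * a) * Real.exp (s * (2 + |a|) +
            (s ^ 2 + v ^ 2 / 4)) * Real.exp (v ^ 2 / 4 + 1)) by ring]
          congr 1
          rw [← Real.exp_add, ← Real.exp_add, ← Real.exp_add, ← Real.exp_add]
          congr 1
          ring
  have hsz := size_pos hT0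
  have hle := norm_integral_le_of_norm_le (hint.const_mul _) (Filter.Eventually.of_forall hb)
  rw [integral_const_mul] at hle
  refine hle.trans ?_
  have hX : 0 ≤ size T * T ^ s * Real.exp (a ^ 2 - ω * a + s * (2 + |a|) + s ^ 2) := by positivity
  nlinarith

theorem win_far {c δ : ℝ} (hc : 0 < c) (hδ : 0 < δ) (M : ℝ) : ∃ C T₀ : ℝ, 0 ≤ C ∧ 2 ≤ T₀ ∧
    ∀ T ω : ℝ, T₀ ≤ T → (1 / 2 + δ) * Real.log T ≤ |ω| →
      ‖win ω T‖ ≤ C * size T * T ^ (-M) * Real.exp (-(c * ω ^ 2 / (4 * Real.log T))) := by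
  obtain ⟨C, hC, h⟩ := win_bound
  set θ : ℝ := δ / (1 / 2 + δ) with hθ
  have hθ0 : 0 < θ := by positivity
  set B : ℝ := (1 + c / 4 + 4 * (6 + |M|)) / θ with hB
  have hM0 := abs_nonneg M
  have hB0 : 0 < B := by positivity
  have hBθ : B * θ = 1 + c / 4 + 4 * (6 + |M|) := by
    rw [hB]; field_simp
  set D : ℝ := B ^ 2 + (B / 2 + 12) * (4 + B) + (B / 2 + 12) ^ 2 with hD
  refine ⟨C, max 2 (Real.exp D), by linarith, le_max_left _ _, fun T ω hT hω => ?_⟩
  have hT2 : 2 ≤ T := (le_max_left _ _).trans hT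
  have hT0 : 0 < T := by linarith
  have hLD : D ≤ Real.log T := (Real.le_log_iff_exp_le hT0).mpr ((le_max_right _ _).trans hT)
  set L : ℝ := Real.log T with hL
  have hL0 : 0 < L := Real.log_pos (by linarith)
  set y : ℝ := ω / L with hy
  have hωy : ω = y * L := by rw [hy]; field_simp
  have hz : 1 / 2 + δ ≤ |y| := by
    rw [hy, abs_div, abs_of_pos hL0, le_div_iff₀ hL0]
    exact hω
  set z : ℝ := |y| with hz'
  have hz0 : 0 ≤ z := abs_nonneg _
  have hy2 : y ^ 2 = z ^ 2 := (sq_abs y).symm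
  have hzθ : θ * z ≤ z - 1 / 2 := by
    rw [hθ, div_mul_eq_mul_div, div_le_iff₀ (by positivity)]
    nlinarith
  have hb := h T ω (B * y) hT2
  have ha : |B * y| = B * z := by rw [abs_mul, abs_of_pos hB0]
  rw [ha] at hb
  have hTs : T ^ (B * z / 2 + 6) = Real.exp (L * (B * z / 2 + 6)) := by
    rw [Real.rpow_def_of_pos hT0]
  have hTM : T ^ (-M) = Real.exp (L * (-M)) := by
    rw [Real.rpow_def_of_pos hT0]
  rw [hTs] at hb
  rw [hTM]
  refine hb.trans ?_
  have hsz := size_pos hT0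
  rw [mul_assoc (C * size T), ← Real.exp_add, mul_assoc (C * size T), ← Real.exp_add]
  refine mul_le_mul_of_nonneg_left (Real.exp_le_exp.mpr ?_) (by positivity)
  have h1 : c * ω ^ 2 / (4 * L) = c / 4 * z ^ 2 * L := by
    rw [hωy, mul_pow, hy2]
    field_simp
  rw [h1]
  have h2 : (B * y) ^ 2 = B ^ 2 * z ^ 2 := by rw [mul_pow, hy2]
  have h3 : ω * (B * y) = B * z ^ 2 * L := by
    rw [hωy, ← hy2]; ring
  rw [h2, h3]
  -- the terms without `L`
  have h4 : B ^ 2 * z ^ 2 + (B * z / 2 + 6) * (2 + B * z) + (B * z / 2 + 6) ^ 2 ≤ D * z ^ 2 := by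
    have hz1 : 1 / 2 ≤ z := by linarith
    have e1 : B * z / 2 + 6 ≤ (B / 2 + 12) * z := by linarith
    have e2 : 2 + B * z ≤ (4 + B) * z := by linarith
    have e3 : (B * z / 2 + 6) * (2 + B * z) ≤ ((B / 2 + 12) * z) * ((4 + B) * z) :=
      mul_le_mul e1 e2 (by positivity) (by positivity)
    have e4 : (B * z / 2 + 6) ^ 2 ≤ ((B / 2 + 12) * z) ^ 2 :=
      pow_le_pow_left₀ (by positivity) e1 2
    rw [hD]
    nlinarith
  have h5 : D * z ^ 2 ≤ L * z ^ 2 := mul_le_mul_of_nonneg_right hLD (sq_nonneg z)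
  have h6 : B * z * (θ * z) ≤ B * z * (z - 1 / 2) :=
    mul_le_mul_of_nonneg_left hzθ (by positivity)
  have h7 : B * z * (θ * z) = (1 + c / 4 + 4 * (6 + |M|)) * z ^ 2 := by
    rw [← hBθ]; ring
  have h8 : 1 / 4 ≤ z ^ 2 := by nlinarith
  have h9 : 6 + |M| ≤ 4 * (6 + |M|) * z ^ 2 := by nlinarith
  have h10 : M ≤ |M| := le_abs_self M
  have h11 : B * z / 2 + 6 - B * z ^ 2 + z ^ 2 + c / 4 * z ^ 2 + M ≤ 0 := by nlinarith
  nlinarith [mul_nonneg hL0.le (neg_nonneg.mpr h11)]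

lemma rpow_crude {Z w : ℝ} (hZ : 1 ≤ Z) (hw : 0 ≤ w) : Z ^ w ≤ Real.exp (w ^ 2 + Z) := by
  have hZ0 : 0 < Z := by linarith
  rw [Real.rpow_def_of_pos hZ0]
  apply Real.exp_le_exp.mpr
  have h1 : Real.log Z ≤ 2 * √Z := by
    have h2 : Real.log √Z ≤ √Z - 1 := Real.log_le_sub_one_of_pos (Real.sqrt_pos.mpr hZ0)
    rw [Real.log_sqrt hZ0.le] at h2
    linarith
  have h3 : √Z ^ 2 = Z := Real.sq_sqrt hZ0.le
  nlinarith [sq_nonneg (√Z - w), Real.sqrt_nonneg Z]

theorem flow_near (c : ℝ) : ∃ C K T₀ : ℝ, 0 ≤ C ∧ 0 ≤ K ∧ 2 ≤ T₀ ∧ ∀ T v : ℝ, T₀ ≤ T →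
    ‖flow (c / Real.log T) (1 / 2 + (T + v) * I)‖ ≤
      C * size T * T ^ K * Real.exp (K * |v|) := by
  obtain ⟨C, hC, h⟩ := xi_all
  have hpi := Real.pi_pos
  have hc0 := abs_nonneg c
  have hint : Integrable fun u : ℝ => Real.exp (-(1 / 4 : ℝ) * u ^ 2) :=
    integrable_exp_neg_mul_sq (by norm_num)
  set J : ℝ := ∫ u : ℝ, Real.exp (-(1 / 4 : ℝ) * u ^ 2) with hJ
  have hJ0 : 0 ≤ J := integral_nonneg fun v => (Real.exp_pos _).le
  refine ⟨(√Real.pi)⁻¹ * (C * Real.exp 250 * J), 8 + |c| / 4, max 2 (Real.exp |c|), by positivity,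
    by positivity, le_max_left _ _, fun T v hT => ?_⟩
  have hT2 : 2 ≤ T := (le_max_left _ _).trans hT
  have hT0 : 0 < T := by linarith
  have hLc : |c| ≤ Real.log T := (Real.le_log_iff_exp_le hT0).mpr ((le_max_right _ _).trans hT)
  set L : ℝ := Real.log T with hL
  have hL0 : 0 < L := Real.log_pos (by linarith)
  set t : ℝ := c / L with ht
  have htabs : |t| = |c| / L := by rw [ht, abs_div, abs_of_pos hL0]
  have ht1 : |t| ≤ 1 := by rw [htabs, div_le_one hL0]; exact hLc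
  set p : ℝ := √t with hp
  set q : ℝ := √(-t) with hq
  have hp0 : 0 ≤ p := Real.sqrt_nonneg _
  have hq0 : 0 ≤ q := Real.sqrt_nonneg _
  have hp2 : p ^ 2 ≤ |t| := by
    rcases le_or_gt 0 t with h0 | h0
    · rw [hp, Real.sq_sqrt h0]; exact le_abs_self t
    · rw [hp, Real.sqrt_eq_zero_of_nonpos h0.le]; simp
  have hq2 : q ^ 2 ≤ |t| := by
    rcases le_or_gt 0 (-t) with h0 | h0
    · rw [hq, Real.sq_sqrt h0]; exact neg_le_abs t
    · rw [hq, Real.sqrt_eq_zero_of_nonpos h0.le]; simp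
  have hp1 : p ≤ 1 := by nlinarith
  have hq1 : q ≤ 1 := by nlinarith
  have hLp : (L * p) ^ 2 ≤ L * |c| := by
    have e : |t| * L = |c| := by rw [htabs]; field_simp
    have : L ^ 2 * p ^ 2 ≤ L ^ 2 * |t| := mul_le_mul_of_nonneg_left hp2 (sq_nonneg L)
    calc (L * p) ^ 2 = L ^ 2 * p ^ 2 := by ring
      _ ≤ L ^ 2 * |t| := this
      _ = L * (|t| * L) := by ring
      _ = L * |c| := by rw [e]
  have hv0 := abs_nonneg v
  have hsz := size_pos hT0
  have hb : ∀ u : ℝ, ‖(Real.exp (-u ^ 2) : ℂ) *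
      xi (1 / 2 + (T + v) * I + (√t + √(-t) * I) * u)‖ ≤
      (C * Real.exp 250 * size T * T ^ (8 + |c| / 4) * Real.exp ((8 + |c| / 4) * |v|)) *
        Real.exp (-(1 / 4 : ℝ) * u ^ 2) := by
    intro u
    have hu0 := abs_nonneg u
    have hu2 : u ^ 2 = |u| ^ 2 := (sq_abs u).symm
    have e1 : (1 / 2 + (T + v) * I + (√t + √(-t) * I) * u : ℂ) =
        ((1 / 2 + p * u : ℝ) : ℂ) + ((T + v + q * u : ℝ) : ℂ) * I := by
      rw [← hp, ← hq]; push_cast; ring
    rw [e1, norm_mul, Complex.norm_real, Real.norm_eq_abs, abs_of_pos (Real.exp_pos _)]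
    have h1 := h (p * u) (T + v + q * u)
    have hpu : |p * u| = p * |u| := by rw [abs_mul, abs_of_nonneg hp0]
    have hqu : |q * u| ≤ |u| := by
      rw [abs_mul, abs_of_nonneg hq0]
      exact mul_le_of_le_one_left hu0 hq1
    have hpu1 : p * |u| ≤ |u| := mul_le_of_le_one_left hu0 hp1
    rw [hpu] at h1
    have h2 : |T + v + q * u| ≤ T + |v| + |u| := by
      calc |T + v + q * u| ≤ |T + v| + |q * u| := abs_add_le _ _
        _ ≤ (|T| + |v|) + |u| := add_le_add (abs_add_le _ _) hqu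
        _ = T + |v| + |u| := by rw [abs_of_pos hT0]
    have h3 : T - |v| - |u| ≤ |T + v + q * u| := by
      have e2 := le_abs_self (T + v + q * u)
      have e3 := neg_abs_le v
      have e4 := (neg_abs_le (q * u))
      linarith
    set Z : ℝ := 3 + |v| + 2 * |u| with hZ
    have hZ1 : 1 ≤ Z := by linarith
    have hZ0 : 0 < Z := by linarith
    set w : ℝ := p * |u| / 2 with hw
    have hw0 : 0 ≤ w := by positivity
    have h4 : (4 + p * |u| + |T + v + q * u|) ^ (w + 6) ≤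
        T ^ (6 + |c| / 4) * Real.exp (u ^ 2 / 4 + (u ^ 2 / 4 + 7 * Z)) := by
      have h5 : 4 + p * |u| + |T + v + q * u| ≤ T * Z := by
        rw [hZ]; nlinarith
      have hTw : T ^ w ≤ T ^ (|c| / 4) * Real.exp (u ^ 2 / 4) := by
        rw [Real.rpow_def_of_pos hT0, Real.rpow_def_of_pos hT0, ← Real.exp_add]
        apply Real.exp_le_exp.mpr
        rw [← hL, hw]
        nlinarith [sq_nonneg (L * p - |u|)]
      have hZw : Z ^ w ≤ Real.exp (u ^ 2 / 4 + Z) := by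
        refine (rpow_crude hZ1 hw0).trans (Real.exp_le_exp.mpr ?_)
        have : w ^ 2 ≤ u ^ 2 / 4 := by
          rw [hw, hu2]
          nlinarith [mul_nonneg hp0 hu0]
        linarith
      have hZ6 : Z ^ (6 : ℝ) ≤ Real.exp (6 * Z) := by
        have e3 : Z ≤ Real.exp Z := by
          have := Real.add_one_le_exp Z
          linarith
        calc Z ^ (6 : ℝ) ≤ (Real.exp Z) ^ (6 : ℝ) := Real.rpow_le_rpow hZ0.le e3 (by norm_num)
          _ = Real.exp (6 * Z) := by rw [← Real.exp_mul, mul_comm]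
      calc (4 + p * |u| + |T + v + q * u|) ^ (w + 6) ≤ (T * Z) ^ (w + 6) :=
            Real.rpow_le_rpow (by positivity) h5 (by positivity)
        _ = (T ^ w * T ^ (6 : ℝ)) * (Z ^ w * Z ^ (6 : ℝ)) := by
            rw [Real.mul_rpow hT0.le hZ0.le, Real.rpow_add hT0, Real.rpow_add hZ0]
        _ ≤ ((T ^ (|c| / 4) * Real.exp (u ^ 2 / 4)) * T ^ (6 : ℝ)) *
            (Real.exp (u ^ 2 / 4 + Z) * Real.exp (6 * Z)) := by gcongr
        _ = T ^ (6 + |c| / 4) * Real.exp (u ^ 2 / 4 + (u ^ 2 / 4 + 7 * Z)) := by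
            rw [Real.rpow_add hT0, show u ^ 2 / 4 + (u ^ 2 / 4 + 7 * Z) =
              u ^ 2 / 4 + (u ^ 2 / 4 + Z) + 6 * Z by ring,
              Real.exp_add (u ^ 2 / 4 + (u ^ 2 / 4 + Z)), Real.exp_add (u ^ 2 / 4) (u ^ 2 / 4 + Z)]
            ring
    have h7 : Real.exp (-(Real.pi * |T + v + q * u| / 4)) ≤
        Real.exp (-(Real.pi * T / 4)) * Real.exp (|v| + |u|) := by
      rw [← Real.exp_add]
      apply Real.exp_le_exp.mpr
      have hpi4 : Real.pi / 4 ≤ 1 := by have := Real.pi_lt_four; linarith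
      have e5 : Real.pi / 4 * (T - |v| - |u|) ≤ Real.pi / 4 * |T + v + q * u| :=
        mul_le_mul_of_nonneg_left h3 (by positivity)
      have e6 : Real.pi / 4 * (|v| + |u|) ≤ 1 * (|v| + |u|) :=
        mul_le_mul_of_nonneg_right hpi4 (by positivity)
      nlinarith
    have h8 : T ^ (6 + |c| / 4) ≤ T ^ (8 + |c| / 4) :=
      Real.rpow_le_rpow_of_exponent_le (by linarith) (by linarith)
    calc Real.exp (-u ^ 2) * ‖xi (((1 / 2 + p * u : ℝ) : ℂ) + ((T + v + q * u : ℝ) : ℂ) * I)‖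
        ≤ Real.exp (-u ^ 2) * (C * ((T ^ (6 + |c| / 4) * Real.exp (u ^ 2 / 4 + (u ^ 2 / 4 + 7 * Z))) *
          (Real.exp (-(Real.pi * T / 4)) * Real.exp (|v| + |u|)))) := by
          gcongr
          refine h1.trans ?_
          gcongr
      _ ≤ Real.exp (-u ^ 2) * (C * ((T ^ (8 + |c| / 4) * Real.exp (u ^ 2 / 4 + (u ^ 2 / 4 + 7 * Z))) *
          (size T * Real.exp (|v| + |u|)))) := by
          have := size_le_of hT2
          gcongr
      _ = C * size T * T ^ (8 + |c| / 4) * Real.exp (-u ^ 2 + (u ^ 2 / 4 + (u ^ 2 / 4 + 7 * Z)) +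
          (|v| + |u|)) := by
          rw [Real.exp_add (-u ^ 2 + (u ^ 2 / 4 + (u ^ 2 / 4 + 7 * Z))), Real.exp_add (-u ^ 2)]
          ring
      _ ≤ C * size T * T ^ (8 + |c| / 4) * Real.exp (250 + (8 + |c| / 4) * |v| +
          -(1 / 4 : ℝ) * u ^ 2) := by
          refine mul_le_mul_of_nonneg_left (Real.exp_le_exp.mpr ?_) (by positivity)
          rw [hZ, hu2]
          nlinarith [sq_nonneg (|u| / 2 - 15), mul_nonneg hc0 hv0]
      _ = (C * Real.exp 250 * size T * T ^ (8 + |c| / 4) * Real.exp ((8 + |c| / 4) * |v|)) *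
        Real.exp (-(1 / 4 : ℝ) * u ^ 2) := by
          rw [Real.exp_add, Real.exp_add]; ring
  have hle := norm_integral_le_of_norm_le (hint.const_mul _) (Filter.Eventually.of_forall hb)
  rw [integral_const_mul] at hle
  unfold flow
  rw [norm_mul, norm_inv, Complex.norm_real, Real.norm_eq_abs, abs_of_nonneg (Real.sqrt_nonneg _)]
  calc (√Real.pi)⁻¹ * ‖∫ u : ℝ, (Real.exp (-u ^ 2) : ℂ) *
        xi (1 / 2 + (T + v) * I + (√t + √(-t) * I) * u)‖
      ≤ (√Real.pi)⁻¹ * ((C * Real.exp 250 * size T * T ^ (8 + |c| / 4) *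
          Real.exp ((8 + |c| / 4) * |v|)) * J) := by gcongr
    _ = (√Real.pi)⁻¹ * (C * Real.exp 250 * J) * size T * T ^ (8 + |c| / 4) *
          Real.exp ((8 + |c| / 4) * |v|) := by ring

end Pool.Agent.DBN
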