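import Pool.Agent.DBN.Defs

/-!
# Windowed Fourier transform of xi on the critical line, and Gaussian smoothed zeta sums
-/

set_option autoImplicit false

namespace Pool.Agent.DBN

open Complex MeasureTheory

/-- windowed Fourier transform of `v ↦ xi (1/2 + i (T + v))` -/
noncomputable def win (ω T : ℝ) : ℂ :=
  ∫ v : ℝ, exp (-(v : ℂ) ^ 2 + ω * v * I) * xi (1 / 2 + (T + v) * I)

/-- the smoothed zeta sum `∑ n^(-1/2 - i T) exp (-(log (n / N))² / 4)` of length `N` -/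
noncomputable def zsum (N T : ℝ) : ℂ :=
  ∑' n : ℕ, (Real.exp (-(Real.log ((n + 1 : ℕ) / N)) ^ 2 / 4) : ℂ) *
    ((n + 1 : ℕ) : ℂ) ^ (-(1 / 2 + T * I) : ℂ)

/-- frequencies near `y log T`: the windowed transform is `O(T^(a + ε) size T)` -/
def WinLe (y a : ℝ) : Prop :=
  ∀ ε : ℝ, 0 < ε → ∃ δ : ℝ, 0 < δ ∧ ∃ C : ℝ, ∀ T ω : ℝ, 2 ≤ T →
    |ω - y * Real.log T| ≤ δ * Real.log T → ‖win ω T‖ ≤ C * T ^ (a + ε) * size T

/-- the smoothed zeta sums of length `T^(α + o(1))` at height `T` are `O(T^(a + ε))` -/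
def SumLe (α a : ℝ) : Prop :=
  ∀ ε : ℝ, 0 < ε → ∃ δ : ℝ, 0 < δ ∧ ∃ C : ℝ, ∀ T N : ℝ, 2 ≤ T →
    T ^ (α - δ) ≤ N → N ≤ T ^ (α + δ) → ‖zsum N T‖ ≤ C * T ^ (a + ε)

end Pool.Agent.DBN
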