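import Pool.Agent.DBN.Vert
import Pool.Agent.DBN.Contour
import Pool.Agent.DBN.Defs2

/-!
# The flow on the critical line as an integral of the windowed Fourier transforms of xi
-/

set_option autoImplicit false

namespace Pool.Agent.DBN

open Complex MeasureTheory Set Filter Topology

/-- the sum of two independent Gaussian variables -/
lemma gauss_conv {h : ℝ → ℂ} (hc : Continuous h)
    (hG : ∀ δ : ℝ, 0 < δ → ∃ C : ℝ, 0 ≤ C ∧ ∀ z : ℝ, ‖h z‖ ≤ C * Real.exp (δ * z ^ 2))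
    (p q : ℝ) (hpq : 0 < p ^ 2 + q ^ 2) :
    ∫ x : ℝ, (Real.exp (-x ^ 2) : ℂ) * ∫ y : ℝ, (Real.exp (-y ^ 2) : ℂ) * h (p * x + q * y) =
      (√Real.pi : ℂ) * ∫ z : ℝ, (Real.exp (-z ^ 2) : ℂ) * h (√(p ^ 2 + q ^ 2) * z) := by
  set r := √(p ^ 2 + q ^ 2) with hr
  have hr0 : 0 < r := Real.sqrt_pos.mpr hpq
  have hr2 : r ^ 2 = p ^ 2 + q ^ 2 := Real.sq_sqrt hpq.le
  -- integrability
  have hint : Integrable (fun z : ℝ × ℝ => (Real.exp (-z.1 ^ 2) : ℂ) *
      ((Real.exp (-z.2 ^ 2) : ℂ) * h (p * z.1 + q * z.2))) ((volume : Measure ℝ).prod volume) := by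
    obtain ⟨C, hC, hb⟩ := hG (1 / (2 * (p ^ 2 + q ^ 2))) (by positivity)
    have h1 : Integrable fun x : ℝ => C * Real.exp (-(1 / 2) * x ^ 2) :=
      (integrable_exp_neg_mul_sq (by norm_num)).const_mul C
    have h2 : Integrable fun x : ℝ => Real.exp (-(1 / 2) * x ^ 2) :=
      integrable_exp_neg_mul_sq (by norm_num)
    refine (h1.mul_prod h2).mono' ?_ (Eventually.of_forall fun z => ?_)
    · apply Continuous.aestronglyMeasurable
      fun_prop
    · have h3 := hb (p * z.1 + q * z.2)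
      have h4 : 1 / (2 * (p ^ 2 + q ^ 2)) * (p * z.1 + q * z.2) ^ 2 ≤
          1 / 2 * z.1 ^ 2 + 1 / 2 * z.2 ^ 2 := by
        have h5 : (p * z.1 + q * z.2) ^ 2 ≤ (p ^ 2 + q ^ 2) * (z.1 ^ 2 + z.2 ^ 2) := by
          nlinarith [sq_nonneg (p * z.2 - q * z.1)]
        calc 1 / (2 * (p ^ 2 + q ^ 2)) * (p * z.1 + q * z.2) ^ 2
            ≤ 1 / (2 * (p ^ 2 + q ^ 2)) * ((p ^ 2 + q ^ 2) * (z.1 ^ 2 + z.2 ^ 2)) := by gcongr
          _ = _ := by field_simp
      rw [norm_mul, norm_mul, Complex.norm_real, Complex.norm_real,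
        Real.norm_of_nonneg (Real.exp_pos _).le, Real.norm_of_nonneg (Real.exp_pos _).le]
      calc Real.exp (-z.1 ^ 2) * (Real.exp (-z.2 ^ 2) * ‖h (p * z.1 + q * z.2)‖)
          ≤ Real.exp (-z.1 ^ 2) * (Real.exp (-z.2 ^ 2) *
              (C * Real.exp (1 / 2 * z.1 ^ 2 + 1 / 2 * z.2 ^ 2))) := by
            gcongr
            exact h3.trans (by gcongr)
        _ = C * (Real.exp (-z.1 ^ 2) * Real.exp (-z.2 ^ 2) *
              Real.exp (1 / 2 * z.1 ^ 2 + 1 / 2 * z.2 ^ 2)) := by ring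
        _ = C * (Real.exp (-(1 / 2) * z.1 ^ 2) * Real.exp (-(1 / 2) * z.2 ^ 2)) := by
            rw [← Real.exp_add, ← Real.exp_add, ← Real.exp_add]
            congr 2
            ring
        _ = _ := by ring
  -- the rotation
  have hcirc : ‖(((p / r : ℝ) : ℂ) + ((-(q / r) : ℝ) : ℂ) * I)‖ = 1 := by
    rw [Complex.norm_def, Complex.normSq_add_mul_I, Real.sqrt_eq_one]
    field_simp
    linarith
  set a : Circle := ⟨((p / r : ℝ) : ℂ) + ((-(q / r) : ℝ) : ℂ) * I,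
    mem_sphere_zero_iff_norm.mpr hcirc⟩ with ha
  set H : ℂ → ℂ := fun w => (Real.exp (-‖w‖ ^ 2) : ℂ) * h (r * w.re) with hH
  have hrot : ∫ w : ℂ, H (rotation a w) = ∫ w : ℂ, H w :=
    (rotation a).measurePreserving.integral_comp
      (rotation a).toHomeomorph.measurableEmbedding H
  have e1 : ∀ x y : ℝ, H (rotation a (x + y * I)) =
      (Real.exp (-x ^ 2) : ℂ) * ((Real.exp (-y ^ 2) : ℂ) * h (p * x + q * y)) := by
    intro x y
    simp only [hH]
    rw [LinearIsometryEquiv.norm_map, rotation_apply]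
    have h1 : ‖((x : ℂ) + y * I)‖ ^ 2 = x ^ 2 + y ^ 2 := by
      rw [← Complex.normSq_eq_norm_sq, Complex.normSq_apply]
      simp
      ring
    have h2 : r * ((a : ℂ) * ((x : ℂ) + y * I)).re = p * x + q * y := by
      simp only [ha, Complex.mul_re, Complex.add_re, Complex.add_im, Complex.ofReal_re,
        Complex.ofReal_im, Complex.I_re, Complex.I_im, Complex.mul_im]
      field_simp
      ring
    rw [h1, h2, ← mul_assoc, ← Complex.ofReal_mul, ← Real.exp_add]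
    congr 3
    ring
  have e2 : ∀ x y : ℝ, H (x + y * I) =
      ((Real.exp (-x ^ 2) : ℂ) * h (r * x)) * (Real.exp (-y ^ 2) : ℂ) := by
    intro x y
    simp only [hH]
    have h1 : ‖((x : ℂ) + y * I)‖ ^ 2 = x ^ 2 + y ^ 2 := by
      rw [← Complex.normSq_eq_norm_sq, Complex.normSq_apply]
      simp
      ring
    have h2 : ((x : ℂ) + y * I).re = x := by simp
    have h3 : Real.exp (-(x ^ 2 + y ^ 2)) = Real.exp (-x ^ 2) * Real.exp (-y ^ 2) := by
      rw [← Real.exp_add]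
      congr 1
      ring
    rw [h1, h2, h3]
    push_cast
    ring
  have hplane : ∀ F : ℂ → ℂ, ∫ w : ℂ, F w = ∫ z : ℝ × ℝ, F (z.1 + z.2 * I) := by
    intro F
    rw [← (Complex.volume_preserving_equiv_real_prod.symm).integral_comp
      Complex.measurableEquivRealProd.symm.measurableEmbedding]
    refine integral_congr_ae (Eventually.of_forall fun z => ?_)
    simp only
    congr 1
    rw [Complex.measurableEquivRealProd_symm_apply]
    apply Complex.ext <;> simp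
  have hpi : ∫ y : ℝ, (Real.exp (-y ^ 2) : ℂ) = (√Real.pi : ℂ) := by
    rw [integral_complex_ofReal]
    congr 1
    have := integral_gaussian 1
    rw [div_one] at this
    rw [← this]
    refine integral_congr_ae (Eventually.of_forall fun y => ?_)
    simp only
    congr 1
    ring
  calc ∫ x : ℝ, (Real.exp (-x ^ 2) : ℂ) *
        ∫ y : ℝ, (Real.exp (-y ^ 2) : ℂ) * h (p * x + q * y)
      = ∫ x : ℝ, ∫ y : ℝ, (Real.exp (-x ^ 2) : ℂ) *
          ((Real.exp (-y ^ 2) : ℂ) * h (p * x + q * y)) := by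
        refine integral_congr_ae (Eventually.of_forall fun x => ?_)
        simp only
        rw [integral_const_mul]
    _ = ∫ z : ℝ × ℝ, (Real.exp (-z.1 ^ 2) : ℂ) *
          ((Real.exp (-z.2 ^ 2) : ℂ) * h (p * z.1 + q * z.2)) := by
        rw [Measure.volume_eq_prod, integral_prod _ hint]
    _ = ∫ z : ℝ × ℝ, H (rotation a (z.1 + z.2 * I)) := by
        refine integral_congr_ae (Eventually.of_forall fun z => ?_)
        simp only
        rw [e1]
    _ = ∫ w : ℂ, H (rotation a w) := (hplane fun w => H (rotation a w)).symm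
    _ = ∫ w : ℂ, H w := hrot
    _ = ∫ z : ℝ × ℝ, H (z.1 + z.2 * I) := hplane H
    _ = ∫ z : ℝ × ℝ, ((Real.exp (-z.1 ^ 2) : ℂ) * h (r * z.1)) * (Real.exp (-z.2 ^ 2) : ℂ) := by
        refine integral_congr_ae (Eventually.of_forall fun z => ?_)
        simp only
        rw [e2]
    _ = (∫ x : ℝ, (Real.exp (-x ^ 2) : ℂ) * h (r * x)) * ∫ y : ℝ, (Real.exp (-y ^ 2) : ℂ) := by
        rw [Measure.volume_eq_prod]
        exact integral_prod_mul (fun x : ℝ => (Real.exp (-x ^ 2) : ℂ) * h (r * x))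
          (fun y : ℝ => (Real.exp (-y ^ 2) : ℂ))
    _ = _ := by rw [hpi, mul_comm]

lemma sqrt_pi_sq : (√Real.pi : ℂ) * (√Real.pi : ℂ) = Real.pi := by
  rw [← Complex.ofReal_mul, Real.mul_self_sqrt Real.pi_pos.le]

lemma sqrt_pi_ne : (√Real.pi : ℂ) ≠ 0 := by
  rw [Complex.ofReal_ne_zero]
  have := Real.pi_pos
  positivity

lemma subG_line {f : ℂ → ℂ} (hS : SubG f) (s α : ℂ) :
    ∀ δ : ℝ, 0 < δ → ∃ C : ℝ, 0 ≤ C ∧ ∀ z : ℝ, ‖f (s + α * z)‖ ≤ C * Real.exp (δ * z ^ 2) := by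
  intro δ hδ
  obtain ⟨C, hC, h⟩ := hS.affine s α δ hδ
  refine ⟨C, hC, fun z => ?_⟩
  have := h z
  rwa [Complex.norm_real, Real.norm_eq_abs, sq_abs] at this

/-- semigroup property for `t ≥ 0` -/
lemma flow_semi_pos {t : ℝ} (ht : 0 ≤ t) (s : ℂ) : flow t s =
    (√Real.pi : ℂ)⁻¹ * ∫ x : ℝ, (Real.exp (-x ^ 2) : ℂ) * flow (-1) (s + √(1 + t) * x) := by
  have h1 : flow t s = (√Real.pi : ℂ)⁻¹ * ∫ x : ℝ, (Real.exp (-x ^ 2) : ℂ) *
      ((√Real.pi : ℂ)⁻¹ * ∫ y : ℝ, (Real.exp (-y ^ 2) : ℂ) *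
        flow (-1) (s + 1 * ((√t * x + 1 * y : ℝ) : ℂ))) := by
    unfold flow
    rw [Real.sqrt_eq_zero_of_nonpos (by linarith : -t ≤ 0)]
    congr 1
    refine integral_congr_ae (Eventually.of_forall fun x => ?_)
    simp only [Complex.ofReal_zero, zero_mul, add_zero]
    congr 1
    rw [xi_eq_flow (t := 1) zero_le_one]
    congr 1
    refine integral_congr_ae (Eventually.of_forall fun y => ?_)
    simp only [Real.sqrt_one, Complex.ofReal_one]
    unfold flow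
    congr 2
    refine integral_congr_ae (Eventually.of_forall fun u => ?_)
    simp only
    congr 3
    push_cast
    ring
  rw [h1]
  congr 1
  have h2 : ∀ x : ℝ, (Real.exp (-x ^ 2) : ℂ) *
      ((√Real.pi : ℂ)⁻¹ * ∫ y : ℝ, (Real.exp (-y ^ 2) : ℂ) *
        flow (-1) (s + 1 * ((√t * x + 1 * y : ℝ) : ℂ))) =
      (√Real.pi : ℂ)⁻¹ * ((Real.exp (-x ^ 2) : ℂ) * ∫ y : ℝ, (Real.exp (-y ^ 2) : ℂ) *
        (fun z : ℝ => flow (-1) (s + 1 * z)) (√t * x + 1 * y)) := by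
    intro x
    simp only
    ring
  simp_rw [h2]
  rw [integral_const_mul, gauss_conv (h := fun z : ℝ => flow (-1) (s + 1 * z)) ?_ ?_ (√t) 1
    (by positivity), ← mul_assoc, inv_mul_cancel₀ sqrt_pi_ne, one_mul]
  · refine integral_congr_ae (Eventually.of_forall fun z => ?_)
    simp only
    congr 2
    rw [Real.sq_sqrt ht, one_pow, add_comm t 1, one_mul]
    push_cast
    ring
  · have := (differentiable_flow_neg (t := -1) (by norm_num)).continuous
    fun_prop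
  · exact subG_line (subG_flow_neg (by norm_num)) s 1

/-- semigroup property for `-1 < t ≤ 0` -/
lemma flow_semi_neg {t : ℝ} (ht1 : -1 < t) (ht : t ≤ 0) (s : ℂ) : flow t s =
    (√Real.pi : ℂ)⁻¹ * ∫ x : ℝ, (Real.exp (-x ^ 2) : ℂ) * flow (-1) (s + √(1 + t) * x) := by
  set f : ℂ → ℂ := fun z => flow t (s + I * z) with hf
  have hfd : Differentiable ℂ f := by
    have := differentiable_flow_neg ht
    simp only [hf]
    fun_prop
  have hfS : SubG f := (subG_flow_neg ht).affine s I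
  have h0 := inv_flow hfd hfS (√(1 + t)) 0 0
  have e0 : f (0 + (√(1 + t) : ℂ) * ((0 : ℝ) : ℂ)) = flow t s := by simp [hf]
  rw [e0] at h0
  have h1 : ∀ y : ℝ, (Real.exp (-y ^ 2) : ℂ) * flow (-1) (s + √(1 + t) * y) =
      (√Real.pi : ℂ)⁻¹ * (exp (-(((-y : ℝ) : ℂ) + ((0 : ℝ) : ℂ) * I) ^ 2) *
        ∫ x : ℝ, (Real.exp (-x ^ 2) : ℂ) * f (0 + √(1 + t) * (x + ((-y : ℝ) : ℂ) * I))) := by
    intro y
    have e1 : exp (-(((-y : ℝ) : ℂ) + ((0 : ℝ) : ℂ) * I) ^ 2) = (Real.exp (-y ^ 2) : ℂ) := by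
      rw [Complex.ofReal_exp]
      congr 1
      push_cast
      ring
    rw [e1]
    set s' : ℂ := s + √(1 + t) * y with hs'
    have e2 : ∀ x : ℝ, f (0 + √(1 + t) * (x + ((-y : ℝ) : ℂ) * I)) =
        (√Real.pi : ℂ)⁻¹ * ∫ u : ℝ, (Real.exp (-u ^ 2) : ℂ) *
          (fun z : ℝ => xi (s' + I * z)) (√(1 + t) * x + √(-t) * u) := by
      intro x
      simp only [hf]
      rw [flow_vert ht]
      congr 1
      refine integral_congr_ae (Eventually.of_forall fun u => ?_)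
      simp only
      congr 2
      push_cast
      rw [hs']
      linear_combination (-(√(1 + t) : ℂ) * y) * Complex.I_sq
    simp_rw [e2]
    have e3 : ∀ x : ℝ, (Real.exp (-x ^ 2) : ℂ) * ((√Real.pi : ℂ)⁻¹ *
        ∫ u : ℝ, (Real.exp (-u ^ 2) : ℂ) *
          (fun z : ℝ => xi (s' + I * z)) (√(1 + t) * x + √(-t) * u)) =
        (√Real.pi : ℂ)⁻¹ * ((Real.exp (-x ^ 2) : ℂ) * ∫ u : ℝ, (Real.exp (-u ^ 2) : ℂ) *
          (fun z : ℝ => xi (s' + I * z)) (√(1 + t) * x + √(-t) * u)) := by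
      intro x
      ring
    simp_rw [e3]
    rw [integral_const_mul]
    have hpq : √(1 + t) ^ 2 + √(-t) ^ 2 = 1 := by
      rw [Real.sq_sqrt (by linarith), Real.sq_sqrt (by linarith)]
      ring
    have e4 := gauss_conv (h := fun z : ℝ => xi (s' + I * z)) (by
        have := differentiable_xi.continuous
        fun_prop) (subG_line subG_xi s' I) (√(1 + t)) (√(-t)) (by rw [hpq]; exact one_pos)
    rw [e4, hpq, Real.sqrt_one, flow_vert (by norm_num : (-1 : ℝ) ≤ 0), neg_neg, Real.sqrt_one]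
    have e5 : ∫ z : ℝ, (Real.exp (-z ^ 2) : ℂ) * (fun z : ℝ => xi (s' + I * z)) (1 * z) =
        ∫ u : ℝ, (Real.exp (-u ^ 2) : ℂ) * xi (s' + ((1 : ℝ) : ℂ) * u * I) := by
      refine integral_congr_ae (Eventually.of_forall fun z => ?_)
      simp only
      congr 2
      push_cast
      ring
    rw [e5]
    have := sqrt_pi_ne
    generalize (∫ u : ℝ, (Real.exp (-u ^ 2) : ℂ) * xi (s' + ((1 : ℝ) : ℂ) * u * I)) = J
    field_simp
  simp_rw [h1]
  rw [integral_const_mul, integral_neg_eq_self (fun y : ℝ =>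
    exp (-((y : ℂ) + ((0 : ℝ) : ℂ) * I) ^ 2) *
      ∫ x : ℝ, (Real.exp (-x ^ 2) : ℂ) * f (0 + √(1 + t) * (x + (y : ℂ) * I))), h0,
    ← sqrt_pi_sq]
  have := sqrt_pi_ne
  field_simp

/-- semigroup property of the flow, from the time `-1` -/
theorem flow_semi {t : ℝ} (ht : -1 < t) (s : ℂ) : flow t s =
    (√Real.pi : ℂ)⁻¹ * ∫ x : ℝ, (Real.exp (-x ^ 2) : ℂ) * flow (-1) (s + √(1 + t) * x) := by
  rcases le_total 0 t with h | h
  · exact flow_semi_pos h s
  · exact flow_semi_neg ht h s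

/-- the windowed Fourier transforms are values of the flow at the time `-1` -/
theorem win_eq (ω T : ℝ) : win ω T =
    (√Real.pi : ℂ) * ((Real.exp (-(ω ^ 2 / 4)) : ℂ) *
      flow (-1) (1 / 2 + T * I + (-(ω / 2) : ℝ))) := by
  have hG : Differentiable ℂ fun z : ℂ => xi (1 / 2 + T * I + I * z) := by
    have := differentiable_xi
    fun_prop
  have h := contour_shift hG (subG_xi.affine (1 / 2 + T * I) I) one_pos (ω * I) (ω / 2)
  have e1 : win ω T = ∫ v : ℝ, exp (-((1 : ℝ) : ℂ) * (v : ℂ) ^ 2 + ω * I * v) *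
      xi (1 / 2 + T * I + I * v) := by
    unfold win
    refine integral_congr_ae (Eventually.of_forall fun v => ?_)
    simp only
    congr 2 <;> (push_cast; ring)
  rw [e1, ← h, flow_vert (by norm_num : (-1 : ℝ) ≤ 0), neg_neg, Real.sqrt_one]
  have e2 : ∀ v : ℝ, exp (-((1 : ℝ) : ℂ) * ((v : ℂ) + ((ω / 2 : ℝ) : ℂ) * I) ^ 2 +
      ω * I * (v + ((ω / 2 : ℝ) : ℂ) * I)) * xi (1 / 2 + T * I + I * (v + ((ω / 2 : ℝ) : ℂ) * I)) =
      (Real.exp (-(ω ^ 2 / 4)) : ℂ) * ((Real.exp (-v ^ 2) : ℂ) *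
        xi (1 / 2 + T * I + (-(ω / 2) : ℝ) + ((1 : ℝ) : ℂ) * v * I)) := by
    intro v
    rw [← mul_assoc, Complex.ofReal_exp, Complex.ofReal_exp, ← Complex.exp_add]
    congr 2
    · push_cast
      linear_combination (-(ω : ℂ) ^ 2 / 4 + ω ^ 2 / 2 + 0 * v) * Complex.I_sq
    · push_cast
      linear_combination ((ω : ℂ) / 2) * Complex.I_sq
  simp_rw [e2]
  rw [integral_const_mul]
  have := sqrt_pi_ne
  field_simp

theorem flow_eq_win {t : ℝ} (ht : -1 < t) (T : ℝ) : flow t (1 / 2 + T * I) =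
    (((2 * Real.pi)⁻¹ * (√(1 + t))⁻¹ : ℝ) : ℂ) *
      ∫ ω : ℝ, (Real.exp (t * ω ^ 2 / (4 * (1 + t))) : ℂ) * win ω T := by
  have ht0 : 0 < 1 + t := by linarith
  have hr : 0 < √(1 + t) := Real.sqrt_pos.mpr ht0
  have hr2 : √(1 + t) ^ 2 = 1 + t := Real.sq_sqrt ht0.le
  set g : ℝ → ℂ := fun ω => (Real.exp (t * ω ^ 2 / (4 * (1 + t))) : ℂ) * win ω T with hg
  have h1 := Measure.integral_comp_mul_left g (-(2 * √(1 + t)))
  have h2 : ∀ x : ℝ, g (-(2 * √(1 + t)) * x) =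
      (√Real.pi : ℂ) * ((Real.exp (-x ^ 2) : ℂ) * flow (-1) (1 / 2 + T * I + √(1 + t) * x)) := by
    intro x
    simp only [hg]
    rw [win_eq]
    have e1 : (1 / 2 + T * I + (-(-(2 * √(1 + t)) * x / 2) : ℝ) : ℂ) =
        1 / 2 + T * I + √(1 + t) * x := by
      push_cast
      ring
    rw [e1]
    have e2 : Real.exp (t * (-(2 * √(1 + t)) * x) ^ 2 / (4 * (1 + t))) *
        Real.exp (-((-(2 * √(1 + t)) * x) ^ 2 / 4)) = Real.exp (-x ^ 2) := by
      rw [← Real.exp_add]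
      congr 1
      have e3 : (-(2 * √(1 + t)) * x) ^ 2 = 4 * (1 + t) * x ^ 2 := by
        rw [mul_pow, neg_sq, mul_pow, hr2]
        ring
      rw [e3]
      field_simp
      ring
    rw [← e2]
    push_cast
    ring
  simp_rw [h2] at h1
  rw [integral_const_mul] at h1
  have h3 : |(-(2 * √(1 + t)))⁻¹| = (2 * √(1 + t))⁻¹ := by
    rw [inv_neg, abs_neg, abs_of_pos (by positivity)]
  rw [h3, Complex.real_smul] at h1
  rw [flow_semi ht]
  have h4 : ∫ x : ℝ, (Real.exp (-x ^ 2) : ℂ) * flow (-1) (1 / 2 + T * I + √(1 + t) * x) =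
      (√Real.pi : ℂ)⁻¹ * (((2 * √(1 + t))⁻¹ : ℝ) * ∫ y : ℝ, g y) := by
    rw [← h1, ← mul_assoc, inv_mul_cancel₀ sqrt_pi_ne, one_mul]
  rw [h4, ← mul_assoc, ← mul_assoc]
  congr 1
  rw [← mul_inv, sqrt_pi_sq]
  push_cast
  simp only [mul_inv]
  ring

end Pool.Agent.DBN
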