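import Pool.Agent.DBN.Far
import Pool.Agent.DBN.Contour

/-!
# The flow is entire and grows slower than every Gaussian, for every real time
-/

set_option autoImplicit false

namespace Pool.Agent.DBN

open Complex MeasureTheory Set Filter Topology

/-- a bound for the integrand of the flow on balls and in the whole plane -/
lemma flow_integrand {f : ℂ → ℂ} (hf : SubG f) (α : ℂ) {δ : ℝ} (hδ : 0 < δ) :
    ∃ C : ℝ, 0 ≤ C ∧ ∀ (s : ℂ) (u : ℝ), ‖(Real.exp (-u ^ 2) : ℂ) * f (s + α * u)‖ ≤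
      C * Real.exp (δ * ‖s‖ ^ 2) * Real.exp (-(1 / 2) * u ^ 2) := by
  obtain ⟨C, hC, h⟩ := hf (min (δ / 2) (1 / (4 * (‖α‖ ^ 2 + 1)))) (by positivity)
  set δ' := min (δ / 2) (1 / (4 * (‖α‖ ^ 2 + 1))) with hδ'
  refine ⟨C, hC, fun s u => ?_⟩
  have h1 := h (s + α * u)
  have h2 : δ' ≤ δ / 2 := min_le_left _ _
  have h3 : δ' ≤ 1 / (4 * (‖α‖ ^ 2 + 1)) := min_le_right _ _
  have h0 : 0 < δ' := by rw [hδ']; positivity
  have h4 : δ' * ‖α‖ ^ 2 ≤ 1 / 4 := by
    calc δ' * ‖α‖ ^ 2 ≤ 1 / (4 * (‖α‖ ^ 2 + 1)) * (‖α‖ ^ 2 + 1) := by gcongr; linarith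
      _ = 1 / 4 := by field_simp
  have h5 : ‖s + α * u‖ ^ 2 ≤ 2 * ‖s‖ ^ 2 + 2 * ‖α‖ ^ 2 * u ^ 2 := by
    have h6 : ‖s + α * u‖ ≤ ‖s‖ + ‖α‖ * |u| := by
      refine (norm_add_le _ _).trans_eq ?_
      rw [norm_mul, Complex.norm_real, Real.norm_eq_abs]
    have h7 : ‖s + α * u‖ ^ 2 ≤ (‖s‖ + ‖α‖ * |u|) ^ 2 := by gcongr
    have h8 : |u| ^ 2 = u ^ 2 := sq_abs u
    nlinarith [sq_nonneg (‖s‖ - ‖α‖ * |u|)]
  have h6 : δ' * ‖s + α * u‖ ^ 2 ≤ δ * ‖s‖ ^ 2 + 1 / 2 * u ^ 2 := by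
    calc δ' * ‖s + α * u‖ ^ 2 ≤ δ' * (2 * ‖s‖ ^ 2 + 2 * ‖α‖ ^ 2 * u ^ 2) := by gcongr
      _ = 2 * δ' * ‖s‖ ^ 2 + 2 * (δ' * ‖α‖ ^ 2) * u ^ 2 := by ring
      _ ≤ 2 * (δ / 2) * ‖s‖ ^ 2 + 2 * (1 / 4) * u ^ 2 := by gcongr
      _ = _ := by ring
  rw [norm_mul, Complex.norm_real, Real.norm_eq_abs, abs_of_pos (Real.exp_pos _)]
  calc Real.exp (-u ^ 2) * ‖f (s + α * u)‖
      ≤ Real.exp (-u ^ 2) * (C * Real.exp (δ * ‖s‖ ^ 2 + 1 / 2 * u ^ 2)) := by
        gcongr
        exact h1.trans (by gcongr)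
    _ = C * (Real.exp (δ * ‖s‖ ^ 2 + 1 / 2 * u ^ 2) * Real.exp (-u ^ 2)) := by ring
    _ = C * Real.exp (δ * ‖s‖ ^ 2 + -(1 / 2) * u ^ 2) := by
        rw [← Real.exp_add]; congr 2; ring
    _ = _ := by rw [Real.exp_add]; ring

/-- Gaussian averages along a line keep the growth condition -/
lemma subG_avg {f : ℂ → ℂ} (hf : SubG f) (α : ℂ) :
    SubG fun s => ∫ u : ℝ, (Real.exp (-u ^ 2) : ℂ) * f (s + α * u) := by
  intro δ hδ
  obtain ⟨C, hC, h⟩ := flow_integrand hf α hδ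
  refine ⟨C * √(Real.pi / (1 / 2)), by positivity, fun s => ?_⟩
  have h1 : Integrable fun u : ℝ => C * Real.exp (δ * ‖s‖ ^ 2) * Real.exp (-(1 / 2) * u ^ 2) :=
    (integrable_exp_neg_mul_sq (by norm_num)).const_mul _
  have h2 := norm_integral_le_of_norm_le h1 (Eventually.of_forall (h s))
  rw [integral_const_mul, integral_gaussian] at h2
  exact h2.trans_eq (by ring)

lemma integrable_avg {f : ℂ → ℂ} (hc : Continuous f) (hf : SubG f) (α s : ℂ) :
    Integrable fun u : ℝ => (Real.exp (-u ^ 2) : ℂ) * f (s + α * u) := by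
  obtain ⟨C, hC, h⟩ := flow_integrand hf α (δ := 1) one_pos
  have h1 : Integrable fun u : ℝ => C * Real.exp (1 * ‖s‖ ^ 2) * Real.exp (-(1 / 2) * u ^ 2) :=
    (integrable_exp_neg_mul_sq (by norm_num)).const_mul _
  refine h1.mono' ?_ (Eventually.of_forall (h s))
  apply Continuous.aestronglyMeasurable
  fun_prop

/-- Gaussian averages along a line of an entire function are entire -/
lemma differentiable_avg {f : ℂ → ℂ} (hd : Differentiable ℂ f) (hf : SubG f) (α : ℂ) :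
    Differentiable ℂ fun s => ∫ u : ℝ, (Real.exp (-u ^ 2) : ℂ) * f (s + α * u) := by
  intro s₀
  obtain ⟨C, hC, h⟩ := flow_integrand hf α (δ := 1) one_pos
  -- Cauchy's estimate for the derivative
  set F : ℂ → ℝ → ℂ := fun s u => (Real.exp (-u ^ 2) : ℂ) * f (s + α * u) with hF
  set F' : ℂ → ℝ → ℂ := fun s u => (Real.exp (-u ^ 2) : ℂ) * deriv f (s + α * u) with hF'
  have hder : ∀ (u : ℝ) (s : ℂ), HasDerivAt (fun s => F s u) (F' s u) s := by
    intro u s
    have h1 : HasDerivAt (fun s : ℂ => f (s + α * u)) (deriv f (s + α * u)) s := by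
      have := (hd (s + α * u)).hasDerivAt
      exact this.comp_add_const s (α * u)
    exact h1.const_mul _
  have hbd : ∀ (u : ℝ) (s : ℂ), s ∈ Metric.ball s₀ 1 → ‖F' s u‖ ≤
      C * Real.exp (1 * (‖s₀‖ + 2) ^ 2) * Real.exp (-(1 / 2) * u ^ 2) := by
    intro u s hs
    have hFd : Differentiable ℂ fun s => F s u := fun s => (hder u s).differentiableAt
    have h2 : ‖deriv (fun s => F s u) s‖ ≤
        C * Real.exp (1 * (‖s₀‖ + 2) ^ 2) * Real.exp (-(1 / 2) * u ^ 2) / 1 := by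
      apply Complex.norm_deriv_le_of_forall_mem_sphere_norm_le one_pos hFd.diffContOnCl
      intro z hz
      refine (h z u).trans ?_
      have h3 : ‖z‖ ≤ ‖s₀‖ + 2 := by
        have h4 : ‖z - s‖ = 1 := by simpa [dist_eq_norm] using hz
        have h5 : ‖s - s₀‖ < 1 := by simpa [dist_eq_norm] using hs
        have h6 : z = (z - s) + (s - s₀) + s₀ := by ring
        rw [h6]
        refine (norm_add_le _ _).trans ?_
        have := norm_add_le (z - s) (s - s₀)
        linarith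
      gcongr
    rw [(hder u s).deriv, div_one] at h2
    exact h2
  have hFc : ∀ s, AEStronglyMeasurable (F s) volume := by
    intro s
    apply Continuous.aestronglyMeasurable
    have := hd.continuous
    simp only [hF]
    fun_prop
  have hF'c : AEStronglyMeasurable (F' s₀) volume := by
    apply Continuous.aestronglyMeasurable
    have h1 : Continuous (deriv f) := by
      have := hd.contDiff (n := 1)
      exact this.continuous_deriv le_rfl
    simp only [hF']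
    fun_prop
  have hint : Integrable (F s₀) := integrable_avg hd.continuous hf α s₀
  have h3 := hasDerivAt_integral_of_dominated_loc_of_deriv_le (F := F) (F' := F') (x₀ := s₀)
    (s := Metric.ball s₀ 1)
    (bound := fun u => C * Real.exp (1 * (‖s₀‖ + 2) ^ 2) * Real.exp (-(1 / 2) * u ^ 2))
    (Metric.ball_mem_nhds s₀ one_pos) (Eventually.of_forall hFc) hint hF'c
    (Eventually.of_forall fun u s hs => hbd u s hs)
    ((integrable_exp_neg_mul_sq (by norm_num)).const_mul _)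
    (Eventually.of_forall fun u s _ => hder u s)
  exact h3.2.differentiableAt

theorem subG_flow (t : ℝ) : SubG (flow t) := by
  have h := subG_avg subG_xi (√t + √(-t) * I)
  intro δ hδ
  obtain ⟨C, hC, h1⟩ := h δ hδ
  refine ⟨‖((√Real.pi : ℂ))⁻¹‖ * C, by positivity, fun s => ?_⟩
  unfold flow
  rw [norm_mul, mul_assoc]
  exact mul_le_mul_of_nonneg_left (h1 s) (norm_nonneg _)

theorem differentiable_flow (t : ℝ) : Differentiable ℂ (flow t) := by
  have h := differentiable_avg differentiable_xi subG_xi (√t + √(-t) * I)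
  unfold flow
  exact h.const_mul _

end Pool.Agent.DBN
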