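import Pool.Agent.DBN.PhiDefs

/-!
# The function `Φ`: evenness, decay, and `q'' - q = 8 Φ` for the theta function `q`
-/

set_option autoImplicit false

namespace Pool.Agent.DBN

open MeasureTheory Set

/-- `∑ n^(2k) exp(-π n² e^(4u))` -/
noncomputable def Sth (k : ℕ) (u : ℝ) : ℝ :=
  ∑' n : ℕ, ((n : ℝ) + 1) ^ (2 * k) * Real.exp (-(Real.pi * ((n : ℝ) + 1) ^ 2 * Real.exp (4 * u)))

lemma summable_sth (k : ℕ) {c : ℝ} (hc : 0 < c) :
    Summable fun n : ℕ => ((n : ℝ) + 1) ^ (2 * k) * Real.exp (-(c * ((n : ℝ) + 1) ^ 2)) := by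
  have h := (summable_nat_add_iff 1).mpr (Real.summable_pow_mul_exp_neg_nat_mul (2 * k) hc)
  refine Summable.of_nonneg_of_le (fun n => by positivity) (fun n => ?_) h
  push_cast
  have hn : (0 : ℝ) ≤ n := Nat.cast_nonneg n
  refine mul_le_mul_of_nonneg_left (Real.exp_le_exp.mpr ?_) (by positivity)
  nlinarith [mul_nonneg hc.le (mul_nonneg hn (by linarith : (0 : ℝ) ≤ n + 1))]

lemma summable_sth' (k : ℕ) (u : ℝ) : Summable fun n : ℕ => ((n : ℝ) + 1) ^ (2 * k) *
    Real.exp (-(Real.pi * ((n : ℝ) + 1) ^ 2 * Real.exp (4 * u))) := by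
  have h := summable_sth k (c := Real.pi * Real.exp (4 * u)) (by positivity)
  refine h.congr fun n => ?_
  congr 3
  ring

lemma hasDerivAt_sth (k : ℕ) (u : ℝ) :
    HasDerivAt (Sth k) (-(4 * Real.pi * Real.exp (4 * u) * Sth (k + 1) u)) u := by
  have hpi := Real.pi_pos
  set g : ℕ → ℝ → ℝ := fun n y => ((n : ℝ) + 1) ^ (2 * k) *
    Real.exp (-(Real.pi * ((n : ℝ) + 1) ^ 2 * Real.exp (4 * y))) with hg
  set g' : ℕ → ℝ → ℝ := fun n y => -(4 * Real.pi * Real.exp (4 * y) *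
    (((n : ℝ) + 1) ^ (2 * (k + 1)) *
      Real.exp (-(Real.pi * ((n : ℝ) + 1) ^ 2 * Real.exp (4 * y))))) with hg'
  have hder : ∀ n y, HasDerivAt (g n) (g' n y) y := by
    intro n y
    have h1 : HasDerivAt (fun y : ℝ => Real.exp (4 * y)) (Real.exp (4 * y) * (4 * 1)) y :=
      ((hasDerivAt_id y).const_mul 4).exp
    have h2 : HasDerivAt (g n) (((n : ℝ) + 1) ^ (2 * k) *
        (Real.exp (-(Real.pi * ((n : ℝ) + 1) ^ 2 * Real.exp (4 * y))) *
        (-(Real.pi * ((n : ℝ) + 1) ^ 2 * (Real.exp (4 * y) * (4 * 1)))))) y :=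
      (((h1.const_mul (Real.pi * ((n : ℝ) + 1) ^ 2)).neg).exp).const_mul _
    refine h2.congr_deriv ?_
    simp only [hg']
    rw [show 2 * (k + 1) = 2 * k + 2 by ring, pow_add]
    ring
  have hsum := (summable_sth (k + 1) (c := Real.pi * Real.exp (4 * (u - 1)))
    (by positivity)).mul_left (4 * Real.pi * Real.exp (4 * (u + 1)))
  have h := hasDerivAt_tsum_of_isPreconnected (t := Ioo (u - 1) (u + 1)) (g := g) (g' := g')
    (y := u) (y₀ := u) hsum isOpen_Ioo isPreconnected_Ioo (fun n y _ => hder n y)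
    (fun n y hy => by
      have hy1 : Real.exp (4 * (u - 1)) ≤ Real.exp (4 * y) :=
        Real.exp_le_exp.mpr (by linarith [hy.1])
      have hy2 : Real.exp (4 * y) ≤ Real.exp (4 * (u + 1)) :=
        Real.exp_le_exp.mpr (by linarith [hy.2])
      have hn : (0 : ℝ) ≤ n := Nat.cast_nonneg n
      simp only [hg']
      rw [norm_neg, Real.norm_eq_abs, abs_of_nonneg (by positivity)]
      have h3 : Real.exp (-(Real.pi * ((n : ℝ) + 1) ^ 2 * Real.exp (4 * y))) ≤
          Real.exp (-(Real.pi * Real.exp (4 * (u - 1)) * ((n : ℝ) + 1) ^ 2)) := by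
        apply Real.exp_le_exp.mpr
        have h4 : Real.pi * ((n : ℝ) + 1) ^ 2 * Real.exp (4 * (u - 1)) ≤
            Real.pi * ((n : ℝ) + 1) ^ 2 * Real.exp (4 * y) :=
          mul_le_mul_of_nonneg_left hy1 (by positivity)
        linarith
      gcongr)
    ⟨by linarith, by linarith⟩ (summable_sth' k u) ⟨by linarith, by linarith⟩
  have e : (∑' n, g' n u) = -(4 * Real.pi * Real.exp (4 * u) * Sth (k + 1) u) := by
    simp only [hg']
    rw [tsum_neg, tsum_mul_left]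
    rfl
  rw [e] at h
  exact h

lemma sth_nonneg (k : ℕ) (u : ℝ) : 0 ≤ Sth k u :=
  tsum_nonneg fun n => by positivity

lemma sth_le (k : ℕ) : ∃ C : ℝ, 0 ≤ C ∧ ∀ u : ℝ, 0 ≤ u →
    Sth k u ≤ C * Real.exp (-Real.exp (4 * u)) := by
  have hs := summable_sth k (c := 2) (by norm_num)
  refine ⟨∑' n : ℕ, ((n : ℝ) + 1) ^ (2 * k) * Real.exp (-(2 * ((n : ℝ) + 1) ^ 2)),
    tsum_nonneg fun n => by positivity, fun u hu => ?_⟩
  unfold Sth
  rw [← tsum_mul_right]
  refine Summable.tsum_le_tsum (fun n => ?_) (summable_sth' k u) (hs.mul_right _)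
  rw [mul_assoc (((n : ℝ) + 1) ^ (2 * k)), ← Real.exp_add]
  refine mul_le_mul_of_nonneg_left (Real.exp_le_exp.mpr ?_) (by positivity)
  have hx : 1 ≤ Real.exp (4 * u) := Real.one_le_exp (by linarith)
  have hm : 1 ≤ ((n : ℝ) + 1) ^ 2 := by
    have hn : (0 : ℝ) ≤ n := Nat.cast_nonneg n
    nlinarith
  have hpi := Real.pi_gt_three
  set x := Real.exp (4 * u)
  set m := ((n : ℝ) + 1) ^ 2
  have h1 : 3 * (m * x) ≤ Real.pi * (m * x) :=
    mul_le_mul_of_nonneg_right hpi.le (by positivity)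
  nlinarith [mul_nonneg (sub_nonneg.mpr hm) (sub_nonneg.mpr hx)]

lemma Phi_eq (u : ℝ) : Phi u = 2 * Real.pi ^ 2 * Real.exp (9 * u) * Sth 2 u -
    3 * Real.pi * Real.exp (5 * u) * Sth 1 u := by
  unfold Phi Sth
  rw [← tsum_mul_left, ← tsum_mul_left,
    ← Summable.tsum_sub ((summable_sth' 2 u).mul_left _) ((summable_sth' 1 u).mul_left _)]
  refine tsum_congr fun n => ?_
  ring

/-- `e^u ∑_{n ≥ 1} exp(-π n² e^(4u))` -/
noncomputable def qth (u : ℝ) : ℝ :=
  Real.exp u * ∑' n : ℕ, Real.exp (-(Real.pi * (n + 1) ^ 2 * Real.exp (4 * u)))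

lemma qth_eq (u : ℝ) : qth u = Real.exp u * Sth 0 u := by
  unfold qth Sth
  congr 1
  refine tsum_congr fun n => ?_
  simp

/-- the derivative of `qth` -/
noncomputable def qd (u : ℝ) : ℝ :=
  Real.exp u * Sth 0 u - 4 * Real.pi * Real.exp (5 * u) * Sth 1 u

lemma exp_five (u : ℝ) : Real.exp (5 * u) = Real.exp u * Real.exp (4 * u) := by
  rw [← Real.exp_add]; congr 1; ring

lemma exp_nine (u : ℝ) : Real.exp (9 * u) = Real.exp (5 * u) * Real.exp (4 * u) := by
  rw [← Real.exp_add]; congr 1; ring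

lemma hasDerivAt_exp_mul (c u : ℝ) :
    HasDerivAt (fun y : ℝ => Real.exp (c * y)) (c * Real.exp (c * u)) u := by
  have h : HasDerivAt (fun y : ℝ => Real.exp (c * y)) (Real.exp (c * u) * (c * 1)) u :=
    ((hasDerivAt_id u).const_mul c).exp
  convert h using 1
  ring

lemma qth_hasDerivAt (u : ℝ) : HasDerivAt qth (qd u) u := by
  have h0 : HasDerivAt (fun y : ℝ => Real.exp y * Sth 0 y) (Real.exp u * Sth 0 u +
      Real.exp u * (-(4 * Real.pi * Real.exp (4 * u) * Sth (0 + 1) u))) u :=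
    (Real.hasDerivAt_exp u).mul (hasDerivAt_sth 0 u)
  have e : qth = fun y : ℝ => Real.exp y * Sth 0 y := funext qth_eq
  rw [e]
  convert h0 using 1
  unfold qd
  rw [exp_five]
  ring

lemma qd_hasDerivAt (u : ℝ) : HasDerivAt qd (qth u + 8 * Phi u) u := by
  have h0 : HasDerivAt (fun y : ℝ => Real.exp y * Sth 0 y) (Real.exp u * Sth 0 u +
      Real.exp u * (-(4 * Real.pi * Real.exp (4 * u) * Sth (0 + 1) u))) u :=
    (Real.hasDerivAt_exp u).mul (hasDerivAt_sth 0 u)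
  have h1 : HasDerivAt (fun y : ℝ => 4 * Real.pi * Real.exp (5 * y) * Sth 1 y)
      (4 * Real.pi * (5 * Real.exp (5 * u)) * Sth 1 u + 4 * Real.pi * Real.exp (5 * u) *
      (-(4 * Real.pi * Real.exp (4 * u) * Sth (1 + 1) u))) u :=
    ((hasDerivAt_exp_mul 5 u).const_mul (4 * Real.pi)).mul (hasDerivAt_sth 1 u)
  have h2 : HasDerivAt qd _ u := h0.sub h1
  refine h2.congr_deriv ?_
  rw [qth_eq, Phi_eq, exp_nine, exp_five]
  ring

/-- `q(u) + e^u / 2` is even -/
lemma qth_symm (u : ℝ) : qth (-u) + Real.exp (-u) / 2 = qth u + Real.exp u / 2 := by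
  have hpi := Real.pi_pos
  have key : ∀ v : ℝ, ∑' n : ℤ, Real.exp (-Real.pi * Real.exp (4 * v) * (n : ℝ) ^ 2) =
      1 + 2 * Sth 0 v := by
    intro v
    have hev : Function.Even fun n : ℤ => Real.exp (-Real.pi * Real.exp (4 * v) * (n : ℝ) ^ 2) := by
      intro n
      simp
    have hsn : Summable fun n : ℕ => Real.exp (-Real.pi * Real.exp (4 * v) * ((n : ℤ) : ℝ) ^ 2) := by
      rw [← summable_nat_add_iff 1]
      refine (summable_sth' 0 v).congr fun n => ?_
      rw [mul_zero, pow_zero, one_mul]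
      congr 1
      push_cast
      ring
    have hs : Summable fun n : ℤ => Real.exp (-Real.pi * Real.exp (4 * v) * (n : ℝ) ^ 2) := by
      refine Summable.of_nat_of_neg hsn ?_
      refine hsn.congr fun n => ?_
      congr 2
      push_cast
      ring
    have h1 := tsum_int_eq_zero_add_two_mul_tsum_pnat hev hs
    rw [h1]
    have h2 : ∑' n : ℕ+, Real.exp (-Real.pi * Real.exp (4 * v) * (((n : ℕ) : ℤ) : ℝ) ^ 2) =
        Sth 0 v := by
      rw [tsum_pnat_eq_tsum_succ (f := fun n : ℕ =>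
        Real.exp (-Real.pi * Real.exp (4 * v) * ((n : ℤ) : ℝ) ^ 2))]
      unfold Sth
      refine tsum_congr fun n => ?_
      rw [mul_zero, pow_zero, one_mul]
      congr 1
      push_cast
      ring
    simp only [Int.cast_zero, ne_eq, OfNat.ofNat_ne_zero, not_false_eq_true, zero_pow, mul_zero,
      Real.exp_zero, nsmul_eq_mul, Nat.cast_ofNat]
    rw [h2]
  have hJ := Real.tsum_exp_neg_mul_int_sq (a := Real.exp (4 * u)) (Real.exp_pos _)
  have e1 : ∀ n : ℤ, Real.exp (-Real.pi / Real.exp (4 * u) * (n : ℝ) ^ 2) =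
      Real.exp (-Real.pi * Real.exp (4 * (-u)) * (n : ℝ) ^ 2) := by
    intro n
    congr 2
    rw [div_eq_mul_inv, ← Real.exp_neg]
    congr 2
    ring
  rw [key u] at hJ
  simp only [e1] at hJ
  rw [key (-u)] at hJ
  have e2 : (Real.exp (4 * u)) ^ (1 / 2 : ℝ) = Real.exp (2 * u) := by
    rw [← Real.exp_mul]; congr 1; ring
  rw [e2] at hJ
  have e3 : Real.exp (2 * u) ≠ 0 := (Real.exp_pos _).ne'
  have h4 : Real.exp (2 * u) * (1 + 2 * Sth 0 u) = 1 + 2 * Sth 0 (-u) := by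
    rw [hJ]; field_simp
  rw [qth_eq, qth_eq]
  have e4 : Real.exp u = Real.exp (-u) * Real.exp (2 * u) := by
    rw [← Real.exp_add]; congr 1; ring
  rw [e4]
  linear_combination (-(Real.exp (-u)) / 2) * h4

lemma qd_symm (u : ℝ) : qd (-u) + Real.exp (-u) / 2 = -(qd u + Real.exp u / 2) := by
  have h1 : HasDerivAt (fun y : ℝ => qth (-y) + Real.exp (-y) / 2)
      (qd (-u) * (-1) + Real.exp (-u) * (-1) / 2) u :=
    ((qth_hasDerivAt (-u)).comp u (hasDerivAt_neg u)).add ((hasDerivAt_neg u).exp.div_const 2)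
  have h2 : HasDerivAt (fun y : ℝ => qth y + Real.exp y / 2) (qd u + Real.exp u / 2) u :=
    (qth_hasDerivAt u).add ((Real.hasDerivAt_exp u).div_const 2)
  have e : (fun y : ℝ => qth (-y) + Real.exp (-y) / 2) = fun y : ℝ => qth y + Real.exp y / 2 :=
    funext qth_symm
  rw [e] at h1
  have := h1.unique h2
  linarith

theorem Phi_even (u : ℝ) : Phi (-u) = Phi u := by
  have h1 : HasDerivAt (fun y : ℝ => qd (-y) + Real.exp (-y) / 2)
      ((qth (-u) + 8 * Phi (-u)) * (-1) + Real.exp (-u) * (-1) / 2) u :=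
    ((qd_hasDerivAt (-u)).comp u (hasDerivAt_neg u)).add ((hasDerivAt_neg u).exp.div_const 2)
  have h2 : HasDerivAt (fun y : ℝ => -(qd y + Real.exp y / 2))
      (-((qth u + 8 * Phi u) + Real.exp u / 2)) u :=
    ((qd_hasDerivAt u).add ((Real.hasDerivAt_exp u).div_const 2)).neg
  have e : (fun y : ℝ => qd (-y) + Real.exp (-y) / 2) = fun y : ℝ => -(qd y + Real.exp y / 2) :=
    funext qd_symm
  rw [e] at h1
  have h3 := h1.unique h2
  have h4 := qth_symm u
  linarith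

lemma continuous_sth (k : ℕ) : Continuous (Sth k) :=
  continuous_iff_continuousAt.mpr fun u => (hasDerivAt_sth k u).continuousAt

theorem Phi_continuous : Continuous Phi := by
  have e : Phi = fun u => 2 * Real.pi ^ 2 * Real.exp (9 * u) * Sth 2 u -
    3 * Real.pi * Real.exp (5 * u) * Sth 1 u := funext Phi_eq
  rw [e]
  have h1 := continuous_sth 1
  have h2 := continuous_sth 2
  fun_prop

lemma exp_bound {u : ℝ} (hu : 0 ≤ u) :
    Real.exp (9 * u) * Real.exp (-Real.exp (4 * u)) ≤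
      120 * Real.exp 1 * Real.exp (-Real.exp (2 * u)) := by
  set y := Real.exp (2 * u) with hy
  have hy1 : 1 ≤ y := Real.one_le_exp (by linarith)
  have e1 : Real.exp (4 * u) = y ^ 2 := by
    rw [hy, ← Real.exp_nat_mul]; congr 1; push_cast; ring
  have e2 : Real.exp (9 * u) ≤ y ^ 5 := by
    rw [hy, ← Real.exp_nat_mul]; apply Real.exp_le_exp.mpr; push_cast; linarith
  have e3 : y ^ 5 ≤ 120 * Real.exp y := by
    have h := Real.pow_div_factorial_le_exp y (by linarith) 5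
    have h5 : ((Nat.factorial 5 : ℕ) : ℝ) = 120 := by norm_num [Nat.factorial]
    rw [h5, div_le_iff₀ (by norm_num)] at h
    linarith
  rw [e1]
  calc Real.exp (9 * u) * Real.exp (-y ^ 2) ≤ (120 * Real.exp y) * Real.exp (1 - 2 * y) := by
        refine mul_le_mul (e2.trans e3) (Real.exp_le_exp.mpr ?_) (Real.exp_pos _).le (by positivity)
        nlinarith [sq_nonneg (y - 1)]
    _ = 120 * Real.exp 1 * Real.exp (-y) := by
        rw [mul_assoc, mul_assoc, ← Real.exp_add, ← Real.exp_add]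
        congr 2
        ring

lemma exp_sth_le (k : ℕ) : ∃ C : ℝ, 0 ≤ C ∧ ∀ u : ℝ, 0 ≤ u →
    Real.exp (9 * u) * Sth k u ≤ C * Real.exp (-Real.exp (2 * u)) := by
  obtain ⟨C, hC, h⟩ := sth_le k
  refine ⟨C * (120 * Real.exp 1), by positivity, fun u hu => ?_⟩
  calc Real.exp (9 * u) * Sth k u ≤ Real.exp (9 * u) * (C * Real.exp (-Real.exp (4 * u))) :=
        mul_le_mul_of_nonneg_left (h u hu) (Real.exp_pos _).le
    _ = C * (Real.exp (9 * u) * Real.exp (-Real.exp (4 * u))) := by ring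
    _ ≤ C * (120 * Real.exp 1 * Real.exp (-Real.exp (2 * u))) :=
        mul_le_mul_of_nonneg_left (exp_bound hu) hC
    _ = C * (120 * Real.exp 1) * Real.exp (-Real.exp (2 * u)) := by ring

theorem Phi_decay : ∃ C : ℝ, 0 ≤ C ∧ ∀ u : ℝ, |Phi u| ≤ C * Real.exp (-Real.exp (2 * |u|)) := by
  obtain ⟨C₁, hC₁, h₁⟩ := exp_sth_le 1
  obtain ⟨C₂, hC₂, h₂⟩ := exp_sth_le 2
  have hpi := Real.pi_pos
  have key : ∀ u : ℝ, 0 ≤ u →
      |Phi u| ≤ (2 * Real.pi ^ 2 * C₂ + 3 * Real.pi * C₁) * Real.exp (-Real.exp (2 * u)) := by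
    intro u hu
    have a1 := h₁ u hu
    have a2 := h₂ u hu
    have s1 := sth_nonneg 1 u
    have s2 := sth_nonneg 2 u
    have e5 : Real.exp (5 * u) ≤ Real.exp (9 * u) := Real.exp_le_exp.mpr (by linarith)
    have b1 : Real.exp (5 * u) * Sth 1 u ≤ C₁ * Real.exp (-Real.exp (2 * u)) :=
      (mul_le_mul_of_nonneg_right e5 s1).trans a1
    rw [Phi_eq]
    refine (abs_sub _ _).trans ?_
    rw [abs_of_nonneg (by positivity), abs_of_nonneg (by positivity)]
    have c1 := mul_le_mul_of_nonneg_left b1 (show 0 ≤ 3 * Real.pi by positivity)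
    have c2 := mul_le_mul_of_nonneg_left a2 (show 0 ≤ 2 * Real.pi ^ 2 by positivity)
    calc 2 * Real.pi ^ 2 * Real.exp (9 * u) * Sth 2 u + 3 * Real.pi * Real.exp (5 * u) * Sth 1 u
        = 2 * Real.pi ^ 2 * (Real.exp (9 * u) * Sth 2 u) +
          3 * Real.pi * (Real.exp (5 * u) * Sth 1 u) := by ring
      _ ≤ 2 * Real.pi ^ 2 * (C₂ * Real.exp (-Real.exp (2 * u))) +
          3 * Real.pi * (C₁ * Real.exp (-Real.exp (2 * u))) := add_le_add c2 c1
      _ = _ := by ring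
  refine ⟨2 * Real.pi ^ 2 * C₂ + 3 * Real.pi * C₁, by positivity, fun u => ?_⟩
  have h3 := key |u| (abs_nonneg u)
  rcases le_or_gt 0 u with hu | hu
  · rw [abs_of_nonneg hu] at h3 ⊢
    exact h3
  · rw [abs_of_neg hu] at h3 ⊢
    rwa [Phi_even] at h3

theorem qth_deriv : ∃ q' : ℝ → ℝ, (∀ u, HasDerivAt qth (q' u) u) ∧
    (∀ u, HasDerivAt q' (qth u + 8 * Phi u) u) ∧
    (∃ C : ℝ, 0 ≤ C ∧ ∀ u, |qth u| ≤ C * Real.exp (-u) ∧ |q' u| ≤ C * Real.exp (-u)) ∧
    (∃ C : ℝ, 0 ≤ C ∧ ∀ u, 0 ≤ u → |qth u| ≤ C * Real.exp (-Real.exp (2 * u)) ∧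
      |q' u| ≤ C * Real.exp (-Real.exp (2 * u))) := by
  refine ⟨qd, qth_hasDerivAt, qd_hasDerivAt, ?_⟩
  obtain ⟨C₀, hC₀, h₀⟩ := exp_sth_le 0
  obtain ⟨C₁, hC₁, h₁⟩ := exp_sth_le 1
  have hpi := Real.pi_pos
  have key : ∀ u : ℝ, 0 ≤ u → |qth u| ≤ (C₀ + 4 * Real.pi * C₁) * Real.exp (-Real.exp (2 * u)) ∧
      |qd u| ≤ (C₀ + 4 * Real.pi * C₁) * Real.exp (-Real.exp (2 * u)) := by
    intro u hu
    have s0 := sth_nonneg 0 u
    have s1 := sth_nonneg 1 u
    have e5 : Real.exp (5 * u) ≤ Real.exp (9 * u) := Real.exp_le_exp.mpr (by linarith)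
    have e1 : Real.exp u ≤ Real.exp (9 * u) := Real.exp_le_exp.mpr (by linarith)
    have b0 : Real.exp u * Sth 0 u ≤ C₀ * Real.exp (-Real.exp (2 * u)) :=
      (mul_le_mul_of_nonneg_right e1 s0).trans (h₀ u hu)
    have b1 : Real.exp (5 * u) * Sth 1 u ≤ C₁ * Real.exp (-Real.exp (2 * u)) :=
      (mul_le_mul_of_nonneg_right e5 s1).trans (h₁ u hu)
    have c1 := mul_le_mul_of_nonneg_left b1 (show 0 ≤ 4 * Real.pi by positivity)
    have hE := Real.exp_pos (-Real.exp (2 * u))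
    constructor
    · rw [qth_eq, abs_of_nonneg (by positivity)]
      have : 0 ≤ 4 * Real.pi * C₁ * Real.exp (-Real.exp (2 * u)) := by positivity
      linarith
    · unfold qd
      refine (abs_sub _ _).trans ?_
      rw [abs_of_nonneg (by positivity), abs_of_nonneg (by positivity)]
      linarith
  set K : ℝ := C₀ + 4 * Real.pi * C₁ with hK
  have hK0 : 0 ≤ K := by positivity
  refine ⟨⟨K + 1, by positivity, fun u => ?_⟩, ⟨K, hK0, key⟩⟩
  have hE : ∀ v : ℝ, 0 ≤ v → Real.exp (-Real.exp (2 * v)) ≤ Real.exp (-v) := by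
    intro v hv
    apply Real.exp_le_exp.mpr
    have := Real.add_one_le_exp (2 * v)
    linarith
  rcases le_or_gt 0 u with hu | hu
  · obtain ⟨k1, k2⟩ := key u hu
    have h3 := mul_le_mul_of_nonneg_left (hE u hu) hK0
    have h4 := Real.exp_pos (-u)
    constructor
    · linarith
    · linarith
  · obtain ⟨k1, k2⟩ := key (-u) (by linarith)
    have h3 := mul_le_mul_of_nonneg_left (hE (-u) (by linarith)) hK0
    rw [neg_neg] at h3
    have h4 := Real.exp_pos (-u)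
    have h5 : Real.exp u ≤ Real.exp (-u) := Real.exp_le_exp.mpr (by linarith)
    have h6 := qth_symm u
    have h7 := qd_symm u
    have h8 := Real.exp_pos u
    have h9 : K * Real.exp u ≤ K * Real.exp (-u) := mul_le_mul_of_nonneg_left h5 hK0
    rw [abs_le] at k1 k2
    constructor
    · rw [abs_le]
      constructor <;> linarith [k1.1, k1.2]
    · rw [abs_le]
      constructor <;> linarith [k2.1, k2.2]

end Pool.Agent.DBN
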