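import Pool.Agent.DBN.PhiA
import Pool.Agent.DBN.Xi

/-!
# The Riemann xi function as the Fourier transform of `Φ`
-/

set_option autoImplicit false

namespace Pool.Agent.DBN

open Complex MeasureTheory Set Filter Topology

/-- the Gamma integral in exponential coordinates -/
lemma gam_int {a b : ℝ} (ha : 0 < a) (hb : 0 < b) :
    Integrable (fun u : ℝ => Real.exp (a * u) * Real.exp (-(b * Real.exp (4 * u)))) ∧
    ∫ u : ℝ, Real.exp (a * u) * Real.exp (-(b * Real.exp (4 * u))) =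
      (1 / b) ^ (a / 4) * Real.Gamma (a / 4) / 4 := by
  have hG := Real.integral_rpow_mul_exp_neg_mul_Ioi (a := a / 4) (r := b) (by positivity) hb
  set g : ℝ → ℝ := fun t => t ^ (a / 4 - 1) * Real.exp (-(b * t)) with hg
  have him : (fun u : ℝ => Real.exp (4 * u)) '' univ = Ioi 0 := by
    rw [image_univ]
    ext x
    constructor
    · rintro ⟨u, rfl⟩
      exact Real.exp_pos _
    · intro hx
      refine ⟨Real.log x / 4, ?_⟩
      have h1 : 4 * (Real.log x / 4) = Real.log x := by ring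
      simp only
      rw [h1, Real.exp_log hx]
  have hder : ∀ x ∈ (univ : Set ℝ), HasDerivWithinAt (fun u : ℝ => Real.exp (4 * u))
      (4 * Real.exp (4 * x)) univ x := fun x _ => (hasDerivAt_exp_mul 4 x).hasDerivWithinAt
  have hinj : InjOn (fun u : ℝ => Real.exp (4 * u)) univ := by
    intro x _ y _ h
    have := Real.exp_injective h
    linarith
  have hptw : (fun x : ℝ => |4 * Real.exp (4 * x)| • g (Real.exp (4 * x))) =
      fun x => 4 * (Real.exp (a * x) * Real.exp (-(b * Real.exp (4 * x)))) := by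
    funext x
    simp only [hg, smul_eq_mul]
    rw [abs_of_pos (by positivity), ← Real.exp_mul]
    have h1 : Real.exp (4 * x) * Real.exp (4 * x * (a / 4 - 1)) = Real.exp (a * x) := by
      rw [← Real.exp_add]
      congr 1
      ring
    rw [← h1]
    ring
  have hgi : IntegrableOn g (Ioi 0) := by
    have hne : ∫ t in Ioi 0, g t ≠ 0 := by
      rw [hG]
      exact (mul_pos (Real.rpow_pos_of_pos (by positivity) _)
        (Real.Gamma_pos_of_pos (by positivity))).ne'
    by_contra h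
    exact hne (integral_undef h)
  have h1 : IntegrableOn (fun x : ℝ => |4 * Real.exp (4 * x)| • g (Real.exp (4 * x))) univ := by
    rw [← integrableOn_image_iff_integrableOn_abs_deriv_smul MeasurableSet.univ hder hinj, him]
    exact hgi
  have h2 : ∫ x in Ioi 0, g x = ∫ x in (univ : Set ℝ), |4 * Real.exp (4 * x)| •
      g (Real.exp (4 * x)) := by
    rw [← integral_image_eq_integral_abs_deriv_smul MeasurableSet.univ hder hinj, him]
  rw [hptw, integrableOn_univ] at h1
  rw [hptw, setIntegral_univ, integral_const_mul, hG] at h2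
  constructor
  · have h3 := h1.const_mul (1 / 4)
    refine h3.congr (Eventually.of_forall fun x => ?_)
    simp only
    ring
  · linarith

lemma pow_id {x : ℝ} (hx : 0 < x) (p : ℝ) :
    (1 / (Real.pi * x ^ 2)) ^ (p / 2) = Real.pi ^ (-p / 2) * (1 / x ^ p) := by
  have hπ := Real.pi_pos
  rw [one_div, Real.inv_rpow (by positivity), Real.mul_rpow hπ.le (by positivity),
    ← Real.rpow_natCast x 2, ← Real.rpow_mul hx.le]
  have h1 : ((2 : ℕ) : ℝ) * (p / 2) = p := by push_cast; ring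
  rw [h1, neg_div, Real.rpow_neg hπ.le, mul_inv, one_div]

/-- The Mellin transform of the theta series. -/
lemma integral_qth {y : ℝ} (hy : 1 < y) :
    Integrable (fun u : ℝ => qth u * Real.exp (y * u)) ∧
    ∫ u : ℝ, qth u * Real.exp (y * u) =
      Real.pi ^ (-((1 + y) / 2) / 2) * Real.Gamma ((1 + y) / 2 / 2) / 4 *
        ∑' n : ℕ, 1 / ((n : ℝ) + 1) ^ ((1 + y) / 2) := by
  have hπ := Real.pi_pos
  set p : ℝ := (1 + y) / 2 with hp
  have hp1 : 1 < p := by rw [hp]; linarith
  set F : ℕ → ℝ → ℝ := fun n u => Real.exp ((1 + y) * u) *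
    Real.exp (-(Real.pi * ((n : ℝ) + 1) ^ 2 * Real.exp (4 * u))) with hF
  have hFi : ∀ n, Integrable (F n) := fun n =>
    (gam_int (a := 1 + y) (b := Real.pi * ((n : ℝ) + 1) ^ 2) (by linarith) (by positivity)).1
  have hFv : ∀ n, ∫ u, F n u = Real.pi ^ (-p / 2) * Real.Gamma (p / 2) / 4 *
      (1 / ((n : ℝ) + 1) ^ p) := by
    intro n
    have h1 := (gam_int (a := 1 + y) (b := Real.pi * ((n : ℝ) + 1) ^ 2) (by linarith)
      (by positivity)).2
    have h2 : (1 + y) / 4 = p / 2 := by rw [hp]; ring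
    rw [h2, pow_id (by positivity) p] at h1
    rw [hF]
    simp only
    rw [h1]
    ring
  have hnorm : ∀ n, ∫ u, ‖F n u‖ = ∫ u, F n u := by
    intro n
    congr 1
    funext u
    rw [Real.norm_eq_abs, abs_of_pos]
    rw [hF]
    positivity
  have hs0 : Summable fun n : ℕ => 1 / ((n : ℝ) + 1) ^ p := by
    have h1 := (summable_nat_add_iff 1).mpr (Real.summable_one_div_nat_rpow.mpr hp1)
    refine h1.congr fun n => ?_
    push_cast
    rfl
  have hsum : Summable fun n => ∫ u, ‖F n u‖ := by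
    have h1 : (fun n => ∫ u, ‖F n u‖) = fun n : ℕ =>
        Real.pi ^ (-p / 2) * Real.Gamma (p / 2) / 4 * (1 / ((n : ℝ) + 1) ^ p) := by
      funext n
      rw [hnorm, hFv]
    rw [h1]
    exact hs0.mul_left _
  have hq : ∀ u : ℝ, ∑' n, F n u = qth u * Real.exp (y * u) := by
    intro u
    unfold qth
    rw [hF]
    simp only
    rw [tsum_mul_left]
    have h1 : Real.exp ((1 + y) * u) = Real.exp u * Real.exp (y * u) := by
      rw [← Real.exp_add]
      congr 1
      ring
    rw [h1]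
    ring
  have hmain := hasSum_integral_of_summable_integral_norm hFi hsum
  have h3 : ∫ u : ℝ, ∑' n, F n u = ∫ u : ℝ, qth u * Real.exp (y * u) := by
    congr 1
    funext u
    exact hq u
  rw [h3] at hmain
  have hval : ∫ u : ℝ, qth u * Real.exp (y * u) =
      Real.pi ^ (-p / 2) * Real.Gamma (p / 2) / 4 * ∑' n : ℕ, 1 / ((n : ℝ) + 1) ^ p := by
    rw [← hmain.tsum_eq, ← tsum_mul_left]
    exact tsum_congr hFv
  refine ⟨?_, hval⟩
  have hpos : 0 < ∑' n : ℕ, 1 / ((n : ℝ) + 1) ^ p :=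
    hs0.tsum_pos (fun n => by positivity) 0 (by simp)
  by_contra h
  rw [integral_undef h] at hval
  have h4 : 0 < Real.pi ^ (-p / 2) * Real.Gamma (p / 2) / 4 *
      ∑' n : ℕ, 1 / ((n : ℝ) + 1) ^ p := by
    have h5 := Real.Gamma_pos_of_pos (show 0 < p / 2 by linarith)
    positivity
  linarith

lemma expexp_le {u : ℝ} : Real.exp (-Real.exp (2 * |u|)) ≤ Real.exp (-2 * u ^ 2) := by
  apply Real.exp_le_exp.mpr
  have h1 := Real.quadratic_le_exp_of_nonneg (x := 2 * |u|) (by positivity)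
  have h2 : |u| ^ 2 = u ^ 2 := sq_abs u
  have h3 := abs_nonneg u
  nlinarith

lemma lin_gauss (R u : ℝ) : R * |u| - 2 * u ^ 2 ≤ R ^ 2 / 4 + -1 * u ^ 2 := by
  have h2 : |u| ^ 2 = u ^ 2 := sq_abs u
  nlinarith [sq_nonneg (|u| - R / 2)]

lemma bound_gauss {f C : ℝ} (R u : ℝ) (hC : 0 ≤ C) (h : |f| ≤ C * Real.exp (-2 * u ^ 2)) :
    |f| * Real.exp (R * |u|) ≤ C * Real.exp (R ^ 2 / 4) * Real.exp (-1 * u ^ 2) := by
  calc |f| * Real.exp (R * |u|) ≤ C * Real.exp (-2 * u ^ 2) * Real.exp (R * |u|) := by gcongr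
    _ = C * Real.exp (R * |u| - 2 * u ^ 2) := by
        rw [mul_assoc, ← Real.exp_add]
        congr 2
        ring
    _ ≤ C * Real.exp (R ^ 2 / 4 + -1 * u ^ 2) := by
        gcongr C * Real.exp ?_
        exact lin_gauss R u
    _ = _ := by rw [Real.exp_add]; ring

/-- the Fourier transform of a function with Gaussian decay is entire -/
lemma entire_fourier {f : ℝ → ℝ} (hf : Continuous f) {C : ℝ} (hC : 0 ≤ C)
    (h : ∀ u, |f u| ≤ C * Real.exp (-2 * u ^ 2)) :
    Differentiable ℂ (fun z : ℂ => ∫ u : ℝ, (f u : ℂ) * exp (I * z * u)) := by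
  intro z₀
  set R : ℝ := ‖z₀‖ + 1 with hR
  have hR0 : 0 ≤ R := by positivity
  have hexp : ∀ z ∈ Metric.ball z₀ 1, ∀ u : ℝ, ‖exp (I * z * u)‖ ≤ Real.exp (R * |u|) := by
    intro z hz u
    rw [Complex.norm_exp]
    apply Real.exp_le_exp.mpr
    have h1 : (I * z * (u : ℂ)).re ≤ ‖I * z * (u : ℂ)‖ := Complex.re_le_norm _
    have h2 : ‖I * z * (u : ℂ)‖ = ‖z‖ * |u| := by
      rw [norm_mul, norm_mul, Complex.norm_I, one_mul, Complex.norm_real, Real.norm_eq_abs]
    have h3 : ‖z‖ ≤ R := by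
      have h4 : ‖z - z₀‖ < 1 := by rwa [← dist_eq_norm]
      have h5 : ‖z‖ ≤ ‖z - z₀‖ + ‖z₀‖ := by
        calc ‖z‖ = ‖(z - z₀) + z₀‖ := by rw [sub_add_cancel]
          _ ≤ _ := norm_add_le _ _
      linarith
    calc (I * z * (u : ℂ)).re ≤ ‖z‖ * |u| := by rw [← h2]; exact h1
      _ ≤ R * |u| := by gcongr
  have hgi : Integrable fun u : ℝ => C * Real.exp ((R + 1) ^ 2 / 4) * Real.exp (-1 * u ^ 2) :=
    (integrable_exp_neg_mul_sq (by norm_num)).const_mul _
  have hfc : Continuous fun u : ℝ => (f u : ℂ) := continuous_ofReal.comp hf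
  have hexpR : ∀ u : ℝ, Real.exp (R * |u|) ≤ Real.exp ((R + 1) * |u|) := by
    intro u
    apply Real.exp_le_exp.mpr
    have := abs_nonneg u
    nlinarith
  have hmeas : ∀ z : ℂ, Continuous fun u : ℝ => (f u : ℂ) * exp (I * z * u) := by
    intro z
    fun_prop
  have hmeas' : Continuous fun u : ℝ => (f u : ℂ) * (exp (I * z₀ * u) * (I * u)) := by
    fun_prop
  have key := hasDerivAt_integral_of_dominated_loc_of_deriv_le (μ := volume) (𝕜 := ℂ)
    (F := fun z (u : ℝ) => (f u : ℂ) * exp (I * z * u))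
    (F' := fun z (u : ℝ) => (f u : ℂ) * (exp (I * z * u) * (I * u))) (x₀ := z₀)
    (s := Metric.ball z₀ 1)
    (bound := fun u : ℝ => C * Real.exp ((R + 1) ^ 2 / 4) * Real.exp (-1 * u ^ 2))
    (Metric.ball_mem_nhds _ one_pos)
    (Eventually.of_forall fun z => (hmeas z).aestronglyMeasurable)
    (hgi.mono' (hmeas z₀).aestronglyMeasurable (Eventually.of_forall fun u => ?_))
    hmeas'.aestronglyMeasurable
    (Eventually.of_forall fun u z hz => ?_) hgi
    (Eventually.of_forall fun u z _ => ?_)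
  · exact key.2.differentiableAt
  · rw [norm_mul, Complex.norm_real, Real.norm_eq_abs]
    refine le_trans ?_ (bound_gauss (R + 1) u hC (h u))
    have h1 := hexp z₀ (Metric.mem_ball_self one_pos) u
    gcongr
    exact h1.trans (hexpR u)
  · rw [norm_mul, norm_mul, norm_mul, Complex.norm_I, one_mul, Complex.norm_real,
      Complex.norm_real, Real.norm_eq_abs, Real.norm_eq_abs]
    refine le_trans ?_ (bound_gauss (R + 1) u hC (h u))
    have h1 := hexp z hz u
    have h2 : |u| ≤ Real.exp |u| := by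
      have := Real.add_one_le_exp |u|
      linarith
    have h3 : Real.exp ((R + 1) * |u|) = Real.exp (R * |u|) * Real.exp |u| := by
      rw [← Real.exp_add]
      congr 1
      ring
    rw [h3]
    gcongr
  · have h1 : HasDerivAt (fun z : ℂ => I * z * (u : ℂ)) (I * u) z := by
      have h2 := ((hasDerivAt_id z).const_mul I).mul_const (u : ℂ)
      simpa using h2
    exact (h1.cexp).const_mul (f u : ℂ)

lemma Phi_gauss : ∃ C : ℝ, 0 ≤ C ∧ ∀ u : ℝ, |Phi u| ≤ C * Real.exp (-2 * u ^ 2) := by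
  obtain ⟨C, hC, h⟩ := Phi_decay
  exact ⟨C, hC, fun u => (h u).trans (mul_le_mul_of_nonneg_left expexp_le hC)⟩

lemma integrable_Phi_exp (y : ℝ) : Integrable fun u : ℝ => Phi u * Real.exp (y * u) := by
  obtain ⟨C, hC, h⟩ := Phi_gauss
  have hgi : Integrable fun u : ℝ => C * Real.exp (|y| ^ 2 / 4) * Real.exp (-1 * u ^ 2) :=
    (integrable_exp_neg_mul_sq (by norm_num)).const_mul _
  have hc : Continuous fun u : ℝ => Phi u * Real.exp (y * u) :=
    Phi_continuous.mul (by fun_prop)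
  refine hgi.mono' hc.aestronglyMeasurable (Eventually.of_forall fun u => ?_)
  rw [Real.norm_eq_abs, abs_mul, abs_of_pos (Real.exp_pos _)]
  refine le_trans ?_ (bound_gauss |y| u hC (h u))
  refine mul_le_mul_of_nonneg_left (Real.exp_le_exp.mpr ?_) (abs_nonneg _)
  rw [← abs_mul]
  exact le_abs_self _

/-- two integrations by parts -/
lemma parts {y : ℝ} (hy : 1 < y) :
    8 * ∫ u : ℝ, Phi u * Real.exp (y * u) = (y ^ 2 - 1) * ∫ u : ℝ, qth u * Real.exp (y * u) := by
  obtain ⟨q', h1, h2, ⟨C₁, hC₁, h3⟩, ⟨C₂, hC₂, h4⟩⟩ := qth_deriv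
  have hqi := (integral_qth hy).1
  have hPi := integrable_Phi_exp y
  set G : ℝ → ℝ := fun u => q' u * Real.exp (y * u) - y * (qth u * Real.exp (y * u)) with hG
  have hexp : ∀ u : ℝ, HasDerivAt (fun u : ℝ => Real.exp (y * u)) (y * Real.exp (y * u)) u :=
    fun u => hasDerivAt_exp_mul y u
  have hder : ∀ u, HasDerivAt G (8 * (Phi u * Real.exp (y * u)) -
      (y ^ 2 - 1) * (qth u * Real.exp (y * u))) u := by
    intro u
    have h5 := ((h2 u).mul (hexp u)).sub (((h1 u).mul (hexp u)).const_mul y)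
    refine h5.congr_deriv ?_
    ring
  have hint : Integrable fun u : ℝ => 8 * (Phi u * Real.exp (y * u)) -
      (y ^ 2 - 1) * (qth u * Real.exp (y * u)) := (hPi.const_mul 8).sub (hqi.const_mul _)
  have hbd : ∀ u : ℝ, ‖G u‖ ≤ (1 + |y|) * (max |q' u| |qth u| * Real.exp (y * u)) := by
    intro u
    have h5 : |q' u| ≤ max |q' u| |qth u| := le_max_left _ _
    have h6 : |qth u| ≤ max |q' u| |qth u| := le_max_right _ _
    rw [Real.norm_eq_abs, hG]
    simp only
    refine (abs_sub _ _).trans ?_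
    rw [abs_mul, abs_mul, abs_mul, abs_of_pos (Real.exp_pos _)]
    have h7 : |q' u| * Real.exp (y * u) ≤ max |q' u| |qth u| * Real.exp (y * u) := by gcongr
    have h8 : |y| * (|qth u| * Real.exp (y * u)) ≤
        |y| * (max |q' u| |qth u| * Real.exp (y * u)) := by gcongr
    linarith
  have htop : Tendsto G atTop (𝓝 0) := by
    have hb : ∀ᶠ u : ℝ in atTop, ‖G u‖ ≤ (1 + |y|) * C₂ * Real.exp (y ^ 2 / 4) *
        Real.exp (-u) := by
      filter_upwards [eventually_ge_atTop (1 : ℝ)] with u hu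
      have h5 : max |q' u| |qth u| ≤ C₂ * Real.exp (-Real.exp (2 * u)) :=
        max_le (h4 u (by linarith)).2 (h4 u (by linarith)).1
      have h6 : Real.exp (-Real.exp (2 * u)) * Real.exp (y * u) ≤
          Real.exp (y ^ 2 / 4) * Real.exp (-u) := by
        rw [← Real.exp_add, ← Real.exp_add]
        apply Real.exp_le_exp.mpr
        have h7 := Real.quadratic_le_exp_of_nonneg (x := 2 * u) (by linarith)
        nlinarith [sq_nonneg (u - y / 2)]
      calc ‖G u‖ ≤ _ := hbd u
        _ ≤ (1 + |y|) * (C₂ * Real.exp (-Real.exp (2 * u)) * Real.exp (y * u)) := by gcongr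
        _ = (1 + |y|) * C₂ * (Real.exp (-Real.exp (2 * u)) * Real.exp (y * u)) := by ring
        _ ≤ (1 + |y|) * C₂ * (Real.exp (y ^ 2 / 4) * Real.exp (-u)) := by gcongr
        _ = _ := by ring
    have h9 : Tendsto (fun u : ℝ => (1 + |y|) * C₂ * Real.exp (y ^ 2 / 4) * Real.exp (-u)) atTop
        (𝓝 ((1 + |y|) * C₂ * Real.exp (y ^ 2 / 4) * 0)) :=
      (Real.tendsto_exp_neg_atTop_nhds_zero).const_mul _
    rw [mul_zero] at h9
    exact squeeze_zero_norm' hb h9
  have hbot : Tendsto G atBot (𝓝 0) := by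
    have hb : ∀ u : ℝ, ‖G u‖ ≤ (1 + |y|) * C₁ * Real.exp ((y - 1) * u) := by
      intro u
      have h5 : max |q' u| |qth u| ≤ C₁ * Real.exp (-u) := max_le (h3 u).2 (h3 u).1
      have h6 : Real.exp (-u) * Real.exp (y * u) = Real.exp ((y - 1) * u) := by
        rw [← Real.exp_add]
        congr 1
        ring
      calc ‖G u‖ ≤ _ := hbd u
        _ ≤ (1 + |y|) * (C₁ * Real.exp (-u) * Real.exp (y * u)) := by gcongr
        _ = (1 + |y|) * C₁ * (Real.exp (-u) * Real.exp (y * u)) := by ring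
        _ = _ := by rw [h6]
    have h8 : Tendsto (fun u : ℝ => (y - 1) * u) atBot atBot :=
      tendsto_id.const_mul_atBot (by linarith)
    have h9 : Tendsto (fun u : ℝ => (1 + |y|) * C₁ * Real.exp ((y - 1) * u)) atBot
        (𝓝 ((1 + |y|) * C₁ * 0)) :=
      (Real.tendsto_exp_atBot.comp h8).const_mul _
    rw [mul_zero] at h9
    exact squeeze_zero_norm hb h9
  have hmain := integral_of_hasDerivAt_of_tendsto hder hint hbot htop
  rw [integral_sub (hPi.const_mul 8) (hqi.const_mul _), integral_const_mul, integral_const_mul,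
    sub_zero] at hmain
  linarith

/-- the formula on a ray of the imaginary axis -/
lemma real_Phi {y : ℝ} (hy : 1 < y) :
    ((∫ u : ℝ, Phi u * Real.exp (y * u) : ℝ) : ℂ) = xi (((1 + y) / 2 : ℝ) : ℂ) / 4 := by
  set p : ℝ := (1 + y) / 2 with hp
  have hp1 : 1 < p := by rw [hp]; linarith
  have hπ := Real.pi_pos
  have h1 := parts hy
  rw [(integral_qth hy).2, ← hp] at h1
  have h2 : ∫ u : ℝ, Phi u * Real.exp (y * u) = (p * (p - 1) / 2) *
      (Real.pi ^ (-p / 2) * Real.Gamma (p / 2)) * (∑' n : ℕ, 1 / ((n : ℝ) + 1) ^ p) / 4 := by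
    have h3 : y ^ 2 - 1 = 4 * (p * (p - 1)) := by rw [hp]; ring
    rw [h3] at h1
    linarith
  rw [h2]
  have hre : 0 < ((p : ℂ)).re := by rw [Complex.ofReal_re]; linarith
  have hne0 : (p : ℂ) ≠ 0 := by
    intro h
    rw [h] at hre
    simp at hre
  have hne1 : (p : ℂ) ≠ 1 := by
    intro h
    have h3 : p = 1 := by exact_mod_cast h
    linarith
  rw [xi_eq hne0 hne1 (Gammaℝ_ne_zero_of_re_pos hre), Gammaℝ_def,
    zeta_eq_tsum_one_div_nat_add_one_cpow (by rw [Complex.ofReal_re]; exact hp1)]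
  have h4 : ((Real.pi ^ (-p / 2) : ℝ) : ℂ) = (Real.pi : ℂ) ^ (-(p : ℂ) / 2) := by
    rw [Complex.ofReal_cpow hπ.le]
    push_cast
    rfl
  have h5 : ((Real.Gamma (p / 2) : ℝ) : ℂ) = Complex.Gamma ((p : ℂ) / 2) := by
    rw [← Complex.Gamma_ofReal]
    push_cast
    rfl
  have h6 : ((∑' n : ℕ, 1 / ((n : ℝ) + 1) ^ p : ℝ) : ℂ) =
      ∑' n : ℕ, 1 / ((n : ℂ) + 1) ^ (p : ℂ) := by
    rw [Complex.ofReal_tsum]
    refine tsum_congr fun n => ?_
    have h7 : (((n : ℝ) + 1) ^ p : ℝ) = (((n : ℂ) + 1) ^ (p : ℂ)) := by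
      rw [Complex.ofReal_cpow (by positivity)]
      push_cast
      rfl
    rw [← h7]
    push_cast
    rfl
  rw [← h4, ← h5, ← h6]
  push_cast
  ring

/-- `∫ Φ(u) e^(i z u) du = ξ(1/2 + i z/2) / 4` for every complex `z` -/
theorem integral_Phi (z : ℂ) :
    ∫ u : ℝ, (Phi u : ℂ) * exp (I * z * u) = xi (1 / 2 + I * z / 2) / 4 := by
  obtain ⟨C, hC, h⟩ := Phi_gauss
  have hf := entire_fourier Phi_continuous hC h
  have hg : Differentiable ℂ fun z : ℂ => xi (1 / 2 + I * z / 2) / 4 := by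
    have h1 := differentiable_xi
    exact (h1.comp (by fun_prop : Differentiable ℂ fun z : ℂ => 1 / 2 + I * z / 2)).div_const 4
  have hfa := Complex.analyticOnNhd_univ_iff_differentiable.mpr hf
  have hga := Complex.analyticOnNhd_univ_iff_differentiable.mpr hg
  have hval : ∀ y : ℝ, 1 < y → (∫ u : ℝ, (Phi u : ℂ) * exp (I * (-(y : ℂ) * I) * u)) =
      xi (1 / 2 + I * (-(y : ℂ) * I) / 2) / 4 := by
    intro y hy
    have h1 := real_Phi hy
    have h2 : (1 / 2 + I * (-(y : ℂ) * I) / 2) = (((1 + y) / 2 : ℝ) : ℂ) := by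
      push_cast
      linear_combination (-(y : ℂ) / 2) * Complex.I_sq
    rw [h2, ← h1, ← integral_complex_ofReal]
    congr 1
    funext u
    have h3 : I * (-(y : ℂ) * I) * (u : ℂ) = ((y * u : ℝ) : ℂ) := by
      push_cast
      linear_combination (-(y : ℂ) * u) * Complex.I_sq
    rw [h3]
    push_cast
    rfl
  have hfreq : ∃ᶠ w in 𝓝[≠] (-((2 : ℝ) : ℂ) * I),
      (fun z : ℂ => ∫ u : ℝ, (Phi u : ℂ) * exp (I * z * u)) w =
      (fun z : ℂ => xi (1 / 2 + I * z / 2) / 4) w := by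
    have ht : Tendsto (fun y : ℝ => -(y : ℂ) * I) (𝓝[≠] 2) (𝓝[≠] (-((2 : ℝ) : ℂ) * I)) := by
      apply tendsto_nhdsWithin_of_tendsto_nhds_of_eventually_within
      · have hc : Continuous fun y : ℝ => -(y : ℂ) * I := by fun_prop
        exact (hc.tendsto 2).mono_left nhdsWithin_le_nhds
      · filter_upwards [self_mem_nhdsWithin] with y hy
        intro hc
        apply hy
        have h1 : (-(y : ℂ) * I) = (-((2 : ℝ) : ℂ) * I) := hc
        have h2 := mul_right_cancel₀ Complex.I_ne_zero h1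
        have h3 : (y : ℂ) = ((2 : ℝ) : ℂ) := neg_injective h2
        exact_mod_cast h3
    apply ht.frequently
    have he : ∀ᶠ y : ℝ in 𝓝[≠] 2, 1 < y :=
      (eventually_gt_nhds (by norm_num : (1 : ℝ) < 2)).filter_mono nhdsWithin_le_nhds
    exact (he.mono fun y hy => hval y hy).frequently
  have hEq := AnalyticOnNhd.eq_of_frequently_eq hfa hga hfreq
  exact congrFun hEq z

end Pool.Agent.DBN
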