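import Mathlib

/-!
# The classical definition of the de Bruijn-Newman functions `H_t`
-/

set_option autoImplicit false

namespace Pool.Agent.DBN

open Complex MeasureTheory

/-- `Φ(u) = ∑_{n ≥ 1} (2 π² n⁴ e^(9u) - 3 π n² e^(5u)) exp(-π n² e^(4u))` -/
noncomputable def Phi (u : ℝ) : ℝ :=
  ∑' n : ℕ, (2 * Real.pi ^ 2 * (n + 1) ^ 4 * Real.exp (9 * u) -
    3 * Real.pi * (n + 1) ^ 2 * Real.exp (5 * u)) *
      Real.exp (-(Real.pi * (n + 1) ^ 2 * Real.exp (4 * u)))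

/-- `H_t(z) = ∫_0^∞ e^(t u²) Φ(u) cos(z u) du` -/
noncomputable def H (t : ℝ) (z : ℂ) : ℂ :=
  ∫ u in Set.Ioi (0 : ℝ), ((Real.exp (t * u ^ 2) * Phi u : ℝ) : ℂ) * cos (z * u)

end Pool.Agent.DBN
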