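import Pool.Agent.DBN.Defs
import Pool.Agent.DBN.PhiDefs
import Pool.Agent.DBN.PhiA
import Pool.Agent.DBN.PhiB

/-!
# The classical `H_t` and the Gaussian averages of xi
-/

set_option autoImplicit false

namespace Pool.Agent.DBN.PC

open Complex MeasureTheory Set Filter Topology

/-- superexponential decay dominates quadratic exponents -/
lemma dom_quad {a b : ℝ} (ha : 0 ≤ a) : ∃ K : ℝ, ∀ u : ℝ,
    -Real.exp (2 * |u|) + a * |u| + b * u ^ 2 ≤ K - u ^ 2 := by
  refine ⟨a + 3 * (a + b + 1) ^ 2 / 8, fun u => ?_⟩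
  have h1 := Real.pow_div_factorial_le_exp (2 * |u|) (by positivity) 4
  have h2 : (2 * |u|) ^ 4 / ((Nat.factorial 4 : ℕ) : ℝ) = 2 / 3 * (u ^ 2) ^ 2 := by
    have : (|u|) ^ 4 = (u ^ 2) ^ 2 := by
      rw [← sq_abs u]
      ring
    rw [mul_pow, this]
    norm_num [Nat.factorial]
    ring
  rw [h2] at h1
  have h3 : |u| ≤ 1 + u ^ 2 := by
    have h4 := sq_abs u
    nlinarith [sq_nonneg (|u| - 1), abs_nonneg u]
  have h5 : a * |u| ≤ a * (1 + u ^ 2) := by gcongr
  nlinarith [sq_nonneg (u ^ 2 - 3 * (a + b + 1) / 4)]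

lemma zeta_sq (t : ℝ) : ((√t : ℂ) + √(-t) * I) ^ 2 = (t : ℂ) := by
  rcases le_total 0 t with ht | ht
  · have h1 : √(-t) = 0 := Real.sqrt_eq_zero_of_nonpos (by linarith)
    rw [h1]
    have h2 : ((√t : ℝ) : ℂ) ^ 2 = (t : ℂ) := by
      rw [← Complex.ofReal_pow, Real.sq_sqrt ht]
    rw [← h2]
    push_cast
    ring
  · have h1 : √t = 0 := Real.sqrt_eq_zero_of_nonpos ht
    have h2 : ((√(-t) : ℝ) : ℂ) ^ 2 = ((-t : ℝ) : ℂ) := by
      rw [← Complex.ofReal_pow, Real.sq_sqrt (by linarith)]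
    rw [h1]
    push_cast at h2 ⊢
    linear_combination (I ^ 2) * h2 + (-(t : ℂ)) * Complex.I_sq

/-- the integrand -/
noncomputable def F (ζ z : ℂ) (v u : ℝ) : ℂ :=
  exp (-(v : ℂ) ^ 2 + 2 * ζ * v * u + I * z * u) * (Phi u : ℂ)

lemma norm_F_le (ζ z : ℂ) (v u : ℝ) : ‖F ζ z v u‖ ≤
    Real.exp (-(1 / 2) * v ^ 2) * (Real.exp (‖z‖ * |u| + 2 * ‖ζ‖ ^ 2 * u ^ 2) * |Phi u|) := by
  rw [F, norm_mul, Complex.norm_real, Real.norm_eq_abs, Complex.norm_exp, ← mul_assoc,
    ← Real.exp_add]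
  gcongr
  have h1 : (-(v : ℂ) ^ 2 + 2 * ζ * v * u + I * z * u).re =
      -v ^ 2 + (2 * ζ * v * u).re + (I * z * u).re := by
    have e : -(v : ℂ) ^ 2 + 2 * ζ * v * u + I * z * u =
        ((-v ^ 2 : ℝ) : ℂ) + (2 * ζ * v * u) + I * z * u := by
      push_cast
      ring
    rw [e, Complex.add_re, Complex.add_re, Complex.ofReal_re]
  have h2 : (2 * ζ * v * u).re ≤ 2 * ‖ζ‖ * |v| * |u| := by
    refine (Complex.re_le_norm _).trans (le_of_eq ?_)
    rw [norm_mul, norm_mul, norm_mul, Complex.norm_real, Complex.norm_real]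
    simp
  have h3 : (I * z * u).re ≤ ‖z‖ * |u| := by
    refine (Complex.re_le_norm _).trans (le_of_eq ?_)
    rw [norm_mul, norm_mul, Complex.norm_real]
    simp
  have h4 : 2 * ‖ζ‖ * |v| * |u| ≤ v ^ 2 / 2 + 2 * ‖ζ‖ ^ 2 * u ^ 2 := by
    have h5 := sq_nonneg (|v| - 2 * ‖ζ‖ * |u|)
    have h6 := sq_abs v
    have h7 := sq_abs u
    nlinarith
  rw [h1]
  linarith

lemma bound_Phi (hdecay : ∃ C : ℝ, 0 ≤ C ∧ ∀ u : ℝ, |Phi u| ≤ C * Real.exp (-Real.exp (2 * |u|)))
    {a : ℝ} (ha : 0 ≤ a) (b : ℝ) : ∃ C : ℝ, 0 ≤ C ∧ ∀ u : ℝ,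
      Real.exp (a * |u| + b * u ^ 2) * |Phi u| ≤ C * Real.exp (-1 * u ^ 2) := by
  obtain ⟨C, hC, h⟩ := hdecay
  obtain ⟨K, hK⟩ := dom_quad (a := a) (b := b) ha
  refine ⟨C * Real.exp K, by positivity, fun u => ?_⟩
  calc Real.exp (a * |u| + b * u ^ 2) * |Phi u| ≤
      Real.exp (a * |u| + b * u ^ 2) * (C * Real.exp (-Real.exp (2 * |u|))) := by
        gcongr
        exact h u
    _ = C * Real.exp (-Real.exp (2 * |u|) + a * |u| + b * u ^ 2) := by
        have e : -Real.exp (2 * |u|) + a * |u| + b * u ^ 2 =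
            (a * |u| + b * u ^ 2) + -Real.exp (2 * |u|) := by ring
        rw [e, Real.exp_add (a * |u| + b * u ^ 2)]
        ring
    _ ≤ C * Real.exp (K - u ^ 2) := by
        gcongr
        exact hK u
    _ = _ := by
        rw [sub_eq_add_neg, Real.exp_add]
        ring_nf

lemma integrable_F (hcont : Continuous Phi)
    (hdecay : ∃ C : ℝ, 0 ≤ C ∧ ∀ u : ℝ, |Phi u| ≤ C * Real.exp (-Real.exp (2 * |u|)))
    (ζ z : ℂ) : Integrable (Function.uncurry (F ζ z)) (volume.prod volume) := by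
  obtain ⟨C, hC, h⟩ := bound_Phi hdecay (norm_nonneg z) (2 * ‖ζ‖ ^ 2)
  have h1 : Integrable fun v : ℝ => Real.exp (-(1 / 2) * v ^ 2) :=
    integrable_exp_neg_mul_sq (by norm_num)
  have h2 : Integrable fun u : ℝ => C * Real.exp (-1 * u ^ 2) :=
    (integrable_exp_neg_mul_sq one_pos).const_mul C
  have h3 := h1.mul_prod h2
  refine h3.mono' ?_ (Filter.Eventually.of_forall fun p => ?_)
  · apply Continuous.aestronglyMeasurable
    unfold Function.uncurry F
    apply Continuous.mul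
    · fun_prop
    · exact Complex.continuous_ofReal.comp (hcont.comp continuous_snd)
  · refine (norm_F_le ζ z p.1 p.2).trans ?_
    exact mul_le_mul_of_nonneg_left (h p.2) (Real.exp_pos _).le

/-- the Gaussian integral -/
lemma integral_F_left (ζ z : ℂ) (u : ℝ) : ∫ v : ℝ, F ζ z v u =
    (√Real.pi : ℂ) * (exp (ζ ^ 2 * (u : ℂ) ^ 2 + I * z * u) * (Phi u : ℂ)) := by
  have e : ∀ v : ℝ, F ζ z v u =
      exp ((-1) * (v : ℂ) ^ 2 + (2 * ζ * u) * v + I * z * u) * (Phi u : ℂ) := by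
    intro v
    rw [F]
    congr 2
    ring
  simp_rw [e]
  rw [integral_mul_const, integral_cexp_quadratic (by simp)]
  have h1 : ((Real.pi : ℂ) / - -1) ^ (1 / 2 : ℂ) = (√Real.pi : ℂ) := by
    rw [Real.sqrt_eq_rpow, Complex.ofReal_cpow Real.pi_pos.le]
    push_cast
    simp
  rw [h1, mul_assoc]
  congr 3
  ring

end Pool.Agent.DBN.PC

namespace Pool.Agent.DBN

open Complex MeasureTheory Set Filter Topology PC

/-- the classical `H_t` is the Gaussian average of xi -/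
theorem H_eq_flow_aux (heven : ∀ u, Phi (-u) = Phi u) (hcont : Continuous Phi)
    (hdecay : ∃ C : ℝ, 0 ≤ C ∧ ∀ u : ℝ, |Phi u| ≤ C * Real.exp (-Real.exp (2 * |u|)))
    (hint : ∀ z : ℂ, ∫ u : ℝ, (Phi u : ℂ) * exp (I * z * u) = xi (1 / 2 + I * z / 2) / 4)
    (t : ℝ) (z : ℂ) : H t z = flow t (1 / 2 + I * z / 2) / 8 := by
  have hpi : (√Real.pi : ℂ) ≠ 0 := by
    have := Real.sqrt_pos.2 Real.pi_pos
    exact_mod_cast this.ne'
  set ζ : ℂ := (√t : ℂ) + √(-t) * I with hζ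
  have hζ2 : ζ ^ 2 = (t : ℂ) := zeta_sq t
  -- the flow as a double integral
  have h1 : flow t (1 / 2 + I * z / 2) = (√Real.pi : ℂ)⁻¹ * ∫ v : ℝ, 4 * ∫ u : ℝ, F ζ z v u := by
    rw [flow]
    congr 1
    apply integral_congr_ae
    refine Filter.Eventually.of_forall fun v => ?_
    simp only
    have h2 := hint (z - 2 * I * ζ * v)
    have e1 : (1 / 2 + I * (z - 2 * I * ζ * v) / 2 : ℂ) = 1 / 2 + I * z / 2 + ζ * v := by
      linear_combination (-(ζ * v)) * Complex.I_sq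
    rw [e1] at h2
    have h3 : xi (1 / 2 + I * z / 2 + ζ * v) =
        4 * ∫ u : ℝ, (Phi u : ℂ) * exp (I * (z - 2 * I * ζ * v) * u) := by
      rw [h2]
      ring
    rw [h3, Complex.ofReal_exp, mul_left_comm, ← integral_const_mul]
    congr 2
    funext u
    rw [F]
    have e2 : (-(v : ℂ) ^ 2 + 2 * ζ * v * u + I * z * u) =
        ((-v ^ 2 : ℝ) : ℂ) + I * (z - 2 * I * ζ * v) * u := by
      push_cast
      linear_combination (2 * ζ * v * u) * Complex.I_sq
    rw [e2, Complex.exp_add]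
    ring
  have hF := integrable_F hcont hdecay ζ z
  have h2 : ∫ v : ℝ, ∫ u : ℝ, F ζ z v u = ∫ u : ℝ, ∫ v : ℝ, F ζ z v u :=
    integral_integral_swap hF
  set G : ℝ → ℂ := fun u => exp ((t : ℂ) * (u : ℂ) ^ 2 + I * z * u) * (Phi u : ℂ) with hG
  have h3 : flow t (1 / 2 + I * z / 2) = 4 * ∫ u : ℝ, G u := by
    rw [h1, integral_const_mul, h2]
    simp_rw [integral_F_left, hζ2]
    rw [integral_const_mul, mul_left_comm, inv_mul_cancel_left₀ hpi]
  -- the half line
  have hGi : Integrable G := by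
    obtain ⟨C, hC, h⟩ := bound_Phi hdecay (norm_nonneg z) t
    have h5 : Integrable fun u : ℝ => C * Real.exp (-1 * u ^ 2) :=
      (integrable_exp_neg_mul_sq one_pos).const_mul C
    refine h5.mono' ?_ (Filter.Eventually.of_forall fun u => ?_)
    · apply Continuous.aestronglyMeasurable
      rw [hG]
      apply Continuous.mul
      · fun_prop
      · exact Complex.continuous_ofReal.comp hcont
    · refine le_trans ?_ (h u)
      rw [hG]
      simp only
      rw [norm_mul, Complex.norm_real, Real.norm_eq_abs, Complex.norm_exp]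
      gcongr
      have h6 : (I * z * u).re ≤ ‖z‖ * |u| := by
        refine (Complex.re_le_norm _).trans (le_of_eq ?_)
        rw [norm_mul, norm_mul, Complex.norm_real]
        simp
      have h7 : ((t : ℂ) * (u : ℂ) ^ 2 + I * z * u).re = t * u ^ 2 + (I * z * u).re := by
        have e : (t : ℂ) * (u : ℂ) ^ 2 + I * z * u = ((t * u ^ 2 : ℝ) : ℂ) + I * z * u := by
          push_cast
          ring
        rw [e, Complex.add_re, Complex.ofReal_re]
      rw [h7]
      linarith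
  have h4 : ∫ u : ℝ, G u = ∫ u in Ioi (0 : ℝ), (G u + G (-u)) := by
    rw [integral_add hGi.integrableOn (hGi.comp_neg.integrableOn),
      integral_comp_neg_Ioi, neg_zero, add_comm,
      intervalIntegral.integral_Iic_add_Ioi hGi.integrableOn hGi.integrableOn]
  have h5 : ∀ u : ℝ, G u + G (-u) =
      2 * (((Real.exp (t * u ^ 2) * Phi u : ℝ) : ℂ) * cos (z * u)) := by
    intro u
    rw [hG]
    simp only
    rw [heven, Complex.cos, Complex.exp_add, Complex.exp_add]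
    push_cast
    have e1 : I * z * (u : ℂ) = z * u * I := by ring
    have e2 : I * z * (-(u : ℂ)) = -(z * u) * I := by ring
    have e3 : (t : ℂ) * (-(u : ℂ)) ^ 2 = t * (u : ℂ) ^ 2 := by ring
    rw [e1, e2, e3]
    ring
  rw [h3, h4, H]
  simp_rw [h5]
  rw [integral_const_mul]
  ring

/-- the classical `H_t` is the Gaussian average of xi -/
theorem H_eq_flow (t : ℝ) (z : ℂ) : H t z = flow t (1 / 2 + I * z / 2) / 8 :=
  H_eq_flow_aux Phi_even Phi_continuous Phi_decay integral_Phi t z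

end Pool.Agent.DBN
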