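import Pool.Agent.DBN.ZFlow
import Pool.Agent.DBN.PhiC
import Pool.Agent.DBN.FlowReg

/-!
# Zeros of `H_t` and zeros of the flow
-/

set_option autoImplicit false

namespace Pool.Agent.DBN

open Complex Metric

/-- the number of zeros in a disc under an affine change of the variable -/
theorem zeroCount_affine {f : ℂ → ℂ} (hf : Differentiable ℂ f) {a b k : ℂ} (ha : a ≠ 0)
    (hk : k ≠ 0) (w : ℂ) (r : ℝ) :
    zeroCount (fun z => k * f (a * z + b)) w r = zeroCount f (a * w + b) (‖a‖ * r) := by
  unfold zeroCount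
  have hfm : ∀ U : Set ℂ, MeromorphicOn f U := fun U x _ =>
    (hf.analyticAt x).meromorphicAt
  have hgd : Differentiable ℂ fun z => k * f (a * z + b) := by
    refine Differentiable.const_mul ?_ k
    exact hf.comp ((differentiable_id.const_mul a).add_const b)
  have hgm : ∀ U : Set ℂ, MeromorphicOn (fun z => k * f (a * z + b)) U := fun U x _ =>
    (hgd.analyticAt x).meromorphicAt
  let e : ℂ ≃ ℂ := (Equiv.mulLeft₀ a ha).trans (Equiv.addRight b)
  have he : ∀ u, e u = a * u + b := fun u => rfl
  rw [← finsum_comp_equiv (f := fun u =>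
    MeromorphicOn.divisor f (closedBall (a * w + b) (‖a‖ * r)) u) e]
  refine finsum_congr fun u => ?_
  rw [he, MeromorphicOn.divisor_def, MeromorphicOn.divisor_def]
  have hmem : (a * u + b ∈ closedBall (a * w + b) (‖a‖ * r)) ↔ u ∈ closedBall w r := by
    rw [mem_closedBall, mem_closedBall, dist_add_right, dist_eq_norm, dist_eq_norm, ← mul_sub,
      norm_mul]
    exact mul_le_mul_iff_of_pos_left (norm_pos_iff.2 ha)
  have hord : meromorphicOrderAt (fun z => k * f (a * z + b)) u =
      meromorphicOrderAt f (a * u + b) := by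
    have h1 : (fun z => k * f (a * z + b)) = (fun _ : ℂ => k) • (f ∘ fun z => a * z + b) := rfl
    rw [h1, meromorphicOrderAt_smul_of_ne_zero analyticAt_const hk]
    refine meromorphicOrderAt_comp_of_deriv_ne_zero (g := fun z => a * z + b)
      (by fun_prop) ?_
    have : deriv (fun z : ℂ => a * z + b) u = a := by
      rw [deriv_add_const, deriv_const_mul _ differentiableAt_id]
      simp
    rwa [this]
  by_cases hu : u ∈ closedBall w r
  · rw [if_pos ⟨hgm _, hu⟩, if_pos ⟨hfm _, hmem.2 hu⟩, hord]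
  · rw [if_neg fun h => hu h.2, if_neg fun h => hu (hmem.1 h.2)]

theorem zeroCount_H (t : ℝ) (w : ℂ) (r : ℝ) :
    zeroCount (H t) w r = zeroCount (flow t) (1 / 2 + I * w / 2) (r / 2) := by
  have h1 : H t = fun z => (1 / 8 : ℂ) * flow t (I / 2 * z + 1 / 2) := by
    funext z
    rw [H_eq_flow]
    have : (1 / 2 + I * z / 2 : ℂ) = I / 2 * z + 1 / 2 := by ring
    rw [this]
    ring
  rw [h1, zeroCount_affine (differentiable_flow t) (by simp) (by norm_num)]
  have h2 : (I / 2 * w + 1 / 2 : ℂ) = 1 / 2 + I * w / 2 := by ring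
  have h3 : ‖(I / 2 : ℂ)‖ * r = r / 2 := by
    rw [norm_div, Complex.norm_I]
    simp
    ring
  rw [h2, h3]

/-- Z0 -/
theorem few_iff (c : ℝ) : FewZeros c ↔ FewFlow c := by
  constructor
  · intro h w r hr hw η hη
    obtain ⟨T₀, h1⟩ := h (-(2 * I * w)) (2 * r) (by positivity) (by
      have : (-(2 * I * w)).im = -(2 * w.re) := by simp
      rw [this, abs_neg, abs_mul, abs_two]
      linarith) η hη
    refine ⟨T₀, fun T hT => ?_⟩
    have h2 := h1 T hT
    rw [zeroCount_H] at h2
    have h3 : (1 / 2 + I * (2 * T + -(2 * I * w)) / 2 : ℂ) = 1 / 2 + T * I + w := by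
      linear_combination (-w) * Complex.I_sq
    have h4 : 2 * r / 2 = r := by ring
    rwa [h3, h4] at h2
  · intro h w r hr hw η hη
    obtain ⟨T₀, h1⟩ := h (I * w / 2) (r / 2) (by positivity) (by
      have : (I * w / 2).re = -(w.im / 2) := by
        have : (I * w / 2 : ℂ) = (I * w) * ((1 / 2 : ℝ) : ℂ) := by push_cast; ring
        rw [this, Complex.re_mul_ofReal]
        simp
        ring
      rw [this, abs_neg, abs_div, abs_two]
      linarith) η hη
    refine ⟨T₀, fun T hT => ?_⟩
    have h2 := h1 T hT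
    rw [zeroCount_H]
    have h3 : (1 / 2 + I * (2 * T + w) / 2 : ℂ) = 1 / 2 + T * I + I * w / 2 := by ring
    rwa [h3]

end Pool.Agent.DBN
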