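import Pool.Agent.DBN.ZFlow
import Pool.Agent.DBN.Vert

/-!
# Symmetries of the flow
-/

set_option autoImplicit false

namespace Pool.Agent.DBN

open Complex MeasureTheory

/-- ZS -/
theorem flow_one_sub (t : ℝ) (s : ℂ) : flow t (1 - s) = flow t s := by
  unfold flow
  congr 1
  rw [← integral_neg_eq_self (fun u : ℝ => (Real.exp (-u ^ 2) : ℂ) *
    xi (1 - s + (√t + √(-t) * I) * u))]
  apply integral_congr_ae
  refine Filter.Eventually.of_forall fun u => ?_
  dsimp only
  rw [← xi_one_sub (s + (√t + √(-t) * I) * u)]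
  have h1 : (1 - s + (√t + √(-t) * I) * ((-u : ℝ) : ℂ) : ℂ) =
      1 - (s + (√t + √(-t) * I) * u) := by
    push_cast
    ring
  have h2 : (-(-u) ^ 2 : ℝ) = -u ^ 2 := by ring
  rw [h1, h2]

theorem flow_conj (t : ℝ) (s : ℂ) :
    flow t ((starRingEnd ℂ) s) = (starRingEnd ℂ) (flow t s) := by
  have hc : ∀ u : ℝ, (starRingEnd ℂ) ((Real.exp (-u ^ 2) : ℂ) *
      xi (s + (√t + √(-t) * I) * u)) = (Real.exp (-u ^ 2) : ℂ) *
      xi ((starRingEnd ℂ) s + (√t - √(-t) * I) * u) := by
    intro u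
    rw [map_mul, Complex.conj_ofReal, ← xi_conj]
    congr 2
    simp only [map_add, map_mul, Complex.conj_ofReal, Complex.conj_I]
    ring
  unfold flow
  rw [map_mul, ← integral_conj, map_inv₀, Complex.conj_ofReal]
  congr 1
  simp only [hc]
  rcases le_total 0 t with ht | ht
  · have h0 : √(-t) = 0 := Real.sqrt_eq_zero_of_nonpos (by linarith)
    simp [h0]
  · have h0 : √t = 0 := Real.sqrt_eq_zero_of_nonpos ht
    rw [← integral_neg_eq_self (fun u : ℝ => (Real.exp (-u ^ 2) : ℂ) *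
      xi ((starRingEnd ℂ) s + (√t + √(-t) * I) * u))]
    apply integral_congr_ae
    refine Filter.Eventually.of_forall fun u => ?_
    dsimp only
    have h2 : (-(-u) ^ 2 : ℝ) = -u ^ 2 := by ring
    rw [h2]
    congr 2
    rw [h0]
    push_cast
    ring

theorem norm_flow_conj (t : ℝ) (s : ℂ) : ‖flow t ((starRingEnd ℂ) s)‖ = ‖flow t s‖ := by
  rw [flow_conj, Complex.norm_conj]

theorem norm_flow_neg_conj (t T : ℝ) (w : ℂ) :
    ‖flow t (1 / 2 + T * I + -((starRingEnd ℂ) w))‖ = ‖flow t (1 / 2 + T * I + w)‖ := by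
  have h1 : (1 / 2 + T * I + -((starRingEnd ℂ) w) : ℂ) =
      1 - (starRingEnd ℂ) (1 / 2 + T * I + w) := by
    apply Complex.ext
    · simp
      ring
    · simp
      ring
  rw [h1, flow_one_sub, norm_flow_conj]

end Pool.Agent.DBN
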