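import Pool.Agent.DBN.ZFlow
import Pool.Agent.DBN.ZS
import Pool.Agent.DBN.FlowReg
import Pool.Agent.DBN.Far
import Pool.Agent.SPZ.S2
import Pool.Agent.SPZ.S7

/-!
# Few zeros of the flow away from the critical line (Jensen)
-/

set_option autoImplicit false

namespace Pool.Agent.DBN

open Complex MeasureTheory Set Metric Filter Topology

namespace ZC1Aux

open Pool.Agent.LHW (Up)

/-- The Jensen step: `σ = 1` or `σ = -1`. -/
lemma jensen {t l b₀ T r ρ R b : ℝ} {w₀ w₁ : ℂ} (hρ : 0 < ρ) (hR : ρ < R) (hb : 0 ≤ b)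
    (hT : ‖w₁‖ + R + 2 < T)
    (hup : ∀ w ∈ closedBall w₁ R, ‖flow t (1 / 2 + T * I + w)‖ *
      Real.exp (l * (1 / 2 + w.re - b₀)) ≤ Real.exp b)
    (hlow : Real.exp (-b) ≤ ‖flow t (1 / 2 + T * I + w₁)‖ *
      Real.exp (l * (1 / 2 + w₁.re - b₀)))
    (hsub : closedBall w₀ r ⊆ closedBall w₁ ρ) :
    (zeroCount (flow t) (1 / 2 + T * I + w₀) r : ℝ) ≤ 2 * b / Real.log (R / ρ) := by
  set s₁ : ℂ := 1 / 2 + T * I + w₁ with hs₁
  set f : ℂ → ℂ := fun s => flow t s * cexp (l * (s - (b₀ : ℂ))) with hf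
  have hfl : Differentiable ℂ (flow t) := differentiable_flow t
  have hfd : Differentiable ℂ f := by
    intro z
    exact (hfl z).mul (by fun_prop)
  have hnorm : ∀ w : ℂ, ‖f (1 / 2 + T * I + w)‖ = ‖flow t (1 / 2 + T * I + w)‖ *
      Real.exp (l * (1 / 2 + w.re - b₀)) := by
    intro w
    rw [hf]
    simp only
    rw [norm_mul, Complex.norm_exp]
    congr 2
    simp
  have him : 1 < s₁.im - R := by
    have h1 : -‖w₁‖ ≤ w₁.im := by
      have := Complex.abs_im_le_norm w₁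
      have := abs_le.mp this
      linarith
    have h2 : s₁.im = T + w₁.im := by rw [hs₁]; simp
    rw [h2]; linarith
  have hz : ∀ z ∈ closedBall s₁ R, ‖f z‖ ≤ Real.exp b := by
    intro z hz
    have h1 : z = 1 / 2 + T * I + (z - (1 / 2 + T * I)) := by ring
    rw [h1, hnorm]
    apply hup
    rw [mem_closedBall, dist_eq_norm] at hz ⊢
    have h2 : z - (1 / 2 + T * I) - w₁ = z - s₁ := by rw [hs₁]; ring
    rw [h2]; exact hz
  have hl1 : Real.exp (-b) ≤ ‖f s₁‖ := by rw [hs₁, hnorm]; exact hlow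
  have hne : f s₁ ≠ 0 := by
    intro h
    rw [h, norm_zero] at hl1
    exact absurd (Real.exp_pos (-b)) (not_lt.mpr hl1)
  have hne' : flow t s₁ ≠ 0 := by
    intro h
    apply hne
    rw [hf]; simp [h]
  have hUp : s₁ ∈ Up := by
    show 1 < s₁.im
    have : 0 < R := hρ.trans hR
    linarith
  have hj := Pool.Agent.SPZ.s7.1 f s₁ ρ R b hρ hR hb him hfd.differentiableOn hz hl1
  have hρim : 1 < s₁.im - ρ := by linarith
  have hc := Pool.Agent.SPZ.s7.2.2 (flow t) s₁ (b₀ : ℂ) ρ l hfl.differentiableOn hρim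
  have hm := (Pool.Agent.SPZ.s2 (flow t) hfl.differentiableOn ⟨s₁, hUp, hne'⟩).2 s₁
    (1 / 2 + T * I + w₀) r ρ hρim (by
      intro z hz
      have h3 : z - (1 / 2 + T * I) ∈ closedBall w₀ r := by
        rw [mem_closedBall, dist_eq_norm] at hz ⊢
        have : z - (1 / 2 + T * I) - w₀ = z - (1 / 2 + T * I + w₀) := by ring
        rw [this]; exact hz
      have h4 := hsub h3
      rw [mem_closedBall, dist_eq_norm] at h4 ⊢
      have : z - (1 / 2 + T * I) - w₁ = z - s₁ := by rw [hs₁]; ring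
      rw [this] at h4; exact h4)
  have h5 : (zeroCount (flow t) (1 / 2 + T * I + w₀) r : ℝ) ≤
      (Pool.Agent.SPZ.zeros (flow t) s₁ ρ : ℝ) := by exact_mod_cast hm
  rw [← hc] at h5
  exact h5.trans hj

/-- The main step for one sign `τ`. -/
lemma step {c : ℝ} (h : FlowLe c univ fun x => |x| / 2 + c / 16) {w : ℂ} {r τ R δ ε : ℝ}
    (hτ : τ = 1 ∨ τ = -1) (hτw : τ * w.re = r + 8 * δ) (hr : 0 < r) (hδ : 0 < δ) (hε : 0 < ε)
    (hR : r + 8 * δ + w.im ^ 2 / δ + 1 ≤ R) :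
    ∃ T₀ : ℝ, 2 ≤ T₀ ∧ ∀ T : ℝ, T₀ ≤ T → ∀ w₁ : ℂ, ‖w₁ - ((τ * R : ℝ) : ℂ)‖ ≤ δ / 2 →
      size T * T ^ (τ * w₁.re / 2 + c / 16 - ε) ≤
        ‖flow (c / Real.log T) (1 / 2 + T * I + w₁)‖ →
      (zeroCount (flow (c / Real.log T)) (1 / 2 + T * I + w) r : ℝ) ≤
        2 * (3 * ε * Real.log T) / Real.log ((R - δ) / (R - 3 * δ)) := by
  have hyd : 0 ≤ w.im ^ 2 / δ := by positivity
  have hτ2 : τ * τ = 1 := by rcases hτ with h | h <;> rw [h] <;> norm_num
  have hτa : |τ| = 1 := by rcases hτ with h | h <;> rw [h] <;> simp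
  have hR0 : 0 < R := by nlinarith
  have hRd : 8 * δ + 1 < R := by linarith
  set W : ℝ := 2 * R with hW
  have hW0 : 0 < W := by rw [hW]; linarith
  obtain ⟨C, T₁, hC0, hT₁, hup⟩ := h ε (ε / W ^ 2) hε (by positivity)
  -- `C ≤ T ^ ε` for large `T`
  obtain ⟨T₂, hT₂⟩ : ∃ T₂ : ℝ, ∀ T : ℝ, T₂ ≤ T → C ≤ T ^ ε := by
    have := (tendsto_rpow_atTop hε).eventually_ge_atTop C
    exact (eventually_atTop.mp this)
  refine ⟨max (max T₁ T₂) (3 * R + 5), le_max_of_le_left (le_max_of_le_left hT₁), ?_⟩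
  intro T hT w₁ hw₁ hlo
  have hT1 : T₁ ≤ T := (le_max_left _ _).trans ((le_max_left _ _).trans hT)
  have hT2 : T₂ ≤ T := (le_max_right _ _).trans ((le_max_left _ _).trans hT)
  have hT3 : 3 * R + 5 ≤ T := (le_max_right _ _).trans hT
  have hTpos : 0 < T := by linarith
  have hLpos : 0 < Real.log T := Real.log_pos (by linarith)
  set L := Real.log T with hL
  have hsz := size_pos hTpos
  have hpow : ∀ y : ℝ, T ^ y = Real.exp (L * y) := fun y => Real.rpow_def_of_pos hTpos y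
  set b₀ : ℝ := 1 / 2 - 2 * τ / L * (c * L / 16 + Real.log (size T)) with hb₀
  have hexp : ∀ x : ℝ, Real.exp (-(τ * L / 2) * (1 / 2 + x - b₀)) =
      Real.exp (-(τ * L * x / 2) - c * L / 16) * (size T)⁻¹ := by
    intro x
    have e : -(τ * L / 2) * (1 / 2 + x - b₀) =
        (-(τ * L * x / 2) - c * L / 16) + -Real.log (size T) := by
      have hLne : L ≠ 0 := hLpos.ne'
      rw [hb₀]
      field_simp
      linear_combination (-(c * L * 4 + 64 * Real.log (size T))) * hτ2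
    rw [e, Real.exp_add, Real.exp_neg, Real.exp_log hsz]
  have hw1n : ‖w₁‖ ≤ R + δ / 2 := by
    have h1 : w₁ = (w₁ - ((τ * R : ℝ) : ℂ)) + ((τ * R : ℝ) : ℂ) := by ring
    have h2 : ‖((τ * R : ℝ) : ℂ)‖ = R := by
      rw [Complex.norm_real, Real.norm_eq_abs, abs_mul, hτa, one_mul, abs_of_pos hR0]
    rw [h1]
    refine (norm_add_le _ _).trans ?_
    rw [h2]; linarith
  have hre : |τ * w₁.re - R| ≤ δ / 2 := by
    have h1 : τ * w₁.re - R = τ * (w₁ - ((τ * R : ℝ) : ℂ)).re := by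
      rw [Complex.sub_re, Complex.ofReal_re]
      linear_combination R * hτ2
    rw [h1, abs_mul, hτa, one_mul]
    exact (Complex.abs_re_le_norm _).trans hw₁
  refine jensen (t := c / L) (l := -(τ * L / 2)) (b₀ := b₀) (T := T) (r := r)
    (ρ := R - 3 * δ) (R := R - δ) (b := 3 * ε * L) (w₀ := w) (w₁ := w₁) (by linarith)
    (by linarith) (by positivity) (by linarith) ?_ ?_ ?_
  · intro z hz
    have hzn : ‖z‖ ≤ W := by
      have h1 : z = (z - w₁) + w₁ := by ring
      rw [mem_closedBall, dist_eq_norm] at hz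
      rw [h1]
      refine (norm_add_le _ _).trans ?_
      rw [hW]; linarith
    have hzre : 0 < τ * z.re := by
      have h1 : |τ * z.re - τ * w₁.re| ≤ R - δ := by
        rw [← mul_sub, abs_mul, hτa, one_mul, ← Complex.sub_re]
        rw [mem_closedBall, dist_eq_norm] at hz
        exact (Complex.abs_re_le_norm _).trans hz
      have h2 := (abs_le.mp h1).1
      have h3 := (abs_le.mp hre).1
      linarith
    have habs : |z.re| = τ * z.re := by
      rw [← abs_of_pos hzre, abs_mul, hτa, one_mul]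
    have h1 := hup T z hT1 (mem_univ _)
    rw [hexp]
    have h2 : ‖flow (c / L) (1 / 2 + T * I + z)‖ ≤
        T ^ ε * size T * T ^ (τ * z.re / 2 + c / 16 + ε) * T ^ ε := by
      refine h1.trans ?_
      simp only [habs]
      have h3 : Real.exp (ε / W ^ 2 * ‖z‖ ^ 2 * L) ≤ T ^ ε := by
        rw [hpow]
        apply Real.exp_le_exp.mpr
        have h4 : ‖z‖ ^ 2 ≤ W ^ 2 := pow_le_pow_left₀ (norm_nonneg _) hzn 2
        have h5 : ε / W ^ 2 * ‖z‖ ^ 2 ≤ ε := by
          calc ε / W ^ 2 * ‖z‖ ^ 2 ≤ ε / W ^ 2 * W ^ 2 :=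
                mul_le_mul_of_nonneg_left h4 (by positivity)
            _ = ε := by field_simp
        nlinarith
      have h6 : 0 ≤ T ^ (τ * z.re / 2 + c / 16 + ε) := Real.rpow_nonneg hTpos.le _
      have h7 := hT₂ T hT2
      have h8 : C * size T * T ^ (τ * z.re / 2 + c / 16 + ε) ≤
          T ^ ε * size T * T ^ (τ * z.re / 2 + c / 16 + ε) :=
        mul_le_mul_of_nonneg_right (mul_le_mul_of_nonneg_right h7 hsz.le) h6
      exact mul_le_mul h8 h3 (Real.exp_pos _).le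
        (mul_nonneg (mul_nonneg (Real.rpow_nonneg hTpos.le _) hsz.le) h6)
    have h9 : 0 ≤ Real.exp (-(τ * L * z.re / 2) - c * L / 16) * (size T)⁻¹ := by positivity
    refine (mul_le_mul_of_nonneg_right h2 h9).trans (le_of_eq ?_)
    rw [hpow, hpow]
    have e1 : Real.exp (L * ε) * size T * Real.exp (L * (τ * z.re / 2 + c / 16 + ε)) *
        Real.exp (L * ε) * (Real.exp (-(τ * L * z.re / 2) - c * L / 16) * (size T)⁻¹) =
        Real.exp (L * ε) * Real.exp (L * (τ * z.re / 2 + c / 16 + ε)) *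
        Real.exp (L * ε) * Real.exp (-(τ * L * z.re / 2) - c * L / 16) := by
      field_simp
    rw [e1, ← Real.exp_add, ← Real.exp_add, ← Real.exp_add]
    congr 1
    ring
  · rw [hexp]
    have h9 : 0 ≤ Real.exp (-(τ * L * w₁.re / 2) - c * L / 16) * (size T)⁻¹ := by positivity
    refine le_trans ?_ (mul_le_mul_of_nonneg_right hlo h9)
    rw [hpow]
    have e1 : size T * Real.exp (L * (τ * w₁.re / 2 + c / 16 - ε)) *
        (Real.exp (-(τ * L * w₁.re / 2) - c * L / 16) * (size T)⁻¹) =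
        Real.exp (L * (τ * w₁.re / 2 + c / 16 - ε)) *
        Real.exp (-(τ * L * w₁.re / 2) - c * L / 16) := by
      field_simp
    rw [e1, ← Real.exp_add]
    apply Real.exp_le_exp.mpr
    have : 0 < ε * L := by positivity
    nlinarith
  · intro z hz
    rw [mem_closedBall, dist_eq_norm] at hz ⊢
    have h1 : ‖w - ((τ * R : ℝ) : ℂ)‖ ≤ R - r - 8 * δ + 9 / 2 * δ := by
      have h2 : ‖w - ((τ * R : ℝ) : ℂ)‖ ^ 2 = (R - (r + 8 * δ)) ^ 2 + w.im ^ 2 := by
        rw [← Complex.normSq_eq_norm_sq, Complex.normSq_apply]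
        simp only [Complex.sub_re, Complex.ofReal_re, Complex.sub_im, Complex.ofReal_im, sub_zero]
        rw [← hτw]
        linear_combination (R * R - w.re * w.re) * hτ2
      have h3 : 0 ≤ R - r - 8 * δ + 9 / 2 * δ := by linarith
      refine abs_le_of_sq_le_sq' ?_ h3 |>.2
      rw [h2]
      have h4 : w.im ^ 2 / δ ≤ R - (r + 8 * δ) - 1 := by linarith
      have h5 : w.im ^ 2 ≤ (R - (r + 8 * δ) - 1) * δ := by
        rwa [div_le_iff₀ hδ] at h4
      nlinarith [sq_nonneg δ]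
    have h2 : z - w₁ = (z - w) + (w - ((τ * R : ℝ) : ℂ)) - (w₁ - ((τ * R : ℝ) : ℂ)) := by ring
    rw [h2]
    refine (norm_sub_le _ _).trans ?_
    have h3 := norm_add_le (z - w) (w - ((τ * R : ℝ) : ℂ))
    linarith

end ZC1Aux

/-- C1 -/
theorem few_of_flow {c : ℝ} (h : FlowLe c univ fun x => |x| / 2 + c / 16)
    (hl : ∀ K : ℝ, ∃ R : ℝ, K ≤ R ∧ Low c R) : FewFlow c := by
  intro w r hr hrw η hη
  obtain ⟨τ, hτ, hτw⟩ : ∃ τ : ℝ, (τ = 1 ∨ τ = -1) ∧ τ * w.re = |w.re| := by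
    rcases le_total 0 w.re with h0 | h0
    · exact ⟨1, Or.inl rfl, by rw [abs_of_nonneg h0, one_mul]⟩
    · exact ⟨-1, Or.inr rfl, by rw [abs_of_nonpos h0]; ring⟩
  set δ : ℝ := (|w.re| - r) / 8 with hδ
  have hδ0 : 0 < δ := by rw [hδ]; linarith
  have hτw' : τ * w.re = r + 8 * δ := by rw [hτw, hδ]; ring
  obtain ⟨R, hR, hlow⟩ := hl (r + 8 * δ + w.im ^ 2 / δ + 1)
  have hyd : 0 ≤ w.im ^ 2 / δ := by positivity
  have hq : 1 < (R - δ) / (R - 3 * δ) := by
    rw [one_lt_div (by linarith)]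
    linarith
  have hq0 : 0 < Real.log ((R - δ) / (R - 3 * δ)) := Real.log_pos hq
  set q := Real.log ((R - δ) / (R - 3 * δ)) with hqd
  set ε : ℝ := η * q / 6 with hε
  have hε0 : 0 < ε := by positivity
  obtain ⟨T₁, hT₁, hst⟩ := ZC1Aux.step h hτ hτw' hr hδ0 hε0 hR
  obtain ⟨T₂, hT₂, hlo⟩ := hlow (δ / 2) ε (by positivity) hε0
  refine ⟨max T₁ T₂, fun T hT => ?_⟩
  have hT1 : T₁ ≤ T := (le_max_left _ _).trans hT
  have hT2 : T₂ ≤ T := (le_max_right _ _).trans hT
  obtain ⟨v, hv1, hv2⟩ := hlo T 0 hT2 (by simp)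
  have hfin : (zeroCount (flow (c / Real.log T)) (1 / 2 + T * I + w) r : ℝ) ≤
      2 * (3 * ε * Real.log T) / q := by
    rcases hτ with h1 | h1
    · refine hst T hT1 v ?_ ?_
      · rw [h1, one_mul]
        simpa using hv1
      · rw [h1, one_mul]
        exact hv2
    · refine hst T hT1 (-(starRingEnd ℂ) v) ?_ ?_
      · rw [h1]
        have e : -(starRingEnd ℂ) v - ((-1 * R : ℝ) : ℂ) = -(starRingEnd ℂ) (v - R) := by
          simp only [map_sub, Complex.conj_ofReal]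
          push_cast
          ring
        rw [e, norm_neg, Complex.norm_conj]
        simpa using hv1
      · rw [norm_flow_neg_conj, h1]
        have e : -1 * (-(starRingEnd ℂ) v).re / 2 = v.re / 2 := by
          simp
        rw [e]
        exact hv2
  refine hfin.trans (le_of_eq ?_)
  rw [hε]
  field_simp
  ring

end Pool.Agent.DBN
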