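import Pool.Agent.DBN.Down2

/-!
# Global bounds for `xi` and for the vertical averages
-/

set_option autoImplicit false

namespace Pool.Agent.DBN

open Complex MeasureTheory Set Filter Topology

/-- global bound with an arbitrarily small Gaussian -/
theorem xi_glob {κ : ℝ} (hκ : 0 < κ) : ∃ C K : ℝ, 0 ≤ C ∧ 0 ≤ K ∧
    ∀ (T : ℝ) (w : ℂ), 2 ≤ T → ‖xi (1 / 2 + T * I + w)‖ ≤
      C * size T * T ^ K * Real.exp (κ * ‖w‖ ^ 2 * Real.log T) := by
  obtain ⟨R, C₁, hR, hC₁, h1⟩ := xi_far (c := 1 / (2 * κ)) (by positivity) 0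
  obtain ⟨C₂, K₂, hC₂, hK₂, h2⟩ := xi_crude
  set D : ℝ := C₂ * (3 + R) ^ (K₂ * R + K₂) with hD
  have hD0 : 0 ≤ D := by positivity
  refine ⟨C₁ + D, R / 2 + K₂, by positivity, by positivity, fun T w hT => ?_⟩
  have hT0 : 0 < T := by linarith
  have hs := size_pos hT0
  have hL : 0 ≤ Real.log T := Real.log_nonneg (by linarith)
  have hTK : 1 ≤ T ^ (R / 2 + K₂) := Real.one_le_rpow (by linarith) (by positivity)
  rcases le_total R ‖w‖ with hw | hw
  · have h3 := h1 T w hT hw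
    rw [neg_zero, Real.rpow_zero, mul_one] at h3
    have e : ‖w‖ ^ 2 * Real.log T / (2 * (1 / (2 * κ))) = κ * ‖w‖ ^ 2 * Real.log T := by
      field_simp
    rw [e] at h3
    calc ‖xi (1 / 2 + T * I + w)‖ ≤ C₁ * size T * Real.exp (κ * ‖w‖ ^ 2 * Real.log T) := h3
      _ = C₁ * size T * 1 * Real.exp (κ * ‖w‖ ^ 2 * Real.log T) := by ring
      _ ≤ (C₁ + D) * size T * T ^ (R / 2 + K₂) * Real.exp (κ * ‖w‖ ^ 2 * Real.log T) := by
        gcongr
        linarith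
  · have h3 := h2 T hT w
    have h4 : T ^ (‖w‖ / 2 + K₂) ≤ T ^ (R / 2 + K₂) :=
      Real.rpow_le_rpow_of_exponent_le (by linarith) (by linarith)
    have h5 : (3 + ‖w‖) ^ (K₂ * ‖w‖ + K₂) ≤ (3 + R) ^ (K₂ * R + K₂) := by
      have hw0 := norm_nonneg w
      calc (3 + ‖w‖) ^ (K₂ * ‖w‖ + K₂) ≤ (3 + R) ^ (K₂ * ‖w‖ + K₂) :=
            Real.rpow_le_rpow (by positivity) (by linarith) (by positivity)
        _ ≤ (3 + R) ^ (K₂ * R + K₂) :=
            Real.rpow_le_rpow_of_exponent_le (by linarith) (by gcongr)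
    have h6 : 1 ≤ Real.exp (κ * ‖w‖ ^ 2 * Real.log T) := Real.one_le_exp (by positivity)
    calc ‖xi (1 / 2 + T * I + w)‖
        ≤ C₂ * size T * T ^ (‖w‖ / 2 + K₂) * (3 + ‖w‖) ^ (K₂ * ‖w‖ + K₂) := h3
      _ ≤ C₂ * size T * T ^ (R / 2 + K₂) * (3 + R) ^ (K₂ * R + K₂) := by gcongr
      _ = D * size T * T ^ (R / 2 + K₂) * 1 := by rw [hD]; ring
      _ ≤ (C₁ + D) * size T * T ^ (R / 2 + K₂) * Real.exp (κ * ‖w‖ ^ 2 * Real.log T) := by
        gcongr
        linarith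

/-- vertical averages -/
lemma norm_flow_neg_le {t : ℝ} (ht : t < 0) (s : ℂ) {B : ℝ}
    (h : ∀ u : ℝ, ‖xi (s + (√(-t) * u : ℝ) * I)‖ ≤ B * Real.exp (u ^ 2 / 2)) :
    ‖flow t s‖ ≤ B * √2 := by
  have h1 : ∀ u : ℝ, ‖(Real.exp (-u ^ 2) : ℂ) * xi (s + (√t + √(-t) * I) * u)‖ ≤
      B * Real.exp (-(1 / 2) * u ^ 2) := by
    intro u
    have e0 : √t = 0 := Real.sqrt_eq_zero_of_nonpos ht.le
    have e1 : s + (√t + √(-t) * I) * u = s + (√(-t) * u : ℝ) * I := by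
      rw [e0]; push_cast; ring
    rw [e1, norm_mul, Complex.norm_real, Real.norm_of_nonneg (Real.exp_pos _).le]
    calc Real.exp (-u ^ 2) * ‖xi (s + (√(-t) * u : ℝ) * I)‖
        ≤ Real.exp (-u ^ 2) * (B * Real.exp (u ^ 2 / 2)) := by gcongr; exact h u
      _ = B * (Real.exp (-u ^ 2) * Real.exp (u ^ 2 / 2)) := by ring
      _ = B * Real.exp (-(1 / 2) * u ^ 2) := by
        rw [← Real.exp_add]; congr 2; ring
  have h2 := norm_gauss_le (by norm_num : (0 : ℝ) < 1 / 2) h1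
  unfold flow
  rw [norm_mul, norm_inv, Complex.norm_real, Real.norm_of_nonneg (Real.sqrt_nonneg _)]
  have h3 : √(Real.pi / (1 / 2)) = √Real.pi * √2 := by
    rw [← Real.sqrt_mul Real.pi_pos.le]; congr 1; ring
  rw [h3] at h2
  have h4 : 0 < √Real.pi := Real.sqrt_pos.mpr Real.pi_pos
  calc (√Real.pi)⁻¹ * ‖∫ u : ℝ, (Real.exp (-u ^ 2) : ℂ) * xi (s + (√t + √(-t) * I) * u)‖
      ≤ (√Real.pi)⁻¹ * (B * (√Real.pi * √2)) := by gcongr
    _ = B * √2 := by field_simp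

theorem flow_glob {c κ : ℝ} (hc : c < 0) (hκ : 0 < κ) : ∃ C K : ℝ, 0 ≤ C ∧ 0 ≤ K ∧
    ∀ (T : ℝ) (w : ℂ), 2 ≤ T → ‖flow (c / Real.log T) (1 / 2 + T * I + w)‖ ≤
      C * size T * T ^ K * Real.exp (κ * ‖w‖ ^ 2 * Real.log T) := by
  set κ₁ : ℝ := min (κ / 2) (1 / (4 * |c|)) with hκ₁
  have hc0 : 0 < |c| := abs_pos.mpr hc.ne
  have hκ₁0 : 0 < κ₁ := by rw [hκ₁]; positivity
  have hκ₁a : κ₁ ≤ κ / 2 := min_le_left _ _
  have hκ₁b : κ₁ * |c| ≤ 1 / 4 := by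
    calc κ₁ * |c| ≤ 1 / (4 * |c|) * |c| := by gcongr; exact min_le_right _ _
      _ = 1 / 4 := by field_simp
  obtain ⟨C, K, hC, hK, h⟩ := xi_glob hκ₁0
  refine ⟨C * √2, K, by positivity, hK, fun T w hT => ?_⟩
  have hT0 : 0 < T := by linarith
  have hs := size_pos hT0
  have hL : 0 < Real.log T := Real.log_pos (by linarith)
  have hr2 : √(-(c / Real.log T)) ^ 2 * Real.log T = |c| := by
    rw [Real.sq_sqrt (by rw [neg_nonneg]; exact div_nonpos_of_nonpos_of_nonneg hc.le hL.le),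
      abs_of_neg hc]
    field_simp
  have hflow := norm_flow_neg_le (t := c / Real.log T) (div_neg_of_neg_of_pos hc hL)
    (1 / 2 + T * I + w) (B := C * size T * T ^ K * Real.exp (κ * ‖w‖ ^ 2 * Real.log T)) (by
    intro u
    set r := √(-(c / Real.log T)) with hr
    have h1 := h T (w + (r * u : ℝ) * I) hT
    rw [← add_assoc] at h1
    refine h1.trans ?_
    have h2 : ‖w + (r * u : ℝ) * I‖ ^ 2 ≤ 2 * ‖w‖ ^ 2 + 2 * (r ^ 2 * u ^ 2) := by
      have h3 : ‖w + (r * u : ℝ) * I‖ ≤ ‖w‖ + |r * u| := by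
        refine (norm_add_le _ _).trans_eq ?_
        rw [norm_mul, Complex.norm_I, mul_one, Complex.norm_real, Real.norm_eq_abs]
      have h4 : ‖w + (r * u : ℝ) * I‖ ^ 2 ≤ (‖w‖ + |r * u|) ^ 2 := by gcongr
      nlinarith [sq_nonneg (‖w‖ - |r * u|), sq_abs (r * u)]
    have h5 : κ₁ * ‖w + (r * u : ℝ) * I‖ ^ 2 * Real.log T ≤
        κ * ‖w‖ ^ 2 * Real.log T + u ^ 2 / 2 := by
      calc κ₁ * ‖w + (r * u : ℝ) * I‖ ^ 2 * Real.log T
          ≤ κ₁ * (2 * ‖w‖ ^ 2 + 2 * (r ^ 2 * u ^ 2)) * Real.log T := by gcongr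
        _ = 2 * κ₁ * ‖w‖ ^ 2 * Real.log T + 2 * κ₁ * (r ^ 2 * Real.log T) * u ^ 2 := by ring
        _ = 2 * κ₁ * ‖w‖ ^ 2 * Real.log T + 2 * (κ₁ * |c|) * u ^ 2 := by rw [hr2]; ring
        _ ≤ 2 * (κ / 2) * ‖w‖ ^ 2 * Real.log T + 2 * (1 / 4) * u ^ 2 := by gcongr
        _ = _ := by ring
    calc C * size T * T ^ K * Real.exp (κ₁ * ‖w + (r * u : ℝ) * I‖ ^ 2 * Real.log T)
        ≤ C * size T * T ^ K * Real.exp (κ * ‖w‖ ^ 2 * Real.log T + u ^ 2 / 2) := by gcongr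
      _ = _ := by rw [Real.exp_add]; ring)
  refine hflow.trans_eq ?_
  ring

theorem flow_right {c : ℝ} (hc : c < 0) {R κ : ℝ} (hR : 1 ≤ R) (hκ : 0 < κ) : ∃ C T₀ : ℝ,
    0 ≤ C ∧ 2 ≤ T₀ ∧ ∀ T v : ℝ, T₀ ≤ T →
      ‖flow (c / Real.log T) (1 / 2 + T * I + R + v * I)‖ ≤
        C * size T * T ^ (R / 2) * Real.exp (κ * v ^ 2 * Real.log T) := by
  set κ₁ : ℝ := min (κ / 2) (1 / (4 * |c|)) with hκ₁
  have hc0 : 0 < |c| := abs_pos.mpr hc.ne
  have hκ₁0 : 0 < κ₁ := by rw [hκ₁]; positivity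
  have hκ₁a : κ₁ ≤ κ / 2 := min_le_left _ _
  have hκ₁b : κ₁ * |c| ≤ 1 / 4 := by
    calc κ₁ * |c| ≤ 1 / (4 * |c|) * |c| := by gcongr; exact min_le_right _ _
      _ = 1 / 4 := by field_simp
  obtain ⟨C₁, K, hC₁, hK, h1⟩ := xi_glob (κ := κ₁ / 2) (by positivity)
  obtain ⟨C₂, hC₂, h2⟩ := xi_two (1 / 2 + R)
  obtain ⟨C₃, hC₃, h3⟩ := Pool.Agent.Lib.ZetaConv.norm_zeta_le_of_re (δ := 1 / 2) (by norm_num)
  set U : ℝ := √(2 * (K + κ₁ * R ^ 2 / 2) / κ₁) with hU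
  have hU0 : 0 ≤ U := Real.sqrt_nonneg _
  have hU2 : κ₁ * U ^ 2 / 2 = K + κ₁ * R ^ 2 / 2 := by
    rw [hU, Real.sq_sqrt (by positivity)]
    field_simp
  set D : ℝ := C₂ * (2 ^ |R / 2| * (2 ^ (7 / 4 : ℝ) * Real.exp (Real.pi * U / 4)) * C₃) with hD
  have hD0 : 0 ≤ D := by positivity
  -- the pointwise bound
  have hpt : ∀ T w : ℝ, 2 * U + 4 ≤ T → ‖xi (1 / 2 + T * I + R + w * I)‖ ≤
      (C₁ + D) * size T * T ^ (R / 2) * Real.exp (κ₁ * w ^ 2 * Real.log T) := by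
    intro T w hT
    have hT2 : 2 ≤ T := by linarith
    have hT0 : 0 < T := by linarith
    have hs := size_pos hT0
    have hL : 0 ≤ Real.log T := Real.log_nonneg (by linarith)
    rcases le_total U |w| with hw | hw
    · have h4 := h1 T (R + w * I) hT2
      rw [← add_assoc] at h4
      refine h4.trans ?_
      have h5 : ‖(R + w * I : ℂ)‖ ^ 2 = R ^ 2 + w ^ 2 := by
        rw [← Complex.normSq_eq_norm_sq, Complex.normSq_apply]
        simp
        ring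
      rw [h5]
      have h6 : T ^ K * Real.exp (κ₁ / 2 * (R ^ 2 + w ^ 2) * Real.log T) ≤
          T ^ (R / 2) * Real.exp (κ₁ * w ^ 2 * Real.log T) := by
        rw [Real.rpow_def_of_pos hT0, Real.rpow_def_of_pos hT0, ← Real.exp_add, ← Real.exp_add,
          Real.exp_le_exp]
        have h7 : U ^ 2 ≤ w ^ 2 := by
          rw [← sq_abs w]; gcongr
        have h8 : K + κ₁ / 2 * (R ^ 2 + w ^ 2) ≤ R / 2 + κ₁ * w ^ 2 := by
          have h9 : κ₁ * U ^ 2 / 2 ≤ κ₁ * w ^ 2 / 2 := by gcongr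
          linarith
        calc Real.log T * K + κ₁ / 2 * (R ^ 2 + w ^ 2) * Real.log T
            = (K + κ₁ / 2 * (R ^ 2 + w ^ 2)) * Real.log T := by ring
          _ ≤ (R / 2 + κ₁ * w ^ 2) * Real.log T := by gcongr
          _ = _ := by ring
      calc C₁ * size T * T ^ K * Real.exp (κ₁ / 2 * (R ^ 2 + w ^ 2) * Real.log T)
          = C₁ * size T * (T ^ K * Real.exp (κ₁ / 2 * (R ^ 2 + w ^ 2) * Real.log T)) := by ring
        _ ≤ (C₁ + D) * size T * (T ^ (R / 2) * Real.exp (κ₁ * w ^ 2 * Real.log T)) := by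
          gcongr
          linarith
        _ = _ := by ring
    · have hw1 := abs_le.mp hw
      have hlow : T / 2 ≤ T + w := by linarith
      have hup : T + w ≤ 2 * T := by linarith
      have hT'2 : 2 ≤ T + w := by linarith
      have h4 := (h2 (1 / 2 + R) (T + w) (by rw [abs_of_nonneg (by linarith)]) hT'2).1
      have e1 : ((1 / 2 + R : ℝ) : ℂ) + ((T + w : ℝ) : ℂ) * I = 1 / 2 + T * I + R + w * I := by
        push_cast; ring
      have e2 : (1 / 2 + R - 1 / 2) / 2 = R / 2 := by ring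
      rw [e1, e2] at h4
      refine h4.trans ?_
      have h5 : ‖riemannZeta (1 / 2 + T * I + R + w * I)‖ ≤ C₃ := by
        refine h3 _ ?_
        simp
        linarith
      have h6 := rpow_shift_le hT0 hlow hup (R / 2)
      have h7 := size_shift_le (U := U) hT0 hlow hup (by simpa using hw)
      have h8 : 1 ≤ Real.exp (κ₁ * w ^ 2 * Real.log T) := Real.one_le_exp (by positivity)
      have hs' := size_pos (show 0 < T + w by linarith)
      calc C₂ * ((T + w) ^ (R / 2) * size (T + w) * ‖riemannZeta (1 / 2 + T * I + R + w * I)‖)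
          ≤ C₂ * (2 ^ |R / 2| * T ^ (R / 2) *
            (2 ^ (7 / 4 : ℝ) * Real.exp (Real.pi * U / 4) * size T) * C₃) := by gcongr
        _ = D * size T * T ^ (R / 2) * 1 := by rw [hD]; ring
        _ ≤ (C₁ + D) * size T * T ^ (R / 2) * Real.exp (κ₁ * w ^ 2 * Real.log T) := by
          gcongr
          linarith
  refine ⟨(C₁ + D) * √2, 2 * U + 4, by positivity, by linarith, fun T v hT => ?_⟩
  have hT0 : 0 < T := by linarith
  have hs := size_pos hT0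
  have hL : 0 < Real.log T := Real.log_pos (by linarith)
  have hr2 : √(-(c / Real.log T)) ^ 2 * Real.log T = |c| := by
    rw [Real.sq_sqrt (by rw [neg_nonneg]; exact div_nonpos_of_nonpos_of_nonneg hc.le hL.le),
      abs_of_neg hc]
    field_simp
  have hflow := norm_flow_neg_le (t := c / Real.log T) (div_neg_of_neg_of_pos hc hL)
    (1 / 2 + T * I + R + v * I)
    (B := (C₁ + D) * size T * T ^ (R / 2) * Real.exp (κ * v ^ 2 * Real.log T)) (by
    intro u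
    set r := √(-(c / Real.log T)) with hr
    have h4 := hpt T (v + r * u) hT
    have e1 : (1 / 2 + T * I + R + ((v + r * u : ℝ) : ℂ) * I : ℂ) =
        1 / 2 + T * I + R + v * I + (r * u : ℝ) * I := by push_cast; ring
    rw [e1] at h4
    refine h4.trans ?_
    have h5 : κ₁ * (v + r * u) ^ 2 * Real.log T ≤ κ * v ^ 2 * Real.log T + u ^ 2 / 2 := by
      have h6 : (v + r * u) ^ 2 ≤ 2 * v ^ 2 + 2 * (r ^ 2 * u ^ 2) := by
        nlinarith [sq_nonneg (v - r * u)]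
      calc κ₁ * (v + r * u) ^ 2 * Real.log T
          ≤ κ₁ * (2 * v ^ 2 + 2 * (r ^ 2 * u ^ 2)) * Real.log T := by gcongr
        _ = 2 * κ₁ * v ^ 2 * Real.log T + 2 * κ₁ * (r ^ 2 * Real.log T) * u ^ 2 := by ring
        _ = 2 * κ₁ * v ^ 2 * Real.log T + 2 * (κ₁ * |c|) * u ^ 2 := by rw [hr2]; ring
        _ ≤ 2 * (κ / 2) * v ^ 2 * Real.log T + 2 * (1 / 4) * u ^ 2 := by gcongr
        _ = _ := by ring
    calc (C₁ + D) * size T * T ^ (R / 2) * Real.exp (κ₁ * (v + r * u) ^ 2 * Real.log T)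
        ≤ (C₁ + D) * size T * T ^ (R / 2) * Real.exp (κ * v ^ 2 * Real.log T + u ^ 2 / 2) := by
          gcongr
      _ = _ := by rw [Real.exp_add]; ring)
  refine hflow.trans_eq ?_
  ring

end Pool.Agent.DBN
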