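import Pool.Agent.DBN.ZFlow
import Pool.Agent.DBN.Glob
import Pool.Agent.DBN.Contour

/-!
# Bounds for the flow at negative times, from bounds for `xi`
-/

set_option autoImplicit false

namespace Pool.Agent.DBN

open Complex MeasureTheory Set Filter Topology

/-- vertical averages, with the line of integration shifted to the left by `h` -/
lemma norm_flow_neg_shift {t : ℝ} (ht : t < 0) (s : ℂ) {h B : ℝ}
    (hB : ∀ u : ℝ, ‖xi (s - h + (√(-t) * u : ℝ) * I)‖ ≤ B * Real.exp (u ^ 2 / 2)) :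
    ‖flow t s‖ ≤ B * Real.exp (h ^ 2 / -t) * √2 := by
  have ht' : 0 < -t := by linarith
  set r := √(-t) with hr
  have hr0 : 0 < r := Real.sqrt_pos.mpr ht'
  have hr2 : r ^ 2 = -t := Real.sq_sqrt ht'.le
  set k : ℝ := h / r with hk
  have hkr : k * r = h := by rw [hk]; field_simp
  have hk2 : k ^ 2 = h ^ 2 / -t := by rw [hk, div_pow, hr2]
  set G : ℂ → ℂ := fun z => xi (s + (r * I) * z) with hG
  have hGd : Differentiable ℂ G := by
    have := differentiable_xi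
    simp only [hG]
    fun_prop
  have hGS : SubG G := subG_xi.affine s (r * I)
  have h1 := contour_aux hGd hGS (b := 1) one_pos k
  have e0 : √t = 0 := Real.sqrt_eq_zero_of_nonpos ht.le
  have e1 : flow t s = (√Real.pi : ℂ)⁻¹ *
      ∫ v : ℝ, exp (-(1 : ℝ) * ((v : ℂ) + k * I) ^ 2) * G (v + k * I) := by
    rw [h1]
    unfold flow
    congr 1
    refine integral_congr_ae (Eventually.of_forall fun v => ?_)
    simp only [hG, e0]
    push_cast
    congr 2
    · ring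
    · ring
  have h2 : ∀ v : ℝ, ‖exp (-(1 : ℝ) * ((v : ℂ) + k * I) ^ 2) * G (v + k * I)‖ ≤
      B * Real.exp (k ^ 2) * Real.exp (-(1 / 2) * v ^ 2) := by
    intro v
    have e2 : (-((1 : ℝ) : ℂ) * ((v : ℂ) + k * I) ^ 2).re = -v ^ 2 + k ^ 2 := by
      simp only [sq, Complex.neg_re, Complex.neg_im, Complex.mul_re, Complex.add_re,
        Complex.ofReal_re, Complex.I_re, Complex.add_im, Complex.ofReal_im, Complex.mul_im,
        Complex.I_im]
      ring
    have e3 : G (v + k * I) = xi (s - h + (r * v : ℝ) * I) := by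
      simp only [hG]
      congr 1
      rw [← hkr]
      push_cast
      linear_combination ((r : ℂ) * k) * Complex.I_sq
    rw [norm_mul, Complex.norm_exp, e2, e3]
    calc Real.exp (-v ^ 2 + k ^ 2) * ‖xi (s - h + (r * v : ℝ) * I)‖
        ≤ Real.exp (-v ^ 2 + k ^ 2) * (B * Real.exp (v ^ 2 / 2)) := by gcongr; exact hB v
      _ = B * (Real.exp (-v ^ 2 + k ^ 2) * Real.exp (v ^ 2 / 2)) := by ring
      _ = B * (Real.exp (k ^ 2) * Real.exp (-(1 / 2) * v ^ 2)) := by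
        rw [← Real.exp_add, ← Real.exp_add]; congr 2; ring
      _ = _ := by ring
  have h3 := norm_gauss_le (by norm_num : (0 : ℝ) < 1 / 2) h2
  rw [e1, norm_mul, norm_inv, Complex.norm_real, Real.norm_of_nonneg (Real.sqrt_nonneg _)]
  have h4 : √(Real.pi / (1 / 2)) = √Real.pi * √2 := by
    rw [← Real.sqrt_mul Real.pi_pos.le]; congr 1; ring
  rw [h4] at h3
  have h5 : 0 < √Real.pi := Real.sqrt_pos.mpr Real.pi_pos
  rw [← hk2]
  calc (√Real.pi)⁻¹ * ‖∫ v : ℝ, exp (-(1 : ℝ) * ((v : ℂ) + k * I) ^ 2) * G (v + k * I)‖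
      ≤ (√Real.pi)⁻¹ * (B * Real.exp (k ^ 2) * (√Real.pi * √2)) := by gcongr
    _ = B * Real.exp (k ^ 2) * √2 := by field_simp

/-- from a bound for `xi` to a bound for the flow at the time `c / log T`, `c < 0` -/
lemma flow_le_neg_aux {c : ℝ} (hc : c < 0) {m : ℝ → ℝ} (hX : XiLe m) {h : ℝ} (hh : 0 ≤ h)
    {S : Set ℝ} (hS : ∀ x ∈ S, h = 0 ∨ h ≤ x) {n : ℝ → ℝ}
    (hn : ∀ x ∈ S, m (x - h) + h ^ 2 / -c ≤ n x) : FlowLe c S n := by
  intro ε κ hε hκ
  set κ₁ : ℝ := min (κ / 2) (1 / (4 * |c|)) with hκ₁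
  have hc0 : 0 < |c| := abs_pos.mpr hc.ne
  have hκ₁0 : 0 < κ₁ := by rw [hκ₁]; positivity
  have hκ₁a : κ₁ ≤ κ / 2 := min_le_left _ _
  have hκ₁b : κ₁ * |c| ≤ 1 / 4 := by
    calc κ₁ * |c| ≤ 1 / (4 * |c|) * |c| := by gcongr; exact min_le_right _ _
      _ = 1 / 4 := by field_simp
  obtain ⟨C, hC, hb⟩ := hX ε κ₁ hε hκ₁0
  refine ⟨C * √2, 2, by positivity, le_rfl, fun T w hT hw => ?_⟩
  have hT0 : 0 < T := by linarith
  have hs := size_pos hT0
  have hL : 0 < Real.log T := Real.log_pos (by linarith)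
  have hr2 : √(-(c / Real.log T)) ^ 2 * Real.log T = |c| := by
    rw [Real.sq_sqrt (by rw [neg_nonneg]; exact div_nonpos_of_nonpos_of_nonneg hc.le hL.le),
      abs_of_neg hc]
    field_simp
  have hwh : ‖w - h‖ ≤ ‖w‖ := by
    have h1 : ‖w - h‖ ^ 2 ≤ ‖w‖ ^ 2 := by
      rw [← Complex.normSq_eq_norm_sq, ← Complex.normSq_eq_norm_sq, Complex.normSq_apply,
        Complex.normSq_apply]
      simp only [Complex.sub_re, Complex.ofReal_re, Complex.sub_im, Complex.ofReal_im, sub_zero]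
      rcases hS _ hw with h2 | h2
      · rw [h2]; simp
      · nlinarith
    exact le_of_sq_le_sq h1 (norm_nonneg _)
  have hflow := norm_flow_neg_shift (t := c / Real.log T) (div_neg_of_neg_of_pos hc hL)
    (1 / 2 + T * I + w) (h := h)
    (B := C * size T * T ^ (m (w.re - h) + ε) * Real.exp (κ * ‖w‖ ^ 2 * Real.log T)) (by
    intro u
    set r := √(-(c / Real.log T)) with hr
    have h1 := hb T (w - h + (r * u : ℝ) * I) hT
    have e1 : (1 / 2 + T * I + (w - h + (r * u : ℝ) * I) : ℂ) =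
        1 / 2 + T * I + w - h + (r * u : ℝ) * I := by ring
    have e2 : (w - h + (r * u : ℝ) * I).re = w.re - h := by simp
    rw [e1, e2] at h1
    refine h1.trans ?_
    have h2 : ‖w - h + (r * u : ℝ) * I‖ ^ 2 ≤ 2 * ‖w‖ ^ 2 + 2 * (r ^ 2 * u ^ 2) := by
      have h3 : ‖w - h + (r * u : ℝ) * I‖ ≤ ‖w‖ + |r * u| := by
        refine (norm_add_le _ _).trans ?_
        rw [norm_mul, Complex.norm_I, mul_one, Complex.norm_real, Real.norm_eq_abs]
        linarith
      have h4 : ‖w - h + (r * u : ℝ) * I‖ ^ 2 ≤ (‖w‖ + |r * u|) ^ 2 := by gcongr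
      nlinarith [sq_nonneg (‖w‖ - |r * u|), sq_abs (r * u)]
    have h5 : κ₁ * ‖w - h + (r * u : ℝ) * I‖ ^ 2 * Real.log T ≤
        κ * ‖w‖ ^ 2 * Real.log T + u ^ 2 / 2 := by
      calc κ₁ * ‖w - h + (r * u : ℝ) * I‖ ^ 2 * Real.log T
          ≤ κ₁ * (2 * ‖w‖ ^ 2 + 2 * (r ^ 2 * u ^ 2)) * Real.log T := by gcongr
        _ = 2 * κ₁ * ‖w‖ ^ 2 * Real.log T + 2 * κ₁ * (r ^ 2 * Real.log T) * u ^ 2 := by ring
        _ = 2 * κ₁ * ‖w‖ ^ 2 * Real.log T + 2 * (κ₁ * |c|) * u ^ 2 := by rw [hr2]; ring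
        _ ≤ 2 * (κ / 2) * ‖w‖ ^ 2 * Real.log T + 2 * (1 / 4) * u ^ 2 := by gcongr
        _ = _ := by ring
    calc C * size T * T ^ (m (w.re - h) + ε) *
          Real.exp (κ₁ * ‖w - h + (r * u : ℝ) * I‖ ^ 2 * Real.log T)
        ≤ C * size T * T ^ (m (w.re - h) + ε) *
          Real.exp (κ * ‖w‖ ^ 2 * Real.log T + u ^ 2 / 2) := by gcongr
      _ = _ := by rw [Real.exp_add]; ring)
  refine hflow.trans ?_
  have e3 : Real.exp (h ^ 2 / -(c / Real.log T)) = T ^ (h ^ 2 / -c) := by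
    rw [Real.rpow_def_of_pos hT0]
    congr 1
    have := hc.ne
    field_simp
  rw [e3]
  have h6 : T ^ (m (w.re - h) + ε) * T ^ (h ^ 2 / -c) ≤ T ^ (n w.re + ε) := by
    rw [← Real.rpow_add hT0]
    apply Real.rpow_le_rpow_of_exponent_le (by linarith)
    have := hn _ hw
    linarith
  calc C * size T * T ^ (m (w.re - h) + ε) * Real.exp (κ * ‖w‖ ^ 2 * Real.log T) *
        T ^ (h ^ 2 / -c) * √2
      = C * √2 * size T * (T ^ (m (w.re - h) + ε) * T ^ (h ^ 2 / -c)) *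
        Real.exp (κ * ‖w‖ ^ 2 * Real.log T) := by ring
    _ ≤ C * √2 * size T * T ^ (n w.re + ε) * Real.exp (κ * ‖w‖ ^ 2 * Real.log T) := by gcongr

/-- ZN -/
theorem flow_le_neg {c : ℝ} (hc : c < 0) (hX : XiLe fun x => max (|x| / 2) (1 / 4)) :
    (FlowLe c {x | 1 / 2 - c / 4 ≤ x} fun x => |x| / 2 + c / 16) ∧
      FlowLe c univ fun x => |x| / 2 + 1 / 4 := by
  constructor
  · refine flow_le_neg_aux hc hX (h := -c / 4) (by linarith) (fun x hx => Or.inr ?_)
      fun x hx => ?_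
    · have : 1 / 2 - c / 4 ≤ x := hx
      linarith
    · have hx' : 1 / 2 - c / 4 ≤ x := hx
      have h1 : 1 / 2 ≤ x - -c / 4 := by linarith
      have h2 : (-c / 4) ^ 2 / -c = -c / 16 := by
        have := hc.ne
        field_simp
        ring
      have h3 : max (|x - -c / 4| / 2) (1 / 4) = (x - -c / 4) / 2 := by
        rw [abs_of_nonneg (by linarith)]
        exact max_eq_left (by linarith)
      rw [h3, h2, abs_of_nonneg (by linarith : (0 : ℝ) ≤ x)]
      linarith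
  · refine flow_le_neg_aux hc hX (h := 0) le_rfl (fun x hx => Or.inl rfl) fun x hx => ?_
    simp only [sub_zero]
    have h1 : (0 : ℝ) ^ 2 / -c = 0 := by simp
    rw [h1, add_zero]
    have := abs_nonneg x
    exact max_le (by linarith) (by linarith)

end Pool.Agent.DBN
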