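import Pool.Agent.DBN.ZFlow
import Pool.Agent.DBN.Glob

/-!
# Bounds for `xi` near `1 / 2 + i T` with a Gaussian factor, from the growth of zeta
-/

set_option autoImplicit false

namespace Pool.Agent.DBN

open Complex MeasureTheory Set Filter Topology

theorem xi_le {m : ℝ → ℝ} (hm : Continuous m) (h0 : ∀ x, 0 ≤ m x)
    (h : ∀ σ : ℝ, MuLe (1 / 2 + σ) (m σ - σ / 2)) : XiLe m := by
  intro ε κ hε hκ
  obtain ⟨C₁, K, hC₁, hK, h1⟩ := xi_glob (κ := κ / 2) (by positivity)
  set M : ℝ := √(2 * K / κ) with hM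
  have hM0 : 0 ≤ M := Real.sqrt_nonneg _
  have hM2 : κ / 2 * M ^ 2 = K := by
    rw [hM, Real.sq_sqrt (by positivity)]
    field_simp
  obtain ⟨C₂, hC₂, h2⟩ := xi_two (1 / 2 + M)
  obtain ⟨C₃, hC₃, h3⟩ := mu_unif (a := fun σ => m (σ - 1 / 2) - (σ - 1 / 2) / 2)
    (by fun_prop) (fun σ => by
      have := h (σ - 1 / 2)
      rwa [show (1 / 2 + (σ - 1 / 2) : ℝ) = σ by ring] at this) (1 / 2 + M) hε
  obtain ⟨B, hB⟩ := isCompact_Icc (a := -M) (b := M) |>.exists_bound_of_continuousOn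
    hm.continuousOn
  obtain ⟨C₄, K₄, hC₄, hK₄, h4⟩ := xi_crude
  have hB0 : 0 ≤ B := (norm_nonneg _).trans (hB 0 ⟨by linarith, hM0⟩)
  set D : ℝ := C₂ * (2 ^ (B + ε) * (2 ^ (7 / 4 : ℝ) * Real.exp (Real.pi * M / 4)) * C₃) with hD
  have hD0 : 0 ≤ D := by positivity
  set E : ℝ := C₄ * (2 * M + 4) ^ (M / 2 + K₄) * (3 + M) ^ (K₄ * M + K₄) with hE
  have hE0 : 0 ≤ E := by positivity
  refine ⟨C₁ + D + E, by positivity, fun T w hT => ?_⟩
  have hT0 : 0 < T := by linarith
  have hs := size_pos hT0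
  have hL : 0 ≤ Real.log T := Real.log_nonneg (by linarith)
  have hTm : 1 ≤ T ^ (m w.re + ε) :=
    Real.one_le_rpow (by linarith) (by linarith [h0 w.re])
  have hexp : 1 ≤ Real.exp (κ * ‖w‖ ^ 2 * Real.log T) := Real.one_le_exp (by positivity)
  rcases le_total M ‖w‖ with hw | hw
  · -- far away
    have h5 : T ^ K * Real.exp (κ / 2 * ‖w‖ ^ 2 * Real.log T) ≤
        Real.exp (κ * ‖w‖ ^ 2 * Real.log T) := by
      rw [Real.rpow_def_of_pos hT0, ← Real.exp_add, Real.exp_le_exp]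
      have h6 : K ≤ κ / 2 * ‖w‖ ^ 2 := by
        rw [← hM2]; gcongr
      calc Real.log T * K + κ / 2 * ‖w‖ ^ 2 * Real.log T
          ≤ Real.log T * (κ / 2 * ‖w‖ ^ 2) + κ / 2 * ‖w‖ ^ 2 * Real.log T := by gcongr
        _ = _ := by ring
    calc ‖xi (1 / 2 + T * I + w)‖
        ≤ C₁ * size T * T ^ K * Real.exp (κ / 2 * ‖w‖ ^ 2 * Real.log T) := h1 T w hT
      _ = C₁ * size T * 1 * (T ^ K * Real.exp (κ / 2 * ‖w‖ ^ 2 * Real.log T)) := by ring
      _ ≤ (C₁ + D + E) * size T * T ^ (m w.re + ε) *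
          Real.exp (κ * ‖w‖ ^ 2 * Real.log T) := by
        gcongr
        linarith
  · have hre : |w.re| ≤ M := (Complex.abs_re_le_norm w).trans hw
    have him : |w.im| ≤ M := (Complex.abs_im_le_norm w).trans hw
    rcases le_total (2 * M + 4) T with hT4 | hT4
    · -- the main range
      have him1 := abs_le.mp him
      have hlow : T / 2 ≤ T + w.im := by linarith
      have hup : T + w.im ≤ 2 * T := by linarith
      have hT'2 : 2 ≤ T + w.im := by linarith
      have hT'0 : 0 < T + w.im := by linarith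
      have hx : |1 / 2 + w.re| ≤ 1 / 2 + M := by
        refine (abs_add_le _ _).trans ?_
        rw [abs_of_pos (by norm_num : (0 : ℝ) < 1 / 2)]
        linarith
      have h5 := (h2 (1 / 2 + w.re) (T + w.im) hx hT'2).1
      have h6 := h3 (1 / 2 + w.re) (T + w.im) hx hT'2
      have e1 : ((1 / 2 + w.re : ℝ) : ℂ) + ((T + w.im : ℝ) : ℂ) * I = 1 / 2 + T * I + w := by
        apply Complex.ext <;> simp
      have e2 : (1 / 2 + w.re - 1 / 2) = w.re := by ring
      simp only [e1, e2] at h5 h6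
      have hs' := size_pos hT'0
      have h7 : (T + w.im) ^ (w.re / 2) * (T + w.im) ^ (m w.re - w.re / 2 + ε) =
          (T + w.im) ^ (m w.re + ε) := by
        rw [← Real.rpow_add hT'0]
        congr 1
        ring
      have h8 := rpow_shift_le hT0 hlow hup (m w.re + ε)
      have h9 := size_shift_le (U := M) hT0 hlow hup (by simpa using him)
      have h10 : (2 : ℝ) ^ |m w.re + ε| ≤ 2 ^ (B + ε) := by
        refine Real.rpow_le_rpow_of_exponent_le (by norm_num) ?_
        have := hB w.re (abs_le.mp hre)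
        rw [Real.norm_eq_abs] at this
        refine (abs_add_le _ _).trans ?_
        rw [abs_of_pos hε]
        linarith
      have h11 : (T + w.im) ^ (m w.re + ε) ≤ 2 ^ (B + ε) * T ^ (m w.re + ε) :=
        h8.trans (by gcongr)
      calc ‖xi (1 / 2 + T * I + w)‖
          ≤ C₂ * ((T + w.im) ^ (w.re / 2) * size (T + w.im) *
            ‖riemannZeta (1 / 2 + T * I + w)‖) := h5
        _ ≤ C₂ * ((T + w.im) ^ (w.re / 2) * size (T + w.im) *
            (C₃ * (T + w.im) ^ (m w.re - w.re / 2 + ε))) := by gcongr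
        _ = C₂ * (((T + w.im) ^ (w.re / 2) * (T + w.im) ^ (m w.re - w.re / 2 + ε)) *
            size (T + w.im) * C₃) := by ring
        _ = C₂ * ((T + w.im) ^ (m w.re + ε) * size (T + w.im) * C₃) := by rw [h7]
        _ ≤ C₂ * (2 ^ (B + ε) * T ^ (m w.re + ε) *
            (2 ^ (7 / 4 : ℝ) * Real.exp (Real.pi * M / 4) * size T) * C₃) := by gcongr
        _ = D * size T * T ^ (m w.re + ε) * 1 := by rw [hD]; ring
        _ ≤ (C₁ + D + E) * size T * T ^ (m w.re + ε) *
            Real.exp (κ * ‖w‖ ^ 2 * Real.log T) := by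
          gcongr
          linarith
    · -- bounded `T` and `w`
      have hw0 := norm_nonneg w
      have h5 : T ^ (‖w‖ / 2 + K₄) ≤ (2 * M + 4) ^ (M / 2 + K₄) := by
        calc T ^ (‖w‖ / 2 + K₄) ≤ T ^ (M / 2 + K₄) :=
              Real.rpow_le_rpow_of_exponent_le (by linarith) (by linarith)
          _ ≤ (2 * M + 4) ^ (M / 2 + K₄) :=
              Real.rpow_le_rpow hT0.le hT4 (by positivity)
      have h6 : (3 + ‖w‖) ^ (K₄ * ‖w‖ + K₄) ≤ (3 + M) ^ (K₄ * M + K₄) := by
        calc (3 + ‖w‖) ^ (K₄ * ‖w‖ + K₄) ≤ (3 + M) ^ (K₄ * ‖w‖ + K₄) :=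
              Real.rpow_le_rpow (by positivity) (by linarith) (by positivity)
          _ ≤ (3 + M) ^ (K₄ * M + K₄) :=
              Real.rpow_le_rpow_of_exponent_le (by linarith) (by gcongr)
      calc ‖xi (1 / 2 + T * I + w)‖
          ≤ C₄ * size T * T ^ (‖w‖ / 2 + K₄) * (3 + ‖w‖) ^ (K₄ * ‖w‖ + K₄) := h4 T hT w
        _ ≤ C₄ * size T * (2 * M + 4) ^ (M / 2 + K₄) * (3 + M) ^ (K₄ * M + K₄) := by gcongr
        _ = E * size T * 1 * 1 := by rw [hE]; ring
        _ ≤ (C₁ + D + E) * size T * T ^ (m w.re + ε) *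
            Real.exp (κ * ‖w‖ ^ 2 * Real.log T) := by
          gcongr
          linarith

end Pool.Agent.DBN
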