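import Pool.Agent.DBN.Far

/-!
# From bounds for zeta to bounds for the flow
-/

set_option autoImplicit false

namespace Pool.Agent.DBN

open Complex MeasureTheory Set Filter Topology

lemma flow_pos {t : ℝ} (ht : 0 < t) (s : ℂ) :
    flow t s = (√Real.pi : ℂ)⁻¹ * ∫ u : ℝ, (Real.exp (-u ^ 2) : ℂ) * xi (s + √t * u) := by
  have h1 : √(-t) = 0 := Real.sqrt_eq_zero_of_nonpos (by linarith)
  unfold flow
  simp [h1]

lemma log_pos_of {T : ℝ} (hT : 2 ≤ T) : 0 < Real.log T := Real.log_pos (by linarith)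

/-- the Gaussian average of a pointwise bound -/
lemma norm_gauss_le {f : ℝ → ℂ} {B κ : ℝ} (hκ : 0 < κ)
    (h : ∀ u : ℝ, ‖f u‖ ≤ B * Real.exp (-κ * u ^ 2)) :
    ‖∫ u : ℝ, f u‖ ≤ B * √(Real.pi / κ) := by
  have h1 : Integrable fun u : ℝ => B * Real.exp (-κ * u ^ 2) :=
    (integrable_exp_neg_mul_sq hκ).const_mul B
  have h2 := norm_integral_le_of_norm_le h1 (Eventually.of_forall h)
  rwa [integral_const_mul, integral_gaussian] at h2

theorem growth_of_mu {c A : ℝ} (hc : 0 < c)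
    (h : ∀ σ, MuLe (1 / 2 + σ) (A + σ ^ 2 / c - σ / 2)) : GrowthLe c A := by
  intro ε hε
  obtain ⟨C, κ, hC, hκ, h1⟩ := xi_ptwise hc h hε
  refine ⟨(√Real.pi)⁻¹ * (C * √(Real.pi / (κ * c))), fun T hT => ?_⟩
  have hT0 : 0 < T := by linarith
  have hL := log_pos_of hT
  have hs0 := size_pos hT0
  rw [flow_pos (by positivity), norm_mul]
  have h2 : ∀ u : ℝ, ‖(Real.exp (-u ^ 2) : ℂ) * xi (1 / 2 + T * I + √(c / Real.log T) * u)‖ ≤
      C * size T * T ^ (A + ε) * Real.exp (-(κ * c) * u ^ 2) := by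
    intro u
    have h3 := h1 T (√(c / Real.log T) * u) hT
    rw [norm_mul, Complex.norm_real, Real.norm_eq_abs, abs_of_pos (Real.exp_pos _)]
    push_cast at h3
    have e1 : (1 / c - κ) * (√(c / Real.log T) * u) ^ 2 * Real.log T = u ^ 2 - κ * c * u ^ 2 := by
      rw [mul_pow, Real.sq_sqrt (by positivity)]
      field_simp
    rw [e1] at h3
    calc Real.exp (-u ^ 2) * ‖xi (1 / 2 + T * I + √(c / Real.log T) * u)‖
        ≤ Real.exp (-u ^ 2) * (C * size T * T ^ (A + ε) *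
          Real.exp (u ^ 2 - κ * c * u ^ 2)) := by gcongr
      _ = C * size T * T ^ (A + ε) * (Real.exp (-u ^ 2) * Real.exp (u ^ 2 - κ * c * u ^ 2)) := by
          ring
      _ = _ := by rw [← Real.exp_add]; congr 2; ring
  have h3 := norm_gauss_le (by positivity : 0 < κ * c) h2
  calc ‖(√Real.pi : ℂ)⁻¹‖ * ‖∫ u : ℝ, (Real.exp (-u ^ 2) : ℂ) *
        xi (1 / 2 + T * I + √(c / Real.log T) * u)‖
      ≤ ‖(√Real.pi : ℂ)⁻¹‖ * (C * size T * T ^ (A + ε) * √(Real.pi / (κ * c))) := by gcongr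
    _ = _ := by
        rw [norm_inv, Complex.norm_real, Real.norm_eq_abs, abs_of_nonneg (Real.sqrt_nonneg _)]
        ring

end Pool.Agent.DBN
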