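import Pool.Agent.DBN.ZFlow
import Pool.Agent.DBN.Up

/-!
# Upper bounds for the flow at positive times, uniform in the point
-/

set_option autoImplicit false

namespace Pool.Agent.DBN

open Complex MeasureTheory Set Filter Topology

/-- ZY -/
theorem flow_le_pos {c A B : ℝ} (hc : 0 < c) {m : ℝ → ℝ} (hX : XiLe m)
    (hB : ∀ y, m y ≤ |y| / 2 + B) {S : Set ℝ} (hS : ∀ x ∈ S, 0 ≤ x)
    (h : ∀ x ∈ S, ∀ σ : ℝ, m (x + σ) ≤ x / 2 + A + σ ^ 2 / c) :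
    FlowLe c S fun x => |x| / 2 + A := by
  intro ε κ hε hκ
  -- the radius beyond which the crude bound suffices
  obtain ⟨S₀, hS₀⟩ : ∃ S₀ : ℝ, S₀ = 2 * c + 2 * |B - A| := ⟨_, rfl⟩
  have hS₀pos : 0 < S₀ := by rw [hS₀]; have := abs_nonneg (B - A); linarith
  obtain ⟨κ₂, hκ₂⟩ : ∃ κ₂ : ℝ, κ₂ = min (1 / (2 * c)) (ε / (2 * S₀ ^ 2)) := ⟨_, rfl⟩
  have hκ₂pos : 0 < κ₂ := by rw [hκ₂]; exact lt_min (by positivity) (by positivity)
  have hκ₂a : κ₂ ≤ 1 / (2 * c) := by rw [hκ₂]; exact min_le_left _ _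
  have hκ₂b : κ₂ * S₀ ^ 2 ≤ ε / 2 := by
    have h1 : κ₂ ≤ ε / (2 * S₀ ^ 2) := by rw [hκ₂]; exact min_le_right _ _
    calc κ₂ * S₀ ^ 2 ≤ ε / (2 * S₀ ^ 2) * S₀ ^ 2 := by gcongr
      _ = ε / 2 := by field_simp
  obtain ⟨κ₁, hκ₁⟩ : ∃ κ₁ : ℝ, κ₁ = min (κ / 2) (κ₂ / 4) := ⟨_, rfl⟩
  have hκ₁pos : 0 < κ₁ := by rw [hκ₁]; exact lt_min (by positivity) (by positivity)
  have hκ₁a : 2 * κ₁ ≤ κ := by
    have : κ₁ ≤ κ / 2 := by rw [hκ₁]; exact min_le_left _ _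
    linarith
  have hκ₁b : 2 * κ₁ ≤ κ₂ / 2 := by
    have : κ₁ ≤ κ₂ / 4 := by rw [hκ₁]; exact min_le_right _ _
    linarith
  -- the exponent
  have key : ∀ x ∈ S, ∀ σ : ℝ,
      m (x + σ) ≤ x / 2 + A + ε / 2 + (1 / c - κ₂) * σ ^ 2 := by
    intro x hx σ
    have hx0 := hS x hx
    by_cases hσ : |σ| ≤ S₀
    · have h1 := h x hx σ
      have h2 : σ ^ 2 ≤ S₀ ^ 2 := by
        rw [← sq_abs σ]; exact pow_le_pow_left₀ (abs_nonneg _) hσ 2
      have h3 : κ₂ * σ ^ 2 ≤ ε / 2 := (mul_le_mul_of_nonneg_left h2 hκ₂pos.le).trans hκ₂b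
      have h4 : σ ^ 2 / c = 1 / c * σ ^ 2 := by ring
      rw [h4] at h1
      linarith
    · rw [not_le] at hσ
      have h1 := hB (x + σ)
      have h2 : |x + σ| ≤ x + |σ| := by
        have := abs_add_le x σ
        rwa [abs_of_nonneg hx0] at this
      have h3 : 2 * c + 2 * |B - A| < |σ| := by rw [← hS₀]; exact hσ
      have h4 : B - A ≤ |B - A| := le_abs_self _
      have h5 : 0 ≤ |B - A| := abs_nonneg _
      have h6 : |σ| ≤ σ ^ 2 / (2 * c) := by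
        rw [le_div_iff₀ (by positivity), ← sq_abs σ]
        nlinarith [abs_nonneg σ]
      have h7 : (1 / c - κ₂) * σ ^ 2 ≥ σ ^ 2 / (2 * c) := by
        have h8 : 1 / c - κ₂ ≥ 1 / (2 * c) := by
          have h9 : 1 / c = 1 / (2 * c) + 1 / (2 * c) := by field_simp; norm_num
          linarith
        calc (1 / c - κ₂) * σ ^ 2 ≥ 1 / (2 * c) * σ ^ 2 := by gcongr
          _ = σ ^ 2 / (2 * c) := by ring
      linarith
  obtain ⟨C, hC, h1⟩ := hX (ε / 2) κ₁ (by positivity) hκ₁pos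
  refine ⟨(√Real.pi)⁻¹ * (C * √(Real.pi / (κ₂ / 2 * c))), 2, by positivity, le_rfl,
    fun T w hT hw => ?_⟩
  have hT0 : 0 < T := by linarith
  have hL := log_pos_of hT
  have hs0 := size_pos hT0
  have hx0 := hS _ hw
  simp only [abs_of_nonneg hx0]
  rw [flow_pos (by positivity), norm_mul]
  have h2 : ∀ u : ℝ,
      ‖(Real.exp (-u ^ 2) : ℂ) * xi (1 / 2 + T * I + w + √(c / Real.log T) * u)‖ ≤
      C * size T * T ^ (w.re / 2 + A + ε) * Real.exp (κ * ‖w‖ ^ 2 * Real.log T) *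
        Real.exp (-(κ₂ / 2 * c) * u ^ 2) := by
    intro u
    obtain ⟨σ, hσ⟩ : ∃ σ : ℝ, σ = √(c / Real.log T) * u := ⟨_, rfl⟩
    have h3 := h1 T (w + (σ : ℂ)) hT
    have e0 : (1 / 2 + T * I + w + √(c / Real.log T) * u : ℂ) = 1 / 2 + T * I + (w + (σ : ℂ)) := by
      rw [hσ]; push_cast; ring
    have e1 : (w + (σ : ℂ)).re = w.re + σ := by simp
    have e2 : σ ^ 2 * Real.log T = c * u ^ 2 := by
      rw [hσ, mul_pow, Real.sq_sqrt (by positivity)]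
      field_simp
    have e3 : ‖w + (σ : ℂ)‖ ^ 2 ≤ 2 * ‖w‖ ^ 2 + 2 * σ ^ 2 := by
      have h4 : ‖w + (σ : ℂ)‖ ≤ ‖w‖ + |σ| := by
        have := norm_add_le w (σ : ℂ)
        rwa [Complex.norm_real, Real.norm_eq_abs] at this
      have h5 : ‖w + (σ : ℂ)‖ ^ 2 ≤ (‖w‖ + |σ|) ^ 2 :=
        pow_le_pow_left₀ (norm_nonneg _) h4 2
      nlinarith [sq_nonneg (‖w‖ - |σ|), sq_abs σ]
    rw [norm_mul, Complex.norm_real, Real.norm_eq_abs, abs_of_pos (Real.exp_pos _), e0]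
    rw [e1] at h3
    have h4 : T ^ (m (w.re + σ) + ε / 2) ≤
        T ^ (w.re / 2 + A + ε) * Real.exp ((1 / c - κ₂) * (c * u ^ 2)) := by
      rw [← e2, Real.rpow_def_of_pos hT0, Real.rpow_def_of_pos hT0, ← Real.exp_add]
      apply Real.exp_le_exp.2
      have h5 := key _ hw σ
      nlinarith [mul_le_mul_of_nonneg_left h5 hL.le]
    have h5 : Real.exp (κ₁ * ‖w + (σ : ℂ)‖ ^ 2 * Real.log T) ≤
        Real.exp (κ * ‖w‖ ^ 2 * Real.log T) * Real.exp (κ₂ / 2 * (c * u ^ 2)) := by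
      rw [← e2, ← Real.exp_add]
      apply Real.exp_le_exp.2
      have h6 : κ₁ * ‖w + (σ : ℂ)‖ ^ 2 ≤ κ * ‖w‖ ^ 2 + κ₂ / 2 * σ ^ 2 := by
        have h7 := mul_le_mul_of_nonneg_left e3 hκ₁pos.le
        have h8 := mul_le_mul_of_nonneg_right hκ₁a (sq_nonneg ‖w‖)
        have h9 := mul_le_mul_of_nonneg_right hκ₁b (sq_nonneg σ)
        linarith
      calc κ₁ * ‖w + (σ : ℂ)‖ ^ 2 * Real.log T
          ≤ (κ * ‖w‖ ^ 2 + κ₂ / 2 * σ ^ 2) * Real.log T := by gcongr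
        _ = _ := by ring
    calc Real.exp (-u ^ 2) * ‖xi (1 / 2 + T * I + (w + (σ : ℂ)))‖
        ≤ Real.exp (-u ^ 2) * (C * size T * T ^ (m (w.re + σ) + ε / 2) *
          Real.exp (κ₁ * ‖w + (σ : ℂ)‖ ^ 2 * Real.log T)) := by gcongr
      _ ≤ Real.exp (-u ^ 2) * (C * size T *
          (T ^ (w.re / 2 + A + ε) * Real.exp ((1 / c - κ₂) * (c * u ^ 2))) *
          (Real.exp (κ * ‖w‖ ^ 2 * Real.log T) * Real.exp (κ₂ / 2 * (c * u ^ 2)))) := by gcongr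
      _ = C * size T * T ^ (w.re / 2 + A + ε) * Real.exp (κ * ‖w‖ ^ 2 * Real.log T) *
          (Real.exp (-u ^ 2) * Real.exp ((1 / c - κ₂) * (c * u ^ 2)) *
            Real.exp (κ₂ / 2 * (c * u ^ 2))) := by ring
      _ = _ := by
          rw [← Real.exp_add, ← Real.exp_add]
          congr 2
          field_simp
          ring
  have h3 := norm_gauss_le (by positivity : 0 < κ₂ / 2 * c) h2
  calc ‖(√Real.pi : ℂ)⁻¹‖ * ‖∫ u : ℝ, (Real.exp (-u ^ 2) : ℂ) *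
        xi (1 / 2 + T * I + w + √(c / Real.log T) * u)‖
      ≤ ‖(√Real.pi : ℂ)⁻¹‖ * (C * size T * T ^ (w.re / 2 + A + ε) *
          Real.exp (κ * ‖w‖ ^ 2 * Real.log T) * √(Real.pi / (κ₂ / 2 * c))) := by gcongr
    _ = _ := by
        rw [norm_inv, Complex.norm_real, Real.norm_eq_abs, abs_of_nonneg (Real.sqrt_nonneg _)]
        ring

end Pool.Agent.DBN
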