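import Pool.Agent.DBN.Const
import Pool.Agent.DBN.ZX
import Pool.Agent.DBN.ZN
import Pool.Agent.DBN.ZS
import Pool.Agent.DBN.ZY

/-!
# Upper bounds for the flow at the time `c / log T` near `1 / 2 + i T`
-/

set_option autoImplicit false

namespace Pool.Agent.DBN

open Complex MeasureTheory Set Metric Filter Topology

lemma XiLe.flow {m : ℝ → ℝ} (h : XiLe m) (S : Set ℝ) : FlowLe 0 S m := by
  intro ε κ hε hκ
  obtain ⟨C, hC, h1⟩ := h ε κ hε hκ
  refine ⟨C, 2, hC, le_rfl, fun T w hT _ => ?_⟩
  rw [zero_div, flow_zero]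
  exact h1 T w hT

lemma FlowLe.mono {c : ℝ} {S S' : Set ℝ} {m m' : ℝ → ℝ} (h : FlowLe c S m) (hS : S' ⊆ S)
    (hm : ∀ x ∈ S', m x ≤ m' x) : FlowLe c S' m' := by
  intro ε κ hε hκ
  obtain ⟨C, T₀, hC, hT₀, h1⟩ := h ε κ hε hκ
  refine ⟨C, T₀, hC, hT₀, fun T w hT hw => (h1 T w hT (hS hw)).trans ?_⟩
  have hT1 : (1 : ℝ) ≤ T := by linarith
  have h2 : T ^ (m w.re + ε) ≤ T ^ (m' w.re + ε) :=
    Real.rpow_le_rpow_of_exponent_le hT1 (by linarith [hm _ hw])
  have h3 : 0 < size T := size_pos (by linarith)
  gcongr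

/-- bounds to the right of the critical line give bounds on both sides -/
lemma FlowLe.symm {c : ℝ} {S : Set ℝ} {m : ℝ → ℝ} (h : FlowLe c {x | 0 ≤ x ∧ x ∈ S} m) :
    FlowLe c {x | |x| ∈ S} fun x => m |x| := by
  intro ε κ hε hκ
  obtain ⟨C, T₀, hC, hT₀, h1⟩ := h ε κ hε hκ
  refine ⟨C, T₀, hC, hT₀, fun T w hT hw => ?_⟩
  simp only [Set.mem_ofPred] at hw
  rcases le_total 0 w.re with h2 | h2
  · rw [abs_of_nonneg h2] at hw
    simp only [abs_of_nonneg h2]
    exact h1 T w hT ⟨h2, hw⟩
  · rw [abs_of_nonpos h2] at hw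
    simp only [abs_of_nonpos h2]
    have h3 := h1 T (-((starRingEnd ℂ) w)) hT (by
      simp only [neg_re, conj_re, Set.mem_ofPred]
      exact ⟨by linarith, hw⟩)
    rw [norm_flow_neg_conj] at h3
    simpa using h3

lemma mu_quarter_exp (σ : ℝ) : MuLe (1 / 2 + σ) (max (|σ| / 2) (1 / 4) - σ / 2) := by
  rcases le_total |σ| (1 / 2) with h | h
  · rw [max_eq_right (by linarith)]
    exact mu_convexity h
  · rw [max_eq_left (by linarith)]
    rcases le_total 0 σ with h1 | h1
    · rw [abs_of_nonneg h1] at h ⊢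
      rw [sub_self]
      exact mu_right h
    · rw [abs_of_nonpos h1] at h ⊢
      have e : -σ / 2 - σ / 2 = -σ := by ring
      rw [e]
      exact mu_left (by linarith)

lemma xi_quarter_le : XiLe fun x => max (|x| / 2) (1 / 4) :=
  xi_le (by fun_prop) (fun x => le_max_of_le_right (by norm_num)) mu_quarter_exp

theorem flow_far (c : ℝ) : ∃ R : ℝ, 0 ≤ R ∧ FlowLe c {x | R ≤ |x|} fun x => |x| / 2 + c / 16 := by
  rcases lt_trichotomy c 0 with hc | hc | hc
  · refine ⟨1 / 2 - c / 4, by linarith, ?_⟩
    have h := (flow_le_neg hc xi_quarter_le).1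
    have h1 : FlowLe c {x | 0 ≤ x ∧ x ∈ {x | 1 / 2 - c / 4 ≤ x}} fun x => |x| / 2 + c / 16 :=
      h.mono (fun x hx => hx.2) fun x _ => le_rfl
    have h2 := h1.symm
    refine h2.mono (fun x hx => hx) fun x _ => ?_
    simp
  · refine ⟨1 / 2, by norm_num, ?_⟩
    rw [hc]
    refine (xi_quarter_le.flow univ).mono (fun x _ => mem_univ x) fun x hx => ?_
    simp only [Set.mem_ofPred] at hx
    rw [max_eq_left (by linarith)]
    linarith
  · refine ⟨1 / 2, by norm_num, ?_⟩
    have h : FlowLe c {x | 1 / 2 ≤ x} fun x => |x| / 2 + c / 16 := by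
      refine flow_le_pos (B := 1 / 4) hc xi_quarter_le (fun y => ?_) (fun x hx => ?_)
        fun x hx σ => ?_
      · exact max_le (by linarith) (by linarith [abs_nonneg y])
      · simp only [Set.mem_ofPred] at hx
        linarith
      · simp only [Set.mem_ofPred] at hx
        have h1 := abs_half_le hc σ
        have h2 : |x + σ| ≤ x + |σ| := (abs_add_le x σ).trans (by rw [abs_of_nonneg (by linarith)])
        have h3 : 0 ≤ c / 16 + σ ^ 2 / c := by positivity
        exact max_le (by linarith) (by linarith)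
    have h1 : FlowLe c {x | 0 ≤ x ∧ x ∈ {x | 1 / 2 ≤ x}} fun x => |x| / 2 + c / 16 :=
      h.mono (fun x hx => hx.2) fun x _ => le_rfl
    have h2 := h1.symm
    refine h2.mono (fun x hx => hx) fun x _ => ?_
    simp

theorem flow_crude (c : ℝ) : ∃ B : ℝ, 0 ≤ B ∧ FlowLe c univ fun x => |x| / 2 + B := by
  rcases lt_trichotomy c 0 with hc | hc | hc
  · exact ⟨1 / 4, by norm_num, (flow_le_neg hc xi_quarter_le).2⟩
  · refine ⟨1 / 4, by norm_num, ?_⟩
    rw [hc]
    refine (xi_quarter_le.flow univ).mono (fun x _ => mem_univ x) fun x _ => ?_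
    exact max_le (by linarith) (by linarith [abs_nonneg x])
  · refine ⟨c / 16 + 1 / 4, by positivity, ?_⟩
    have h : FlowLe c {x | 0 ≤ x} fun x => |x| / 2 + (c / 16 + 1 / 4) := by
      refine flow_le_pos (B := 1 / 4) hc xi_quarter_le (fun y => ?_) (fun x hx => hx)
        fun x hx σ => ?_
      · exact max_le (by linarith) (by linarith [abs_nonneg y])
      · simp only [Set.mem_ofPred] at hx
        have h1 := abs_half_le hc σ
        have h2 : |x + σ| ≤ x + |σ| := (abs_add_le x σ).trans (by rw [abs_of_nonneg hx])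
        have h3 : 0 ≤ c / 16 + σ ^ 2 / c := by positivity
        exact max_le (by linarith) (by linarith)
    have h1 : FlowLe c {x | 0 ≤ x ∧ x ∈ {x | 0 ≤ x}} fun x => |x| / 2 + (c / 16 + 1 / 4) :=
      h.mono (fun x hx => hx.2) fun x _ => le_rfl
    have h2 := h1.symm
    refine h2.mono (fun x _ => ?_) fun x _ => ?_
    · simp
    · simp

theorem flow_good {c : ℝ} (h : GrowthLe c (c / 16)) :
    FlowLe c univ fun x => |x| / 2 + c / 16 := by
  have hc := good_nonneg h
  rcases eq_or_lt_of_le hc with hc | hc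
  · rw [← hc] at h ⊢
    rw [zero_div] at h ⊢
    have h1 : MuLe (1 / 2) 0 := growth_zero.mp h
    have h2 : ∀ σ : ℝ, MuLe (1 / 2 + σ) (|σ| / 2 - σ / 2) := by
      intro σ
      have h3 : MuLe (1 / 2 + 0) 0 := by simpa using h1
      rcases le_total 0 σ with h4 | h4
      · rw [abs_of_nonneg h4, sub_self]
        have := mu_outside h3 h4
        exact this
      · rw [abs_of_nonpos h4]
        have e : -σ / 2 - σ / 2 = -σ := by ring
        rw [e]
        have h5 := mu_outside h3 (by linarith : (0 : ℝ) ≤ -σ)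
        have h6 := mu_symm_imp h5
        rw [zero_add, sub_neg_eq_add] at h6
        exact h6
    have h3 : XiLe fun x => |x| / 2 :=
      xi_le (by fun_prop) (fun x => by positivity) h2
    refine (h3.flow univ).mono (fun x _ => mem_univ x) fun x _ => ?_
    linarith
  · set m : ℝ → ℝ := fun x => |x| / 2 + (max 0 (c / 4 - |x|)) ^ 2 / c with hm
    have hin : ∀ x, |x| ≤ c / 4 → m x = c / 16 + x ^ 2 / c := by
      intro x hx
      rw [hm]
      simp only
      rw [max_eq_right (by linarith), ← sq_abs x]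
      field_simp
      ring
    have hout : ∀ x, c / 4 ≤ |x| → m x = |x| / 2 := by
      intro x hx
      rw [hm]
      simp only
      rw [max_eq_left (by linarith)]
      simp
    have hmu : ∀ σ : ℝ, MuLe (1 / 2 + σ) (m σ - σ / 2) := by
      intro σ
      rcases le_total |σ| (c / 4) with h1 | h1
      · rw [hin σ h1]
        exact mu_of_growth hc h σ
      · rw [hout σ h1]
        have h2 := mu_of_good hc.le h
        rcases le_total 0 σ with h3 | h3
        · rw [abs_of_nonneg h3] at h1 ⊢
          rw [sub_self]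
          exact mu_outside h2 h1
        · rw [abs_of_nonpos h3] at h1 ⊢
          have e : -σ / 2 - σ / 2 = -σ := by ring
          rw [e]
          have h5 := mu_outside h2 h1
          have h6 := mu_symm_imp h5
          rw [zero_add, sub_neg_eq_add] at h6
          exact h6
    have hX : XiLe m := xi_le (by fun_prop) (fun x => by positivity) hmu
    have h1 : FlowLe c {x | 0 ≤ x} fun x => |x| / 2 + c / 16 := by
      refine flow_le_pos (B := c / 16) hc hX (fun y => ?_) (fun x hx => hx) fun x hx σ => ?_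
      · rcases le_total |y| (c / 4) with h1 | h1
        · rw [hm]
          simp only
          rw [max_eq_right (by linarith)]
          have h2 : (c / 4 - |y|) ^ 2 ≤ (c / 4) ^ 2 := by
            have := abs_nonneg y
            nlinarith
          have h3 : (c / 4 - |y|) ^ 2 / c ≤ (c / 4) ^ 2 / c := by gcongr
          have e : (c / 4) ^ 2 / c = c / 16 := by field_simp; ring
          linarith
        · rw [hout y h1]
          linarith
      · simp only [Set.mem_ofPred] at hx
        have h2 : |x + σ| ≤ x + |σ| := (abs_add_le x σ).trans (by rw [abs_of_nonneg hx])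
        rcases le_total |x + σ| (c / 4) with h1 | h1
        · rw [hin _ h1]
          have h3 : x + σ ≤ c / 4 := (le_abs_self _).trans h1
          have h4 : ((x + σ) ^ 2 - σ ^ 2) / c ≤ x / 2 := by
            rw [div_le_iff₀ hc]
            nlinarith
          rw [sub_div] at h4
          linarith
        · rw [hout _ h1]
          have := abs_half_le hc σ
          linarith
    have h2 : FlowLe c {x | 0 ≤ x ∧ x ∈ {x | 0 ≤ x}} fun x => |x| / 2 + c / 16 :=
      h1.mono (fun x hx => hx.2) fun x _ => le_rfl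
    refine h2.symm.mono (fun x _ => ?_) fun x _ => ?_
    · simp
    · simp

end Pool.Agent.DBN
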