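import Pool.Agent.DBN.Down

/-!
# From bounds for the flow to bounds for zeta: the inversion
-/

set_option autoImplicit false

namespace Pool.Agent.DBN

open Complex MeasureTheory Set Filter Topology

lemma rpow_shift_le {T T' : ℝ} (hT : 0 < T) (h1 : T / 2 ≤ T') (h2 : T' ≤ 2 * T) (x : ℝ) :
    T' ^ x ≤ 2 ^ |x| * T ^ x := by
  have hT' : 0 < T' := by linarith
  rcases le_total 0 x with hx | hx
  · rw [abs_of_nonneg hx, ← Real.mul_rpow (by norm_num) hT.le]
    gcongr
  · rw [abs_of_nonpos hx]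
    have h3 : T' ^ x ≤ (T / 2) ^ x := Real.rpow_le_rpow_of_nonpos (by positivity) h1 hx
    refine h3.trans_eq ?_
    rw [Real.div_rpow hT.le (by norm_num), Real.rpow_neg (by norm_num)]
    field_simp

lemma size_shift_le {T T' U : ℝ} (hT : 0 < T) (h1 : T / 2 ≤ T') (h2 : T' ≤ 2 * T)
    (hU : |T' - T| ≤ U) :
    size T' ≤ 2 ^ (7 / 4 : ℝ) * Real.exp (Real.pi * U / 4) * size T := by
  have hT' : 0 < T' := by linarith
  unfold size
  have h3 := rpow_shift_le hT h1 h2 (7 / 4)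
  rw [abs_of_pos (by norm_num : (0 : ℝ) < 7 / 4)] at h3
  have h4 : Real.exp (-(Real.pi * T' / 4)) ≤
      Real.exp (Real.pi * U / 4) * Real.exp (-(Real.pi * T / 4)) := by
    rw [← Real.exp_add, Real.exp_le_exp]
    have := (abs_le.mp hU).1
    have hp := Real.pi_pos
    nlinarith
  calc T' ^ (7 / 4 : ℝ) * Real.exp (-(Real.pi * T' / 4))
      ≤ (2 ^ (7 / 4 : ℝ) * T ^ (7 / 4 : ℝ)) *
        (Real.exp (Real.pi * U / 4) * Real.exp (-(Real.pi * T / 4))) := by gcongr
    _ = _ := by ring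

/-- the inner Gaussian average of the inversion formula -/
lemma inner_bound {c A : ℝ} (hc : 0 < c) (h : GrowthLe c A) {ε : ℝ} (hε : 0 < ε) :
    ∃ C T₀ : ℝ, 0 ≤ C ∧ 2 ≤ T₀ ∧ ∀ T y : ℝ, T₀ ≤ T →
      Real.exp (-y ^ 2) * ‖∫ x : ℝ, (Real.exp (-x ^ 2) : ℂ) *
          xi (1 / 2 + T * I + √(c / Real.log T) * (x + y * I))‖ ≤
        C * size T * T ^ (max A (c / 16 - 1 / 8) + ε) * Real.exp (-(1 / 2) * y ^ 2) := by
  set A' := max A (c / 16 - 1 / 8) with hA'
  obtain ⟨R, C₁, hR, hC₁, h1⟩ := xi_far hc (-A')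
  obtain ⟨C₂, T₂, hC₂, hT₂, h2⟩ := time_shift hc R (by linarith)
  obtain ⟨C₃, h3⟩ := h ε hε
  set E : ℝ := 2 ^ (7 / 4 : ℝ) * Real.exp (Real.pi * R / 4) with hE
  have hE0 : 0 < E := by positivity
  set P : ℝ := 2 ^ |A' + ε| with hP
  have hP0 : 0 < P := by positivity
  refine ⟨C₁ * √(2 * Real.pi) + √Real.pi * ((|C₃| + C₂) * E * P), max T₂ (2 * R + 2),
    by positivity, hT₂.trans (le_max_left _ _), ?_⟩
  intro T y hT
  have hT1 : T₂ ≤ T := (le_max_left _ _).trans hT
  have hT3 : 2 * R + 2 ≤ T := (le_max_right _ _).trans hT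
  have hT2 : 2 ≤ T := by linarith
  have hT0 : 0 < T := by linarith
  have hs0 := size_pos hT0
  have hL := log_pos_of hT2
  set L := Real.log T with hLd
  set r := √(c / L) with hr
  have hr2 : r ^ 2 = c / L := Real.sq_sqrt (by positivity)
  have hr0 : 0 < r := Real.sqrt_pos.mpr (by positivity)
  have hπ := Real.pi_pos
  rcases le_total R |r * y| with hy | hy
  · -- far
    have h4 : ∀ x : ℝ, ‖(Real.exp (-x ^ 2) : ℂ) * xi (1 / 2 + T * I + r * (x + y * I))‖ ≤
        (C₁ * size T * T ^ A' * Real.exp (y ^ 2 / 2)) * Real.exp (-(1 / 2) * x ^ 2) := by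
      intro x
      have e1 : ‖((r : ℂ) * (x + y * I))‖ ^ 2 = r ^ 2 * (x ^ 2 + y ^ 2) := by
        rw [← Complex.normSq_eq_norm_sq, Complex.normSq_apply]
        simp
        ring
      have h5 : R ≤ ‖((r : ℂ) * (x + y * I))‖ := by
        apply hy.trans
        apply abs_le_of_sq_le_sq _ (norm_nonneg _)
        rw [e1]
        nlinarith [sq_nonneg (r * x)]
      have h6 := h1 T _ hT2 h5
      rw [e1, hr2, neg_neg] at h6
      have e2 : c / L * (x ^ 2 + y ^ 2) * Real.log T / (2 * c) = y ^ 2 / 2 + x ^ 2 / 2 := by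
        rw [← hLd]
        field_simp
        ring
      rw [e2, Real.exp_add] at h6
      rw [norm_mul, Complex.norm_real, Real.norm_eq_abs, abs_of_pos (Real.exp_pos _)]
      calc Real.exp (-x ^ 2) * ‖xi (1 / 2 + T * I + r * (x + y * I))‖
          ≤ Real.exp (-x ^ 2) * (C₁ * size T * T ^ A' *
            (Real.exp (y ^ 2 / 2) * Real.exp (x ^ 2 / 2))) := by gcongr
        _ = (C₁ * size T * T ^ A' * Real.exp (y ^ 2 / 2)) *
            (Real.exp (-x ^ 2) * Real.exp (x ^ 2 / 2)) := by ring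
        _ = _ := by rw [← Real.exp_add]; congr 2; ring
    have h5 := norm_gauss_le (by norm_num : (0 : ℝ) < 1 / 2) h4
    have e3 : Real.pi / (1 / 2) = 2 * Real.pi := by ring
    rw [e3] at h5
    have h6 : T ^ A' ≤ T ^ (A' + ε) :=
      Real.rpow_le_rpow_of_exponent_le (by linarith) (by linarith)
    calc Real.exp (-y ^ 2) * ‖∫ x : ℝ, (Real.exp (-x ^ 2) : ℂ) *
          xi (1 / 2 + T * I + r * (x + y * I))‖
        ≤ Real.exp (-y ^ 2) * ((C₁ * size T * T ^ A' * Real.exp (y ^ 2 / 2)) *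
          √(2 * Real.pi)) := by gcongr
      _ = C₁ * √(2 * Real.pi) * (size T * T ^ A') *
          (Real.exp (-y ^ 2) * Real.exp (y ^ 2 / 2)) := by ring
      _ = C₁ * √(2 * Real.pi) * (size T * T ^ A') * Real.exp (-(1 / 2) * y ^ 2) := by
          rw [← Real.exp_add]; congr 2; ring
      _ ≤ (C₁ * √(2 * Real.pi) + √Real.pi * ((|C₃| + C₂) * E * P)) *
          (size T * T ^ (A' + ε)) * Real.exp (-(1 / 2) * y ^ 2) := by
          gcongr
          have : 0 ≤ √Real.pi * ((|C₃| + C₂) * E * P) := by positivity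
          linarith
      _ = _ := by ring
  · -- near
    set T' := T + r * y with hT'
    have hTT : |T' - T| ≤ R := by simpa [hT'] using hy
    obtain ⟨hT'2, h4⟩ := h2 T T' hT1 hTT
    have hT'0 : 0 < T' := by linarith
    have hs0' := size_pos hT'0
    have h5 := h3 T' hT'2
    have habs := abs_le.mp hTT
    have hlow : T / 2 ≤ T' := by linarith
    have hup : T' ≤ 2 * T := by linarith
    have e1 : (∫ x : ℝ, (Real.exp (-x ^ 2) : ℂ) * xi (1 / 2 + T * I + r * (x + y * I))) =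
        √Real.pi * flow (c / L) (1 / 2 + T' * I) := by
      rw [flow_pos (by positivity)]
      have hp : ((√Real.pi : ℝ) : ℂ) ≠ 0 := by
        exact_mod_cast (Real.sqrt_pos.mpr hπ).ne'
      rw [← mul_assoc, mul_inv_cancel₀ hp, one_mul]
      refine integral_congr_ae (Eventually.of_forall fun x => ?_)
      simp only [hT']
      congr 2
      push_cast
      ring
    have h6 : ‖flow (c / L) (1 / 2 + T' * I)‖ ≤
        (|C₃| + C₂) * (size T' * T' ^ (A' + ε)) := by
      have h7 : flow (c / L) (1 / 2 + T' * I) = flow (c / Real.log T') (1 / 2 + T' * I) +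
          (flow (c / L) (1 / 2 + T' * I) - flow (c / Real.log T') (1 / 2 + T' * I)) := by ring
      rw [h7]
      refine (norm_add_le _ _).trans ?_
      have h8 : T' ^ (A + ε) ≤ T' ^ (A' + ε) :=
        Real.rpow_le_rpow_of_exponent_le (by linarith) (by
          have := le_max_left A (c / 16 - 1 / 8); linarith)
      have h9 : T' ^ (c / 16 - 1 / 8) ≤ T' ^ (A' + ε) :=
        Real.rpow_le_rpow_of_exponent_le (by linarith) (by
          have := le_max_right A (c / 16 - 1 / 8); linarith)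
      have hp1 : 0 < T' ^ (A + ε) := by positivity
      calc ‖flow (c / Real.log T') (1 / 2 + T' * I)‖ +
            ‖flow (c / L) (1 / 2 + T' * I) - flow (c / Real.log T') (1 / 2 + T' * I)‖
          ≤ |C₃| * T' ^ (A' + ε) * size T' + C₂ * size T' * T' ^ (A' + ε) := by
            apply add_le_add
            · refine h5.trans ?_
              apply mul_le_mul_of_nonneg_right _ hs0'.le
              exact mul_le_mul (le_abs_self _) h8 hp1.le (abs_nonneg _)
            · refine h4.trans ?_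
              gcongr
        _ = _ := by ring
    have h7 : size T' * T' ^ (A' + ε) ≤ E * P * (size T * T ^ (A' + ε)) := by
      calc size T' * T' ^ (A' + ε) ≤ (E * size T) * (P * T ^ (A' + ε)) := by
            gcongr
            · exact size_shift_le hT0 hlow hup hTT
            · exact rpow_shift_le hT0 hlow hup _
        _ = _ := by ring
    have h8 : Real.exp (-y ^ 2) ≤ Real.exp (-(1 / 2) * y ^ 2) := by
      rw [Real.exp_le_exp]
      nlinarith [sq_nonneg y]
    rw [e1, norm_mul, Complex.norm_real, Real.norm_eq_abs, abs_of_nonneg (Real.sqrt_nonneg _)]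
    calc Real.exp (-y ^ 2) * (√Real.pi * ‖flow (c / L) (1 / 2 + T' * I)‖)
        ≤ Real.exp (-(1 / 2) * y ^ 2) *
          (√Real.pi * ((|C₃| + C₂) * (E * P * (size T * T ^ (A' + ε))))) := by
          gcongr
          exact h6.trans (by gcongr)
      _ = √Real.pi * ((|C₃| + C₂) * E * P) * (size T * T ^ (A' + ε)) *
          Real.exp (-(1 / 2) * y ^ 2) := by ring
      _ ≤ (C₁ * √(2 * Real.pi) + √Real.pi * ((|C₃| + C₂) * E * P)) *
          (size T * T ^ (A' + ε)) * Real.exp (-(1 / 2) * y ^ 2) := by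
          gcongr
          have : 0 ≤ C₁ * √(2 * Real.pi) := by positivity
          linarith
      _ = _ := by ring

/-- the bound for `xi` at horizontal distance `σ` from the critical line -/
lemma xi_of_growth {c A : ℝ} (hc : 0 < c) (h : GrowthLe c A) (σ : ℝ) {ε : ℝ} (hε : 0 < ε) :
    ∃ C T₀ : ℝ, 0 ≤ C ∧ 2 ≤ T₀ ∧ ∀ T : ℝ, T₀ ≤ T →
      ‖xi (1 / 2 + T * I + σ)‖ ≤
        C * size T * T ^ (max A (c / 16 - 1 / 8) + σ ^ 2 / c + ε) := by
  set A' := max A (c / 16 - 1 / 8) with hA'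
  obtain ⟨C, T₀, hC, hT₀, h1⟩ := inner_bound hc h hε
  refine ⟨(Real.pi)⁻¹ * (C * √(Real.pi / (1 / 2))), T₀, by positivity, hT₀, fun T hT => ?_⟩
  have hT2 : 2 ≤ T := by linarith
  have hT0 : 0 < T := by linarith
  have hL := log_pos_of hT2
  have hπ := Real.pi_pos
  set L := Real.log T with hLd
  set r := √(c / L) with hr
  have hr2 : r ^ 2 = c / L := Real.sq_sqrt (by positivity)
  have hr0 : 0 < r := Real.sqrt_pos.mpr (by positivity)
  have h2 := inv_flow differentiable_xi subG_xi r (σ / r) (1 / 2 + T * I)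
  have e1 : (r : ℂ) * ((σ / r : ℝ) : ℂ) = σ := by
    rw [← Complex.ofReal_mul]
    congr 1
    field_simp
  rw [e1] at h2
  have h3 : ∀ y : ℝ, ‖exp (-(y + ((σ / r : ℝ) : ℂ) * I) ^ 2) *
      ∫ x : ℝ, (Real.exp (-x ^ 2) : ℂ) * xi (1 / 2 + T * I + r * (x + y * I))‖ ≤
      (C * size T * T ^ (A' + σ ^ 2 / c + ε)) * Real.exp (-(1 / 2) * y ^ 2) := by
    intro y
    rw [norm_mul, Complex.norm_exp]
    have e2 : (-((y : ℂ) + ((σ / r : ℝ) : ℂ) * I) ^ 2).re = -y ^ 2 + σ ^ 2 / c * L := by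
      have e3 : (-((y : ℂ) + ((σ / r : ℝ) : ℂ) * I) ^ 2).re = -y ^ 2 + (σ / r) ^ 2 := by
        simp only [sq, Complex.neg_re, Complex.mul_re, Complex.add_re, Complex.ofReal_re,
          Complex.I_re, Complex.add_im, Complex.ofReal_im, Complex.mul_im, Complex.I_im]
        ring
      rw [e3, div_pow, hr2]
      field_simp
    rw [e2, Real.exp_add]
    have h4 := h1 T y hT
    have e4 : Real.exp (σ ^ 2 / c * L) = T ^ (σ ^ 2 / c) := by
      rw [Real.rpow_def_of_pos hT0, ← hLd, mul_comm]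
    have e5 : T ^ (A' + σ ^ 2 / c + ε) = T ^ (σ ^ 2 / c) * T ^ (A' + ε) := by
      rw [← Real.rpow_add hT0]; congr 1; ring
    rw [e4, e5]
    have hp : 0 < T ^ (σ ^ 2 / c) := by positivity
    calc Real.exp (-y ^ 2) * T ^ (σ ^ 2 / c) *
          ‖∫ x : ℝ, (Real.exp (-x ^ 2) : ℂ) * xi (1 / 2 + T * I + r * (x + y * I))‖
        = T ^ (σ ^ 2 / c) * (Real.exp (-y ^ 2) *
          ‖∫ x : ℝ, (Real.exp (-x ^ 2) : ℂ) * xi (1 / 2 + T * I + r * (x + y * I))‖) := by ring
      _ ≤ T ^ (σ ^ 2 / c) * (C * size T * T ^ (A' + ε) * Real.exp (-(1 / 2) * y ^ 2)) := by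
          gcongr
      _ = _ := by ring
  have h4 := norm_gauss_le (by norm_num : (0 : ℝ) < 1 / 2) h3
  rw [h2, norm_mul, Complex.norm_real, Real.norm_eq_abs, abs_of_pos hπ] at h4
  calc ‖xi (1 / 2 + T * I + σ)‖ = Real.pi⁻¹ * (Real.pi * ‖xi (1 / 2 + T * I + σ)‖) := by
        rw [← mul_assoc, inv_mul_cancel₀ hπ.ne', one_mul]
    _ ≤ Real.pi⁻¹ * (C * size T * T ^ (A' + σ ^ 2 / c + ε) * √(Real.pi / (1 / 2))) := by gcongr
    _ = _ := by ring

lemma mu_of_growth' {c A : ℝ} (hc : 0 < c) (h : GrowthLe c A) (σ : ℝ) :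
    MuLe (1 / 2 + σ) (max A (c / 16 - 1 / 8) + σ ^ 2 / c - σ / 2) := by
  apply mu_of_large
  intro ε hε
  obtain ⟨C, T₀, hC, hT₀, h1⟩ := xi_of_growth hc h σ hε
  obtain ⟨C', hC', h2⟩ := xi_two (|1 / 2 + σ|)
  refine ⟨C' * C, T₀, fun T hT hT2 => ?_⟩
  have hT0 : 0 < T := by linarith
  have hs0 := size_pos hT0
  have h3 := (h2 (1 / 2 + σ) T le_rfl hT2).2
  have h4 := h1 T hT
  have e0 : (1 / 2 + T * I + σ : ℂ) = ((1 / 2 + σ : ℝ) : ℂ) + T * I := by
    push_cast; ring
  rw [e0] at h4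
  have h5 := h3.trans (mul_le_mul_of_nonneg_left h4 (by linarith))
  have hp : 0 < T ^ ((1 / 2 + σ - 1 / 2) / 2) * size T := by positivity
  have h6 : ‖riemannZeta (((1 / 2 + σ : ℝ) : ℂ) + T * I)‖ ≤
      (C' * (C * size T * T ^ (max A (c / 16 - 1 / 8) + σ ^ 2 / c + ε))) /
        (T ^ ((1 / 2 + σ - 1 / 2) / 2) * size T) := by
    rw [le_div_iff₀ hp, mul_comm]
    exact h5
  refine h6.trans_eq ?_
  have e1 : T ^ (max A (c / 16 - 1 / 8) + σ ^ 2 / c + ε) =
      T ^ (max A (c / 16 - 1 / 8) + σ ^ 2 / c - σ / 2 + ε) *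
        T ^ ((1 / 2 + σ - 1 / 2) / 2) := by
    rw [← Real.rpow_add hT0]; congr 1; ring
  rw [e1]
  have hp2 : 0 < T ^ ((1 / 2 + σ - 1 / 2) / 2) := by positivity
  field_simp

/-- the growth exponent at `c > 0` is at least `c / 16` -/
theorem growth_ge {c A : ℝ} (hc : 0 < c) (h : GrowthLe c A) : c / 16 ≤ A := by
  have h1 := mu_nonneg (mu_of_growth' hc h (c / 4))
  have e1 : max A (c / 16 - 1 / 8) + (c / 4) ^ 2 / c - c / 4 / 2 =
      max A (c / 16 - 1 / 8) - c / 16 := by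
    field_simp
    ring
  rw [e1] at h1
  rcases le_max_iff.mp (by linarith : c / 16 ≤ max A (c / 16 - 1 / 8)) with h2 | h2
  · exact h2
  · linarith

theorem mu_of_growth {c A : ℝ} (hc : 0 < c) (h : GrowthLe c A) (σ : ℝ) :
    MuLe (1 / 2 + σ) (A + σ ^ 2 / c - σ / 2) := by
  have h1 := mu_of_growth' hc h σ
  have h2 := growth_ge hc h
  rwa [max_eq_left (by linarith)] at h1

end Pool.Agent.DBN
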