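import Pool.Agent.DBN.Defs3

/-!
# Zeros of the functions `H_t` at the time `t = c / log T` near the point `2 T`
-/

set_option autoImplicit false

namespace Pool.Agent.DBN

open Complex Metric

/-- the number of zeros of the entire function `f` in the closed disc with centre `s` and radius
`r`, counted with multiplicity -/
noncomputable def zeroCount (f : ℂ → ℂ) (s : ℂ) (r : ℝ) : ℤ :=
  ∑ᶠ u, MeromorphicOn.divisor f (closedBall s r) u

/-- every closed disc which does not meet the real line, translated by `2 T`, contains `o(log T)`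
zeros of `H_{c / log T}` -/
def FewZeros (c : ℝ) : Prop :=
  ∀ (w : ℂ) (r : ℝ), 0 < r → r < |w.im| → ∀ η : ℝ, 0 < η → ∃ T₀ : ℝ, ∀ T : ℝ, T₀ ≤ T →
    (zeroCount (H (c / Real.log T)) (2 * T + w) r : ℝ) ≤ η * Real.log T

end Pool.Agent.DBN
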