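import Pool.Agent.DBN.PhiDefs
import Pool.Agent.DBN.Defs2

/-!
# The growth of the functions `H_t` at the time `t = c / log T` and the point `2 T`
-/

set_option autoImplicit false

namespace Pool.Agent.DBN

open Complex

/-- `H_{c / log T}(2 T) = O(T^(A + ε) T^(7/4) e^(-π T / 4))` for every `ε > 0` -/
def Growth (c A : ℝ) : Prop :=
  ∀ ε : ℝ, 0 < ε → ∃ C : ℝ, ∀ T : ℝ, 2 ≤ T →
    ‖H (c / Real.log T) (2 * T)‖ ≤ C * T ^ (A + ε) * size T

end Pool.Agent.DBN
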