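import Pool.Agent.DBN.WinSumC

/-!
# Frequencies of the windowed transform of xi and lengths of the smoothed zeta sums
-/

set_option autoImplicit false

namespace Pool.Agent.DBN.Nw

open Complex MeasureTheory Set Filter Topology

/-- crude bound of the windowed transform -/
lemma win_le : ∃ B : ℝ, 1 ≤ B ∧ ∀ ω T : ℝ, ‖win ω T‖ ≤ B := by
  obtain ⟨C, hC, h⟩ := xi_le
  have hpi := Real.pi_gt_three
  refine ⟨64 * C * √Real.pi, ?_, fun ω T => ?_⟩
  · have h1 : 1 ≤ √Real.pi := by
      rw [Real.one_le_sqrt]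
      linarith
    nlinarith
  · have hint : Integrable fun v : ℝ => 64 * C * Real.exp (-1 * v ^ 2) :=
      (integrable_exp_neg_mul_sq one_pos).const_mul _
    have hb := norm_integral_le_of_norm_le hint
      (f := fun v : ℝ => exp (-(v : ℂ) ^ 2 + ω * v * I) * xi (1 / 2 + (T + v) * I))
      (Filter.Eventually.of_forall fun v => by
        have h1 : ‖xi (1 / 2 + (T + v) * I)‖ ≤ 64 * C := by
          have h2 := h (T + v)
          push_cast at h2
          refine h2.trans ?_
          set x : ℝ := |T + v| with hx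
          have hx0 : 0 ≤ x := abs_nonneg _
          have h3 : 1 + x ≤ 4 * Real.exp (x / 4) := by
            have := Real.add_one_le_exp (x / 4)
            linarith
          have h4 : (1 + x) ^ 3 ≤ 64 * Real.exp (3 * x / 4) := by
            calc (1 + x) ^ 3 ≤ (4 * Real.exp (x / 4)) ^ 3 := by gcongr
              _ = 64 * Real.exp (3 * x / 4) := by
                rw [mul_pow, ← Real.exp_nat_mul]
                norm_num
                ring_nf
          have h5 : Real.exp (3 * x / 4) * Real.exp (-(Real.pi * x / 4)) ≤ 1 := by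
            rw [← Real.exp_add, Real.exp_le_one_iff]
            nlinarith
          have h6 := Real.exp_pos (-(Real.pi * x / 4))
          calc C * (1 + x) ^ 3 * Real.exp (-(Real.pi * x / 4)) ≤
              C * (64 * Real.exp (3 * x / 4)) * Real.exp (-(Real.pi * x / 4)) := by gcongr
            _ = 64 * C * (Real.exp (3 * x / 4) * Real.exp (-(Real.pi * x / 4))) := by ring
            _ ≤ 64 * C * 1 := by gcongr
            _ = _ := by ring
        have h7 : ‖exp (-(v : ℂ) ^ 2 + ω * v * I)‖ = Real.exp (-1 * v ^ 2) := by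
          rw [Complex.norm_exp]
          congr 1
          have : (-(v : ℂ) ^ 2 + ω * v * I) = ((-v ^ 2 : ℝ) : ℂ) + ((ω * v : ℝ) : ℂ) * I := by
            push_cast
            ring
          rw [this, Complex.add_re, Complex.ofReal_re, Complex.re_ofReal_mul, Complex.I_re]
          ring
        rw [norm_mul, h7]
        calc Real.exp (-1 * v ^ 2) * ‖xi (1 / 2 + (T + v) * I)‖ ≤
            Real.exp (-1 * v ^ 2) * (64 * C) := by gcongr
          _ = _ := by ring)
    rw [integral_const_mul, integral_gaussian, div_one] at hb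
    exact hb

lemma size_low {T T₁ : ℝ} (hT : 2 ≤ T) (hT₁ : T ≤ T₁) : Real.exp (-(Real.pi * T₁ / 4)) ≤ size T := by
  rw [size]
  have h3 : (1 : ℝ) ≤ T ^ (7 / 4 : ℝ) := Real.one_le_rpow (by linarith) (by norm_num)
  have h4 := Real.exp_pos (-(Real.pi * T₁ / 4))
  have h5 : Real.exp (-(Real.pi * T₁ / 4)) ≤ Real.exp (-(Real.pi * T / 4)) := by
    rw [Real.exp_le_exp]
    nlinarith [Real.pi_pos]
  calc Real.exp (-(Real.pi * T₁ / 4)) = 1 * Real.exp (-(Real.pi * T₁ / 4)) := by ring
    _ ≤ _ := by gcongr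

lemma size_pos' {T : ℝ} (hT : 2 ≤ T) : 0 < size T :=
  lt_of_lt_of_le (Real.exp_pos _) (size_low hT le_rfl)

lemma log_near {T T' : ℝ} (hT : 0 < T) (h1 : T ≤ T') (h2 : T' ≤ 2 * T) :
    Real.log T ≤ Real.log T' ∧ Real.log T' ≤ Real.log T + 1 := by
  constructor
  · exact Real.log_le_log hT h1
  · have h3 := Real.log_le_log (by linarith) h2
    rw [Real.log_mul (by norm_num) hT.ne'] at h3
    have h4 := Real.log_two_lt_d9
    linarith

lemma rpow_near {T T' : ℝ} (hT : 0 < T) (hT' : 0 < T') (h : |Real.log T' - Real.log T| ≤ 1)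
    (x : ℝ) : T' ^ x ≤ Real.exp |x| * T ^ x := by
  rw [Real.rpow_def_of_pos hT, Real.rpow_def_of_pos hT', ← Real.exp_add, Real.exp_le_exp]
  have h1 : (Real.log T' - Real.log T) * x ≤ |x| := by
    calc (Real.log T' - Real.log T) * x ≤ |(Real.log T' - Real.log T) * x| := le_abs_self _
      _ = |Real.log T' - Real.log T| * |x| := abs_mul _ _
      _ ≤ 1 * |x| := by gcongr
      _ = |x| := one_mul _
  linarith

lemma inv_le_rpow {T T₁ x : ℝ} (hT : 1 ≤ T) (hTT : T ≤ T₁) (hx : -(1 / 20) ≤ x) :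
    T₁⁻¹ ≤ T ^ x := by
  calc T₁⁻¹ ≤ T⁻¹ := by gcongr
    _ = T ^ (-1 : ℝ) := (Real.rpow_neg_one T).symm
    _ ≤ T ^ x := Real.rpow_le_rpow_of_exponent_le hT (by linarith)

end Pool.Agent.DBN.Nw

namespace Pool.Agent.DBN

open Complex MeasureTheory Set Filter Topology Nw

/-- from the transform to the sums -/
theorem sumLe_of_winLe {y a : ℝ} (hy : |y| ≤ 1 / 2) (ha : -(1 / 20) ≤ a) (h : WinLe y a) :
    SumLe (1 / 2 + y) a := by
  obtain ⟨C, T₀, hC, hT₀, hwz⟩ := win_zsum
  have hpi3 := Real.pi_gt_three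
  have hpi4 := Real.pi_lt_four
  have hpi0 := Real.pi_pos
  obtain ⟨hl0, hl2⟩ := log_two_pi
  rw [abs_le] at hy
  intro ε hε
  obtain ⟨δ₁, hδ₁, C₁, h1⟩ := h ε hε
  set δ : ℝ := min (δ₁ / 2) (1 / 40) with hδ
  have hδ0 : 0 < δ := lt_min (by positivity) (by norm_num)
  have hδa : δ ≤ δ₁ / 2 := min_le_left _ _
  have hδb : δ ≤ 1 / 40 := min_le_right _ _
  set T₁ : ℝ := max T₀ (Real.exp (max (4 / δ₁) 80)) with hT₁
  have hT₁0 : 0 < T₁ := lt_of_lt_of_le (by linarith) (le_max_left _ _)
  refine ⟨δ, hδ0, max (Real.exp 1 * S32 * T₁ ^ 3) (C * (|C₁| + 1) * Real.exp |a + ε|),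
    fun T N hT hN1 hN2 => ?_⟩
  have hT0 : 0 < T := by linarith
  have hT1 : 1 ≤ T := by linarith
  have hN0 : 0 < N := lt_of_lt_of_le (by positivity) hN1
  have hS := S32_nonneg
  rcases le_total T T₁ with hTT | hTT
  · have h2 := norm_zsum_le hN0 T
    have h3 : N ≤ T₁ ^ 2 := by
      calc N ≤ T ^ (1 / 2 + y + δ) := hN2
        _ ≤ T ^ (2 : ℝ) := Real.rpow_le_rpow_of_exponent_le hT1 (by linarith [hy.2])
        _ = T ^ 2 := Real.rpow_two T
        _ ≤ T₁ ^ 2 := by gcongr
    have hTa := inv_le_rpow hT1 hTT (x := a + ε) (by linarith)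
    calc ‖zsum N T‖ ≤ Real.exp 1 * S32 * N := h2
      _ ≤ Real.exp 1 * S32 * T₁ ^ 2 := by gcongr
      _ = Real.exp 1 * S32 * T₁ ^ 3 * T₁⁻¹ := by field_simp
      _ ≤ Real.exp 1 * S32 * T₁ ^ 3 * T ^ (a + ε) := by gcongr
      _ ≤ _ := by
        gcongr
        exact le_max_left _ _
  · set T' : ℝ := T + Real.pi / 8 with hT'
    have hTT' : T ≤ T' := by linarith
    have hT'2 : T' ≤ 2 * T := by linarith
    have hT'0 : 0 < T' := by linarith
    obtain ⟨hla, hlb⟩ := log_near hT0 hTT' hT'2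
    have hlog : max (4 / δ₁) 80 ≤ Real.log T := by
      rw [Real.le_log_iff_exp_le hT0]
      exact (le_max_right _ _).trans hTT
    have hlog1 : 4 / δ₁ ≤ Real.log T := (le_max_left _ _).trans hlog
    have hlog2 : 80 ≤ Real.log T := (le_max_right _ _).trans hlog
    have hlog3 : 4 ≤ δ₁ * Real.log T := by
      rw [div_le_iff₀ hδ₁] at hlog1
      linarith
    set ω : ℝ := Real.log N - Real.log (T' / (2 * Real.pi)) / 2 with hω
    have e1 : Real.exp ω * √(T' / (2 * Real.pi)) = N := by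
      have hpos : 0 < Real.exp ω * √(T' / (2 * Real.pi)) :=
        mul_pos (Real.exp_pos _) (Real.sqrt_pos.2 (by positivity))
      rw [← Real.exp_log hpos, log_len ω hT'0, hω, sub_add_cancel, Real.exp_log hN0]
    have e2 : T' - Real.pi / 8 = T := by rw [hT']; ring
    have e3 : Real.log (T' / (2 * Real.pi)) = Real.log T' - Real.log (2 * Real.pi) :=
      Real.log_div hT'0.ne' (by positivity)
    have hn1 : (1 / 2 + y - δ) * Real.log T ≤ Real.log N := by
      rw [← Real.log_rpow hT0]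
      exact Real.log_le_log (by positivity) hN1
    have hn2 : Real.log N ≤ (1 / 2 + y + δ) * Real.log T := by
      rw [← Real.log_rpow hT0]
      exact Real.log_le_log hN0 hN2
    have hy0 : 0 ≤ 1 / 2 + y := by linarith [hy.1]
    have hy1 : 1 / 2 + y ≤ 1 := by linarith [hy.2]
    have hlT' : 0 ≤ Real.log T' := by linarith
    have hm1 : (1 / 2 + y) * Real.log T ≤ (1 / 2 + y) * Real.log T' := by gcongr
    have hm2 : (1 / 2 + y) * Real.log T' ≤ (1 / 2 + y) * (Real.log T + 1) := by gcongr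
    have hm3 : δ * Real.log T ≤ δ * Real.log T' := by gcongr
    have hm4 : δ * Real.log T' ≤ δ₁ / 2 * Real.log T' := by gcongr
    have hm5 : δ₁ * Real.log T ≤ δ₁ * Real.log T' := by gcongr
    have hm6 : δ * Real.log T' ≤ 1 / 40 * Real.log T' := by gcongr
    have hω1 : |ω - y * Real.log T'| ≤ δ * Real.log T' + 1 := by
      rw [abs_le, hω, e3]
      constructor <;> linarith
    have hω2 : |ω - y * Real.log T'| ≤ δ₁ * Real.log T' := by
      refine hω1.trans ?_
      linarith
    have hω3 : |ω| ≤ 11 / 20 * Real.log T' := by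
      have h2 : |y * Real.log T'| ≤ 1 / 2 * Real.log T' := by
        rw [abs_mul, abs_of_nonneg (by linarith : (0 : ℝ) ≤ Real.log T')]
        gcongr
        exact abs_le.2 hy
      have h3 : |ω| ≤ |ω - y * Real.log T'| + |y * Real.log T'| := by
        have := abs_add_le (ω - y * Real.log T') (y * Real.log T')
        rwa [sub_add_cancel] at this
      linarith
    have hT'T₀ : T₀ ≤ T' := (le_max_left _ _).trans (hTT.trans hTT')
    have h2 := (hwz T' ω hT'T₀ hω3).2
    rw [e1, e2] at h2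
    have h3 := h1 T' ω (by linarith) hω2
    have hsz := size_pos' (T := T') (by linarith)
    have hp1 : T' ^ (-(1 / 20) : ℝ) ≤ T' ^ (a + ε) :=
      Real.rpow_le_rpow_of_exponent_le (by linarith) (by linarith)
    have hp2 : T' ^ (a + ε) ≤ Real.exp |a + ε| * T ^ (a + ε) :=
      rpow_near hT0 hT'0 (abs_le.2 ⟨by linarith, by linarith⟩) _
    have hp3 : 0 < T' ^ (a + ε) := by positivity
    have h4 : size T' * ‖zsum N T‖ ≤ size T' * (C * (|C₁| + 1) * T' ^ (a + ε)) := by
      refine h2.trans ?_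
      calc C * (‖win ω T'‖ + size T' * T' ^ (-(1 / 20) : ℝ)) ≤
          C * (|C₁| * T' ^ (a + ε) * size T' + size T' * T' ^ (a + ε)) := by
            gcongr
            refine h3.trans ?_
            gcongr
            exact le_abs_self _
        _ = _ := by ring
    have h5 : ‖zsum N T‖ ≤ C * (|C₁| + 1) * T' ^ (a + ε) := le_of_mul_le_mul_left h4 hsz
    calc ‖zsum N T‖ ≤ C * (|C₁| + 1) * T' ^ (a + ε) := h5
      _ ≤ C * (|C₁| + 1) * (Real.exp |a + ε| * T ^ (a + ε)) := by gcongr
      _ = C * (|C₁| + 1) * Real.exp |a + ε| * T ^ (a + ε) := by ring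
      _ ≤ _ := by
        gcongr
        exact le_max_right _ _

/-- from the sums to the transform -/
theorem winLe_of_sumLe {y a : ℝ} (hy : |y| ≤ 1 / 2) (ha : -(1 / 20) ≤ a)
    (h : SumLe (1 / 2 + y) a) :
    WinLe y a := by
  obtain ⟨C, T₀, hC, hT₀, hwz⟩ := win_zsum
  obtain ⟨B, hB, hwin⟩ := win_le
  have hpi3 := Real.pi_gt_three
  have hpi4 := Real.pi_lt_four
  have hpi0 := Real.pi_pos
  obtain ⟨hl0, hl2⟩ := log_two_pi
  rw [abs_le] at hy
  intro ε hε
  obtain ⟨δ₁, hδ₁, C₁, h1⟩ := h ε hε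
  set δ : ℝ := min (δ₁ / 4) (1 / 40) with hδ
  have hδ0 : 0 < δ := lt_min (by positivity) (by norm_num)
  have hδa : δ ≤ δ₁ / 4 := min_le_left _ _
  have hδb : δ ≤ 1 / 40 := min_le_right _ _
  set T₁ : ℝ := max (max T₀ 3) (Real.exp (max (8 / δ₁) 80)) with hT₁
  refine ⟨δ, hδ0, max (B * Real.exp (Real.pi * T₁ / 4) * T₁)
    (C * (|C₁| * Real.exp |a + ε| + 1)), fun T ω hT hω => ?_⟩
  have hT0 : 0 < T := by linarith
  have hT1 : 1 ≤ T := by linarith
  have hsz := size_pos' hT
  rcases le_total T T₁ with hTT | hTT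
  · have h2 := size_low hT hTT
    have hTa := inv_le_rpow hT1 hTT (x := a + ε) (by linarith)
    have hT₁0 : 0 < T₁ := by linarith
    have h3 : 1 ≤ Real.exp (Real.pi * T₁ / 4) * T₁ * (T ^ (a + ε) * size T) := by
      calc (1 : ℝ) = Real.exp (Real.pi * T₁ / 4) * T₁ *
            (T₁⁻¹ * Real.exp (-(Real.pi * T₁ / 4))) := by
            rw [Real.exp_neg]
            field_simp
        _ ≤ _ := by gcongr
    calc ‖win ω T‖ ≤ B := hwin ω T
      _ = B * 1 := (mul_one _).symm
      _ ≤ B * (Real.exp (Real.pi * T₁ / 4) * T₁ * (T ^ (a + ε) * size T)) := by gcongr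
      _ = B * Real.exp (Real.pi * T₁ / 4) * T₁ * T ^ (a + ε) * size T := by ring
      _ ≤ _ := by
        gcongr
        exact le_max_left _ _
  · set T' : ℝ := T - Real.pi / 8 with hT'
    have hT3 : 3 ≤ T := (le_max_right _ _).trans ((le_max_left _ _).trans hTT)
    have hT'2 : 2 ≤ T' := by linarith
    have hTT' : T' ≤ T := by linarith
    have hT'T : T ≤ 2 * T' := by linarith
    have hT'0 : 0 < T' := by linarith
    obtain ⟨hla, hlb⟩ := log_near hT'0 hTT' hT'T
    have hlog : max (8 / δ₁) 80 ≤ Real.log T := by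
      rw [Real.le_log_iff_exp_le hT0]
      exact (le_max_right _ _).trans hTT
    have hlog1 : 8 / δ₁ ≤ Real.log T := (le_max_left _ _).trans hlog
    have hlog2 : 80 ≤ Real.log T := (le_max_right _ _).trans hlog
    have hlog3 : 8 ≤ δ₁ * Real.log T := by
      rw [div_le_iff₀ hδ₁] at hlog1
      linarith
    set N : ℝ := Real.exp ω * √(T / (2 * Real.pi)) with hN
    have hN0 : 0 < N := mul_pos (Real.exp_pos _) (Real.sqrt_pos.2 (by positivity))
    have e3 : Real.log N = ω + (Real.log T - Real.log (2 * Real.pi)) / 2 := by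
      rw [hN, log_len ω hT0, Real.log_div hT0.ne' (by positivity)]
    obtain ⟨hω1, hω2⟩ := abs_le.1 hω
    have hy0 : 0 ≤ 1 / 2 + y := by linarith [hy.1]
    have hy1 : 1 / 2 + y ≤ 1 := by linarith [hy.2]
    have hm1 : (1 / 2 + y) * Real.log T' ≤ (1 / 2 + y) * Real.log T := by gcongr
    have hm2 : (1 / 2 + y) * Real.log T ≤ (1 / 2 + y) * (Real.log T' + 1) := by gcongr
    have hm3 : δ * Real.log T ≤ δ * (Real.log T' + 1) := by gcongr
    have hm3' : δ * (Real.log T' + 1) ≤ δ₁ / 4 * Real.log T' + 1 := by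
      have : δ * Real.log T' ≤ δ₁ / 4 * Real.log T' := by
        have : 0 ≤ Real.log T' := by linarith
        gcongr
      linarith
    have hm4 : δ₁ * (Real.log T / 2) ≤ δ₁ * Real.log T' := by
      gcongr
      linarith
    have hm6 : δ * Real.log T ≤ 1 / 40 * Real.log T := by
      have : 0 ≤ Real.log T := by linarith
      gcongr
    have hn1 : (1 / 2 + y - δ₁) * Real.log T' ≤ Real.log N := by
      rw [e3]
      linarith
    have hn2 : Real.log N ≤ (1 / 2 + y + δ₁) * Real.log T' := by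
      rw [e3]
      linarith
    have hN1 : T' ^ (1 / 2 + y - δ₁) ≤ N := by
      rw [Real.rpow_def_of_pos hT'0, ← Real.le_log_iff_exp_le hN0]
      linarith
    have hN2 : N ≤ T' ^ (1 / 2 + y + δ₁) := by
      rw [Real.rpow_def_of_pos hT'0, ← Real.log_le_iff_le_exp hN0]
      linarith
    have hω3 : |ω| ≤ 11 / 20 * Real.log T := by
      have h2 : |y * Real.log T| ≤ 1 / 2 * Real.log T := by
        rw [abs_mul, abs_of_nonneg (by linarith : (0 : ℝ) ≤ Real.log T)]
        gcongr
        exact abs_le.2 hy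
      have h3 : |ω| ≤ |ω - y * Real.log T| + |y * Real.log T| := by
        have := abs_add_le (ω - y * Real.log T) (y * Real.log T)
        rwa [sub_add_cancel] at this
      linarith
    have hTT₀ : T₀ ≤ T := (le_max_left _ _).trans ((le_max_left _ _).trans hTT)
    have h2 := (hwz T ω hTT₀ hω3).1
    have h3 := h1 T' N hT'2 hN1 hN2
    have hp1 : T ^ (-(1 / 20) : ℝ) ≤ T ^ (a + ε) :=
      Real.rpow_le_rpow_of_exponent_le hT1 (by linarith)
    have hp2 : T' ^ (a + ε) ≤ Real.exp |a + ε| * T ^ (a + ε) :=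
      rpow_near hT0 hT'0 (abs_le.2 ⟨by linarith, by linarith⟩) _
    have hp3 : 0 < T' ^ (a + ε) := by positivity
    have h4 : ‖zsum N T'‖ ≤ |C₁| * (Real.exp |a + ε| * T ^ (a + ε)) := by
      refine h3.trans ?_
      calc C₁ * T' ^ (a + ε) ≤ |C₁| * T' ^ (a + ε) := by
            gcongr
            exact le_abs_self _
        _ ≤ _ := by gcongr
    calc ‖win ω T‖ ≤ C * size T * (‖zsum N T'‖ + T ^ (-(1 / 20) : ℝ)) := h2
      _ ≤ C * size T * (|C₁| * (Real.exp |a + ε| * T ^ (a + ε)) + T ^ (a + ε)) := by gcongr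
      _ = C * (|C₁| * Real.exp |a + ε| + 1) * T ^ (a + ε) * size T := by ring
      _ ≤ _ := by
        gcongr
        exact le_max_right _ _

/-- frequencies of the windowed transform and lengths of the smoothed zeta sums -/
theorem winLe_iff {y a : ℝ} (hy : |y| ≤ 1 / 2) (ha : 0 ≤ a) : WinLe y a ↔ SumLe (1 / 2 + y) a :=
  ⟨sumLe_of_winLe hy (by linarith), winLe_of_sumLe hy (by linarith)⟩

end Pool.Agent.DBN
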