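import Pool.Agent.DBN.SumThree
import Pool.Agent.DBN.WinSumE
import Pool.Agent.DBN.WinSumD

/-!
# Growth exponents of smoothed zeta sums from the fourth derivative test
-/

set_option autoImplicit false

namespace Pool.Agent.DBN

open Complex Finset

theorem sumFour_small {α : ℝ} (h0 : 0 ≤ α) (h1 : α ≤ 1 / 4) :
    SumLe α (27 / 10 * (α * (1 - α)) / 4) := by
  intro ε hε
  refine ⟨ε, hε, 12 * Real.exp 11, fun T N hT hN1 hN2 => ?_⟩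
  have hT0 : 0 < T := by linarith
  have hT1 : 1 ≤ T := by linarith
  have hN : 0 < N := lt_of_lt_of_le (Real.rpow_pos_of_pos hT0 _) hN1
  have hsN : √N ≤ T ^ ((α + ε) / 2) := by
    rw [Real.sqrt_eq_rpow]
    refine (Real.rpow_le_rpow hN.le hN2 (by norm_num)).trans ?_
    rw [← Real.rpow_mul hT0.le]
    apply le_of_eq
    congr 1
    ring
  set a : ℝ := 27 / 10 * (α * (1 - α)) / 4 with ha
  have hb := zsum_le (T := T) (A := 1) (B := 0) (D := 0) hN zero_le_one le_rfl le_rfl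
    (fun K M hK hM => by
      have h4 : ‖∑ n ∈ range M, exp (-(T * Real.log (K + n) : ℝ) * I)‖ ≤
          ∑ n ∈ range M, (1 : ℝ) := by
        refine norm_sum_le_of_le _ fun n _ => ?_
        rw [show (-((T * Real.log ((K : ℝ) + n) : ℝ) : ℂ) * I) =
          ((-(T * Real.log ((K : ℝ) + n)) : ℝ) : ℂ) * I by push_cast; ring,
          Complex.norm_exp_ofReal_mul_I]
      rw [sum_const, card_range, nsmul_eq_mul, mul_one] at h4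
      have h5 : (M : ℝ) ≤ K := by exact_mod_cast hM
      linarith)
  have h6 : √N ≤ T ^ (a + ε) := hsN.trans
    (Real.rpow_le_rpow_of_exponent_le hT1 (by rw [ha]; nlinarith))
  calc ‖zsum N T‖ ≤ 12 * Real.exp 11 * (1 * √N + 0 / √N + 0) := hb
    _ = 12 * Real.exp 11 * √N := by ring
    _ ≤ 12 * Real.exp 11 * T ^ (a + ε) := mul_le_mul_of_nonneg_left h6 (by positivity)

theorem sumFour_half
    (zthird : ∃ C : ℝ, 1 ≤ C ∧ ∀ (N M : ℕ) (T : ℝ), 1 ≤ N → M ≤ N → 1 ≤ T →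
      ‖∑ n ∈ range M, exp (-(T * Real.log (N + n) : ℝ) * I)‖ ≤
        C * ((N : ℝ) ^ (1 / 2 : ℝ) * T ^ (1 / 6 : ℝ) + N * T ^ (-(1 / 6) : ℝ)))
    {α : ℝ} (h0 : 4 / 9 ≤ α) (h1 : α ≤ 1 / 2) :
    SumLe α (27 / 10 * (α * (1 - α)) / 4) := by
  obtain ⟨C₃, hC₃, h₃⟩ := zthird
  intro ε hε
  refine ⟨ε, hε, 12 * Real.exp 11 * (2 * C₃), fun T N hT hN1 hN2 => ?_⟩
  have hT0 : 0 < T := by linarith
  have hT1 : 1 ≤ T := by linarith
  have hN : 0 < N := lt_of_lt_of_le (Real.rpow_pos_of_pos hT0 _) hN1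
  have hsN : √N ≤ T ^ ((α + ε) / 2) := by
    rw [Real.sqrt_eq_rpow]
    refine (Real.rpow_le_rpow hN.le hN2 (by norm_num)).trans ?_
    rw [← Real.rpow_mul hT0.le]
    apply le_of_eq
    congr 1
    ring
  set a : ℝ := 27 / 10 * (α * (1 - α)) / 4 with ha
  have ha6 : 1 / 6 ≤ a := by
    rw [ha]
    nlinarith [mul_nonneg (sub_nonneg.2 h0) (by linarith : (0 : ℝ) ≤ 5 / 9 - α)]
  have hTm : 0 < T ^ (-(1 / 6) : ℝ) := Real.rpow_pos_of_pos hT0 _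
  have hTp : 0 < T ^ (1 / 6 : ℝ) := Real.rpow_pos_of_pos hT0 _
  have hb := zsum_le (T := T) (A := C₃ * T ^ (-(1 / 6) : ℝ)) (B := 0) (D := C₃ * T ^ (1 / 6 : ℝ))
    hN (by positivity) le_rfl (by positivity)
    (fun K M hK hM => by
      have h4 := h₃ K M T hK hM hT1
      rw [← Real.sqrt_eq_rpow] at h4
      refine h4.trans (le_of_eq ?_)
      ring)
  have h5 : T ^ (-(1 / 6) : ℝ) * √N ≤ T ^ (a + ε) := by
    calc T ^ (-(1 / 6) : ℝ) * √N ≤ T ^ (-(1 / 6) : ℝ) * T ^ ((α + ε) / 2) := by gcongr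
      _ = T ^ (-(1 / 6) + (α + ε) / 2) := by rw [Real.rpow_add hT0]
      _ ≤ T ^ (a + ε) := Real.rpow_le_rpow_of_exponent_le hT1 (by linarith)
  have h6 : T ^ (1 / 6 : ℝ) ≤ T ^ (a + ε) :=
    Real.rpow_le_rpow_of_exponent_le hT1 (by linarith)
  calc ‖zsum N T‖ ≤ 12 * Real.exp 11 *
        (C₃ * T ^ (-(1 / 6) : ℝ) * √N + 0 / √N + C₃ * T ^ (1 / 6 : ℝ)) := hb
    _ = 12 * Real.exp 11 * (C₃ * (T ^ (-(1 / 6) : ℝ) * √N + T ^ (1 / 6 : ℝ))) := by ring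
    _ ≤ 12 * Real.exp 11 * (C₃ * (T ^ (a + ε) + T ^ (a + ε))) := by gcongr
    _ = 12 * Real.exp 11 * (2 * C₃) * T ^ (a + ε) := by ring

theorem sumFour_mid
    (zfourth : ∃ C : ℝ, 1 ≤ C ∧ ∀ (N M : ℕ) (T : ℝ), 1 ≤ N → M ≤ N → 1 ≤ T →
      ‖∑ n ∈ Finset.range M, exp (-(T * Real.log (N + n) : ℝ) * I)‖ ≤
        C * ((N : ℝ) ^ (5 / 7 : ℝ) * T ^ (1 / 14 : ℝ) +
          (N : ℝ) ^ (29 / 28 : ℝ) * T ^ (-(1 / 14) : ℝ)))
    (zsum_le_rpow : ∀ p q : ℝ, ∃ C : ℝ, 1 ≤ C ∧ ∀ N T A B : ℝ, 0 < N → 0 ≤ A → 0 ≤ B →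
      (∀ K M : ℕ, 1 ≤ K → M ≤ K →
        ‖∑ n ∈ Finset.range M, exp (-(T * Real.log (K + n) : ℝ) * I)‖ ≤
          A * (K : ℝ) ^ p + B * (K : ℝ) ^ q) →
      ‖zsum N T‖ ≤ C * (A * N ^ (p - 1 / 2) + B * N ^ (q - 1 / 2)))
    {α : ℝ} (h0 : 1 / 4 ≤ α) (h1 : α ≤ 4 / 9) :
    SumLe α (27 / 10 * (α * (1 - α)) / 4) := by
  obtain ⟨C₄, hC₄, h₄⟩ := zfourth
  obtain ⟨C₅, hC₅, h₅⟩ := zsum_le_rpow (5 / 7) (29 / 28)
  intro ε hε
  refine ⟨ε, hε, C₅ * (2 * C₄), fun T N hT hN1 hN2 => ?_⟩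
  have hT0 : 0 < T := by linarith
  have hT1 : 1 ≤ T := by linarith
  have hN : 0 < N := lt_of_lt_of_le (Real.rpow_pos_of_pos hT0 _) hN1
  set a : ℝ := 27 / 10 * (α * (1 - α)) / 4 with ha
  have hTm : 0 < T ^ (-(1 / 14) : ℝ) := Real.rpow_pos_of_pos hT0 _
  have hTp : 0 < T ^ (1 / 14 : ℝ) := Real.rpow_pos_of_pos hT0 _
  have hpow : ∀ r : ℝ, 0 ≤ r → N ^ r ≤ T ^ ((α + ε) * r) := by
    intro r hr
    rw [Real.rpow_mul hT0.le]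
    exact Real.rpow_le_rpow hN.le hN2 hr
  have hprod : 0 ≤ (4 / 9 - α) * (α - 5 / 21) :=
    mul_nonneg (by linarith) (by linarith)
  have hprod' : 0 ≤ (4 / 9 - α) * (α + 5 / 21) :=
    mul_nonneg (by linarith) (by linarith)
  have hb := h₅ N T (C₄ * T ^ (1 / 14 : ℝ)) (C₄ * T ^ (-(1 / 14) : ℝ)) hN (by positivity)
    (by positivity) (fun K M hK hM => (h₄ K M T hK hM hT1).trans (le_of_eq (by ring)))
  have e1 : (5 / 7 - 1 / 2 : ℝ) = 3 / 14 := by norm_num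
  have e2 : (29 / 28 - 1 / 2 : ℝ) = 15 / 28 := by norm_num
  rw [e1, e2] at hb
  have h5 : T ^ (1 / 14 : ℝ) * N ^ (3 / 14 : ℝ) ≤ T ^ (a + ε) := by
    calc T ^ (1 / 14 : ℝ) * N ^ (3 / 14 : ℝ)
        ≤ T ^ (1 / 14 : ℝ) * T ^ ((α + ε) * (3 / 14)) :=
          mul_le_mul_of_nonneg_left (hpow _ (by norm_num)) hTp.le
      _ = T ^ (1 / 14 + (α + ε) * (3 / 14)) := by rw [Real.rpow_add hT0]
      _ ≤ T ^ (a + ε) := Real.rpow_le_rpow_of_exponent_le hT1 (by rw [ha]; nlinarith)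
  have h6 : T ^ (-(1 / 14) : ℝ) * N ^ (15 / 28 : ℝ) ≤ T ^ (a + ε) := by
    calc T ^ (-(1 / 14) : ℝ) * N ^ (15 / 28 : ℝ)
        ≤ T ^ (-(1 / 14) : ℝ) * T ^ ((α + ε) * (15 / 28)) :=
          mul_le_mul_of_nonneg_left (hpow _ (by norm_num)) hTm.le
      _ = T ^ (-(1 / 14) + (α + ε) * (15 / 28)) := by rw [Real.rpow_add hT0]
      _ ≤ T ^ (a + ε) := Real.rpow_le_rpow_of_exponent_le hT1 (by rw [ha]; nlinarith)
  calc ‖zsum N T‖ ≤ C₅ * (C₄ * T ^ (1 / 14 : ℝ) * N ^ (3 / 14 : ℝ) +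
        C₄ * T ^ (-(1 / 14) : ℝ) * N ^ (15 / 28 : ℝ)) := hb
    _ = C₅ * (C₄ * (T ^ (1 / 14 : ℝ) * N ^ (3 / 14 : ℝ) +
        T ^ (-(1 / 14) : ℝ) * N ^ (15 / 28 : ℝ))) := by ring
    _ ≤ C₅ * (C₄ * (T ^ (a + ε) + T ^ (a + ε))) := by gcongr
    _ = C₅ * (2 * C₄) * T ^ (a + ε) := by ring

theorem sumLe_four_of
    (zfourth : ∃ C : ℝ, 1 ≤ C ∧ ∀ (N M : ℕ) (T : ℝ), 1 ≤ N → M ≤ N → 1 ≤ T →
      ‖∑ n ∈ Finset.range M, exp (-(T * Real.log (N + n) : ℝ) * I)‖ ≤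
        C * ((N : ℝ) ^ (5 / 7 : ℝ) * T ^ (1 / 14 : ℝ) +
          (N : ℝ) ^ (29 / 28 : ℝ) * T ^ (-(1 / 14) : ℝ)))
    (zsum_le_rpow : ∀ p q : ℝ, ∃ C : ℝ, 1 ≤ C ∧ ∀ N T A B : ℝ, 0 < N → 0 ≤ A → 0 ≤ B →
      (∀ K M : ℕ, 1 ≤ K → M ≤ K →
        ‖∑ n ∈ Finset.range M, exp (-(T * Real.log (K + n) : ℝ) * I)‖ ≤
          A * (K : ℝ) ^ p + B * (K : ℝ) ^ q) →
      ‖zsum N T‖ ≤ C * (A * N ^ (p - 1 / 2) + B * N ^ (q - 1 / 2)))
    (α : ℝ) (h0 : 0 ≤ α) (h1 : α ≤ 1) : SumLe α (27 / 10 * (α * (1 - α)) / 4) := by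
  have key : ∀ β : ℝ, 0 ≤ β → β ≤ 1 / 2 → SumLe β (27 / 10 * (β * (1 - β)) / 4) := by
    intro β hβ0 hβ1
    rcases le_total β (1 / 4) with h | h
    · exact sumFour_small hβ0 h
    rcases le_total β (4 / 9) with h' | h'
    · exact sumFour_mid zfourth zsum_le_rpow h h'
    · exact sumFour_half zthird h' hβ1
  rcases le_total α (1 / 2) with h | h
  · exact key α h0 h
  · have hk := key (1 - α) (by linarith) (by linarith)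
    have ha : 0 ≤ 27 / 10 * (α * (1 - α)) / 4 := by
      have := mul_nonneg h0 (sub_nonneg.2 h1)
      positivity
    have e1 : 27 / 10 * ((1 - α) * (1 - (1 - α))) / 4 = 27 / 10 * (α * (1 - α)) / 4 := by ring
    rw [e1] at hk
    have hy : |1 / 2 - α| ≤ 1 / 2 := abs_le.2 ⟨by linarith, by linarith⟩
    have hy' : |α - 1 / 2| ≤ 1 / 2 := abs_le.2 ⟨by linarith, by linarith⟩
    have h2 : WinLe (1 / 2 - α) (27 / 10 * (α * (1 - α)) / 4) := by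
      rw [winLe_iff hy ha]
      convert hk using 1
      ring
    have h3 := winLe_neg h2
    have e2 : -(1 / 2 - α) = α - 1 / 2 := by ring
    rw [e2, winLe_iff hy' ha] at h3
    convert h3 using 1
    ring

end Pool.Agent.DBN
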