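import Pool.Agent.DBN.SumBlock

/-!
# Smoothed zeta sums from bounds for dyadic exponential sums, general powers (helper42, after
SumBlock.lean of helper17)
-/

set_option autoImplicit false

namespace Pool.Agent.DBN

open Complex Finset Filter Topology

/-- V4C: from dyadic blocks to the smoothed sum, general powers -/
theorem zsum_le_rpow (p q : ℝ) : ∃ C : ℝ, 1 ≤ C ∧ ∀ N T A B : ℝ, 0 < N → 0 ≤ A → 0 ≤ B →
    (∀ K M : ℕ, 1 ≤ K → M ≤ K →
      ‖∑ n ∈ Finset.range M, exp (-(T * Real.log (K + n) : ℝ) * I)‖ ≤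
        A * (K : ℝ) ^ p + B * (K : ℝ) ^ q) →
    ‖zsum N T‖ ≤ C * (A * N ^ (p - 1 / 2) + B * N ^ (q - 1 / 2)) := by
  set P : ℝ := |p - 1 / 2| + |q - 1 / 2| with hP
  have hP0 : 0 ≤ P := by positivity
  have hPp : |p - 1 / 2| ≤ P := le_add_of_nonneg_right (abs_nonneg _)
  have hPq : |q - 1 / 2| ≤ P := le_add_of_nonneg_left (abs_nonneg _)
  refine ⟨12 * Real.exp (2 + 4 * (P + 1) ^ 2), ?_, ?_⟩
  · have h1 : 1 ≤ Real.exp (2 + 4 * (P + 1) ^ 2) := Real.one_le_exp (by positivity)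
    linarith
  intro N T A B hN hA hB h
  set X : ℝ := A * N ^ (p - 1 / 2) + B * N ^ (q - 1 / 2) with hX
  have hX0 : 0 ≤ X := by positivity
  set l : ℝ := Real.log N with hl
  set F : ℕ → ℂ := fun m => (Real.exp (wexp l (Real.log m)) : ℂ) *
    exp (-(T * Real.log m : ℝ) * I) with hF
  have hNp : ∀ r : ℝ, N ^ r = Real.exp (r * l) := by
    intro r
    rw [Real.rpow_def_of_pos hN, mul_comm]
  -- a single block
  have hblock : ∀ j : ℕ, ‖∑ r ∈ range (2 ^ j), F (2 ^ j + r)‖ ≤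
      2 * Real.exp (2 + 4 * (P + 1) ^ 2) * X *
        Real.exp (-|j * Real.log 2 + Real.log (1 / N)|) := by
    intro j
    have hK : 1 ≤ 2 ^ j := Nat.one_le_two_pow
    have hb := block_le (T := T) (l := l) (K := 2 ^ j) hK (fun M hM => h (2 ^ j) M hK hM)
    have hKr : (((2 ^ j : ℕ) : ℝ)) = (2 : ℝ) ^ j := by push_cast; rfl
    set k : ℝ := Real.log ((2 ^ j : ℕ) : ℝ) with hk
    have hkj : k = j * Real.log 2 := by rw [hk, hKr, Real.log_pow]
    have hK0 : (0 : ℝ) < ((2 ^ j : ℕ) : ℝ) := by rw [hKr]; positivity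
    have hKp : ∀ r : ℝ, ((2 ^ j : ℕ) : ℝ) ^ r = Real.exp (r * k) := by
      intro r
      rw [Real.rpow_def_of_pos hK0, mul_comm]
    have e0 : ∑ r ∈ range (2 ^ j), F (2 ^ j + r) = ∑ n ∈ range (2 ^ j),
        (Real.exp (wexp l (Real.log (((2 ^ j : ℕ) : ℝ) + n))) : ℂ) *
        exp (-(T * Real.log (((2 ^ j : ℕ) : ℝ) + n) : ℝ) * I) := by
      refine sum_congr rfl fun r _ => ?_
      simp only [hF]
      push_cast
      rfl
    rw [e0]
    refine hb.trans ?_
    set S : ℝ := A * ((2 ^ j : ℕ) : ℝ) ^ p + B * ((2 ^ j : ℕ) : ℝ) ^ q with hS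
    have e1 : j * Real.log 2 + Real.log (1 / N) = k - l := by
      rw [one_div, Real.log_inv, hkj]; ring
    rw [e1]
    have hpow : ∀ r : ℝ, |r - 1 / 2| ≤ P →
        ((2 ^ j : ℕ) : ℝ) ^ r * Real.exp (-k / 2) ≤ N ^ (r - 1 / 2) * Real.exp (P * |k - l|) := by
      intro r hr
      rw [hKp, hNp, ← Real.exp_add, ← Real.exp_add]
      apply Real.exp_le_exp.mpr
      have h2 : (r - 1 / 2) * (k - l) ≤ P * |k - l| := by
        calc (r - 1 / 2) * (k - l) ≤ |(r - 1 / 2) * (k - l)| := le_abs_self _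
          _ = |r - 1 / 2| * |k - l| := abs_mul _ _
          _ ≤ P * |k - l| := mul_le_mul_of_nonneg_right hr (abs_nonneg _)
      linarith
    have h1 : S * Real.exp (-k / 2) ≤ X * Real.exp (P * |k - l|) := by
      have h2 := mul_le_mul_of_nonneg_left (hpow p hPp) hA
      have h3 := mul_le_mul_of_nonneg_left (hpow q hPq) hB
      rw [hS, hX]
      linarith
    have h5 : Real.exp (P * |k - l|) * Real.exp (-(k - l) ^ 2 / 16) ≤
        Real.exp (4 * (P + 1) ^ 2) * Real.exp (-|k - l|) := by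
      rw [← Real.exp_add, ← Real.exp_add]
      apply Real.exp_le_exp.mpr
      have h2 : (k - l) ^ 2 = |k - l| ^ 2 := (sq_abs _).symm
      rw [h2]
      nlinarith [sq_nonneg (|k - l| / 4 - 2 * (P + 1))]
    have h6 : 0 < Real.exp (-(k - l) ^ 2 / 16) := Real.exp_pos _
    calc 2 * Real.exp 2 * S * Real.exp (-k / 2) * Real.exp (-(k - l) ^ 2 / 16)
        = 2 * Real.exp 2 * (S * Real.exp (-k / 2)) * Real.exp (-(k - l) ^ 2 / 16) := by ring
      _ ≤ 2 * Real.exp 2 * (X * Real.exp (P * |k - l|)) * Real.exp (-(k - l) ^ 2 / 16) := by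
          gcongr
      _ = 2 * Real.exp 2 * X * (Real.exp (P * |k - l|) * Real.exp (-(k - l) ^ 2 / 16)) := by ring
      _ ≤ 2 * Real.exp 2 * X * (Real.exp (4 * (P + 1) ^ 2) * Real.exp (-|k - l|)) := by gcongr
      _ = 2 * Real.exp (2 + 4 * (P + 1) ^ 2) * X * Real.exp (-|k - l|) := by
          rw [Real.exp_add]; ring
  -- partial sums
  have hpart : ∀ J : ℕ, ‖∑ n ∈ range (2 ^ J - 1), F (n + 1)‖ ≤
      12 * Real.exp (2 + 4 * (P + 1) ^ 2) * X := by
    intro J
    rw [sum_dyadic]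
    refine (norm_sum_le_of_le _ fun j _ => hblock j).trans ?_
    rw [← mul_sum]
    have := sum_min_le (x := 1 / N) (by positivity) J
    calc 2 * Real.exp (2 + 4 * (P + 1) ^ 2) * X *
          ∑ j ∈ range J, Real.exp (-|j * Real.log 2 + Real.log (1 / N)|)
        ≤ 2 * Real.exp (2 + 4 * (P + 1) ^ 2) * X * 6 := by gcongr
      _ = 12 * Real.exp (2 + 4 * (P + 1) ^ 2) * X := by ring
  have hz : zsum N T = ∑' n : ℕ, F (n + 1) := by
    unfold zsum
    refine tsum_congr fun n => ?_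
    rw [zsum_term hN (by omega : 1 ≤ n + 1)]
  rw [hz]
  by_cases hsum : Summable fun n : ℕ => F (n + 1)
  · have ht := hsum.hasSum.tendsto_sum_nat
    have hsub : Tendsto (fun J : ℕ => 2 ^ J - 1) atTop atTop := by
      refine tendsto_atTop_mono (f := fun J : ℕ => J) (fun J => ?_) tendsto_id
      have := Nat.lt_two_pow_self (n := J)
      omega
    have h2 := (ht.comp hsub).norm
    exact le_of_tendsto h2 (Eventually.of_forall fun J => hpart J)
  · rw [tsum_eq_zero_of_not_summable hsum, norm_zero]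
    positivity

end Pool.Agent.DBN
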