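import Pool.Agent.DBN.Vdc2
import Pool.Agent.DBN.Vdc3a

/-!
# Van der Corput's third derivative test for a sequence
-/

set_option autoImplicit false

namespace Pool.Agent.DBN

open Complex

open scoped ComplexConjugate

namespace V3G_

/-- second differences of the shifted phase, from third differences -/
lemma second_diff {m : ℕ} {θ : ℕ → ℝ} {l h : ℝ}
    (H : ∀ n, n + 3 < m → l ≤ θ (n + 3) - 3 * θ (n + 2) + 3 * θ (n + 1) - θ n ∧
      θ (n + 3) - 3 * θ (n + 2) + 3 * θ (n + 1) - θ n ≤ h * l) (n k : ℕ) (hn : n + k + 2 < m) :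
    k * l ≤ (θ (n + k + 2) - 2 * θ (n + k + 1) + θ (n + k)) -
        (θ (n + 2) - 2 * θ (n + 1) + θ n) ∧
      (θ (n + k + 2) - 2 * θ (n + k + 1) + θ (n + k)) -
        (θ (n + 2) - 2 * θ (n + 1) + θ n) ≤ k * (h * l) := by
  induction k with
  | zero => simp
  | succ k ih =>
    obtain ⟨h1, h2⟩ := ih (by omega)
    obtain ⟨h3, h4⟩ := H (n + k) (by omega)
    have e1 : n + (k + 1) + 2 = n + k + 3 := by ring
    have e2 : n + (k + 1) + 1 = n + k + 2 := by ring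
    have e3 : n + (k + 1) = n + k + 1 := by ring
    rw [e1, e2, e3]
    push_cast
    constructor <;> linarith

/-- the correlation sums -/
lemma corr_bound {C : ℝ} (hC : 1 ≤ C) (hv : ∀ (m : ℕ) (θ : ℕ → ℝ) (l h : ℝ), 0 < l → 1 ≤ h →
    (∀ n, n + 2 < m → l ≤ θ (n + 2) - 2 * θ (n + 1) + θ n ∧
      θ (n + 2) - 2 * θ (n + 1) + θ n ≤ h * l) →
    ‖∑ n ∈ Finset.range m, exp (θ n * I)‖ ≤ C * (h * m * √l + 1 / √l))
    {h : ℝ} (hh : 1 ≤ h) {m k : ℕ} {θ : ℕ → ℝ} {v : ℝ} (hk : 1 ≤ k) (hv0 : 0 < v)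
    (H : ∀ n, n + 3 < m → v ^ 6 ≤ θ (n + 3) - 3 * θ (n + 2) + 3 * θ (n + 1) - θ n ∧
      θ (n + 3) - 3 * θ (n + 2) + 3 * θ (n + 1) - θ n ≤ h * v ^ 6) :
    ‖∑ n ∈ Finset.range (m - k), exp (θ (n + k) * I) * conj (exp (θ n * I))‖ ≤
      C * (h * m * (√k * v ^ 3) + 1 / (√k * v ^ 3)) := by
  have hk0 : (1 : ℝ) ≤ k := by exact_mod_cast hk
  have hkpos : (0 : ℝ) < k := by linarith
  have e1 : ∑ n ∈ Finset.range (m - k), exp (θ (n + k) * I) * conj (exp (θ n * I)) =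
      ∑ n ∈ Finset.range (m - k), exp (((θ (n + k) - θ n : ℝ) : ℂ) * I) := by
    refine Finset.sum_congr rfl fun n _ => ?_
    rw [← Complex.exp_conj, ← Complex.exp_add]
    congr 1
    simp only [map_mul, Complex.conj_ofReal, Complex.conj_I]
    push_cast
    ring
  rw [e1]
  have hsk : 0 < √(k : ℝ) := Real.sqrt_pos.mpr hkpos
  have hsl : √((k : ℝ) * v ^ 6) = √k * v ^ 3 := by
    rw [Real.sqrt_mul hkpos.le, show v ^ 6 = (v ^ 3) ^ 2 by ring,
      Real.sqrt_sq (by positivity)]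
  have h1 := hv (m - k) (fun n => θ (n + k) - θ n) (k * v ^ 6) h (by positivity) hh (by
    intro n hn
    obtain ⟨h2, h3⟩ := second_diff H n k (by omega)
    have a1 : n + 2 + k = n + k + 2 := by ring
    have a2 : n + 1 + k = n + k + 1 := by ring
    simp only [a1, a2]
    constructor
    · linarith
    · linarith)
  rw [hsl] at h1
  refine h1.trans ?_
  have hMk : ((m - k : ℕ) : ℝ) ≤ m := by exact_mod_cast Nat.sub_le m k
  gcongr

/-- the final algebra -/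
lemma alg {C h m v q ρ R r S : ℝ} (hC : 1 ≤ C) (hh : 1 ≤ h) (hm0 : 0 ≤ m) (hv0 : 0 < v)
    (hq0 : 0 ≤ q) (hqm : q ^ 2 = m) (hr : r = 1 / v ^ 2) (hR0 : 0 < R) (hρ0 : 0 < ρ)
    (hρ2 : ρ ^ 2 = R) (hrR2 : r / 2 ≤ R) (hρ1 : ρ ≤ 1 / v) (hρ3 : 1 / v ≤ 2 * ρ)
    (h2 : R * S ^ 2 ≤ 2 * m ^ 2 + 4 * m * (C * (h * m * v ^ 3 * (R * ρ) + 2 * ρ / v ^ 3))) :
    S ^ 2 ≤ (8 * (C * h) * (m * v + q * v⁻¹)) ^ 2 := by
  set x : ℝ := m * v with hx
  set y : ℝ := q * v⁻¹ with hy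
  have hx0 : 0 ≤ x := by positivity
  have hy0 : 0 ≤ y := by positivity
  have hx2 : x ^ 2 = m ^ 2 * v ^ 2 := by rw [hx]; ring
  have hy2 : y ^ 2 = m / v ^ 2 := by
    rw [hy, mul_pow, hqm, inv_pow, div_eq_mul_inv]
  have h3 : S ^ 2 ≤ 4 * x ^ 2 + 4 * (C * h) * x ^ 2 + 16 * C * y ^ 2 := by
    have h4 : R * S ^ 2 ≤ R * (4 * x ^ 2 + 4 * (C * h) * x ^ 2 + 16 * C * y ^ 2) := by
      refine h2.trans ?_
      have h5 : 2 * m ^ 2 ≤ R * (4 * x ^ 2) := by
        calc 2 * m ^ 2 = r / 2 * (4 * x ^ 2) := by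
              rw [hr, hx2]
              field_simp
              ring
          _ ≤ R * (4 * x ^ 2) := by gcongr
      have h6 : 4 * m * (C * (h * m * v ^ 3 * (R * ρ))) ≤ R * (4 * (C * h) * x ^ 2) := by
        calc 4 * m * (C * (h * m * v ^ 3 * (R * ρ))) =
              R * (4 * (C * h) * (m ^ 2 * v ^ 3 * ρ)) := by ring
          _ ≤ R * (4 * (C * h) * (m ^ 2 * v ^ 3 * (1 / v))) := by gcongr
          _ = R * (4 * (C * h) * x ^ 2) := by
              rw [hx2]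
              field_simp
      have h8 : 4 * m * (C * (2 * ρ / v ^ 3)) ≤ R * (16 * C * y ^ 2) := by
        calc 4 * m * (C * (2 * ρ / v ^ 3)) = ρ * (8 * C * m / v ^ 2) * (1 / v) := by
              field_simp
              ring
          _ ≤ ρ * (8 * C * m / v ^ 2) * (2 * ρ) := by gcongr
          _ = ρ ^ 2 * (16 * C * y ^ 2) := by
              rw [hy2]
              field_simp
              ring
          _ = _ := by rw [hρ2]
      calc 2 * m ^ 2 + 4 * m * (C * (h * m * v ^ 3 * (R * ρ) + 2 * ρ / v ^ 3))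
          = 2 * m ^ 2 + 4 * m * (C * (h * m * v ^ 3 * (R * ρ))) +
            4 * m * (C * (2 * ρ / v ^ 3)) := by ring
        _ ≤ R * (4 * x ^ 2) + R * (4 * (C * h) * x ^ 2) + R * (16 * C * y ^ 2) := by
            linarith
        _ = _ := by ring
    exact le_of_mul_le_mul_left h4 hR0
  refine h3.trans ?_
  have hCC : C ≤ C * h := by nlinarith
  have hCh : 1 ≤ C * h := one_le_mul_of_one_le_of_one_le hC hh
  have hC2 : C * h ≤ (C * h) ^ 2 := by nlinarith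
  have hxy : 0 ≤ x * y := by positivity
  have e2 : (8 * (C * h) * (x + y)) ^ 2 = 64 * (C * h) ^ 2 * (x ^ 2 + 2 * (x * y) + y ^ 2) := by
    ring
  rw [e2]
  have hx2 : 0 ≤ x ^ 2 := by positivity
  have hy2 : 0 ≤ y ^ 2 := by positivity
  have f1 : C * h * x ^ 2 ≤ (C * h) ^ 2 * x ^ 2 := by gcongr
  have f2 : C * y ^ 2 ≤ (C * h) ^ 2 * y ^ 2 := by gcongr; linarith
  have f3 : x ^ 2 ≤ C * h * x ^ 2 := by nlinarith
  have f4 : 0 ≤ (C * h) ^ 2 * (x * y) := by positivity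
  have f5 : 0 ≤ (C * h) ^ 2 * x ^ 2 := by positivity
  have f6 : 0 ≤ (C * h) ^ 2 * y ^ 2 := by positivity
  nlinarith

end V3G_

open V3_ V3G_ in
/-- V4A: van der Corput's third derivative test -/
theorem vdc3_gen {h : ℝ} (hh : 1 ≤ h) : ∃ C : ℝ, 1 ≤ C ∧ ∀ (m : ℕ) (θ : ℕ → ℝ) (l : ℝ), 0 < l →
    (∀ n, n + 3 < m → l ≤ θ (n + 3) - 3 * θ (n + 2) + 3 * θ (n + 1) - θ n ∧
      θ (n + 3) - 3 * θ (n + 2) + 3 * θ (n + 1) - θ n ≤ h * l) →
    ‖∑ n ∈ Finset.range m, exp (θ n * I)‖ ≤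
      C * (m * l ^ (1 / 6 : ℝ) + (m : ℝ) ^ (1 / 2 : ℝ) * l ^ (-(1 / 6) : ℝ)) := by
  obtain ⟨C, hC, hv⟩ := vdc2
  have hCh : 1 ≤ C * h := one_le_mul_of_one_le_of_one_le hC hh
  refine ⟨8 * (C * h), by linarith, fun m θ l hl H => ?_⟩
  set v : ℝ := l ^ (1 / 6 : ℝ) with hvd
  have hv0 : 0 < v := Real.rpow_pos_of_pos hl _
  have hvl : v ^ 6 = l := by
    rw [hvd, ← Real.rpow_natCast, ← Real.rpow_mul hl.le]
    norm_num
  set q : ℝ := √(m : ℝ) with hq
  have hm0 : (0 : ℝ) ≤ m := Nat.cast_nonneg m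
  have hq0 : 0 ≤ q := Real.sqrt_nonneg _
  have hqm : q ^ 2 = m := Real.sq_sqrt hm0
  have hm2 : (m : ℝ) ^ (1 / 2 : ℝ) = q := by rw [hq, Real.sqrt_eq_rpow]
  have hl2 : l ^ (-(1 / 6) : ℝ) = v⁻¹ := by rw [Real.rpow_neg hl.le, hvd]
  rw [hm2, hl2]
  have htriv := norm_sum_exp_le m θ
  have hgoal0 : 0 ≤ (m : ℝ) * v + q * v⁻¹ := by positivity
  have hmon : (m : ℝ) * v + q * v⁻¹ ≤ 8 * (C * h) * (m * v + q * v⁻¹) := by nlinarith
  rcases le_or_gt 1 v with hv1 | hv1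
  · calc ‖∑ n ∈ Finset.range m, exp (θ n * I)‖ ≤ m := htriv
      _ ≤ m * v := by nlinarith
      _ ≤ m * v + q * v⁻¹ := by
          have : 0 ≤ q * v⁻¹ := by positivity
          linarith
      _ ≤ _ := hmon
  set r : ℝ := 1 / v ^ 2 with hr
  have hr1 : 1 ≤ r := by
    rw [hr, one_le_div (by positivity)]
    nlinarith
  set R : ℕ := ⌊r⌋₊ with hR
  have hR1 : 1 ≤ R := by rwa [hR, Nat.one_le_floor_iff]
  have hRr : (R : ℝ) ≤ r := Nat.floor_le (by linarith)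
  have hrR : r < R + 1 := Nat.lt_floor_add_one r
  have hR1' : (1 : ℝ) ≤ R := by exact_mod_cast hR1
  have hrR2 : r / 2 ≤ R := by linarith
  rcases Nat.lt_or_ge m R with hMR | hMR
  · have h1 : (m : ℝ) ≤ r := by
      have : (m : ℝ) ≤ R := by exact_mod_cast hMR.le
      linarith
    have h2 : q ≤ v⁻¹ := by
      have h3 : q ^ 2 ≤ v⁻¹ ^ 2 := by
        rw [hqm, inv_pow, ← one_div]
        exact h1
      exact (sq_le_sq₀ hq0 (by positivity)).mp h3
    calc ‖∑ n ∈ Finset.range m, exp (θ n * I)‖ ≤ m := htriv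
      _ = q * q := by rw [← hqm]; ring
      _ ≤ q * v⁻¹ := by gcongr
      _ ≤ m * v + q * v⁻¹ := by
          have : 0 ≤ (m : ℝ) * v := by positivity
          linarith
      _ ≤ _ := hmon
  -- the main case
  have ha1 : ∀ n, ‖exp (θ n * I)‖ ≤ 1 := fun n => by rw [Complex.norm_exp_ofReal_mul_I]
  have h1 := vdc_ineq (fun n => exp (θ n * I)) m R hR1 hMR ha1
  set ρ : ℝ := √R with hρ
  have hρ0 : 0 < ρ := Real.sqrt_pos.mpr (by linarith)
  have hρ2 : ρ ^ 2 = R := Real.sq_sqrt (by linarith)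
  have hH : ∀ n, n + 3 < m → v ^ 6 ≤ θ (n + 3) - 3 * θ (n + 2) + 3 * θ (n + 1) - θ n ∧
      θ (n + 3) - 3 * θ (n + 2) + 3 * θ (n + 1) - θ n ≤ h * v ^ 6 := by
    rw [hvl]
    exact H
  have hsum : ∑ k ∈ Finset.Ico 1 R,
      ‖∑ n ∈ Finset.range (m - k), exp (θ (n + k) * I) * conj (exp (θ n * I))‖ ≤
      C * (h * m * v ^ 3 * (R * ρ) + 2 * ρ / v ^ 3) := by
    calc ∑ k ∈ Finset.Ico 1 R,
      ‖∑ n ∈ Finset.range (m - k), exp (θ (n + k) * I) * conj (exp (θ n * I))‖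
        ≤ ∑ k ∈ Finset.Ico 1 R, C * (h * m * (√k * v ^ 3) + 1 / (√k * v ^ 3)) := by
          refine Finset.sum_le_sum fun k hk => ?_
          exact V3G_.corr_bound hC hv hh (Finset.mem_Ico.mp hk).1 hv0 hH
      _ = C * (h * m * v ^ 3 * ∑ k ∈ Finset.Ico 1 R, √(k : ℝ) +
          (∑ k ∈ Finset.Ico 1 R, 1 / √(k : ℝ)) / v ^ 3) := by
          rw [← Finset.mul_sum, Finset.sum_add_distrib, Finset.mul_sum, Finset.sum_div]
          congr 2
          · refine Finset.sum_congr rfl fun k _ => ?_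
            ring
          · refine Finset.sum_congr rfl fun k _ => ?_
            rw [div_div]
      _ ≤ _ := by
          have h2 : ∑ k ∈ Finset.Ico 1 R, √(k : ℝ) ≤ R * ρ := by
            calc ∑ k ∈ Finset.Ico 1 R, √(k : ℝ) ≤ ∑ k ∈ Finset.Ico 1 R, ρ := by
                  refine Finset.sum_le_sum fun k hk => ?_
                  have := (Finset.mem_Ico.mp hk).2
                  exact Real.sqrt_le_sqrt (by exact_mod_cast this.le)
              _ = ((R - 1 : ℕ) : ℝ) * ρ := by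
                  rw [Finset.sum_const, Nat.card_Ico, nsmul_eq_mul]
              _ ≤ R * ρ := by
                  gcongr
                  exact Nat.sub_le R 1
          have h3 : ∑ k ∈ Finset.Ico 1 R, 1 / √(k : ℝ) ≤ 2 * ρ := by
            rw [Finset.sum_Ico_eq_sum_range]
            have h4 : ∑ k ∈ Finset.range (R - 1), 1 / √(((1 + k : ℕ)) : ℝ) =
                ∑ k ∈ Finset.range (R - 1), 1 / √((k : ℝ) + 1) := by
              refine Finset.sum_congr rfl fun k _ => ?_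
              push_cast
              rw [add_comm]
            rw [h4]
            refine (sum_inv_sqrt (R - 1)).trans ?_
            have : √((R - 1 : ℕ) : ℝ) ≤ ρ :=
              Real.sqrt_le_sqrt (by exact_mod_cast Nat.sub_le R 1)
            linarith
          gcongr
  set S : ℝ := ‖∑ n ∈ Finset.range m, exp (θ n * I)‖ with hS
  have hS0 : 0 ≤ S := norm_nonneg _
  have hR0 : (0 : ℝ) < R := by linarith
  have h2 : (R : ℝ) * S ^ 2 ≤
      2 * (m : ℝ) ^ 2 + 4 * m * (C * (h * m * v ^ 3 * (R * ρ) + 2 * ρ / v ^ 3)) := by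
    refine h1.trans ?_
    gcongr
  have hρ1 : ρ ≤ 1 / v := by
    have h3 : ρ ^ 2 ≤ (1 / v) ^ 2 := by
      rw [hρ2, div_pow, one_pow, ← hr]
      exact hRr
    exact (sq_le_sq₀ hρ0.le (by positivity)).mp h3
  have hρ3 : 1 / v ≤ 2 * ρ := by
    have h3 : (1 / v) ^ 2 ≤ (2 * ρ) ^ 2 := by
      rw [div_pow, one_pow, ← hr, mul_pow, hρ2]
      linarith
    exact (sq_le_sq₀ (by positivity) (by positivity)).mp h3
  have h4 := V3G_.alg hC hh hm0 hv0 hq0 hqm hr hR0 hρ0 hρ2 hrR2 hρ1 hρ3 h2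
  exact (sq_le_sq₀ hS0 (by positivity)).mp h4

end Pool.Agent.DBN
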