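import Pool.Agent.DBN.Vdc3a

/-!
# The fourth derivative test for the sums of `n ^ (-i T)`

`zfourth_of`: the fourth derivative bound follows from the third derivative test by the
van der Corput inequality.
-/

set_option autoImplicit false

namespace Pool.Agent.DBN

open Complex

open scoped ComplexConjugate

namespace V4_

open V3_

/-- the third difference of the logarithm -/
noncomputable def lg3 (x : ℝ) : ℝ :=
  Real.log (x + 3) - 3 * Real.log (x + 2) + 3 * Real.log (x + 1) - Real.log x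

lemma lg3_step {x : ℝ} (hx : 0 < x) :
    5 / (x + 3) ^ 4 ≤ lg3 x - lg3 (x + 1) ∧ lg3 x - lg3 (x + 1) ≤ 6 / x ^ 4 := by
  set A : ℝ := (x + 1) ^ 4 * (x + 3) ^ 4 with hA
  set B : ℝ := x * (x + 2) ^ 6 * (x + 4) with hB
  have hA0 : 0 < A := by positivity
  have hB0 : 0 < B := by positivity
  have e1 : lg3 x - lg3 (x + 1) = Real.log (A / B) := by
    rw [Real.log_div hA0.ne' hB0.ne', hA, hB, Real.log_mul (by positivity) (by positivity),
      Real.log_mul (by positivity) (by positivity), Real.log_mul (by positivity) (by positivity),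
      Real.log_pow, Real.log_pow, Real.log_pow]
    unfold lg3
    have h1 : x + 1 + 1 = x + 2 := by ring
    have h2 : x + 1 + 2 = x + 3 := by ring
    have h3 : x + 1 + 3 = x + 4 := by ring
    rw [h1, h2, h3]
    push_cast
    ring
  set v : ℝ := (x + 2) ^ 2 with hv
  have hv4 : 4 ≤ v := by rw [hv]; nlinarith
  have eA : A = (v - 1) ^ 4 := by rw [hA, hv]; ring
  have eB : B = v ^ 3 * (v - 4) := by rw [hB, hv]; ring
  have eAB : A - B = 6 * v ^ 2 - 4 * v + 1 := by rw [eA, eB]; ring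
  constructor
  · have h1 : 1 - (A / B)⁻¹ ≤ Real.log (A / B) :=
      Real.one_sub_inv_le_log_of_pos (by positivity)
    rw [e1]
    refine le_trans ?_ h1
    rw [inv_div]
    have h2 : 1 - B / A = (A - B) / A := by
      rw [sub_div, div_self hA0.ne']
    rw [h2, eAB]
    have h3 : 5 / (x + 3) ^ 4 ≤ 5 / (v - 1) ^ 2 := by
      apply div_le_div_of_nonneg_left (by norm_num)
      · have : 0 < v - 1 := by linarith
        positivity
      · have h4 : v - 1 = (x + 1) * (x + 3) := by rw [hv]; ring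
        have h5 : v - 1 ≤ (x + 3) ^ 2 := by rw [h4]; nlinarith
        calc (v - 1) ^ 2 ≤ ((x + 3) ^ 2) ^ 2 := pow_le_pow_left₀ (by linarith) h5 2
          _ = (x + 3) ^ 4 := by ring
    refine h3.trans ?_
    have hv1 : 0 < v - 1 := by linarith
    rw [eA, div_le_div_iff₀ (by positivity) (by positivity)]
    have h6 : 5 * (v - 1) ^ 2 ≤ 6 * v ^ 2 - 4 * v + 1 := by nlinarith
    calc 5 * (v - 1) ^ 4 = 5 * (v - 1) ^ 2 * (v - 1) ^ 2 := by ring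
      _ ≤ (6 * v ^ 2 - 4 * v + 1) * (v - 1) ^ 2 := by gcongr
  · have h1 := Real.log_le_sub_one_of_pos (show 0 < A / B by positivity)
    rw [e1]
    refine h1.trans ?_
    have h2 : A / B - 1 = (A - B) / B := by
      rw [sub_div, div_self hB0.ne']
    rw [h2, eAB, hB, div_le_div_iff₀ (by positivity) (by positivity)]
    have h3 : 6 * v ^ 2 - 4 * v + 1 ≤ 6 * v ^ 2 := by linarith
    have h4 : x ^ 4 ≤ x * (x + 2) ^ 2 * (x + 4) := by
      have h5 : x * (x + 2) ^ 2 * (x + 4) - x ^ 4 = 8 * x ^ 3 + 20 * x ^ 2 + 16 * x := by ring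
      have h6 : 0 ≤ 8 * x ^ 3 + 20 * x ^ 2 + 16 * x := by positivity
      linarith
    calc (6 * v ^ 2 - 4 * v + 1) * x ^ 4 ≤ (6 * v ^ 2) * (x * (x + 2) ^ 2 * (x + 4)) := by
          apply mul_le_mul h3 h4 (by positivity) (by positivity)
      _ = 6 * (x * (x + 2) ^ 6 * (x + 4)) := by rw [hv]; ring

lemma lg3_sum {x : ℝ} (hx : 0 < x) (k : ℕ) :
    5 * (k : ℝ) / (x + k + 2) ^ 4 ≤ lg3 x - lg3 (x + k) ∧
      lg3 x - lg3 (x + k) ≤ 6 * k / x ^ 4 := by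
  induction k with
  | zero => simp
  | succ k ih =>
    obtain ⟨h1, h2⟩ := ih
    have hxk : 0 < x + k := by positivity
    obtain ⟨h3, h4⟩ := lg3_step hxk
    have e1 : x + ((k + 1 : ℕ) : ℝ) = x + k + 1 := by push_cast; ring
    rw [e1]
    push_cast
    constructor
    · have h5 : 5 * (k : ℝ) / (x + k + 1 + 2) ^ 4 ≤ 5 * (k : ℝ) / (x + k + 2) ^ 4 := by
        apply div_le_div_of_nonneg_left (by positivity) (by positivity)
        exact pow_le_pow_left₀ (by positivity) (by linarith) 4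
      have h7 : (x + k + 1 + 2 : ℝ) = x + k + 3 := by ring
      have h6 : 5 * ((k : ℝ) + 1) / (x + k + 1 + 2) ^ 4 =
          5 * (k : ℝ) / (x + k + 1 + 2) ^ 4 + 5 / (x + k + 3) ^ 4 := by
        rw [h7, mul_add, add_div, mul_one]
      rw [h6]
      linarith
    · have h5 : 6 / (x + k) ^ 4 ≤ 6 / x ^ 4 := by
        gcongr
        linarith [(Nat.cast_nonneg k : (0 : ℝ) ≤ k)]
      have h6 : 6 * ((k : ℝ) + 1) / x ^ 4 = 6 * k / x ^ 4 + 6 / x ^ 4 := by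
        rw [mul_add, add_div, mul_one]
      rw [h6]
      linarith

lemma sixth_pow {x : ℝ} (hx : 0 ≤ x) : (x ^ (1 / 6 : ℝ)) ^ 6 = x := by
  rw [← Real.rpow_natCast, ← Real.rpow_mul hx]
  norm_num

lemma sum_sixth (n : ℕ) :
    ∑ k ∈ Finset.range n, ((k : ℝ) + 1) ^ (-(1 / 6) : ℝ) ≤
      6 / 5 * ((n : ℝ) ^ (1 / 6 : ℝ)) ^ 5 := by
  induction n with
  | zero => simp
  | succ n ih =>
    rw [Finset.sum_range_succ]
    set a : ℝ := (n : ℝ) ^ (1 / 6 : ℝ) with ha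
    have hb : ((n + 1 : ℕ) : ℝ) ^ (1 / 6 : ℝ) = ((n : ℝ) + 1) ^ (1 / 6 : ℝ) := by
      push_cast
      rfl
    rw [hb]
    have hinv : ((n : ℝ) + 1) ^ (-(1 / 6) : ℝ) = (((n : ℝ) + 1) ^ (1 / 6 : ℝ))⁻¹ :=
      Real.rpow_neg (by positivity) _
    rw [hinv]
    set b : ℝ := ((n : ℝ) + 1) ^ (1 / 6 : ℝ) with hbd
    have ha0 : 0 ≤ a := by positivity
    have hb0 : 0 < b := by positivity
    have ha6 : a ^ 6 = n := sixth_pow (Nat.cast_nonneg n)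
    have hb6 : b ^ 6 = n + 1 := sixth_pow (by positivity)
    have key : 0 ≤ (b - a) ^ 2 * (b ^ 4 + 2 * a * b ^ 3 + 3 * a ^ 2 * b ^ 2 + 4 * a ^ 3 * b +
        5 * a ^ 4) := by positivity
    have h1 : b⁻¹ ≤ 6 / 5 * (b ^ 5 - a ^ 5) := by
      rw [inv_eq_one_div, div_le_iff₀ hb0]
      have h2 : (b - a) ^ 2 * (b ^ 4 + 2 * a * b ^ 3 + 3 * a ^ 2 * b ^ 2 + 4 * a ^ 3 * b +
        5 * a ^ 4) = b ^ 6 - 6 * a ^ 5 * b + 5 * a ^ 6 := by ring
      rw [h2] at key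
      nlinarith
    linarith

/-- the correlation sums of `exp (-i T log (N + n))` -/
lemma corr_bound {C : ℝ} (hC : 1 ≤ C) (hv : ∀ (m : ℕ) (θ : ℕ → ℝ) (l : ℝ), 0 < l →
    (∀ n, n + 3 < m → l ≤ θ (n + 3) - 3 * θ (n + 2) + 3 * θ (n + 1) - θ n ∧
      θ (n + 3) - 3 * θ (n + 2) + 3 * θ (n + 1) - θ n ≤ 24 * l) →
    ‖∑ n ∈ Finset.range m, exp (θ n * I)‖ ≤
      C * (m * l ^ (1 / 6 : ℝ) + (m : ℝ) ^ (1 / 2 : ℝ) * l ^ (-(1 / 6) : ℝ)))
    {N M k : ℕ} {T w s : ℝ} (hN : 1 ≤ N) (hMN : M ≤ N) (hT : 1 ≤ T) (hk : 1 ≤ k)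
    (hw : w = T / (4 * (N : ℝ) ^ 4)) (hs0 : 0 < s) (hs : s ^ 7 = w ^ (1 / 6 : ℝ)) :
    ‖∑ n ∈ Finset.range (M - k), exp (-(T * Real.log (N + (n + k : ℕ)) : ℝ) * I) *
        conj (exp (-(T * Real.log (N + n) : ℝ) * I))‖ ≤
      C * (N * s ^ 7 * (k : ℝ) ^ (1 / 6 : ℝ) +
        √N * (s ^ 7)⁻¹ * (k : ℝ) ^ (-(1 / 6) : ℝ)) := by
  have hN0 : (1 : ℝ) ≤ N := by exact_mod_cast hN
  have hk0 : (1 : ℝ) ≤ k := by exact_mod_cast hk
  have hkpos : (0 : ℝ) < k := by linarith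
  have hw0 : 0 < w := by rw [hw]; positivity
  set θ : ℕ → ℝ := fun n => T * (Real.log (N + n) - Real.log (N + n + k)) with hθ
  have e1 : ∑ n ∈ Finset.range (M - k), exp (-(T * Real.log (N + (n + k : ℕ)) : ℝ) * I) *
        conj (exp (-(T * Real.log (N + n) : ℝ) * I)) =
      ∑ n ∈ Finset.range (M - k), exp (θ n * I) := by
    refine Finset.sum_congr rfl fun n _ => ?_
    rw [← Complex.exp_conj, ← Complex.exp_add]
    congr 1
    simp only [map_mul, map_neg, Complex.conj_ofReal, Complex.conj_I, hθ]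
    have h1 : ((N : ℝ) + ((n + k : ℕ) : ℝ)) = N + n + k := by push_cast; ring
    rw [h1]
    push_cast
    ring
  rw [e1]
  set l : ℝ := k * w with hl
  have hl0 : 0 < l := by positivity
  have h1 := hv (M - k) θ l hl0 (by
    intro n hn
    have hx : (0 : ℝ) < N + n := by positivity
    have e2 : θ (n + 3) - 3 * θ (n + 2) + 3 * θ (n + 1) - θ n =
        T * (lg3 ((N : ℝ) + n) - lg3 ((N : ℝ) + n + k)) := by
      simp only [hθ, lg3]
      have a0 : ((N : ℝ) + ((n + 3 : ℕ) : ℝ)) = N + n + 3 := by push_cast; ring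
      have a1 : ((N : ℝ) + ((n + 2 : ℕ) : ℝ)) = N + n + 2 := by push_cast; ring
      have a2 : ((N : ℝ) + ((n + 1 : ℕ) : ℝ)) = N + n + 1 := by push_cast; ring
      have a3 : (N : ℝ) + n + 2 + k = N + n + k + 2 := by ring
      have a4 : (N : ℝ) + n + 1 + k = N + n + k + 1 := by ring
      have a5 : (N : ℝ) + n + 3 + k = N + n + k + 3 := by ring
      rw [a0, a1, a2, a3, a4, a5]
      ring
    obtain ⟨h2, h3⟩ := lg3_sum hx k
    have hnk : (n : ℝ) + k + 2 ≤ N := by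
      have : n + k + 2 ≤ N := by omega
      exact_mod_cast this
    rw [e2, hl, hw]
    constructor
    · have h4 : 5 * (k : ℝ) / (16 * (N : ℝ) ^ 4) ≤ 5 * k / ((N : ℝ) + n + k + 2) ^ 4 := by
        apply div_le_div_of_nonneg_left (by positivity) (by positivity)
        calc ((N : ℝ) + n + k + 2) ^ 4 ≤ (2 * N) ^ 4 :=
              pow_le_pow_left₀ (by positivity) (by linarith) 4
          _ = 16 * (N : ℝ) ^ 4 := by ring
      have h5 : (k : ℝ) * (T / (4 * (N : ℝ) ^ 4)) ≤ T * (5 * k / (16 * (N : ℝ) ^ 4)) := by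
        have e3 : (k : ℝ) * (T / (4 * (N : ℝ) ^ 4)) = 4 * ((k * T) / (16 * (N : ℝ) ^ 4)) := by
          field_simp
          ring
        have e4 : T * (5 * k / (16 * (N : ℝ) ^ 4)) = 5 * ((k * T) / (16 * (N : ℝ) ^ 4)) := by
          ring
        rw [e3, e4]
        have : 0 ≤ (k * T) / (16 * (N : ℝ) ^ 4) := by positivity
        linarith
      calc (k : ℝ) * (T / (4 * (N : ℝ) ^ 4)) ≤ T * (5 * k / (16 * (N : ℝ) ^ 4)) := h5
        _ ≤ T * (5 * k / ((N : ℝ) + n + k + 2) ^ 4) := by gcongr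
        _ ≤ _ := by gcongr
    · have h4 : 6 * (k : ℝ) / ((N : ℝ) + n) ^ 4 ≤ 6 * k / (N : ℝ) ^ 4 := by
        apply div_le_div_of_nonneg_left (by positivity) (by positivity)
        exact pow_le_pow_left₀ (by positivity) (by linarith [(Nat.cast_nonneg n : (0 : ℝ) ≤ n)]) 4
      calc T * (lg3 ((N : ℝ) + n) - lg3 ((N : ℝ) + n + k))
          ≤ T * (6 * k / (N : ℝ) ^ 4) := by gcongr; exact h3.trans h4
        _ = 24 * (k * (T / (4 * (N : ℝ) ^ 4))) := by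
            field_simp
            ring)
  have hl6 : l ^ (1 / 6 : ℝ) = s ^ 7 * (k : ℝ) ^ (1 / 6 : ℝ) := by
    rw [hl, Real.mul_rpow hkpos.le hw0.le, hs, mul_comm]
  have hl6' : l ^ (-(1 / 6) : ℝ) = (s ^ 7)⁻¹ * (k : ℝ) ^ (-(1 / 6) : ℝ) := by
    rw [Real.rpow_neg hl0.le, hl6, Real.rpow_neg hkpos.le, mul_inv]
  rw [hl6, hl6'] at h1
  refine h1.trans ?_
  have hMk : ((M - k : ℕ) : ℝ) ≤ N := by
    have : M - k ≤ N := by omega
    exact_mod_cast this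
  have hMk0 : (0 : ℝ) ≤ ((M - k : ℕ) : ℝ) := Nat.cast_nonneg _
  rw [← Real.sqrt_eq_rpow]
  have h2 : √((M - k : ℕ) : ℝ) ≤ √N := Real.sqrt_le_sqrt hMk
  have h3 : ((M - k : ℕ) : ℝ) * (s ^ 7 * (k : ℝ) ^ (1 / 6 : ℝ)) ≤
      N * (s ^ 7 * (k : ℝ) ^ (1 / 6 : ℝ)) := mul_le_mul_of_nonneg_right hMk (by positivity)
  have h4 : √((M - k : ℕ) : ℝ) * ((s ^ 7)⁻¹ * (k : ℝ) ^ (-(1 / 6) : ℝ)) ≤
      √N * ((s ^ 7)⁻¹ * (k : ℝ) ^ (-(1 / 6) : ℝ)) :=
    mul_le_mul_of_nonneg_right h2 (by positivity)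
  have h5 : (N : ℝ) * (s ^ 7 * (k : ℝ) ^ (1 / 6 : ℝ)) = N * s ^ 7 * (k : ℝ) ^ (1 / 6 : ℝ) := by
    ring
  have h6 : √(N : ℝ) * ((s ^ 7)⁻¹ * (k : ℝ) ^ (-(1 / 6) : ℝ)) =
      √N * (s ^ 7)⁻¹ * (k : ℝ) ^ (-(1 / 6) : ℝ) := by ring
  have hC0 : 0 ≤ C := by linarith
  refine mul_le_mul_of_nonneg_left ?_ hC0
  linarith

end V4_

open V3_ V4_ in
theorem zfourth_of (vdc3_gen : ∀ {h : ℝ}, 1 ≤ h → ∃ C : ℝ, 1 ≤ C ∧
      ∀ (m : ℕ) (θ : ℕ → ℝ) (l : ℝ), 0 < l →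
      (∀ n, n + 3 < m → l ≤ θ (n + 3) - 3 * θ (n + 2) + 3 * θ (n + 1) - θ n ∧
        θ (n + 3) - 3 * θ (n + 2) + 3 * θ (n + 1) - θ n ≤ h * l) →
      ‖∑ n ∈ Finset.range m, exp (θ n * I)‖ ≤
        C * (m * l ^ (1 / 6 : ℝ) + (m : ℝ) ^ (1 / 2 : ℝ) * l ^ (-(1 / 6) : ℝ))) :
    ∃ C : ℝ, 1 ≤ C ∧ ∀ (N M : ℕ) (T : ℝ), 1 ≤ N → M ≤ N → 1 ≤ T →
    ‖∑ n ∈ Finset.range M, exp (-(T * Real.log (N + n) : ℝ) * I)‖ ≤
      C * ((N : ℝ) ^ (5 / 7 : ℝ) * T ^ (1 / 14 : ℝ) +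
        (N : ℝ) ^ (29 / 28 : ℝ) * T ^ (-(1 / 14) : ℝ)) := by
  obtain ⟨C, hC, hv⟩ := vdc3_gen (h := 24) (by norm_num)
  refine ⟨16 * C, by linarith, fun N M T hN hMN hT => ?_⟩
  have hN0 : (1 : ℝ) ≤ N := by exact_mod_cast hN
  have hNpos : (0 : ℝ) < N := by linarith
  have hMN0 : (M : ℝ) ≤ N := by exact_mod_cast hMN
  have hT0 : 0 < T := by linarith
  set w : ℝ := T / (4 * (N : ℝ) ^ 4) with hw
  have hw0 : 0 < w := by positivity
  set s : ℝ := w ^ (1 / 42 : ℝ) with hs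
  have hs0 : 0 < s := by positivity
  have hs7 : s ^ 7 = w ^ (1 / 6 : ℝ) := by
    rw [hs, ← Real.rpow_natCast, ← Real.rpow_mul hw0.le]
    norm_num
  have hs3 : s ^ 3 = w ^ (1 / 14 : ℝ) := by
    rw [hs, ← Real.rpow_natCast, ← Real.rpow_mul hw0.le]
    norm_num
  set g : ℝ := (N : ℝ) ^ (3 / 4 : ℝ) with hg
  have hg0 : 0 < g := by positivity
  have hg2 : g ^ 2 = N * √N := by
    rw [hg, ← Real.rpow_natCast, ← Real.rpow_mul hNpos.le, Real.sqrt_eq_rpow]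
    rw [show (N : ℝ) * (N : ℝ) ^ (1 / 2 : ℝ) = (N : ℝ) ^ (1 : ℝ) * (N : ℝ) ^ (1 / 2 : ℝ) by
      rw [Real.rpow_one], ← Real.rpow_add hNpos]
    norm_num
  -- the two quantities
  have hX : N * s ^ 3 ≤ (N : ℝ) ^ (5 / 7 : ℝ) * T ^ (1 / 14 : ℝ) := by
    rw [hs3]
    have h1 : w ≤ T / (N : ℝ) ^ 4 := by
      rw [hw]
      apply div_le_div_of_nonneg_left hT0.le (by positivity)
      have : 0 < (N : ℝ) ^ 4 := by positivity
      linarith
    have h2 : w ^ (1 / 14 : ℝ) ≤ T ^ (1 / 14 : ℝ) * (N : ℝ) ^ (-(2 / 7) : ℝ) := by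
      refine (Real.rpow_le_rpow hw0.le h1 (by norm_num)).trans_eq ?_
      rw [Real.div_rpow hT0.le (by positivity), ← Real.rpow_natCast, ← Real.rpow_mul hNpos.le,
        div_eq_mul_inv, ← Real.rpow_neg hNpos.le]
      norm_num
    calc (N : ℝ) * w ^ (1 / 14 : ℝ)
        ≤ N * (T ^ (1 / 14 : ℝ) * (N : ℝ) ^ (-(2 / 7) : ℝ)) := by gcongr
      _ = (N : ℝ) ^ (1 : ℝ) * (N : ℝ) ^ (-(2 / 7) : ℝ) * T ^ (1 / 14 : ℝ) := by
          rw [Real.rpow_one]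
          ring
      _ = _ := by
          rw [← Real.rpow_add hNpos]
          norm_num
  have hY : g * (s ^ 3)⁻¹ ≤ 2 * ((N : ℝ) ^ (29 / 28 : ℝ) * T ^ (-(1 / 14) : ℝ)) := by
    rw [hs3, ← Real.rpow_neg hw0.le]
    have h2 : w ^ (-(1 / 14) : ℝ) =
        (4 : ℝ) ^ (1 / 14 : ℝ) * ((N : ℝ) ^ (2 / 7 : ℝ) * T ^ (-(1 / 14) : ℝ)) := by
      rw [hw, Real.div_rpow hT0.le (by positivity), Real.mul_rpow (by norm_num) (by positivity),
        ← Real.rpow_natCast, ← Real.rpow_mul hNpos.le, div_eq_mul_inv, mul_inv,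
        ← Real.rpow_neg (by norm_num : (0 : ℝ) ≤ 4), ← Real.rpow_neg hNpos.le]
      norm_num
      ring
    have h3 : (4 : ℝ) ^ (1 / 14 : ℝ) ≤ 2 := by
      calc (4 : ℝ) ^ (1 / 14 : ℝ) ≤ (4 : ℝ) ^ (1 / 2 : ℝ) :=
            Real.rpow_le_rpow_of_exponent_le (by norm_num) (by norm_num)
        _ = 2 := by
            rw [← Real.sqrt_eq_rpow, show (4 : ℝ) = 2 ^ 2 by norm_num,
              Real.sqrt_sq (by norm_num)]
    rw [h2, hg]
    calc (N : ℝ) ^ (3 / 4 : ℝ) *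
          ((4 : ℝ) ^ (1 / 14 : ℝ) * ((N : ℝ) ^ (2 / 7 : ℝ) * T ^ (-(1 / 14) : ℝ)))
        = (4 : ℝ) ^ (1 / 14 : ℝ) *
          ((N : ℝ) ^ (3 / 4 : ℝ) * (N : ℝ) ^ (2 / 7 : ℝ) * T ^ (-(1 / 14) : ℝ)) := by ring
      _ = (4 : ℝ) ^ (1 / 14 : ℝ) * ((N : ℝ) ^ (29 / 28 : ℝ) * T ^ (-(1 / 14) : ℝ)) := by
          rw [← Real.rpow_add hNpos]
          norm_num
      _ ≤ _ := by gcongr
  set X : ℝ := N * s ^ 3 with hXd
  set Y : ℝ := g * (s ^ 3)⁻¹ with hYd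
  have hX0 : 0 < X := by positivity
  have hY0 : 0 < Y := by positivity
  suffices hmain : ‖∑ n ∈ Finset.range M, exp (-(T * Real.log (N + n) : ℝ) * I)‖ ≤
      8 * C * (X + Y) by
    refine hmain.trans ?_
    have h1 : 0 ≤ (N : ℝ) ^ (5 / 7 : ℝ) * T ^ (1 / 14 : ℝ) := by positivity
    have h2 : X + Y ≤ 2 * ((N : ℝ) ^ (5 / 7 : ℝ) * T ^ (1 / 14 : ℝ) +
        (N : ℝ) ^ (29 / 28 : ℝ) * T ^ (-(1 / 14) : ℝ)) := by linarith
    calc 8 * C * (X + Y) ≤ 8 * C * (2 * ((N : ℝ) ^ (5 / 7 : ℝ) * T ^ (1 / 14 : ℝ) +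
        (N : ℝ) ^ (29 / 28 : ℝ) * T ^ (-(1 / 14) : ℝ))) := by gcongr
      _ = _ := by ring
  set a : ℕ → ℂ := fun n => exp (-(T * Real.log (N + n) : ℝ) * I) with ha
  have ha1 : ∀ n, ‖a n‖ ≤ 1 := by
    intro n
    simp only [ha]
    rw [← Complex.ofReal_neg, Complex.norm_exp_ofReal_mul_I]
  have htriv : ‖∑ n ∈ Finset.range M, a n‖ ≤ M := by
    refine (norm_sum_le _ _).trans ?_
    calc ∑ n ∈ Finset.range M, ‖a n‖ ≤ ∑ n ∈ Finset.range M, (1 : ℝ) :=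
          Finset.sum_le_sum fun n _ => ha1 n
      _ = M := by simp
  -- large derivatives
  rcases lt_or_ge 1 s with hs1 | hs1
  · calc ‖∑ n ∈ Finset.range M, a n‖ ≤ M := htriv
      _ ≤ N := hMN0
      _ ≤ X := by
          rw [hXd]
          exact le_mul_of_one_le_right hNpos.le (one_le_pow₀ hs1.le)
      _ ≤ 8 * C * (X + Y) := by nlinarith
  set r : ℝ := (s ^ 6)⁻¹ with hr
  have hs6 : 0 < s ^ 6 := by positivity
  have hr1 : 1 ≤ r := by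
    rw [hr]
    exact (one_le_inv₀ hs6).mpr (pow_le_one₀ hs0.le hs1)
  set R : ℕ := ⌊r⌋₊ with hR
  have hR1 : 1 ≤ R := by rwa [hR, Nat.one_le_floor_iff]
  have hRr : (R : ℝ) ≤ r := Nat.floor_le (by linarith)
  have hrR : r < R + 1 := Nat.lt_floor_add_one r
  have hR1' : (1 : ℝ) ≤ R := by exact_mod_cast hR1
  have hrR2 : r / 2 ≤ R := by linarith
  have hM0 : (0 : ℝ) ≤ M := Nat.cast_nonneg M
  rcases Nat.lt_or_ge M R with hMR | hMR
  · have h1 : (M : ℝ) ≤ r := by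
      have : (M : ℝ) ≤ R := by exact_mod_cast hMR.le
      linarith
    have h2 : (M : ℝ) ≤ Y := by
      have h3 : (M : ℝ) ^ 2 ≤ Y ^ 2 := by
        rw [hYd, mul_pow, hg2]
        have h4 : ((s ^ 3)⁻¹) ^ 2 = r := by
          rw [hr, inv_pow, ← pow_mul]
        rw [h4]
        have h5 : 1 ≤ √(N : ℝ) := Real.one_le_sqrt.mpr hN0
        calc (M : ℝ) ^ 2 = M * M := by ring
          _ ≤ N * r := by gcongr
          _ ≤ N * √N * r := by
              have : (N : ℝ) ≤ N * √N := le_mul_of_one_le_right hNpos.le h5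
              gcongr
      exact (sq_le_sq₀ hM0 hY0.le).mp h3
    calc ‖∑ n ∈ Finset.range M, a n‖ ≤ M := htriv
      _ ≤ Y := h2
      _ ≤ 8 * C * (X + Y) := by nlinarith
  -- the main case
  have h1 := vdc_ineq a M R hR1 hMR ha1
  have hR0 : (0 : ℝ) < R := by linarith
  set ρ : ℝ := (R : ℝ) ^ (1 / 6 : ℝ) with hρ
  have hρ0 : 0 < ρ := by positivity
  have hρ6 : ρ ^ 6 = R := sixth_pow hR0.le
  have hρs : ρ * s ≤ 1 := by
    have h2 : (ρ * s) ^ 6 ≤ 1 := by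
      rw [mul_pow, hρ6]
      calc (R : ℝ) * s ^ 6 ≤ r * s ^ 6 := by gcongr
        _ = 1 := by rw [hr, inv_mul_cancel₀ hs6.ne']
    exact (pow_le_one_iff_of_nonneg (by positivity) (by norm_num)).mp h2
  have hρs2 : 1 ≤ 2 * (ρ * s) := by
    by_contra hcon
    push Not at hcon
    have h2 : (2 * (ρ * s)) ^ 6 < 1 := pow_lt_one₀ (by positivity) hcon (by norm_num)
    rw [mul_pow, mul_pow, hρ6] at h2
    have h3 : r / 2 * s ^ 6 ≤ R * s ^ 6 := by gcongr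
    have h4 : r / 2 * s ^ 6 = 1 / 2 := by
      rw [hr]
      field_simp
    nlinarith
  have hsum : ∑ k ∈ Finset.Ico 1 R, ‖∑ n ∈ Finset.range (M - k), a (n + k) * conj (a n)‖ ≤
      C * (N * s ^ 7 * (R * ρ) + √N * (s ^ 7)⁻¹ * (2 * ρ ^ 5)) := by
    calc ∑ k ∈ Finset.Ico 1 R, ‖∑ n ∈ Finset.range (M - k), a (n + k) * conj (a n)‖
        ≤ ∑ k ∈ Finset.Ico 1 R, C * (N * s ^ 7 * (k : ℝ) ^ (1 / 6 : ℝ) +
          √N * (s ^ 7)⁻¹ * (k : ℝ) ^ (-(1 / 6) : ℝ)) := by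
          refine Finset.sum_le_sum fun k hk => ?_
          exact corr_bound hC hv hN hMN hT (Finset.mem_Ico.mp hk).1 hw hs0 hs7
      _ = C * (N * s ^ 7 * ∑ k ∈ Finset.Ico 1 R, (k : ℝ) ^ (1 / 6 : ℝ) +
          √N * (s ^ 7)⁻¹ * ∑ k ∈ Finset.Ico 1 R, (k : ℝ) ^ (-(1 / 6) : ℝ)) := by
          rw [← Finset.mul_sum, Finset.sum_add_distrib, Finset.mul_sum, Finset.mul_sum]
      _ ≤ _ := by
          have h2 : ∑ k ∈ Finset.Ico 1 R, (k : ℝ) ^ (1 / 6 : ℝ) ≤ R * ρ := by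
            calc ∑ k ∈ Finset.Ico 1 R, (k : ℝ) ^ (1 / 6 : ℝ) ≤ ∑ k ∈ Finset.Ico 1 R, ρ := by
                  refine Finset.sum_le_sum fun k hk => ?_
                  have := (Finset.mem_Ico.mp hk).2
                  exact Real.rpow_le_rpow (Nat.cast_nonneg k) (by exact_mod_cast this.le)
                    (by norm_num)
              _ = ((R - 1 : ℕ) : ℝ) * ρ := by
                  rw [Finset.sum_const, Nat.card_Ico, nsmul_eq_mul]
              _ ≤ R * ρ := by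
                  gcongr
                  exact Nat.sub_le R 1
          have h3 : ∑ k ∈ Finset.Ico 1 R, (k : ℝ) ^ (-(1 / 6) : ℝ) ≤ 2 * ρ ^ 5 := by
            rw [Finset.sum_Ico_eq_sum_range]
            have h4 : ∑ k ∈ Finset.range (R - 1), (((1 + k : ℕ)) : ℝ) ^ (-(1 / 6) : ℝ) =
                ∑ k ∈ Finset.range (R - 1), ((k : ℝ) + 1) ^ (-(1 / 6) : ℝ) := by
              refine Finset.sum_congr rfl fun k _ => ?_
              push_cast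
              rw [add_comm]
            rw [h4]
            refine (sum_sixth (R - 1)).trans ?_
            have h5 : ((R - 1 : ℕ) : ℝ) ^ (1 / 6 : ℝ) ≤ ρ :=
              Real.rpow_le_rpow (Nat.cast_nonneg _) (by exact_mod_cast Nat.sub_le R 1)
                (by norm_num)
            have h6 : (((R - 1 : ℕ) : ℝ) ^ (1 / 6 : ℝ)) ^ 5 ≤ ρ ^ 5 :=
              pow_le_pow_left₀ (by positivity) h5 5
            have h7 : 0 ≤ ρ ^ 5 := by positivity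
            linarith
          gcongr
  set S : ℝ := ‖∑ n ∈ Finset.range M, a n‖ with hS
  have hS0 : 0 ≤ S := norm_nonneg _
  have h2 : (R : ℝ) * S ^ 2 ≤ 2 * (N : ℝ) ^ 2 +
      4 * N * (C * (N * s ^ 7 * (R * ρ) + √N * (s ^ 7)⁻¹ * (2 * ρ ^ 5))) := by
    refine h1.trans ?_
    gcongr
  -- divide by `R = ρ ^ 6`
  have hX2 : X ^ 2 = (N : ℝ) ^ 2 * s ^ 6 := by rw [hXd]; ring
  have hY2 : Y ^ 2 = N * √N * (s ^ 6)⁻¹ := by
    rw [hYd, mul_pow, hg2, inv_pow, ← pow_mul]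
  have h3 : S ^ 2 ≤ (4 + 4 * C) * X ^ 2 + 16 * C * Y ^ 2 := by
    have h4 : (R : ℝ) * S ^ 2 ≤ R * ((4 + 4 * C) * X ^ 2 + 16 * C * Y ^ 2) := by
      refine h2.trans ?_
      have f1 : 2 * (N : ℝ) ^ 2 ≤ R * (4 * X ^ 2) := by
        rw [hX2]
        have h5 : r / 2 * (4 * ((N : ℝ) ^ 2 * s ^ 6)) ≤ R * (4 * ((N : ℝ) ^ 2 * s ^ 6)) := by
          gcongr
        have h6 : r / 2 * (4 * ((N : ℝ) ^ 2 * s ^ 6)) = 2 * (N : ℝ) ^ 2 := by
          rw [hr]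
          field_simp
          ring
        linarith
      have f2 : 4 * N * (C * (N * s ^ 7 * (R * ρ))) ≤ R * (4 * C * X ^ 2) := by
        rw [hX2]
        calc 4 * N * (C * (N * s ^ 7 * (R * ρ))) =
              R * (4 * C * ((N : ℝ) ^ 2 * s ^ 6)) * (ρ * s) := by ring
          _ ≤ R * (4 * C * ((N : ℝ) ^ 2 * s ^ 6)) * 1 := by gcongr
          _ = _ := by ring
      have f3 : 4 * N * (C * (√N * (s ^ 7)⁻¹ * (2 * ρ ^ 5))) ≤ R * (16 * C * Y ^ 2) := by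
        rw [hY2, ← hρ6]
        have h5 : (s ^ 7)⁻¹ = (s ^ 6)⁻¹ * s⁻¹ := by
          rw [← mul_inv, ← pow_succ]
        have h6 : s⁻¹ ≤ 2 * ρ := by
          rw [inv_eq_one_div, div_le_iff₀ hs0]
          linarith
        rw [h5]
        calc 4 * N * (C * (√N * ((s ^ 6)⁻¹ * s⁻¹) * (2 * ρ ^ 5))) =
              8 * N * C * √N * (s ^ 6)⁻¹ * ρ ^ 5 * s⁻¹ := by ring
          _ ≤ 8 * N * C * √N * (s ^ 6)⁻¹ * ρ ^ 5 * (2 * ρ) := by gcongr
          _ = _ := by ring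
      have f4 : 4 * N * (C * (N * s ^ 7 * (R * ρ) + √N * (s ^ 7)⁻¹ * (2 * ρ ^ 5))) =
          4 * N * (C * (N * s ^ 7 * (R * ρ))) +
            4 * N * (C * (√N * (s ^ 7)⁻¹ * (2 * ρ ^ 5))) := by ring
      have f5 : R * ((4 + 4 * C) * X ^ 2 + 16 * C * Y ^ 2) =
          R * (4 * X ^ 2) + R * (4 * C * X ^ 2) + R * (16 * C * Y ^ 2) := by ring
      rw [f4, f5]
      linarith
    exact le_of_mul_le_mul_left h4 hR0
  have h4 : S ^ 2 ≤ (8 * C * (X + Y)) ^ 2 := by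
    refine h3.trans ?_
    have hC2 : C ≤ C ^ 2 := by nlinarith
    have e2 : (8 * C * (X + Y)) ^ 2 = 64 * C ^ 2 * (X ^ 2 + 2 * (X * Y) + Y ^ 2) := by ring
    rw [e2]
    have hx2 : 0 ≤ X ^ 2 := by positivity
    have hy2 : 0 ≤ Y ^ 2 := by positivity
    have f1 : C * X ^ 2 ≤ C ^ 2 * X ^ 2 := by gcongr
    have f2 : C * Y ^ 2 ≤ C ^ 2 * Y ^ 2 := by gcongr
    have f3 : X ^ 2 ≤ C * X ^ 2 := by nlinarith
    have f4 : 0 ≤ C ^ 2 * (X * Y) := by positivity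
    have f5 : 0 ≤ C ^ 2 * X ^ 2 := by positivity
    have f6 : 0 ≤ C ^ 2 * Y ^ 2 := by positivity
    nlinarith
  exact (sq_le_sq₀ hS0 (by positivity)).mp h4

end Pool.Agent.DBN
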