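import Pool.Agent.DBN.ZFlow
import Pool.Agent.DBN.FlowReg
import Pool.Agent.SPZ.S1
import Pool.Agent.SPZ.S2

/-!
# C2: few zeros off the critical line imply the bound near the critical line
-/

set_option autoImplicit false

namespace Pool.Agent.DBN

open Complex MeasureTheory Set Metric Filter Topology

namespace ZC2_

open Pool.Agent.SPZ (S1 S2 s1 s2 zeros)
open Pool.Agent.LHW (Up CountLe)

/-- the constant of the normalisation -/
noncomputable def bb (c T : ℝ) : ℝ := 1 / 2 - c / 8 - 2 * Real.log (size T) / Real.log T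

/-- the normalised function -/
noncomputable def G (c T : ℝ) (z : ℂ) : ℂ :=
  flow (c / Real.log T) z * cexp (((-(Real.log T / 2) : ℝ) : ℂ) * (z - ((bb c T : ℝ) : ℂ)))

lemma size_pos {T : ℝ} (hT : 0 < T) : 0 < size T := by
  unfold size
  positivity

lemma G_norm (c : ℝ) {T : ℝ} (hT : 2 ≤ T) (w : ℂ) :
    ‖G c T (1 / 2 + T * I + w)‖ * (size T * T ^ (w.re / 2 + c / 16)) =
      ‖flow (c / Real.log T) (1 / 2 + T * I + w)‖ := by
  have hT0 : 0 < T := by linarith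
  have hL : 0 < Real.log T := Real.log_pos (by linarith)
  have hs := size_pos hT0
  unfold G
  rw [norm_mul, Complex.norm_exp, mul_assoc]
  have h1 : ((((-(Real.log T / 2) : ℝ) : ℂ)) *
      ((1 / 2 + (T : ℂ) * I + w) - ((bb c T : ℝ) : ℂ))).re =
      -(Real.log T * (w.re / 2 + c / 16)) - Real.log (size T) := by
    rw [Complex.re_ofReal_mul]
    have h2 : ((1 / 2 + (T : ℂ) * I + w) - ((bb c T : ℝ) : ℂ)).re =
        1 / 2 + w.re - bb c T := by
      simp only [sub_re, add_re, mul_re, ofReal_re, ofReal_im, I_re, I_im, mul_zero, zero_mul,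
        sub_zero, add_zero]
      norm_num
    rw [h2, bb]
    field_simp
    ring
  rw [h1, Real.exp_sub, Real.exp_log hs, Real.exp_neg, ← Real.rpow_def_of_pos hT0]
  have h3 : 0 < T ^ (w.re / 2 + c / 16) := Real.rpow_pos_of_pos hT0 _
  field_simp

lemma G_le (c : ℝ) {T C m ε κ Q : ℝ} (hT : 2 ≤ T) (hC : 0 ≤ C) (hκ : 0 ≤ κ) {w : ℂ}
    (hw : 0 ≤ w.re) (hQ : ‖w‖ ^ 2 ≤ Q)
    (h : ‖flow (c / Real.log T) (1 / 2 + T * I + w)‖ ≤
      C * size T * T ^ (|w.re| / 2 + m + ε) * Real.exp (κ * ‖w‖ ^ 2 * Real.log T)) :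
    ‖G c T (1 / 2 + T * I + w)‖ ≤ C * T ^ (m + ε - c / 16 + κ * Q) := by
  have hT0 : 0 < T := by linarith
  have hL : 0 < Real.log T := Real.log_pos (by linarith)
  have hs := size_pos hT0
  have h3 : 0 < T ^ (w.re / 2 + c / 16) := Real.rpow_pos_of_pos hT0 _
  have h4 : Real.exp (κ * ‖w‖ ^ 2 * Real.log T) ≤ T ^ (κ * Q) := by
    rw [Real.rpow_def_of_pos hT0]
    apply Real.exp_le_exp.2
    have : κ * ‖w‖ ^ 2 ≤ κ * Q := mul_le_mul_of_nonneg_left hQ hκ
    nlinarith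
  rw [← G_norm c hT w, abs_of_nonneg hw] at h
  have h5 : C * size T * T ^ (w.re / 2 + m + ε) * Real.exp (κ * ‖w‖ ^ 2 * Real.log T) ≤
      (C * T ^ (m + ε - c / 16 + κ * Q)) * (size T * T ^ (w.re / 2 + c / 16)) := by
    calc C * size T * T ^ (w.re / 2 + m + ε) * Real.exp (κ * ‖w‖ ^ 2 * Real.log T)
        ≤ C * size T * T ^ (w.re / 2 + m + ε) * T ^ (κ * Q) := by gcongr
      _ = C * size T * (T ^ (w.re / 2 + m + ε) * T ^ (κ * Q)) := by ring
      _ = C * size T * (T ^ (m + ε - c / 16 + κ * Q) * T ^ (w.re / 2 + c / 16)) := by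
          rw [← Real.rpow_add hT0, ← Real.rpow_add hT0]
          congr 2
          ring
      _ = _ := by ring
  exact le_of_mul_le_mul_right (h.trans h5) (by positivity)

lemma pow_up {T T1 p : ℝ} (h1 : 2 ≤ T1) (h2 : 0 < T) (h3 : T ≤ T1 + 1) (hp : 0 ≤ p) :
    T ^ p ≤ T1 ^ (2 * p) := by
  have h4 : T ≤ T1 ^ (2 : ℝ) := by
    rw [Real.rpow_two]
    nlinarith
  calc T ^ p ≤ (T1 ^ (2 : ℝ)) ^ p := Real.rpow_le_rpow h2.le h4 hp
    _ = T1 ^ (2 * p) := by rw [← Real.rpow_mul (by linarith)]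

lemma const_le {C α : ℝ} (hα : 0 < α) : ∃ T₀ : ℝ, ∀ T : ℝ, T₀ ≤ T → C ≤ T ^ α := by
  have h := (tendsto_rpow_atTop hα).eventually_ge_atTop C
  obtain ⟨T₀, hT₀⟩ := Filter.eventually_atTop.1 h
  exact ⟨T₀, hT₀⟩

lemma disc_sub {δ R v T x Q : ℝ} (hδ : 0 < δ) (hδ1 : δ ≤ 1) (hR : 1 ≤ R) (hv : |v| ≤ 1)
    (hx1 : 1 / 2 + δ ≤ x) (hx2 : x ≤ 1 / 2 + R) (hQ : Q = (R + 1) ^ 2 + 4) :
    closedBall ((x : ℂ) + ((T + v : ℝ) : ℂ) * I) (δ / 2) ⊆
      closedBall (1 / 2 + (T : ℂ) * I + ((2 * Q / δ : ℝ) : ℂ)) (2 * Q / δ - δ / 4) := by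
  intro z hz
  obtain ⟨w, hw⟩ : ∃ w : ℂ, w = z - (1 / 2 + (T : ℂ) * I) := ⟨_, rfl⟩
  have hz2 : z = 1 / 2 + (T : ℂ) * I + w := by rw [hw]; ring
  obtain ⟨Rb, hRb⟩ : ∃ Rb : ℝ, Rb = 2 * Q / δ := ⟨_, rfl⟩
  have hRbδ : Rb * δ = 2 * Q := by rw [hRb]; field_simp
  have hQ8 : 8 ≤ Q := by rw [hQ]; nlinarith
  have hRb16 : 16 ≤ Rb := by
    by_contra hcon
    push Not at hcon
    nlinarith
  rw [mem_closedBall, dist_eq_norm] at hz ⊢
  rw [← hRb]
  have e1 : z - ((x : ℂ) + ((T + v : ℝ) : ℂ) * I) = w - (((x - 1 / 2 : ℝ) : ℂ) + (v : ℂ) * I) := by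
    rw [hz2]
    push_cast
    ring
  have e2 : z - (1 / 2 + (T : ℂ) * I + (Rb : ℂ)) = w - (Rb : ℂ) := by
    rw [hz2]
    ring
  rw [e1] at hz
  rw [e2]
  have hre := (Complex.abs_re_le_norm _).trans hz
  have him := (Complex.abs_im_le_norm _).trans hz
  simp only [sub_re, add_re, mul_re, ofReal_re, ofReal_im, I_re, I_im, mul_zero, zero_mul,
    sub_zero, add_zero, sub_im, add_im, mul_im, mul_one, zero_add] at hre him
  rw [abs_le] at hre him hv
  have g1 : δ / 2 ≤ w.re := by linarith [hre.1]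
  have g2 : w.re ≤ R + 1 := by linarith [hre.2]
  have g3 : -2 ≤ w.im := by linarith [him.1, hv.1]
  have g4 : w.im ≤ 2 := by linarith [him.2, hv.2]
  have g5 : w.re ^ 2 + w.im ^ 2 ≤ Q := by
    rw [hQ]
    nlinarith
  apply le_of_sq_le_sq _ (by linarith)
  rw [← Complex.normSq_eq_norm_sq, Complex.normSq_apply]
  simp only [sub_re, sub_im, ofReal_re, ofReal_im, sub_zero]
  nlinarith [mul_nonneg (by linarith : (0 : ℝ) ≤ Rb) (by linarith : (0 : ℝ) ≤ w.re - δ / 2)]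

/-- real and imaginary part of a point near `x + i (T + v)` -/
lemma near {x v r T : ℝ} {z : ℂ} (hz : z ∈ closedBall ((x : ℂ) + ((T + v : ℝ) : ℂ) * I) r) :
    ∃ w : ℂ, z = 1 / 2 + (T : ℂ) * I + w ∧ |w.re - (x - 1 / 2)| ≤ r ∧ |w.im - v| ≤ r := by
  refine ⟨z - (1 / 2 + (T : ℂ) * I), by ring, ?_, ?_⟩
  · rw [mem_closedBall, dist_eq_norm] at hz
    have h := (Complex.abs_re_le_norm _).trans hz
    have e : (z - ((x : ℂ) + ((T + v : ℝ) : ℂ) * I)).re =
        (z - (1 / 2 + (T : ℂ) * I)).re - (x - 1 / 2) := by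
      simp only [sub_re, add_re, mul_re, ofReal_re, ofReal_im, I_re, I_im, mul_zero, zero_mul,
        sub_zero, add_zero]
      norm_num
    rwa [e] at h
  · rw [mem_closedBall, dist_eq_norm] at hz
    have h := (Complex.abs_im_le_norm _).trans hz
    have e : (z - ((x : ℂ) + ((T + v : ℝ) : ℂ) * I)).im =
        (z - (1 / 2 + (T : ℂ) * I)).im - v := by
      simp only [sub_im, add_im, mul_im, ofReal_re, ofReal_im, I_re, I_im, mul_zero, zero_mul,
        add_zero, mul_one, zero_add]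
      norm_num
      ring
    rwa [e] at h

lemma normsq_le {w : ℂ} {R Q : ℝ} (hQ : Q = (R + 1) ^ 2 + 4) (h1 : 0 ≤ w.re)
    (h2 : w.re ≤ R + 1) (h3 : |w.im| ≤ 2) : ‖w‖ ^ 2 ≤ Q := by
  rw [← Complex.normSq_eq_norm_sq, Complex.normSq_apply, hQ]
  rw [abs_le] at h3
  nlinarith [h3.1, h3.2]

end ZC2_

open ZC2_ Pool.Agent.SPZ Pool.Agent.LHW in
/-- C2 -/
theorem strip_of_few {c R₀ B : ℝ} (h : FewFlow c)
    (h1 : FlowLe c {x | R₀ ≤ |x|} fun x => |x| / 2 + c / 16)
    (h2 : FlowLe c univ fun x => |x| / 2 + B)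
    (hl : ∀ K : ℝ, ∃ R : ℝ, K ≤ R ∧ Low c R) : Strip c := by
  intro δ ε hδ hδ1 hε
  obtain ⟨R, hRK, hlow⟩ := hl (max R₀ 1 + 1)
  have hR2 : 2 ≤ R := by
    have := le_max_right R₀ 1
    linarith
  have hR0 : R₀ + 1 ≤ R := by
    have := le_max_left R₀ 1
    linarith
  obtain ⟨Q, hQ⟩ : ∃ Q : ℝ, Q = (R + 1) ^ 2 + 4 := ⟨_, rfl⟩
  have hQ0 : 8 ≤ Q := by rw [hQ]; nlinarith
  -- the exponent of the crude bound
  obtain ⟨p, hp⟩ : ∃ p : ℝ, p = |B + 1 - c / 16 + 1 * Q| + 1 := ⟨_, rfl⟩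
  have hp1 : 1 ≤ p := by rw [hp]; linarith [abs_nonneg (B + 1 - c / 16 + 1 * Q)]
  obtain ⟨η, hη, α, hα, T₁, hS1⟩ := s1 (1 / 2 + R) (1 / 2 + δ) δ (2 * p) (ε / 2) hδ
    (by linarith) (by linarith)
  obtain ⟨C₂, T₂, hC₂, hT₂, hb2⟩ := h2 1 1 one_pos one_pos
  obtain ⟨C₃, T₃, hC₃, hT₃, hb1⟩ := h1 (α / 8) (α / (8 * Q)) (by positivity) (by positivity)
  obtain ⟨T₄, hT₄, hb4⟩ := hlow (δ / 64) (α / 2) (by positivity) (by positivity)
  obtain ⟨T₅, hT₅⟩ := h ((2 * Q / δ : ℝ) : ℂ) (2 * Q / δ - δ / 4) (by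
      have : 16 ≤ 2 * Q / δ := by
        rw [le_div_iff₀ hδ]
        nlinarith
      linarith) (by
      rw [Complex.ofReal_re, abs_of_nonneg (by positivity)]
      linarith) (η / 2) (by linarith)
  obtain ⟨T₆, hT₆⟩ := const_le (C := C₂) (α := (1 : ℝ)) one_pos
  obtain ⟨T₇, hT₇⟩ := const_le (C := C₃) (α := α / 4) (by linarith)
  refine ⟨|T₁| + |T₂| + |T₃| + |T₄| + |T₅| + |T₆| + |T₇| + 2 * Q / δ + 10, ?_, ?_⟩
  · have : 0 ≤ 2 * Q / δ := by positivity
    linarith [abs_nonneg T₁, abs_nonneg T₂, abs_nonneg T₃, abs_nonneg T₄, abs_nonneg T₅,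
      abs_nonneg T₆, abs_nonneg T₇]
  intro T v hT hv
  have hQδ : 0 ≤ 2 * Q / δ := by positivity
  have a1 := abs_nonneg T₁
  have a2 := abs_nonneg T₂
  have a3 := abs_nonneg T₃
  have a4 := abs_nonneg T₄
  have a5 := abs_nonneg T₅
  have a6 := abs_nonneg T₆
  have a7 := abs_nonneg T₇
  have b1 := le_abs_self T₁
  have b2 := le_abs_self T₂
  have b3 := le_abs_self T₃
  have b4 := le_abs_self T₄
  have b5 := le_abs_self T₅
  have b6 := le_abs_self T₆
  have b7 := le_abs_self T₇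
  have hTbig : 10 + 2 * Q / δ ≤ T := by linarith
  have hv' := hv
  rw [abs_le] at hv'
  obtain ⟨hv1, hv2⟩ := hv'
  obtain ⟨S, hS⟩ : ∃ S : ℝ, S = T + v := ⟨_, rfl⟩
  have hS9 : 9 ≤ S := by linarith
  have hT0 : 0 < T := by linarith
  have hS0 : 0 < S := by linarith
  have hTS : T ≤ S + 1 := by linarith
  have hST : S ≤ T + 1 := by linarith
  have hL : 0 < Real.log T := Real.log_pos (by linarith)
  have hdf : DifferentiableOn ℂ (flow (c / Real.log T)) Up :=
    (differentiable_flow _).differentiableOn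
  have hsz := size_pos hT0
  -- the point of the lower bound
  obtain ⟨w₀, hw₀, hw₀l⟩ := hb4 T v (by linarith) hv
  have hw₀n : ‖G c T (1 / 2 + T * I + w₀)‖ ≥ T ^ (-(α / 2)) := by
    have e := G_norm c (by linarith : 2 ≤ T) w₀
    have e2 : T ^ (w₀.re / 2 + c / 16 - α / 2) =
        T ^ (-(α / 2)) * T ^ (w₀.re / 2 + c / 16) := by
      rw [← Real.rpow_add hT0]
      congr 1
      ring
    rw [← e, e2] at hw₀l
    have e3 : T ^ (-(α / 2)) * (size T * T ^ (w₀.re / 2 + c / 16)) ≤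
        ‖G c T (1 / 2 + T * I + w₀)‖ * (size T * T ^ (w₀.re / 2 + c / 16)) := by
      refine le_trans (le_of_eq ?_) hw₀l
      ring
    exact le_of_mul_le_mul_right e3 (mul_pos hsz (Real.rpow_pos_of_pos hT0 _))
  have hw₀b : (1 / 2 + (T : ℂ) * I + w₀) ∈
      closedBall (((1 / 2 + R : ℝ) : ℂ) + (S : ℂ) * I) (δ / 64) := by
    rw [mem_closedBall, dist_eq_norm]
    have e : (1 / 2 + (T : ℂ) * I + w₀) - (((1 / 2 + R : ℝ) : ℂ) + (S : ℂ) * I) =
        w₀ - (R + v * I) := by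
      rw [hS]
      push_cast
      ring
    rw [e]
    exact hw₀
  have hne : ∃ z ∈ Up, flow (c / Real.log T) z ≠ 0 := by
    refine ⟨1 / 2 + (T : ℂ) * I + w₀, ?_, ?_⟩
    · have h3 := (Complex.abs_im_le_norm _).trans hw₀
      simp only [sub_im, add_im, mul_im, ofReal_re, ofReal_im, I_re, I_im, mul_zero, mul_one,
        zero_add, add_zero] at h3
      rw [abs_le] at h3
      have h4 : (1 / 2 + (T : ℂ) * I + w₀).im = T + w₀.im := by
        simp
      change 1 < (1 / 2 + (T : ℂ) * I + w₀).im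
      rw [h4]
      linarith [h3.1]
    · intro h0
      rw [h0, norm_zero] at hw₀l
      have : 0 < size T * T ^ (w₀.re / 2 + c / 16 - α / 2) :=
        mul_pos hsz (Real.rpow_pos_of_pos hT0 _)
      linarith
  have hseg : uIcc (1 / 2 + R) (1 / 2 + δ) = Icc (1 / 2 + δ) (1 / 2 + R) :=
    uIcc_of_ge (by linarith)
  have key := hS1 S (by linarith) (G c T) ?_ ?_ ?_ ?_ ?_ (1 / 2 + δ) right_mem_uIcc
  · -- conclusion
    have e : (((1 / 2 + δ : ℝ) : ℂ) + (S : ℂ) * I) = 1 / 2 + (T : ℂ) * I + (δ + v * I) := by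
      rw [hS]
      push_cast
      ring
    rw [e] at key
    have e2 := G_norm c (by linarith : 2 ≤ T) (δ + v * I)
    have e3 : ((δ : ℂ) + v * I).re = δ := by simp
    rw [e3] at e2
    rw [← e2]
    have e4 : S ^ (ε / 2) ≤ T ^ ε := by
      have := pow_up (p := ε / 2) (by linarith : 2 ≤ T) hS0 hST (by linarith)
      rwa [mul_div_cancel₀ ε (two_ne_zero)] at this
    calc ‖G c T (1 / 2 + T * I + (δ + v * I))‖ * (size T * T ^ (δ / 2 + c / 16))
        ≤ T ^ ε * (size T * T ^ (δ / 2 + c / 16)) :=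
          mul_le_mul_of_nonneg_right (key.trans e4)
            (mul_pos hsz (Real.rpow_pos_of_pos hT0 _)).le
      _ = size T * T ^ (δ / 2 + c / 16 + ε) := by
          rw [Real.rpow_add hT0 (δ / 2 + c / 16) ε]
          ring
  · -- differentiability
    unfold G
    exact hdf.mul (by fun_prop)
  · -- crude bound
    intro x hx z hz
    rw [hseg] at hx
    rw [hS] at hz
    obtain ⟨w, rfl, hw1, hw2⟩ := near hz
    rw [abs_le] at hw1 hw2
    have g1 : 0 ≤ w.re := by linarith [hw1.1, hx.1]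
    have g2 : w.re ≤ R + 1 := by linarith [hw1.2, hx.2]
    have g3 : |w.im| ≤ 2 := abs_le.2 ⟨by linarith [hw2.1], by linarith [hw2.2]⟩
    have g4 := normsq_le hQ g1 g2 g3
    have g5 := G_le c (by linarith : 2 ≤ T) hC₂ zero_le_one g1 g4 (hb2 T w (by linarith) trivial)
    have g6 := hT₆ T (by linarith)
    rw [Real.rpow_one] at g6
    calc ‖G c T (1 / 2 + T * I + w)‖ ≤ C₂ * T ^ (B + 1 - c / 16 + 1 * Q) := g5
      _ ≤ T * T ^ |B + 1 - c / 16 + 1 * Q| := by
          gcongr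
          · linarith
          · exact le_abs_self _
      _ = T ^ p := by
          rw [hp, Real.rpow_add hT0, Real.rpow_one]
          ring
      _ ≤ S ^ (2 * p) := pow_up (by linarith) hT0 hTS (by linarith)
  · -- number of zeros
    intro x hx
    rw [hseg] at hx
    have g1 := hT₅ T (by linarith)
    have g2 := disc_sub (T := T) hδ hδ1 (by linarith) hv hx.1 hx.2 hQ
    rw [← hS] at g2
    have g3 := (s2 (flow (c / Real.log T)) hdf hne).2 _ _ _ _ (by
      simp only [add_im, mul_im, ofReal_re, ofReal_im, I_re, I_im, mul_zero, mul_one,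
        zero_add, add_zero]
      norm_num
      linarith) g2
    have g4 : (zeros (flow (c / Real.log T)) ((x : ℂ) + (S : ℂ) * I) (δ / 2) : ℝ) ≤
        η / 2 * Real.log T := le_trans (by exact_mod_cast g3) g1
    have g5 : Real.log T ≤ 2 * Real.log S := by
      have : Real.log T ≤ Real.log (S ^ 2) := Real.log_le_log hT0 (by nlinarith)
      rwa [Real.log_pow] at this
    have g6 : (zeros (flow (c / Real.log T)) ((x : ℂ) + (S : ℂ) * I) (δ / 2) : ℝ) ≤
        η * Real.log S := by nlinarith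
    have g7 : zeros (flow (c / Real.log T)) ((x : ℂ) + (S : ℂ) * I) (δ / 2) ≤
        ((⌊η * Real.log S⌋₊ : ℕ) : ℤ) := by
      rw [Int.natCast_floor_eq_floor (mul_nonneg hη.le (Real.log_nonneg (by linarith)))]
      exact Int.le_floor.2 g6
    exact (s2 (flow (c / Real.log T)) hdf hne).1 _ _ _ _ _ (by
      simp only [add_im, mul_im, ofReal_re, ofReal_im, I_re, I_im, mul_zero, mul_one,
        zero_add, add_zero]
      linarith) g7
  · -- smallness
    intro z hz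
    rw [hS] at hz
    obtain ⟨w, rfl, hw1, hw2⟩ := near hz
    rw [abs_le] at hw1 hw2
    have g1 : R - 1 ≤ w.re := by linarith [hw1.1]
    have g2 : w.re ≤ R + 1 := by linarith [hw1.2]
    have g3 : |w.im| ≤ 2 := abs_le.2 ⟨by linarith [hw2.1], by linarith [hw2.2]⟩
    have g4 := normsq_le hQ (by linarith) g2 g3
    have g5 := G_le c (by linarith : 2 ≤ T) hC₃ (by positivity) (by linarith) g4
      (hb1 T w (by linarith) (by
        change R₀ ≤ |w.re|
        rw [abs_of_nonneg (by linarith)]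
        linarith))
    have g6 : c / 16 + α / 8 - c / 16 + α / (8 * Q) * Q = α / 4 := by
      field_simp
      ring
    rw [g6] at g5
    calc ‖G c T (1 / 2 + T * I + w)‖ ≤ C₃ * T ^ (α / 4) := g5
      _ ≤ T ^ (α / 4) * T ^ (α / 4) := by
          gcongr
          exact hT₇ T (by linarith)
      _ = T ^ (α / 2) := by
          rw [← Real.rpow_add hT0]
          congr 1
          ring
      _ ≤ S ^ (2 * (α / 2)) := pow_up (by linarith) hT0 hTS (by linarith)
      _ = S ^ α := by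
          congr 1
          ring
  · -- lower bound
    refine ⟨1 / 2 + (T : ℂ) * I + w₀, hw₀b, le_trans ?_ hw₀n⟩
    rw [Real.rpow_neg hS0.le, Real.rpow_neg hT0.le]
    apply inv_anti₀ (Real.rpow_pos_of_pos hT0 _)
    have := pow_up (p := α / 2) (by linarith : 2 ≤ S) hT0 hTS (by linarith)
    rwa [mul_div_cancel₀ α (two_ne_zero)] at this

end Pool.Agent.DBN
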