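import Pool.Agent.DBN.ShiftNeg
import Pool.Agent.DBN.Down2
import Pool.Agent.DBN.Defs2

/-!
# Time shift for heights at distance at most `log T`, both signs
-/

set_option autoImplicit false

namespace Pool.Agent.DBN

open Complex MeasureTheory Set Filter Topology

lemma shift_core {a κ : ℝ} (ha : 0 < a) (hκ : 0 < κ) : ∃ D : ℝ, 0 ≤ D ∧
    ∀ (f : ℝ → ℂ) (B L L' : ℝ), Continuous f → 0 ≤ B → 1 / 2 ≤ L → 1 / 2 ≤ L' →
      |L - L'| ≤ a * κ / 8 →
      (∀ σ : ℝ, ‖f σ‖ ≤ B * Real.exp ((1 / a - κ) * σ ^ 2 * L')) →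
      ‖(∫ σ : ℝ, ((√L * Real.exp (-(σ ^ 2 / a * L)) : ℝ) : ℂ) * f σ) -
        ∫ σ : ℝ, ((√L' * Real.exp (-(σ ^ 2 / a * L')) : ℝ) : ℂ) * f σ‖ ≤
          D * |L - L'| * B := by
  refine ⟨(1 + 8 / (a * κ)) * √(Real.pi / (κ / 4)), by positivity, ?_⟩
  intro f B L L' hf hB hLm hLm' hθ1 h1
  -- integrability
  have hint : ∀ M : ℝ, |M - L'| ≤ a * κ / 8 →
      Integrable fun σ : ℝ => ((√M * Real.exp (-(σ ^ 2 / a * M)) : ℝ) : ℂ) * f σ := by
    intro M hM
    have h2 : Integrable fun σ : ℝ => √M * B * Real.exp (-(κ / 4) * σ ^ 2) :=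
      (integrable_exp_neg_mul_sq (by positivity)).const_mul _
    refine h2.mono' ?_ (Eventually.of_forall fun σ => ?_)
    · apply Continuous.aestronglyMeasurable
      fun_prop
    · rw [norm_mul, Complex.norm_real, Real.norm_eq_abs, abs_of_nonneg (by positivity)]
      calc √M * Real.exp (-(σ ^ 2 / a * M)) * ‖f σ‖
          ≤ √M * Real.exp (-(σ ^ 2 / a * M)) *
            (B * Real.exp ((1 / a - κ) * σ ^ 2 * L')) := by gcongr; exact h1 σ
        _ = √M * B * (Real.exp (-(σ ^ 2 / a * M)) *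
            Real.exp ((1 / a - κ) * σ ^ 2 * L')) := by ring
        _ ≤ √M * B * Real.exp (-(κ / 4) * σ ^ 2) := by
            rw [← Real.exp_add]
            apply mul_le_mul_of_nonneg_left _ (by positivity)
            rw [Real.exp_le_exp]
            have h3 : σ ^ 2 / a * (L' - M) ≤ κ * σ ^ 2 / 8 := by
              have h4 : L' - M ≤ a * κ / 8 := by
                have := neg_abs_le (M - L')
                linarith
              calc σ ^ 2 / a * (L' - M) ≤ σ ^ 2 / a * (a * κ / 8) := by gcongr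
                _ = κ * σ ^ 2 / 8 := by field_simp
            have h5 : κ * σ ^ 2 * (1 / 2) ≤ κ * σ ^ 2 * L' := by gcongr
            have e1 : (1 / a - κ) * σ ^ 2 * L' = σ ^ 2 / a * L' - κ * σ ^ 2 * L' := by
              field_simp
            rw [e1]
            nlinarith [sq_nonneg σ, mul_nonneg hκ.le (sq_nonneg σ)]
  rw [← integral_sub (hint L hθ1) (hint L' (by simp; positivity))]
  set m := min L L' with hm
  have hm2 : 1 / 2 ≤ m := le_min hLm hLm'
  have hmL : m ≤ L := min_le_left _ _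
  have hmL' : m ≤ L' := min_le_right _ _
  have hm3 : L' - |L - L'| ≤ m := by
    apply le_min
    · have := neg_abs_le (L - L'); linarith
    · have := abs_nonneg (L - L'); linarith
  have hL0 := abs_nonneg (L - L')
  have h2 : ∀ σ : ℝ, ‖((√L * Real.exp (-(σ ^ 2 / a * L)) : ℝ) : ℂ) * f σ -
      ((√L' * Real.exp (-(σ ^ 2 / a * L')) : ℝ) : ℂ) * f σ‖ ≤
      (|L - L'| * (1 + 8 / (a * κ)) * B) * Real.exp (-(κ / 4) * σ ^ 2) := by
    intro σ
    rw [← sub_mul, ← Complex.ofReal_sub, norm_mul, Complex.norm_real, Real.norm_eq_abs]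
    set q := σ ^ 2 / a with hq
    have hq0 : 0 ≤ q := by positivity
    have h3 := kernel_sub_le hq0 hm2 hmL hmL'
    have h4 := h1 σ
    have h5 : 1 + √L' * q ≤ (1 + 8 / (a * κ)) * Real.exp (κ * σ ^ 2 * L' / 4) := by
      have h6 : √L' ≤ 2 * L' := by
        rw [Real.sqrt_le_left (by linarith)]
        nlinarith
      have h7 : κ * σ ^ 2 * L' / 4 ≤ Real.exp (κ * σ ^ 2 * L' / 4) := by
        have := Real.add_one_le_exp (κ * σ ^ 2 * L' / 4)
        linarith
      have h8 : 1 ≤ Real.exp (κ * σ ^ 2 * L' / 4) := Real.one_le_exp (by positivity)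
      have h9 : √L' * q ≤ 8 / (a * κ) * (κ * σ ^ 2 * L' / 4) := by
        calc √L' * q ≤ 2 * L' * q := by gcongr
          _ = 8 / (a * κ) * (κ * σ ^ 2 * L' / 4) := by
              rw [hq]; field_simp; ring
      have h10 : 0 ≤ 8 / (a * κ) := by positivity
      nlinarith
    have h6 : Real.exp (-(q * m)) ≤ Real.exp (-(q * L') + κ * σ ^ 2 * L' / 4) := by
      rw [Real.exp_le_exp]
      have h7 : q * (L' - |L - L'|) ≤ q * m := by gcongr
      have h8 : q * |L - L'| ≤ κ * σ ^ 2 * L' / 4 := by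
        calc q * |L - L'| ≤ q * (a * κ / 8) := by gcongr
          _ = κ * σ ^ 2 * (1 / 2) / 4 := by rw [hq]; field_simp; ring
          _ ≤ κ * σ ^ 2 * L' / 4 := by gcongr
      nlinarith
    calc |√L * Real.exp (-(q * L)) - √L' * Real.exp (-(q * L'))| * ‖f σ‖
        ≤ (|L - L'| * (1 + √L' * q) * Real.exp (-(q * m))) *
          (B * Real.exp ((1 / a - κ) * σ ^ 2 * L')) := by
          gcongr
      _ ≤ (|L - L'| * ((1 + 8 / (a * κ)) * Real.exp (κ * σ ^ 2 * L' / 4)) *
          Real.exp (-(q * L') + κ * σ ^ 2 * L' / 4)) *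
          (B * Real.exp ((1 / a - κ) * σ ^ 2 * L')) := by
          gcongr
      _ = (|L - L'| * (1 + 8 / (a * κ)) * B) *
          (Real.exp (κ * σ ^ 2 * L' / 4) * Real.exp (-(q * L') + κ * σ ^ 2 * L' / 4) *
            Real.exp ((1 / a - κ) * σ ^ 2 * L')) := by
          ring
      _ = (|L - L'| * (1 + 8 / (a * κ)) * B) * Real.exp (-(κ / 2) * σ ^ 2 * L') := by
          rw [← Real.exp_add, ← Real.exp_add]
          congr 2
          rw [hq]
          field_simp
          ring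
      _ ≤ (|L - L'| * (1 + 8 / (a * κ)) * B) * Real.exp (-(κ / 4) * σ ^ 2) := by
          apply mul_le_mul_of_nonneg_left _ (by positivity)
          rw [Real.exp_le_exp]
          have h7 : 0 ≤ κ * σ ^ 2 := by positivity
          nlinarith
  have h3 := norm_gauss_le (by positivity : 0 < κ / 4) h2
  refine h3.trans_eq ?_
  ring

/-- logarithms of nearby heights -/
lemma log_near : ∃ T₀ : ℝ, 2 ≤ T₀ ∧ ∀ T T' : ℝ, T₀ ≤ T → |T' - T| ≤ Real.log T →
    2 ≤ T' ∧ T / 2 ≤ T' ∧ T' ≤ 2 * T ∧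
      |Real.log T - Real.log T'| ≤ 128 * T' ^ (-(15 / 16) : ℝ) := by
  refine ⟨16, by norm_num, fun T T' hT hTT => ?_⟩
  have hT0 : 0 < T := by linarith
  have habs := abs_le.mp hTT
  -- log T ≤ T / 4
  have hlog4 : Real.log T ≤ T / 4 := by
    have h1 : Real.log T = 2 * Real.log (√T) := by
      rw [Real.log_sqrt hT0.le]; ring
    have h2 : Real.log (√T) ≤ Real.log (√T / 4) + Real.log 4 := by
      rw [← Real.log_mul (by positivity) (by norm_num)]
      apply le_of_eq
      congr 1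
      ring
    have h3 : Real.log (√T / 4) ≤ √T / 4 - 1 := Real.log_le_sub_one_of_pos (by positivity)
    have h4 : Real.log 4 ≤ 1.4 := by
      have : (4 : ℝ) = 2 ^ 2 := by norm_num
      rw [this, Real.log_pow]
      have := Real.log_two_lt_d9
      push_cast
      linarith
    have h5 : (4 : ℝ) ≤ √T := by
      apply Real.le_sqrt_of_sq_le
      linarith
    have h6 : √T * √T = T := Real.mul_self_sqrt hT0.le
    nlinarith
  have hT'0 : 0 < T' := by linarith
  have hlow : T / 2 ≤ T' := by linarith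
  have hup : T' ≤ 2 * T := by linarith
  refine ⟨by linarith, hlow, hup, ?_⟩
  have hlog0 : 0 ≤ Real.log T := Real.log_nonneg (by linarith)
  have hθ : |Real.log T - Real.log T'| ≤ 2 * Real.log T / T := by
    have h2 : Real.log T - Real.log T' ≤ 2 * Real.log T / T := by
      have h3 : Real.log T - Real.log T' = Real.log (T / T') := by
        rw [Real.log_div hT0.ne' hT'0.ne']
      rw [h3]
      refine (Real.log_le_sub_one_of_pos (by positivity)).trans ?_
      rw [div_sub_one hT'0.ne', div_le_div_iff₀ hT'0 hT0]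
      nlinarith
    have h3 : Real.log T' - Real.log T ≤ 2 * Real.log T / T := by
      have h3 : Real.log T' - Real.log T = Real.log (T' / T) := by
        rw [Real.log_div hT'0.ne' hT0.ne']
      rw [h3]
      refine (Real.log_le_sub_one_of_pos (by positivity)).trans ?_
      rw [div_sub_one hT0.ne', div_le_div_iff_of_pos_right hT0]
      linarith
    rw [abs_le]
    constructor <;> linarith
  refine hθ.trans ?_
  have h4 : Real.log T ≤ 16 * T ^ (1 / 16 : ℝ) := by
    have := Real.log_le_rpow_div hT0.le (by norm_num : (0 : ℝ) < 1 / 16)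
    rw [div_div_eq_mul_div, div_one] at this
    linarith
  have h5 : T ^ (-(15 / 16) : ℝ) ≤ 2 ^ |(15 / 16 : ℝ)| * T' ^ (-(15 / 16) : ℝ) := by
    have := rpow_shift_le hT'0 (by linarith : T' / 2 ≤ T) (by linarith : T ≤ 2 * T')
      (-(15 / 16))
    rwa [abs_neg] at this
  have h6 : (2 : ℝ) ^ |(15 / 16 : ℝ)| ≤ 2 := by
    rw [abs_of_pos (by norm_num)]
    calc (2 : ℝ) ^ (15 / 16 : ℝ) ≤ 2 ^ (1 : ℝ) :=
          Real.rpow_le_rpow_of_exponent_le (by norm_num) (by norm_num)
      _ = 2 := Real.rpow_one 2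
  have e1 : T ^ (1 / 16 : ℝ) / T = T ^ (-(15 / 16) : ℝ) := by
    rw [div_eq_iff hT0.ne', ← Real.rpow_add_one hT0.ne']
    norm_num
  have hp : 0 < T' ^ (-(15 / 16) : ℝ) := by positivity
  calc 2 * Real.log T / T ≤ 2 * (16 * T ^ (1 / 16 : ℝ)) / T := by gcongr
    _ = 32 * (T ^ (1 / 16 : ℝ) / T) := by ring
    _ = 32 * T ^ (-(15 / 16) : ℝ) := by rw [e1]
    _ ≤ 32 * (2 * T' ^ (-(15 / 16) : ℝ)) := by
        gcongr
        exact h5.trans (by gcongr)
    _ ≤ 128 * T' ^ (-(15 / 16) : ℝ) := by linarith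

theorem time_shift_log (c : ℝ) : ∃ C T₀ : ℝ, 0 ≤ C ∧ 2 ≤ T₀ ∧ ∀ T T' : ℝ, T₀ ≤ T →
    |T' - T| ≤ Real.log T → 2 ≤ T' ∧
      ‖flow (c / Real.log T) (1 / 2 + T' * I) - flow (c / Real.log T') (1 / 2 + T' * I)‖ ≤
        C * size T' * T' ^ (max 0 (c / 16) - 1 / 16) := by
  obtain ⟨T₁, hT₁, hnear⟩ := log_near
  rcases lt_trichotomy c 0 with hc | hc | hc
  · -- c < 0
    obtain ⟨a, ha, rfl⟩ : ∃ a : ℝ, 0 < a ∧ c = -a := ⟨-c, by linarith, by ring⟩
    obtain ⟨C, T₂, hC, hT₂, h1⟩ := xi_vert ha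
    obtain ⟨D, hD, h2⟩ := shift_core ha (κ := 1 / (2 * a)) (by positivity)
    -- threshold for |θ| ≤ 1/16
    have hlim : Tendsto (fun T : ℝ => 128 * T ^ (-(15 / 16) : ℝ)) atTop (𝓝 (128 * 0)) :=
      (tendsto_rpow_neg_atTop (by norm_num : (0 : ℝ) < 15 / 16)).const_mul _
    rw [mul_zero] at hlim
    obtain ⟨T₃, hT₃⟩ := eventually_atTop.mp
      (hlim.eventually (gt_mem_nhds (by norm_num : (0 : ℝ) < 1 / 16)))
    refine ⟨(√Real.pi)⁻¹ * (√a)⁻¹ * (D * (128 * C)), max T₁ (2 * max T₂ T₃), by positivity,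
      hT₁.trans (le_max_left _ _), fun T T' hT hTT => ?_⟩
    have hTa : T₁ ≤ T := (le_max_left _ _).trans hT
    have hTb : 2 * max T₂ T₃ ≤ T := (le_max_right _ _).trans hT
    obtain ⟨hT'2, hlow, hup, hθ⟩ := hnear T T' hTa hTT
    have hT2 : 2 ≤ T := by linarith
    have hT'0 : 0 < T' := by linarith
    have hs0 := size_pos hT'0
    have hTc : T₂ ≤ T' := by
      have := le_max_left T₂ T₃
      linarith
    have hTd : T₃ ≤ T' := by
      have := le_max_right T₂ T₃
      linarith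
    have hsmall := hT₃ T' hTd
    refine ⟨hT'2, ?_⟩
    have hL : 1 / 2 ≤ Real.log T := log_two_ge.trans (Real.log_le_log (by norm_num) hT2)
    have hL' : 1 / 2 ≤ Real.log T' := log_two_ge.trans (Real.log_le_log (by norm_num) hT'2)
    have h3 := h2 (fun v : ℝ => xi (1 / 2 + T' * I + v * I)) (C * size T' * T' ^ (3 / 4 : ℝ))
      (Real.log T) (Real.log T') (by
        have := differentiable_xi.continuous
        fun_prop) (by positivity) hL hL' (by
          have e1 : a * (1 / (2 * a)) / 8 = 1 / 16 := by field_simp; norm_num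
          rw [e1]
          linarith) (fun v => by
            refine (h1 T' v hTc).trans_eq ?_
            congr 2
            field_simp
            ring)
    rw [flow_scale_neg ha (by linarith), flow_scale_neg ha (by linarith), ← mul_sub]
    rw [norm_mul, norm_mul, norm_inv, Complex.norm_real, Real.norm_eq_abs,
      abs_of_nonneg (Real.sqrt_nonneg _), Complex.norm_real, Real.norm_eq_abs,
      abs_of_nonneg (by positivity : 0 ≤ (√a)⁻¹)]
    have e2 : T' ^ (3 / 4 : ℝ) * T' ^ (-(15 / 16) : ℝ) = T' ^ (-(3 / 16) : ℝ) := by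
      rw [← Real.rpow_add hT'0]; norm_num
    have h5 : T' ^ (-(3 / 16) : ℝ) ≤ T' ^ (max 0 (-a / 16) - 1 / 16) := by
      apply Real.rpow_le_rpow_of_exponent_le (by linarith)
      have := le_max_left 0 (-a / 16)
      linarith
    calc (√Real.pi)⁻¹ * (√a)⁻¹ * _
        ≤ (√Real.pi)⁻¹ * (√a)⁻¹ * (D * |Real.log T - Real.log T'| *
          (C * size T' * T' ^ (3 / 4 : ℝ))) := by gcongr
      _ ≤ (√Real.pi)⁻¹ * (√a)⁻¹ * (D * (128 * T' ^ (-(15 / 16) : ℝ)) *
          (C * size T' * T' ^ (3 / 4 : ℝ))) := by gcongr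
      _ = (√Real.pi)⁻¹ * (√a)⁻¹ * (D * (128 * C)) * size T' *
          (T' ^ (3 / 4 : ℝ) * T' ^ (-(15 / 16) : ℝ)) := by ring
      _ ≤ _ := by rw [e2]; gcongr
  · -- c = 0
    refine ⟨0, T₁, le_rfl, hT₁, fun T T' hT hTT => ?_⟩
    obtain ⟨hT'2, -⟩ := hnear T T' hT hTT
    refine ⟨hT'2, ?_⟩
    rw [hc, zero_div, zero_div, sub_self, norm_zero]
    simp
  · -- c > 0
    obtain ⟨C, κ, hC, hκ, h1⟩ := xi_ptwise hc (mu_start hc) (ε := 1 / 8) (by norm_num)
    obtain ⟨D, hD, h2⟩ := shift_core hc hκ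
    have hlim : Tendsto (fun T : ℝ => 128 * T ^ (-(15 / 16) : ℝ)) atTop (𝓝 (128 * 0)) :=
      (tendsto_rpow_neg_atTop (by norm_num : (0 : ℝ) < 15 / 16)).const_mul _
    rw [mul_zero] at hlim
    obtain ⟨T₃, hT₃⟩ := eventually_atTop.mp
      (hlim.eventually (gt_mem_nhds (by positivity : (0 : ℝ) < c * κ / 8)))
    refine ⟨(√Real.pi)⁻¹ * (√c)⁻¹ * (D * (128 * C)), max T₁ (2 * T₃), by positivity,
      hT₁.trans (le_max_left _ _), fun T T' hT hTT => ?_⟩
    have hTa : T₁ ≤ T := (le_max_left _ _).trans hT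
    have hTb : 2 * T₃ ≤ T := (le_max_right _ _).trans hT
    obtain ⟨hT'2, hlow, hup, hθ⟩ := hnear T T' hTa hTT
    have hT2 : 2 ≤ T := by linarith
    have hT'0 : 0 < T' := by linarith
    have hs0 := size_pos hT'0
    have hTd : T₃ ≤ T' := by linarith
    have hsmall := hT₃ T' hTd
    refine ⟨hT'2, ?_⟩
    have hL : 1 / 2 ≤ Real.log T := log_two_ge.trans (Real.log_le_log (by norm_num) hT2)
    have hL' : 1 / 2 ≤ Real.log T' := log_two_ge.trans (Real.log_le_log (by norm_num) hT'2)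
    have h3 := h2 (fun v : ℝ => xi (1 / 2 + T' * I + v))
      (C * size T' * T' ^ (c / 16 + 3 / 4 + 1 / 8))
      (Real.log T) (Real.log T') (by
        have := differentiable_xi.continuous
        fun_prop) (by positivity) hL hL' (by linarith) (fun v => h1 T' v hT'2)
    rw [flow_scale hc (by linarith), flow_scale hc (by linarith), ← mul_sub]
    rw [norm_mul, norm_mul, norm_inv, Complex.norm_real, Real.norm_eq_abs,
      abs_of_nonneg (Real.sqrt_nonneg _), Complex.norm_real, Real.norm_eq_abs,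
      abs_of_nonneg (by positivity : 0 ≤ (√c)⁻¹)]
    have e2 : T' ^ (c / 16 + 3 / 4 + 1 / 8) * T' ^ (-(15 / 16) : ℝ) =
        T' ^ (c / 16 - 1 / 16) := by
      rw [← Real.rpow_add hT'0]
      congr 1
      ring
    have h5 : T' ^ (c / 16 - 1 / 16) ≤ T' ^ (max 0 (c / 16) - 1 / 16) := by
      apply Real.rpow_le_rpow_of_exponent_le (by linarith)
      have := le_max_right 0 (c / 16)
      linarith
    calc (√Real.pi)⁻¹ * (√c)⁻¹ * _
        ≤ (√Real.pi)⁻¹ * (√c)⁻¹ * (D * |Real.log T - Real.log T'| *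
          (C * size T' * T' ^ (c / 16 + 3 / 4 + 1 / 8))) := by gcongr
      _ ≤ (√Real.pi)⁻¹ * (√c)⁻¹ * (D * (128 * T' ^ (-(15 / 16) : ℝ)) *
          (C * size T' * T' ^ (c / 16 + 3 / 4 + 1 / 8))) := by gcongr
      _ = (√Real.pi)⁻¹ * (√c)⁻¹ * (D * (128 * C)) * size T' *
          (T' ^ (c / 16 + 3 / 4 + 1 / 8) * T' ^ (-(15 / 16) : ℝ)) := by ring
      _ ≤ _ := by rw [e2]; gcongr

end Pool.Agent.DBN
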