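import Pool.Agent.DBN.Down2

/-!
# Changing the time of the flow for negative times
-/

set_option autoImplicit false

namespace Pool.Agent.DBN

open Complex MeasureTheory Set Filter Topology

lemma flow_neg {t : ℝ} (ht : t < 0) (s : ℂ) :
    flow t s = (√Real.pi : ℂ)⁻¹ *
      ∫ u : ℝ, (Real.exp (-u ^ 2) : ℂ) * xi (s + √(-t) * I * u) := by
  have h1 : √t = 0 := Real.sqrt_eq_zero_of_nonpos ht.le
  unfold flow
  simp [h1]

/-- the flow at a negative time as a Gaussian average over the vertical line -/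
lemma flow_scale_neg {a L : ℝ} (ha : 0 < a) (hL : 0 < L) (s : ℂ) :
    flow (-a / L) s = (√Real.pi : ℂ)⁻¹ * ((√a)⁻¹ : ℝ) *
      ∫ v : ℝ, ((√L * Real.exp (-(v ^ 2 / a * L)) : ℝ) : ℂ) * xi (s + v * I) := by
  have ht : 0 < a / L := by positivity
  have ht' : -a / L < 0 := by rw [neg_div]; linarith
  have e0 : -(-a / L) = a / L := by ring
  rw [flow_neg ht', e0, mul_assoc]
  congr 1
  set g : ℝ → ℂ := fun v => ((Real.exp (-(v ^ 2 / a * L)) : ℝ) : ℂ) * xi (s + v * I) with hg
  have h1 := MeasureTheory.Measure.integral_comp_mul_left g (√(a / L))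
  have h2 : (fun u : ℝ => g (√(a / L) * u)) =
      fun u : ℝ => (Real.exp (-u ^ 2) : ℂ) * xi (s + √(a / L) * I * u) := by
    funext u
    simp only [hg]
    congr 2
    · rw [mul_pow, Real.sq_sqrt ht.le]
      congr 2
      field_simp
    · push_cast
      ring
  rw [h2] at h1
  rw [h1]
  have h3 : |(√(a / L))⁻¹| = (√a)⁻¹ * √L := by
    rw [abs_of_nonneg (by positivity), Real.sqrt_div ha.le]
    have := Real.sqrt_pos.mpr hL
    field_simp
  rw [h3, real_smul]
  rw [← integral_const_mul, ← integral_const_mul]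
  refine integral_congr_ae (Eventually.of_forall fun v => ?_)
  simp only [hg]
  push_cast
  ring

lemma integrable_gauss_xi_vert {b : ℝ} (hb : 0 < b) (k : ℝ) (s : ℂ) :
    Integrable fun v : ℝ => ((k * Real.exp (-(b * v ^ 2)) : ℝ) : ℂ) * xi (s + v * I) := by
  obtain ⟨C, hC, h⟩ := (subG_xi.affine s I) (b / 2) (by positivity)
  have h1 : Integrable fun v : ℝ => |k| * C * Real.exp (-(b / 2) * v ^ 2) :=
    (integrable_exp_neg_mul_sq (by positivity)).const_mul _
  refine h1.mono' ?_ (Eventually.of_forall fun v => ?_)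
  · have := differentiable_xi.continuous
    apply Continuous.aestronglyMeasurable
    fun_prop
  · have h2 := h (v : ℂ)
    beta_reduce at h2
    rw [mul_comm I, Complex.norm_real, Real.norm_eq_abs, sq_abs] at h2
    rw [norm_mul, Complex.norm_real, Real.norm_eq_abs, abs_mul, abs_of_pos (Real.exp_pos _)]
    calc |k| * Real.exp (-(b * v ^ 2)) * ‖xi (s + v * I)‖
        ≤ |k| * Real.exp (-(b * v ^ 2)) * (C * Real.exp (b / 2 * v ^ 2)) := by gcongr
      _ = |k| * C * (Real.exp (-(b * v ^ 2)) * Real.exp (b / 2 * v ^ 2)) := by ring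
      _ = _ := by rw [← Real.exp_add]; congr 2; ring

/-- the pointwise bound on the critical line -/
lemma xi_vert {a : ℝ} (ha : 0 < a) : ∃ C T₁ : ℝ, 0 ≤ C ∧ 2 ≤ T₁ ∧ ∀ T v : ℝ, T₁ ≤ T →
    ‖xi (1 / 2 + T * I + v * I)‖ ≤
      C * size T * T ^ (3 / 4 : ℝ) * Real.exp (v ^ 2 / a * Real.log T / 2) := by
  obtain ⟨R, C₁, hR, hC₁, h1⟩ := xi_far ha 0
  obtain ⟨C₂, hC₂, h2⟩ := zeta_sub
  obtain ⟨C₃, hC₃, h3⟩ := xi_two (1 / 2)
  set E : ℝ := 2 ^ (7 / 4 : ℝ) * Real.exp (Real.pi * R / 4) with hE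
  have hE0 : 0 < E := by positivity
  set P : ℝ := 2 ^ |(3 / 4 : ℝ)| with hP
  have hP0 : 0 < P := by positivity
  refine ⟨C₁ + C₃ * C₂ * E * P, 2 * R + 4, by positivity, by linarith, fun T v hT => ?_⟩
  have hT2 : 2 ≤ T := by linarith
  have hT0 : 0 < T := by linarith
  have hs0 := size_pos hT0
  have hL2 : 1 / 2 ≤ Real.log T := log_two_ge.trans (Real.log_le_log (by norm_num) hT2)
  have hp : 0 < T ^ (3 / 4 : ℝ) := by positivity
  have hC' : 0 ≤ C₃ * C₂ * E * P := by positivity
  have hexp : 1 ≤ Real.exp (v ^ 2 / a * Real.log T / 2) := Real.one_le_exp (by positivity)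
  rcases le_total R |v| with hv | hv
  · have h4 := h1 T (v * I) hT2 (by simpa using hv)
    refine h4.trans ?_
    have e1 : ‖(v * I : ℂ)‖ ^ 2 * Real.log T / (2 * a) = v ^ 2 / a * Real.log T / 2 := by
      rw [norm_mul, Complex.norm_I, mul_one, Complex.norm_real, Real.norm_eq_abs, sq_abs]
      field_simp
    rw [e1, neg_zero, Real.rpow_zero, mul_one]
    have h5 : 1 ≤ T ^ (3 / 4 : ℝ) := Real.one_le_rpow (by linarith) (by norm_num)
    calc C₁ * size T * Real.exp (v ^ 2 / a * Real.log T / 2)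
        ≤ (C₁ + C₃ * C₂ * E * P) * size T * Real.exp (v ^ 2 / a * Real.log T / 2) := by
          gcongr
          linarith
      _ = (C₁ + C₃ * C₂ * E * P) * size T * 1 * Real.exp (v ^ 2 / a * Real.log T / 2) := by ring
      _ ≤ _ := by gcongr
  · have habs := abs_le.mp hv
    set T' := T + v with hT'
    have hT'2 : 2 ≤ T' := by linarith
    have hT'0 : 0 < T' := by linarith
    have hs0' := size_pos hT'0
    have e0 : (1 / 2 + T * I + v * I : ℂ) = ((1 / 2 : ℝ) : ℂ) + T' * I := by
      rw [hT']; push_cast; ring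
    have h4 := (h3 (1 / 2) T' (by rw [abs_of_pos (by norm_num)]) hT'2).1
    have h5 := h2 (1 / 2) T' le_rfl hT'2
    have e1 : T' ^ (((1 : ℝ) / 2 - 1 / 2) / 2) = 1 := by norm_num
    rw [e1, one_mul] at h4
    have h6 : size T' ≤ E * size T :=
      size_shift_le hT0 (by linarith) (by linarith) (by rw [hT']; simpa using hv)
    have h7 : T' ^ (3 / 4 : ℝ) ≤ P * T ^ (3 / 4 : ℝ) :=
      rpow_shift_le hT0 (by linarith) (by linarith) _
    rw [e0]
    calc ‖xi (((1 / 2 : ℝ) : ℂ) + T' * I)‖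
        ≤ C₃ * (size T' * ‖riemannZeta (((1 / 2 : ℝ) : ℂ) + T' * I)‖) := h4
      _ ≤ C₃ * ((E * size T) * (C₂ * (P * T ^ (3 / 4 : ℝ)))) := by
          gcongr
          exact h5.trans (by gcongr)
      _ = (C₃ * C₂ * E * P) * size T * T ^ (3 / 4 : ℝ) * 1 := by ring
      _ ≤ (C₁ + C₃ * C₂ * E * P) * size T * T ^ (3 / 4 : ℝ) *
          Real.exp (v ^ 2 / a * Real.log T / 2) := by
          gcongr
          linarith

/-- changing the time from `c / log T` to `c / log T'`, `c < 0`, changes the flow at height `T'`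
by little -/
theorem time_shift_neg {c : ℝ} (hc : c < 0) (U : ℝ) (hU : 0 ≤ U) : ∃ C T₀ : ℝ, 0 ≤ C ∧
    2 ≤ T₀ ∧ ∀ T T' : ℝ, T₀ ≤ T → |T' - T| ≤ U → 2 ≤ T' ∧
      ‖flow (c / Real.log T) (1 / 2 + T' * I) - flow (c / Real.log T') (1 / 2 + T' * I)‖ ≤
        C * size T' * T' ^ (-(1 / 8) : ℝ) := by
  obtain ⟨a, ha, rfl⟩ : ∃ a : ℝ, 0 < a ∧ c = -a := ⟨-c, by linarith, by ring⟩
  obtain ⟨C, T₁, hC, hT₁, h1⟩ := xi_vert ha
  set D : ℝ := (√Real.pi)⁻¹ * (√a)⁻¹ * (C * (4 * U) * 17 * √(Real.pi / (1 / (8 * a)))) with hD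
  refine ⟨D, max (max (2 * U + 4) (32 * U)) (T₁ + U), by positivity,
    le_trans (by linarith) ((le_max_left _ _).trans (le_max_left _ _)), ?_⟩
  intro T T' hT hTT
  have hT1 : 2 * U + 4 ≤ T := ((le_max_left _ _).trans (le_max_left _ _)).trans hT
  have hT2 : 32 * U ≤ T := ((le_max_right _ _).trans (le_max_left _ _)).trans hT
  have hT3 : T₁ + U ≤ T := (le_max_right _ _).trans hT
  have habs := abs_le.mp hTT
  have hT0 : 0 < T := by linarith
  have hT'2 : 2 ≤ T' := by linarith
  have hT'0 : 0 < T' := by linarith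
  refine ⟨hT'2, ?_⟩
  set L := Real.log T with hL
  set L' := Real.log T' with hL'
  have hLm : 1 / 2 ≤ L := log_two_ge.trans (Real.log_le_log (by norm_num) (by linarith))
  have hLm' : 1 / 2 ≤ L' := log_two_ge.trans (Real.log_le_log (by norm_num) hT'2)
  -- the difference of the logarithms
  have hθ : |L - L'| ≤ 2 * U / T := by
    have h2 : L - L' ≤ 2 * U / T := by
      have h3 : L - L' = Real.log (T / T') := by rw [Real.log_div hT0.ne' hT'0.ne']
      rw [h3]
      refine (Real.log_le_sub_one_of_pos (by positivity)).trans ?_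
      rw [div_sub_one hT'0.ne', div_le_div_iff₀ hT'0 hT0]
      nlinarith
    have h3 : L' - L ≤ 2 * U / T := by
      have h3 : L' - L = Real.log (T' / T) := by rw [Real.log_div hT'0.ne' hT0.ne']
      rw [h3]
      refine (Real.log_le_sub_one_of_pos (by positivity)).trans ?_
      rw [div_sub_one hT0.ne', div_le_div_iff_of_pos_right hT0]
      linarith
    rw [abs_le]
    constructor <;> linarith
  have hθ1 : |L - L'| ≤ 1 / 16 := by
    refine hθ.trans ?_
    rw [div_le_iff₀ hT0]
    linarith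
  have hθ2 : |L - L'| ≤ 4 * U / T' := by
    refine hθ.trans ?_
    rw [div_le_div_iff₀ hT0 hT'0]
    nlinarith
  set m := min L L' with hm
  have hm2 : 1 / 2 ≤ m := le_min hLm hLm'
  have hmL : m ≤ L := min_le_left _ _
  have hmL' : m ≤ L' := min_le_right _ _
  have hm3 : L' - |L - L'| ≤ m := by
    apply le_min
    · have := neg_abs_le (L - L'); linarith
    · have := abs_nonneg (L - L'); linarith
  set s' : ℂ := 1 / 2 + T' * I with hs'
  rw [flow_scale_neg ha (by linarith), flow_scale_neg ha (by linarith), ← mul_sub]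
  have hi1 : Integrable fun v : ℝ =>
      ((√L * Real.exp (-(v ^ 2 / a * L)) : ℝ) : ℂ) * xi (s' + v * I) := by
    have := integrable_gauss_xi_vert (b := L / a) (by positivity) (√L) s'
    refine this.congr (Eventually.of_forall fun v => ?_)
    simp only
    congr 4
    ring
  have hi2 : Integrable fun v : ℝ =>
      ((√L' * Real.exp (-(v ^ 2 / a * L')) : ℝ) : ℂ) * xi (s' + v * I) := by
    have := integrable_gauss_xi_vert (b := L' / a) (by positivity) (√L') s'
    refine this.congr (Eventually.of_forall fun v => ?_)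
    simp only
    congr 4
    ring
  rw [← integral_sub hi1 hi2]
  have hs0 := size_pos hT'0
  -- the pointwise estimate
  have h2 : ∀ v : ℝ, ‖((√L * Real.exp (-(v ^ 2 / a * L)) : ℝ) : ℂ) * xi (s' + v * I) -
      ((√L' * Real.exp (-(v ^ 2 / a * L')) : ℝ) : ℂ) * xi (s' + v * I)‖ ≤
      (C * (4 * U) * 17 * (size T' * T' ^ (-(1 / 8) : ℝ))) *
        Real.exp (-(1 / (8 * a)) * v ^ 2) := by
    intro v
    rw [← sub_mul, ← Complex.ofReal_sub, norm_mul, Complex.norm_real, Real.norm_eq_abs]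
    have h4 := h1 T' v (by linarith)
    set q := v ^ 2 / a with hq
    have hq0 : 0 ≤ q := by positivity
    have h3 := kernel_sub_le hq0 hm2 hmL hmL'
    have e1 : T' ^ (3 / 4 : ℝ) ≤ T' ^ (-(1 / 8) : ℝ) * T' := by
      rw [← Real.rpow_add_one hT'0.ne']
      exact Real.rpow_le_rpow_of_exponent_le (by linarith) (by norm_num)
    rw [← hL'] at h4
    have h5 : 1 + √L' * q ≤ 17 * Real.exp (q * L' / 8) := by
      have h6 : √L' ≤ 2 * L' := by
        rw [Real.sqrt_le_left (by linarith)]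
        nlinarith
      have h7 : q * L' / 8 ≤ Real.exp (q * L' / 8) := by
        have := Real.add_one_le_exp (q * L' / 8)
        linarith
      have h8 : 1 ≤ Real.exp (q * L' / 8) := Real.one_le_exp (by positivity)
      have h9 : √L' * q ≤ 16 * (q * L' / 8) := by
        calc √L' * q ≤ 2 * L' * q := by gcongr
          _ = 16 * (q * L' / 8) := by ring
      linarith
    have h6 : Real.exp (-(q * m)) ≤ Real.exp (-(q * L') + q * L' / 8) := by
      rw [Real.exp_le_exp]
      have h7 : q * (L' - |L - L'|) ≤ q * m := by gcongr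
      have h8 : q * |L - L'| ≤ q * L' / 8 := by
        calc q * |L - L'| ≤ q * (1 / 16) := by gcongr
          _ = q * (1 / 2) / 8 := by ring
          _ ≤ q * L' / 8 := by gcongr
      nlinarith
    have hL0 := abs_nonneg (L - L')
    have h0' : (1 / 2 + T' * I + v * I : ℂ) = s' + v * I := rfl
    rw [h0'] at h4
    calc |√L * Real.exp (-(q * L)) - √L' * Real.exp (-(q * L'))| * ‖xi (s' + v * I)‖
        ≤ (|L - L'| * (1 + √L' * q) * Real.exp (-(q * m))) *
          (C * size T' * T' ^ (3 / 4 : ℝ) * Real.exp (q * L' / 2)) := by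
          gcongr
      _ ≤ ((4 * U / T') * (17 * Real.exp (q * L' / 8)) *
          Real.exp (-(q * L') + q * L' / 8)) *
          (C * size T' * (T' ^ (-(1 / 8) : ℝ) * T') * Real.exp (q * L' / 2)) := by
          gcongr
      _ = (C * (4 * U) * 17 * (size T' * T' ^ (-(1 / 8) : ℝ))) *
          (Real.exp (q * L' / 8) * Real.exp (-(q * L') + q * L' / 8) *
            Real.exp (q * L' / 2)) := by
          field_simp
      _ = (C * (4 * U) * 17 * (size T' * T' ^ (-(1 / 8) : ℝ))) *
          Real.exp (-(q * L') / 4) := by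
          rw [← Real.exp_add, ← Real.exp_add]
          congr 2
          ring
      _ ≤ (C * (4 * U) * 17 * (size T' * T' ^ (-(1 / 8) : ℝ))) *
          Real.exp (-(1 / (8 * a)) * v ^ 2) := by
          apply mul_le_mul_of_nonneg_left _ (by positivity)
          rw [Real.exp_le_exp]
          have h7 : -(1 / (8 * a)) * v ^ 2 = -(q * (1 / 2)) / 4 := by
            rw [hq]; field_simp; ring
          rw [h7]
          have h8 : q * (1 / 2) ≤ q * L' := by gcongr
          linarith
  have h3 := norm_gauss_le (by positivity : 0 < 1 / (8 * a)) h2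
  rw [norm_mul, norm_mul, norm_inv, Complex.norm_real, Real.norm_eq_abs,
    abs_of_nonneg (Real.sqrt_nonneg _), Complex.norm_real, Real.norm_eq_abs,
    abs_of_nonneg (by positivity : 0 ≤ (√a)⁻¹)]
  calc (√Real.pi)⁻¹ * (√a)⁻¹ * _
      ≤ (√Real.pi)⁻¹ * (√a)⁻¹ * ((C * (4 * U) * 17 *
          (size T' * T' ^ (-(1 / 8) : ℝ))) * √(Real.pi / (1 / (8 * a)))) := by gcongr
    _ = _ := by rw [hD]; ring

end Pool.Agent.DBN
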