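import Pool.Agent.DBN.FlowReg
import Pool.Agent.DBN.ShiftNeg
import Pool.Agent.DBN.Defs2

/-!
# The windowed Fourier transform of xi in terms of the flow at any time `t > -1`
-/

set_option autoImplicit false

namespace Pool.Agent.DBN

open Complex MeasureTheory Set Filter Topology

/-- the core computation: two Gaussian integrals -/
lemma win_core {G : ℂ → ℂ} (hG : Continuous G) (hS : SubG G) {t : ℝ} (ht : -1 < t) {α : ℂ}
    (hα : α ^ 2 = t) (ω : ℝ)
    (hshift : ∀ u : ℝ, ∫ v : ℝ, exp (-(v : ℂ) ^ 2 + ω * v * I) * G (v + α * u) =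
      ∫ v : ℝ, exp (-((v : ℂ) - α * u) ^ 2 + ω * (v - α * u) * I) * G v)
    {A c : ℝ} (hc : 0 < c) (hB : ∀ u v : ℝ,
      (-(u : ℂ) ^ 2 + (-((v : ℂ) - α * u) ^ 2 + ω * (v - α * u) * I)).re ≤
        A - c * (u ^ 2 + v ^ 2)) :
    ∫ v : ℝ, exp (-(v : ℂ) ^ 2 + ω * v * I) * ∫ u : ℝ, (Real.exp (-u ^ 2) : ℂ) * G (v + α * u) =
      ((√(Real.pi / (1 + t)) * Real.exp (-(t * ω ^ 2 / (4 * (1 + t)))) : ℝ) : ℂ) *
        ∫ v : ℝ, exp ((-(v : ℂ) ^ 2 + ω * v * I) / (1 + t)) * G v := by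
  have h1t : 0 < 1 + t := by linarith
  -- the first double integral
  set Φ : ℝ × ℝ → ℂ := fun p => exp (-(p.1 : ℂ) ^ 2 + ω * p.1 * I) *
    ((Real.exp (-p.2 ^ 2) : ℂ) * G (p.1 + α * p.2)) with hΦ
  have hΦi : Integrable Φ ((volume : Measure ℝ).prod volume) := by
    obtain ⟨C, hC, h⟩ := flow_integrand hS α (δ := 1 / 2) (by norm_num)
    have hr : Integrable fun v : ℝ => C * Real.exp (-(1 / 2) * v ^ 2) :=
      (integrable_exp_neg_mul_sq (by norm_num)).const_mul C
    have hr' : Integrable fun u : ℝ => Real.exp (-(1 / 2) * u ^ 2) :=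
      integrable_exp_neg_mul_sq (by norm_num)
    refine Integrable.mono' (hr.mul_prod hr') ?_ (Eventually.of_forall fun p => ?_)
    · apply Continuous.aestronglyMeasurable
      simp only [hΦ]
      fun_prop
    · have h1 := h p.1 p.2
      rw [Complex.norm_real, Real.norm_eq_abs, sq_abs] at h1
      have e1 : (-(p.1 : ℂ) ^ 2 + ω * p.1 * I).re = -p.1 ^ 2 := by
        simp [sq]
      simp only [hΦ]
      rw [norm_mul, Complex.norm_exp, e1]
      calc Real.exp (-p.1 ^ 2) * ‖(Real.exp (-p.2 ^ 2) : ℂ) * G (p.1 + α * p.2)‖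
          ≤ Real.exp (-p.1 ^ 2) *
            (C * Real.exp (1 / 2 * p.1 ^ 2) * Real.exp (-(1 / 2) * p.2 ^ 2)) := by gcongr
        _ = C * (Real.exp (-p.1 ^ 2) * Real.exp (1 / 2 * p.1 ^ 2)) *
            Real.exp (-(1 / 2) * p.2 ^ 2) := by ring
        _ = _ := by rw [← Real.exp_add]; congr 3; ring
  -- the second double integral
  set Ψ : ℝ × ℝ → ℂ := fun p => (Real.exp (-p.1 ^ 2) : ℂ) *
    (exp (-((p.2 : ℂ) - α * p.1) ^ 2 + ω * (p.2 - α * p.1) * I) * G p.2) with hΨ
  have hΨi : Integrable Ψ ((volume : Measure ℝ).prod volume) := by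
    obtain ⟨C, hC, h⟩ := hS (c / 2) (by positivity)
    have hr : Integrable fun u : ℝ => Real.exp A * C * Real.exp (-c * u ^ 2) :=
      (integrable_exp_neg_mul_sq hc).const_mul _
    have hr' : Integrable fun v : ℝ => Real.exp (-(c / 2) * v ^ 2) :=
      integrable_exp_neg_mul_sq (by positivity)
    refine Integrable.mono' (hr.mul_prod hr') ?_ (Eventually.of_forall fun p => ?_)
    · apply Continuous.aestronglyMeasurable
      simp only [hΨ]
      fun_prop
    · have h1 := h (p.2 : ℂ)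
      rw [Complex.norm_real, Real.norm_eq_abs, sq_abs] at h1
      have h2 := hB p.1 p.2
      simp only [hΨ]
      rw [← mul_assoc, norm_mul]
      have e1 : ‖(Real.exp (-p.1 ^ 2) : ℂ) *
          exp (-((p.2 : ℂ) - α * p.1) ^ 2 + ω * (p.2 - α * p.1) * I)‖ =
          Real.exp ((-(p.1 : ℂ) ^ 2 +
            (-((p.2 : ℂ) - α * p.1) ^ 2 + ω * (p.2 - α * p.1) * I)).re) := by
        rw [← Complex.norm_exp, Complex.exp_add (-(p.1 : ℂ) ^ 2)]
        congr 2
        push_cast
        rfl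
      rw [e1]
      calc _ ≤ Real.exp (A - c * (p.1 ^ 2 + p.2 ^ 2)) * (C * Real.exp (c / 2 * p.2 ^ 2)) := by
            gcongr
        _ = C * (Real.exp (A - c * (p.1 ^ 2 + p.2 ^ 2)) * Real.exp (c / 2 * p.2 ^ 2)) := by ring
        _ = C * Real.exp (A + -c * p.1 ^ 2 + -(c / 2) * p.2 ^ 2) := by
            rw [← Real.exp_add]; congr 2; ring
        _ = _ := by rw [Real.exp_add, Real.exp_add]; ring
  calc ∫ v : ℝ, exp (-(v : ℂ) ^ 2 + ω * v * I) *
        ∫ u : ℝ, (Real.exp (-u ^ 2) : ℂ) * G (v + α * u)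
      = ∫ v : ℝ, ∫ u : ℝ, Φ (v, u) := by
        refine integral_congr_ae (Eventually.of_forall fun v => ?_)
        simp only [hΦ]
        rw [integral_const_mul]
    _ = ∫ u : ℝ, ∫ v : ℝ, Φ (v, u) := integral_integral_swap hΦi
    _ = ∫ u : ℝ, ∫ v : ℝ, Ψ (u, v) := by
        refine integral_congr_ae (Eventually.of_forall fun u => ?_)
        simp only [hΦ, hΨ]
        rw [integral_const_mul, ← hshift u, ← integral_const_mul]
        refine integral_congr_ae (Eventually.of_forall fun v => ?_)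
        simp only
        ring
    _ = ∫ v : ℝ, ∫ u : ℝ, Ψ (u, v) := integral_integral_swap hΨi
    _ = ∫ v : ℝ, ((√(Real.pi / (1 + t)) * Real.exp (-(t * ω ^ 2 / (4 * (1 + t)))) : ℝ) : ℂ) *
        (exp ((-(v : ℂ) ^ 2 + ω * v * I) / (1 + t)) * G v) := by
        refine integral_congr_ae (Eventually.of_forall fun v => ?_)
        simp only [hΨ]
        have h2 : ∀ u : ℝ, (Real.exp (-u ^ 2) : ℂ) *
            (exp (-((v : ℂ) - α * u) ^ 2 + ω * (v - α * u) * I) * G v) =
            exp (-(1 + t : ℂ) * (u : ℂ) ^ 2 + (2 * v * α - ω * α * I) * u +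
              (-(v : ℂ) ^ 2 + ω * v * I)) * G v := by
          intro u
          rw [← mul_assoc, Complex.ofReal_exp, ← Complex.exp_add]
          congr 2
          push_cast
          linear_combination (-(u : ℂ) ^ 2) * hα
        simp_rw [h2]
        rw [integral_mul_const, integral_cexp_quadratic (by
          simp only [Complex.neg_re, Complex.add_re, Complex.one_re, Complex.ofReal_re]
          linarith)]
        have h3 : ((Real.pi : ℂ) / -(-(1 + t : ℂ))) ^ (1 / 2 : ℂ) =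
            ((√(Real.pi / (1 + t)) : ℝ) : ℂ) := by
          rw [neg_neg, Real.sqrt_eq_rpow, Complex.ofReal_cpow (by positivity)]
          push_cast
          rfl
        rw [h3]
        have hne : (1 + t : ℂ) ≠ 0 := by
          exact_mod_cast h1t.ne'
        have h4 : exp ((-(v : ℂ) ^ 2 + ω * v * I) - (2 * v * α - ω * α * I) ^ 2 /
            (4 * -(1 + t : ℂ))) = (Real.exp (-(t * ω ^ 2 / (4 * (1 + t)))) : ℂ) *
            exp ((-(v : ℂ) ^ 2 + ω * v * I) / (1 + t)) := by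
          rw [Complex.ofReal_exp, ← Complex.exp_add]
          congr 1
          push_cast
          have e1 : (2 * v * α - ω * α * I) ^ 2 = (t : ℂ) * (2 * v - ω * I) ^ 2 := by
            rw [← hα]; ring
          rw [e1]
          field_simp
          have hI : I ^ 2 = -1 := Complex.I_sq
          linear_combination ((t : ℂ) * ω ^ 2) * hI
        rw [h4]
        push_cast
        ring
    _ = _ := integral_const_mul _ _

lemma flow_nonneg {t : ℝ} (ht : 0 ≤ t) (s : ℂ) :
    flow t s = (√Real.pi : ℂ)⁻¹ * ∫ u : ℝ, (Real.exp (-u ^ 2) : ℂ) * xi (s + √t * u) := by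
  have h1 : √(-t) = 0 := Real.sqrt_eq_zero_of_nonpos (by linarith)
  unfold flow
  simp [h1]

lemma sqrt_pi_ne : ((√Real.pi : ℝ) : ℂ) ≠ 0 := by
  exact_mod_cast (Real.sqrt_pos.mpr Real.pi_pos).ne'

lemma sqrt_pi_mul : ((√Real.pi : ℝ) : ℂ) * ((√Real.pi : ℝ) : ℂ) = Real.pi := by
  rw [← Complex.ofReal_mul, Real.mul_self_sqrt Real.pi_pos.le]

/-- xi as a Gaussian average of the flow at a time `t ≥ 0` over a vertical line -/
lemma xi_eq_flow_pos {t : ℝ} (ht : 0 ≤ t) (s : ℂ) : xi s =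
    (√Real.pi : ℂ)⁻¹ * ∫ u : ℝ, (Real.exp (-u ^ 2) : ℂ) * flow t (s + √t * u * I) := by
  have h := inv_flow differentiable_xi subG_xi (√t) 0 s
  have h1 : ∀ y : ℝ, exp (-(y + ((0 : ℝ) : ℂ) * I) ^ 2) *
      ∫ x : ℝ, (Real.exp (-x ^ 2) : ℂ) * xi (s + √t * (x + y * I)) =
      ((√Real.pi : ℝ) : ℂ) * ((Real.exp (-y ^ 2) : ℂ) * flow t (s + √t * y * I)) := by
    intro y
    rw [flow_nonneg ht]
    have e1 : exp (-(y + ((0 : ℝ) : ℂ) * I) ^ 2) = (Real.exp (-y ^ 2) : ℂ) := by
      push_cast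
      congr 1
      ring
    have e2 : ∀ x : ℝ, s + √t * (x + y * I) = s + √t * y * I + √t * x := by
      intro x; ring
    simp_rw [e1, e2]
    have := sqrt_pi_ne
    field_simp
  simp_rw [h1] at h
  rw [integral_const_mul, Complex.ofReal_zero, mul_zero, add_zero, ← sqrt_pi_mul] at h
  have hne := sqrt_pi_ne
  have h2 := mul_left_cancel₀ hne (h.trans (mul_assoc _ _ _))
  rw [h2]
  field_simp

/-- xi as a Gaussian average of the flow at a time `t < 0` over a horizontal line -/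
lemma xi_eq_flow_neg {t : ℝ} (ht : t < 0) (s : ℂ) : xi s =
    (√Real.pi : ℂ)⁻¹ * ∫ u : ℝ, (Real.exp (-u ^ 2) : ℂ) * flow t (s + √(-t) * u) := by
  set g : ℂ → ℂ := fun w => xi (s + (√(-t) * I) * w) with hg
  have hgd : Differentiable ℂ g := by
    have := differentiable_xi
    simp only [hg]
    fun_prop
  have hgS : SubG g := subG_xi.affine _ _
  have h := plane_mean_iter hgd hgS
  have h1 : ∀ y : ℝ, ∫ x : ℝ, (Real.exp (-(x ^ 2 + y ^ 2)) : ℂ) * g (x + y * I) =
      ((√Real.pi : ℝ) : ℂ) * ((Real.exp (-y ^ 2) : ℂ) * flow t (s + √(-t) * (-y : ℝ))) := by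
    intro y
    rw [flow_neg ht]
    have e2 : ∀ x : ℝ, (Real.exp (-(x ^ 2 + y ^ 2)) : ℂ) * g (x + y * I) =
        (Real.exp (-y ^ 2) : ℂ) * ((Real.exp (-x ^ 2) : ℂ) *
          xi (s + √(-t) * (-y : ℝ) + √(-t) * I * x)) := by
      intro x
      have e3 : s + (√(-t) * I) * (x + y * I) = s + √(-t) * (-y : ℝ) + √(-t) * I * x := by
        push_cast
        linear_combination ((√(-t) : ℂ) * y) * Complex.I_sq
      simp only [hg]
      have e4 : ((Real.exp (-(x ^ 2 + y ^ 2)) : ℝ) : ℂ) =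
          ((Real.exp (-y ^ 2) : ℝ) : ℂ) * ((Real.exp (-x ^ 2) : ℝ) : ℂ) := by
        rw [← Complex.ofReal_mul, ← Real.exp_add]
        congr 2
        ring
      rw [e3, e4, mul_assoc]
    simp_rw [e2]
    rw [integral_const_mul]
    have := sqrt_pi_ne
    field_simp
  simp_rw [h1] at h
  rw [integral_const_mul] at h
  have h3 : (∫ y : ℝ, (Real.exp (-y ^ 2) : ℂ) * flow t (s + √(-t) * (-y : ℝ))) =
      ∫ y : ℝ, (Real.exp (-y ^ 2) : ℂ) * flow t (s + √(-t) * y) := by
    rw [← integral_neg_eq_self (fun y : ℝ => (Real.exp (-y ^ 2) : ℂ) * flow t (s + √(-t) * y))]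
    refine integral_congr_ae (Eventually.of_forall fun y => ?_)
    simp only [neg_sq]
  rw [h3, ← sqrt_pi_mul] at h
  have e0 : g 0 = xi s := by simp [hg]
  rw [e0] at h
  have hne := sqrt_pi_ne
  have h2 := mul_left_cancel₀ hne (h.trans (mul_assoc _ _ _))
  rw [h2]
  field_simp

theorem win_eq_flow {t : ℝ} (ht : -1 < t) (ω T : ℝ) : win ω T =
    (((√(1 + t))⁻¹ * Real.exp (-(t * ω ^ 2 / (4 * (1 + t)))) : ℝ) : ℂ) *
      ∫ v : ℝ, exp ((-(v : ℂ) ^ 2 + ω * v * I) / (1 + t)) * flow t (1 / 2 + (T + v) * I) := by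
  have h1t : 0 < 1 + t := by linarith
  set G : ℂ → ℂ := fun w => flow t ((1 / 2 + T * I) + I * w) with hGdef
  have hGd : Differentiable ℂ G := by
    have := differentiable_flow t
    simp only [hGdef]
    fun_prop
  have hGS : SubG G := (subG_flow t).affine _ _
  have hGv : ∀ v : ℝ, flow t (1 / 2 + (T + v) * I) = G v := by
    intro v
    simp only [hGdef]
    congr 1
    ring
  simp_rw [hGv]
  -- it is enough to know the average with a suitable direction
  have main : ∀ α : ℂ, α ^ 2 = t →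
      (∀ v : ℝ, xi (1 / 2 + (T + v) * I) =
        (√Real.pi : ℂ)⁻¹ * ∫ u : ℝ, (Real.exp (-u ^ 2) : ℂ) * G (v + α * u)) →
      (∀ u : ℝ, ∫ v : ℝ, exp (-(v : ℂ) ^ 2 + ω * v * I) * G (v + α * u) =
        ∫ v : ℝ, exp (-((v : ℂ) - α * u) ^ 2 + ω * (v - α * u) * I) * G v) →
      (∃ A c : ℝ, 0 < c ∧ ∀ u v : ℝ,
        (-(u : ℂ) ^ 2 + (-((v : ℂ) - α * u) ^ 2 + ω * (v - α * u) * I)).re ≤
          A - c * (u ^ 2 + v ^ 2)) →
      win ω T = (((√(1 + t))⁻¹ * Real.exp (-(t * ω ^ 2 / (4 * (1 + t)))) : ℝ) : ℂ) *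
        ∫ v : ℝ, exp ((-(v : ℂ) ^ 2 + ω * v * I) / (1 + t)) * G v := by
    rintro α hα h1 h2 ⟨A, c, hc, hB⟩
    have h3 := win_core hGd.continuous hGS ht hα ω h2 hc hB
    have h4 : win ω T = (√Real.pi : ℂ)⁻¹ * ∫ v : ℝ, exp (-(v : ℂ) ^ 2 + ω * v * I) *
        ∫ u : ℝ, (Real.exp (-u ^ 2) : ℂ) * G (v + α * u) := by
      unfold win
      rw [← integral_const_mul]
      refine integral_congr_ae (Eventually.of_forall fun v => ?_)
      simp only
      rw [h1 v]
      ring
    rw [h4, h3, ← mul_assoc]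
    congr 1
    have hp := Real.sqrt_pos.mpr Real.pi_pos
    rw [← Complex.ofReal_inv, ← Complex.ofReal_mul]
    congr 1
    rw [Real.sqrt_div Real.pi_pos.le]
    field_simp
  rcases le_or_gt 0 t with h0 | h0
  · -- nonnegative time
    refine main (√t) ?_ ?_ ?_ ?_
    · rw [← Complex.ofReal_pow, Real.sq_sqrt h0]
    · intro v
      rw [xi_eq_flow_pos h0]
      congr 1
      refine integral_congr_ae (Eventually.of_forall fun u => ?_)
      simp only [hGdef]
      congr 2
      ring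
    · intro u
      rw [← integral_sub_right_eq_self (fun v : ℝ =>
        exp (-(v : ℂ) ^ 2 + ω * v * I) * G (v + √t * u)) (√t * u)]
      refine integral_congr_ae (Eventually.of_forall fun v => ?_)
      simp only
      push_cast
      congr 2
      ring
    · refine ⟨0, 1 / (3 + 2 * t), by positivity, fun u v => ?_⟩
      have e1 : (-(u : ℂ) ^ 2 + (-((v : ℂ) - √t * u) ^ 2 + ω * (v - √t * u) * I)).re =
          -u ^ 2 - (v - √t * u) ^ 2 := by
        have e2 : (-(u : ℂ) ^ 2 + (-((v : ℂ) - √t * u) ^ 2 + ω * (v - √t * u) * I)) =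
            ((-u ^ 2 - (v - √t * u) ^ 2 : ℝ) : ℂ) + ((ω * (v - √t * u) : ℝ) : ℂ) * I := by
          push_cast
          ring
        rw [e2]
        simp only [Complex.add_re, Complex.ofReal_re, Complex.re_ofReal_mul, Complex.I_re,
          mul_zero, add_zero]
      rw [e1]
      have h3 : 0 < 3 + 2 * t := by linarith
      have h4 : (√t) ^ 2 = t := Real.sq_sqrt h0
      have h5 : v ^ 2 ≤ 2 * (v - √t * u) ^ 2 + 2 * t * u ^ 2 := by
        nlinarith [sq_nonneg (v - 2 * (√t * u)), sq_nonneg (v - √t * u - √t * u)]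
      have h6 : 1 / (3 + 2 * t) * (u ^ 2 + v ^ 2) ≤ u ^ 2 + (v - √t * u) ^ 2 := by
        rw [one_div, inv_mul_le_iff₀ h3]
        nlinarith [sq_nonneg u, sq_nonneg (v - √t * u), mul_nonneg h0 (sq_nonneg (v - √t * u))]
      linarith
  · -- negative time
    have hτ : 0 < -t := by linarith
    have hs2 : (√(-t)) ^ 2 = -t := Real.sq_sqrt hτ.le
    refine main (-(√(-t) * I)) ?_ ?_ ?_ ?_
    · have : ((√(-t) : ℝ) : ℂ) ^ 2 = ((-t : ℝ) : ℂ) := by
        rw [← Complex.ofReal_pow, hs2]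
      rw [neg_sq, mul_pow, this, Complex.I_sq]
      push_cast
      ring
    · intro v
      rw [xi_eq_flow_neg h0]
      congr 1
      refine integral_congr_ae (Eventually.of_forall fun u => ?_)
      simp only [hGdef]
      congr 2
      linear_combination ((√(-t) : ℂ) * u) * Complex.I_sq
    · intro u
      have hG' : Differentiable ℂ fun z => G (-(√(-t) * I) * u + 1 * z) := by fun_prop
      have h3 := contour_shift hG' (hGS.affine (-(√(-t) * I) * u) 1) one_pos (ω * I)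
        (√(-t) * u)
      have e1 : ∀ v : ℝ, exp (-((1 : ℝ) : ℂ) * ((v : ℂ) + ((√(-t) * u : ℝ) : ℂ) * I) ^ 2 +
          ω * I * (v + ((√(-t) * u : ℝ) : ℂ) * I)) *
          G (-(√(-t) * I) * u + 1 * (v + ((√(-t) * u : ℝ) : ℂ) * I)) =
          exp (-((v : ℂ) - -(√(-t) * I) * u) ^ 2 + ω * (v - -(√(-t) * I) * u) * I) * G v := by
        intro v
        congr 2
        · push_cast; ring
        · push_cast; ring
      have e2 : ∀ v : ℝ, exp (-((1 : ℝ) : ℂ) * (v : ℂ) ^ 2 + ω * I * v) *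
          G (-(√(-t) * I) * u + 1 * v) =
          exp (-(v : ℂ) ^ 2 + ω * v * I) * G (v + -(√(-t) * I) * u) := by
        intro v
        congr 2
        · push_cast; ring
        · ring
      simp_rw [e1, e2] at h3
      exact h3.symm
    · refine ⟨ω ^ 2 * (-t) / (2 * (1 + t)), min ((1 + t) / 2) 1, by positivity, fun u v => ?_⟩
      have e1 : (-(u : ℂ) ^ 2 + (-((v : ℂ) - -(√(-t) * I) * u) ^ 2 +
          ω * (v - -(√(-t) * I) * u) * I)).re =
          -u ^ 2 - v ^ 2 + (-t) * u ^ 2 - ω * √(-t) * u := by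
        have e2 : (-(u : ℂ) ^ 2 + (-((v : ℂ) - -(√(-t) * I) * u) ^ 2 +
            ω * (v - -(√(-t) * I) * u) * I)) =
            ((-u ^ 2 - v ^ 2 + (√(-t)) ^ 2 * u ^ 2 - ω * √(-t) * u : ℝ) : ℂ) +
              ((ω * v - 2 * v * √(-t) * u : ℝ) : ℂ) * I := by
          push_cast
          linear_combination (-(√(-t) : ℂ) ^ 2 * u ^ 2 + ω * √(-t) * u) * Complex.I_sq
        rw [e2]
        simp only [Complex.add_re, Complex.ofReal_re, Complex.re_ofReal_mul, Complex.I_re,
          mul_zero, add_zero]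
        rw [hs2]
      rw [e1]
      have h3 : min ((1 + t) / 2) 1 * (u ^ 2 + v ^ 2) ≤ (1 + t) / 2 * u ^ 2 + v ^ 2 := by
        have h4 : min ((1 + t) / 2) 1 * u ^ 2 ≤ (1 + t) / 2 * u ^ 2 := by
          gcongr
          exact min_le_left _ _
        have h5 : min ((1 + t) / 2) 1 * v ^ 2 ≤ 1 * v ^ 2 := by
          gcongr
          exact min_le_right _ _
        linarith
      have h4 : -(ω * √(-t) * u) ≤ (1 + t) / 2 * u ^ 2 + ω ^ 2 * (-t) / (2 * (1 + t)) := by
        have h5 : 0 ≤ ((1 + t) * u + ω * √(-t)) ^ 2 / (2 * (1 + t)) := by positivity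
        have h6 : ((1 + t) * u + ω * √(-t)) ^ 2 / (2 * (1 + t)) =
            (1 + t) / 2 * u ^ 2 + ω * √(-t) * u + ω ^ 2 * (-t) / (2 * (1 + t)) := by
          have h7 : ω ^ 2 * (-t) = ω ^ 2 * (√(-t)) ^ 2 := by rw [hs2]
          rw [h7]
          field_simp
          ring
        linarith
      linarith

end Pool.Agent.DBN
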