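import Pool.Agent.DBN.Good
import Pool.Agent.DBN.Shift2
import Pool.Agent.DBN.Newman
import Pool.Agent.DBN.WinUp
import Pool.Agent.DBN.WinDown
import Pool.Agent.DBN.WinSumE
import Pool.Agent.DBN.WinFar

/-!
# Growth of the flow and the windowed Fourier transform
-/

set_option autoImplicit false

namespace Pool.Agent.DBN

open Complex MeasureTheory Set Filter Topology

/-- lower bound for the growth exponent at every real time -/
lemma growth_lower {c A : ℝ} (h : GrowthLe c A) : max 0 (c / 16) ≤ A := by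
  rcases lt_trichotomy c 0 with hc | hc | hc
  · rw [max_eq_left (by linarith)]
    exact newman hc h
  · rw [hc, zero_div, max_self]
    rw [hc] at h
    exact mu_nonneg (growth_zero.mp h)
  · rw [max_eq_right (by linarith)]
    exact growth_ge hc h

lemma growth_exists (c : ℝ) : ∃ B : ℝ, GrowthLe c B := by
  have h0 : MuLe (1 / 2) (3 / 4) := by
    intro ε hε
    obtain ⟨C, hC, h⟩ := zeta_sub
    refine ⟨C, fun T hT => (h (1 / 2) T le_rfl hT).trans ?_⟩
    gcongr
    · linarith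
    · linarith
  rcases lt_trichotomy c 0 with hc | hc | hc
  · exact ⟨3 / 4, growth_neg_of_mu hc h0⟩
  · exact ⟨3 / 4, hc ▸ growth_zero.mpr h0⟩
  · exact ⟨c / 16 + 3 / 4, growth_of_mu hc (mu_start hc)⟩

/-- it is enough to consider large heights -/
lemma growth_of_large {c A : ℝ} (h : ∀ ε : ℝ, 0 < ε → ∃ C T₀ : ℝ, ∀ T : ℝ, T₀ ≤ T → 2 ≤ T →
    ‖flow (c / Real.log T) (1 / 2 + T * I)‖ ≤ C * T ^ (A + ε) * size T) : GrowthLe c A := by
  intro ε hε
  obtain ⟨C, T₀, h1⟩ := h ε hε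
  obtain ⟨B, hB⟩ := growth_exists c
  obtain ⟨C', h2⟩ := hB 1 one_pos
  refine ⟨max C (|C'| * (max T₀ 2) ^ |B + 1 - (A + ε)|), fun T hT => ?_⟩
  have hT0 : 0 < T := by linarith
  have hs0 := size_pos hT0
  have hp : 0 < T ^ (A + ε) := by positivity
  rcases le_total T₀ T with h3 | h3
  · refine (h1 T h3 hT).trans ?_
    gcongr
    exact le_max_left _ _
  · refine (h2 T hT).trans ?_
    have h4 : T ^ (B + 1) = T ^ (B + 1 - (A + ε)) * T ^ (A + ε) := by
      rw [← Real.rpow_add hT0]; congr 1; ring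
    have h5 : T ^ (B + 1 - (A + ε)) ≤ (max T₀ 2) ^ |B + 1 - (A + ε)| := by
      calc T ^ (B + 1 - (A + ε)) ≤ T ^ |B + 1 - (A + ε)| :=
            Real.rpow_le_rpow_of_exponent_le (by linarith) (le_abs_self _)
        _ ≤ (max T₀ 2) ^ |B + 1 - (A + ε)| := by
            gcongr
            exact h3.trans (le_max_left _ _)
    rw [h4]
    calc C' * (T ^ (B + 1 - (A + ε)) * T ^ (A + ε)) * size T
        ≤ |C'| * ((max T₀ 2) ^ |B + 1 - (A + ε)| * T ^ (A + ε)) * size T := by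
          gcongr
          exact le_abs_self C'
      _ = (|C'| * (max T₀ 2) ^ |B + 1 - (A + ε)|) * T ^ (A + ε) * size T := by ring
      _ ≤ _ := by
          gcongr
          exact le_max_right _ _

/-- compactness in the frequency -/
lemma win_unif {c A : ℝ} (h : ∀ y, |y| ≤ 1 / 2 → WinLe y (A - c * y ^ 2 / 4)) {ε : ℝ}
    (hε : 0 < ε) : ∃ δ : ℝ, 0 < δ ∧ δ ≤ 1 ∧ ∃ C : ℝ, 0 ≤ C ∧ ∀ T ω : ℝ, 2 ≤ T →
      |ω| ≤ (1 / 2 + δ) * Real.log T →
        ‖win ω T‖ * Real.exp (c * ω ^ 2 / (4 * Real.log T)) ≤ C * T ^ (A + ε) * size T := by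
  have key : ∃ δ : ℝ, 0 < δ ∧ δ ≤ 1 ∧ ∃ C : ℝ, 0 ≤ C ∧ ∀ T ω : ℝ, 2 ≤ T →
      (∃ y ∈ Icc (-1 / 2 : ℝ) (1 / 2), |ω - y * Real.log T| ≤ δ * Real.log T) →
        ‖win ω T‖ * Real.exp (c * ω ^ 2 / (4 * Real.log T)) ≤ C * T ^ (A + ε) * size T := by
    refine IsCompact.induction_on (p := fun s => ∃ δ : ℝ, 0 < δ ∧ δ ≤ 1 ∧ ∃ C : ℝ, 0 ≤ C ∧
      ∀ T ω : ℝ, 2 ≤ T → (∃ y ∈ s, |ω - y * Real.log T| ≤ δ * Real.log T) →
        ‖win ω T‖ * Real.exp (c * ω ^ 2 / (4 * Real.log T)) ≤ C * T ^ (A + ε) * size T)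
      isCompact_Icc ?_ ?_ ?_ ?_
    · exact ⟨1, one_pos, le_rfl, 0, le_rfl, fun T ω _ ⟨y, hy, _⟩ => absurd hy (by simp)⟩
    · rintro s t hst ⟨δ, hδ, hδ1, C, hC, h1⟩
      exact ⟨δ, hδ, hδ1, C, hC, fun T ω hT ⟨y, hy, hy'⟩ => h1 T ω hT ⟨y, hst hy, hy'⟩⟩
    · rintro s t ⟨δ, hδ, hδ1, C, hC, h1⟩ ⟨δ', hδ', hδ'1, C', hC', h2⟩
      refine ⟨min δ δ', lt_min hδ hδ', (min_le_left _ _).trans hδ1, C + C', by positivity, ?_⟩
      rintro T ω hT ⟨y, hy, hy'⟩
      have hT0 : 0 < T := by linarith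
      have hs0 := size_pos hT0
      have hL := log_pos_of hT
      rcases hy with hy | hy
      · refine (h1 T ω hT ⟨y, hy, hy'.trans ?_⟩).trans ?_
        · gcongr; exact min_le_left _ _
        · gcongr; linarith
      · refine (h2 T ω hT ⟨y, hy, hy'.trans ?_⟩).trans ?_
        · gcongr; exact min_le_right _ _
        · gcongr; linarith
    · intro x hx
      have hx2 : |x| ≤ 1 / 2 := abs_le.mpr ⟨by linarith [hx.1], hx.2⟩
      obtain ⟨δ₀, hδ₀, C, h1⟩ := h x hx2 (ε / 2) (by positivity)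
      have hc1 : 0 < |c| + 1 := by positivity
      set δ₁ : ℝ := min (min (δ₀ / 2) (1 / 2)) (ε / (2 * (|c| + 1))) with hδ₁
      have hδ₁0 : 0 < δ₁ := by positivity
      have hd1 : δ₁ ≤ δ₀ / 2 := (min_le_left _ _).trans (min_le_left _ _)
      have hd2 : δ₁ ≤ 1 / 2 := (min_le_left _ _).trans (min_le_right _ _)
      have hd3 : δ₁ ≤ ε / (2 * (|c| + 1)) := min_le_right _ _
      refine ⟨Metric.ball x δ₁, mem_nhdsWithin_of_mem_nhds (Metric.ball_mem_nhds _ hδ₁0), δ₁,
        hδ₁0, by linarith, |C|, abs_nonneg _, ?_⟩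
      rintro T ω hT ⟨y, hy, hy'⟩
      have hT0 : 0 < T := by linarith
      have hs0 := size_pos hT0
      have hL := log_pos_of hT
      set L := Real.log T with hLd
      rw [Metric.mem_ball, Real.dist_eq] at hy
      have h2 : |ω - x * L| ≤ 2 * δ₁ * L := by
        have e1 : ω - x * L = (ω - y * L) + (y - x) * L := by ring
        rw [e1]
        refine (abs_add_le _ _).trans ?_
        rw [abs_mul, abs_of_pos hL]
        have : |y - x| * L ≤ δ₁ * L := by gcongr
        linarith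
      have h3 : |ω - x * L| ≤ δ₀ * L := by
        refine h2.trans ?_
        gcongr
        linarith
      have h4 := h1 T ω hT h3
      -- the exponential
      set η : ℝ := ω / L - x with hη
      have hηL : ω = (x + η) * L := by
        rw [hη]; field_simp; ring
      have hη2 : |η| ≤ 2 * δ₁ := by
        have e1 : ω - x * L = η * L := by rw [hηL]; ring
        rw [e1, abs_mul, abs_of_pos hL] at h2
        exact le_of_mul_le_mul_right h2 hL
      have h5 : c * ω ^ 2 / (4 * L) ≤ (c * x ^ 2 / 4 + ε / 2) * L := by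
        have e1 : c * ω ^ 2 / (4 * L) = c * (x + η) ^ 2 / 4 * L := by
          rw [hηL]; field_simp
        rw [e1]
        apply mul_le_mul_of_nonneg_right _ hL.le
        have e2 : c * (x + η) ^ 2 / 4 = c * x ^ 2 / 4 + c * (2 * x * η + η ^ 2) / 4 := by ring
        rw [e2]
        have h6 : c * (2 * x * η + η ^ 2) ≤ |c| * (2 * |η|) := by
          have h7 : |2 * x * η + η ^ 2| ≤ 2 * |η| := by
            have h8 : 2 * x * η + η ^ 2 = (2 * x + η) * η := by ring
            rw [h8, abs_mul]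
            have h9 : |2 * x + η| ≤ 2 := by
              calc |2 * x + η| ≤ |2 * x| + |η| := abs_add_le _ _
                _ = 2 * |x| + |η| := by rw [abs_mul, abs_of_pos (by norm_num : (0 : ℝ) < 2)]
                _ ≤ 2 := by linarith
            have := abs_nonneg η
            nlinarith
          calc c * (2 * x * η + η ^ 2) ≤ |c * (2 * x * η + η ^ 2)| := le_abs_self _
            _ = |c| * |2 * x * η + η ^ 2| := abs_mul _ _
            _ ≤ _ := by gcongr
        have h7 : |c| * (2 * |η|) ≤ 2 * ε := by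
          have h8 : |η| ≤ ε / (|c| + 1) := by
            calc |η| ≤ 2 * δ₁ := hη2
              _ ≤ 2 * (ε / (2 * (|c| + 1))) := by gcongr
              _ = ε / (|c| + 1) := by field_simp
          have h9 : |c| * |η| ≤ ε := by
            calc |c| * |η| ≤ (|c| + 1) * (ε / (|c| + 1)) := by
                  gcongr
                  linarith
              _ = ε := by field_simp
          linarith
        linarith
      have h6 : Real.exp (c * ω ^ 2 / (4 * L)) ≤ T ^ (c * x ^ 2 / 4 + ε / 2) := by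
        rw [Real.rpow_def_of_pos hT0, Real.exp_le_exp, ← hLd]
        linarith
      have h7 : ‖win ω T‖ ≤ |C| * T ^ (A - c * x ^ 2 / 4 + ε / 2) * size T := by
        refine h4.trans ?_
        gcongr
        exact le_abs_self C
      have e3 : T ^ (A - c * x ^ 2 / 4 + ε / 2) * T ^ (c * x ^ 2 / 4 + ε / 2) =
          T ^ (A + ε) := by
        rw [← Real.rpow_add hT0]; congr 1; ring
      calc ‖win ω T‖ * Real.exp (c * ω ^ 2 / (4 * L))
          ≤ (|C| * T ^ (A - c * x ^ 2 / 4 + ε / 2) * size T) *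
            T ^ (c * x ^ 2 / 4 + ε / 2) := by gcongr
        _ = |C| * (T ^ (A - c * x ^ 2 / 4 + ε / 2) * T ^ (c * x ^ 2 / 4 + ε / 2)) *
            size T := by ring
        _ = _ := by rw [e3]
  obtain ⟨δ, hδ, hδ1, C, hC, h1⟩ := key
  refine ⟨δ, hδ, hδ1, C, hC, fun T ω hT hω => h1 T ω hT ?_⟩
  have hL := log_pos_of hT
  set L := Real.log T with hLd
  have habs := abs_le.mp hω
  rcases le_total (ω / L) (-1 / 2) with h2 | h2
  · refine ⟨-1 / 2, ⟨le_rfl, by norm_num⟩, ?_⟩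
    rw [div_le_iff₀ hL] at h2
    rw [abs_le]
    constructor <;> nlinarith
  · rcases le_total (ω / L) (1 / 2) with h3 | h3
    · refine ⟨ω / L, ⟨h2, h3⟩, ?_⟩
      have e1 : ω - ω / L * L = 0 := by field_simp; ring
      rw [e1, abs_zero]
      positivity
    · refine ⟨1 / 2, ⟨by norm_num, le_rfl⟩, ?_⟩
      rw [le_div_iff₀ hL] at h3
      rw [abs_le]
      constructor <;> nlinarith

theorem growth_of_win {c A : ℝ} (h : ∀ y, |y| ≤ 1 / 2 → WinLe y (A - c * y ^ 2 / 4)) :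
    GrowthLe c A := by
  apply growth_of_large
  intro ε hε
  obtain ⟨δ, hδ, hδ1, C₁, hC₁, h1⟩ := win_unif h (ε := ε / 4) (by positivity)
  obtain ⟨C₂, T₂, hC₂, hT₂, h2⟩ := win_far (c := |c| + 1) (δ := δ) (by positivity) hδ (-A)
  have hlog : ∀ᶠ T : ℝ in atTop, 2 * |c| ≤ Real.log T :=
    Real.tendsto_log_atTop.eventually_ge_atTop _
  obtain ⟨T₃, hT₃⟩ := eventually_atTop.mp hlog
  set κ : ℝ := min (1 / 4) (ε / 16) with hκ
  have hκ0 : 0 < κ := by positivity
  have hκ1 : κ ≤ 1 / 4 := min_le_left _ _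
  have hκ2 : κ ≤ ε / 16 := min_le_right _ _
  set E : ℝ := √(Real.pi * (4 / ε) / κ) with hE
  refine ⟨(2 * Real.pi)⁻¹ * 2 * ((C₁ + C₂) * E), max T₂ T₃, fun T hT hT2 => ?_⟩
  have hTa : T₂ ≤ T := (le_max_left _ _).trans hT
  have hTb : T₃ ≤ T := (le_max_right _ _).trans hT
  have hT0 : 0 < T := by linarith
  have hs0 := size_pos hT0
  have hL := log_pos_of hT2
  have hcL := hT₃ T hTb
  set L := Real.log T with hLd
  set t : ℝ := c / L with ht
  have ht1 : |t| ≤ 1 / 2 := by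
    rw [ht, abs_div, abs_of_pos hL, div_le_iff₀ hL]
    linarith
  have habs := abs_le.mp ht1
  have ht0 : 0 < 1 + t := by linarith
  have hπ := Real.pi_pos
  rw [flow_eq_win (by linarith : -1 < t), norm_mul, Complex.norm_real, Real.norm_eq_abs,
    abs_of_nonneg (by positivity)]
  have hsq : (√(1 + t))⁻¹ ≤ 2 := by
    have h3 : (1 : ℝ) / 2 ≤ √(1 + t) := Real.le_sqrt_of_sq_le (by nlinarith)
    calc (√(1 + t))⁻¹ ≤ (1 / 2 : ℝ)⁻¹ := by gcongr
      _ = 2 := by norm_num
  have h3 : ∀ ω : ℝ, ‖(Real.exp (t * ω ^ 2 / (4 * (1 + t))) : ℂ) * win ω T‖ ≤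
      ((C₁ + C₂) * T ^ (A + ε / 2) * size T) * Real.exp (-(κ / L) * ω ^ 2) := by
    intro ω
    rw [norm_mul, Complex.norm_real, Real.norm_eq_abs, abs_of_pos (Real.exp_pos _)]
    have h4 : Real.exp (t * ω ^ 2 / (4 * (1 + t))) ≤ Real.exp (c * ω ^ 2 / (4 * L)) := by
      rw [Real.exp_le_exp]
      have e1 : c * ω ^ 2 / (4 * L) = t * ω ^ 2 / 4 := by rw [ht]; field_simp
      rw [e1, div_le_div_iff₀ (by positivity) (by norm_num)]
      nlinarith [mul_nonneg (sq_nonneg t) (sq_nonneg ω)]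
    have hw := norm_nonneg (win ω T)
    rcases le_total |ω| ((1 / 2 + δ) * L) with h5 | h5
    · have h6 := h1 T ω hT2 h5
      have h7 : T ^ (A + ε / 4) ≤ T ^ (A + ε / 2) * Real.exp (-(κ / L) * ω ^ 2) := by
        rw [Real.rpow_def_of_pos hT0, Real.rpow_def_of_pos hT0, ← Real.exp_add,
          Real.exp_le_exp, ← hLd]
        have h8 : ω ^ 2 ≤ (3 / 2 * L) ^ 2 := by
          rw [← sq_abs ω]
          apply pow_le_pow_left₀ (abs_nonneg _)
          refine h5.trans ?_
          gcongr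
          linarith
        have h9 : κ / L * ω ^ 2 ≤ ε / 4 * L := by
          calc κ / L * ω ^ 2 ≤ κ / L * (3 / 2 * L) ^ 2 := by gcongr
            _ = κ * (9 / 4) * L := by field_simp; ring
            _ ≤ ε / 16 * (9 / 4) * L := by gcongr
            _ ≤ ε / 4 * L := by nlinarith
        linarith
      calc Real.exp (t * ω ^ 2 / (4 * (1 + t))) * ‖win ω T‖
          ≤ Real.exp (c * ω ^ 2 / (4 * L)) * ‖win ω T‖ := by gcongr
        _ = ‖win ω T‖ * Real.exp (c * ω ^ 2 / (4 * L)) := by ring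
        _ ≤ C₁ * T ^ (A + ε / 4) * size T := h6
        _ ≤ C₁ * (T ^ (A + ε / 2) * Real.exp (-(κ / L) * ω ^ 2)) * size T := by gcongr
        _ = (C₁ * T ^ (A + ε / 2) * size T) * Real.exp (-(κ / L) * ω ^ 2) := by ring
        _ ≤ _ := by gcongr; linarith
    · have h6 := h2 T ω hTa h5
      rw [neg_neg, ← hLd] at h6
      have h7 : T ^ A ≤ T ^ (A + ε / 2) :=
        Real.rpow_le_rpow_of_exponent_le (by linarith) (by linarith)
      have h8 : Real.exp (c * ω ^ 2 / (4 * L)) * Real.exp (-((|c| + 1) * ω ^ 2 / (4 * L))) ≤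
          Real.exp (-(κ / L) * ω ^ 2) := by
        rw [← Real.exp_add, Real.exp_le_exp]
        have e1 : c * ω ^ 2 / (4 * L) + -((|c| + 1) * ω ^ 2 / (4 * L)) =
            -((|c| + 1 - c) / 4 * (ω ^ 2 / L)) := by field_simp; ring
        have e2 : -(κ / L) * ω ^ 2 = -(κ * (ω ^ 2 / L)) := by ring
        rw [e1, e2]
        have h9 : 0 ≤ ω ^ 2 / L := by positivity
        have h10 := le_abs_self c
        have h11 : κ ≤ (|c| + 1 - c) / 4 := by linarith
        nlinarith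
      calc Real.exp (t * ω ^ 2 / (4 * (1 + t))) * ‖win ω T‖
          ≤ Real.exp (c * ω ^ 2 / (4 * L)) *
            (C₂ * size T * T ^ A * Real.exp (-((|c| + 1) * ω ^ 2 / (4 * L)))) := by gcongr
        _ = C₂ * size T * T ^ A * (Real.exp (c * ω ^ 2 / (4 * L)) *
            Real.exp (-((|c| + 1) * ω ^ 2 / (4 * L)))) := by ring
        _ ≤ C₂ * size T * T ^ (A + ε / 2) * Real.exp (-(κ / L) * ω ^ 2) := by gcongr
        _ = (C₂ * T ^ (A + ε / 2) * size T) * Real.exp (-(κ / L) * ω ^ 2) := by ring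
        _ ≤ _ := by gcongr; linarith
  have h4 := norm_gauss_le (by positivity : 0 < κ / L) h3
  have h5 : √(Real.pi / (κ / L)) ≤ E * T ^ (ε / 2) := by
    have h6 : Real.pi / (κ / L) ≤ (Real.pi * (4 / ε) / κ) * (T ^ (ε / 2)) ^ 2 := by
      have h7 : L ≤ 4 / ε * T ^ (ε / 4) := by
        have := Real.log_le_rpow_div hT0.le (by positivity : 0 < ε / 4)
        rw [← hLd] at this
        calc L ≤ T ^ (ε / 4) / (ε / 4) := this
          _ = 4 / ε * T ^ (ε / 4) := by field_simp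
      have h8 : T ^ (ε / 4) ≤ (T ^ (ε / 2)) ^ 2 := by
        rw [← Real.rpow_natCast, ← Real.rpow_mul hT0.le]
        apply Real.rpow_le_rpow_of_exponent_le (by linarith)
        push_cast
        linarith
      calc Real.pi / (κ / L) = Real.pi / κ * L := by field_simp
        _ ≤ Real.pi / κ * (4 / ε * T ^ (ε / 4)) := by gcongr
        _ ≤ Real.pi / κ * (4 / ε * (T ^ (ε / 2)) ^ 2) := by gcongr
        _ = _ := by field_simp
    calc √(Real.pi / (κ / L)) ≤ √((Real.pi * (4 / ε) / κ) * (T ^ (ε / 2)) ^ 2) :=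
          Real.sqrt_le_sqrt h6
      _ = _ := by
          rw [Real.sqrt_mul (by positivity), Real.sqrt_sq (by positivity)]
  have e4 : T ^ (A + ε / 2) * T ^ (ε / 2) = T ^ (A + ε) := by
    rw [← Real.rpow_add hT0]; congr 1; ring
  calc (2 * Real.pi)⁻¹ * (√(1 + t))⁻¹ * _
      ≤ (2 * Real.pi)⁻¹ * 2 * ((C₁ + C₂) * T ^ (A + ε / 2) * size T *
        (E * T ^ (ε / 2))) := by gcongr; exact h4.trans (by gcongr)
    _ = (2 * Real.pi)⁻¹ * 2 * ((C₁ + C₂) * E) * (T ^ (A + ε / 2) * T ^ (ε / 2)) *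
        size T := by ring
    _ = _ := by rw [e4]

end Pool.Agent.DBN
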