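import Pool.Agent.DBN.ZFlow
import Pool.Agent.DBN.GrowWin
import Pool.Agent.DBN.FlowReg
import Pool.Agent.DBN.ZS

/-!
# The bound on the critical line from the bounds on the lines close to it
-/

set_option autoImplicit false

namespace Pool.Agent.DBN

open Complex MeasureTheory Set Metric Filter Topology

lemma c3_norm_exp {T : ℝ} (hT : 0 < T) (M : ℝ) (w : ℂ) :
    ‖cexp (M * Real.log T * w ^ 2)‖ = T ^ (M * (w.re ^ 2 - w.im ^ 2)) := by
  rw [Complex.norm_exp, Real.rpow_def_of_pos hT]
  congr 1
  have h1 : ((M : ℂ) * (Real.log T : ℂ) * w ^ 2) = ((M * Real.log T : ℝ) : ℂ) * w ^ 2 := by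
    push_cast
    ring
  rw [h1, Complex.re_ofReal_mul, sq, Complex.mul_re]
  ring

/-- C3: the growth exponent on the critical line from the bounds on the lines close to it -/
theorem growth_of_strip {c B : ℝ} (h : Strip c) (h2 : FlowLe c univ fun x => |x| / 2 + B) :
    GrowthLe c (c / 16) := by
  refine growth_of_large fun ε hε => ?_
  set M : ℝ := 2 * (|B| + |c| + 4) with hM
  have hB0 := abs_nonneg B
  have hc0 := abs_nonneg c
  have hBle := le_abs_self B
  have hcle := neg_abs_le c
  have hM0 : 0 < M := by linarith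
  set δ : ℝ := min (1 / 2) (ε / (2 * (M + 1))) with hδ
  have hδ0 : 0 < δ := lt_min (by norm_num) (by positivity)
  have hδ1 : δ ≤ 1 / 2 := min_le_left _ _
  have hδ2 : (M + 1) * δ ≤ ε / 2 := by
    have h3 : δ ≤ ε / (2 * (M + 1)) := min_le_right _ _
    rw [le_div_iff₀ (by positivity)] at h3
    linarith
  have hδ3 : δ ^ 2 ≤ δ / 2 := by nlinarith
  have hδ4 : M * δ ^ 2 + δ / 2 ≤ ε / 4 := by nlinarith
  obtain ⟨T₁, hT₁, hs⟩ := h δ (ε / 4) hδ0 (by linarith) (by positivity)
  obtain ⟨C, T₂, hC, hT₂, hf⟩ := h2 1 1 one_pos one_pos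
  refine ⟨C + 1, max T₁ T₂, fun T hT hT2 => ?_⟩
  have hTT₁ : T₁ ≤ T := (le_max_left _ _).trans hT
  have hTT₂ : T₂ ≤ T := (le_max_right _ _).trans hT
  have hT0 : 0 < T := by linarith
  have hT1 : 1 ≤ T := by linarith
  have hS := size_pos hT0
  set G : ℂ → ℂ := fun w => flow (c / Real.log T) (1 / 2 + T * I + w) *
    cexp (M * Real.log T * w ^ 2) with hG
  have hGd : Differentiable ℂ G := by
    refine Differentiable.mul ?_ ?_
    · exact (differentiable_flow _).comp ((differentiable_const _).add differentiable_id)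
    · exact Complex.differentiable_exp.comp ((differentiable_id.pow 2).const_mul _)
  have hb : ∀ w ∈ frontier (Ioo (-δ) δ ×ℂ Ioo (-1) 1),
      ‖G w‖ ≤ (C + 1) * T ^ (c / 16 + ε) * size T := by
    intro w hw
    have i1 : -δ < δ := by linarith
    have i2 : (-1 : ℝ) < 1 := by norm_num
    rw [Complex.frontier_reProdIm, closure_Ioo i1.ne, closure_Ioo i2.ne, frontier_Ioo i1,
      frontier_Ioo i2] at hw
    have hnorm : ‖G w‖ = ‖flow (c / Real.log T) (1 / 2 + T * I + w)‖ *
        T ^ (M * (w.re ^ 2 - w.im ^ 2)) := by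
      rw [hG]
      simp only [norm_mul]
      rw [c3_norm_exp hT0]
    rw [hnorm]
    rcases hw with hw | hw
    · -- horizontal sides
      rw [Complex.mem_reProdIm] at hw
      obtain ⟨⟨h4, h5⟩, h6⟩ := hw
      have him : w.im ^ 2 = 1 := by
        rcases h6 with h6 | h6
        · rw [h6]; norm_num
        · rw [mem_singleton_iff.mp h6]; norm_num
      have hre : |w.re| ≤ δ := abs_le.mpr ⟨h4, h5⟩
      have hre2 : w.re ^ 2 ≤ 1 / 4 := by
        rw [← sq_abs]
        have := abs_nonneg w.re
        nlinarith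
      have hw2 : ‖w‖ ^ 2 = w.re ^ 2 + w.im ^ 2 := by
        rw [Complex.sq_norm, Complex.normSq_apply]
        ring
      have h7 := hf T w hTT₂ (mem_univ _)
      have h8 : Real.exp (1 * ‖w‖ ^ 2 * Real.log T) = T ^ (‖w‖ ^ 2) := by
        rw [Real.rpow_def_of_pos hT0]
        congr 1
        ring
      rw [h8] at h7
      calc ‖flow (c / Real.log T) (1 / 2 + T * I + w)‖ * T ^ (M * (w.re ^ 2 - w.im ^ 2))
          ≤ C * size T * T ^ (|w.re| / 2 + B + 1) * T ^ (‖w‖ ^ 2) *
            T ^ (M * (w.re ^ 2 - w.im ^ 2)) := by gcongr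
        _ = C * size T * T ^ (|w.re| / 2 + B + 1 + ‖w‖ ^ 2 + M * (w.re ^ 2 - w.im ^ 2)) := by
            rw [mul_assoc, mul_assoc, ← Real.rpow_add hT0, ← Real.rpow_add hT0]
            congr 2
            ring
        _ ≤ C * size T * T ^ (c / 16 + ε) := by
            refine mul_le_mul_of_nonneg_left ?_ (by positivity)
            refine Real.rpow_le_rpow_of_exponent_le hT1 ?_
            rw [hw2, him]
            nlinarith
        _ ≤ (C + 1) * T ^ (c / 16 + ε) * size T := by
            have h9 : 0 < T ^ (c / 16 + ε) := Real.rpow_pos_of_pos hT0 _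
            have h10 := mul_pos hS h9
            nlinarith
    · -- vertical sides
      rw [Complex.mem_reProdIm] at hw
      obtain ⟨h4, h5⟩ := hw
      have him : |w.im| ≤ 1 := abs_le.mpr h5
      have hre : w.re ^ 2 = δ ^ 2 := by
        rcases h4 with h4 | h4
        · rw [h4]; ring
        · rw [mem_singleton_iff.mp h4]
      have h7 : ‖flow (c / Real.log T) (1 / 2 + T * I + w)‖ ≤
          size T * T ^ (δ / 2 + c / 16 + ε / 4) := by
        have h8 := hs T w.im hTT₁ him
        rcases h4 with h4 | h4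
        · rw [← norm_flow_neg_conj]
          have h9 : -((starRingEnd ℂ) w) = (δ + w.im * I : ℂ) := by
            apply Complex.ext
            · simp [h4]
            · simp
          rw [h9]
          exact h8
        · have h9 : w = (δ + w.im * I : ℂ) := by
            apply Complex.ext
            · simp [mem_singleton_iff.mp h4]
            · simp
          rw [h9]
          simpa using h8
      calc ‖flow (c / Real.log T) (1 / 2 + T * I + w)‖ * T ^ (M * (w.re ^ 2 - w.im ^ 2))
          ≤ size T * T ^ (δ / 2 + c / 16 + ε / 4) * T ^ (M * (w.re ^ 2 - w.im ^ 2)) := by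
            gcongr
        _ = size T * T ^ (δ / 2 + c / 16 + ε / 4 + M * (w.re ^ 2 - w.im ^ 2)) := by
            rw [mul_assoc, ← Real.rpow_add hT0]
        _ ≤ size T * T ^ (c / 16 + ε) := by
            refine mul_le_mul_of_nonneg_left ?_ hS.le
            refine Real.rpow_le_rpow_of_exponent_le hT1 ?_
            rw [hre]
            have h10 : 0 ≤ M * w.im ^ 2 := by positivity
            nlinarith
        _ ≤ (C + 1) * T ^ (c / 16 + ε) * size T := by
            have h9 : 0 < T ^ (c / 16 + ε) := Real.rpow_pos_of_pos hT0 _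
            have h10 := mul_pos hS h9
            nlinarith
  have h0 : (0 : ℂ) ∈ closure (Ioo (-δ) δ ×ℂ Ioo (-1) 1) := by
    refine subset_closure ?_
    rw [Complex.mem_reProdIm]
    simp [hδ0]
  have hbd : Bornology.IsBounded (Ioo (-δ) δ ×ℂ Ioo (-1) 1) :=
    (Metric.isBounded_Ioo _ _).reProdIm (Metric.isBounded_Ioo _ _)
  have h3 := Complex.norm_le_of_forall_mem_frontier_norm_le hbd hGd.diffContOnCl hb h0
  have h4 : G 0 = flow (c / Real.log T) (1 / 2 + T * I) := by
    rw [hG]
    simp
  rw [h4] at h3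
  exact h3

end Pool.Agent.DBN
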