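import Pool.Agent.DBN.ZFlow
import Pool.Agent.DBN.FlowReg
import Pool.Agent.SPZ.S4

/-!
# Lower bound for the flow far to the right of the critical line at negative times
-/

set_option autoImplicit false

namespace Pool.Agent.DBN

open Complex MeasureTheory Set Metric Filter Topology

/-- `xi` as a horizontal Gaussian average of the flow at a negative time -/
lemma flow_inv_hor {t : ℝ} (ht : t < 0) (s : ℂ) :
    ∫ y : ℝ, (Real.exp (-y ^ 2) : ℂ) * ((√Real.pi : ℂ) * flow t (s - √(-t) * y)) =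
      Real.pi * xi s := by
  have hf : Differentiable ℂ fun w : ℂ => xi (s + I * w) := by
    have := differentiable_xi
    fun_prop
  have h := inv_flow hf (subG_xi.affine s I) (√(-t)) 0 0
  have e0 : xi (s + I * (0 + (√(-t) : ℂ) * ((0 : ℝ) : ℂ))) = xi s := by simp
  rw [e0] at h
  rw [← h]
  refine integral_congr_ae (Eventually.of_forall fun y => ?_)
  have h1 : √t = 0 := Real.sqrt_eq_zero_of_nonpos ht.le
  have hp : (√Real.pi : ℂ) ≠ 0 := by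
    have : 0 < √Real.pi := Real.sqrt_pos.mpr Real.pi_pos
    exact_mod_cast this.ne'
  simp only
  congr 1
  · rw [Complex.ofReal_exp]
    congr 1
    push_cast
    ring
  · unfold flow
    rw [← mul_assoc, mul_inv_cancel₀ hp, one_mul]
    refine integral_congr_ae (Eventually.of_forall fun x => ?_)
    simp only
    congr 2
    rw [h1]
    push_cast
    have hI : I ^ 2 = -1 := Complex.I_sq
    linear_combination (-(√(-t) : ℂ) * y) * hI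

/-- a bound for `xi` from a bound for the flow on a horizontal line, negative times -/
lemma norm_xi_le_hor {t : ℝ} (ht : t < 0) (s : ℂ) {M y₀ : ℝ}
    (h : ∀ y : ℝ, Real.exp (-y ^ 2) * ‖flow t (s - √(-t) * y)‖ ≤
      M * Real.exp (-(1 / 2) * (y + y₀) ^ 2)) : ‖xi s‖ ≤ √2 * M := by
  have hp : 0 < √Real.pi := Real.sqrt_pos.mpr Real.pi_pos
  have hi : Integrable fun y : ℝ => √Real.pi * M * Real.exp (-(1 / 2) * (y + y₀) ^ 2) :=
    ((integrable_exp_neg_mul_sq (by norm_num : (0 : ℝ) < 1 / 2)).comp_add_right y₀).const_mul _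
  have h1 := norm_integral_le_of_norm_le (f := fun y : ℝ => (Real.exp (-y ^ 2) : ℂ) *
    ((√Real.pi : ℂ) * flow t (s - √(-t) * y))) hi (Eventually.of_forall fun y => by
      rw [norm_mul, norm_mul, Complex.norm_real, Complex.norm_real,
        Real.norm_of_nonneg (Real.exp_pos _).le, Real.norm_of_nonneg hp.le]
      calc Real.exp (-y ^ 2) * (√Real.pi * ‖flow t (s - √(-t) * y)‖)
          = √Real.pi * (Real.exp (-y ^ 2) * ‖flow t (s - √(-t) * y)‖) := by ring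
        _ ≤ √Real.pi * (M * Real.exp (-(1 / 2) * (y + y₀) ^ 2)) :=
          mul_le_mul_of_nonneg_left (h y) hp.le
        _ = _ := by ring)
  rw [flow_inv_hor ht, norm_mul, Complex.norm_real, Real.norm_of_nonneg Real.pi_pos.le,
    integral_const_mul, integral_add_right_eq_self
      (fun y : ℝ => Real.exp (-(1 / 2) * y ^ 2)), integral_gaussian] at h1
  have h3 : √(Real.pi / (1 / 2)) = √Real.pi * √2 := by
    rw [← Real.sqrt_mul Real.pi_pos.le]; congr 1; ring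
  rw [h3] at h1
  have h4 : √Real.pi * M * (√Real.pi * √2) = Real.pi * (√2 * M) := by
    have := Real.mul_self_sqrt Real.pi_pos.le
    linear_combination (M * √2) * this
  rw [h4] at h1
  exact le_of_mul_le_mul_left h1 Real.pi_pos

/-- the pointwise bound of the integrand, from an inequality of exponents -/
lemma low_neg_aux {S X L T R η F E G : ℝ} (hS : 0 ≤ S) (hX : 0 ≤ X) (hT : 0 < T)
    (hL : L = Real.log T) (hL0 : 0 ≤ L) (hF : F ≤ X * S * T ^ E * Real.exp (G * L))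
    {y z q p : ℝ} (hy : y ^ 2 = p * L) (hz : z ^ 2 = q * L)
    (h : -p + E + G ≤ R - q / 2 - η) :
    Real.exp (-y ^ 2) * F ≤ S * T ^ R * (X * T ^ (-η)) * Real.exp (-(1 / 2) * z ^ 2) := by
  rw [hy, hz]
  have e : ∀ x : ℝ, T ^ x = Real.exp (x * L) := fun x => by
    rw [Real.rpow_def_of_pos hT, hL, mul_comm]
  rw [e] at hF
  rw [e, e]
  calc Real.exp (-(p * L)) * F
      ≤ Real.exp (-(p * L)) * (X * S * Real.exp (E * L) * Real.exp (G * L)) :=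
        mul_le_mul_of_nonneg_left hF (Real.exp_pos _).le
    _ = X * S * (Real.exp (-(p * L)) * Real.exp (E * L) * Real.exp (G * L)) := by ring
    _ = X * S * Real.exp ((-p + E + G) * L) := by
        rw [← Real.exp_add, ← Real.exp_add]; congr 2; ring
    _ ≤ X * S * Real.exp ((R - q / 2 - η) * L) := by gcongr
    _ = X * S * (Real.exp (R * L) * Real.exp (-η * L) * Real.exp (-(1 / 2) * (q * L))) := by
        rw [← Real.exp_add, ← Real.exp_add]; congr 2; ring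
    _ = _ := by ring

lemma low_neg_expA {a R₁ σ ε : ℝ} (ha : 0 < a) :
    -(σ ^ 2 / a) + ((R₁ + σ) / 2 + -a / 16 - ε) + 0 ≤
      R₁ / 2 - (σ - a / 4) ^ 2 / a / 2 - ε := by
  have hQ : (σ - a / 4) ^ 2 / a = σ ^ 2 / a - σ / 2 + a / 16 := by
    field_simp
    ring
  have hQ0 : 0 ≤ (σ - a / 4) ^ 2 / a := by positivity
  linarith

lemma low_neg_expB {a R₁ σ ρ κ K₁ n : ℝ} (ha : 0 < a) (hρ : 0 < ρ) (hκ0 : 0 < κ)
    (hκ1 : κ * (16 * a) ≤ 1) (hκ3 : κ * K₁ ≤ ρ ^ 2 / (16 * a))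
    (hK₁ : K₁ = 2 * R₁ ^ 2 + 1 + a ^ 2 / 4) (hc : ρ < |σ - a / 4|)
    (hn : n ≤ 2 * R₁ ^ 2 + 1 + 2 * σ ^ 2) :
    -(σ ^ 2 / a) + ((R₁ + σ) / 2 + -a / 16 + ρ ^ 2 / (16 * a)) + κ * n ≤
      R₁ / 2 - (σ - a / 4) ^ 2 / a / 2 - ρ ^ 2 / (8 * a) := by
  have hQ : (σ - a / 4) ^ 2 / a = σ ^ 2 / a - σ / 2 + a / 16 := by
    field_simp
    ring
  have hsq : ρ ^ 2 ≤ (σ - a / 4) ^ 2 := by
    rw [← sq_abs (σ - a / 4)]
    exact pow_le_pow_left₀ hρ.le hc.le 2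
  have h5 : ρ ^ 2 / a ≤ (σ - a / 4) ^ 2 / a := div_le_div_of_nonneg_right hsq ha.le
  have h7 : n ≤ K₁ + 4 * (σ - a / 4) ^ 2 := by
    rw [hK₁]
    nlinarith [sq_nonneg (σ - a / 2)]
  have h8 : 16 * a * ((σ - a / 4) ^ 2 / a / 4) = 4 * (σ - a / 4) ^ 2 := by
    field_simp
    ring
  have h9 : κ * n ≤ κ * K₁ + (κ * (16 * a)) * ((σ - a / 4) ^ 2 / a / 4) := by
    calc κ * n ≤ κ * (K₁ + 4 * (σ - a / 4) ^ 2) := mul_le_mul_of_nonneg_left h7 hκ0.le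
      _ = _ := by rw [← h8]; ring
  have h10 : (κ * (16 * a)) * ((σ - a / 4) ^ 2 / a / 4) ≤ 1 * ((σ - a / 4) ^ 2 / a / 4) :=
    mul_le_mul_of_nonneg_right hκ1 (by positivity)
  have e2 : ρ ^ 2 / (16 * a) = ρ ^ 2 / a / 16 := by
    field_simp
  have e3 : ρ ^ 2 / (8 * a) = ρ ^ 2 / a / 8 := by
    field_simp
  rw [e2] at hκ3 ⊢
  rw [e3]
  linarith

lemma low_neg_expC {a R₁ σ κ K₁ n B D : ℝ} (ha : 0 < a) (hκ0 : 0 < κ) (hR1 : 0 ≤ R₁)
    (hκ1 : κ * (16 * a) ≤ 1) (hκ2 : κ * K₁ ≤ 1)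
    (hK₁ : K₁ = 2 * R₁ ^ 2 + 1 + a ^ 2 / 4) (hD : D = 8 * a + 4 * |B| + 8) (hσ : D ≤ -σ)
    (hn : n ≤ 2 * R₁ ^ 2 + 1 + 2 * σ ^ 2) :
    -(σ ^ 2 / a) + (|R₁ + σ| / 2 + B + 1) + κ * n ≤
      R₁ / 2 - (σ - a / 4) ^ 2 / a / 2 - 1 := by
  have hBa := le_abs_self B
  have hBa0 := abs_nonneg B
  have hQ : (σ - a / 4) ^ 2 / a = σ ^ 2 / a - σ / 2 + a / 16 := by
    field_simp
    ring
  have h4 : |R₁ + σ| ≤ R₁ + -σ := by
    refine (abs_add_le _ _).trans ?_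
    rw [abs_of_nonneg hR1, abs_of_nonpos (by linarith : σ ≤ 0)]
  have h7 : n ≤ K₁ + 2 * σ ^ 2 := by
    rw [hK₁]
    nlinarith [sq_nonneg a]
  have h8 : 16 * a * (σ ^ 2 / a / 8) = 2 * σ ^ 2 := by
    field_simp
    ring
  have h9 : κ * n ≤ κ * K₁ + (κ * (16 * a)) * (σ ^ 2 / a / 8) := by
    calc κ * n ≤ κ * (K₁ + 2 * σ ^ 2) := mul_le_mul_of_nonneg_left h7 hκ0.le
      _ = _ := by rw [← h8]; ring
  have h10 : (κ * (16 * a)) * (σ ^ 2 / a / 8) ≤ 1 * (σ ^ 2 / a / 8) :=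
    mul_le_mul_of_nonneg_right hκ1 (by positivity)
  have h6 : 8 * -σ ≤ σ ^ 2 / a := by
    rw [le_div_iff₀ ha]
    nlinarith
  linarith

lemma size_shift_lower {R₁ T v : ℝ} (hR1 : 0 ≤ R₁) (hT : 4 ≤ T) (hv1 : -1 ≤ v) (hv2 : v ≤ 1) :
    (1 / 2) ^ (R₁ / 2) * ((1 / 2) ^ (7 / 4 : ℝ) * Real.exp (-(Real.pi / 4))) *
      (T ^ (R₁ / 2) * size T) ≤ (T + v) ^ (R₁ / 2) * size (T + v) := by
  have hT0 : 0 < T := by linarith
  have h9 : (1 / 2) ^ (R₁ / 2) * T ^ (R₁ / 2) ≤ (T + v) ^ (R₁ / 2) := by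
    rw [← Real.mul_rpow (by norm_num) hT0.le]
    exact Real.rpow_le_rpow (by positivity) (by linarith) (by linarith)
  have h10 : (1 / 2) ^ (7 / 4 : ℝ) * T ^ (7 / 4 : ℝ) ≤ (T + v) ^ (7 / 4 : ℝ) := by
    rw [← Real.mul_rpow (by norm_num) hT0.le]
    exact Real.rpow_le_rpow (by positivity) (by linarith) (by norm_num)
  have h11 : Real.exp (-(Real.pi / 4)) * Real.exp (-(Real.pi * T / 4)) ≤
      Real.exp (-(Real.pi * (T + v) / 4)) := by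
    rw [← Real.exp_add, Real.exp_le_exp]
    nlinarith [Real.pi_pos]
  have hTv : 0 < T + v := by linarith
  unfold size
  calc _ = ((1 / 2) ^ (R₁ / 2) * T ^ (R₁ / 2)) * (((1 / 2) ^ (7 / 4 : ℝ) * T ^ (7 / 4 : ℝ)) *
        (Real.exp (-(Real.pi / 4)) * Real.exp (-(Real.pi * T / 4)))) := by ring
    _ ≤ _ := by gcongr

/-- the bound of the integrand -/
lemma low_neg_main {a B R₀ R₁ D K₁ κ ρ ε C C' T v : ℝ} (ha : 0 < a) (hR₀ : 0 ≤ R₀) (hρ : 0 < ρ)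
    (hD : D = 8 * a + 4 * |B| + 8) (hR : R₀ + D ≤ R₁)
    (hK₁ : K₁ = 2 * R₁ ^ 2 + 1 + a ^ 2 / 4) (hκ0 : 0 < κ) (hκ1 : κ * (16 * a) ≤ 1)
    (hκ2 : κ * K₁ ≤ 1) (hκ3 : κ * K₁ ≤ ρ ^ 2 / (16 * a)) (hC : 0 ≤ C) (hC' : 0 ≤ C')
    (hT : 4 ≤ T) (hv : v ^ 2 ≤ 1)
    (h1 : ∀ w : ℂ, R₀ ≤ |w.re| → ‖flow (-a / Real.log T) (1 / 2 + T * I + w)‖ ≤
      C * size T * T ^ (|w.re| / 2 + -a / 16 + ρ ^ 2 / (16 * a)) *
        Real.exp (κ * ‖w‖ ^ 2 * Real.log T))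
    (h2 : ∀ w : ℂ, ‖flow (-a / Real.log T) (1 / 2 + T * I + w)‖ ≤
      C' * size T * T ^ (|w.re| / 2 + B + 1) * Real.exp (κ * ‖w‖ ^ 2 * Real.log T))
    (hcon : ∀ w : ℂ, ‖w - (((R₁ + a / 4 : ℝ) : ℂ) + v * I)‖ ≤ ρ →
      ‖flow (-a / Real.log T) (1 / 2 + T * I + w)‖ < size T * T ^ (w.re / 2 + -a / 16 - ε))
    (y : ℝ) :
    Real.exp (-y ^ 2) * ‖flow (-a / Real.log T)
      (1 / 2 + T * I + (R₁ + v * I) - √(-(-a / Real.log T)) * y)‖ ≤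
      (size T * T ^ (R₁ / 2) * (T ^ (-ε) + C * T ^ (-(ρ ^ 2 / (8 * a))) + C' * T ^ (-(1 : ℝ)))) *
        Real.exp (-(1 / 2) * (y + a / (4 * √(-(-a / Real.log T)))) ^ 2) := by
  have hT0 : 0 < T := by linarith
  obtain ⟨L, hL⟩ : ∃ L : ℝ, L = Real.log T := ⟨_, rfl⟩
  rw [← hL] at h1 h2 hcon ⊢
  have hL0 : 0 < L := by rw [hL]; exact Real.log_pos (by linarith)
  have hat : 0 < a / L := by positivity
  obtain ⟨r, hr⟩ : ∃ r : ℝ, r = √(-(-a / L)) := ⟨_, rfl⟩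
  rw [← hr]
  have ht : -(-a / L) = a / L := by ring
  rw [ht] at hr
  have hr2 : r ^ 2 = a / L := by rw [hr, Real.sq_sqrt hat.le]
  have hr0 : 0 < r := by rw [hr]; exact Real.sqrt_pos.mpr hat
  have hBa0 := abs_nonneg B
  have hS : 0 < size T := by unfold size; positivity
  have hP1 : 0 ≤ T ^ (-ε) := by positivity
  have hP2 : 0 ≤ C * T ^ (-(ρ ^ 2 / (8 * a))) := by positivity
  have hP3 : 0 ≤ C' * T ^ (-(1 : ℝ)) := by positivity
  obtain ⟨σ, hσ⟩ : ∃ σ : ℝ, σ = -(r * y) := ⟨_, rfl⟩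
  obtain ⟨w, hw⟩ : ∃ w : ℂ, w = ((R₁ + σ : ℝ) : ℂ) + v * I := ⟨_, rfl⟩
  have ew : (1 / 2 + T * I + (R₁ + v * I) - r * y : ℂ) = 1 / 2 + T * I + w := by
    rw [hw, hσ]
    push_cast
    ring
  have hre : w.re = R₁ + σ := by simp [hw]
  have hn : ‖w‖ ^ 2 = (R₁ + σ) ^ 2 + v ^ 2 := by
    rw [← Complex.normSq_eq_norm_sq, Complex.normSq_apply, hw]
    simp
    ring
  have hn' : ‖w‖ ^ 2 ≤ 2 * R₁ ^ 2 + 1 + 2 * σ ^ 2 := by
    rw [hn]
    nlinarith [sq_nonneg (R₁ - σ)]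
  have hy : y ^ 2 = (σ ^ 2 / a) * L := by
    have e1 : σ ^ 2 = a / L * y ^ 2 := by rw [hσ, ← hr2]; ring
    rw [e1]
    field_simp
  have hz' : (y + a / (4 * r)) ^ 2 = ((σ - a / 4) ^ 2 / a) * L := by
    have e1 : (σ - a / 4) ^ 2 = r ^ 2 * (y + a / (4 * r)) ^ 2 := by
      rw [hσ]
      field_simp
      ring
    rw [e1, hr2]
    field_simp
  have hfin : ∀ X η : ℝ, X * T ^ (-η) ≤ T ^ (-ε) + C * T ^ (-(ρ ^ 2 / (8 * a))) +
      C' * T ^ (-(1 : ℝ)) → size T * T ^ (R₁ / 2) * (X * T ^ (-η)) *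
      Real.exp (-(1 / 2) * (y + a / (4 * r)) ^ 2) ≤ (size T * T ^ (R₁ / 2) *
      (T ^ (-ε) + C * T ^ (-(ρ ^ 2 / (8 * a))) + C' * T ^ (-(1 : ℝ)))) *
      Real.exp (-(1 / 2) * (y + a / (4 * r)) ^ 2) := by
    intro X η hX
    apply mul_le_mul_of_nonneg_right _ (Real.exp_pos _).le
    exact mul_le_mul_of_nonneg_left hX (by positivity)
  rw [ew]
  rcases le_or_gt R₀ (R₁ + σ) with hcase | hcase
  · rcases le_or_gt |σ - a / 4| ρ with hc2 | hc2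
    · have h3 := hcon w (by
        have e1 : w - (((R₁ + a / 4 : ℝ) : ℂ) + v * I) = ((σ - a / 4 : ℝ) : ℂ) := by
          rw [hw]
          push_cast
          ring
        rw [e1, Complex.norm_real]
        exact hc2)
      rw [hre] at h3
      have h4 : ‖flow (-a / L) (1 / 2 + T * I + w)‖ ≤ 1 * size T *
          T ^ ((R₁ + σ) / 2 + -a / 16 - ε) * Real.exp (0 * L) := by
        rw [zero_mul, Real.exp_zero, one_mul, mul_one]
        exact h3.le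
      exact (low_neg_aux hS.le zero_le_one hT0 hL hL0.le h4 hy hz' (low_neg_expA ha)).trans
        (hfin 1 ε (by linarith))
    · have h3 := h1 w (by
        rw [hre]
        exact hcase.trans (le_abs_self _))
      rw [hre, abs_of_nonneg (hR₀.trans hcase)] at h3
      exact (low_neg_aux hS.le hC hT0 hL hL0.le h3 hy hz'
        (low_neg_expB ha hρ hκ0 hκ1 hκ3 hK₁ hc2 hn')).trans (hfin C _ (by linarith))
  · have h3 := h2 w
    rw [hre] at h3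
    exact (low_neg_aux hS.le hC' hT0 hL hL0.le h3 hy hz'
      (low_neg_expC ha hκ0 (by linarith) hκ1 hκ2 hK₁ hD (by linarith) hn')).trans
      (hfin C' _ (by linarith))

/-- ZLN -/
theorem low_neg {c B R₀ : ℝ} (hc : c < 0) (hR₀ : 0 ≤ R₀)
    (h : FlowLe c {x | R₀ ≤ |x|} fun x => |x| / 2 + c / 16)
    (hB : FlowLe c univ fun x => |x| / 2 + B) (K : ℝ) : ∃ R : ℝ, K ≤ R ∧ Low c R := by
  obtain ⟨a, rfl⟩ : ∃ a : ℝ, c = -a := ⟨-c, by ring⟩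
  have ha : 0 < a := by linarith
  have hBa := le_abs_self B
  have hBa0 := abs_nonneg B
  have hKa := le_abs_self K
  have hKa0 := abs_nonneg K
  obtain ⟨D, hD⟩ : ∃ D : ℝ, D = 8 * a + 4 * |B| + 8 := ⟨_, rfl⟩
  obtain ⟨R₁, hR₁⟩ : ∃ R₁ : ℝ, R₁ = R₀ + D + |K| := ⟨_, rfl⟩
  have hR1 : 8 ≤ R₁ := by rw [hR₁, hD]; linarith
  refine ⟨R₁ + a / 4, by rw [hR₁, hD]; linarith, fun ρ ε hρ hε => ?_⟩
  obtain ⟨K₁, hK₁⟩ : ∃ K₁ : ℝ, K₁ = 2 * R₁ ^ 2 + 1 + a ^ 2 / 4 := ⟨_, rfl⟩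
  have hK1 : 1 ≤ K₁ := by rw [hK₁]; nlinarith [sq_nonneg R₁, sq_nonneg a]
  obtain ⟨κ, hκ⟩ : ∃ κ : ℝ, κ = min (1 / (16 * a)) (min (1 / K₁) (ρ ^ 2 / (16 * a * K₁))) :=
    ⟨_, rfl⟩
  have hκ0 : 0 < κ := by rw [hκ]; positivity
  have hκ1 : κ * (16 * a) ≤ 1 := by
    have : κ ≤ 1 / (16 * a) := by rw [hκ]; exact min_le_left _ _
    rwa [le_div_iff₀ (by positivity)] at this
  have hκ2 : κ * K₁ ≤ 1 := by
    have : κ ≤ 1 / K₁ := by rw [hκ]; exact (min_le_right _ _).trans (min_le_left _ _)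
    rwa [le_div_iff₀ (by positivity)] at this
  have hκ3 : κ * K₁ ≤ ρ ^ 2 / (16 * a) := by
    have : κ ≤ ρ ^ 2 / (16 * a * K₁) := by
      rw [hκ]; exact (min_le_right _ _).trans (min_le_right _ _)
    rw [le_div_iff₀ (by positivity)] at this
    rw [le_div_iff₀ (by positivity)]
    linarith
  obtain ⟨C, T₁, hC, hT₁, h1⟩ := h (ρ ^ 2 / (16 * a)) κ (by positivity) hκ0
  obtain ⟨C', T₂, hC', hT₂, h2⟩ := hB 1 κ one_pos hκ0
  obtain ⟨C₁, hC₁, hx⟩ := xi_two (1 / 2 + R₁)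
  obtain ⟨c₀, hc₀, hz⟩ := SPZ.s4.2 1 one_pos
  obtain ⟨c₂, hc₂⟩ : ∃ c₂ : ℝ, c₂ = (1 / 2) ^ (R₁ / 2) *
    ((1 / 2) ^ (7 / 4 : ℝ) * Real.exp (-(Real.pi / 4))) := ⟨_, rfl⟩
  have hc20 : 0 < c₂ := by rw [hc₂]; positivity
  have key : Tendsto (fun T : ℝ => √2 * (T ^ (-ε) + C * T ^ (-(ρ ^ 2 / (8 * a))) +
      C' * T ^ (-(1 : ℝ)))) atTop (nhds (√2 * (0 + C * 0 + C' * 0))) :=
    ((((tendsto_rpow_neg_atTop hε).add ((tendsto_rpow_neg_atTop (by positivity)).const_mul C)).add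
      ((tendsto_rpow_neg_atTop one_pos).const_mul C')).const_mul _)
  have h0 : √2 * (0 + C * 0 + C' * 0) < c₀ * c₂ / C₁ := by
    have : 0 < c₀ * c₂ / C₁ := by positivity
    simpa using this
  obtain ⟨T₃, hT₃⟩ := (eventually_atTop.1 (key.eventually_lt_const h0))
  refine ⟨max 4 (max T₁ (max T₂ T₃)), le_max_of_le_left (by norm_num), fun T v hT hv => ?_⟩
  obtain ⟨hT4, hT'⟩ := max_le_iff.1 hT
  obtain ⟨hTa, hT''⟩ := max_le_iff.1 hT'
  obtain ⟨hTb, hTc⟩ := max_le_iff.1 hT''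
  have hT0 : 0 < T := by linarith
  have hL0 : 0 < Real.log T := Real.log_pos (by linarith)
  have hat : 0 < a / Real.log T := by positivity
  have ht : -a / Real.log T < 0 := by rw [neg_div]; linarith
  obtain ⟨hv1, hv2⟩ := abs_le.1 hv
  have hvv : v ^ 2 ≤ 1 := by nlinarith
  have hS : 0 < size T := by unfold size; positivity
  by_contra! hcon
  have main := low_neg_main ha hR₀ hρ hD (by linarith : R₀ + D ≤ R₁) hK₁ hκ0 hκ1 hκ2 hκ3 hC hC'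
    hT4 hvv (fun w hw => h1 T w hTa hw) (fun w => h2 T w hTb (mem_univ _)) hcon
  have h5 := norm_xi_le_hor ht _ main
  obtain ⟨-, h6⟩ := hx (1 / 2 + R₁) (T + v) (by rw [abs_of_nonneg (by linarith)]) (by linarith)
  have es : ((1 / 2 + R₁ : ℝ) : ℂ) + ((T + v : ℝ) : ℂ) * I =
      1 / 2 + T * I + (R₁ + v * I) := by
    push_cast
    ring
  rw [es] at h6
  have h7 := hz (1 / 2 + T * I + (R₁ + v * I)) (by
    rw [← es]
    simp
    linarith)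
  have e4 : (1 / 2 + R₁ - 1 / 2) / 2 = R₁ / 2 := by ring
  rw [e4] at h6
  have h8 := size_shift_lower (by linarith : 0 ≤ R₁) hT4 hv1 hv2
  rw [← hc₂] at h8
  have h12 := hT₃ T hTc
  rw [lt_div_iff₀ (by linarith)] at h12
  have hW : 0 < T ^ (R₁ / 2) * size T := by positivity
  have hC₁0 : 0 ≤ C₁ := by linarith
  have h13 : c₀ * c₂ * (T ^ (R₁ / 2) * size T) ≤ C₁ * (√2 * (size T * T ^ (R₁ / 2) *
      (T ^ (-ε) + C * T ^ (-(ρ ^ 2 / (8 * a))) + C' * T ^ (-(1 : ℝ))))) := by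
    have h15 : c₂ * (T ^ (R₁ / 2) * size T) * c₀ ≤
        (T + v) ^ (R₁ / 2) * size (T + v) * ‖riemannZeta (1 / 2 + T * I + (R₁ + v * I))‖ :=
      mul_le_mul h8 h7 hc₀.le ((by positivity : 0 ≤ c₂ * (T ^ (R₁ / 2) * size T)).trans h8)
    have h16 := mul_le_mul_of_nonneg_left h5 hC₁0
    linarith
  have h14 : c₀ * c₂ * (T ^ (R₁ / 2) * size T) < c₀ * c₂ * (T ^ (R₁ / 2) * size T) := by
    calc c₀ * c₂ * (T ^ (R₁ / 2) * size T) ≤ _ := h13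
      _ = √2 * (T ^ (-ε) + C * T ^ (-(ρ ^ 2 / (8 * a))) + C' * T ^ (-(1 : ℝ))) * C₁ *
          (T ^ (R₁ / 2) * size T) := by ring
      _ < _ := mul_lt_mul_of_pos_right h12 hW
  exact lt_irrefl _ h14

end Pool.Agent.DBN
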