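import Pool.Agent.DBN.ZFlow
import Pool.Agent.DBN.Good
import Pool.Agent.DBN.Down2
import Pool.Agent.SPZ.S4

/-!
# Lower bounds for the flow far to the right of the critical line
-/

set_option autoImplicit false

namespace Pool.Agent.DBN

open Complex MeasureTheory Set Filter Topology

namespace ZLP_

lemma rpow_large (C : ℝ) {ε : ℝ} (hε : 0 < ε) : ∃ T₀ : ℝ, ∀ T : ℝ, T₀ ≤ T → C < T ^ ε := by
  have h := (tendsto_rpow_atTop hε).eventually_gt_atTop C
  obtain ⟨T₀, hT₀⟩ := eventually_atTop.mp h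
  exact ⟨T₀, fun T hT => hT₀ T hT⟩

/-- the size of `xi` to the right of the line `Re s = 3 / 2` -/
lemma xi_low {x : ℝ} (hx : 1 ≤ x) : ∃ C T₁ : ℝ, 0 < C ∧ 3 ≤ T₁ ∧ ∀ T v : ℝ, T₁ ≤ T → |v| ≤ 1 →
    size T * T ^ (x / 2) ≤ C * ‖xi (1 / 2 + T * I + (x + v * I))‖ := by
  obtain ⟨C, hC1, hC⟩ := xi_two |1 / 2 + x|
  obtain ⟨c₀, hc₀, h0⟩ := (Pool.Agent.SPZ.s4).2 (1 / 2) (by norm_num)
  set E : ℝ := 2 ^ (7 / 4 : ℝ) * Real.exp (Real.pi * 1 / 4) with hE
  have hE0 : 0 < E := by positivity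
  set P : ℝ := 2 ^ |x / 2| with hP
  have hP0 : 0 < P := by positivity
  refine ⟨E * P * (C / c₀), 3, by positivity, le_rfl, fun T v hT hv => ?_⟩
  have hv' := abs_le.mp hv
  set T' := T + v with hT'
  have hT2 : 2 ≤ T' := by linarith
  have hT0 : 0 < T := by linarith
  have hT'0 : 0 < T' := by linarith
  have hs := size_pos hT'0
  have h1 := (hC (1 / 2 + x) T' le_rfl hT2).2
  have h2 : c₀ ≤ ‖riemannZeta (((1 / 2 + x : ℝ) : ℂ) + T' * I)‖ := by
    apply h0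
    simp
    linarith
  have e0 : (1 / 2 + T * I + (x + v * I) : ℂ) = ((1 / 2 + x : ℝ) : ℂ) + T' * I := by
    rw [hT']
    push_cast
    ring
  have e1 : (1 / 2 + x - 1 / 2) / 2 = x / 2 := by ring
  rw [e1] at h1
  have h3 : size T ≤ E * size T' :=
    size_shift_le hT'0 (by linarith) (by linarith) (by rw [hT']; simpa using hv)
  have h4 : T ^ (x / 2) ≤ P * T' ^ (x / 2) :=
    rpow_shift_le hT'0 (by linarith) (by linarith) _
  have hp : 0 < T' ^ (x / 2) := by positivity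
  rw [e0]
  have h5 : T' ^ (x / 2) * size T' * c₀ ≤
      C * ‖xi (((1 / 2 + x : ℝ) : ℂ) + T' * I)‖ :=
    (mul_le_mul_of_nonneg_left h2 (by positivity)).trans h1
  calc size T * T ^ (x / 2) ≤ (E * size T') * (P * T' ^ (x / 2)) := by gcongr
    _ = E * P / c₀ * (T' ^ (x / 2) * size T' * c₀) := by field_simp
    _ ≤ E * P / c₀ * (C * ‖xi (((1 / 2 + x : ℝ) : ℂ) + T' * I)‖) := by gcongr
    _ = _ := by ring

/-- the bound on the vertical line through `R + v I` -/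
lemma vert_bound {c R ρ ε : ℝ} (hc : 0 < c) {R₀ : ℝ} (hR1 : 1 ≤ R) (hR : R₀ ≤ R)
    (hρ : 0 < ρ) (hε : 0 < ε)
    (h : FlowLe c {x | R₀ ≤ |x|} fun x => |x| / 2 + c / 16) :
    ∃ θ C T₁ : ℝ, 0 < θ ∧ 0 ≤ C ∧ 2 ≤ T₁ ∧ ∀ T v : ℝ, T₁ ≤ T → |v| ≤ 1 →
      (∀ w : ℂ, ‖w - (R + v * I)‖ ≤ ρ →
        ‖flow (c / Real.log T) (1 / 2 + T * I + w)‖ ≤ size T * T ^ (w.re / 2 + c / 16 - ε)) →
      ∀ y : ℝ, Real.exp (-y ^ 2) * ‖flow (c / Real.log T) (1 / 2 + T * I + ((R : ℂ) + v * I) +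
        √(c / Real.log T) * y * I)‖ ≤
        C * (size T * T ^ (R / 2 + c / 16 - θ)) * Real.exp (-(1 / 2) * y ^ 2) := by
  set η : ℝ := ρ ^ 2 / (16 * c) with hη
  have hη0 : 0 < η := by positivity
  set κ : ℝ := min (1 / (8 * c)) (η / (R ^ 2 + 2)) with hκ
  have hκ0 : 0 < κ := by positivity
  have hκ1 : κ ≤ 1 / (8 * c) := min_le_left _ _
  have hκ2 : κ ≤ η / (R ^ 2 + 2) := min_le_right _ _
  obtain ⟨C, T₁, hC, hT₁, h1⟩ := h η κ hη0 hκ0
  refine ⟨min ε (2 * η), 1 + C, T₁, by positivity, by positivity, hT₁, ?_⟩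
  intro T v hT hv hsm y
  have hT2 : 2 ≤ T := by linarith
  have hT0 : 0 < T := by linarith
  have hT1 : 1 ≤ T := by linarith
  have hs := size_pos hT0
  have hL := log_pos_of hT2
  set L := Real.log T with hLd
  set r := √(c / L) with hr
  have hr2 : r ^ 2 = c / L := Real.sq_sqrt (by positivity)
  set w : ℂ := (R : ℂ) + v * I + r * y * I with hw
  have hwre : w.re = R := by simp [hw]
  have hwim : w.im = v + r * y := by simp [hw]
  have e0 : (1 / 2 + T * I + ((R : ℂ) + v * I) + r * y * I : ℂ) = 1 / 2 + T * I + w := by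
    rw [hw]; ring
  rw [e0]
  have hθ1 : min ε (2 * η) ≤ ε := min_le_left _ _
  have hθ2 : min ε (2 * η) ≤ 2 * η := min_le_right _ _
  set θ := min ε (2 * η) with hθ
  have hexp : Real.exp (-y ^ 2) ≤ Real.exp (-(1 / 2) * y ^ 2) := by
    rw [Real.exp_le_exp]
    nlinarith [sq_nonneg y]
  rcases le_or_gt |r * y| ρ with hy | hy
  · have h2 := hsm w (by
      have : w - ((R : ℂ) + v * I) = ((r * y : ℝ) : ℂ) * I := by
        rw [hw]; push_cast; ring
      rw [this, norm_mul, Complex.norm_I, mul_one, Complex.norm_real]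
      exact hy)
    rw [hwre] at h2
    have h3 : T ^ (R / 2 + c / 16 - ε) ≤ T ^ (R / 2 + c / 16 - θ) :=
      Real.rpow_le_rpow_of_exponent_le hT1 (by linarith)
    calc Real.exp (-y ^ 2) * ‖flow (c / L) (1 / 2 + T * I + w)‖
        ≤ Real.exp (-(1 / 2) * y ^ 2) * (size T * T ^ (R / 2 + c / 16 - θ)) := by
          gcongr
          exact h2.trans (by gcongr)
      _ = 1 * (size T * T ^ (R / 2 + c / 16 - θ)) * Real.exp (-(1 / 2) * y ^ 2) := by ring
      _ ≤ _ := by gcongr; linarith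
  · have h2 := h1 T w hT (by
      change R₀ ≤ |w.re|
      rw [hwre]
      exact hR.trans (le_abs_self R))
    have ew : (fun x : ℝ => |x| / 2 + c / 16) w.re = R / 2 + c / 16 := by
      simp only [hwre]
      rw [abs_of_pos (by linarith : 0 < R)]
    rw [ew] at h2
    have hv2 : v ^ 2 ≤ 1 := by
      have := abs_le.mp hv
      nlinarith
    have hnw : ‖w‖ ^ 2 ≤ R ^ 2 + 2 + 2 * (c / L * y ^ 2) := by
      rw [← Complex.normSq_eq_norm_sq, Complex.normSq_apply, hwre, hwim]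
      have : r ^ 2 * y ^ 2 = c / L * y ^ 2 := by rw [hr2]
      nlinarith [sq_nonneg (v - r * y)]
    have hk1 : κ * ‖w‖ ^ 2 * L ≤ η * L + y ^ 2 / 4 := by
      have h5 : κ * ‖w‖ ^ 2 * L ≤ κ * (R ^ 2 + 2 + 2 * (c / L * y ^ 2)) * L := by gcongr
      have h6 : κ * (R ^ 2 + 2 + 2 * (c / L * y ^ 2)) * L =
          κ * (R ^ 2 + 2) * L + 2 * κ * c * y ^ 2 := by
        field_simp
      have h7 : κ * (R ^ 2 + 2) ≤ η := by
        rwa [le_div_iff₀ (by positivity)] at hκ2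
      have h8 : κ * (8 * c) ≤ 1 := by
        rwa [le_div_iff₀ (by positivity)] at hκ1
      have h9 : κ * (R ^ 2 + 2) * L ≤ η * L := by gcongr
      have h10 : 2 * κ * c * y ^ 2 ≤ 1 / 4 * y ^ 2 := by
        have h11 : 2 * κ * c ≤ 1 / 4 := by linarith
        exact mul_le_mul_of_nonneg_right h11 (sq_nonneg y)
      linarith
    have hy2 : 4 * η * L ≤ y ^ 2 / 4 := by
      have h5 : ρ ^ 2 ≤ c / L * y ^ 2 := by
        have h6 : ρ ^ 2 ≤ |r * y| ^ 2 := by gcongr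
        rw [sq_abs, mul_pow, hr2] at h6
        exact h6
      have h6 : ρ ^ 2 * L ≤ c * y ^ 2 := by
        have := mul_le_mul_of_nonneg_right h5 hL.le
        calc ρ ^ 2 * L ≤ c / L * y ^ 2 * L := this
          _ = c * y ^ 2 := by field_simp
      have h7 : 4 * η * L = ρ ^ 2 * L / (4 * c) := by
        rw [hη]
        field_simp
        ring
      rw [h7, div_le_iff₀ (by positivity)]
      linarith
    have hee : Real.exp (-y ^ 2) * Real.exp (κ * ‖w‖ ^ 2 * L) ≤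
        T ^ (-(3 * η)) * Real.exp (-(1 / 2) * y ^ 2) := by
      rw [Real.rpow_def_of_pos hT0, ← hLd, ← Real.exp_add, ← Real.exp_add, Real.exp_le_exp]
      nlinarith
    have h3 : T ^ (R / 2 + c / 16 + η) * T ^ (-(3 * η)) ≤ T ^ (R / 2 + c / 16 - θ) := by
      rw [← Real.rpow_add hT0]
      exact Real.rpow_le_rpow_of_exponent_le hT1 (by linarith)
    calc Real.exp (-y ^ 2) * ‖flow (c / L) (1 / 2 + T * I + w)‖
        ≤ Real.exp (-y ^ 2) * (C * size T * T ^ (R / 2 + c / 16 + η) *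
            Real.exp (κ * ‖w‖ ^ 2 * L)) := by gcongr
      _ = C * size T * T ^ (R / 2 + c / 16 + η) *
            (Real.exp (-y ^ 2) * Real.exp (κ * ‖w‖ ^ 2 * L)) := by ring
      _ ≤ C * size T * T ^ (R / 2 + c / 16 + η) *
            (T ^ (-(3 * η)) * Real.exp (-(1 / 2) * y ^ 2)) := by gcongr
      _ = C * size T * (T ^ (R / 2 + c / 16 + η) * T ^ (-(3 * η))) *
            Real.exp (-(1 / 2) * y ^ 2) := by ring
      _ ≤ C * size T * T ^ (R / 2 + c / 16 - θ) * Real.exp (-(1 / 2) * y ^ 2) := by gcongr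
      _ = C * (size T * T ^ (R / 2 + c / 16 - θ)) * Real.exp (-(1 / 2) * y ^ 2) := by ring
      _ ≤ _ := by gcongr; linarith

end ZLP_

open ZLP_

theorem low_zero {R : ℝ} (hR : 1 ≤ R) : Low 0 R := by
  intro ρ ε hρ hε
  obtain ⟨C, T₁, hC, hT₁, h1⟩ := xi_low hR
  obtain ⟨T₂, h2⟩ := rpow_large C hε
  refine ⟨max T₁ T₂, by linarith [le_max_left T₁ T₂], ?_⟩
  intro T v hT hv
  have hT1 : T₁ ≤ T := (le_max_left _ _).trans hT
  have hT2 : T₂ ≤ T := (le_max_right _ _).trans hT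
  have hT0 : 0 < T := by linarith
  have hs := size_pos hT0
  refine ⟨(R : ℂ) + v * I, by simpa using hρ.le, ?_⟩
  have e1 : (((R : ℂ) + v * I)).re = R := by simp
  rw [e1, zero_div, zero_div, flow_zero, add_zero]
  have h3 := h1 T v hT1 hv
  have h4 := h2 T hT2
  have h5 : T ^ (R / 2) = T ^ (R / 2 - ε) * T ^ ε := by
    rw [← Real.rpow_add hT0]
    congr 1
    ring
  rw [h5] at h3
  have hp : 0 < T ^ (R / 2 - ε) := by positivity
  have h6 : C * (size T * T ^ (R / 2 - ε)) ≤ C * ‖xi (1 / 2 + T * I + (R + v * I))‖ := by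
    refine le_trans ?_ h3
    have h7 : C * (size T * T ^ (R / 2 - ε)) ≤ T ^ ε * (size T * T ^ (R / 2 - ε)) :=
      mul_le_mul_of_nonneg_right h4.le (by positivity)
    calc C * (size T * T ^ (R / 2 - ε)) ≤ T ^ ε * (size T * T ^ (R / 2 - ε)) := h7
      _ = _ := by ring
  exact le_of_mul_le_mul_left h6 hC

theorem low_pos {c : ℝ} (hc : 0 < c) {R₀ R : ℝ} (hR1 : 1 ≤ R) (hR : R₀ ≤ R)
    (h : FlowLe c {x | R₀ ≤ |x|} fun x => |x| / 2 + c / 16) : Low c R := by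
  intro ρ ε hρ hε
  obtain ⟨θ, C, T₁, hθ, hC, hT₁, h1⟩ := vert_bound hc hR1 hR hρ hε h
  obtain ⟨C₂, T₂, hC₂, hT₂, h2⟩ := xi_low (x := R + c / 4) (by linarith)
  set D : ℝ := C₂ * (Real.pi⁻¹ * (√Real.pi * C * √(Real.pi / (1 / 2)))) with hD
  obtain ⟨T₃, h3⟩ := rpow_large D hθ
  refine ⟨max (max T₁ T₂) T₃, by linarith [le_max_left T₁ T₂, le_max_left (max T₁ T₂) T₃], ?_⟩
  intro T v hT hv
  have hT1 : T₁ ≤ T := ((le_max_left _ _).trans (le_max_left _ _)).trans hT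
  have hT2 : T₂ ≤ T := ((le_max_right _ _).trans (le_max_left _ _)).trans hT
  have hT3 : T₃ ≤ T := (le_max_right _ _).trans hT
  have hT22 : 2 ≤ T := by linarith
  have hT0 : 0 < T := by linarith
  have hs := size_pos hT0
  have hL := log_pos_of hT22
  by_contra hcon
  push Not at hcon
  have hv1 := h1 T v hT1 hv (fun w hw => (hcon w hw).le)
  set L := Real.log T with hLd
  set r := √(c / L) with hr
  have hπ := Real.pi_pos
  have hr2 : r ^ 2 = c / L := Real.sq_sqrt (by positivity)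
  have hr0 : 0 < r := Real.sqrt_pos.mpr (by positivity)
  set s : ℂ := 1 / 2 + T * I + ((R : ℂ) + v * I) with hsd
  have h4 := inv_flow differentiable_xi subG_xi r (c / 4 / r) s
  have e1 : (r : ℂ) * ((c / 4 / r : ℝ) : ℂ) = ((c / 4 : ℝ) : ℂ) := by
    rw [← Complex.ofReal_mul]
    congr 1
    field_simp
  rw [e1] at h4
  have h5 : ∀ y : ℝ, ‖exp (-(y + ((c / 4 / r : ℝ) : ℂ) * I) ^ 2) *
      ∫ x : ℝ, (Real.exp (-x ^ 2) : ℂ) * xi (s + r * (x + y * I))‖ ≤
      (√Real.pi * C * (size T * T ^ (R / 2 + c / 8 - θ))) * Real.exp (-(1 / 2) * y ^ 2) := by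
    intro y
    have e2 : (∫ x : ℝ, (Real.exp (-x ^ 2) : ℂ) * xi (s + r * (x + y * I))) =
        √Real.pi * flow (c / L) (s + r * y * I) := by
      rw [flow_pos (by positivity)]
      have hp : ((√Real.pi : ℝ) : ℂ) ≠ 0 := by
        exact_mod_cast (Real.sqrt_pos.mpr hπ).ne'
      rw [← mul_assoc, mul_inv_cancel₀ hp, one_mul]
      refine integral_congr_ae (Eventually.of_forall fun x => ?_)
      simp only
      congr 2
      ring
    rw [e2, norm_mul, Complex.norm_exp, norm_mul, Complex.norm_real, Real.norm_eq_abs,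
      abs_of_nonneg (Real.sqrt_nonneg _)]
    have e3 : (-((y : ℂ) + ((c / 4 / r : ℝ) : ℂ) * I) ^ 2).re = -y ^ 2 + c / 16 * L := by
      have e4 : (-((y : ℂ) + ((c / 4 / r : ℝ) : ℂ) * I) ^ 2).re = -y ^ 2 + (c / 4 / r) ^ 2 := by
        simp only [sq, Complex.neg_re, Complex.mul_re, Complex.add_re, Complex.ofReal_re,
          Complex.I_re, Complex.add_im, Complex.ofReal_im, Complex.mul_im, Complex.I_im]
        ring
      rw [e4, div_pow, hr2]
      field_simp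
      ring
    rw [e3, Real.exp_add]
    have e5 : Real.exp (c / 16 * L) = T ^ (c / 16) := by
      rw [Real.rpow_def_of_pos hT0, ← hLd, mul_comm]
    have e6 : T ^ (R / 2 + c / 8 - θ) = T ^ (c / 16) * T ^ (R / 2 + c / 16 - θ) := by
      rw [← Real.rpow_add hT0]; congr 1; ring
    rw [e5, e6]
    have h6 := hv1 y
    have hp : 0 < T ^ (c / 16) := by positivity
    calc Real.exp (-y ^ 2) * T ^ (c / 16) * (√Real.pi * ‖flow (c / L) (s + r * y * I)‖)
        = T ^ (c / 16) * √Real.pi *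
          (Real.exp (-y ^ 2) * ‖flow (c / L) (s + r * y * I)‖) := by ring
      _ ≤ T ^ (c / 16) * √Real.pi * (C * (size T * T ^ (R / 2 + c / 16 - θ)) *
          Real.exp (-(1 / 2) * y ^ 2)) := by gcongr
      _ = _ := by ring
  have h6 := norm_gauss_le (by norm_num : (0 : ℝ) < 1 / 2) h5
  rw [h4, norm_mul, Complex.norm_real, Real.norm_eq_abs, abs_of_pos hπ] at h6
  have h7 := h2 T v hT2 hv
  have e7 : (1 / 2 + T * I + (((R + c / 4 : ℝ) : ℂ) + v * I) : ℂ) = s + ((c / 4 : ℝ) : ℂ) := by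
    rw [hsd]
    push_cast
    ring
  rw [e7] at h7
  have e8 : T ^ ((R + c / 4) / 2) = T ^ (R / 2 + c / 8 - θ) * T ^ θ := by
    rw [← Real.rpow_add hT0]; congr 1; ring
  rw [e8] at h7
  have h8 : ‖xi (s + ((c / 4 : ℝ) : ℂ))‖ ≤ Real.pi⁻¹ *
      (√Real.pi * C * (size T * T ^ (R / 2 + c / 8 - θ)) * √(Real.pi / (1 / 2))) := by
    calc ‖xi (s + ((c / 4 : ℝ) : ℂ))‖ = Real.pi⁻¹ * (Real.pi * ‖xi (s + ((c / 4 : ℝ) : ℂ))‖) := by
          rw [← mul_assoc, inv_mul_cancel₀ hπ.ne', one_mul]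
      _ ≤ _ := by gcongr
  have hp : 0 < size T * T ^ (R / 2 + c / 8 - θ) := by positivity
  have h9 : T ^ θ * (size T * T ^ (R / 2 + c / 8 - θ)) ≤
      D * (size T * T ^ (R / 2 + c / 8 - θ)) := by
    calc T ^ θ * (size T * T ^ (R / 2 + c / 8 - θ))
        = size T * (T ^ (R / 2 + c / 8 - θ) * T ^ θ) := by ring
      _ ≤ C₂ * ‖xi (s + ((c / 4 : ℝ) : ℂ))‖ := h7
      _ ≤ C₂ * (Real.pi⁻¹ *
        (√Real.pi * C * (size T * T ^ (R / 2 + c / 8 - θ)) * √(Real.pi / (1 / 2)))) := by gcongr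
      _ = _ := by rw [hD]; ring
  have h10 := le_of_mul_le_mul_right h9 hp
  linarith [h3 T hT3]

end Pool.Agent.DBN
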