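import Pool.Agent.DBN.ZA
import Pool.Agent.DBN.ZLP
import Pool.Agent.DBN.ZLN
import Pool.Agent.DBN.Z0
import Pool.Agent.DBN.ZC2
import Pool.Agent.DBN.ZC3
import Pool.Agent.DBN.ZC1

/-!
# Few zeros off the real line and the growth exponent `c / 16`
-/

set_option autoImplicit false

namespace Pool.Agent.DBN

open Complex MeasureTheory Set Metric Filter Topology

/-- zeros away from the real line are negligible if and only if the growth exponent is `c / 16` -/
theorem few_growth (c : ℝ) : FewZeros c ↔ GrowthLe c (c / 16) := by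
  rw [few_iff]
  obtain ⟨R₀, hR₀, h1⟩ := flow_far c
  obtain ⟨B, hB, h2⟩ := flow_crude c
  have hl : ∀ K : ℝ, ∃ R : ℝ, K ≤ R ∧ Low c R := by
    intro K
    rcases lt_trichotomy c 0 with hc | hc | hc
    · exact low_neg hc hR₀ h1 h2 K
    · refine ⟨max K 1, le_max_left _ _, ?_⟩
      rw [hc]
      exact low_zero (le_max_right _ _)
    · exact ⟨max K (max R₀ 1), le_max_left _ _,
        low_pos hc ((le_max_right _ _).trans (le_max_right _ _))
          ((le_max_left _ _).trans (le_max_right _ _)) h1⟩
  exact ⟨fun h => growth_of_strip (strip_of_few h h1 h2 hl) h2,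
    fun h => few_of_flow (flow_good h) hl⟩

end Pool.Agent.DBN
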