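import Pool.Agent.DBN.Const
import Pool.Agent.DBN.WinGrow
import Pool.Agent.DBN.Defs3
import Pool.Agent.DBN.SumFour
import Pool.Agent.DBN.SumPow
import Pool.Agent.DBN.Vdc4
import Pool.Agent.DBN.Vdc3Gen
import Pool.Agent.DBN.ZMain
import Pool.Agent.DBN.PhiA
import Pool.Agent.DBN.PhiC
import Pool.Agent.DBN.PhiB

/-!
# The Lindelof analogue of the de Bruijn-Newman constant: the theorem
-/

set_option autoImplicit false

namespace Pool.Agent.DBN

open Complex MeasureTheory Set Filter Topology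

lemma SumLe.mono {α a b : ℝ} (h : SumLe α a) (hab : a ≤ b) : SumLe α b := by
  intro ε hε
  obtain ⟨δ, hδ, C, h1⟩ := h ε hε
  refine ⟨δ, hδ, |C|, fun T N hT h2 h3 => (h1 T N hT h2 h3).trans ?_⟩
  have h4 : T ^ (a + ε) ≤ T ^ (b + ε) :=
    Real.rpow_le_rpow_of_exponent_le (by linarith) (by linarith)
  have h5 : 0 ≤ T ^ (a + ε) := by positivity
  calc C * T ^ (a + ε) ≤ |C| * T ^ (a + ε) := by gcongr; exact le_abs_self C
    _ ≤ _ := by gcongr

/-- the growth exponent is a convex function of the time -/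
lemma growth_convex {c₁ c₂ A₁ A₂ θ : ℝ} (h0 : 0 ≤ θ) (h1 : θ ≤ 1) (hA : GrowthLe c₁ A₁)
    (hB : GrowthLe c₂ A₂) :
    GrowthLe ((1 - θ) * c₁ + θ * c₂) ((1 - θ) * A₁ + θ * A₂) := by
  rw [growth_iff_sum] at hA hB ⊢
  intro α h2 h3
  have hA' := hA α h2 h3
  have hB' := hB α h2 h3
  set a := A₁ - c₁ * (α - 1 / 2) ^ 2 / 4 with ha
  set b := A₂ - c₂ * (α - 1 / 2) ^ 2 / 4 with hb
  have e1 : (1 - θ) * A₁ + θ * A₂ - ((1 - θ) * c₁ + θ * c₂) * (α - 1 / 2) ^ 2 / 4 =
      (1 - θ) * a + θ * b := by rw [ha, hb]; ring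
  rw [e1]
  rcases le_total a b with h | h
  · exact hA'.mono (by nlinarith)
  · exact hB'.mono (by nlinarith)

/-- the growth exponent is nondecreasing, with slope at most `1 / 16` -/
lemma growth_slope {c c' A : ℝ} (hcc : c ≤ c') :
    (GrowthLe c' A → GrowthLe c A) ∧ (GrowthLe c A → GrowthLe c' (A + (c' - c) / 16)) := by
  constructor
  · intro h
    rw [growth_iff_sum] at h ⊢
    intro α h2 h3
    exact (h α h2 h3).mono (by nlinarith [sq_nonneg (α - 1 / 2)])
  · intro h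
    rw [growth_iff_sum] at h ⊢
    intro α h2 h3
    refine (h α h2 h3).mono ?_
    have h4 : (α - 1 / 2) ^ 2 ≤ 1 / 4 := by nlinarith
    nlinarith

/-- the third and fourth derivative tests give the growth exponent `c / 16` at `c = 27 / 10` -/
lemma good_four_test : GrowthLe (27 / 10) (27 / 10 / 16) := by
  rw [growth_iff_sum]
  intro α h0 h1
  refine (sumLe_four_of (zfourth_of vdc3_gen) zsum_le_rpow α h0 h1).mono (le_of_eq ?_)
  ring

lemma growth_iff {c A : ℝ} : Growth c A ↔ GrowthLe c A := by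
  have key : ∀ T : ℝ, ‖H (c / Real.log T) (2 * T)‖ =
      ‖flow (c / Real.log T) (1 / 2 + T * I)‖ / 8 := by
    intro T
    rw [H_eq_flow, norm_div]
    have e1 : (1 / 2 + I * (2 * T) / 2 : ℂ) = 1 / 2 + T * I := by ring
    rw [e1]
    simp
  constructor
  · intro h ε hε
    obtain ⟨C, h1⟩ := h ε hε
    refine ⟨8 * C, fun T hT => ?_⟩
    have h2 := h1 T hT
    rw [key] at h2
    calc ‖flow (c / Real.log T) (1 / 2 + T * I)‖
        = 8 * (‖flow (c / Real.log T) (1 / 2 + T * I)‖ / 8) := by ring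
      _ ≤ 8 * (C * T ^ (A + ε) * size T) := by gcongr
      _ = _ := by ring
  · intro h ε hε
    obtain ⟨C, h1⟩ := h ε hε
    refine ⟨C / 8, fun T hT => ?_⟩
    have h2 := h1 T hT
    rw [key]
    calc ‖flow (c / Real.log T) (1 / 2 + T * I)‖ / 8
        ≤ (C * T ^ (A + ε) * size T) / 8 := by gcongr
      _ = _ := by ring

/-- the Lindelof analogue of the de Bruijn-Newman constant -/
theorem main :
    (∃ Λ : ℝ, 0 ≤ Λ ∧ Λ ≤ 27 / 10 ∧ (∀ c : ℝ, FewZeros c ↔ Λ ≤ c) ∧
      (∀ c : ℝ, Growth c (c / 16) ↔ Λ ≤ c) ∧ (LH ↔ Λ = 0) ∧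
      MuLe (1 / 2) (Λ / 16) ∧ MuLe (1 / 2 + Λ / 4) 0 ∧
      (∀ a : ℝ, 0 < a → a ≤ 1 / 4 → MuLe (1 / 2) a → Λ ≤ 2 / (1 - 2 * a)) ∧
      (∀ τ : ℝ, 0 ≤ τ → MuLe (1 / 2 + τ) 0 → Λ ≤ 8 * τ)) ∧
    (∀ c A : ℝ, Growth c A ↔
      ∀ α : ℝ, 0 ≤ α → α ≤ 1 → SumLe α (A - c * (α - 1 / 2) ^ 2 / 4)) ∧
    (∀ c A : ℝ, 0 < c → (Growth c A ↔ ∀ σ : ℝ, MuLe (1 / 2 + σ) (A + σ ^ 2 / c - σ / 2))) ∧
    (∀ c A : ℝ, Growth c A → max 0 (c / 16) ≤ A) ∧
    (LH ↔ ∀ c : ℝ, Growth c (max 0 (c / 16))) ∧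
    (LH ↔ ∀ c : ℝ, c < 0 → Growth c 0) := by
  simp only [growth_iff, few_growth]
  rw [lh_iff]
  refine ⟨?_, growth_iff_sum, fun c A hc => ⟨fun h σ => mu_of_growth hc h σ, growth_of_mu hc⟩,
    fun c A h => growth_lower h, ?_, ?_⟩
  · obtain ⟨Λ, h0, -, h⟩ := exists_const
    have hΛ : GrowthLe Λ (Λ / 16) := (h Λ).mpr le_rfl
    refine ⟨Λ, h0, (h (27 / 10)).mp good_four_test, h, h, ?_, ?_, mu_of_good h0 hΛ, ?_, ?_⟩
    · constructor
      · intro h1
        have h2 : GrowthLe 0 (0 / 16) := by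
          rw [zero_div]
          exact growth_zero.mpr h1
        exact le_antisymm ((h 0).mp h2) h0
      · intro h1
        have h2 := (h 0).mpr h1.le
        rw [zero_div] at h2
        exact growth_zero.mp h2
    · rcases eq_or_lt_of_le h0 with h1 | h1
      · rw [← h1] at hΛ ⊢
        exact growth_zero.mp hΛ
      · have h2 := mu_of_growth h1 hΛ 0
        rw [add_zero] at h2
        refine h2.mono (le_of_eq ?_)
        ring
    · intro a ha ha4 h1
      exact (h _).mp (good_of_half ha ha4 h1 le_rfl)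
    · intro τ hτ h1
      rcases eq_or_lt_of_le hτ with h2 | h2
      · rw [← h2] at h1 ⊢
        have h3 : GrowthLe 0 (0 / 16) := by
          rw [zero_div]
          exact growth_zero.mpr (by simpa using h1)
        rw [mul_zero]
        exact (h 0).mp h3
      · exact (h (8 * τ)).mp (good_of_mu (by positivity) hτ h1 le_rfl)
  · constructor
    · intro h c
      rcases lt_trichotomy c 0 with hc | hc | hc
      · rw [max_eq_left (by linarith)]
        exact growth_neg_of_mu hc h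
      · rw [hc, zero_div, max_self]
        exact growth_zero.mpr h
      · rw [max_eq_right (by linarith)]
        exact good_of_mu hc le_rfl (by simpa using h) (by linarith)
    · intro h
      have := h 0
      rw [zero_div, max_self] at this
      exact growth_zero.mp this
  · refine ⟨fun h c hc => growth_neg_of_mu hc h, fun h => mu_closed fun b hb => ?_⟩
    have h1 := (growth_slope (A := 0) (by linarith : -(16 * b) ≤ 0)).2
      (h (-(16 * b)) (by linarith))
    refine (growth_zero.mp h1).mono (le_of_eq ?_)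
    ring

end Pool.Agent.DBN
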