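import Pool.Agent.DBN.Defs
import Pool.Agent.DBN.Stir
import Pool.Agent.Lib.ZetaConv
import Pool.Agent.LHW.J10

/-!
# Lindelöf's function: three lines, positivity, uniformity
-/

set_option autoImplicit false

namespace Pool.Agent.DBN

open Complex Set Filter Topology

theorem MuLe.mono {σ a b : ℝ} (h : MuLe σ a) (hab : a ≤ b) : MuLe σ b := by
  intro ε hε
  obtain ⟨C, hC⟩ := h ε hε
  refine ⟨|C|, fun T hT => (hC T hT).trans ?_⟩
  have h1 : T ^ (a + ε) ≤ T ^ (b + ε) :=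
    Real.rpow_le_rpow_of_exponent_le (by linarith) (by linarith)
  have h0 : 0 ≤ T ^ (a + ε) := by positivity
  calc C * T ^ (a + ε) ≤ |C| * T ^ (a + ε) := by gcongr; exact le_abs_self C
    _ ≤ |C| * T ^ (b + ε) := by gcongr

theorem mu_closed {σ a : ℝ} (h : ∀ b, a < b → MuLe σ b) : MuLe σ a := by
  intro ε hε
  obtain ⟨C, hC⟩ := h (a + ε / 2) (by linarith) (ε / 2) (by linarith)
  refine ⟨C, fun T hT => (hC T hT).trans_eq ?_⟩
  congr 2
  ring

theorem mu_zero {σ : ℝ} (hσ : 1 < σ) : MuLe σ 0 := by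
  intro ε hε
  obtain ⟨C, hC, h⟩ := Pool.Agent.Lib.ZetaConv.norm_zeta_le_of_re (δ := σ - 1) (by linarith)
  refine ⟨C, fun T hT => (h _ ?_).trans ?_⟩
  · simp
  · have h1 : 1 ≤ T ^ (0 + ε) := Real.one_le_rpow (by linarith) (by linarith)
    nlinarith

lemma norm_cos_le_exp (z : ℂ) : ‖Complex.cos z‖ ≤ Real.exp |z.im| := by
  rw [Complex.cos]
  have h1 : ‖Complex.exp (z * I)‖ ≤ Real.exp |z.im| := by
    rw [Complex.norm_exp]
    refine Real.exp_le_exp.mpr ?_
    simp only [Complex.mul_re, Complex.I_re, mul_zero, Complex.I_im, mul_one, zero_sub]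
    exact neg_le_abs z.im
  have h2 : ‖Complex.exp (-z * I)‖ ≤ Real.exp |z.im| := by
    rw [Complex.norm_exp]
    refine Real.exp_le_exp.mpr ?_
    simp only [Complex.mul_re, Complex.neg_re, Complex.neg_im, Complex.I_re, mul_zero,
      Complex.I_im, mul_one, zero_sub, neg_neg]
    exact le_abs_self z.im
  rw [norm_div]
  have h3 := norm_add_le (Complex.exp (z * I)) (Complex.exp (-z * I))
  have h4 : ‖(2 : ℂ)‖ = 2 := by simp
  rw [h4]
  linarith

/-- Crude polynomial bound in vertical strips. -/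
lemma zeta_crude_strip (R : ℝ) : ∃ C K : ℝ, 1 ≤ C ∧ 1 ≤ K ∧ ∀ s : ℂ, |s.re| ≤ R → 1 ≤ s.im →
    ‖riemannZeta s‖ ≤ C * s.im ^ K := by
  obtain ⟨C₀, hC₀, h0⟩ := Pool.Agent.Lib.ZetaCrude.norm_zeta_le_crude
  obtain ⟨C₁, hC₁, h1⟩ := gamma_two (|R| + 1)
  -- the right part
  have hright : ∀ s : ℂ, 1 / 4 ≤ s.re → |s.re| ≤ |R| + 1 → 1 ≤ |s.im| →
      ‖riemannZeta s‖ ≤ C₀ * (|R| + 4) * |s.im| := by
    intro s hs1 hs2 hs3
    have h2 : 1 ≤ ‖s - 1‖ := by
      refine hs3.trans ?_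
      have := Complex.abs_im_le_norm (s - 1)
      simpa using this
    refine (h0 s hs1 h2).trans ?_
    have h3 : ‖s‖ ≤ |s.re| + |s.im| := Complex.norm_le_abs_re_add_abs_im s
    have h4 : 1 + ‖s‖ ≤ (|R| + 4) * |s.im| := by
      nlinarith [abs_nonneg R, abs_nonneg s.im]
    calc C₀ * (1 + ‖s‖) ≤ C₀ * ((|R| + 4) * |s.im|) := by gcongr
      _ = _ := by ring
  set D : ℝ := 2 * (2 * Real.pi) ^ (|R| + 1) * C₁ * Real.exp (Real.pi) * (C₀ * (|R| + 4)) with hD
  refine ⟨C₀ * (|R| + 4) + D + 1, |R| + 3, ?_, ?_, ?_⟩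
  · have : 0 ≤ C₀ * (|R| + 4) := by positivity
    have : 0 ≤ D := by positivity
    linarith
  · have := abs_nonneg R
    linarith
  intro s hs1 hs2
  have hs0 : (0 : ℝ) < s.im := by linarith
  by_cases hre : 1 / 4 ≤ s.re
  · have h2 := hright s hre (hs1.trans (by have := le_abs_self R; linarith))
      (by rw [abs_of_pos hs0]; exact hs2)
    rw [abs_of_pos hs0] at h2
    refine h2.trans ?_
    have h3 : s.im ≤ s.im ^ (|R| + 3) := by
      conv_lhs => rw [← Real.rpow_one s.im]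
      exact Real.rpow_le_rpow_of_exponent_le hs2 (by have := abs_nonneg R; linarith)
    have h4 : 0 ≤ C₀ * (|R| + 4) := by positivity
    have h5 : 0 ≤ D := by positivity
    have h6 : 0 ≤ s.im ^ (|R| + 3) := by positivity
    nlinarith
  · -- functional equation `ζ(1 - w)`, `w = 1 - s`
    push Not at hre
    set w : ℂ := 1 - s with hw
    have hwre : w.re = 1 - s.re := by simp [hw]
    have hwim : w.im = -s.im := by simp [hw]
    have hwn : ∀ n : ℕ, w ≠ -n := by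
      intro n hn
      have := congrArg Complex.im hn
      rw [hwim] at this
      simp at this
      linarith
    have hw1 : w ≠ 1 := by
      intro hn
      have := congrArg Complex.im hn
      rw [hwim] at this
      simp at this
      linarith
    have hsw : s = 1 - w := by simp [hw]
    have hwre' : |w.re| ≤ |R| + 1 := by
      rw [hwre]
      have h2 := abs_sub 1 s.re
      have h3 := le_abs_self R
      rw [abs_one] at h2
      linarith
    have hz := hright w (by rw [hwre]; linarith) hwre' (by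
      rw [hwim, abs_neg, abs_of_pos hs0]; exact hs2)
    rw [hwim, abs_neg, abs_of_pos hs0] at hz
    have hG : ‖Complex.Gamma w‖ ≤ C₁ * (s.im ^ (w.re - 1 / 2) *
        Real.exp (-(Real.pi * s.im / 2))) := by
      have h2 := (h1 w.re s.im hwre' hs2).1
      have h3 : (w.re : ℂ) + s.im * I = (starRingEnd ℂ) w := by
        apply Complex.ext <;> simp [hwim]
      rw [h3, Complex.Gamma_conj, RCLike.norm_conj] at h2
      exact h2
    have hc : ‖Complex.cos (Real.pi * w / 2)‖ ≤ Real.exp (Real.pi * s.im / 2) := by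
      refine (norm_cos_le_exp _).trans (Real.exp_le_exp.mpr ?_)
      have : (Real.pi * w / 2 : ℂ).im = -(Real.pi * s.im / 2) := by
        have h5 : (Real.pi * w / 2 : ℂ) = ((Real.pi / 2 : ℝ) : ℂ) * w := by push_cast; ring
        rw [h5, Complex.im_ofReal_mul]
        rw [hwim]; ring
      rw [this, abs_neg, abs_of_pos (by positivity)]
    have hp : ‖(2 * Real.pi : ℂ) ^ (-w)‖ ≤ 1 := by
      have h5 : (2 * Real.pi : ℂ) = ((2 * Real.pi : ℝ) : ℂ) := by push_cast; ring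
      rw [h5, Complex.norm_cpow_eq_rpow_re_of_pos (by positivity)]
      refine Real.rpow_le_one_of_one_le_of_nonpos ?_ ?_
      · have := Real.pi_gt_three
        linarith
      · simp [hwre]; linarith
    have hpw : s.im ^ (w.re - 1 / 2) * s.im ≤ s.im ^ (|R| + 3) := by
      rw [← Real.rpow_add_one (by linarith)]
      refine Real.rpow_le_rpow_of_exponent_le hs2 ?_
      have := le_abs_self w.re
      linarith
    have hexp : Real.exp (-(Real.pi * s.im / 2)) * Real.exp (Real.pi * s.im / 2) = 1 := by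
      rw [← Real.exp_add]; simp
    have hfe := riemannZeta_one_sub hwn hw1
    rw [← hsw] at hfe
    have hmain : ‖riemannZeta s‖ ≤ 2 * C₁ * (C₀ * (|R| + 4)) * s.im ^ (|R| + 3) := by
      rw [hfe, norm_mul, norm_mul, norm_mul, norm_mul, Complex.norm_ofNat]
      calc 2 * ‖(2 * Real.pi : ℂ) ^ (-w)‖ * ‖Complex.Gamma w‖ * ‖Complex.cos (Real.pi * w / 2)‖ *
            ‖riemannZeta w‖
          ≤ 2 * 1 * (C₁ * (s.im ^ (w.re - 1 / 2) * Real.exp (-(Real.pi * s.im / 2)))) *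
            Real.exp (Real.pi * s.im / 2) * (C₀ * (|R| + 4) * s.im) := by gcongr
        _ = 2 * C₁ * (C₀ * (|R| + 4)) * (s.im ^ (w.re - 1 / 2) * s.im) *
            (Real.exp (-(Real.pi * s.im / 2)) * Real.exp (Real.pi * s.im / 2)) := by ring
        _ ≤ 2 * C₁ * (C₀ * (|R| + 4)) * s.im ^ (|R| + 3) * 1 := by rw [hexp]; gcongr
        _ = _ := by ring
    refine hmain.trans ?_
    have h6 : 0 ≤ s.im ^ (|R| + 3) := by positivity
    have h7 : 2 * C₁ * (C₀ * (|R| + 4)) ≤ D := by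
      have h8 : (1 : ℝ) ≤ (2 * Real.pi) ^ (|R| + 1) :=
        Real.one_le_rpow (by have := Real.pi_gt_three; linarith) (by positivity)
      have h9 : (1 : ℝ) ≤ Real.exp Real.pi := Real.one_le_exp Real.pi_pos.le
      have h10 : 0 ≤ C₁ * (C₀ * (|R| + 4)) := by positivity
      calc 2 * C₁ * (C₀ * (|R| + 4)) = 2 * (C₁ * (C₀ * (|R| + 4))) * (1 * 1) := by ring
        _ ≤ 2 * (C₁ * (C₀ * (|R| + 4))) * ((2 * Real.pi) ^ (|R| + 1) * Real.exp Real.pi) := by
          gcongr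
        _ = D := by rw [hD]; ring
    have h11 : 0 ≤ C₀ * (|R| + 4) := by positivity
    nlinarith

lemma abs_log_div_le {y T : ℝ} (hy : 1 ≤ y) (hT : 1 ≤ T) : |Real.log (y / T)| ≤ |y - T| := by
  have hy0 : 0 < y := by linarith
  have hT0 : 0 < T := by linarith
  rw [abs_le]
  constructor
  · have h1 : Real.log (T / y) ≤ T / y - 1 := Real.log_le_sub_one_of_pos (by positivity)
    have h2 : Real.log (T / y) = -Real.log (y / T) := by
      rw [← Real.log_inv, inv_div]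
    have h3 : T / y - 1 ≤ |y - T| := by
      have h4 : T / y - 1 = (T - y) / y := by field_simp
      rw [h4]
      by_cases hc : 0 ≤ T - y
      · calc (T - y) / y ≤ (T - y) / 1 := by gcongr
          _ ≤ |y - T| := by rw [div_one, abs_sub_comm]; exact le_abs_self _
      · push Not at hc
        have : (T - y) / y ≤ 0 := div_nonpos_of_nonpos_of_nonneg hc.le hy0.le
        exact this.trans (abs_nonneg _)
    linarith
  · have h1 : Real.log (y / T) ≤ y / T - 1 := Real.log_le_sub_one_of_pos (by positivity)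
    have h3 : y / T - 1 ≤ |y - T| := by
      have h4 : y / T - 1 = (y - T) / T := by field_simp
      rw [h4]
      by_cases hc : 0 ≤ y - T
      · calc (y - T) / T ≤ (y - T) / 1 := by gcongr
          _ ≤ |y - T| := by rw [div_one]; exact le_abs_self _
      · push Not at hc
        have : (y - T) / T ≤ 0 := div_nonpos_of_nonpos_of_nonneg hc.le hT0.le
        exact this.trans (abs_nonneg _)
    linarith

/-- Peetre type inequality with a Gaussian factor. -/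
lemma peetre {y T : ℝ} (hy : 1 ≤ y) (hT : 1 ≤ T) (p : ℝ) :
    y ^ p * Real.exp (-(y - T) ^ 2) ≤ Real.exp (p ^ 2) * T ^ p := by
  have hy0 : 0 < y := by linarith
  have hT0 : 0 < T := by linarith
  have h1 := abs_log_div_le hy hT
  rw [Real.log_div hy0.ne' hT0.ne'] at h1
  rw [Real.rpow_def_of_pos hy0, Real.rpow_def_of_pos hT0, ← Real.exp_add, ← Real.exp_add]
  refine Real.exp_le_exp.mpr ?_
  have h2 : p * (Real.log y - Real.log T) ≤ |p| * |y - T| := by
    calc p * (Real.log y - Real.log T) ≤ |p * (Real.log y - Real.log T)| := le_abs_self _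
      _ = |p| * |Real.log y - Real.log T| := abs_mul _ _
      _ ≤ |p| * |y - T| := by gcongr
  have h3 : |p| * |y - T| ≤ p ^ 2 + (y - T) ^ 2 := by
    nlinarith [sq_nonneg (|p| - |y - T|), sq_abs p, sq_abs (y - T), abs_nonneg p,
      abs_nonneg (y - T), mul_nonneg (abs_nonneg p) (abs_nonneg (y - T))]
  nlinarith

lemma MuLe.one {σ a : ℝ} (h : MuLe σ a) {ε : ℝ} (hε : 0 < ε) :
    ∃ C : ℝ, 1 ≤ C ∧ ∀ T : ℝ, 1 ≤ T → ‖riemannZeta (σ + T * I)‖ ≤ C * T ^ (a + ε) := by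
  obtain ⟨C, hC⟩ := h ε hε
  obtain ⟨C₀, K, hC₀, hK, h0⟩ := zeta_crude_strip |σ|
  set m : ℝ := 2 ^ |a + ε| with hm
  have hm1 : 1 ≤ m := Real.one_le_rpow (by norm_num) (abs_nonneg _)
  refine ⟨|C| + C₀ * 2 ^ K * m, ?_, fun T hT => ?_⟩
  · have : 1 ≤ (2 : ℝ) ^ K := Real.one_le_rpow (by norm_num) (by linarith)
    have h2 : 1 ≤ C₀ * 2 ^ K * m := by
      calc (1 : ℝ) = 1 * 1 * 1 := by ring
        _ ≤ C₀ * 2 ^ K * m := by gcongr
    have := abs_nonneg C
    linarith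
  have hT0 : 0 < T := by linarith
  have hp : 0 < T ^ (a + ε) := by positivity
  by_cases h2 : 2 ≤ T
  · refine (hC T h2).trans ?_
    have h3 : 0 ≤ C₀ * 2 ^ K * m := by positivity
    have h4 := le_abs_self C
    nlinarith
  · push Not at h2
    have h3 := h0 (σ + T * I) (by simp) (by simpa using hT)
    have h4 : (σ + T * I : ℂ).im = T := by simp
    rw [h4] at h3
    have h5 : T ^ K ≤ 2 ^ K := Real.rpow_le_rpow hT0.le h2.le (by linarith)
    have h6 : 1 ≤ m * T ^ (a + ε) := by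
      rw [hm]
      by_cases hs : 0 ≤ a + ε
      · have h7 : 1 ≤ T ^ (a + ε) := Real.one_le_rpow hT hs
        calc (1 : ℝ) = 1 * 1 := by ring
          _ ≤ 2 ^ |a + ε| * T ^ (a + ε) := by gcongr
      · push Not at hs
        rw [abs_of_neg hs]
        have h7 : (2 : ℝ) ^ (a + ε) ≤ T ^ (a + ε) :=
          Real.rpow_le_rpow_of_nonpos hT0 h2.le hs.le
        calc (1 : ℝ) = 2 ^ (-(a + ε)) * 2 ^ (a + ε) := by
              rw [← Real.rpow_add (by norm_num)]; simp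
          _ ≤ 2 ^ (-(a + ε)) * T ^ (a + ε) := by gcongr
    calc ‖riemannZeta (σ + T * I)‖ ≤ C₀ * T ^ K := h3
      _ ≤ C₀ * 2 ^ K * 1 := by rw [mul_one]; gcongr
      _ ≤ C₀ * 2 ^ K * (m * T ^ (a + ε)) := by gcongr
      _ = C₀ * 2 ^ K * m * T ^ (a + ε) := by ring
      _ ≤ (|C| + C₀ * 2 ^ K * m) * T ^ (a + ε) := by
        have := abs_nonneg C
        gcongr
        linarith

theorem mu_interp {σ₁ σ₂ a₁ a₂ : ℝ} (h12 : σ₁ < σ₂) (h1 : MuLe σ₁ a₁) (h2 : MuLe σ₂ a₂) {ε : ℝ}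
    (hε : 0 < ε) :
    ∃ C : ℝ, ∀ σ T : ℝ, σ₁ ≤ σ → σ ≤ σ₂ → 2 ≤ T →
      ‖riemannZeta (σ + T * I)‖ ≤
        C * T ^ ((a₁ * (σ₂ - σ) + a₂ * (σ - σ₁)) / (σ₂ - σ₁) + ε) := by
  obtain ⟨C₁, hC₁, hb1⟩ := h1.one hε
  obtain ⟨C₂, hC₂, hb2⟩ := h2.one hε
  obtain ⟨C₀, K, hC₀, hK, hb0⟩ := zeta_crude_strip (|σ₁| + |σ₂|)
  set κ : ℝ := (a₁ - a₂) / (σ₂ - σ₁) with hκ
  have hd : 0 < σ₂ - σ₁ := by linarith
  have hκd : κ * (σ₂ - σ₁) = a₁ - a₂ := by rw [hκ]; field_simp
  set p₁ : ℝ := a₁ + ε with hp₁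
  set p₂ : ℝ := a₂ + ε with hp₂
  set q : ℝ := K + |a₁ - a₂| - p₁ with hq
  set M₀ : ℝ := C₁ * Real.exp (p₁ ^ 2) + C₂ * Real.exp (p₂ ^ 2) + C₀ * 2 ^ K * Real.exp (q ^ 2)
    with hM₀
  refine ⟨M₀ * Real.exp ((σ₂ - σ₁) ^ 2), fun σ T hσ1 hσ2 hT => ?_⟩
  have hT0 : 0 < T := by linarith
  have hexpL : ∀ v : ℝ, Real.exp (κ * Real.log T * v) = T ^ (κ * v) := by
    intro v
    rw [Real.rpow_def_of_pos hT0]
    congr 1; ring
  have hA1 : 0 ≤ C₁ * Real.exp (p₁ ^ 2) := by positivity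
  have hA2 : 0 ≤ C₂ * Real.exp (p₂ ^ 2) := by positivity
  have hA3 : 0 ≤ C₀ * 2 ^ K * Real.exp (q ^ 2) := by positivity
  have hTp : 0 < T ^ p₁ := by positivity
  have hT1 : (1 : ℝ) ≤ T := by linarith
  have hM1 : C₁ * Real.exp (p₁ ^ 2) ≤ M₀ := by linarith
  have hM2 : C₂ * Real.exp (p₂ ^ 2) ≤ M₀ := by linarith
  have hM3 : C₀ * 2 ^ K * Real.exp (q ^ 2) ≤ M₀ := by linarith
  have hmax := Pool.Agent.Lib.ZetaConv.gauss_max (a := σ₁) (b := σ₂) (κ := κ) (T := T)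
    (Y := T - 1) (M := M₀ * T ^ p₁) h12 (by linarith) (by linarith) (L := Real.log T) (by
    intro s hs1 hs2 hs3 hs4
    have him : 1 ≤ s.im := by
      have := (abs_le.mp hs3).1
      linarith
    have him0 : 0 < s.im := by linarith
    have hs : s = s.re + s.im * I := (Complex.re_add_im s).symm
    rw [hexpL]
    rcases hs4 with hl | hr | ht
    · -- left side
      have h3 : ‖riemannZeta s‖ ≤ C₁ * s.im ^ p₁ := by
        have := hb1 s.im him
        rw [← hl, Complex.re_add_im] at this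
        exact this
      rw [hl, sub_self, mul_zero, Real.rpow_zero, mul_one]
      calc ‖riemannZeta s‖ * Real.exp (-(s.im - T) ^ 2)
          ≤ C₁ * s.im ^ p₁ * Real.exp (-(s.im - T) ^ 2) := by gcongr
        _ = C₁ * (s.im ^ p₁ * Real.exp (-(s.im - T) ^ 2)) := by ring
        _ ≤ C₁ * (Real.exp (p₁ ^ 2) * T ^ p₁) := by
          exact mul_le_mul_of_nonneg_left (peetre him hT1 p₁) (by linarith)
        _ = C₁ * Real.exp (p₁ ^ 2) * T ^ p₁ := by ring
        _ ≤ M₀ * T ^ p₁ := mul_le_mul_of_nonneg_right hM1 hTp.le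
    · -- right side
      have h3 : ‖riemannZeta s‖ ≤ C₂ * s.im ^ p₂ := by
        have := hb2 s.im him
        rw [← hr, Complex.re_add_im] at this
        exact this
      rw [hr, hκd]
      have h4 : T ^ p₂ * T ^ (a₁ - a₂) = T ^ p₁ := by
        rw [← Real.rpow_add hT0]
        congr 1
        rw [hp₁, hp₂]; ring
      calc ‖riemannZeta s‖ * T ^ (a₁ - a₂) * Real.exp (-(s.im - T) ^ 2)
          ≤ C₂ * s.im ^ p₂ * T ^ (a₁ - a₂) * Real.exp (-(s.im - T) ^ 2) := by gcongr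
        _ = C₂ * (s.im ^ p₂ * Real.exp (-(s.im - T) ^ 2)) * T ^ (a₁ - a₂) := by ring
        _ ≤ C₂ * (Real.exp (p₂ ^ 2) * T ^ p₂) * T ^ (a₁ - a₂) := by
          exact mul_le_mul_of_nonneg_right (mul_le_mul_of_nonneg_left (peetre him hT1 p₂)
            (by linarith)) (by positivity)
        _ = C₂ * Real.exp (p₂ ^ 2) * (T ^ p₂ * T ^ (a₁ - a₂)) := by ring
        _ = C₂ * Real.exp (p₂ ^ 2) * T ^ p₁ := by rw [h4]
        _ ≤ M₀ * T ^ p₁ := mul_le_mul_of_nonneg_right hM2 hTp.le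
    · -- top and bottom
      have h3 : ‖riemannZeta s‖ ≤ C₀ * s.im ^ K := by
        refine hb0 s ?_ him
        rw [abs_le]
        constructor
        · have := neg_abs_le σ₁
          have := abs_nonneg σ₂
          linarith
        · have := le_abs_self σ₂
          have := abs_nonneg σ₁
          linarith
      have him2 : s.im ≤ 2 * T := by
        have := (abs_le.mp hs3).2
        linarith
      have h4 : s.im ^ K ≤ 2 ^ K * T ^ K := by
        rw [← Real.mul_rpow (by norm_num) hT0.le]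
        exact Real.rpow_le_rpow him0.le him2 (by linarith)
      have h5 : T ^ (κ * (s.re - σ₁)) ≤ T ^ |a₁ - a₂| := by
        refine Real.rpow_le_rpow_of_exponent_le (by linarith) ?_
        calc κ * (s.re - σ₁) ≤ |κ| * (s.re - σ₁) :=
              mul_le_mul_of_nonneg_right (le_abs_self κ) (sub_nonneg.mpr hs1)
          _ ≤ |κ| * (σ₂ - σ₁) := by gcongr
          _ = |κ * (σ₂ - σ₁)| := by rw [abs_mul, abs_of_pos hd]
          _ = |a₁ - a₂| := by rw [hκd]
      have h6 : Real.exp (-(s.im - T) ^ 2) = Real.exp (-(T - 1) ^ 2) := by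
        congr 2
        rw [← sq_abs, ht]
      have h7 : T ^ q * Real.exp (-(T - 1) ^ 2) ≤ Real.exp (q ^ 2) := by
        have := peetre (y := T) (T := 1) (by linarith) le_rfl q
        rw [Real.one_rpow, mul_one] at this
        exact this
      have h8 : T ^ K * T ^ |a₁ - a₂| = T ^ q * T ^ p₁ := by
        rw [← Real.rpow_add hT0, ← Real.rpow_add hT0]
        congr 1
        rw [hq]; ring
      calc ‖riemannZeta s‖ * T ^ (κ * (s.re - σ₁)) * Real.exp (-(s.im - T) ^ 2)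
          ≤ C₀ * (2 ^ K * T ^ K) * T ^ |a₁ - a₂| * Real.exp (-(T - 1) ^ 2) := by
            rw [h6]
            gcongr
            exact h3.trans (by gcongr)
        _ = C₀ * 2 ^ K * (T ^ K * T ^ |a₁ - a₂|) * Real.exp (-(T - 1) ^ 2) := by ring
        _ = C₀ * 2 ^ K * (T ^ q * Real.exp (-(T - 1) ^ 2)) * T ^ p₁ := by rw [h8]; ring
        _ ≤ C₀ * 2 ^ K * Real.exp (q ^ 2) * T ^ p₁ := by gcongr
        _ ≤ M₀ * T ^ p₁ := mul_le_mul_of_nonneg_right hM3 hTp.le) hσ1 hσ2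
  rw [hexpL] at hmax
  have hpos : 0 < T ^ (κ * (σ - σ₁)) := by positivity
  have h9 : T ^ ((a₁ * (σ₂ - σ) + a₂ * (σ - σ₁)) / (σ₂ - σ₁) + ε) * T ^ (κ * (σ - σ₁)) =
      T ^ p₁ := by
    rw [← Real.rpow_add hT0]
    congr 1
    rw [hκ, hp₁]
    field_simp
    ring
  refine le_of_mul_le_mul_right ?_ hpos
  calc ‖riemannZeta (σ + T * I)‖ * T ^ (κ * (σ - σ₁))
      ≤ M₀ * T ^ p₁ * Real.exp ((σ₂ - σ₁) ^ 2) := hmax
    _ = M₀ * Real.exp ((σ₂ - σ₁) ^ 2) *
        (T ^ ((a₁ * (σ₂ - σ) + a₂ * (σ - σ₁)) / (σ₂ - σ₁) + ε) * T ^ (κ * (σ - σ₁))) := by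
        rw [h9]; ring
    _ = _ := by ring

lemma no_decay {C δ : ℝ} (hδ : 0 < δ) (h : ∀ T : ℝ, 2 ≤ T → (1 / 4 : ℝ) ≤ C * T ^ (-δ)) :
    False := by
  have h1 : Tendsto (fun T : ℝ => C * T ^ (-δ)) atTop (𝓝 (C * 0)) :=
    (tendsto_rpow_neg_atTop hδ).const_mul C
  rw [mul_zero] at h1
  have h2 := (h1.eventually (gt_mem_nhds (show (0 : ℝ) < 1 / 4 by norm_num))).and
    (eventually_ge_atTop 2)
  obtain ⟨T, hT1, hT2⟩ := h2.exists
  exact absurd (h T hT2) (not_le.mpr hT1)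

theorem mu_nonneg {σ a : ℝ} (h : MuLe σ a) : 0 ≤ a := by
  by_contra hcon
  push Not at hcon
  have h2 : ∀ T : ℝ, (1 / 4 : ℝ) ≤ ‖riemannZeta ((2 : ℝ) + T * I)‖ := by
    intro T
    have := Pool.Agent.LHW.t10 T
    simpa using this
  rcases lt_trichotomy σ 2 with hσ | hσ | hσ
  · have hd : 0 < 3 - σ := by linarith
    obtain ⟨C, hC⟩ := mu_interp (σ₁ := σ) (σ₂ := 3) (by linarith) h (mu_zero (by norm_num))
      (ε := -a / (2 * (3 - σ))) (by
        have : 0 < -a := by linarith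
        positivity)
    refine no_decay (C := C) (δ := -a / (2 * (3 - σ))) (by
      have : 0 < -a := by linarith
      positivity) fun T hT => ?_
    have h3 := hC 2 T (by linarith) (by norm_num) hT
    have e : (a * (3 - 2) + 0 * (2 - σ)) / (3 - σ) + -a / (2 * (3 - σ)) =
        -(-a / (2 * (3 - σ))) := by
      field_simp; ring
    rw [e] at h3
    exact (h2 T).trans h3
  · subst hσ
    obtain ⟨C, hC⟩ := h (-a / 2) (by linarith)
    refine no_decay (C := C) (δ := -a / 2) (by linarith) fun T hT => ?_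
    have h3 := hC T hT
    have e : a + -a / 2 = -(-a / 2) := by ring
    rw [e] at h3
    exact (h2 T).trans h3
  · have hd : 0 < σ - 3 / 2 := by linarith
    obtain ⟨C, hC⟩ := mu_interp (σ₁ := 3 / 2) (σ₂ := σ) (by linarith) (mu_zero (by norm_num)) h
      (ε := -a / (4 * (σ - 3 / 2))) (by
        have : 0 < -a := by linarith
        positivity)
    refine no_decay (C := C) (δ := -a / (4 * (σ - 3 / 2))) (by
      have : 0 < -a := by linarith
      positivity) fun T hT => ?_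
    have h3 := hC 2 T (by norm_num) (by linarith) hT
    have e : (0 * (σ - 2) + a * (2 - 3 / 2)) / (σ - 3 / 2) + -a / (4 * (σ - 3 / 2)) =
        -(-a / (4 * (σ - 3 / 2))) := by
      field_simp; ring
    rw [e] at h3
    exact (h2 T).trans h3

lemma mu_quarter : MuLe (1 / 4) 1 := by
  intro ε hε
  obtain ⟨C, hC, h⟩ := Pool.Agent.Lib.ZetaCrude.norm_zeta_le_crude
  refine ⟨3 * C, fun T hT => ?_⟩
  have h1 : 1 ≤ ‖((1 / 4 : ℝ) : ℂ) + T * I - 1‖ := by
    have := Complex.abs_im_le_norm (((1 / 4 : ℝ) : ℂ) + T * I - 1)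
    simp at this
    have h3 := le_abs_self T
    simp
    linarith
  have h2 := h (((1 / 4 : ℝ) : ℂ) + T * I) (by simp) h1
  refine h2.trans ?_
  have h3 : ‖((1 / 4 : ℝ) : ℂ) + T * I‖ ≤ 1 / 4 + T := by
    refine (norm_add_le _ _).trans ?_
    rw [norm_mul, Complex.norm_I, mul_one, Complex.norm_real, Complex.norm_real,
      Real.norm_of_nonneg (by norm_num), Real.norm_of_nonneg (by linarith)]
  have h4 : T ≤ T ^ (1 + ε) := by
    conv_lhs => rw [← Real.rpow_one T]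
    exact Real.rpow_le_rpow_of_exponent_le (by linarith) (by linarith)
  have h5 : 1 + ‖((1 / 4 : ℝ) : ℂ) + T * I‖ ≤ 3 * T ^ (1 + ε) := by linarith
  calc C * (1 + ‖((1 / 4 : ℝ) : ℂ) + T * I‖) ≤ C * (3 * T ^ (1 + ε)) := by gcongr
    _ = 3 * C * T ^ (1 + ε) := by ring

theorem zeta_sub : ∃ C : ℝ, 1 ≤ C ∧ ∀ x T : ℝ, 1 / 2 ≤ x → 2 ≤ T →
    ‖riemannZeta (x + T * I)‖ ≤ C * T ^ (3 / 4 : ℝ) := by
  obtain ⟨C₁, hC₁, h1⟩ := Pool.Agent.Lib.ZetaConv.norm_zeta_le_of_re (δ := 1 / 8) (by norm_num)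
  obtain ⟨C₂, h2⟩ := mu_interp (σ₁ := 1 / 4) (σ₂ := 9 / 8) (by norm_num) mu_quarter
    (mu_zero (by norm_num)) (ε := 1 / 28) (by norm_num)
  refine ⟨C₁ + |C₂|, by have := abs_nonneg C₂; linarith, fun x T hx hT => ?_⟩
  have hT1 : (1 : ℝ) ≤ T ^ (3 / 4 : ℝ) := Real.one_le_rpow (by linarith) (by norm_num)
  by_cases hx2 : x ≤ 9 / 8
  · have h3 := h2 x T (by linarith) hx2 hT
    have h4 : T ^ ((1 * (9 / 8 - x) + 0 * (x - 1 / 4)) / (9 / 8 - 1 / 4) + 1 / 28) ≤
        T ^ (3 / 4 : ℝ) := by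
      refine Real.rpow_le_rpow_of_exponent_le (by linarith) ?_
      have : (1 * (9 / 8 - x) + 0 * (x - 1 / 4)) / (9 / 8 - 1 / 4) = (9 / 8 - x) * (8 / 7) := by
        ring
      rw [this]
      linarith
    have h5 : 0 ≤ T ^ ((1 * (9 / 8 - x) + 0 * (x - 1 / 4)) / (9 / 8 - 1 / 4) + 1 / 28) := by
      positivity
    calc ‖riemannZeta (x + T * I)‖
        ≤ C₂ * T ^ ((1 * (9 / 8 - x) + 0 * (x - 1 / 4)) / (9 / 8 - 1 / 4) + 1 / 28) := h3
      _ ≤ |C₂| * T ^ ((1 * (9 / 8 - x) + 0 * (x - 1 / 4)) / (9 / 8 - 1 / 4) + 1 / 28) := by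
        gcongr
        exact le_abs_self C₂
      _ ≤ |C₂| * T ^ (3 / 4 : ℝ) := by gcongr
      _ ≤ (C₁ + |C₂|) * T ^ (3 / 4 : ℝ) := by
        have : 0 ≤ T ^ (3 / 4 : ℝ) := by positivity
        nlinarith
  · push Not at hx2
    have h3 := h1 (x + T * I) (by simp; linarith)
    have := abs_nonneg C₂
    calc ‖riemannZeta (x + T * I)‖ ≤ C₁ * 1 := by rw [mul_one]; exact h3
      _ ≤ (C₁ + |C₂|) * T ^ (3 / 4 : ℝ) := by gcongr; linarith

theorem mu_unif {a : ℝ → ℝ} (ha : Continuous a) (h : ∀ σ, MuLe σ (a σ)) (R : ℝ) {ε : ℝ}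
    (hε : 0 < ε) : ∃ C : ℝ, 1 ≤ C ∧ ∀ σ T : ℝ, |σ| ≤ R → 2 ≤ T →
      ‖riemannZeta (σ + T * I)‖ ≤ C * T ^ (a σ + ε) := by
  have key : ∃ C : ℝ, 1 ≤ C ∧ ∀ σ ∈ Icc (-R) R, ∀ T : ℝ, 2 ≤ T →
      ‖riemannZeta (σ + T * I)‖ ≤ C * T ^ (a σ + ε) := by
    refine IsCompact.induction_on (isCompact_Icc (a := -R) (b := R))
      (p := fun s => ∃ C : ℝ, 1 ≤ C ∧ ∀ σ ∈ s, ∀ T : ℝ, 2 ≤ T →
        ‖riemannZeta (σ + T * I)‖ ≤ C * T ^ (a σ + ε)) ?_ ?_ ?_ ?_
    · exact ⟨1, le_rfl, fun σ hσ => absurd hσ (Set.notMem_empty σ)⟩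
    · rintro s t hst ⟨C, hC, hb⟩
      exact ⟨C, hC, fun σ hσ => hb σ (hst hσ)⟩
    · rintro s t ⟨C, hC, hb⟩ ⟨C', hC', hb'⟩
      refine ⟨C + C', by linarith, fun σ hσ T hT => ?_⟩
      have hp : 0 ≤ T ^ (a σ + ε) := by positivity
      rcases hσ with hσ | hσ
      · have := hb σ hσ T hT
        nlinarith
      · have := hb' σ hσ T hT
        nlinarith
    · intro σ₀ _
      have hcont := ha.continuousAt (x := σ₀)
      rw [Metric.continuousAt_iff] at hcont
      obtain ⟨δ', hδ', hcl⟩ := hcont (ε / 4) (by linarith)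
      set δ := δ' / 2 with hδ
      have hδ0 : 0 < δ := by positivity
      have hcl' : ∀ x : ℝ, |x - σ₀| ≤ δ → |a x - a σ₀| < ε / 4 := by
        intro x hx
        have := hcl (x := x) (by rw [Real.dist_eq]; linarith)
        rwa [Real.dist_eq] at this
      obtain ⟨C, hC⟩ := mu_interp (σ₁ := σ₀ - δ) (σ₂ := σ₀ + δ) (by linarith) (h _) (h _)
        (ε := ε / 2) (by linarith)
      refine ⟨Icc (σ₀ - δ) (σ₀ + δ), mem_nhdsWithin_of_mem_nhds
        (Icc_mem_nhds (by linarith) (by linarith)), |C| + 1,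
        by have := abs_nonneg C; linarith, fun σ hσ T hT => ?_⟩
      have h3 := hC σ T hσ.1 hσ.2 hT
      have h4 : (a (σ₀ - δ) * (σ₀ + δ - σ) + a (σ₀ + δ) * (σ - (σ₀ - δ))) /
          (σ₀ + δ - (σ₀ - δ)) + ε / 2 ≤ a σ + ε := by
        have e1 := (abs_lt.mp (hcl' (σ₀ - δ) (by rw [abs_le]; constructor <;> linarith))).2
        have e2 := (abs_lt.mp (hcl' (σ₀ + δ) (by rw [abs_le]; constructor <;> linarith))).2
        have e3 := (abs_lt.mp (hcl' σ (by
          rw [abs_le]; constructor <;> linarith [hσ.1, hσ.2]))).1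
        have hden : 0 < σ₀ + δ - (σ₀ - δ) := by linarith
        have e4 : (a (σ₀ - δ) * (σ₀ + δ - σ) + a (σ₀ + δ) * (σ - (σ₀ - δ))) /
            (σ₀ + δ - (σ₀ - δ)) ≤ a σ₀ + ε / 4 := by
          rw [div_le_iff₀ hden]
          have f1 : 0 ≤ σ₀ + δ - σ := by linarith [hσ.2]
          have f2 : 0 ≤ σ - (σ₀ - δ) := by linarith [hσ.1]
          nlinarith [mul_le_mul_of_nonneg_right e1.le f1, mul_le_mul_of_nonneg_right e2.le f2]
        linarith
      have h5 : 0 ≤ T ^ (a σ + ε) := by positivity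
      calc ‖riemannZeta (σ + T * I)‖
          ≤ C * T ^ ((a (σ₀ - δ) * (σ₀ + δ - σ) + a (σ₀ + δ) * (σ - (σ₀ - δ))) /
            (σ₀ + δ - (σ₀ - δ)) + ε / 2) := h3
        _ ≤ |C| * T ^ ((a (σ₀ - δ) * (σ₀ + δ - σ) + a (σ₀ + δ) * (σ - (σ₀ - δ))) /
            (σ₀ + δ - (σ₀ - δ)) + ε / 2) := by
          gcongr
          exact le_abs_self C
        _ ≤ |C| * T ^ (a σ + ε) := by
          gcongr
          linarith
        _ ≤ (|C| + 1) * T ^ (a σ + ε) := by nlinarith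
  obtain ⟨C, hC, hb⟩ := key
  exact ⟨C, hC, fun σ T hσ hT => hb σ (abs_le.mp hσ) T hT⟩

end Pool.Agent.DBN
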