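import Mathlib

/-!
# The de Bruijn-Newman flow of the Riemann xi function and growth exponents

`xi s = s (s - 1) Γ_ℝ(s) ζ(s) / 2`, `flow t s = E xi(s + √t · N')` for `t > 0` and
`E xi(s + i √|t| · N')` for `t < 0`, `N'` Gaussian with density `exp(-u²)/√π`. In terms of the
functions `H_t` of de Bruijn and Newman, `H_t(z) = flow t (1/2 + i z / 2) / 8`.
-/

set_option autoImplicit false

namespace Pool.Agent.DBN

open Complex MeasureTheory

/-- the Riemann xi function `s (s - 1) π^(-s/2) Γ(s/2) ζ(s) / 2` (entire) -/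
noncomputable def xi (s : ℂ) : ℂ := (1 + s * (s - 1) * completedRiemannZeta₀ s) / 2

/-- the backward heat flow of `xi` in the variable `z` of `s = 1/2 + i z / 2`: for `t > 0` the
Gaussian average of `xi` over the horizontal line through `s`, for `t < 0` over the vertical line,
for `t = 0` the value `xi s` -/
noncomputable def flow (t : ℝ) (s : ℂ) : ℂ :=
  (√Real.pi : ℂ)⁻¹ * ∫ u : ℝ, (Real.exp (-u ^ 2) : ℂ) * xi (s + (√t + √(-t) * I) * u)

/-- the size of `xi (1/2 + i T) / ζ(1/2 + i T)` -/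
noncomputable def size (T : ℝ) : ℝ := T ^ (7 / 4 : ℝ) * Real.exp (-(Real.pi * T / 4))

/-- the growth exponent of the flow at the time `c / log T` and height `T` is at most `A` -/
def GrowthLe (c A : ℝ) : Prop :=
  ∀ ε : ℝ, 0 < ε → ∃ C : ℝ, ∀ T : ℝ, 2 ≤ T →
    ‖flow (c / Real.log T) (1 / 2 + T * I)‖ ≤ C * T ^ (A + ε) * size T

/-- `ζ(σ + i T) = O(T^(a + ε))` for every `ε > 0`: Lindelöf's function is at most `a` at `σ` -/
def MuLe (σ a : ℝ) : Prop :=
  ∀ ε : ℝ, 0 < ε → ∃ C : ℝ, ∀ T : ℝ, 2 ≤ T → ‖riemannZeta (σ + T * I)‖ ≤ C * T ^ (a + ε)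

end Pool.Agent.DBN
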