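import Pool.Agent.DBN.Up

/-!
# From bounds for the flow to bounds for zeta
-/

set_option autoImplicit false

namespace Pool.Agent.DBN

open Complex MeasureTheory Set Filter Topology

lemma mu_of_large {σ a : ℝ} (h : ∀ ε : ℝ, 0 < ε → ∃ C T₀ : ℝ, ∀ T : ℝ, T₀ ≤ T → 2 ≤ T →
    ‖riemannZeta (σ + T * I)‖ ≤ C * T ^ (a + ε)) : MuLe σ a := by
  intro ε hε
  obtain ⟨C, T₀, h1⟩ := h ε hε
  have hcont : ContinuousOn (fun T : ℝ => ‖riemannZeta (σ + T * I)‖ * T ^ (-(a + ε)))
      (Icc 2 T₀) := by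
    apply ContinuousOn.mul
    · intro T hT
      apply ContinuousAt.continuousWithinAt
      have h2 : ContinuousAt riemannZeta (σ + T * I) := by
        apply (differentiableAt_riemannZeta _).continuousAt
        intro h3
        have := congrArg Complex.im h3
        simp at this
        linarith [hT.1]
      have h3 : ContinuousAt (fun T : ℝ => (σ : ℂ) + T * I) T := by fun_prop
      exact (ContinuousAt.comp (f := fun T : ℝ => (σ : ℂ) + T * I) h2 h3).norm
    · intro T hT
      exact (Real.continuousAt_rpow_const T _ (Or.inl (by linarith [hT.1]))).continuousWithinAt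
  obtain ⟨C', hC'⟩ := (isCompact_Icc.image_of_continuousOn hcont).bddAbove
  refine ⟨max C C', fun T hT => ?_⟩
  have hT0 : 0 < T := by linarith
  have hp : 0 < T ^ (a + ε) := by positivity
  rcases le_total T₀ T with h2 | h2
  · exact (h1 T h2 hT).trans (mul_le_mul_of_nonneg_right (le_max_left _ _) hp.le)
  · have h3 : ‖riemannZeta (σ + T * I)‖ * T ^ (-(a + ε)) ≤ C' := hC' ⟨T, ⟨hT, h2⟩, rfl⟩
    rw [Real.rpow_neg hT0.le, ← div_eq_mul_inv, div_le_iff₀ hp] at h3
    exact h3.trans (mul_le_mul_of_nonneg_right (le_max_right _ _) hp.le)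

lemma abs_exp_neg_sub_le {x y m : ℝ} (hx : m ≤ x) (hy : m ≤ y) :
    |Real.exp (-x) - Real.exp (-y)| ≤ |x - y| * Real.exp (-m) := by
  wlog hxy : x ≤ y generalizing x y
  · rw [abs_sub_comm, abs_sub_comm x y]
    exact this hy hx (le_of_not_ge hxy)
  have h1 : Real.exp (-y) ≤ Real.exp (-x) := by rw [Real.exp_le_exp]; linarith
  rw [abs_of_nonneg (by linarith), abs_sub_comm, abs_of_nonneg (by linarith : 0 ≤ y - x)]
  have h2 : Real.exp (-y) = Real.exp (-x) * Real.exp (-(y - x)) := by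
    rw [← Real.exp_add]; congr 1; ring
  have h3 : 1 - (y - x) ≤ Real.exp (-(y - x)) := by
    have := Real.add_one_le_exp (-(y - x))
    linarith
  have h4 : Real.exp (-x) ≤ Real.exp (-m) := by rw [Real.exp_le_exp]; linarith
  have h5 := Real.exp_pos (-x)
  rw [h2]
  nlinarith

lemma kernel_sub_le {q L L' m : ℝ} (hq : 0 ≤ q) (hm : 1 / 2 ≤ m) (hL : m ≤ L) (hL' : m ≤ L') :
    |√L * Real.exp (-(q * L)) - √L' * Real.exp (-(q * L'))| ≤
      |L - L'| * (1 + √L' * q) * Real.exp (-(q * m)) := by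
  have h1 : √L * Real.exp (-(q * L)) - √L' * Real.exp (-(q * L')) =
      (√L - √L') * Real.exp (-(q * L)) +
        √L' * (Real.exp (-(q * L)) - Real.exp (-(q * L'))) := by ring
  have h2 : |√L - √L'| ≤ |L - L'| := by
    have h3 : L - L' = (√L - √L') * (√L + √L') := by
      have e1 := Real.mul_self_sqrt (by linarith : 0 ≤ L)
      have e2 := Real.mul_self_sqrt (by linarith : 0 ≤ L')
      nlinarith
    have h4 : (1 : ℝ) / 2 ≤ √L := Real.le_sqrt_of_sq_le (by nlinarith)
    have h5 : (1 : ℝ) / 2 ≤ √L' := Real.le_sqrt_of_sq_le (by nlinarith)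
    rw [h3, abs_mul, abs_of_nonneg (by linarith : 0 ≤ √L + √L')]
    have := abs_nonneg (√L - √L')
    nlinarith
  have h3 : |Real.exp (-(q * L)) - Real.exp (-(q * L'))| ≤
      |q * L - q * L'| * Real.exp (-(q * m)) :=
    abs_exp_neg_sub_le (by gcongr) (by gcongr)
  have h4 : |q * L - q * L'| = q * |L - L'| := by
    rw [← mul_sub, abs_mul, abs_of_nonneg hq]
  have h5 : Real.exp (-(q * L)) ≤ Real.exp (-(q * m)) := by
    rw [Real.exp_le_exp]
    have : q * m ≤ q * L := by gcongr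
    linarith
  rw [h1]
  calc |(√L - √L') * Real.exp (-(q * L)) + √L' * (Real.exp (-(q * L)) - Real.exp (-(q * L')))|
      ≤ |√L - √L'| * Real.exp (-(q * L)) +
        √L' * |Real.exp (-(q * L)) - Real.exp (-(q * L'))| := by
        refine (abs_add_le _ _).trans ?_
        rw [abs_mul, abs_mul, abs_of_pos (Real.exp_pos _), abs_of_nonneg (Real.sqrt_nonneg _)]
    _ ≤ |L - L'| * Real.exp (-(q * m)) + √L' * (q * |L - L'| * Real.exp (-(q * m))) := by
        rw [← h4]
        gcongr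
    _ = _ := by ring

lemma flow_scale {c L : ℝ} (hc : 0 < c) (hL : 0 < L) (s : ℂ) :
    flow (c / L) s = (√Real.pi : ℂ)⁻¹ * ((√c)⁻¹ : ℝ) *
      ∫ σ : ℝ, ((√L * Real.exp (-(σ ^ 2 / c * L)) : ℝ) : ℂ) * xi (s + σ) := by
  have ht : 0 < c / L := by positivity
  rw [flow_pos ht, mul_assoc]
  congr 1
  set g : ℝ → ℂ := fun σ => ((Real.exp (-(σ ^ 2 / c * L)) : ℝ) : ℂ) * xi (s + σ) with hg
  have h1 := MeasureTheory.Measure.integral_comp_mul_left g (√(c / L))
  have h2 : (fun u : ℝ => g (√(c / L) * u)) =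
      fun u : ℝ => (Real.exp (-u ^ 2) : ℂ) * xi (s + √(c / L) * u) := by
    funext u
    simp only [hg]
    congr 2
    · rw [mul_pow, Real.sq_sqrt ht.le]
      congr 2
      field_simp
    · push_cast
      rfl
  rw [h2] at h1
  rw [h1]
  have h3 : |(√(c / L))⁻¹| = (√c)⁻¹ * √L := by
    rw [abs_of_nonneg (by positivity), Real.sqrt_div hc.le]
    have := Real.sqrt_pos.mpr hL
    field_simp
  rw [h3, real_smul]
  rw [← integral_const_mul, ← integral_const_mul]
  refine integral_congr_ae (Eventually.of_forall fun σ => ?_)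
  simp only [hg]
  push_cast
  ring

lemma integrable_gauss_xi {b : ℝ} (hb : 0 < b) (k : ℝ) (s : ℂ) :
    Integrable fun σ : ℝ => ((k * Real.exp (-(b * σ ^ 2)) : ℝ) : ℂ) * xi (s + σ) := by
  obtain ⟨C, hC, h⟩ := (subG_xi.affine s 1) (b / 2) (by positivity)
  have h1 : Integrable fun σ : ℝ => |k| * C * Real.exp (-(b / 2) * σ ^ 2) :=
    (integrable_exp_neg_mul_sq (by positivity)).const_mul _
  refine h1.mono' ?_ (Eventually.of_forall fun σ => ?_)
  · have := differentiable_xi.continuous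
    apply Continuous.aestronglyMeasurable
    fun_prop
  · have h2 := h (σ : ℂ)
    beta_reduce at h2
    rw [one_mul, Complex.norm_real, Real.norm_eq_abs, sq_abs] at h2
    rw [norm_mul, Complex.norm_real, Real.norm_eq_abs, abs_mul, abs_of_pos (Real.exp_pos _)]
    calc |k| * Real.exp (-(b * σ ^ 2)) * ‖xi (s + σ)‖
        ≤ |k| * Real.exp (-(b * σ ^ 2)) * (C * Real.exp (b / 2 * σ ^ 2)) := by gcongr
      _ = |k| * C * (Real.exp (-(b * σ ^ 2)) * Real.exp (b / 2 * σ ^ 2)) := by ring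
      _ = _ := by rw [← Real.exp_add]; congr 2; ring

/-- the unconditional exponents used for the error terms -/
lemma mu_start {c : ℝ} (hc : 0 < c) (σ : ℝ) :
    MuLe (1 / 2 + σ) ((c / 16 + 3 / 4) + σ ^ 2 / c - σ / 2) := by
  have h0 : ∀ τ : ℝ, 0 ≤ τ → MuLe (1 / 2 + τ) (3 / 4) := by
    intro τ hτ ε hε
    obtain ⟨C, hC, h⟩ := zeta_sub
    refine ⟨C, fun T hT => (h (1 / 2 + τ) T (by linarith) hT).trans ?_⟩
    gcongr
    · linarith
    · linarith
  have h1 : |σ| / 2 ≤ c / 16 + σ ^ 2 / c := by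
    have h2 : 0 ≤ (|σ| - c / 4) ^ 2 / c := by positivity
    have h3 : (|σ| - c / 4) ^ 2 / c = σ ^ 2 / c - |σ| / 2 + c / 16 := by
      rw [sub_sq, sq_abs]
      field_simp
      ring
    linarith
  rcases le_total 0 σ with h | h
  · rw [abs_of_nonneg h] at h1
    exact (h0 σ h).mono (by linarith)
  · rw [abs_of_nonpos h] at h1
    have h2 := (mu_symm (σ := -σ)).mp (h0 (-σ) (by linarith))
    rw [sub_neg_eq_add] at h2
    exact h2.mono (by linarith)

/-- changing the time from `c / log T` to `c / log T'` changes the flow at height `T'` by little -/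
theorem time_shift {c : ℝ} (hc : 0 < c) (U : ℝ) (hU : 0 ≤ U) : ∃ C T₀ : ℝ, 0 ≤ C ∧ 2 ≤ T₀ ∧
    ∀ T T' : ℝ, T₀ ≤ T → |T' - T| ≤ U → 2 ≤ T' ∧
      ‖flow (c / Real.log T) (1 / 2 + T' * I) - flow (c / Real.log T') (1 / 2 + T' * I)‖ ≤
        C * size T' * T' ^ (c / 16 - 1 / 8) := by
  obtain ⟨C, κ, hC, hκ, h1⟩ := xi_ptwise hc (mu_start hc) (ε := 1 / 8) (by norm_num)
  set D : ℝ := (√Real.pi)⁻¹ * (√c)⁻¹ * (C * (4 * U) * (1 + 8 / (c * κ)) *
    √(Real.pi / (κ / 4))) with hD
  refine ⟨D, max (2 * U + 4) (2 * U / (c * κ / 8)), by positivity,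
    le_trans (by linarith) (le_max_left _ _), ?_⟩
  intro T T' hT hTT
  have hT1 : 2 * U + 4 ≤ T := (le_max_left _ _).trans hT
  have hT2 : 2 * U / (c * κ / 8) ≤ T := (le_max_right _ _).trans hT
  have habs := abs_le.mp hTT
  have hT0 : 0 < T := by linarith
  have hT'2 : 2 ≤ T' := by linarith
  have hT'0 : 0 < T' := by linarith
  refine ⟨hT'2, ?_⟩
  set L := Real.log T with hL
  set L' := Real.log T' with hL'
  have hLm : 1 / 2 ≤ L := log_two_ge.trans (Real.log_le_log (by norm_num) (by linarith))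
  have hLm' : 1 / 2 ≤ L' := log_two_ge.trans (Real.log_le_log (by norm_num) hT'2)
  -- the difference of the logarithms
  have hθ : |L - L'| ≤ 2 * U / T := by
    have h2 : L - L' ≤ 2 * U / T := by
      have h3 : L - L' = Real.log (T / T') := by rw [Real.log_div hT0.ne' hT'0.ne']
      rw [h3]
      refine (Real.log_le_sub_one_of_pos (by positivity)).trans ?_
      rw [div_sub_one hT'0.ne', div_le_div_iff₀ hT'0 hT0]
      nlinarith
    have h3 : L' - L ≤ 2 * U / T := by
      have h3 : L' - L = Real.log (T' / T) := by rw [Real.log_div hT'0.ne' hT0.ne']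
      rw [h3]
      refine (Real.log_le_sub_one_of_pos (by positivity)).trans ?_
      rw [div_sub_one hT0.ne', div_le_div_iff_of_pos_right hT0]
      linarith
    rw [abs_le]
    constructor <;> linarith
  have hθ1 : |L - L'| ≤ c * κ / 8 := by
    refine hθ.trans ?_
    rw [div_le_iff₀ hT0]
    rw [div_le_iff₀ (by positivity)] at hT2
    linarith
  have hθ2 : |L - L'| ≤ 4 * U / T' := by
    refine hθ.trans ?_
    rw [div_le_div_iff₀ hT0 hT'0]
    nlinarith
  set m := min L L' with hm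
  have hm2 : 1 / 2 ≤ m := le_min hLm hLm'
  have hmL : m ≤ L := min_le_left _ _
  have hmL' : m ≤ L' := min_le_right _ _
  have hm3 : L' - |L - L'| ≤ m := by
    apply le_min
    · have := neg_abs_le (L - L'); linarith
    · have := abs_nonneg (L - L'); linarith
  set s' : ℂ := 1 / 2 + T' * I with hs'
  rw [flow_scale hc (by linarith), flow_scale hc (by linarith), ← mul_sub]
  have hi1 : Integrable fun σ : ℝ =>
      ((√L * Real.exp (-(σ ^ 2 / c * L)) : ℝ) : ℂ) * xi (s' + σ) := by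
    have := integrable_gauss_xi (b := L / c) (by positivity) (√L) s'
    refine this.congr (Eventually.of_forall fun σ => ?_)
    simp only
    congr 4
    ring
  have hi2 : Integrable fun σ : ℝ =>
      ((√L' * Real.exp (-(σ ^ 2 / c * L')) : ℝ) : ℂ) * xi (s' + σ) := by
    have := integrable_gauss_xi (b := L' / c) (by positivity) (√L') s'
    refine this.congr (Eventually.of_forall fun σ => ?_)
    simp only
    congr 4
    ring
  rw [← integral_sub hi1 hi2]
  have hs0 := size_pos hT'0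
  -- the pointwise estimate
  have h2 : ∀ σ : ℝ, ‖((√L * Real.exp (-(σ ^ 2 / c * L)) : ℝ) : ℂ) * xi (s' + σ) -
      ((√L' * Real.exp (-(σ ^ 2 / c * L')) : ℝ) : ℂ) * xi (s' + σ)‖ ≤
      (C * (4 * U) * (1 + 8 / (c * κ)) * (size T' * T' ^ (c / 16 - 1 / 8))) *
        Real.exp (-(κ / 4) * σ ^ 2) := by
    intro σ
    rw [← sub_mul, ← Complex.ofReal_sub, norm_mul, Complex.norm_real, Real.norm_eq_abs]
    set q := σ ^ 2 / c with hq
    have hq0 : 0 ≤ q := by positivity
    have h3 := kernel_sub_le hq0 hm2 hmL hmL'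
    have h4 := h1 T' σ hT'2
    have e1 : T' ^ (c / 16 + 3 / 4 + 1 / 8) = T' ^ (c / 16 - 1 / 8) * T' := by
      rw [← Real.rpow_add_one hT'0.ne']
      congr 1
      ring
    rw [e1, ← hL'] at h4
    have h5 : 1 + √L' * q ≤ (1 + 8 / (c * κ)) * Real.exp (κ * σ ^ 2 * L' / 4) := by
      have h6 : √L' ≤ 2 * L' := by
        rw [Real.sqrt_le_left (by linarith)]
        nlinarith
      have h7 : κ * σ ^ 2 * L' / 4 ≤ Real.exp (κ * σ ^ 2 * L' / 4) := by
        have := Real.add_one_le_exp (κ * σ ^ 2 * L' / 4)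
        linarith
      have h8 : 1 ≤ Real.exp (κ * σ ^ 2 * L' / 4) := Real.one_le_exp (by positivity)
      have h9 : √L' * q ≤ 8 / (c * κ) * (κ * σ ^ 2 * L' / 4) := by
        calc √L' * q ≤ 2 * L' * q := by gcongr
          _ = 8 / (c * κ) * (κ * σ ^ 2 * L' / 4) := by
              rw [hq]; field_simp; ring
      have h10 : 0 ≤ 8 / (c * κ) := by positivity
      nlinarith
    have h6 : Real.exp (-(q * m)) ≤ Real.exp (-(q * L') + κ * σ ^ 2 * L' / 4) := by
      rw [Real.exp_le_exp]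
      have h7 : q * (L' - |L - L'|) ≤ q * m := by gcongr
      have h8 : q * |L - L'| ≤ κ * σ ^ 2 * L' / 4 := by
        calc q * |L - L'| ≤ q * (c * κ / 8) := by gcongr
          _ = κ * σ ^ 2 * (1 / 2) / 4 := by rw [hq]; field_simp; ring
          _ ≤ κ * σ ^ 2 * L' / 4 := by gcongr
      nlinarith
    have hL0 := abs_nonneg (L - L')
    have h0' : (1 / 2 + T' * I + σ : ℂ) = s' + σ := rfl
    rw [h0'] at h4
    calc |√L * Real.exp (-(q * L)) - √L' * Real.exp (-(q * L'))| * ‖xi (s' + σ)‖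
        ≤ (|L - L'| * (1 + √L' * q) * Real.exp (-(q * m))) *
          (C * size T' * (T' ^ (c / 16 - 1 / 8) * T') *
            Real.exp ((1 / c - κ) * σ ^ 2 * L')) := by
          gcongr
      _ ≤ ((4 * U / T') * ((1 + 8 / (c * κ)) * Real.exp (κ * σ ^ 2 * L' / 4)) *
          Real.exp (-(q * L') + κ * σ ^ 2 * L' / 4)) *
          (C * size T' * (T' ^ (c / 16 - 1 / 8) * T') *
            Real.exp ((1 / c - κ) * σ ^ 2 * L')) := by
          gcongr
      _ = (C * (4 * U) * (1 + 8 / (c * κ)) * (size T' * T' ^ (c / 16 - 1 / 8))) *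
          (Real.exp (κ * σ ^ 2 * L' / 4) * Real.exp (-(q * L') + κ * σ ^ 2 * L' / 4) *
            Real.exp ((1 / c - κ) * σ ^ 2 * L')) := by
          field_simp
      _ = (C * (4 * U) * (1 + 8 / (c * κ)) * (size T' * T' ^ (c / 16 - 1 / 8))) *
          Real.exp (-(κ / 2) * σ ^ 2 * L') := by
          rw [← Real.exp_add, ← Real.exp_add]
          congr 2
          rw [hq]
          field_simp
          ring
      _ ≤ (C * (4 * U) * (1 + 8 / (c * κ)) * (size T' * T' ^ (c / 16 - 1 / 8))) *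
          Real.exp (-(κ / 4) * σ ^ 2) := by
          apply mul_le_mul_of_nonneg_left _ (by positivity)
          rw [Real.exp_le_exp]
          have h7 : 0 ≤ κ * σ ^ 2 := by positivity
          nlinarith
  have h3 := norm_gauss_le (by positivity : 0 < κ / 4) h2
  rw [norm_mul, norm_mul, norm_inv, Complex.norm_real, Real.norm_eq_abs,
    abs_of_nonneg (Real.sqrt_nonneg _), Complex.norm_real, Real.norm_eq_abs,
    abs_of_nonneg (by positivity : 0 ≤ (√c)⁻¹)]
  calc (√Real.pi)⁻¹ * (√c)⁻¹ * _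
      ≤ (√Real.pi)⁻¹ * (√c)⁻¹ * ((C * (4 * U) * (1 + 8 / (c * κ)) *
          (size T' * T' ^ (c / 16 - 1 / 8))) * √(Real.pi / (κ / 4))) := by gcongr
    _ = _ := by rw [hD]; ring

end Pool.Agent.DBN
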