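import Mathlib

/-!
# The Kusmin-Landau inequality and the second derivative test, discrete form
-/

set_option autoImplicit false

namespace Pool.Agent.DBN

open Complex Finset

lemma sin_ge_div_pi {δ y : ℝ} (h1 : δ / 2 ≤ y) (h2 : y ≤ Real.pi - δ / 2) (hδ : 0 < δ) :
    δ / Real.pi ≤ Real.sin y := by
  have hπ := Real.pi_pos
  rcases le_total y (Real.pi / 2) with h | h
  · have h3 := Real.mul_le_sin (by linarith : 0 ≤ y) h
    have h4 : δ / Real.pi ≤ 2 / Real.pi * y := by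
      rw [div_mul_eq_mul_div, div_le_div_iff_of_pos_right hπ]
      linarith
    exact h4.trans h3
  · have h3 := Real.mul_le_sin (by linarith : 0 ≤ Real.pi - y) (by linarith)
    rw [Real.sin_pi_sub] at h3
    have h4 : δ / Real.pi ≤ 2 / Real.pi * (Real.pi - y) := by
      rw [div_mul_eq_mul_div, div_le_div_iff_of_pos_right hπ]
      linarith
    exact h4.trans h3

/-- `cot (x / 2)` -/
noncomputable def ct (x : ℝ) : ℝ := Real.cos (x / 2) / Real.sin (x / 2)

lemma ct_abs_le {δ x : ℝ} (hδ : 0 < δ) (h1 : δ ≤ x) (h2 : x ≤ 2 * Real.pi - δ) :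
    |ct x| ≤ Real.pi / δ := by
  have hπ := Real.pi_pos
  have h3 := sin_ge_div_pi (y := x / 2) (by linarith) (by linarith) hδ
  have h4 : 0 < Real.sin (x / 2) := lt_of_lt_of_le (by positivity) h3
  unfold ct
  rw [abs_div, abs_of_pos h4, div_le_iff₀ h4]
  calc |Real.cos (x / 2)| ≤ 1 := Real.abs_cos_le_one _
    _ = Real.pi / δ * (δ / Real.pi) := by field_simp
    _ ≤ Real.pi / δ * Real.sin (x / 2) := by gcongr

lemma ct_anti {δ a b : ℝ} (hδ : 0 < δ) (h1 : δ ≤ a) (h2 : b ≤ 2 * Real.pi - δ) (hab : a ≤ b) :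
    ct b ≤ ct a := by
  have hπ := Real.pi_pos
  have ha : 0 < Real.sin (a / 2) :=
    lt_of_lt_of_le (by positivity) (sin_ge_div_pi (y := a / 2) (by linarith) (by linarith) hδ)
  have hb : 0 < Real.sin (b / 2) :=
    lt_of_lt_of_le (by positivity) (sin_ge_div_pi (y := b / 2) (by linarith) (by linarith) hδ)
  unfold ct
  rw [div_le_div_iff₀ hb ha]
  have h3 : 0 ≤ Real.sin (b / 2 - a / 2) :=
    Real.sin_nonneg_of_nonneg_of_le_pi (by linarith) (by linarith)
  rw [Real.sin_sub] at h3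
  linarith

lemma exp_sub_one_eq {x : ℝ} (hs : Real.sin (x / 2) ≠ 0) :
    (exp (x * I) - 1) * (-(1 / 2) - (ct x / 2 : ℝ) * I) = 1 := by
  have h1 : exp (x * I) = (Real.cos x : ℂ) + Real.sin x * I := by
    rw [Complex.exp_mul_I]; push_cast; rfl
  have h4 : Real.sin (x / 2) ^ 2 + Real.cos (x / 2) ^ 2 = 1 := Real.sin_sq_add_cos_sq (x / 2)
  have h2 : Real.cos x = 1 - 2 * Real.sin (x / 2) ^ 2 := by
    have h5 : Real.cos x = Real.cos (2 * (x / 2)) := by congr 1; ring
    rw [h5, Real.cos_two_mul]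
    linarith
  have h3 : Real.sin x = 2 * Real.sin (x / 2) * Real.cos (x / 2) := by
    rw [← Real.sin_two_mul]; congr 1; ring
  have h6 : (exp (x * I) - 1) * (-(1 / 2) - (ct x / 2 : ℝ) * I) =
      ((-(Real.cos x - 1) / 2 + Real.sin x * (ct x / 2) : ℝ) : ℂ) +
        ((-(Real.cos x - 1) * (ct x / 2) - Real.sin x / 2 : ℝ) : ℂ) * I := by
    rw [h1]
    push_cast
    linear_combination (-(Complex.sin x : ℂ) * (ct x) / 2) * Complex.I_sq
  have e1 : -(Real.cos x - 1) / 2 + Real.sin x * (ct x / 2) = 1 := by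
    rw [h2, h3]
    unfold ct
    field_simp
    linarith
  have e2 : -(Real.cos x - 1) * (ct x / 2) - Real.sin x / 2 = 0 := by
    rw [h2, h3]
    unfold ct
    field_simp
    ring
  rw [h6, e1, e2]
  simp

lemma abel_id (w z : ℕ → ℂ) (M : ℕ) :
    ∑ n ∈ range (M + 1), w n * (z (n + 1) - z n) =
      w M * z (M + 1) - w 0 * z 0 - ∑ n ∈ range M, (w (n + 1) - w n) * z (n + 1) := by
  induction M with
  | zero => simp; ring
  | succ M ih =>
    rw [sum_range_succ, ih, sum_range_succ _ M]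
    ring

/-- Kusmin-Landau -/
theorem kusmin {m : ℕ} {θ : ℕ → ℝ} {δ : ℝ} (hδ : 0 < δ) (hδπ : δ ≤ Real.pi)
    (h1 : ∀ n, n + 1 < m → δ ≤ θ (n + 1) - θ n ∧ θ (n + 1) - θ n ≤ 2 * Real.pi - δ)
    (h2 : ∀ n, n + 2 < m → θ (n + 1) - θ n ≤ θ (n + 2) - θ (n + 1)) :
    ‖∑ n ∈ range m, exp (θ n * I)‖ ≤ 13 / δ := by
  have hπ := Real.pi_pos
  have hπ2 := Real.pi_lt_d2
  have h13 : 1 ≤ 13 / δ := by rw [le_div_iff₀ hδ]; linarith
  rcases Nat.lt_or_ge m 2 with hm | hm
  · interval_cases m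
    · simp; positivity
    · simp only [range_one, sum_singleton, Complex.norm_exp_ofReal_mul_I]
      exact h13
  obtain ⟨M, rfl⟩ : ∃ M, m = M + 2 := ⟨m - 2, by omega⟩
  set d : ℕ → ℝ := fun n => θ (n + 1) - θ n with hd
  set z : ℕ → ℂ := fun n => exp (θ n * I) with hz
  set w : ℕ → ℂ := fun n => -(1 / 2) - (ct (d n) / 2 : ℝ) * I with hw
  have hzn : ∀ n, ‖z n‖ = 1 := fun n => Complex.norm_exp_ofReal_mul_I _
  have hd1 : ∀ n, n ≤ M → δ ≤ d n ∧ d n ≤ 2 * Real.pi - δ := fun n hn => h1 n (by omega)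
  have hd2 : ∀ n, n < M → d n ≤ d (n + 1) := fun n hn => h2 n (by omega)
  have hwz : ∀ n, n ≤ M → z n = w n * (z (n + 1) - z n) := by
    intro n hn
    have h3 := hd1 n hn
    have hs : Real.sin (d n / 2) ≠ 0 := by
      have := sin_ge_div_pi (y := d n / 2) (by linarith [h3.1]) (by linarith [h3.2]) hδ
      have h4 : 0 < δ / Real.pi := by positivity
      linarith
    have h4 := exp_sub_one_eq hs
    have h5 : z (n + 1) = z n * exp (d n * I) := by
      simp only [hz, hd]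
      rw [← Complex.exp_add]
      congr 1
      push_cast
      ring
    have h6 : w n * (z (n + 1) - z n) = z n * ((exp (d n * I) - 1) * w n) := by
      rw [h5]; ring
    rw [h6, hw]
    simp only
    rw [h4, mul_one]
  have h3 : ∑ n ∈ range (M + 1), z n = ∑ n ∈ range (M + 1), w n * (z (n + 1) - z n) := by
    apply sum_congr rfl
    intro n hn
    exact hwz n (by have := mem_range.mp hn; omega)
  have hwn : ∀ n, n ≤ M → ‖w n‖ ≤ 1 / 2 + Real.pi / δ / 2 := by
    intro n hn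
    have h4 := ct_abs_le hδ (hd1 n hn).1 (hd1 n hn).2
    calc ‖w n‖ ≤ ‖(-(1 / 2) : ℂ)‖ + ‖((ct (d n) / 2 : ℝ) : ℂ) * I‖ := norm_sub_le _ _
      _ = 1 / 2 + |ct (d n)| / 2 := by
          rw [norm_mul, Complex.norm_I, mul_one, Complex.norm_real, Real.norm_eq_abs, abs_div,
            abs_of_pos (by norm_num : (0 : ℝ) < 2)]
          norm_num
      _ ≤ _ := by linarith
  have hdiff : ∀ n, n < M → ‖(w (n + 1) - w n) * z (n + 1)‖ = (ct (d n) - ct (d (n + 1))) / 2 := by
    intro n hn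
    rw [norm_mul, hzn, mul_one]
    have h4 : w (n + 1) - w n = (((ct (d n) - ct (d (n + 1))) / 2 : ℝ) : ℂ) * I := by
      simp only [hw]
      push_cast
      ring
    have h5 := ct_anti hδ (hd1 n hn.le).1 (hd1 (n + 1) hn).2 (hd2 n hn)
    rw [h4, norm_mul, Complex.norm_I, mul_one, Complex.norm_real, Real.norm_eq_abs,
      abs_of_nonneg (by linarith)]
  have h4 : ‖∑ n ∈ range M, (w (n + 1) - w n) * z (n + 1)‖ ≤ Real.pi / δ := by
    calc ‖∑ n ∈ range M, (w (n + 1) - w n) * z (n + 1)‖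
        ≤ ∑ n ∈ range M, ‖(w (n + 1) - w n) * z (n + 1)‖ := norm_sum_le _ _
      _ = ∑ n ∈ range M, (ct (d n) / 2 - ct (d (n + 1)) / 2) := by
          apply sum_congr rfl
          intro n hn
          rw [hdiff n (mem_range.mp hn)]
          ring
      _ = ct (d 0) / 2 - ct (d M) / 2 := sum_range_sub' (fun n => ct (d n) / 2) M
      _ ≤ Real.pi / δ := by
          have h5 := abs_le.mp (ct_abs_le hδ (hd1 0 (Nat.zero_le _)).1 (hd1 0 (Nat.zero_le _)).2)
          have h6 := abs_le.mp (ct_abs_le hδ (hd1 M le_rfl).1 (hd1 M le_rfl).2)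
          linarith [h5.2, h6.1]
  have h5 : ‖∑ n ∈ range (M + 1), z n‖ ≤ 1 + 2 * (Real.pi / δ) := by
    rw [h3, abel_id]
    have h6 := hwn M le_rfl
    have h7 := hwn 0 (Nat.zero_le _)
    calc ‖w M * z (M + 1) - w 0 * z 0 - ∑ n ∈ range M, (w (n + 1) - w n) * z (n + 1)‖
        ≤ ‖w M * z (M + 1)‖ + ‖w 0 * z 0‖ +
          ‖∑ n ∈ range M, (w (n + 1) - w n) * z (n + 1)‖ := by
          refine (norm_sub_le _ _).trans ?_
          gcongr
          exact norm_sub_le _ _
      _ ≤ (1 / 2 + Real.pi / δ / 2) + (1 / 2 + Real.pi / δ / 2) + Real.pi / δ := by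
          rw [norm_mul, norm_mul, hzn, hzn, mul_one, mul_one]
          gcongr
      _ = _ := by ring
  rw [sum_range_succ]
  calc ‖∑ n ∈ range (M + 1), z n + exp (θ (M + 1) * I)‖
      ≤ ‖∑ n ∈ range (M + 1), z n‖ + 1 := by
        refine (norm_add_le _ _).trans ?_
        rw [Complex.norm_exp_ofReal_mul_I]
    _ ≤ 1 + 2 * (Real.pi / δ) + 1 := by gcongr
    _ ≤ 13 / δ := by
        have h6 : 1 ≤ Real.pi / δ := (one_le_div hδ).mpr hδπ
        have h7 : Real.pi / δ ≤ 3.15 / δ := by gcongr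
        have h8 : 4 * (3.15 / δ) ≤ 13 / δ := by
          rw [← mul_div_assoc]
          gcongr
          norm_num
        linarith

end Pool.Agent.DBN
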