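import Pool.Agent.DBN.Gauss

/-!
# A Phragmén-Lindelöf bound in a vertical strip for functions of slow growth
-/

set_option autoImplicit false

namespace Pool.Agent.DBN

open Complex Set Filter Topology Asymptotics

theorem pl_strip {G : ℂ → ℂ} (hG : Differentiable ℂ G) (hS : SubG G) {R κ l B : ℝ} (hR : 0 < R)
    (hκ : 0 < κ) (hB : 0 ≤ B) (s₀ : ℂ)
    (h0 : ∀ v : ℝ, ‖G (s₀ + v * I)‖ * Real.exp (Real.pi * v / 4) ≤ B * Real.exp (κ * v ^ 2))
    (h1 : ∀ v : ℝ, ‖G (s₀ + R + v * I)‖ * Real.exp (Real.pi * v / 4) ≤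
      B * Real.exp (l * R) * Real.exp (κ * v ^ 2)) {σ : ℝ} (h2 : 0 ≤ σ) (h3 : σ ≤ R) :
    ‖G (s₀ + σ)‖ ≤ B * Real.exp (l * σ) * Real.exp (κ * R ^ 2) := by
  set g : ℂ → ℂ := fun z => G (s₀ + z) * Complex.exp (-(I * Real.pi * z / 4)) *
    Complex.exp (κ * z ^ 2) * Complex.exp (-(l * z)) with hg
  have hgn : ∀ z : ℂ, ‖g z‖ = ‖G (s₀ + z)‖ * Real.exp (Real.pi * z.im / 4) *
      Real.exp (κ * (z.re ^ 2 - z.im ^ 2)) * Real.exp (-(l * z.re)) := by
    intro z
    simp only [hg]
    rw [norm_mul, norm_mul, norm_mul, Complex.norm_exp, Complex.norm_exp, Complex.norm_exp]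
    have e1 : (-(I * Real.pi * z / 4)).re = Real.pi * z.im / 4 := by
      have : -(I * Real.pi * z / 4) = ((-(Real.pi / 4) : ℝ) : ℂ) * (I * z) := by push_cast; ring
      rw [this, Complex.re_ofReal_mul]
      simp
      ring
    have e2 : ((κ : ℂ) * z ^ 2).re = κ * (z.re ^ 2 - z.im ^ 2) := by
      rw [Complex.re_ofReal_mul, pow_two, Complex.mul_re]
      ring
    have e3 : (-((l : ℂ) * z)).re = -(l * z.re) := by
      rw [Complex.neg_re, Complex.re_ofReal_mul]
    rw [e1, e2, e3]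
  have hgd : Differentiable ℂ g := by
    have hG1 : Differentiable ℂ fun z => G (s₀ + z) := hG.comp (by fun_prop)
    fun_prop
  obtain ⟨C, hC, hb⟩ := (hS.affine s₀ 1) (κ / 2) (by positivity)
  have hb' : ∀ z : ℂ, ‖G (s₀ + z)‖ ≤ C * Real.exp (κ / 2 * ‖z‖ ^ 2) := by
    intro z
    have := hb z
    simpa using this
  -- boundedness in the strip
  set C' : ℝ := C * Real.exp (3 / 2 * κ * R ^ 2 + |l| * R + Real.pi ^ 2 / (8 * κ)) with hC'
  have hbdd : ∀ z : ℂ, 0 ≤ z.re → z.re ≤ R → ‖g z‖ ≤ C' := by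
    intro z hz0 hzR
    rw [hgn]
    calc ‖G (s₀ + z)‖ * Real.exp (Real.pi * z.im / 4) * Real.exp (κ * (z.re ^ 2 - z.im ^ 2)) *
          Real.exp (-(l * z.re))
        ≤ C * Real.exp (κ / 2 * ‖z‖ ^ 2) * Real.exp (Real.pi * z.im / 4) *
          Real.exp (κ * (z.re ^ 2 - z.im ^ 2)) * Real.exp (-(l * z.re)) := by
          gcongr
          exact hb' z
      _ = C * Real.exp (κ / 2 * ‖z‖ ^ 2 + Real.pi * z.im / 4 + κ * (z.re ^ 2 - z.im ^ 2) +
          -(l * z.re)) := by
          rw [Real.exp_add, Real.exp_add, Real.exp_add]; ring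
      _ ≤ C' := by
          rw [hC']
          apply mul_le_mul_of_nonneg_left _ hC
          rw [Real.exp_le_exp]
          have e1 : ‖z‖ ^ 2 = z.re ^ 2 + z.im ^ 2 := by
            rw [← Complex.normSq_eq_norm_sq, Complex.normSq_apply]; ring
          have e2 : z.re ^ 2 ≤ R ^ 2 := by gcongr
          have e3 : -(l * z.re) ≤ |l| * R := by
            have h5 : -(l * z.re) ≤ |l| * z.re := by
              have := neg_abs_le l
              nlinarith
            have h6 : |l| * z.re ≤ |l| * R := by gcongr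
            linarith
          have e4 : Real.pi * z.im / 4 - κ / 2 * z.im ^ 2 ≤ Real.pi ^ 2 / (8 * κ) := by
            have h5 : 0 ≤ (κ * z.im - Real.pi / 4) ^ 2 / (2 * κ) := by positivity
            have h6 : (κ * z.im - Real.pi / 4) ^ 2 / (2 * κ) =
                κ / 2 * z.im ^ 2 - Real.pi * z.im / 4 + Real.pi ^ 2 / (32 * κ) := by
              field_simp
              ring
            have h7 : Real.pi ^ 2 / (32 * κ) ≤ Real.pi ^ 2 / (8 * κ) := by
              gcongr
              norm_num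
            linarith
          rw [e1]
          nlinarith
  have hpl : ‖g (σ : ℂ)‖ ≤ B * Real.exp (κ * R ^ 2) := by
    refine PhragmenLindelof.vertical_strip (a := 0) (b := R) (f := g) (z := (σ : ℂ))
      hgd.diffContOnCl ?_ ?_ ?_ (by simpa using h2) (by simpa using h3)
    · refine ⟨0, by rw [sub_zero]; positivity, 0, ?_⟩
      refine IsBigO.of_bound C' ?_
      rw [eventually_inf_principal]
      refine Eventually.of_forall fun z hz => ?_
      simp only [zero_mul, Real.exp_zero, norm_one, mul_one]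
      exact hbdd z (le_of_lt hz.1) (le_of_lt hz.2)
    · intro z hz
      have h5 : z = z.im * I := by
        apply Complex.ext <;> simp [hz]
      have h6 := h0 z.im
      rw [← h5] at h6
      rw [hgn, hz]
      have h7 : Real.exp (κ * ((0 : ℝ) ^ 2 - z.im ^ 2)) = (Real.exp (κ * z.im ^ 2))⁻¹ := by
        rw [← Real.exp_neg]; congr 1; ring
      rw [h7]
      simp only [mul_zero, neg_zero, Real.exp_zero, mul_one]
      rw [← div_eq_mul_inv, div_le_iff₀ (Real.exp_pos _)]
      refine h6.trans ?_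
      have h8 : 1 ≤ Real.exp (κ * R ^ 2) := Real.one_le_exp (by positivity)
      have h9 : 0 ≤ B * Real.exp (κ * z.im ^ 2) := by positivity
      nlinarith
    · intro z hz
      have h5 : s₀ + z = s₀ + R + z.im * I := by
        have : z = R + z.im * I := by apply Complex.ext <;> simp [hz]
        rw [add_assoc, ← this]
      have h6 := h1 z.im
      rw [← h5] at h6
      rw [hgn, hz]
      have h7 : Real.exp (κ * (R ^ 2 - z.im ^ 2)) =
          Real.exp (κ * R ^ 2) * (Real.exp (κ * z.im ^ 2))⁻¹ := by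
        rw [← Real.exp_neg, ← Real.exp_add]; congr 1; ring
      have h8 : Real.exp (-(l * R)) = (Real.exp (l * R))⁻¹ := Real.exp_neg _
      rw [h7, h8]
      have h9 : 0 < Real.exp (κ * z.im ^ 2) := Real.exp_pos _
      have h10 : 0 < Real.exp (l * R) := Real.exp_pos _
      calc ‖G (s₀ + z)‖ * Real.exp (Real.pi * z.im / 4) *
            (Real.exp (κ * R ^ 2) * (Real.exp (κ * z.im ^ 2))⁻¹) * (Real.exp (l * R))⁻¹
          ≤ (B * Real.exp (l * R) * Real.exp (κ * z.im ^ 2)) *
            (Real.exp (κ * R ^ 2) * (Real.exp (κ * z.im ^ 2))⁻¹) * (Real.exp (l * R))⁻¹ := by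
            gcongr
        _ = B * Real.exp (κ * R ^ 2) := by field_simp
  rw [hgn] at hpl
  simp only [Complex.ofReal_im, Complex.ofReal_re, mul_zero, zero_div, Real.exp_zero, mul_one] at hpl
  have h7 : Real.exp (-(l * σ)) = (Real.exp (l * σ))⁻¹ := Real.exp_neg _
  rw [h7] at hpl
  have h8 : 1 ≤ Real.exp (κ * (σ ^ 2 - 0 ^ 2)) := Real.one_le_exp (by simp; positivity)
  have h10 : 0 < Real.exp (l * σ) := Real.exp_pos _
  have h11 : ‖G (s₀ + σ)‖ * (Real.exp (l * σ))⁻¹ ≤ B * Real.exp (κ * R ^ 2) := by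
    refine le_trans ?_ hpl
    calc ‖G (s₀ + σ)‖ * (Real.exp (l * σ))⁻¹ = ‖G (s₀ + σ)‖ * 1 * (Real.exp (l * σ))⁻¹ := by ring
      _ ≤ _ := by gcongr
  rw [← div_eq_mul_inv, div_le_iff₀ h10] at h11
  linarith

end Pool.Agent.DBN
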