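import Pool.Agent.DBN.Good
import Pool.Agent.DBN.PL
import Pool.Agent.DBN.ShiftNeg
import Pool.Agent.DBN.Vert
import Pool.Agent.DBN.Glob

/-!
# Negative times: from the flow back to zeta
-/

set_option autoImplicit false

namespace Pool.Agent.DBN

open Complex MeasureTheory Set Filter Topology

/-- the flow at the time `c / log T`, `c < 0`, on the critical line near the height `T` -/
lemma flow_line_neg {c A : ℝ} (hc : c < 0) (hA : 0 ≤ A) (h : GrowthLe c A) {ε κ : ℝ}
    (hε : 0 < ε) (hκ : 0 < κ) : ∃ C T₀ : ℝ, 0 ≤ C ∧ 2 ≤ T₀ ∧ ∀ T v : ℝ, T₀ ≤ T →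
      ‖flow (c / Real.log T) (1 / 2 + T * I + v * I)‖ * Real.exp (Real.pi * v / 4) ≤
        C * size T * T ^ (A + ε) * Real.exp (κ * Real.log T * v ^ 2) := by
  obtain ⟨C₁, K, hC₁, hK, h1⟩ := flow_glob hc (κ := κ / 2) (by positivity)
  set U : ℝ := 4 * K / κ + 8 / κ + 1 with hU
  have hU0 : 1 ≤ U := by
    have : 0 ≤ 4 * K / κ + 8 / κ := by positivity
    linarith
  obtain ⟨C₂, T₂, hC₂, hT₂, h2⟩ := time_shift_neg hc U (by linarith)
  obtain ⟨C₃, h3⟩ := h ε hε
  set P : ℝ := 2 ^ |A + ε| with hP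
  have hP0 : 0 < P := by positivity
  refine ⟨C₁ + (|C₃| + C₂) * (2 ^ (7 / 4 : ℝ) * P), max T₂ (2 * U + 2), by positivity,
    hT₂.trans (le_max_left _ _), ?_⟩
  intro T v hT
  have hT1 : T₂ ≤ T := (le_max_left _ _).trans hT
  have hT3 : 2 * U + 2 ≤ T := (le_max_right _ _).trans hT
  have hT2 : 2 ≤ T := by linarith
  have hT0 : 0 < T := by linarith
  have hs0 := size_pos hT0
  set L := Real.log T with hL
  have hL2 : 1 / 2 ≤ L := log_two_ge.trans (Real.log_le_log (by norm_num) hT2)
  have hπ := Real.pi_pos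
  have hπ4 := Real.pi_lt_four
  rcases le_total U |v| with hv | hv
  · have h4 := h1 T (v * I) hT2
    have e1 : ‖(v * I : ℂ)‖ ^ 2 = v ^ 2 := by
      rw [norm_mul, Complex.norm_I, mul_one, Complex.norm_real, Real.norm_eq_abs, sq_abs]
    rw [e1, ← hL] at h4
    have h5 : T ^ K * Real.exp (κ / 2 * v ^ 2 * L) * Real.exp (Real.pi * v / 4) ≤
        T ^ (A + ε) * Real.exp (κ * L * v ^ 2) := by
      have h6 : 1 ≤ T ^ (A + ε) := Real.one_le_rpow (by linarith) (by linarith)
      have h7 : T ^ K * Real.exp (κ / 2 * v ^ 2 * L) * Real.exp (Real.pi * v / 4) ≤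
          Real.exp (κ * L * v ^ 2) := by
        rw [Real.rpow_def_of_pos hT0, ← Real.exp_add, ← Real.exp_add, Real.exp_le_exp, ← hL]
        have h8 : v ^ 2 = |v| ^ 2 := (sq_abs v).symm
        have h9 : v ≤ |v| := le_abs_self v
        have hv0 : 0 ≤ |v| := abs_nonneg v
        have hv1 : 1 ≤ |v| := hU0.trans hv
        have h10 : 4 * K / κ + 8 / κ ≤ |v| := by linarith
        have h11 : 4 * K + 8 ≤ κ * |v| := by
          have : κ * (4 * K / κ + 8 / κ) = 4 * K + 8 := by field_simp
          nlinarith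
        have h12 : (4 * K + 8) * |v| ≤ κ * v ^ 2 := by rw [h8]; nlinarith
        have h13 : Real.pi * v / 4 ≤ |v| := by nlinarith
        have h14 : (4 * K + 8) * |v| * L ≤ κ * v ^ 2 * L := by gcongr
        have h15 : L * K ≤ K * |v| * L := by nlinarith [mul_nonneg hK (by linarith : 0 ≤ L)]
        have h16 : |v| ≤ 2 * |v| * L := by nlinarith
        have h17 : 0 ≤ K * |v| * L := by positivity
        nlinarith
      have hp := Real.exp_pos (κ * L * v ^ 2)
      nlinarith
    calc ‖flow (c / L) (1 / 2 + T * I + v * I)‖ * Real.exp (Real.pi * v / 4)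
        ≤ (C₁ * size T * T ^ K * Real.exp (κ / 2 * v ^ 2 * L)) *
          Real.exp (Real.pi * v / 4) := by gcongr
      _ = C₁ * size T * (T ^ K * Real.exp (κ / 2 * v ^ 2 * L) *
          Real.exp (Real.pi * v / 4)) := by ring
      _ ≤ C₁ * size T * (T ^ (A + ε) * Real.exp (κ * L * v ^ 2)) := by gcongr
      _ ≤ (C₁ + (|C₃| + C₂) * (2 ^ (7 / 4 : ℝ) * P)) * size T *
          (T ^ (A + ε) * Real.exp (κ * L * v ^ 2)) := by
          gcongr
          have : 0 ≤ (|C₃| + C₂) * (2 ^ (7 / 4 : ℝ) * P) := by positivity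
          linarith
      _ = _ := by ring
  · set T' := T + v with hT'
    have hTT : |T' - T| ≤ U := by simpa [hT'] using hv
    obtain ⟨hT'2, h4⟩ := h2 T T' hT1 hTT
    have hT'0 : 0 < T' := by linarith
    have hs0' := size_pos hT'0
    have h5 := h3 T' hT'2
    have habs := abs_le.mp hTT
    have hlow : T / 2 ≤ T' := by linarith
    have hup : T' ≤ 2 * T := by linarith
    have e1 : (1 / 2 + T * I + v * I : ℂ) = 1 / 2 + T' * I := by
      rw [hT']; push_cast; ring
    rw [e1]
    have h6 : ‖flow (c / L) (1 / 2 + T' * I)‖ ≤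
        (|C₃| + C₂) * (size T' * T' ^ (A + ε)) := by
      have h7 : flow (c / L) (1 / 2 + T' * I) = flow (c / Real.log T') (1 / 2 + T' * I) +
          (flow (c / L) (1 / 2 + T' * I) - flow (c / Real.log T') (1 / 2 + T' * I)) := by ring
      rw [h7]
      refine (norm_add_le _ _).trans ?_
      have h9 : T' ^ (-(1 / 8) : ℝ) ≤ T' ^ (A + ε) :=
        Real.rpow_le_rpow_of_exponent_le (by linarith) (by linarith)
      have hp1 : 0 < T' ^ (A + ε) := by positivity
      calc ‖flow (c / Real.log T') (1 / 2 + T' * I)‖ +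
            ‖flow (c / L) (1 / 2 + T' * I) - flow (c / Real.log T') (1 / 2 + T' * I)‖
          ≤ |C₃| * T' ^ (A + ε) * size T' + C₂ * size T' * T' ^ (A + ε) := by
            apply add_le_add
            · refine h5.trans ?_
              apply mul_le_mul_of_nonneg_right _ hs0'.le
              exact mul_le_mul_of_nonneg_right (le_abs_self _) hp1.le
            · refine h4.trans ?_
              gcongr
        _ = _ := by ring
    have h7 : size T' * Real.exp (Real.pi * v / 4) ≤ 2 ^ (7 / 4 : ℝ) * size T := by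
      unfold size
      have h8 := rpow_shift_le hT0 hlow hup (7 / 4)
      rw [abs_of_pos (by norm_num : (0 : ℝ) < 7 / 4)] at h8
      have e2 : Real.exp (-(Real.pi * T' / 4)) * Real.exp (Real.pi * v / 4) =
          Real.exp (-(Real.pi * T / 4)) := by
        rw [← Real.exp_add]
        congr 1
        rw [hT']
        ring
      calc T' ^ (7 / 4 : ℝ) * Real.exp (-(Real.pi * T' / 4)) * Real.exp (Real.pi * v / 4)
          = T' ^ (7 / 4 : ℝ) * (Real.exp (-(Real.pi * T' / 4)) *
            Real.exp (Real.pi * v / 4)) := by ring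
        _ ≤ (2 ^ (7 / 4 : ℝ) * T ^ (7 / 4 : ℝ)) * Real.exp (-(Real.pi * T / 4)) := by
            rw [e2]
            gcongr
        _ = _ := by ring
    have h8 : T' ^ (A + ε) ≤ P * T ^ (A + ε) := rpow_shift_le hT0 hlow hup _
    have h9 : 1 ≤ Real.exp (κ * L * v ^ 2) := Real.one_le_exp (by positivity)
    have hE := Real.exp_pos (Real.pi * v / 4)
    calc ‖flow (c / L) (1 / 2 + T' * I)‖ * Real.exp (Real.pi * v / 4)
        ≤ ((|C₃| + C₂) * (size T' * T' ^ (A + ε))) * Real.exp (Real.pi * v / 4) := by gcongr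
      _ = (|C₃| + C₂) * ((size T' * Real.exp (Real.pi * v / 4)) * T' ^ (A + ε)) := by ring
      _ ≤ (|C₃| + C₂) * ((2 ^ (7 / 4 : ℝ) * size T) * (P * T ^ (A + ε))) := by gcongr
      _ = ((|C₃| + C₂) * (2 ^ (7 / 4 : ℝ) * P)) * (size T * T ^ (A + ε)) * 1 := by ring
      _ ≤ (C₁ + (|C₃| + C₂) * (2 ^ (7 / 4 : ℝ) * P)) * (size T * T ^ (A + ε)) *
          Real.exp (κ * L * v ^ 2) := by
          gcongr
          linarith
      _ = _ := by ring

/-- convexity: the flow at the time `c / log T`, `c < 0`, to the right and left of the line -/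
theorem flow_strip_neg {c A : ℝ} (hc : c < 0) (hA : 0 ≤ A) (h : GrowthLe c A) {R : ℝ}
    (hR : 1 ≤ R) {ε : ℝ} (hε : 0 < ε) : ∃ C T₀ : ℝ, 0 ≤ C ∧ 2 ≤ T₀ ∧ ∀ T σ : ℝ, T₀ ≤ T →
      |σ| ≤ R → ‖flow (c / Real.log T) (1 / 2 + T * I + σ)‖ ≤
        C * size T * T ^ (A + |σ| / 2 + ε) := by
  set κ : ℝ := ε / (2 * R ^ 2) with hκ
  have hκ0 : 0 < κ := by positivity
  obtain ⟨C₁, T₁, hC₁, hT₁, h1⟩ := flow_line_neg hc hA h (ε := ε / 2) (by positivity) hκ0
  obtain ⟨C₂, T₂, hC₂, hT₂, h2⟩ := flow_right hc hR (κ := κ / 2) (by positivity)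
  set E : ℝ := Real.exp (Real.pi ^ 2 / (16 * κ)) with hE
  have hE0 : 0 < E := Real.exp_pos _
  refine ⟨C₁ + C₂ * E, max T₁ T₂, by positivity, hT₁.trans (le_max_left _ _), ?_⟩
  have key : ∀ T σ : ℝ, max T₁ T₂ ≤ T → 0 ≤ σ → σ ≤ R →
      ‖flow (c / Real.log T) (1 / 2 + T * I + σ)‖ ≤
        (C₁ + C₂ * E) * size T * T ^ (A + σ / 2 + ε) := by
    intro T σ hT h0 hσ
    have hT1 : T₁ ≤ T := (le_max_left _ _).trans hT
    have hT2 : T₂ ≤ T := (le_max_right _ _).trans hT
    have hT22 : 2 ≤ T := by linarith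
    have hT0 : 0 < T := by linarith
    have hs0 := size_pos hT0
    set L := Real.log T with hL
    have hL2 : 1 / 2 ≤ L := log_two_ge.trans (Real.log_le_log (by norm_num) hT22)
    have hL0 : 0 < L := by linarith
    have ht : c / L ≤ 0 := div_nonpos_of_nonpos_of_nonneg hc.le hL0.le
    set B : ℝ := (C₁ + C₂ * E) * size T * T ^ (A + ε / 2) with hB
    have hB0 : 0 ≤ B := by positivity
    have h3 := pl_strip (differentiable_flow_neg ht) (subG_flow_neg ht) (R := R)
      (κ := κ * L) (l := L / 2) (B := B) (by linarith) (by positivity) hB0 (1 / 2 + T * I)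
      (fun v => by
        refine (h1 T v hT1).trans ?_
        rw [← hL, hB]
        gcongr
        have : 0 ≤ C₂ * E := by positivity
        linarith)
      (fun v => by
        have h4 := h2 T v hT2
        rw [← hL] at h4
        have h5 : Real.exp (κ / 2 * v ^ 2 * L) * Real.exp (Real.pi * v / 4) ≤
            E * Real.exp (κ * L * v ^ 2) := by
          rw [hE, ← Real.exp_add, ← Real.exp_add, Real.exp_le_exp]
          have h6 : Real.pi * v / 4 ≤ κ * v ^ 2 / 4 + Real.pi ^ 2 / (16 * κ) := by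
            have h7 : 0 ≤ (κ * v / 2 - Real.pi / 4) ^ 2 / κ := by positivity
            have h8 : (κ * v / 2 - Real.pi / 4) ^ 2 / κ =
                κ * v ^ 2 / 4 + Real.pi ^ 2 / (16 * κ) - Real.pi * v / 4 := by
              field_simp
              ring
            linarith
          have h7 : κ * v ^ 2 / 4 ≤ κ * v ^ 2 * L / 2 := by
            have : 0 ≤ κ * v ^ 2 := by positivity
            nlinarith
          nlinarith
        have h6 : 1 ≤ T ^ (A + ε / 2) := Real.one_le_rpow (by linarith) (by linarith)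
        have e1 : Real.exp (L / 2 * R) = T ^ (R / 2) := by
          rw [Real.rpow_def_of_pos hT0, ← hL]
          congr 1
          ring
        rw [e1]
        calc ‖flow (c / L) (1 / 2 + T * I + R + v * I)‖ * Real.exp (Real.pi * v / 4)
            ≤ (C₂ * size T * T ^ (R / 2) * Real.exp (κ / 2 * v ^ 2 * L)) *
              Real.exp (Real.pi * v / 4) := by gcongr
          _ = C₂ * size T * T ^ (R / 2) * (Real.exp (κ / 2 * v ^ 2 * L) *
              Real.exp (Real.pi * v / 4)) := by ring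
          _ ≤ C₂ * size T * T ^ (R / 2) * (E * Real.exp (κ * L * v ^ 2)) := by gcongr
          _ = (C₂ * E) * size T * 1 * T ^ (R / 2) * Real.exp (κ * L * v ^ 2) := by ring
          _ ≤ (C₁ + C₂ * E) * size T * T ^ (A + ε / 2) * T ^ (R / 2) *
              Real.exp (κ * L * v ^ 2) := by
              gcongr
              linarith
          _ = _ := by rw [hB])
      h0 hσ
    refine h3.trans_eq ?_
    have e2 : T ^ (A + ε / 2) * Real.exp (L / 2 * σ) * Real.exp (κ * L * R ^ 2) =
        T ^ (A + σ / 2 + ε) := by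
      rw [Real.rpow_def_of_pos hT0, Real.rpow_def_of_pos hT0, ← Real.exp_add, ← Real.exp_add,
        ← hL]
      congr 1
      rw [hκ]
      field_simp
      ring
    rw [hB, ← e2]
    ring
  intro T σ hT hσ
  rcases le_total 0 σ with h0 | h0
  · rw [abs_of_nonneg h0] at hσ ⊢
    exact key T σ hT h0 hσ
  · rw [abs_of_nonpos h0] at hσ ⊢
    have hT22 : 2 ≤ T := by linarith [(le_max_left T₁ T₂).trans hT]
    have ht : c / Real.log T ≤ 0 :=
      div_nonpos_of_nonpos_of_nonneg hc.le (log_pos_of hT22).le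
    have h3 := norm_flow_symm ht (-σ) T
    rw [neg_neg] at h3
    rw [h3]
    exact key T (-σ) hT (by linarith) hσ

/-- from negative times back to the critical line -/
theorem mu_of_growth_neg {c A : ℝ} (hc : c < 0) (hA : 0 ≤ A) (h : GrowthLe c A) :
    MuLe (1 / 2) (A - c / 16) := by
  have hc' : 0 < -c := by linarith
  apply mu_of_large
  intro ε hε
  obtain ⟨C₁, K, hC₁, hK, h1⟩ := flow_glob hc (κ := 1 / (4 * -c)) (by positivity)
  set R : ℝ := 1 + 4 * -c * K with hR
  have hR1 : 1 ≤ R := by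
    have : 0 ≤ 4 * -c * K := by positivity
    linarith
  obtain ⟨C₂, T₂, hC₂, hT₂, h2⟩ := flow_strip_neg hc hA h hR1 (ε := ε / 2) (by positivity)
  obtain ⟨C₀, hC₀, hxi⟩ := xi_two (1 / 2)
  set η : ℝ := min (1 / 2) (4 * ε / -c) with hη
  have hη0 : 0 < η := by positivity
  have hη1 : η ≤ 1 / 2 := min_le_left _ _
  have hη2 : η ≤ 4 * ε / -c := min_le_right _ _
  refine ⟨C₀ * ((√Real.pi)⁻¹ * ((C₁ + C₂) * √(Real.pi / η))), T₂, fun T hT hT2 => ?_⟩
  have hT0 : 0 < T := by linarith
  have hs0 := size_pos hT0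
  set L := Real.log T with hL
  have hL2 : 1 / 2 ≤ L := log_two_ge.trans (Real.log_le_log (by norm_num) hT2)
  have hL0 : 0 < L := by linarith
  set t : ℝ := -c / L with ht
  have ht0 : 0 < t := by positivity
  have htc : -t = c / L := by rw [ht]; ring
  set r := √t with hr
  have hr2 : r ^ 2 = t := Real.sq_sqrt ht0.le
  have hr0 : 0 < r := Real.sqrt_pos.mpr ht0
  have htL : t * L = -c := by rw [ht]; field_simp
  -- pointwise
  have h3 : ∀ y : ℝ, ‖(Real.exp (-y ^ 2) : ℂ) * flow (-t) (1 / 2 + T * I + r * y)‖ ≤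
      ((C₁ + C₂) * (size T * T ^ (A - c / 16 + ε))) * Real.exp (-η * y ^ 2) := by
    intro y
    rw [norm_mul, Complex.norm_real, Real.norm_eq_abs, abs_of_pos (Real.exp_pos _), htc]
    rcases le_total R |r * y| with hy | hy
    · have h4 := h1 T (r * y) hT2
      have e1 : ‖((r : ℂ) * y)‖ ^ 2 = t * y ^ 2 := by
        rw [norm_mul, Complex.norm_real, Complex.norm_real, Real.norm_eq_abs,
          Real.norm_eq_abs, mul_pow, sq_abs, sq_abs, hr2]
      rw [e1, ← hL] at h4
      have e2 : 1 / (4 * -c) * (t * y ^ 2) * L = y ^ 2 / 4 := by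
        have e3 : 1 / (4 * -c) * (t * y ^ 2) * L = 1 / (4 * -c) * (t * L) * y ^ 2 := by ring
        have hcne : c ≠ 0 := hc.ne
        rw [e3, htL]
        field_simp
      rw [e2] at h4
      have h5 : Real.exp (-y ^ 2) * (T ^ K * Real.exp (y ^ 2 / 4)) ≤
          T ^ (A - c / 16 + ε) * Real.exp (-η * y ^ 2) := by
        rw [Real.rpow_def_of_pos hT0, Real.rpow_def_of_pos hT0, ← Real.exp_add,
          ← Real.exp_add, ← Real.exp_add, Real.exp_le_exp, ← hL]
        have h6 : R ^ 2 ≤ t * y ^ 2 := by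
          rw [← hr2, ← mul_pow, ← sq_abs (r * y)]
          gcongr
        have h7 : 4 * -c * K ≤ t * y ^ 2 := by
          have : R ≤ R ^ 2 := by nlinarith
          linarith
        have h8 : 4 * -c * K * L ≤ -c * y ^ 2 := by
          calc 4 * -c * K * L ≤ t * y ^ 2 * L := by gcongr
            _ = t * L * y ^ 2 := by ring
            _ = -c * y ^ 2 := by rw [htL]
        have h9 : K * L ≤ y ^ 2 / 4 := by
          have h10 : -c * (4 * (K * L)) ≤ -c * y ^ 2 := by linarith
          have := le_of_mul_le_mul_left h10 hc'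
          linarith
        have h10 : 0 ≤ L * (A - c / 16 + ε) := by
          apply mul_nonneg hL0.le
          linarith
        have h11 : η * y ^ 2 ≤ 1 / 2 * y ^ 2 := by gcongr
        linarith
      calc Real.exp (-y ^ 2) * ‖flow (c / L) (1 / 2 + T * I + r * y)‖
          ≤ Real.exp (-y ^ 2) * (C₁ * size T * T ^ K * Real.exp (y ^ 2 / 4)) := by gcongr
        _ = C₁ * size T * (Real.exp (-y ^ 2) * (T ^ K * Real.exp (y ^ 2 / 4))) := by ring
        _ ≤ C₁ * size T * (T ^ (A - c / 16 + ε) * Real.exp (-η * y ^ 2)) := by gcongr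
        _ ≤ (C₁ + C₂) * size T * (T ^ (A - c / 16 + ε) * Real.exp (-η * y ^ 2)) := by
            gcongr
            linarith
        _ = _ := by ring
    · have h4 := h2 T (r * y) hT hy
      rw [← hL] at h4
      push_cast at h4
      have h5 : Real.exp (-y ^ 2) * T ^ (A + |r * y| / 2 + ε / 2) ≤
          T ^ (A - c / 16 + ε) * Real.exp (-η * y ^ 2) := by
        rw [Real.rpow_def_of_pos hT0, Real.rpow_def_of_pos hT0, ← Real.exp_add,
          ← Real.exp_add, Real.exp_le_exp, ← hL, abs_mul, abs_of_pos hr0]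
        set a := |y| with ha
        have ha2 : y ^ 2 = a ^ 2 := (sq_abs y).symm
        rw [ha2]
        -- r a L / 2 ≤ (1 - η) a² + (-c) L / (16 (1 - η))
        have h6 : L * (r * a / 2) ≤ (1 - η) * a ^ 2 + -c * L / (16 * (1 - η)) := by
          have h7 : 0 ≤ ((1 - η) * a - r * L / 4) ^ 2 / (1 - η) :=
            div_nonneg (sq_nonneg _) (by linarith)
          have h1η : (1 - η) ≠ 0 := by linarith
          have h8 : ((1 - η) * a - r * L / 4) ^ 2 / (1 - η) =
              (1 - η) * a ^ 2 + (r ^ 2 * L) * L / (16 * (1 - η)) - L * (r * a / 2) := by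
            field_simp
            ring
          rw [hr2, htL] at h8
          linarith
        have h7 : -c * L / (16 * (1 - η)) ≤ L * (-c / 16 + ε / 2) := by
          rw [div_le_iff₀ (by linarith)]
          have h8 : η * -c ≤ 4 * ε := by
            rw [le_div_iff₀ hc'] at hη2
            exact hη2
          have h9 : -c ≤ (-c / 16 + ε / 2) * (16 * (1 - η)) := by nlinarith
          nlinarith
        nlinarith
      calc Real.exp (-y ^ 2) * ‖flow (c / L) (1 / 2 + T * I + r * y)‖
          ≤ Real.exp (-y ^ 2) * (C₂ * size T * T ^ (A + |r * y| / 2 + ε / 2)) := by gcongr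
        _ = C₂ * size T * (Real.exp (-y ^ 2) * T ^ (A + |r * y| / 2 + ε / 2)) := by ring
        _ ≤ C₂ * size T * (T ^ (A - c / 16 + ε) * Real.exp (-η * y ^ 2)) := by gcongr
        _ ≤ (C₁ + C₂) * size T * (T ^ (A - c / 16 + ε) * Real.exp (-η * y ^ 2)) := by
            gcongr
            linarith
        _ = _ := by ring
  have h4 := norm_gauss_le hη0 h3
  have h5 : ‖xi (1 / 2 + T * I)‖ ≤ (√Real.pi)⁻¹ * (((C₁ + C₂) *
      (size T * T ^ (A - c / 16 + ε))) * √(Real.pi / η)) := by
    rw [xi_eq_flow ht0.le, norm_mul, norm_inv, Complex.norm_real, Real.norm_eq_abs,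
      abs_of_nonneg (Real.sqrt_nonneg _)]
    gcongr
  have h6 := (hxi (1 / 2) T (by rw [abs_of_pos (by norm_num)]) hT2).2
  have e1 : ((1 / 2 : ℝ) - 1 / 2) / 2 = 0 := by norm_num
  rw [e1, Real.rpow_zero, one_mul] at h6
  have e2 : (((1 / 2 : ℝ) : ℂ) + T * I) = 1 / 2 + T * I := by push_cast; ring
  rw [e2] at h6 ⊢
  have h7 : size T * ‖riemannZeta (1 / 2 + T * I)‖ ≤
      size T * (C₀ * ((√Real.pi)⁻¹ * ((C₁ + C₂) * √(Real.pi / η))) *
        T ^ (A - c / 16 + ε)) := by
    refine h6.trans ((mul_le_mul_of_nonneg_left h5 (by linarith)).trans_eq ?_)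
    ring
  exact le_of_mul_le_mul_left h7 hs0

end Pool.Agent.DBN
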