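import Pool.Agent.DBN.Stir
import Pool.Agent.Lib.ZetaCrude
import Pool.Agent.Lib.ChiBound

/-!
# The archimedean factor of xi on the critical line

`xi = gam · ζ`; lower bound of `gam` by `size`, polynomial bound of `xi`, and the fine ratio
`gam (1/2 + i(T+v)) / gam (1/2 + iT) = (T/2π)^(iv/2) e^(-πv/4) + O_V(1/T)` for `|v| ≤ V`.
-/

set_option autoImplicit false

namespace Pool.Agent.DBN.Nw

open Complex MeasureTheory Set Filter Topology

/-- the archimedean factor of `xi` -/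
noncomputable def gam (s : ℂ) : ℂ := s * (s - 1) / 2 * Gammaℝ s

lemma xi_eq_gam (τ : ℝ) :
    xi (1 / 2 + τ * I) = gam (1 / 2 + τ * I) * riemannZeta (1 / 2 + τ * I) := by
  set s : ℂ := 1 / 2 + τ * I with hs
  have hre : s.re = 1 / 2 := by simp [hs]
  have h0 : s ≠ 0 := by
    intro h
    rw [h] at hre
    norm_num at hre
  have h1 : s ≠ 1 := by
    intro h
    rw [h] at hre
    norm_num at hre
  have h1' : 1 - s ≠ 0 := sub_ne_zero.2 (Ne.symm h1)
  have hG : Gammaℝ s ≠ 0 := Gammaℝ_ne_zero_of_re_pos (by rw [hre]; norm_num)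
  rw [riemannZeta_def_of_ne_zero h0, completedRiemannZeta_eq, xi, gam]
  field_simp
  ring

lemma differentiable_xi' : Differentiable ℂ xi := by
  have h := differentiable_completedZeta₀
  unfold xi
  fun_prop

lemma xi_one_sub' (s : ℂ) : xi (1 - s) = xi s := by
  rw [xi, xi, completedRiemannZeta₀_one_sub]
  ring

lemma gam_ne_zero (τ : ℝ) : gam (1 / 2 + τ * I) ≠ 0 := by
  set s : ℂ := 1 / 2 + τ * I with hs
  have hre : s.re = 1 / 2 := by simp [hs]
  have h0 : s ≠ 0 := by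
    intro h
    rw [h] at hre
    norm_num at hre
  have h1 : s ≠ 1 := by
    intro h
    rw [h] at hre
    norm_num at hre
  have h1' : s - 1 ≠ 0 := sub_ne_zero.2 h1
  have hG : Gammaℝ s ≠ 0 := Gammaℝ_ne_zero_of_re_pos (by rw [hre]; norm_num)
  rw [gam]
  exact mul_ne_zero (div_ne_zero (mul_ne_zero h0 h1') two_ne_zero) hG

lemma norm_gam (τ : ℝ) : ‖gam (1 / 2 + τ * I)‖ =
    (1 / 4 + τ ^ 2) / 2 * (Real.pi ^ (-(1 / 4) : ℝ) *
      ‖Gamma ((1 / 4 : ℝ) + (τ / 2 : ℝ) * I)‖) := by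
  have h1 := Pool.Agent.Lib.ChiBound.norm_Gammaℝ (1 / 2) τ
  have e1 : (((1 / 2 : ℝ) : ℂ) + τ * I) = 1 / 2 + τ * I := by push_cast; ring
  have e2 : (1 / 2 / 2 : ℝ) = 1 / 4 := by norm_num
  have e3 : (-(1 / 2) / 2 : ℝ) = -(1 / 4) := by norm_num
  rw [e1, e2, e3] at h1
  rw [gam, norm_mul, h1]
  congr 1
  have e4 : (1 / 2 + (τ : ℂ) * I) * (1 / 2 + τ * I - 1) / 2 = ((-((1 / 4 + τ ^ 2) / 2) : ℝ) : ℂ) := by
    push_cast
    linear_combination ((τ : ℂ) ^ 2 / 2) * Complex.I_sq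
  rw [e4, Complex.norm_real, Real.norm_eq_abs, abs_neg, abs_of_nonneg (by positivity)]

/-- lower bound of the archimedean factor by `size` -/
theorem size_le_gam : ∃ C : ℝ, 1 ≤ C ∧ ∀ T : ℝ, 2 ≤ T → size T ≤ C * ‖gam (1 / 2 + T * I)‖ := by
  obtain ⟨C, hC1, hC⟩ := gamma_two (1 / 4)
  have hpi : 0 < Real.pi ^ (-(1 / 4) : ℝ) := Real.rpow_pos_of_pos Real.pi_pos _
  refine ⟨1 + 2 * C * 2 ^ (1 / 4 : ℝ) / Real.pi ^ (-(1 / 4) : ℝ), ?_, fun T hT => ?_⟩
  · have : 0 ≤ 2 * C * 2 ^ (1 / 4 : ℝ) / Real.pi ^ (-(1 / 4) : ℝ) := by positivity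
    linarith
  have hT0 : 0 < T := by linarith
  have h1 := (hC (1 / 4) (T / 2) (by norm_num) (by linarith)).2
  set Gm : ℝ := ‖Gamma ((1 / 4 : ℝ) + (T / 2 : ℝ) * I)‖ with hGm
  have hGm0 : 0 ≤ Gm := norm_nonneg _
  have e1 : (1 / 4 - 1 / 2 : ℝ) = -(1 / 4) := by norm_num
  have e2 : Real.pi * (T / 2) / 2 = Real.pi * T / 4 := by ring
  rw [e1, e2] at h1
  have h2 : (T / 2) ^ (-(1 / 4) : ℝ) = 2 ^ (1 / 4 : ℝ) * T ^ (-(1 / 4) : ℝ) := by
    rw [Real.div_rpow hT0.le (by norm_num), Real.rpow_neg (by norm_num : (0 : ℝ) ≤ 2)]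
    field_simp
  have h3 : T ^ (7 / 4 : ℝ) = T ^ 2 * T ^ (-(1 / 4) : ℝ) := by
    rw [show (7 / 4 : ℝ) = 2 + -(1 / 4) by norm_num, Real.rpow_add hT0]
    norm_num
  have h4 : (1 : ℝ) ≤ 2 ^ (1 / 4 : ℝ) := Real.one_le_rpow (by norm_num) (by norm_num)
  have h5 : T ^ (-(1 / 4) : ℝ) * Real.exp (-(Real.pi * T / 4)) ≤ C * Gm := by
    refine le_trans ?_ h1
    rw [h2]
    have : 0 ≤ T ^ (-(1 / 4) : ℝ) * Real.exp (-(Real.pi * T / 4)) := by positivity
    nlinarith
  rw [norm_gam, ← hGm]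
  have h6 : T ^ 2 ≤ 2 * ((1 / 4 + T ^ 2) / 2) := by nlinarith
  calc size T = T ^ 2 * (T ^ (-(1 / 4) : ℝ) * Real.exp (-(Real.pi * T / 4))) := by
        rw [size, h3]; ring
    _ ≤ (2 * ((1 / 4 + T ^ 2) / 2)) * (C * Gm) := by gcongr
    _ = (2 * C / Real.pi ^ (-(1 / 4) : ℝ)) *
        ((1 / 4 + T ^ 2) / 2 * (Real.pi ^ (-(1 / 4) : ℝ) * Gm)) := by
        field_simp
    _ ≤ _ := by
        apply mul_le_mul_of_nonneg_right _ (by positivity)
        have h7 : 2 * C / Real.pi ^ (-(1 / 4) : ℝ) ≤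
            2 * C * 2 ^ (1 / 4 : ℝ) / Real.pi ^ (-(1 / 4) : ℝ) := by
          apply div_le_div_of_nonneg_right _ hpi.le
          nlinarith
        linarith

/-- polynomial bound of `xi` on the whole critical line -/
theorem xi_le : ∃ C : ℝ, 1 ≤ C ∧ ∀ τ : ℝ,
    ‖xi (1 / 2 + τ * I)‖ ≤ C * (1 + |τ|) ^ 3 * Real.exp (-(Real.pi * |τ| / 4)) := by
  obtain ⟨C1, hC11, hC1⟩ := gamma_two (1 / 4)
  obtain ⟨C2, hC21, hC2⟩ := Pool.Agent.Lib.ZetaCrude.norm_zeta_le_crude
  -- the compact part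
  have hcont : Continuous fun τ : ℝ => ‖xi (1 / 2 + τ * I)‖ := by
    have := differentiable_xi'.continuous
    fun_prop
  obtain ⟨M, hM⟩ := (isCompact_Icc (a := (-2 : ℝ)) (b := 2)).exists_bound_of_continuousOn
    hcont.continuousOn
  have hM0 : 0 ≤ M := (norm_nonneg _).trans (hM 0 (by constructor <;> norm_num))
  set K : ℝ := 1 + M * Real.exp (Real.pi / 2) + Real.pi ^ (-(1 / 4) : ℝ) * C1 * (2 * C2) with hK
  have hpi : 0 < Real.pi ^ (-(1 / 4) : ℝ) := Real.rpow_pos_of_pos Real.pi_pos _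
  have hK1 : 1 ≤ K := by
    have h1 : 0 ≤ M * Real.exp (Real.pi / 2) := by positivity
    have h2 : 0 ≤ Real.pi ^ (-(1 / 4) : ℝ) * C1 * (2 * C2) := by positivity
    linarith
  -- nonnegative case
  have main : ∀ τ : ℝ, 0 ≤ τ →
      ‖xi (1 / 2 + τ * I)‖ ≤ K * (1 + τ) ^ 3 * Real.exp (-(Real.pi * τ / 4)) := by
    intro τ hτ
    rcases le_total τ 2 with h | h
    · have h1 := hM τ ⟨by linarith, h⟩
      rw [norm_norm] at h1
      have h2 : Real.exp (-(Real.pi / 2)) ≤ Real.exp (-(Real.pi * τ / 4)) := by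
        rw [Real.exp_le_exp]
        nlinarith [Real.pi_pos]
      have h3 : M = M * Real.exp (Real.pi / 2) * Real.exp (-(Real.pi / 2)) := by
        rw [mul_assoc, ← Real.exp_add]; simp
      have h4 : (1 : ℝ) ≤ (1 + τ) ^ 3 := one_le_pow₀ (by linarith)
      calc ‖xi (1 / 2 + τ * I)‖ ≤ M := h1
        _ = M * Real.exp (Real.pi / 2) * Real.exp (-(Real.pi / 2)) := h3
        _ ≤ K * Real.exp (-(Real.pi * τ / 4)) := by
            apply mul_le_mul _ h2 (Real.exp_pos _).le (by linarith)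
            have h2 : 0 ≤ Real.pi ^ (-(1 / 4) : ℝ) * C1 * (2 * C2) := by positivity
            linarith
        _ = K * 1 * Real.exp (-(Real.pi * τ / 4)) := by ring
        _ ≤ _ := by gcongr
    · rw [xi_eq_gam, norm_mul, norm_gam]
      have hτ0 : 0 < τ := by linarith
      have h1 := (hC1 (1 / 4) (τ / 2) (by norm_num) (by linarith)).1
      have e1 : (1 / 4 - 1 / 2 : ℝ) = -(1 / 4) := by norm_num
      have e2 : Real.pi * (τ / 2) / 2 = Real.pi * τ / 4 := by ring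
      rw [e1, e2] at h1
      have h2 : (τ / 2) ^ (-(1 / 4) : ℝ) ≤ 1 :=
        Real.rpow_le_one_of_one_le_of_nonpos (by linarith) (by norm_num)
      have h3 : ‖Gamma ((1 / 4 : ℝ) + (τ / 2 : ℝ) * I)‖ ≤ C1 * Real.exp (-(Real.pi * τ / 4)) := by
        refine h1.trans ?_
        gcongr
        calc (τ / 2) ^ (-(1 / 4) : ℝ) * Real.exp (-(Real.pi * τ / 4))
            ≤ 1 * Real.exp (-(Real.pi * τ / 4)) := by gcongr
          _ = _ := one_mul _
      have h4 : ‖riemannZeta (1 / 2 + τ * I)‖ ≤ C2 * (2 * (1 + τ)) := by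
        have hz := hC2 (1 / 2 + τ * I) (by simp; norm_num) (by
          have := Complex.abs_im_le_norm (1 / 2 + τ * I - 1 : ℂ)
          simp only [sub_im, add_im, mul_im, ofReal_re, I_im, mul_one, ofReal_im, I_re, mul_zero,
            add_zero, one_im, sub_zero] at this
          have e : (1 / 2 : ℂ).im = 0 := by simp
          rw [e, zero_add, abs_of_pos hτ0] at this
          linarith)
        refine hz.trans ?_
        gcongr
        have : ‖(1 / 2 + τ * I : ℂ)‖ ≤ 1 / 2 + τ := by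
          calc ‖(1 / 2 + τ * I : ℂ)‖ ≤ ‖(1 / 2 : ℂ)‖ + ‖(τ : ℂ) * I‖ := norm_add_le _ _
            _ = 1 / 2 + τ := by
              rw [norm_mul, Complex.norm_real, Complex.norm_I, Real.norm_of_nonneg hτ0.le]
              norm_num
        linarith
      have h5 : (1 / 4 + τ ^ 2) / 2 ≤ (1 + τ) ^ 2 := by nlinarith
      calc (1 / 4 + τ ^ 2) / 2 * (Real.pi ^ (-(1 / 4) : ℝ) *
            ‖Gamma ((1 / 4 : ℝ) + (τ / 2 : ℝ) * I)‖) * ‖riemannZeta (1 / 2 + τ * I)‖
          ≤ (1 + τ) ^ 2 * (Real.pi ^ (-(1 / 4) : ℝ) *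
            (C1 * Real.exp (-(Real.pi * τ / 4)))) * (C2 * (2 * (1 + τ))) := by gcongr
        _ = Real.pi ^ (-(1 / 4) : ℝ) * C1 * (2 * C2) *
            ((1 + τ) ^ 3 * Real.exp (-(Real.pi * τ / 4))) := by ring
        _ ≤ K * ((1 + τ) ^ 3 * Real.exp (-(Real.pi * τ / 4))) := by
            apply mul_le_mul_of_nonneg_right _ (by positivity)
            have h1 : 0 ≤ M * Real.exp (Real.pi / 2) := by positivity
            linarith
        _ = _ := by ring
  refine ⟨K, hK1, fun τ => ?_⟩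
  rcases le_total 0 τ with h | h
  · rw [abs_of_nonneg h]
    exact main τ h
  · rw [abs_of_nonpos h]
    have h1 := main (-τ) (by linarith)
    have h2 : xi (1 / 2 + τ * I) = xi (1 / 2 + ((-τ : ℝ) : ℂ) * I) := by
      rw [← xi_one_sub']
      congr 1
      push_cast
      ring
    rw [h2]
    exact h1

/-- Stirling's formula for the ratio at distance `v/2` -/
theorem gamma_ratio_fine {V : ℝ} (hV : 0 ≤ V) : ∃ C T₀ : ℝ, 2 ≤ T₀ ∧ 0 ≤ C ∧ ∀ T v : ℝ, T₀ ≤ T →
    |v| ≤ V → ∃ ρ : ℂ, ‖ρ‖ ≤ C / T ∧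
      Gamma ((1 / 4 : ℝ) + ((T + v) / 2 : ℝ) * I) = Gamma ((1 / 4 : ℝ) + (T / 2 : ℝ) * I) *
        exp ((v / 2 * I) * (Real.log (T / 2) + Real.pi / 2 * I) + ρ) := by
  obtain ⟨C, hC⟩ := Pool.Agent.SelTwo.p_STIR 1
  refine ⟨2 * V * (1 + V) + 2 * V * (1 + V) + 4 * |C| + 2 * |C|, 2 * V + 4, by linarith,
    by positivity, fun T v hT hv => ?_⟩
  have hT0 : 0 < T := by linarith
  have hv' := abs_le.1 hv
  have hTv : T / 2 ≤ T + v := by linarith
  set z : ℂ := (1 / 4 : ℝ) + (T / 2 : ℝ) * I with hz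
  set w : ℂ := v / 2 * I with hw
  set z₀ : ℂ := (T / 2 : ℝ) * I with hz₀
  have hzre : z.re = 1 / 4 := by simp [hz, hz₀]
  have hzim : z.im = T / 2 := by simp [hz, hz₀]
  have hwre : w.re = 0 := by simp [hw]
  have hwim : w.im = v / 2 := by simp [hw]
  have hwn : ‖w‖ ≤ V / 2 := by
    rw [hw, norm_mul, Complex.norm_I, mul_one]
    have : ((v : ℂ) / 2) = ((v / 2 : ℝ) : ℂ) := by push_cast; ring
    rw [this, Complex.norm_real, Real.norm_eq_abs, abs_div, abs_two]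
    linarith
  have hzw : (1 / 4 : ℝ) + ((T + v) / 2 : ℝ) * I = z + w := by
    rw [hz, hz₀, hw]; push_cast; ring
  obtain ⟨e0, he0, hG0⟩ := hC z (by rw [hzre]; norm_num) (by
    rw [hzim, abs_of_pos (by linarith)]; linarith)
  obtain ⟨e1, he1, hG1⟩ := hC (z + w) (by rw [Complex.add_re, hzre, hwre]; norm_num) (by
    rw [Complex.add_im, hzim, hwim, abs_of_pos (by linarith)]; linarith)
  rw [hzim, abs_of_pos (by linarith)] at he0
  rw [Complex.add_im, hzim, hwim, abs_of_pos (by linarith)] at he1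
  have hlog0 : log z₀ = Real.log (T / 2) + Real.pi / 2 * I := by
    rw [hz₀, Complex.log_ofReal_mul (by linarith) Complex.I_ne_zero, Complex.log_I]
  -- lower bound of the imaginary part along the two segments
  have hseg1 : ∀ x ∈ Icc (0 : ℝ) 1, T / 4 ≤ (z + x * w).im := by
    intro x hx
    have h1 : (z + x * w).im = T / 2 + x * (v / 2) := by
      simp [hzim, hwim]
    rw [h1]
    have h2 : |x * (v / 2)| ≤ V / 2 := by
      rw [abs_mul, abs_of_nonneg hx.1, abs_div, abs_two]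
      calc x * (|v| / 2) ≤ 1 * (V / 2) := by
            apply mul_le_mul hx.2 (by linarith) (by positivity) (by norm_num)
        _ = V / 2 := one_mul _
    have h3 := (abs_le.1 h2).1
    linarith
  have hseg2 : ∀ x ∈ Icc (0 : ℝ) 1, T / 4 ≤ (z₀ + x * (1 / 4 + w)).im := by
    intro x hx
    have h1 : (z₀ + x * (1 / 4 + w)).im = T / 2 + x * (v / 2) := by
      have e : (1 / 4 : ℂ).im = 0 := by simp
      simp [hz₀, hwim]
    rw [h1]
    have h2 : |x * (v / 2)| ≤ V / 2 := by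
      rw [abs_mul, abs_of_nonneg hx.1, abs_div, abs_two]
      calc x * (|v| / 2) ≤ 1 * (V / 2) := by
            apply mul_le_mul hx.2 (by linarith) (by positivity) (by norm_num)
        _ = V / 2 := one_mul _
    have h3 := (abs_le.1 h2).1
    linarith
  have him_norm : ∀ y : ℂ, T / 4 ≤ y.im → T / 4 ≤ ‖y‖ ∧ y ∈ slitPlane := by
    intro y hy
    constructor
    · exact hy.trans ((le_abs_self _).trans (Complex.abs_im_le_norm y))
    · rw [Complex.mem_slitPlane_iff]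
      right
      linarith
  -- first piece
  have hp1 : ‖(z - 1 / 2) * (log (z + w) - log z) - w‖ ≤ 2 * V * (1 + V) / T := by
    let H : ℝ → ℂ := fun x => (z - 1 / 2) * log (z + x * w) - x * w
    have hder : ∀ x ∈ Icc (0 : ℝ) 1, HasDerivWithinAt H
        (-w * (1 / 2 + x * w) / (z + x * w)) (Icc 0 1) x := by
      intro x hx
      obtain ⟨hn, hsl⟩ := him_norm _ (hseg1 x hx)
      have hne : z + x * w ≠ 0 := by
        intro h
        rw [h, norm_zero] at hn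
        linarith
      have h1 : HasDerivAt (fun x : ℝ => z + (x : ℂ) * w) (1 * w) x :=
        ((ofRealCLM.hasDerivAt).mul_const w).const_add z
      have h2 := (h1.clog_real hsl).const_mul (z - 1 / 2)
      have h3 := h2.sub ((ofRealCLM.hasDerivAt (x := x)).mul_const w)
      have e : (z - 1 / 2) * (1 * w / (z + x * w)) - ofRealCLM 1 * w =
          -w * (1 / 2 + x * w) / (z + x * w) := by
        simp only [ofRealCLM_apply, ofReal_one]
        rw [eq_div_iff hne, sub_mul, mul_assoc, div_mul_cancel₀ _ hne]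
        ring
      rw [e] at h3
      exact h3.hasDerivWithinAt
    have hbd : ∀ x ∈ Icc (0 : ℝ) 1, ‖-w * (1 / 2 + x * w) / (z + x * w)‖ ≤
        2 * V * (1 + V) / T := by
      intro x hx
      obtain ⟨hn, hsl⟩ := him_norm _ (hseg1 x hx)
      rw [norm_div, norm_mul, norm_neg]
      have h1 : ‖(1 / 2 + x * w : ℂ)‖ ≤ 1 + V := by
        calc ‖(1 / 2 + x * w : ℂ)‖ ≤ ‖(1 / 2 : ℂ)‖ + ‖(x : ℂ) * w‖ := norm_add_le _ _
          _ = 1 / 2 + x * ‖w‖ := by
            rw [norm_mul, Complex.norm_real, Real.norm_of_nonneg hx.1]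
            norm_num
          _ ≤ 1 / 2 + 1 * (V / 2) := by
            gcongr
            exact hx.2
          _ ≤ _ := by linarith
      have h2 : 0 < T / 4 := by linarith
      calc ‖w‖ * ‖(1 / 2 + x * w : ℂ)‖ / ‖z + x * w‖ ≤ V / 2 * (1 + V) / (T / 4) := by gcongr
        _ = 2 * V * (1 + V) / T := by field_simp; ring
    have h5 := Convex.norm_image_sub_le_of_norm_hasDerivWithin_le hder hbd (convex_Icc 0 1)
      (left_mem_Icc.mpr zero_le_one) (right_mem_Icc.mpr zero_le_one)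
    have h6 : H 1 - H 0 = (z - 1 / 2) * (log (z + w) - log z) - w := by
      simp only [H, ofReal_one, ofReal_zero, one_mul, zero_mul, add_zero, sub_zero]
      ring
    rw [h6] at h5
    simpa using h5
  -- second piece
  have hp2 : ‖log (z + w) - log z₀‖ ≤ 4 * (1 + V) / T := by
    let H : ℝ → ℂ := fun x => log (z₀ + x * (1 / 4 + w))
    have hder : ∀ x ∈ Icc (0 : ℝ) 1, HasDerivWithinAt H
        (1 * (1 / 4 + w) / (z₀ + x * (1 / 4 + w))) (Icc 0 1) x := by
      intro x hx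
      obtain ⟨hn, hsl⟩ := him_norm _ (hseg2 x hx)
      have h1 : HasDerivAt (fun x : ℝ => z₀ + (x : ℂ) * (1 / 4 + w)) (1 * (1 / 4 + w)) x :=
        ((ofRealCLM.hasDerivAt).mul_const (1 / 4 + w)).const_add z₀
      exact (h1.clog_real hsl).hasDerivWithinAt
    have hbd : ∀ x ∈ Icc (0 : ℝ) 1, ‖1 * (1 / 4 + w) / (z₀ + x * (1 / 4 + w))‖ ≤
        4 * (1 + V) / T := by
      intro x hx
      obtain ⟨hn, hsl⟩ := him_norm _ (hseg2 x hx)
      rw [norm_div, one_mul]
      have h1 : ‖(1 / 4 + w : ℂ)‖ ≤ 1 + V := by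
        calc ‖(1 / 4 + w : ℂ)‖ ≤ ‖(1 / 4 : ℂ)‖ + ‖w‖ := norm_add_le _ _
          _ ≤ 1 / 4 + V / 2 := by
            gcongr
            norm_num
          _ ≤ _ := by linarith
      have h2 : 0 < T / 4 := by linarith
      calc ‖(1 / 4 + w : ℂ)‖ / ‖z₀ + x * (1 / 4 + w)‖ ≤ (1 + V) / (T / 4) := by gcongr
        _ = 4 * (1 + V) / T := by field_simp
    have h5 := Convex.norm_image_sub_le_of_norm_hasDerivWithin_le hder hbd (convex_Icc 0 1)
      (left_mem_Icc.mpr zero_le_one) (right_mem_Icc.mpr zero_le_one)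
    have h6 : H 1 - H 0 = log (z + w) - log z₀ := by
      simp only [H, ofReal_one, ofReal_zero, one_mul, zero_mul, add_zero]
      congr 2
      rw [hz]
      push_cast
      ring
    rw [h6] at h5
    simpa using h5
  refine ⟨((z - 1 / 2) * (log (z + w) - log z) - w) + w * (log (z + w) - log z₀) + (e1 - e0),
    ?_, ?_⟩
  · have h1 : ‖w * (log (z + w) - log z₀)‖ ≤ 2 * V * (1 + V) / T := by
      rw [norm_mul]
      calc ‖w‖ * ‖log (z + w) - log z₀‖ ≤ V / 2 * (4 * (1 + V) / T) := by gcongr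
        _ = _ := by field_simp; ring
    have h2 : ‖e1‖ ≤ 4 * |C| / T := by
      refine he1.trans ?_
      calc C / (T / 2 + v / 2) ≤ |C| / (T / 2 + v / 2) :=
            div_le_div_of_nonneg_right (le_abs_self C) (by linarith)
        _ ≤ |C| / (T / 4) := by
            gcongr
            linarith
        _ = _ := by field_simp
    have h3 : ‖e0‖ ≤ 2 * |C| / T := by
      refine he0.trans ?_
      calc C / (T / 2) ≤ |C| / (T / 2) := by
            gcongr
            exact le_abs_self C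
        _ = _ := by field_simp
    have h4 := norm_add_le (((z - 1 / 2) * (log (z + w) - log z) - w) +
      w * (log (z + w) - log z₀)) (e1 - e0)
    have h5 := norm_add_le ((z - 1 / 2) * (log (z + w) - log z) - w)
      (w * (log (z + w) - log z₀))
    have h6 := norm_sub_le e1 e0
    calc _ ≤ 2 * V * (1 + V) / T + 2 * V * (1 + V) / T + (4 * |C| / T + 2 * |C| / T) := by
          linarith
      _ = _ := by ring
  · rw [hzw, hG1, hG0, ← Complex.exp_add]
    congr 1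
    rw [← hlog0]
    ring

/-- the main term of the ratio -/
noncomputable def rat (T v : ℝ) : ℂ :=
  exp ((v / 2 * I) * (Real.log (T / (2 * Real.pi)) + Real.pi / 2 * I))

lemma norm_rat (T v : ℝ) : ‖rat T v‖ = Real.exp (-(Real.pi * v / 4)) := by
  rw [rat, Complex.norm_exp]
  congr 1
  have : ((v / 2 * I) * (Real.log (T / (2 * Real.pi)) + Real.pi / 2 * I) : ℂ) =
      ((-(Real.pi * v / 4) : ℝ) : ℂ) + ((v / 2 * Real.log (T / (2 * Real.pi)) : ℝ) : ℂ) * I := by
    push_cast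
    linear_combination (v / 2 * (Real.pi / 2) : ℂ) * Complex.I_sq
  rw [this]
  simp

lemma gam_eq (τ : ℝ) : gam (1 / 2 + τ * I) =
    ((-((1 / 4 + τ ^ 2) / 2) : ℝ) : ℂ) * (exp (Real.log Real.pi * (-(1 / 4) - τ / 2 * I)) *
      Gamma ((1 / 4 : ℝ) + (τ / 2 : ℝ) * I)) := by
  rw [gam, Gammaℝ_def, Complex.cpow_def_of_ne_zero (by exact_mod_cast Real.pi_ne_zero),
    ← Complex.ofReal_log Real.pi_pos.le]
  have e4 : (1 / 2 + (τ : ℂ) * I) * (1 / 2 + τ * I - 1) / 2 = ((-((1 / 4 + τ ^ 2) / 2) : ℝ) : ℂ) := by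
    push_cast
    linear_combination ((τ : ℂ) ^ 2 / 2) * Complex.I_sq
  rw [e4]
  congr 3
  · congr 1
    ring
  · push_cast
    ring

/-- the fine ratio of the archimedean factor at bounded distance -/
theorem gam_ratio {V : ℝ} (hV : 0 ≤ V) : ∃ C T₀ : ℝ, 2 ≤ T₀ ∧ 0 ≤ C ∧ ∀ T v : ℝ, T₀ ≤ T →
    |v| ≤ V → ‖gam (1 / 2 + (T + v : ℝ) * I) / gam (1 / 2 + T * I) - rat T v‖ ≤ C / T := by
  obtain ⟨C, T₀, hT₀, hC0, hC⟩ := gamma_ratio_fine hV
  refine ⟨Real.exp (Real.pi * V / 4) * (3 * (2 * V + V ^ 2) + 2 * C), T₀ + C, by linarith,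
    by positivity, fun T v hT hv => ?_⟩
  obtain ⟨ρ, hρ, hΓ⟩ := hC T v (by linarith) hv
  have hT0 : 0 < T := by linarith
  have hT1 : 1 ≤ T := by linarith
  have hv' := abs_le.1 hv
  have hρ1 : ‖ρ‖ ≤ 1 := by
    refine hρ.trans ?_
    rw [div_le_one hT0]
    linarith
  set q : ℝ := (1 / 4 + (T + v) ^ 2) / (1 / 4 + T ^ 2) with hq
  have hden : 0 < 1 / 4 + T ^ 2 := by positivity
  have heq : gam (1 / 2 + (T + v : ℝ) * I) = (q * exp ρ * rat T v) * gam (1 / 2 + T * I) := by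
    rw [gam_eq, gam_eq, hΓ, rat]
    have hq' : ((-((1 / 4 + (T + v) ^ 2) / 2) : ℝ) : ℂ) = q * ((-((1 / 4 + T ^ 2) / 2) : ℝ) : ℂ) := by
      rw [← Complex.ofReal_mul]
      congr 1
      rw [hq]
      field_simp
    rw [hq']
    have hl : ((Real.log (T / (2 * Real.pi)) : ℝ) : ℂ) =
        ((Real.log (T / 2) : ℝ) : ℂ) - ((Real.log Real.pi : ℝ) : ℂ) := by
      rw [← Complex.ofReal_sub, ← Real.log_div (by positivity) Real.pi_ne_zero]
      congr 2
      field_simp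
    have hexp : exp (Real.log Real.pi * (-(1 / 4) - ((T + v : ℝ) : ℂ) / 2 * I)) *
        exp (v / 2 * I * (Real.log (T / 2) + Real.pi / 2 * I) + ρ) =
        exp ρ * exp (v / 2 * I * (Real.log (T / (2 * Real.pi)) + Real.pi / 2 * I)) *
        exp (Real.log Real.pi * (-(1 / 4) - T / 2 * I)) := by
      rw [← Complex.exp_add, ← Complex.exp_add, ← Complex.exp_add, hl]
      congr 1
      push_cast
      ring
    linear_combination (q * ((-((1 / 4 + T ^ 2) / 2) : ℝ) : ℂ) *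
      Gamma ((1 / 4 : ℝ) + (T / 2 : ℝ) * I)) * hexp
  rw [heq, mul_div_cancel_right₀ _ (gam_ne_zero T)]
  have h1 : (q : ℂ) * exp ρ * rat T v - rat T v = (((q - 1 : ℝ) : ℂ) * exp ρ + (exp ρ - 1)) * rat T v := by
    push_cast
    ring
  have hq1 : |q - 1| ≤ (2 * V + V ^ 2) / T := by
    have e : q - 1 = (2 * T * v + v ^ 2) / (1 / 4 + T ^ 2) := by
      rw [hq]
      field_simp
      ring
    rw [e, abs_div, abs_of_pos hden, div_le_div_iff₀ hden hT0]
    have h2 : |2 * T * v + v ^ 2| ≤ 2 * T * V + V ^ 2 := by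
      refine (abs_add_le _ _).trans ?_
      rw [abs_mul, abs_of_pos (by positivity : 0 < 2 * T), abs_of_nonneg (sq_nonneg v)]
      have h3 : v ^ 2 ≤ V ^ 2 := sq_le_sq' hv'.1 hv'.2
      have h4 : 2 * T * |v| ≤ 2 * T * V := by gcongr
      linarith
    calc |2 * T * v + v ^ 2| * T ≤ (2 * T * V + V ^ 2) * T := by gcongr
      _ ≤ (2 * V + V ^ 2) * (1 / 4 + T ^ 2) := by
        nlinarith [mul_nonneg (sq_nonneg V) (sub_nonneg.2 hT1), mul_nonneg (mul_nonneg (sq_nonneg V) (sub_nonneg.2 hT1)) hT0.le]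
  have he1 : ‖exp ρ - 1‖ ≤ 2 * ‖ρ‖ := Complex.norm_exp_sub_one_le hρ1
  have he2 : ‖exp ρ‖ ≤ 3 := by
    have : exp ρ = (exp ρ - 1) + 1 := by ring
    rw [this]
    refine (norm_add_le _ _).trans ?_
    rw [norm_one]
    linarith
  rw [h1, norm_mul, norm_rat]
  have h5 : ‖((q - 1 : ℝ) : ℂ) * exp ρ + (exp ρ - 1)‖ ≤
      (2 * V + V ^ 2) / T * 3 + 2 * (C / T) := by
    refine (norm_add_le _ _).trans ?_
    rw [norm_mul, Complex.norm_real, Real.norm_eq_abs]
    have : |q - 1| * ‖exp ρ‖ ≤ (2 * V + V ^ 2) / T * 3 := by gcongr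
    linarith
  have h6 : Real.exp (-(Real.pi * v / 4)) ≤ Real.exp (Real.pi * V / 4) := by
    rw [Real.exp_le_exp]
    nlinarith [Real.pi_pos]
  calc _ ≤ ((2 * V + V ^ 2) / T * 3 + 2 * (C / T)) * Real.exp (Real.pi * V / 4) := by gcongr
    _ = _ := by ring

end Pool.Agent.DBN.Nw
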