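import Pool.Agent.DBN.NewmanZ
import Pool.Agent.DBN.NewmanS

/-!
# The flow at negative times is a weighted Dirichlet polynomial

`flow (-κ / log T) (1/2 + iT) / gam (1/2 + iT) = ∑_{n ≤ N} wt κ n T · n^(-1/2-iT) + O(X^(-1/10))`
for `X ≤ T ≤ 2X`, `N ≍ X^(7/5)`.
-/

set_option autoImplicit false

namespace Pool.Agent.DBN.Nw

open Complex MeasureTheory Set Filter Topology

/-- the weights -/
noncomputable def wt (κ x T : ℝ) : ℂ :=
  exp (-(κ / (4 * Real.log T)) * (Real.log (T / (2 * Real.pi)) / 2 - Real.log x +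
    Real.pi / 4 * I) ^ 2)

/-- the Dirichlet polynomial -/
noncomputable def dpol (N : ℕ) (τ : ℝ) : ℂ :=
  ∑ n ∈ Finset.range N, ((n + 1 : ℝ) : ℂ) ^ (-(1 / 2 + τ * I : ℂ))

lemma sum_rpow_half (N : ℕ) :
    ∑ n ∈ Finset.range N, (n + 1 : ℝ) ^ (-(1 / 2) : ℝ) ≤ 2 * (N : ℝ) ^ (1 / 2 : ℝ) := by
  induction N with
  | zero => simp
  | succ N ih =>
    rw [Finset.sum_range_succ]
    have hN : (0 : ℝ) ≤ N := Nat.cast_nonneg N
    push_cast
    set a : ℝ := (N : ℝ) ^ (1 / 2 : ℝ) with ha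
    set b : ℝ := (N + 1 : ℝ) ^ (1 / 2 : ℝ) with hb
    have ha0 : 0 ≤ a := by positivity
    have hb0 : 0 < b := by positivity
    have ha2 : a ^ 2 = N := by
      rw [ha, ← Real.rpow_natCast, ← Real.rpow_mul hN]
      norm_num
    have hb2 : b ^ 2 = N + 1 := by
      rw [hb, ← Real.rpow_natCast, ← Real.rpow_mul (by positivity)]
      norm_num
    have hc : (N + 1 : ℝ) ^ (-(1 / 2) : ℝ) = b⁻¹ := by
      rw [hb, Real.rpow_neg (by positivity)]
    rw [hc]
    have h1 : b⁻¹ ≤ 2 * b - 2 * a := by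
      rw [inv_le_iff_one_le_mul₀ hb0]
      nlinarith [sq_nonneg (b - a)]
    linarith

lemma norm_dpol_le (N : ℕ) (τ : ℝ) : ‖dpol N τ‖ ≤ 2 * (N : ℝ) ^ (1 / 2 : ℝ) := by
  refine (norm_sum_le _ _).trans (le_trans (le_of_eq ?_) (sum_rpow_half N))
  refine Finset.sum_congr rfl fun n _ => ?_
  rw [norm_cpow_eq_rpow_re_of_pos (by positivity)]
  congr 1
  simp

lemma continuous_dpol (N : ℕ) : Continuous fun τ : ℝ => dpol N τ := by
  unfold dpol
  refine continuous_finsetSum _ fun n _ => ?_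
  have h : ((n + 1 : ℝ) : ℂ) ≠ 0 := by
    exact_mod_cast (by positivity : (n + 1 : ℝ) ≠ 0)
  refine Continuous.const_cpow (by fun_prop) (Or.inl h)

lemma flow_eq {κ T : ℝ} (hκ : 0 < κ) (hT : 2 ≤ T) :
    flow (-κ / Real.log T) (1 / 2 + T * I) = (√Real.pi : ℂ)⁻¹ *
      ∫ u : ℝ, (Real.exp (-u ^ 2) : ℂ) * xi (1 / 2 + (T + √(κ / Real.log T) * u : ℝ) * I) := by
  have hl : 0 < Real.log T := Real.log_pos (by linarith)
  have h1 : √(-κ / Real.log T) = 0 := by
    apply Real.sqrt_eq_zero_of_nonpos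
    rw [neg_div]
    have : 0 < κ / Real.log T := by positivity
    linarith
  have h2 : -(-κ / Real.log T) = κ / Real.log T := by ring
  rw [flow, h1, h2]
  congr 1
  refine integral_congr_ae (Eventually.of_forall fun u => ?_)
  simp only
  congr 2
  push_cast
  ring

/-- the Gaussian integral against one frequency -/
lemma gauss_term {κ T : ℝ} {x : ℝ} (hx : 0 < x) (u : ℝ) :
    (Real.exp (-u ^ 2) : ℂ) * (rat T (√(κ / Real.log T) * u) *
      (x : ℂ) ^ (-(1 / 2 + (T + √(κ / Real.log T) * u : ℝ) * I : ℂ))) =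
      (x : ℂ) ^ (-(1 / 2 + T * I : ℂ)) *
      exp ((-1) * (u : ℂ) ^ 2 + (√(κ / Real.log T) * I * (Real.log (T / (2 * Real.pi)) / 2 -
        Real.log x + Real.pi / 4 * I)) * u + 0) := by
  have hx0 : (x : ℂ) ≠ 0 := by exact_mod_cast hx.ne'
  rw [rat, Complex.cpow_def_of_ne_zero hx0, Complex.cpow_def_of_ne_zero hx0,
    ← Complex.ofReal_log hx.le, Complex.ofReal_exp, ← Complex.exp_add, ← Complex.exp_add,
    ← Complex.exp_add]
  congr 1
  push_cast
  ring

lemma integrable_term {κ T : ℝ} {x : ℝ} (hx : 0 < x) :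
    Integrable fun u : ℝ => (Real.exp (-u ^ 2) : ℂ) * (rat T (√(κ / Real.log T) * u) *
      (x : ℂ) ^ (-(1 / 2 + (T + √(κ / Real.log T) * u : ℝ) * I : ℂ))) := by
  simp_rw [gauss_term hx]
  apply Integrable.const_mul
  exact integrable_cexp_quadratic' (by simp) _ _

lemma integral_term {κ T : ℝ} (hκ : 0 < κ) (hT : 2 ≤ T) {x : ℝ} (hx : 0 < x) :
    ∫ u : ℝ, (Real.exp (-u ^ 2) : ℂ) * (rat T (√(κ / Real.log T) * u) *
      (x : ℂ) ^ (-(1 / 2 + (T + √(κ / Real.log T) * u : ℝ) * I : ℂ))) =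
      (√Real.pi : ℂ) * (wt κ x T * (x : ℂ) ^ (-(1 / 2 + T * I : ℂ))) := by
  have hl : 0 < Real.log T := Real.log_pos (by linarith)
  simp_rw [gauss_term hx]
  rw [integral_const_mul, integral_cexp_quadratic (by simp), wt]
  have h1 : ((Real.pi : ℂ) / - -1) ^ (1 / 2 : ℂ) = (√Real.pi : ℂ) := by
    rw [Real.sqrt_eq_rpow, Complex.ofReal_cpow Real.pi_pos.le]
    push_cast
    simp
  rw [h1]
  have h2 : ((√(κ / Real.log T) : ℝ) : ℂ) ^ 2 = ((κ / Real.log T : ℝ) : ℂ) := by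
    rw [← Complex.ofReal_pow, Real.sq_sqrt (by positivity)]
  have h3 : (0 - (√(κ / Real.log T) * I * (Real.log (T / (2 * Real.pi)) / 2 -
        Real.log x + Real.pi / 4 * I)) ^ 2 / (4 * (-1)) : ℂ) =
      -(κ / (4 * Real.log T)) * (Real.log (T / (2 * Real.pi)) / 2 - Real.log x +
    Real.pi / 4 * I) ^ 2 := by
    rw [mul_pow, mul_pow, h2, Complex.I_sq]
    push_cast
    have hl' : ((Real.log T : ℝ) : ℂ) ≠ 0 := by exact_mod_cast hl.ne'
    field_simp
    ring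
  rw [h3]
  ring

/-- near the centre: `xi / gam` is the ratio times the Dirichlet polynomial -/
lemma near_le {V : ℝ} (hV : 0 ≤ V) : ∃ C X₀ : ℝ, 0 ≤ C ∧ 2 ≤ X₀ ∧ ∀ (X T v : ℝ) (N : ℕ), X₀ ≤ X →
    X ≤ T → T ≤ 2 * X → X ^ (7 / 5 : ℝ) / 2 ≤ N → (N : ℝ) ≤ X ^ (7 / 5 : ℝ) → |v| ≤ V →
    ‖xi (1 / 2 + (T + v : ℝ) * I) / gam (1 / 2 + T * I) - rat T v * dpol N (T + v)‖ ≤
      C * X ^ (-(1 / 10) : ℝ) := by
  obtain ⟨C, T₀, hT₀, hC0, hC⟩ := gam_ratio hV
  refine ⟨2 * C + (Real.exp (Real.pi * V / 4) + C) * 116, T₀ + 2 * V + 2, by positivity,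
    by linarith, fun X T v N hX hXT hT2 hN1 hN2 hv => ?_⟩
  have hX0 : 0 < X := by linarith
  have hX1 : 1 ≤ X := by linarith
  have hT0 : 0 < T := by linarith
  have hv' := abs_le.1 hv
  have h1 := hC T v (by linarith) hv
  set R : ℂ := gam (1 / 2 + (T + v : ℝ) * I) / gam (1 / 2 + T * I) with hR
  set τ : ℝ := T + v with hτ
  have hτ1 : X / 2 ≤ τ := by linarith
  have hτ2 : τ ≤ 3 * X := by linarith
  have hτ0 : 0 ≤ τ := by linarith
  have hNpos : (0 : ℝ) < N := lt_of_lt_of_le (by positivity) hN1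
  have hN : 1 ≤ N := by
    have : 0 < N := by exact_mod_cast hNpos
    omega
  have h2 := zeta_sum (τ := τ) (by linarith) hN
  -- powers of N
  have hp1 : (N : ℝ) ^ (1 / 2 : ℝ) ≤ X ^ (7 / 10 : ℝ) := by
    calc (N : ℝ) ^ (1 / 2 : ℝ) ≤ (X ^ (7 / 5 : ℝ)) ^ (1 / 2 : ℝ) :=
          Real.rpow_le_rpow hNpos.le hN2 (by norm_num)
      _ = X ^ (7 / 10 : ℝ) := by
          rw [← Real.rpow_mul hX0.le]; norm_num
  have hp2 : (N : ℝ) ^ (-(3 / 2) : ℝ) ≤ 3 * X ^ (-(21 / 10) : ℝ) := by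
    calc (N : ℝ) ^ (-(3 / 2) : ℝ) ≤ (X ^ (7 / 5 : ℝ) / 2) ^ (-(3 / 2) : ℝ) :=
          Real.rpow_le_rpow_of_nonpos (by positivity) hN1 (by norm_num)
      _ = X ^ (-(21 / 10) : ℝ) * 2 ^ (3 / 2 : ℝ) := by
          rw [Real.div_rpow (by positivity) (by norm_num), ← Real.rpow_mul hX0.le,
            Real.rpow_neg (by norm_num : (0 : ℝ) ≤ 2), div_inv_eq_mul]
          norm_num
      _ ≤ X ^ (-(21 / 10) : ℝ) * 3 := by
          gcongr
          have h3 : (2 : ℝ) ^ (3 / 2 : ℝ) = 2 * √2 := by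
            rw [show (3 / 2 : ℝ) = 1 + 1 / 2 by norm_num, Real.rpow_add (by norm_num),
              Real.rpow_one, Real.sqrt_eq_rpow]
          rw [h3]
          have h4 : √2 ≤ 3 / 2 := by
            rw [Real.sqrt_le_left (by norm_num)]
            norm_num
          linarith
      _ = _ := by ring
  have hq1 : X ^ (7 / 10 : ℝ) / X = X ^ (-(3 / 10) : ℝ) := by
    rw [div_eq_iff hX0.ne']
    nth_rewrite 3 [← Real.rpow_one X]
    rw [← Real.rpow_add hX0]
    norm_num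
  have hq2 : X ^ (-(3 / 10) : ℝ) ≤ X ^ (-(1 / 10) : ℝ) :=
    Real.rpow_le_rpow_of_exponent_le hX1 (by norm_num)
  have hq3 : X ^ 2 * X ^ (-(21 / 10) : ℝ) = X ^ (-(1 / 10) : ℝ) := by
    rw [← Real.rpow_natCast, ← Real.rpow_add hX0]
    norm_num
  set Y : ℝ := X ^ (-(1 / 10) : ℝ) with hY
  have hY0 : 0 < Y := by positivity
  have hz : ‖riemannZeta (1 / 2 + τ * I) - dpol N τ‖ ≤ 116 * Y := by
    refine h2.trans ?_
    have h3 : (N : ℝ) ^ (1 / 2 : ℝ) / τ ≤ 2 * Y := by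
      calc (N : ℝ) ^ (1 / 2 : ℝ) / τ ≤ X ^ (7 / 10 : ℝ) / (X / 2) := by gcongr
        _ = 2 * (X ^ (7 / 10 : ℝ) / X) := by field_simp
        _ ≤ 2 * Y := by rw [hq1]; linarith
    have h4 : τ ^ 2 * (N : ℝ) ^ (-(3 / 2) : ℝ) ≤ 27 * Y := by
      calc τ ^ 2 * (N : ℝ) ^ (-(3 / 2) : ℝ) ≤ (3 * X) ^ 2 * (3 * X ^ (-(21 / 10) : ℝ)) := by
            gcongr
        _ = 27 * (X ^ 2 * X ^ (-(21 / 10) : ℝ)) := by ring
        _ = 27 * Y := by rw [hq3]
    linarith
  have hS : ‖dpol N τ‖ ≤ 2 * X ^ (7 / 10 : ℝ) := (norm_dpol_le N τ).trans (by linarith)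
  have hRn : ‖R‖ ≤ Real.exp (Real.pi * V / 4) + C := by
    have e : R = rat T v + (R - rat T v) := by ring
    rw [e]
    refine (norm_add_le _ _).trans ?_
    have h3 : ‖rat T v‖ ≤ Real.exp (Real.pi * V / 4) := by
      rw [norm_rat, Real.exp_le_exp]
      nlinarith [Real.pi_pos]
    have h4 : C / T ≤ C := div_le_self hC0 (by linarith)
    linarith
  have hC1 : ‖R - rat T v‖ ≤ C / X := h1.trans (by gcongr)
  have heq : xi (1 / 2 + (τ : ℝ) * I) / gam (1 / 2 + T * I) - rat T v * dpol N τ =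
      (R - rat T v) * dpol N τ + R * (riemannZeta (1 / 2 + τ * I) - dpol N τ) := by
    rw [xi_eq_gam, hR]
    ring
  rw [heq]
  refine (norm_add_le _ _).trans ?_
  rw [norm_mul, norm_mul]
  have h5 : ‖R - rat T v‖ * ‖dpol N τ‖ ≤ 2 * C * Y := by
    calc ‖R - rat T v‖ * ‖dpol N τ‖ ≤ C / X * (2 * X ^ (7 / 10 : ℝ)) := by gcongr
      _ = 2 * C * (X ^ (7 / 10 : ℝ) / X) := by ring
      _ ≤ 2 * C * Y := by
        rw [hq1]
        gcongr
  have h6 : ‖R‖ * ‖riemannZeta (1 / 2 + τ * I) - dpol N τ‖ ≤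
      (Real.exp (Real.pi * V / 4) + C) * (116 * Y) := by gcongr
  linarith

/-- far from the centre -/
lemma far_le : ∃ C : ℝ, 0 ≤ C ∧ ∀ T v : ℝ, 2 ≤ T →
    ‖xi (1 / 2 + (T + v : ℝ) * I) / gam (1 / 2 + T * I)‖ ≤ C * T ^ 3 * Real.exp (4 * |v|) := by
  obtain ⟨C1, hC1, h1⟩ := xi_le
  obtain ⟨C2, hC2, h2⟩ := size_le_gam
  refine ⟨8 * C1 * C2, by positivity, fun T v hT => ?_⟩
  have hT0 : 0 < T := by linarith
  have hx := h1 (T + v)
  have hg := h2 T hT
  have hg0 : 0 < ‖gam (1 / 2 + T * I)‖ := norm_pos_iff.2 (gam_ne_zero T)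
  have hs : Real.exp (-(Real.pi * T / 4)) ≤ size T := by
    rw [size]
    have h3 : (1 : ℝ) ≤ T ^ (7 / 4 : ℝ) := Real.one_le_rpow (by linarith) (by norm_num)
    have h4 := Real.exp_pos (-(Real.pi * T / 4))
    nlinarith
  have hab : |T + v| ≤ T + |v| := by
    refine (abs_add_le _ _).trans ?_
    rw [abs_of_pos hT0]
  have hab2 : T - |v| ≤ |T + v| := by
    have h3 := neg_abs_le v
    have h4 := le_abs_self (T + v)
    linarith
  have hv0 := abs_nonneg v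
  have h3 : (1 + |T + v|) ^ 3 ≤ 8 * T ^ 3 * Real.exp (3 * |v|) := by
    have h4 : 1 + |T + v| ≤ 2 * T * Real.exp |v| := by
      have h5 := Real.add_one_le_exp |v|
      nlinarith
    calc (1 + |T + v|) ^ 3 ≤ (2 * T * Real.exp |v|) ^ 3 := by gcongr
      _ = 8 * T ^ 3 * Real.exp (3 * |v|) := by
        rw [mul_pow, mul_pow, ← Real.exp_nat_mul]
        norm_num
  have h4 : Real.exp (-(Real.pi * |T + v| / 4)) ≤
      Real.exp (-(Real.pi * T / 4)) * Real.exp |v| := by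
    rw [← Real.exp_add, Real.exp_le_exp]
    nlinarith [Real.pi_pos, Real.pi_lt_four]
  rw [norm_div, div_le_iff₀ hg0]
  calc ‖xi (1 / 2 + (T + v : ℝ) * I)‖
      ≤ C1 * (1 + |T + v|) ^ 3 * Real.exp (-(Real.pi * |T + v| / 4)) := hx
    _ ≤ C1 * (8 * T ^ 3 * Real.exp (3 * |v|)) *
        (Real.exp (-(Real.pi * T / 4)) * Real.exp |v|) := by gcongr
    _ = 8 * C1 * T ^ 3 * Real.exp (4 * |v|) * Real.exp (-(Real.pi * T / 4)) := by
        rw [show 4 * |v| = 3 * |v| + |v| by ring, Real.exp_add]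
        ring
    _ ≤ 8 * C1 * T ^ 3 * Real.exp (4 * |v|) * (C2 * ‖gam (1 / 2 + T * I)‖) := by
        gcongr
        exact hs.trans hg
    _ = _ := by ring

/-- the flow at negative times as a weighted Dirichlet polynomial -/
theorem flow_approx {κ : ℝ} (hκ : 0 < κ) : ∃ C X₀ : ℝ, 0 ≤ C ∧ 2 ≤ X₀ ∧
    ∀ (X T : ℝ) (N : ℕ), X₀ ≤ X → X ≤ T → T ≤ 2 * X →
    X ^ (7 / 5 : ℝ) / 2 ≤ N → (N : ℝ) ≤ X ^ (7 / 5 : ℝ) →
    ‖flow (-κ / Real.log T) (1 / 2 + T * I) / gam (1 / 2 + T * I) -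
      ∑ n ∈ Finset.range N, wt κ (n + 1) T * ((n + 1 : ℝ) : ℂ) ^ (-(1 / 2 + T * I : ℂ))‖ ≤
      C * X ^ (-(1 / 10) : ℝ) := by
  set V : ℝ := √(24 * κ) with hV
  have hV0 : 0 ≤ V := Real.sqrt_nonneg _
  have hV2 : V ^ 2 = 24 * κ := Real.sq_sqrt (by positivity)
  obtain ⟨C1, X₁, hC1, hX₁, h1⟩ := near_le hV0
  obtain ⟨C2, hC2, h2⟩ := far_le
  refine ⟨2 * (C1 + (C2 + 2) * Real.exp 16), X₁ + Real.exp κ, by positivity,
    by linarith [Real.exp_pos κ], fun X T N hX hXT hT2 hN1 hN2 => ?_⟩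
  have hX2 : 2 ≤ X := by linarith [Real.exp_pos κ]
  have hX0 : 0 < X := by linarith
  have hT2' : 2 ≤ T := by linarith
  have hT0 : 0 < T := by linarith
  have hκT : Real.exp κ ≤ T := by linarith
  have hl : κ ≤ Real.log T := by
    rw [Real.le_log_iff_exp_le hT0]
    exact hκT
  have hl0 : 0 < Real.log T := by linarith
  set r : ℝ := √(κ / Real.log T) with hr
  have hr0 : 0 ≤ r := Real.sqrt_nonneg _
  have hr2 : r ^ 2 = κ / Real.log T := Real.sq_sqrt (by positivity)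
  have hr1 : r ≤ 1 := by
    rw [hr, Real.sqrt_le_left (by norm_num), one_pow, div_le_one hl0]
    exact hl
  set Y : ℝ := X ^ (-(1 / 10) : ℝ) with hY
  have hY0 : 0 < Y := by positivity
  have hTY : T⁻¹ ≤ Y := by
    calc T⁻¹ ≤ X⁻¹ := by gcongr
      _ = X ^ (-1 : ℝ) := (Real.rpow_neg_one X).symm
      _ ≤ Y := Real.rpow_le_rpow_of_exponent_le (by linarith) (by norm_num)
  set g0 : ℂ := gam (1 / 2 + T * I) with hg0
  let A : ℝ → ℂ := fun u => (Real.exp (-u ^ 2) : ℂ) * (xi (1 / 2 + (T + r * u : ℝ) * I) / g0)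
  let B : ℝ → ℂ := fun u => (Real.exp (-u ^ 2) : ℂ) * (rat T (r * u) * dpol N (T + r * u))
  have hK0 : 0 ≤ C1 + (C2 + 2) * Real.exp 16 := by positivity
  -- pointwise bound
  have hpt : ∀ u : ℝ, ‖A u - B u‖ ≤
      (C1 + (C2 + 2) * Real.exp 16) * Y * Real.exp (-(1 / 4) * u ^ 2) := by
    intro u
    have e1 : A u - B u = (Real.exp (-u ^ 2) : ℂ) *
        (xi (1 / 2 + (T + r * u : ℝ) * I) / g0 - rat T (r * u) * dpol N (T + r * u)) := by
      simp only [A, B]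
      ring
    rw [e1, norm_mul, Complex.norm_real, Real.norm_of_nonneg (Real.exp_pos _).le]
    have hru : |r * u| ≤ |u| := by
      rw [abs_mul, abs_of_nonneg hr0]
      have := abs_nonneg u
      nlinarith
    by_cases hu : |r * u| ≤ V
    · have h3 := h1 X T (r * u) N (by linarith [Real.exp_pos κ]) hXT hT2 hN1 hN2 hu
      have h4 : Real.exp (-u ^ 2) ≤ Real.exp (-(1 / 4) * u ^ 2) := by
        rw [Real.exp_le_exp]
        nlinarith [sq_nonneg u]
      calc _ ≤ Real.exp (-(1 / 4) * u ^ 2) * (C1 * Y) := by gcongr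
        _ ≤ Real.exp (-(1 / 4) * u ^ 2) * ((C1 + (C2 + 2) * Real.exp 16) * Y) := by
            gcongr
            have : 0 ≤ (C2 + 2) * Real.exp 16 := by positivity
            linarith
        _ = _ := by ring
    · push Not at hu
      -- the Gaussian is tiny here
      have hu2 : 24 * Real.log T ≤ u ^ 2 := by
        have h3 : V ^ 2 ≤ (r * u) ^ 2 := by
          rw [← sq_abs (r * u)]
          gcongr
        rw [hV2, mul_pow, hr2, div_mul_eq_mul_div, le_div_iff₀ hl0] at h3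
        have h4 : κ * (24 * Real.log T) ≤ κ * u ^ 2 := by linarith
        exact le_of_mul_le_mul_left h4 hκ
      have hexp : Real.exp (-u ^ 2) * Real.exp (4 * |u|) ≤
          (T ^ 12)⁻¹ * Real.exp 16 * Real.exp (-(1 / 4) * u ^ 2) := by
        have h5 : (T ^ 12)⁻¹ = Real.exp (-(12 * Real.log T)) := by
          rw [Real.exp_neg, show (12 : ℝ) * Real.log T = ((12 : ℕ) : ℝ) * Real.log T by norm_num,
            Real.exp_nat_mul, Real.exp_log hT0]
        rw [h5, ← Real.exp_add, ← Real.exp_add, ← Real.exp_add, Real.exp_le_exp]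
        have h6 : 0 ≤ (|u| / 2 - 4) ^ 2 := sq_nonneg _
        have h7 : |u| ^ 2 = u ^ 2 := sq_abs u
        nlinarith
      have hA := h2 T (r * u) hT2'
      have hB : ‖rat T (r * u) * dpol N (T + r * u)‖ ≤ 2 * T ^ 3 * Real.exp (4 * |u|) := by
        rw [norm_mul, norm_rat]
        have h3 : Real.exp (-(Real.pi * (r * u) / 4)) ≤ Real.exp (4 * |u|) := by
          rw [Real.exp_le_exp]
          have h4 := neg_abs_le (r * u)
          have h5 := abs_nonneg (r * u)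
          nlinarith [Real.pi_pos, Real.pi_lt_four]
        have h4 : ‖dpol N (T + r * u)‖ ≤ 2 * T ^ 3 := by
          refine (norm_dpol_le N _).trans ?_
          gcongr
          calc (N : ℝ) ^ (1 / 2 : ℝ) ≤ (X ^ (7 / 5 : ℝ)) ^ (1 / 2 : ℝ) :=
                Real.rpow_le_rpow (Nat.cast_nonneg N) hN2 (by norm_num)
            _ = X ^ (7 / 10 : ℝ) := by rw [← Real.rpow_mul hX0.le]; norm_num
            _ ≤ X ^ (3 : ℝ) := Real.rpow_le_rpow_of_exponent_le (by linarith) (by norm_num)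
            _ = X ^ 3 := by norm_num
            _ ≤ T ^ 3 := by gcongr
        calc _ ≤ Real.exp (4 * |u|) * (2 * T ^ 3) := by gcongr
          _ = _ := by ring
      have hA' : ‖xi (1 / 2 + (T + r * u : ℝ) * I) / g0‖ ≤ C2 * T ^ 3 * Real.exp (4 * |u|) := by
        refine hA.trans ?_
        gcongr
      have hT3 : T ^ 3 * (T ^ 12)⁻¹ ≤ Y := by
        refine le_trans ?_ hTY
        have : T ^ 3 * (T ^ 12)⁻¹ = T⁻¹ * (T ^ 8)⁻¹ := by field_simp
        rw [this]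
        have h8 : (T ^ 8)⁻¹ ≤ 1 := inv_le_one_of_one_le₀ (one_le_pow₀ (by linarith))
        calc T⁻¹ * (T ^ 8)⁻¹ ≤ T⁻¹ * 1 := by gcongr
          _ = T⁻¹ := mul_one _
      calc Real.exp (-u ^ 2) * ‖xi (1 / 2 + (T + r * u : ℝ) * I) / g0 -
            rat T (r * u) * dpol N (T + r * u)‖
          ≤ Real.exp (-u ^ 2) * (C2 * T ^ 3 * Real.exp (4 * |u|) +
            2 * T ^ 3 * Real.exp (4 * |u|)) := by
            gcongr
            exact (norm_sub_le _ _).trans (by linarith)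
        _ = (C2 + 2) * T ^ 3 * (Real.exp (-u ^ 2) * Real.exp (4 * |u|)) := by ring
        _ ≤ (C2 + 2) * T ^ 3 * ((T ^ 12)⁻¹ * Real.exp 16 * Real.exp (-(1 / 4) * u ^ 2)) := by
            gcongr
        _ = (C2 + 2) * Real.exp 16 * (T ^ 3 * (T ^ 12)⁻¹) * Real.exp (-(1 / 4) * u ^ 2) := by ring
        _ ≤ (C2 + 2) * Real.exp 16 * Y * Real.exp (-(1 / 4) * u ^ 2) := by gcongr
        _ ≤ _ := by
            have : 0 ≤ C1 * Y * Real.exp (-(1 / 4) * u ^ 2) := by positivity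
            nlinarith
  -- continuity and integrability
  have hAc : Continuous A := by
    have := differentiable_xi'.continuous
    simp only [A]
    fun_prop
  have hBsum : B = fun u => ∑ n ∈ Finset.range N, (Real.exp (-u ^ 2) : ℂ) * (rat T (r * u) *
      ((n + 1 : ℝ) : ℂ) ^ (-(1 / 2 + (T + r * u : ℝ) * I : ℂ))) := by
    funext u
    simp only [B, dpol, Finset.mul_sum]
  have hti : ∀ n ∈ Finset.range N, Integrable fun u : ℝ => (Real.exp (-u ^ 2) : ℂ) *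
      (rat T (r * u) * ((n + 1 : ℝ) : ℂ) ^ (-(1 / 2 + (T + r * u : ℝ) * I : ℂ))) := fun n _ =>
    integrable_term (κ := κ) (T := T) (x := (n + 1 : ℝ)) (by positivity)
  have hBint : Integrable B := by
    rw [hBsum]
    exact integrable_finsetSum _ hti
  have hratc : Continuous fun v : ℝ => rat T v := by
    unfold rat
    fun_prop
  have hBc : Continuous B := by
    have h3 := continuous_dpol N
    simp only [B]
    fun_prop
  have hgint : Integrable fun u : ℝ => (C1 + (C2 + 2) * Real.exp 16) * Y *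
      Real.exp (-(1 / 4) * u ^ 2) :=
    (integrable_exp_neg_mul_sq (by norm_num)).const_mul _
  have hDint : Integrable fun u => A u - B u :=
    Integrable.mono' hgint (hAc.sub hBc).aestronglyMeasurable (Eventually.of_forall hpt)
  have hAint : Integrable A := by
    have := hDint.add hBint
    refine this.congr (Eventually.of_forall fun u => ?_)
    simp
  have hsub : ∫ u, (A u - B u) = (∫ u, A u) - ∫ u, B u := integral_sub hAint hBint
  have hnorm : ‖∫ u, (A u - B u)‖ ≤ (C1 + (C2 + 2) * Real.exp 16) * Y * (2 * √Real.pi) := by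
    refine (norm_integral_le_of_norm_le hgint (Eventually.of_forall hpt)).trans (le_of_eq ?_)
    rw [integral_const_mul, integral_gaussian]
    congr 1
    have : Real.pi / (1 / 4) = 2 ^ 2 * Real.pi := by ring
    rw [this, Real.sqrt_mul (by norm_num), Real.sqrt_sq (by norm_num)]
  have hAeq : flow (-κ / Real.log T) (1 / 2 + T * I) / g0 = (√Real.pi : ℂ)⁻¹ * ∫ u, A u := by
    rw [flow_eq hκ hT2', mul_div_assoc, ← integral_div]
    congr 1
    refine integral_congr_ae (Eventually.of_forall fun u => ?_)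
    simp only [A]
    ring
  have hpi0 : (√Real.pi : ℂ) ≠ 0 := by
    exact_mod_cast (Real.sqrt_pos.2 Real.pi_pos).ne'
  have hBeq : ∑ n ∈ Finset.range N, wt κ (n + 1) T * ((n + 1 : ℝ) : ℂ) ^ (-(1 / 2 + T * I : ℂ)) =
      (√Real.pi : ℂ)⁻¹ * ∫ u, B u := by
    have hBi : ∫ u, B u = ∑ n ∈ Finset.range N, ∫ u : ℝ, (Real.exp (-u ^ 2) : ℂ) *
        (rat T (r * u) * ((n + 1 : ℝ) : ℂ) ^ (-(1 / 2 + (T + r * u : ℝ) * I : ℂ))) := by
      rw [hBsum]
      exact integral_finsetSum _ hti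
    rw [hBi, Finset.mul_sum]
    refine Finset.sum_congr rfl fun n _ => ?_
    rw [integral_term hκ hT2' (by positivity), inv_mul_cancel_left₀ hpi0]
  rw [hAeq, hBeq, ← mul_sub, ← hsub, norm_mul, norm_inv, Complex.norm_real,
    Real.norm_of_nonneg (Real.sqrt_nonneg _)]
  have hsp : 0 < √Real.pi := Real.sqrt_pos.2 Real.pi_pos
  calc (√Real.pi)⁻¹ * ‖∫ u, (A u - B u)‖
      ≤ (√Real.pi)⁻¹ * ((C1 + (C2 + 2) * Real.exp 16) * Y * (2 * √Real.pi)) := by gcongr
    _ = 2 * (C1 + (C2 + 2) * Real.exp 16) * Y := by field_simp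

end Pool.Agent.DBN.Nw
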