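import Pool.Agent.DBN.NewmanP

/-!
# Oscillatory integrals, weights, and the test sum
-/

set_option autoImplicit false

namespace Pool.Agent.DBN.Nw

open Complex MeasureTheory Set Filter Topology

/-- one integration by parts -/
lemma osc {X M M' L : ℝ} (hX : 0 ≤ X) (hL : L ≠ 0) {f f' : ℝ → ℂ}
    (hf : ∀ T ∈ Icc X (2 * X), HasDerivAt f (f' T) T) (hfc : ContinuousOn f' (Icc X (2 * X)))
    (hM : ∀ T ∈ Icc X (2 * X), ‖f T‖ ≤ M) (hM' : ∀ T ∈ Icc X (2 * X), ‖f' T‖ ≤ M') :
    ‖∫ T in X..(2 * X), f T * exp ((T * L : ℝ) * I)‖ ≤ (2 * M + M' * X) / |L| := by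
  have hX2 : X ≤ 2 * X := by linarith
  have hu : uIcc X (2 * X) = Icc X (2 * X) := uIcc_of_le hX2
  have hLI : (L : ℂ) * I ≠ 0 := mul_ne_zero (by exact_mod_cast hL) I_ne_zero
  have hLn : ‖(L : ℂ) * I‖ = |L| := by simp
  let v : ℝ → ℂ := fun T => exp ((T * L : ℝ) * I) / (L * I)
  have hv : ∀ T ∈ uIcc X (2 * X), HasDerivAt v (exp ((T * L : ℝ) * I)) T := by
    intro T _
    have h1 : HasDerivAt (fun T : ℝ => (((T * L : ℝ) : ℂ)) * I) ((L : ℂ) * I) T := by
      have h2 : HasDerivAt (fun T : ℝ => T * L) L T := by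
        simpa using (hasDerivAt_id T).mul_const L
      exact h2.ofReal_comp.mul_const I
    have h3 := h1.cexp.div_const ((L : ℂ) * I)
    have e : exp ((T * L : ℝ) * I) * ((L : ℂ) * I) / ((L : ℂ) * I) = exp ((T * L : ℝ) * I) :=
      mul_div_cancel_right₀ _ hLI
    rw [e] at h3
    exact h3
  have hvn : ∀ T : ℝ, ‖v T‖ = 1 / |L| := by
    intro T
    simp only [v]
    rw [norm_div, hLn, Complex.norm_exp_ofReal_mul_I]
  have hvc : Continuous v := by
    simp only [v]
    fun_prop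
  have hparts := intervalIntegral.integral_mul_deriv_eq_deriv_mul (u := f) (v := v) (u' := f')
    (v' := fun T : ℝ => exp ((T * L : ℝ) * I)) (a := X) (b := 2 * X) (by rw [hu]; exact hf) hv
    (ContinuousOn.intervalIntegrable (by rw [hu]; exact hfc))
    (Continuous.intervalIntegrable (by fun_prop) _ _)
  rw [hparts]
  have hL0 : 0 < |L| := abs_pos.2 hL
  have h1 : ‖f (2 * X) * v (2 * X)‖ ≤ M / |L| := by
    rw [norm_mul, hvn]
    have := hM (2 * X) ⟨hX2, le_refl _⟩
    calc ‖f (2 * X)‖ * (1 / |L|) ≤ M * (1 / |L|) := by gcongr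
      _ = _ := by ring
  have h2 : ‖f X * v X‖ ≤ M / |L| := by
    rw [norm_mul, hvn]
    have := hM X ⟨le_refl _, hX2⟩
    calc ‖f X‖ * (1 / |L|) ≤ M * (1 / |L|) := by gcongr
      _ = _ := by ring
  have h3 : ‖∫ T in X..(2 * X), f' T * v T‖ ≤ M' / |L| * |2 * X - X| := by
    apply intervalIntegral.norm_integral_le_of_norm_le_const
    intro T hT
    rw [uIoc_of_le hX2] at hT
    rw [norm_mul, hvn]
    have := hM' T ⟨hT.1.le, hT.2⟩
    calc ‖f' T‖ * (1 / |L|) ≤ M' * (1 / |L|) := by gcongr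
      _ = _ := by ring
  have e3 : |2 * X - X| = X := by
    rw [abs_of_nonneg (by linarith)]
    ring
  rw [e3] at h3
  have h4 := norm_sub_le (f (2 * X) * v (2 * X) - f X * v X) (∫ T in X..(2 * X), f' T * v T)
  have h5 := norm_sub_le (f (2 * X) * v (2 * X)) (f X * v X)
  calc _ ≤ M / |L| + M / |L| + M' / |L| * X := by linarith
    _ = _ := by ring

/-- the pure frequency -/
lemma osc_one {X L : ℝ} (hX : 0 ≤ X) (hL : L ≠ 0) :
    ‖∫ T in X..(2 * X), exp ((T * L : ℝ) * I)‖ ≤ 2 / |L| := by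
  have h := osc (X := X) (M := 1) (M' := 0) (L := L) hX hL (f := fun _ => 1) (f' := fun _ => 0)
    (fun T _ => hasDerivAt_const T (1 : ℂ)) continuousOn_const (by simp) (by simp)
  simpa using h

/-- distance of logarithms of distinct naturals -/
lemma log_gap {a b : ℕ} (ha : 0 < a) (hab : a < b) :
    (b - a : ℝ) / b ≤ Real.log b - Real.log a := by
  have ha' : (0 : ℝ) < a := by exact_mod_cast ha
  have hb' : (0 : ℝ) < b := by exact_mod_cast (ha.trans hab)
  have h := Real.one_sub_inv_le_log_of_pos (x := (b : ℝ) / a) (by positivity)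
  rw [Real.log_div hb'.ne' ha'.ne'] at h
  have e : (b - a : ℝ) / b = 1 - ((b : ℝ) / a)⁻¹ := by
    rw [inv_div]
    field_simp
  rw [e]
  exact h

/-- reciprocals of the log gaps against a fixed `m ∈ (K, 2K]` -/
lemma inv_gap {K m n : ℕ} (hKm : K < m) (hm : m ≤ 2 * K) (hn : n + 1 ≠ m) :
    1 / |Real.log m - Real.log (n + 1 : ℝ)| ≤ 2 + (if n < 4 * K then (4 * K : ℝ) else 0) := by
  have hm0 : 0 < m := by omega
  have hK0 : 0 < K := by omega
  have hmR : (0 : ℝ) < m := by exact_mod_cast hm0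
  have hKR : (1 : ℝ) ≤ K := by exact_mod_cast hK0
  have hcast : ((n + 1 : ℕ) : ℝ) = (n : ℝ) + 1 := by push_cast; ring
  have key : ∀ g : ℝ, 0 < g → g ≤ |Real.log m - Real.log (n + 1 : ℝ)| →
      1 / |Real.log m - Real.log (n + 1 : ℝ)| ≤ 1 / g := by
    intro g hg h
    exact one_div_le_one_div_of_le hg h
  rcases lt_or_gt_of_ne hn with h | h
  · -- n + 1 < m
    have h1 := log_gap (a := n + 1) (b := m) (by omega) h
    rw [hcast] at h1
    have hn4 : n < 4 * K := by omega
    rw [if_pos hn4]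
    have h2 : (1 : ℝ) / (4 * K) ≤ ((m : ℝ) - (n + 1)) / m := by
      have h3 : (1 : ℝ) ≤ (m : ℝ) - (n + 1) := by
        have : (n + 1 + 1 : ℕ) ≤ m := by omega
        have h4 : ((n + 1 + 1 : ℕ) : ℝ) ≤ m := by exact_mod_cast this
        push_cast at h4
        linarith
      have h5 : (m : ℝ) ≤ 4 * K := by
        have : m ≤ 4 * K := by omega
        exact_mod_cast this
      calc (1 : ℝ) / (4 * K) ≤ 1 / m := by gcongr
        _ ≤ _ := by gcongr
    have h6 := key (1 / (4 * K)) (by positivity) (h2.trans (h1.trans (le_abs_self _)))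
    rw [one_div_one_div] at h6
    linarith
  · have h1 := log_gap (a := m) (b := n + 1) hm0 h
    rw [hcast] at h1
    have habs : Real.log (n + 1 : ℝ) - Real.log m ≤ |Real.log m - Real.log (n + 1 : ℝ)| := by
      rw [abs_sub_comm]
      exact le_abs_self _
    have hn1 : (0 : ℝ) < (n : ℝ) + 1 := by positivity
    by_cases h2 : n + 1 < 2 * m
    · have hn4 : n < 4 * K := by omega
      rw [if_pos hn4]
      have h3 : (1 : ℝ) / (4 * K) ≤ ((n : ℝ) + 1 - m) / (n + 1) := by
        have h4 : (1 : ℝ) ≤ (n : ℝ) + 1 - m := by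
          have : m + 1 ≤ n + 1 := by omega
          have h5 : ((m + 1 : ℕ) : ℝ) ≤ ((n + 1 : ℕ) : ℝ) := by exact_mod_cast this
          push_cast at h5
          linarith
        have h5 : (n : ℝ) + 1 ≤ 4 * K := by
          have : n + 1 ≤ 4 * K := by omega
          exact_mod_cast this
        calc (1 : ℝ) / (4 * K) ≤ 1 / (n + 1) := by gcongr
          _ ≤ _ := by gcongr
      have h6 := key (1 / (4 * K)) (by positivity) (h3.trans (h1.trans habs))
      rw [one_div_one_div] at h6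
      linarith
    · push Not at h2
      have h3 : (1 : ℝ) / 2 ≤ ((n : ℝ) + 1 - m) / (n + 1) := by
        rw [div_le_div_iff₀ (by norm_num) hn1]
        have h4 : ((2 * m : ℕ) : ℝ) ≤ ((n + 1 : ℕ) : ℝ) := by exact_mod_cast h2
        push_cast at h4
        linarith
      have h6 := key (1 / 2) (by norm_num) (h3.trans (h1.trans habs))
      rw [one_div_one_div] at h6
      split_ifs
      · have : (0 : ℝ) ≤ 4 * K := by positivity
        linarith
      · linarith

/-- the total off-diagonal weight against a fixed `m ∈ (K, 2K]` -/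
lemma offdiag_sum {K N m : ℕ} (hKm : K < m) (hm : m ≤ 2 * K) :
    ∑ n ∈ (Finset.range N).erase (m - 1), (n + 1 : ℝ) ^ (-(1 / 2) : ℝ) *
      (1 / |Real.log m - Real.log (n + 1 : ℝ)|) ≤
      4 * (N : ℝ) ^ (1 / 2 : ℝ) + 16 * K * (K : ℝ) ^ (1 / 2 : ℝ) := by
  have hm0 : 0 < m := by omega
  have hpos : ∀ n : ℕ, 0 ≤ (n + 1 : ℝ) ^ (-(1 / 2) : ℝ) := fun n => by positivity
  calc ∑ n ∈ (Finset.range N).erase (m - 1), (n + 1 : ℝ) ^ (-(1 / 2) : ℝ) *
      (1 / |Real.log m - Real.log (n + 1 : ℝ)|)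
      ≤ ∑ n ∈ (Finset.range N).erase (m - 1), (n + 1 : ℝ) ^ (-(1 / 2) : ℝ) *
        (2 + (if n < 4 * K then (4 * K : ℝ) else 0)) := by
        refine Finset.sum_le_sum fun n hn => ?_
        apply mul_le_mul_of_nonneg_left _ (hpos n)
        apply inv_gap hKm hm
        have := Finset.ne_of_mem_erase hn
        omega
    _ ≤ ∑ n ∈ Finset.range N, (n + 1 : ℝ) ^ (-(1 / 2) : ℝ) *
        (2 + (if n < 4 * K then (4 * K : ℝ) else 0)) := by
        apply Finset.sum_le_sum_of_subset_of_nonneg (Finset.erase_subset _ _)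
        intro n _ _
        apply mul_nonneg (hpos n)
        split_ifs <;> positivity
    _ = 2 * ∑ n ∈ Finset.range N, (n + 1 : ℝ) ^ (-(1 / 2) : ℝ) + 4 * K *
        ∑ n ∈ Finset.range N, (if n < 4 * K then (n + 1 : ℝ) ^ (-(1 / 2) : ℝ) else 0) := by
        rw [Finset.mul_sum, Finset.mul_sum, ← Finset.sum_add_distrib]
        refine Finset.sum_congr rfl fun n _ => ?_
        split_ifs <;> ring
    _ ≤ 2 * (2 * (N : ℝ) ^ (1 / 2 : ℝ)) + 4 * K * (2 * ((4 * K : ℕ) : ℝ) ^ (1 / 2 : ℝ)) := by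
        gcongr
        · exact sum_rpow_half N
        · refine le_trans ?_ (sum_rpow_half (4 * K))
          rw [← Finset.sum_filter]
          apply Finset.sum_le_sum_of_subset_of_nonneg
          · intro n hn
            simp only [Finset.mem_filter, Finset.mem_range] at hn ⊢
            exact hn.2
          · intro n _ _
            exact hpos n
    _ = _ := by
        push_cast
        rw [Real.mul_rpow (by norm_num) (Nat.cast_nonneg K)]
        have h4 : (4 : ℝ) ^ (1 / 2 : ℝ) = 2 := by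
          rw [show (4 : ℝ) = 2 ^ (2 : ℝ) by norm_num, ← Real.rpow_mul (by norm_num)]
          norm_num
        rw [h4]
        ring

lemma log_two_pi : 0 ≤ Real.log (2 * Real.pi) ∧ Real.log (2 * Real.pi) ≤ 2 := by
  have hpi := Real.pi_gt_three
  have hpi2 := Real.pi_lt_d2
  constructor
  · apply Real.log_nonneg
    linarith
  · rw [Real.log_le_iff_le_exp (by positivity)]
    have h1 := Real.exp_one_gt_d9
    have h2 : Real.exp 2 = Real.exp 1 * Real.exp 1 := by
      rw [← Real.exp_add]; norm_num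
    rw [h2]
    nlinarith

/-- real part of the base of the exponent -/
noncomputable def bet (x T : ℝ) : ℝ := Real.log (T / (2 * Real.pi)) / 2 - Real.log x

lemma wt_eq (κ x T : ℝ) : wt κ x T =
    exp (((-(κ / (4 * Real.log T)) * (bet x T ^ 2 - Real.pi ^ 2 / 16) : ℝ) : ℂ) +
      ((-(κ / (4 * Real.log T)) * (bet x T * Real.pi / 2) : ℝ) : ℂ) * I) := by
  rw [wt]
  congr 1
  simp only [bet]
  push_cast
  linear_combination (-(κ / (4 * Real.log T)) * (Real.pi / 4) ^ 2 : ℂ) * Complex.I_sq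

lemma norm_wt (κ x T : ℝ) : ‖wt κ x T‖ =
    Real.exp (-(κ / (4 * Real.log T)) * (bet x T ^ 2 - Real.pi ^ 2 / 16)) := by
  rw [wt_eq, Complex.norm_exp, Complex.add_re, Complex.ofReal_re, Complex.re_ofReal_mul,
    Complex.I_re, mul_zero, add_zero]

lemma re_wt (κ x T : ℝ) : (wt κ x T).re =
    Real.exp (-(κ / (4 * Real.log T)) * (bet x T ^ 2 - Real.pi ^ 2 / 16)) *
      Real.cos (-(κ / (4 * Real.log T)) * (bet x T * Real.pi / 2)) := by
  rw [wt_eq, Complex.exp_re, Complex.add_re, Complex.add_im, Complex.ofReal_re,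
    Complex.ofReal_im, Complex.re_ofReal_mul, Complex.im_ofReal_mul, Complex.I_re, Complex.I_im,
    mul_zero, add_zero, mul_one, zero_add]

/-- derivative of the weight -/
noncomputable def dwt (κ x T : ℝ) : ℂ :=
  wt κ x T * ((κ / (4 * T * Real.log T ^ 2) : ℝ) * ((bet x T : ℂ) + Real.pi / 4 * I) ^ 2 -
    (κ / (4 * T * Real.log T) : ℝ) * ((bet x T : ℂ) + Real.pi / 4 * I))

lemma hasDerivAt_wt (κ x : ℝ) {T : ℝ} (hT : 1 < T) : HasDerivAt (wt κ x) (dwt κ x T) T := by
  have hT0 : 0 < T := by linarith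
  have hl : 0 < Real.log T := Real.log_pos hT
  have hpi := Real.pi_pos
  have h1 : HasDerivAt (fun T : ℝ => Real.log (T / (2 * Real.pi))) (1 / T) T := by
    have h2 : HasDerivAt (fun T : ℝ => T / (2 * Real.pi)) (1 / (2 * Real.pi)) T := by
      simpa using (hasDerivAt_id T).div_const (2 * Real.pi)
    have h3 := h2.log (by positivity)
    have e : 1 / (2 * Real.pi) / (T / (2 * Real.pi)) = 1 / T := by field_simp
    rwa [e] at h3
  have h4 : HasDerivAt (fun T : ℝ => ((Real.log (T / (2 * Real.pi)) : ℝ) : ℂ)) ((1 / T : ℝ) : ℂ) T :=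
    h1.ofReal_comp
  have h5 : HasDerivAt (fun T : ℝ => (((Real.log (T / (2 * Real.pi)) : ℝ) : ℂ) / 2 - Real.log x +
      Real.pi / 4 * I)) (((1 / T : ℝ) : ℂ) / 2) T :=
    ((h4.div_const 2).sub_const _).add_const _
  have h6 : HasDerivAt (fun T : ℝ => κ / (4 * Real.log T)) (-(κ / (4 * T * Real.log T ^ 2))) T := by
    have h7 : HasDerivAt (fun T : ℝ => 4 * Real.log T) (4 * T⁻¹) T :=
      (Real.hasDerivAt_log hT0.ne').const_mul 4
    have h8 := (hasDerivAt_const T κ).div h7 (by positivity)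
    have e : (0 * (4 * Real.log T) - κ * (4 * T⁻¹)) / (4 * Real.log T) ^ 2 =
        -(κ / (4 * T * Real.log T ^ 2)) := by
      field_simp
      ring
    rw [e] at h8
    exact h8
  have h9 : HasDerivAt (fun T : ℝ => (-(κ / (4 * Real.log T)) : ℂ))
      ((κ / (4 * T * Real.log T ^ 2) : ℝ) : ℂ) T := by
    have h10 := h6.ofReal_comp.neg
    have e : -(((-(κ / (4 * T * Real.log T ^ 2)) : ℝ)) : ℂ) =
        ((κ / (4 * T * Real.log T ^ 2) : ℝ) : ℂ) := by
      push_cast
      ring
    rw [e] at h10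
    refine h10.congr_of_eventuallyEq (Eventually.of_forall fun t => ?_)
    simp only [Pi.neg_apply]
    push_cast
    rfl
  have h11 := (h9.mul (h5.pow 2)).cexp
  have hT0' : (T : ℂ) ≠ 0 := by exact_mod_cast hT0.ne'
  have hl' : ((Real.log T : ℝ) : ℂ) ≠ 0 := by exact_mod_cast hl.ne'
  refine (h11.congr_deriv ?_).congr_of_eventuallyEq (Eventually.of_forall fun t => ?_)
  · rw [dwt, wt]
    simp only [Pi.mul_apply, Pi.pow_apply, bet]
    congr 1
    push_cast
    field_simp
    ring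
  · simp only [wt, Pi.mul_apply, Pi.pow_apply]

lemma bet_eq {x T : ℝ} (hT : 0 < T) :
    bet x T = (Real.log T - Real.log (2 * Real.pi)) / 2 - Real.log x := by
  rw [bet, Real.log_div hT.ne' (by positivity)]

lemma one_le_log {X : ℝ} (hX : 3 ≤ X) : 1 ≤ Real.log X := by
  rw [Real.le_log_iff_exp_le (by linarith)]
  have := Real.exp_one_lt_d9
  linarith

lemma wt_bounds {κ X T x : ℝ} (hκ : 0 < κ) (hX : 3 ≤ X) (hXT : X ≤ T)
    (hx1 : 1 ≤ x) (hx2 : x ≤ X ^ (7 / 5 : ℝ)) :
    ‖wt κ x T‖ ≤ Real.exp κ ∧ ‖dwt κ x T‖ ≤ 5 * κ * Real.exp κ / X := by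
  have hX0 : 0 < X := by linarith
  have hT0 : 0 < T := by linarith
  have hl : 1 ≤ Real.log T := one_le_log (hX.trans hXT)
  have hlX : Real.log X ≤ Real.log T := Real.log_le_log hX0 hXT
  have hpi := Real.pi_pos
  have hpi4 := Real.pi_lt_four
  have h1 : ‖wt κ x T‖ ≤ Real.exp κ := by
    rw [norm_wt, Real.exp_le_exp]
    have h2 : 0 ≤ κ / (4 * Real.log T) := by positivity
    have h3 : κ / (4 * Real.log T) * (Real.pi ^ 2 / 16) ≤ κ := by
      have h4 : κ / (4 * Real.log T) ≤ κ / 1 := by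
        gcongr
        linarith
      have h5 : Real.pi ^ 2 / 16 ≤ 1 := by nlinarith
      calc κ / (4 * Real.log T) * (Real.pi ^ 2 / 16) ≤ κ / 1 * 1 := by gcongr
        _ = κ := by ring
    have h6 : 0 ≤ κ / (4 * Real.log T) * bet x T ^ 2 := by positivity
    nlinarith
  refine ⟨h1, ?_⟩
  have hlx0 : 0 ≤ Real.log x := Real.log_nonneg hx1
  have hlx1 : Real.log x ≤ 7 / 5 * Real.log T := by
    calc Real.log x ≤ Real.log (X ^ (7 / 5 : ℝ)) := Real.log_le_log (by linarith) hx2
      _ = 7 / 5 * Real.log X := Real.log_rpow hX0 _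
      _ ≤ _ := by linarith
  obtain ⟨hp0, hp2⟩ := log_two_pi
  have hb : ‖(bet x T : ℂ) + Real.pi / 4 * I‖ ≤ 4 * Real.log T := by
    refine (norm_add_le _ _).trans ?_
    have e : (Real.pi / 4 * I : ℂ) = ((Real.pi / 4 : ℝ) : ℂ) * I := by push_cast; ring
    rw [e, norm_mul, Complex.norm_I, Complex.norm_real, Complex.norm_real, mul_one,
      Real.norm_of_nonneg (by positivity : 0 ≤ Real.pi / 4), Real.norm_eq_abs, bet_eq hT0]
    have h7 : |(Real.log T - Real.log (2 * Real.pi)) / 2 - Real.log x| ≤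
        Real.log T / 2 + 1 + 7 / 5 * Real.log T := by
      rw [abs_le]
      constructor <;> linarith
    linarith
  have hl0 : 0 < Real.log T := by linarith
  rw [dwt, norm_mul]
  have h8 : ‖(((κ / (4 * T * Real.log T ^ 2) : ℝ) : ℂ)) * ((bet x T : ℂ) + Real.pi / 4 * I) ^ 2 -
      ((κ / (4 * T * Real.log T) : ℝ) : ℂ) * ((bet x T : ℂ) + Real.pi / 4 * I)‖ ≤ 5 * κ / T := by
    refine (norm_sub_le _ _).trans ?_
    rw [norm_mul, norm_mul, norm_pow, Complex.norm_real, Complex.norm_real,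
      Real.norm_of_nonneg (by positivity), Real.norm_of_nonneg (by positivity)]
    have h9 : κ / (4 * T * Real.log T ^ 2) * ‖(bet x T : ℂ) + Real.pi / 4 * I‖ ^ 2 ≤ 4 * κ / T := by
      calc _ ≤ κ / (4 * T * Real.log T ^ 2) * (4 * Real.log T) ^ 2 := by gcongr
        _ = 4 * κ / T := by field_simp
    have h10 : κ / (4 * T * Real.log T) * ‖(bet x T : ℂ) + Real.pi / 4 * I‖ ≤ κ / T := by
      calc _ ≤ κ / (4 * T * Real.log T) * (4 * Real.log T) := by gcongr
        _ = κ / T := by field_simp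
    calc _ ≤ 4 * κ / T + κ / T := add_le_add h9 h10
      _ = _ := by ring
  calc ‖wt κ x T‖ * _ ≤ Real.exp κ * (5 * κ / T) := by gcongr
    _ ≤ Real.exp κ * (5 * κ / X) := by gcongr
    _ = _ := by ring

lemma continuousOn_dwt (κ x : ℝ) {X : ℝ} (hX : 3 ≤ X) :
    ContinuousOn (dwt κ x) (Icc X (2 * X)) := by
  have hpi := Real.pi_pos
  have hlog : ContinuousOn (fun T : ℝ => Real.log T) (Icc X (2 * X)) := by
    apply Real.continuousOn_log.mono
    intro t ht
    simp only [mem_compl_iff, mem_singleton_iff]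
    linarith [ht.1]
  have hlog0 : ∀ t ∈ Icc X (2 * X), Real.log t ≠ 0 := by
    intro t ht
    have := one_le_log (hX.trans ht.1)
    linarith
  have hT0 : ∀ t ∈ Icc X (2 * X), t ≠ 0 := fun t ht => by linarith [ht.1]
  have hbet : ContinuousOn (fun T : ℝ => bet x T) (Icc X (2 * X)) := by
    unfold bet
    refine ContinuousOn.sub (ContinuousOn.div_const ?_ 2) continuousOn_const
    refine ContinuousOn.log (by fun_prop) ?_
    intro t ht
    have := hT0 t ht
    positivity
  have hwt : ContinuousOn (wt κ x) (Icc X (2 * X)) := fun t ht =>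
    (hasDerivAt_wt κ x (by linarith [ht.1])).continuousAt.continuousWithinAt
  have hb : ContinuousOn (fun T : ℝ => (bet x T : ℂ) + Real.pi / 4 * I) (Icc X (2 * X)) :=
    (Complex.continuous_ofReal.comp_continuousOn hbet).add continuousOn_const
  have h1 : ContinuousOn (fun T : ℝ => ((κ / (4 * T * Real.log T ^ 2) : ℝ) : ℂ))
      (Icc X (2 * X)) := by
    apply Complex.continuous_ofReal.comp_continuousOn
    refine ContinuousOn.div continuousOn_const ?_ ?_
    · exact (continuousOn_const.mul continuousOn_id).mul (hlog.pow 2)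
    · intro t ht
      have h2 := hT0 t ht
      have h3 := hlog0 t ht
      positivity
  have h2 : ContinuousOn (fun T : ℝ => ((κ / (4 * T * Real.log T) : ℝ) : ℂ))
      (Icc X (2 * X)) := by
    apply Complex.continuous_ofReal.comp_continuousOn
    refine ContinuousOn.div continuousOn_const ?_ ?_
    · exact (continuousOn_const.mul continuousOn_id).mul hlog
    · intro t ht
      have h2 := hT0 t ht
      have h3 := hlog0 t ht
      positivity
  exact hwt.mul ((h1.mul (hb.pow 2)).sub (h2.mul hb))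

/-- the diagonal weights are large -/
lemma re_wt_lower {κ η X T x : ℝ} (hκ : 0 < κ) (hη : 0 < η) (hκη : κ * η ≤ 1) (hX : 3 ≤ X)
    (hX' : 1 ≤ η * Real.log X) (hXT : X ≤ T) (hT2 : T ≤ 2 * X)
    (hx1 : X ^ (1 / 2 - η : ℝ) ≤ x) (hx2 : x ≤ 2 * X ^ (1 / 2 - η : ℝ)) :
    1 / 2 * X ^ (-(κ * η ^ 2 / 4) : ℝ) ≤ (wt κ x T).re := by
  have hX0 : 0 < X := by linarith
  have hT0 : 0 < T := by linarith
  have hP0 : 0 < X ^ (1 / 2 - η : ℝ) := by positivity
  have hx0 : 0 < x := by linarith
  have hl : 1 ≤ Real.log T := one_le_log (hX.trans hXT)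
  have hlX1 : 1 ≤ Real.log X := one_le_log hX
  have hlX : Real.log X ≤ Real.log T := Real.log_le_log hX0 hXT
  have hlX2 : Real.log T ≤ Real.log 2 + Real.log X := by
    rw [← Real.log_mul (by norm_num) hX0.ne']
    exact Real.log_le_log hT0 hT2
  have hlx1 : (1 / 2 - η) * Real.log X ≤ Real.log x := by
    rw [← Real.log_rpow hX0]
    exact Real.log_le_log hP0 hx1
  have hlx2 : Real.log x ≤ Real.log 2 + (1 / 2 - η) * Real.log X := by
    rw [← Real.log_rpow hX0, ← Real.log_mul (by norm_num) hP0.ne']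
    exact Real.log_le_log hx0 hx2
  have hlog2 : Real.log 2 ≤ 1 := by
    have := Real.log_two_lt_d9
    linarith
  have hpi := Real.pi_pos
  obtain ⟨hp0, hp2⟩ := log_two_pi
  have hp3 : Real.log 2 ≤ Real.log (2 * Real.pi) := by
    apply Real.log_le_log (by norm_num)
    have := Real.pi_gt_three
    linarith
  have hbet : |bet x T| ≤ η * Real.log X := by
    rw [bet_eq hT0, abs_le]
    constructor
    · nlinarith
    · nlinarith
  have hbet2 : bet x T ^ 2 ≤ (η * Real.log X) ^ 2 := by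
    rw [← sq_abs]
    gcongr
  have hl0 : 0 < Real.log T := by linarith
  have hk0 : 0 ≤ κ / (4 * Real.log T) := by positivity
  rw [re_wt]
  have h1 : X ^ (-(κ * η ^ 2 / 4) : ℝ) ≤
      Real.exp (-(κ / (4 * Real.log T)) * (bet x T ^ 2 - Real.pi ^ 2 / 16)) := by
    rw [Real.rpow_def_of_pos hX0, Real.exp_le_exp]
    have h2 : κ / (4 * Real.log T) * bet x T ^ 2 ≤ κ * η ^ 2 / 4 * Real.log X := by
      calc κ / (4 * Real.log T) * bet x T ^ 2 ≤ κ / (4 * Real.log T) * (η * Real.log X) ^ 2 := by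
            gcongr
        _ = κ * η ^ 2 / 4 * Real.log X * (Real.log X / Real.log T) := by
            field_simp
        _ ≤ κ * η ^ 2 / 4 * Real.log X * 1 := by
            gcongr
            rw [div_le_one hl0]
            exact hlX
        _ = _ := mul_one _
    have h3 : 0 ≤ κ / (4 * Real.log T) * (Real.pi ^ 2 / 16) := by positivity
    nlinarith
  have h4 : 1 / 2 ≤ Real.cos (-(κ / (4 * Real.log T)) * (bet x T * Real.pi / 2)) := by
    rw [← Real.cos_abs, ← Real.cos_pi_div_three]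
    apply Real.cos_le_cos_of_nonneg_of_le_pi (abs_nonneg _) (by linarith)
    rw [abs_mul, abs_neg, abs_of_nonneg hk0, abs_div, abs_mul, abs_of_pos hpi, abs_two]
    calc κ / (4 * Real.log T) * (|bet x T| * Real.pi / 2)
        ≤ κ / (4 * Real.log T) * (η * Real.log X * Real.pi / 2) := by gcongr
      _ = κ * η * Real.pi / 8 * (Real.log X / Real.log T) := by field_simp; ring
      _ ≤ 1 * Real.pi / 8 * 1 := by
          gcongr
          rw [div_le_one hl0]
          exact hlX
      _ ≤ Real.pi / 3 := by linarith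
  have h5 : 0 ≤ X ^ (-(κ * η ^ 2 / 4) : ℝ) := by positivity
  calc 1 / 2 * X ^ (-(κ * η ^ 2 / 4) : ℝ) = X ^ (-(κ * η ^ 2 / 4) : ℝ) * (1 / 2) := by ring
    _ ≤ _ := by gcongr

end Pool.Agent.DBN.Nw
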