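import Pool.Agent.DBN.Defs
import Pool.Agent.Lib.ZetaCrude

/-!
# A Dirichlet polynomial approximation of zeta on the critical line

`ζ(s) = ∑_{n ≤ N} n^(-s) + O(N^(1/2) / |τ| + τ² N^(-3/2))` for `s = 1/2 + iτ`, `|τ| ≥ 1`
(Euler summation with the trapezoid rule).
-/

set_option autoImplicit false

namespace Pool.Agent.DBN.Nw

open Complex MeasureTheory Set Filter Topology

open Pool.Agent.Lib.ZetaCrude (hasDerivAt_cpow_real norm_cpow_sub_le norm_g_le G_eq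
  summable_rpow_aux)

/-- trapezoid version of the `n`-th term -/
noncomputable def hz (n : ℕ) (s : ℂ) : ℂ :=
  (s - 1) * ((((n + 1 : ℝ) : ℂ) ^ (-s) + ((n + 2 : ℝ) : ℂ) ^ (-s)) / 2) +
    ((n + 2 : ℝ) : ℂ) ^ (1 - s) - ((n + 1 : ℝ) : ℂ) ^ (1 - s)

lemma norm_hz_le (n : ℕ) (s : ℂ) (hs : 0 ≤ s.re) :
    ‖hz n s‖ ≤ ‖s - 1‖ * (‖s‖ * ‖s + 1‖ / 2 * (n + 1 : ℝ) ^ (-s.re - 2)) := by
  set a : ℝ := n + 1 with ha
  have ha0 : 0 < a := by positivity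
  set B : ℝ := ‖s‖ * ‖s + 1‖ / 2 * a ^ (-s.re - 2) with hB
  have hB0 : 0 ≤ B := by positivity
  -- the inner function
  let U : ℝ → ℂ := fun x => ((a : ℂ) ^ (-s) - (x : ℂ) ^ (-s)) / 2 -
    s / 2 * (((x : ℂ) - a) * (x : ℂ) ^ (-s - 1))
  have hUder : ∀ x ∈ Icc a (a + 1), HasDerivWithinAt U
      (s * (s + 1) / 2 * (((x : ℂ) - a) * (x : ℂ) ^ (-s - 2))) (Icc a (a + 1)) x := by
    intro x hx
    have hx0 : 0 < x := lt_of_lt_of_le ha0 hx.1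
    have h1 : HasDerivAt (fun x : ℝ => (x : ℂ) ^ (-s)) ((-s) * (x : ℂ) ^ (-s - 1)) x :=
      hasDerivAt_cpow_real hx0 (-s)
    have h2 : HasDerivAt (fun x : ℝ => (x : ℂ) ^ (-s - 1)) ((-s - 1) * (x : ℂ) ^ (-s - 1 - 1)) x :=
      hasDerivAt_cpow_real hx0 (-s - 1)
    have h3 : HasDerivAt (fun x : ℝ => (x : ℂ) - a) 1 x := (ofRealCLM.hasDerivAt).sub_const _
    have h4 := ((h1.const_sub ((a : ℂ) ^ (-s))).div_const 2).sub
      ((h3.mul h2).const_mul (s / 2))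
    have e : -(-s * (x : ℂ) ^ (-s - 1)) / 2 - s / 2 * (1 * (x : ℂ) ^ (-s - 1) +
        ((x : ℂ) - a) * ((-s - 1) * (x : ℂ) ^ (-s - 1 - 1))) =
        s * (s + 1) / 2 * (((x : ℂ) - a) * (x : ℂ) ^ (-s - 2)) := by
      rw [show (-s - 1 - 1) = -s - 2 by ring]
      ring
    rw [e] at h4
    exact h4.hasDerivWithinAt
  have hUbd : ∀ x ∈ Icc a (a + 1),
      ‖s * (s + 1) / 2 * (((x : ℂ) - a) * (x : ℂ) ^ (-s - 2))‖ ≤ B := by
    intro x hx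
    have hx0 : 0 < x := lt_of_lt_of_le ha0 hx.1
    have hr : (-s - 2 : ℂ).re = -s.re - 2 := by simp
    have h1 : ‖(x : ℂ) - a‖ ≤ 1 := by
      rw [← Complex.ofReal_sub, Complex.norm_real, Real.norm_of_nonneg (by linarith [hx.1])]
      linarith [hx.2]
    have h2 : x ^ (-s.re - 2) ≤ a ^ (-s.re - 2) :=
      Real.rpow_le_rpow_of_nonpos ha0 hx.1 (by linarith)
    rw [norm_mul, norm_mul, norm_div, norm_mul, norm_cpow_eq_rpow_re_of_pos hx0, hr]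
    have h3 : ‖(2 : ℂ)‖ = 2 := by simp
    rw [h3, hB]
    apply mul_le_mul_of_nonneg_left _ (by positivity)
    calc ‖(x : ℂ) - a‖ * x ^ (-s.re - 2) ≤ 1 * a ^ (-s.re - 2) := by gcongr
      _ = _ := one_mul _
  have hU : ∀ x ∈ Icc a (a + 1), ‖U x‖ ≤ B := by
    intro x hx
    have h5 := Convex.norm_image_sub_le_of_norm_hasDerivWithin_le hUder hUbd
      (convex_Icc a (a + 1)) (left_mem_Icc.mpr (by linarith)) hx
    have h6 : U a = 0 := by simp [U]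
    rw [h6, sub_zero] at h5
    refine h5.trans ?_
    have h7 : ‖x - a‖ ≤ 1 := by
      rw [Real.norm_of_nonneg (by linarith [hx.1])]
      linarith [hx.2]
    calc B * ‖x - a‖ ≤ B * 1 := by gcongr
      _ = B := mul_one B
  -- the outer function
  let F : ℝ → ℂ := fun x => (s - 1) * (((x : ℂ) - a) * (((a : ℂ) ^ (-s) + (x : ℂ) ^ (-s)) / 2)) +
    (x : ℂ) ^ (1 - s)
  have hFder : ∀ x ∈ Icc a (a + 1), HasDerivWithinAt F ((s - 1) * U x) (Icc a (a + 1)) x := by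
    intro x hx
    have hx0 : 0 < x := lt_of_lt_of_le ha0 hx.1
    have h0 : HasDerivAt (fun x : ℝ => (x : ℂ) ^ (1 - s)) ((1 - s) * (x : ℂ) ^ (1 - s - 1)) x :=
      hasDerivAt_cpow_real hx0 (1 - s)
    have h1 : HasDerivAt (fun x : ℝ => (x : ℂ) ^ (-s)) ((-s) * (x : ℂ) ^ (-s - 1)) x :=
      hasDerivAt_cpow_real hx0 (-s)
    have h3 : HasDerivAt (fun x : ℝ => (x : ℂ) - a) 1 x := (ofRealCLM.hasDerivAt).sub_const _
    have h4 := ((h3.mul ((h1.const_add ((a : ℂ) ^ (-s))).div_const 2)).const_mul (s - 1)).add h0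
    have e : (s - 1) * (1 * (((a : ℂ) ^ (-s) + (x : ℂ) ^ (-s)) / 2) +
        ((x : ℂ) - a) * (-s * (x : ℂ) ^ (-s - 1) / 2)) + (1 - s) * (x : ℂ) ^ (1 - s - 1) =
        (s - 1) * U x := by
      simp only [U]
      rw [show (1 - s - 1) = -s by ring]
      ring
    rw [e] at h4
    exact h4.hasDerivWithinAt
  have hFbd : ∀ x ∈ Icc a (a + 1), ‖(s - 1) * U x‖ ≤ ‖s - 1‖ * B := by
    intro x hx
    rw [norm_mul]
    exact mul_le_mul_of_nonneg_left (hU x hx) (norm_nonneg _)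
  have h6 := Convex.norm_image_sub_le_of_norm_hasDerivWithin_le hFder hFbd (convex_Icc a (a + 1))
    (left_mem_Icc.mpr (by linarith)) (right_mem_Icc.mpr (by linarith))
  have h7 : F (a + 1) - F a = hz n s := by
    simp only [F, hz, ha]
    push_cast
    ring_nf
  rw [h7] at h6
  simpa using h6

lemma tendsto_cpow_neg {s : ℂ} (hs : 0 < s.re) :
    Tendsto (fun n : ℕ => ((n + 1 : ℝ) : ℂ) ^ (-s)) atTop (𝓝 0) := by
  rw [tendsto_zero_iff_norm_tendsto_zero]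
  have h1 : ∀ n : ℕ, ‖((n + 1 : ℝ) : ℂ) ^ (-s)‖ = (n + 1 : ℝ) ^ (-s.re) := by
    intro n
    rw [norm_cpow_eq_rpow_re_of_pos (by positivity)]
    simp
  simp_rw [h1]
  have h2 := tendsto_rpow_neg_atTop (y := s.re) hs
  have h3 : Tendsto (fun n : ℕ => (n + 1 : ℝ)) atTop atTop :=
    tendsto_atTop_add_const_right _ _ tendsto_natCast_atTop_atTop
  exact h2.comp h3

lemma summable_g {s : ℂ} (hs : 0 < s.re) : Summable fun n => Pool.Agent.Lib.ZetaCrude.g n s := by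
  apply Summable.of_norm_bounded (g := fun n : ℕ => ‖s - 1‖ * ‖s‖ * (n + 1 : ℝ) ^ (-s.re - 1))
  · exact (summable_rpow_aux hs).mul_left _
  · intro n; exact norm_g_le n s hs.le

/-- the trapezoid form of Euler's summation formula for zeta -/
lemma zeta_trap {s : ℂ} (hs : 0 < s.re) (hs1 : s ≠ 1) (N : ℕ) :
    (s - 1) * (riemannZeta s - ∑ n ∈ Finset.range N, ((n + 1 : ℝ) : ℂ) ^ (-s)) =
      ((N + 1 : ℝ) : ℂ) ^ (1 - s) + (s - 1) / 2 * ((N + 1 : ℝ) : ℂ) ^ (-s) +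
        ∑' n, hz (n + N) s := by
  have hs1' : s - 1 ≠ 0 := sub_ne_zero.2 hs1
  have hG := G_eq hs
  have hz1 : riemannZeta₁ s = (s - 1) * riemannZeta s := by
    rw [riemannZeta_eq_inv_sub_mul hs1]
    field_simp
  rw [hz1, Pool.Agent.Lib.ZetaCrude.G] at hG
  have hsg := summable_g hs
  have h1 := hsg.sum_add_tsum_nat_add N
  have h2 : ∀ N : ℕ, ∑ n ∈ Finset.range N, Pool.Agent.Lib.ZetaCrude.g n s =
      (s - 1) * ∑ n ∈ Finset.range N, ((n + 1 : ℝ) : ℂ) ^ (-s) + ((N + 1 : ℝ) : ℂ) ^ (1 - s) - 1 := by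
    intro N
    induction N with
    | zero => simp
    | succ N ih =>
      rw [Finset.sum_range_succ, ih, Finset.sum_range_succ, Pool.Agent.Lib.ZetaCrude.g]
      push_cast
      ring_nf
  -- telescoping part
  have hdiff : ∀ n : ℕ, Pool.Agent.Lib.ZetaCrude.g n s - hz n s =
      (s - 1) / 2 * (((n + 1 : ℝ) : ℂ) ^ (-s) - ((n + 2 : ℝ) : ℂ) ^ (-s)) := by
    intro n
    simp only [Pool.Agent.Lib.ZetaCrude.g, hz]
    ring
  have hsumd : Summable fun n : ℕ => (((n + 1 : ℝ) : ℂ) ^ (-s) - ((n + 2 : ℝ) : ℂ) ^ (-s)) := by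
    apply Summable.of_norm_bounded (g := fun n : ℕ => ‖s‖ * (n + 1 : ℝ) ^ (-s.re - 1))
    · exact (summable_rpow_aux hs).mul_left _
    · intro n
      rw [norm_sub_rev]
      have := norm_cpow_sub_le (a := (n + 1 : ℝ)) (x := (n + 2 : ℝ)) (by positivity) (by linarith)
        s hs.le
      rw [show ((n + 2 : ℝ) - (n + 1 : ℝ)) = 1 by ring, mul_one] at this
      exact this
  have hsumd' : Summable fun n : ℕ => (((n + N : ℕ) + 1 : ℝ) : ℂ) ^ (-s) -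
      (((n + N : ℕ) + 2 : ℝ) : ℂ) ^ (-s) := (summable_nat_add_iff N).2 hsumd
  have htel : HasSum (fun n : ℕ => (((n + N : ℕ) + 1 : ℝ) : ℂ) ^ (-s) -
      (((n + N : ℕ) + 2 : ℝ) : ℂ) ^ (-s)) (((N + 1 : ℝ) : ℂ) ^ (-s)) := by
    rw [hsumd'.hasSum_iff_tendsto_nat]
    have h3 : ∀ M : ℕ, ∑ n ∈ Finset.range M, ((((n + N : ℕ) + 1 : ℝ) : ℂ) ^ (-s) -
        (((n + N : ℕ) + 2 : ℝ) : ℂ) ^ (-s)) =
        ((N + 1 : ℝ) : ℂ) ^ (-s) - (((M + N : ℕ) + 1 : ℝ) : ℂ) ^ (-s) := by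
      intro M
      induction M with
      | zero => simp
      | succ M ih =>
        rw [Finset.sum_range_succ, ih]
        push_cast
        ring_nf
    simp_rw [h3]
    have h4 := (tendsto_cpow_neg hs).comp (tendsto_add_atTop_nat N)
    have h5 := h4.const_sub (((N + 1 : ℝ) : ℂ) ^ (-s))
    simpa using h5
  have hsh : Summable fun n => hz n s := by
    have h3 := hsg.sub (hsumd.mul_left ((s - 1) / 2))
    refine h3.congr fun n => ?_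
    rw [← hdiff]
    ring
  have h6 : ∑' n, Pool.Agent.Lib.ZetaCrude.g (n + N) s =
      ∑' n, hz (n + N) s + (s - 1) / 2 * ((N + 1 : ℝ) : ℂ) ^ (-s) := by
    rw [← htel.tsum_eq, ← tsum_mul_left,
      ← (((summable_nat_add_iff N).2 hsh)).tsum_add (hsumd'.mul_left _)]
    refine tsum_congr fun n => ?_
    rw [← hdiff]
    ring
  rw [← h1, h2, h6] at hG
  linear_combination -hG

lemma sum_rpow_le {N : ℕ} (hN : 1 ≤ N) :
    ∑' n : ℕ, (((n + N : ℕ) : ℝ) + 1) ^ (-(1 / 2) - 2 : ℝ) ≤ (N : ℝ) ^ (-(3 / 2) : ℝ) := by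
  have key : ∀ k : ℝ, 1 ≤ k → (k + 1) ^ (-(1 / 2) - 2 : ℝ) ≤
      k ^ (-(3 / 2) : ℝ) - (k + 1) ^ (-(3 / 2) : ℝ) := by
    intro k hk
    have hk0 : 0 < k := by linarith
    have e1 : (k + 1) ^ (-(1 / 2) - 2 : ℝ) = (k + 1) ^ (-(3 / 2) : ℝ) * (k + 1)⁻¹ := by
      rw [show (-(1 / 2) - 2 : ℝ) = -(3 / 2) + (-1) by norm_num, Real.rpow_add (by positivity),
        Real.rpow_neg_one]
    have e2 : k ^ (-(3 / 2) : ℝ) = (k + 1) ^ (-(3 / 2) : ℝ) * ((k + 1) / k) ^ (3 / 2 : ℝ) := by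
      rw [Real.div_rpow (by positivity) hk0.le, Real.rpow_neg (by positivity),
        Real.rpow_neg (by positivity)]
      have h1 : (k + 1) ^ (3 / 2 : ℝ) ≠ 0 := by positivity
      field_simp
    have h3 : 1 + (k + 1)⁻¹ ≤ ((k + 1) / k) ^ (3 / 2 : ℝ) := by
      have h4 : (1 : ℝ) ≤ (k + 1) / k := by
        rw [le_div_iff₀ hk0]; linarith
      calc 1 + (k + 1)⁻¹ ≤ 1 + k⁻¹ := by
            gcongr
            linarith
        _ = (k + 1) / k := by field_simp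
        _ = ((k + 1) / k) ^ (1 : ℝ) := (Real.rpow_one _).symm
        _ ≤ _ := Real.rpow_le_rpow_of_exponent_le h4 (by norm_num)
    have h5 : 0 ≤ (k + 1) ^ (-(3 / 2) : ℝ) := by positivity
    rw [e1, e2]
    nlinarith
  have hs : Summable fun n : ℕ => (((n + N : ℕ) : ℝ) + 1) ^ (-(1 / 2) - 2 : ℝ) := by
    have h1 := (Real.summable_nat_rpow (p := -(1 / 2) - 2)).mpr (by norm_num)
    have h2 := (summable_nat_add_iff (N + 1)).mpr h1
    refine h2.congr fun n => ?_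
    push_cast
    ring_nf
  apply hs.tsum_le_of_sum_range_le
  intro M
  have : ∑ n ∈ Finset.range M, (((n + N : ℕ) : ℝ) + 1) ^ (-(1 / 2) - 2 : ℝ) ≤
      (N : ℝ) ^ (-(3 / 2) : ℝ) - ((M + N : ℕ) : ℝ) ^ (-(3 / 2) : ℝ) := by
    induction M with
    | zero => simp
    | succ M ih =>
      rw [Finset.sum_range_succ]
      have h1 : (1 : ℝ) ≤ ((M + N : ℕ) : ℝ) := by
        exact_mod_cast (by omega : 1 ≤ M + N)
      have h2 := key _ h1
      have e3 : ((M + N : ℕ) : ℝ) + 1 = ((M + 1 + N : ℕ) : ℝ) := by push_cast; ring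
      rw [e3] at h2 ⊢
      linarith
  have h0 : (0 : ℝ) ≤ ((M + N : ℕ) : ℝ) ^ (-(3 / 2) : ℝ) := by positivity
  linarith

/-- Dirichlet polynomial approximation on the critical line -/
theorem zeta_sum {τ : ℝ} (hτ : 1 ≤ τ) {N : ℕ} (hN : 1 ≤ N) :
    ‖riemannZeta (1 / 2 + τ * I) -
      ∑ n ∈ Finset.range N, ((n + 1 : ℝ) : ℂ) ^ (-(1 / 2 + τ * I : ℂ))‖ ≤
      4 * ((N : ℝ) ^ (1 / 2 : ℝ) / τ + τ ^ 2 * (N : ℝ) ^ (-(3 / 2) : ℝ)) := by
  set s : ℂ := 1 / 2 + τ * I with hsdef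
  have hre : s.re = 1 / 2 := by simp [hsdef]
  have him : s.im = τ := by simp [hsdef]
  have hs1 : s ≠ 1 := by
    intro h
    rw [h] at him
    simp at him
    linarith
  have hτ0 : 0 < τ := by linarith
  have hN0 : (0 : ℝ) < N := by exact_mod_cast hN
  have hN1 : (1 : ℝ) ≤ N := by exact_mod_cast hN
  have hlow : τ ≤ ‖s - 1‖ := by
    have := Complex.abs_im_le_norm (s - 1)
    simp only [Complex.sub_im, him, Complex.one_im, sub_zero] at this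
    rwa [abs_of_pos hτ0] at this
  have hs1n : 0 < ‖s - 1‖ := by linarith
  have htrap := zeta_trap (s := s) (by rw [hre]; norm_num) hs1 N
  have hS : ‖s‖ ≤ τ + 1 / 2 := by
    calc ‖s‖ ≤ ‖(1 / 2 : ℂ)‖ + ‖(τ : ℂ) * I‖ := norm_add_le _ _
      _ = 1 / 2 + τ := by
        rw [norm_mul, Complex.norm_real, Complex.norm_I, Real.norm_of_nonneg hτ0.le]
        norm_num
      _ = _ := by ring
  have hS1 : ‖s + 1‖ ≤ τ + 3 / 2 := by
    calc ‖s + 1‖ ≤ ‖s‖ + ‖(1 : ℂ)‖ := norm_add_le _ _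
      _ ≤ _ := by rw [norm_one]; linarith
  have htail : ‖∑' n, hz (n + N) s‖ ≤
      ‖s - 1‖ * (‖s‖ * ‖s + 1‖ / 2 * (N : ℝ) ^ (-(3 / 2) : ℝ)) := by
    have hs : Summable fun n : ℕ => (((n + N : ℕ) : ℝ) + 1) ^ (-(1 / 2) - 2 : ℝ) := by
      have h1 := (Real.summable_nat_rpow (p := -(1 / 2) - 2)).mpr (by norm_num)
      have h2 := (summable_nat_add_iff (N + 1)).mpr h1
      refine h2.congr fun n => ?_
      push_cast
      ring_nf
    have h1 : ∀ n : ℕ, ‖hz (n + N) s‖ ≤ ‖s - 1‖ * (‖s‖ * ‖s + 1‖ / 2) *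
        (((n + N : ℕ) : ℝ) + 1) ^ (-(1 / 2) - 2 : ℝ) := by
      intro n
      have := norm_hz_le (n + N) s (by rw [hre]; norm_num)
      rw [hre] at this
      rw [mul_assoc]
      exact this
    have h2 := tsum_of_norm_bounded ((hs.mul_left _).hasSum) h1
    rw [tsum_mul_left] at h2
    refine h2.trans ?_
    rw [mul_assoc]
    gcongr
    exact sum_rpow_le hN
  have hn1 : ‖((N + 1 : ℝ) : ℂ) ^ (1 - s)‖ = (N + 1 : ℝ) ^ (1 / 2 : ℝ) := by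
    rw [norm_cpow_eq_rpow_re_of_pos (by positivity)]
    congr 1
    simp [hre]
    norm_num
  have hn2 : ‖((N + 1 : ℝ) : ℂ) ^ (-s)‖ = (N + 1 : ℝ) ^ (-(1 / 2) : ℝ) := by
    rw [norm_cpow_eq_rpow_re_of_pos (by positivity)]
    congr 1
    simp [hre]
  set P : ℝ := (N : ℝ) ^ (1 / 2 : ℝ) / τ with hP
  set Q : ℝ := τ ^ 2 * (N : ℝ) ^ (-(3 / 2) : ℝ) with hQ
  have hP0 : 0 ≤ P := by positivity
  have hQ0 : 0 ≤ Q := by positivity
  have hb1 : (N + 1 : ℝ) ^ (1 / 2 : ℝ) ≤ 2 * (P * ‖s - 1‖) := by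
    have h1 : (N + 1 : ℝ) ^ (1 / 2 : ℝ) ≤ (4 * N : ℝ) ^ (1 / 2 : ℝ) :=
      Real.rpow_le_rpow (by positivity) (by linarith) (by norm_num)
    have h2 : (4 * N : ℝ) ^ (1 / 2 : ℝ) = 2 * (N : ℝ) ^ (1 / 2 : ℝ) := by
      rw [Real.mul_rpow (by norm_num) hN0.le, show (4 : ℝ) = 2 ^ (2 : ℝ) by norm_num,
        ← Real.rpow_mul (by norm_num)]
      norm_num
    have h3 : (N : ℝ) ^ (1 / 2 : ℝ) ≤ P * ‖s - 1‖ := by
      calc (N : ℝ) ^ (1 / 2 : ℝ) = P * τ := by rw [hP]; field_simp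
        _ ≤ P * ‖s - 1‖ := by gcongr
    linarith
  have hb2 : (N + 1 : ℝ) ^ (-(1 / 2) : ℝ) ≤ P + Q := by
    have h1 : (N + 1 : ℝ) ^ (-(1 / 2) : ℝ) ≤ (N : ℝ) ^ (-(1 / 2) : ℝ) :=
      Real.rpow_le_rpow_of_nonpos hN0 (by linarith) (by norm_num)
    rcases le_total τ N with h | h
    · have h2 : (N : ℝ) ^ (-(1 / 2) : ℝ) ≤ P := by
        rw [hP, le_div_iff₀ hτ0]
        calc (N : ℝ) ^ (-(1 / 2) : ℝ) * τ ≤ (N : ℝ) ^ (-(1 / 2) : ℝ) * N := by gcongr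
          _ = (N : ℝ) ^ (-(1 / 2) : ℝ) * (N : ℝ) ^ (1 : ℝ) := by rw [Real.rpow_one]
          _ = (N : ℝ) ^ (1 / 2 : ℝ) := by
            rw [← Real.rpow_add hN0]; norm_num
      linarith
    · have h2 : (N : ℝ) ^ (-(1 / 2) : ℝ) ≤ Q := by
        have h3 : (N : ℝ) ^ (-(1 / 2) : ℝ) = (N : ℝ) * (N : ℝ) ^ (-(3 / 2) : ℝ) := by
          calc (N : ℝ) ^ (-(1 / 2) : ℝ) = (N : ℝ) ^ (1 + (-(3 / 2)) : ℝ) := by norm_num
            _ = (N : ℝ) ^ (1 : ℝ) * (N : ℝ) ^ (-(3 / 2) : ℝ) := Real.rpow_add hN0 _ _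
            _ = _ := by rw [Real.rpow_one]
        rw [h3, hQ]
        gcongr
        nlinarith
      linarith
  have hb3 : ‖s‖ * ‖s + 1‖ / 2 * (N : ℝ) ^ (-(3 / 2) : ℝ) ≤ 2 * Q := by
    have h1 : ‖s‖ * ‖s + 1‖ / 2 ≤ 2 * τ ^ 2 := by
      have : ‖s‖ * ‖s + 1‖ ≤ (τ + 1 / 2) * (τ + 3 / 2) := by gcongr
      nlinarith
    calc ‖s‖ * ‖s + 1‖ / 2 * (N : ℝ) ^ (-(3 / 2) : ℝ) ≤ 2 * τ ^ 2 * (N : ℝ) ^ (-(3 / 2) : ℝ) := by
          gcongr
      _ = _ := by rw [hQ]; ring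
  have hfin : ‖s - 1‖ * ‖riemannZeta s - ∑ n ∈ Finset.range N, ((n + 1 : ℝ) : ℂ) ^ (-s)‖ ≤
      ‖s - 1‖ * (4 * (P + Q)) := by
    rw [← norm_mul, htrap]
    refine (norm_add_le _ _).trans ?_
    have h1 := norm_add_le (((N + 1 : ℝ) : ℂ) ^ (1 - s))
      ((s - 1) / 2 * ((N + 1 : ℝ) : ℂ) ^ (-s))
    rw [hn1, norm_mul, hn2, norm_div] at h1
    have h2 : ‖(2 : ℂ)‖ = 2 := by simp
    rw [h2] at h1
    have h3 : ‖s - 1‖ / 2 * (N + 1 : ℝ) ^ (-(1 / 2) : ℝ) ≤ ‖s - 1‖ / 2 * (P + Q) := by gcongr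
    have h4 : ‖s - 1‖ * (‖s‖ * ‖s + 1‖ / 2 * (N : ℝ) ^ (-(3 / 2) : ℝ)) ≤ ‖s - 1‖ * (2 * Q) := by
      gcongr
    have h5 : 0 ≤ ‖s - 1‖ * P := by positivity
    have h6 : 0 ≤ ‖s - 1‖ * Q := by positivity
    linarith
  exact le_of_mul_le_mul_left hfin hs1n

end Pool.Agent.DBN.Nw
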