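import Pool.Agent.DBN.Defs2

/-!
# Smoothed zeta sums from bounds for dyadic exponential sums
-/

set_option autoImplicit false

namespace Pool.Agent.DBN

open Complex Finset Filter Topology

/-- a telescoping bound for `∑ min (2^j x) (1 / (2^j x))` -/
lemma sum_min_le {x : ℝ} (hx : 0 < x) (J : ℕ) :
    ∑ j ∈ range J, Real.exp (-|j * Real.log 2 + Real.log x|) ≤ 6 := by
  set φ : ℕ → ℝ := fun j => 6 * ((2 : ℝ) ^ j * x / (1 + (2 : ℝ) ^ j * x)) with hφ
  have hstep : ∀ j : ℕ, Real.exp (-|j * Real.log 2 + Real.log x|) ≤ φ (j + 1) - φ j := by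
    intro j
    set a : ℝ := (2 : ℝ) ^ j * x with ha
    have ha0 : 0 < a := by positivity
    have hlog : j * Real.log 2 + Real.log x = Real.log a := by
      rw [ha, Real.log_mul (by positivity) hx.ne', Real.log_pow]
    have e1 : φ (j + 1) - φ j = 6 * a / ((1 + 2 * a) * (1 + a)) := by
      simp only [hφ]
      rw [pow_succ, show (2 : ℝ) ^ j * 2 * x = 2 * a by rw [ha]; ring]
      rw [← ha]
      field_simp
      ring
    rw [hlog, e1, le_div_iff₀ (by positivity)]
    rcases le_or_gt a 1 with h1 | h1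
    · have h2 : Real.log a ≤ 0 := Real.log_nonpos ha0.le h1
      rw [abs_of_nonpos h2, neg_neg, Real.exp_log ha0]
      nlinarith [mul_nonneg ha0.le (sub_nonneg.mpr h1)]
    · have h2 : 0 < Real.log a := Real.log_pos h1
      rw [abs_of_pos h2, Real.exp_neg, Real.exp_log ha0, inv_mul_le_iff₀ ha0]
      nlinarith
  calc ∑ j ∈ range J, Real.exp (-|j * Real.log 2 + Real.log x|)
      ≤ ∑ j ∈ range J, (φ (j + 1) - φ j) := sum_le_sum fun j _ => hstep j
    _ = φ J - φ 0 := sum_range_sub φ J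
    _ ≤ 6 := by
        have h0 : 0 ≤ φ 0 := by simp only [hφ]; positivity
        have h1 : φ J ≤ 6 := by
          simp only [hφ]
          have : (2 : ℝ) ^ J * x / (1 + (2 : ℝ) ^ J * x) ≤ 1 := by
            rw [div_le_one (by positivity)]
            linarith
          linarith
        linarith

lemma exp_sub_le {a b M : ℝ} (ha : Real.exp a ≤ M) (hb : Real.exp b ≤ M) :
    |Real.exp a - Real.exp b| ≤ M * |a - b| := by
  have key : ∀ x y : ℝ, Real.exp x - Real.exp y ≤ Real.exp x * |x - y| := by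
    intro x y
    have h1 := Real.add_one_le_exp (y - x)
    have h2 : Real.exp y = Real.exp x * Real.exp (y - x) := by rw [← Real.exp_add]; congr 1; ring
    have h3 := le_abs_self (x - y)
    have h4 := Real.exp_pos x
    rw [h2]
    nlinarith
  rw [abs_sub_le_iff]
  constructor
  · exact (key a b).trans (mul_le_mul_of_nonneg_right ha (abs_nonneg _))
  · refine (key b a).trans ?_
    rw [abs_sub_comm]
    exact mul_le_mul_of_nonneg_right hb (abs_nonneg _)

/-- the exponent of the weight at `t = log n`, `l = log N` -/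
noncomputable def wexp (l t : ℝ) : ℝ := -t / 2 - (t - l) ^ 2 / 4

lemma exp_wexp_le {l k t : ℝ} (h0 : k ≤ t) (h1 : t ≤ k + 1) :
    Real.exp (wexp l t) ≤ Real.exp (-k / 2) * Real.exp (-(k - l) ^ 2 / 8 + 1 / 4) := by
  rw [← Real.exp_add]
  apply Real.exp_le_exp.mpr
  unfold wexp
  nlinarith [sq_nonneg (2 * (t - k) + (k - l)), sq_nonneg (t - k)]

lemma wexp_sub_le {l k t t' : ℝ} (h0 : k ≤ t) (h1 : t ≤ k + 1) (h0' : k ≤ t') (h1' : t' ≤ k + 1) :
    |wexp l t - wexp l t'| ≤ |t - t'| * (1 + |k - l| / 2) := by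
  have e : wexp l t - wexp l t' = -(t - t') * (1 / 2 + (t - l + (t' - l)) / 4) := by
    unfold wexp; ring
  rw [e, abs_mul, abs_neg]
  refine mul_le_mul_of_nonneg_left ?_ (abs_nonneg _)
  rw [abs_le]
  have h2 := neg_abs_le (k - l)
  have h3 := le_abs_self (k - l)
  constructor <;> linarith

/-- Abel summation on a dyadic block -/
lemma block_le {T l S : ℝ} {K : ℕ} (hK : 1 ≤ K)
    (h : ∀ M : ℕ, M ≤ K → ‖∑ n ∈ range M, exp (-(T * Real.log (K + n) : ℝ) * I)‖ ≤ S) :
    ‖∑ n ∈ range K, (Real.exp (wexp l (Real.log (K + n))) : ℂ) *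
      exp (-(T * Real.log (K + n) : ℝ) * I)‖ ≤
      2 * Real.exp 2 * S * Real.exp (-Real.log K / 2) *
        Real.exp (-(Real.log K - l) ^ 2 / 16) := by
  have hS0 : 0 ≤ S := le_trans (norm_nonneg _) (h 0 (Nat.zero_le _))
  have hKr : (1 : ℝ) ≤ K := by exact_mod_cast hK
  have hK0 : (0 : ℝ) < K := by linarith
  set k : ℝ := Real.log K with hk
  have hlog : ∀ n : ℕ, n < K → k ≤ Real.log (K + n) ∧ Real.log (K + n) ≤ k + 1 := by
    intro n hn
    have hn' : (n : ℝ) ≤ K := by exact_mod_cast hn.le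
    have hn0 : (0 : ℝ) ≤ n := Nat.cast_nonneg n
    constructor
    · exact Real.log_le_log hK0 (by linarith)
    · have h2 : Real.log (K + n) ≤ Real.log (2 * K) := Real.log_le_log (by linarith) (by linarith)
      rw [Real.log_mul (by norm_num) hK0.ne'] at h2
      have h3 := Real.log_two_lt_d9
      linarith
  set E : ℝ := Real.exp (-k / 2) * Real.exp (-(k - l) ^ 2 / 8 + 1 / 4) with hE
  have hE0 : 0 < E := by positivity
  have hE1 : E * (1 + |k - l| / 2) ≤ Real.exp 2 * Real.exp (-k / 2) * Real.exp (-(k - l) ^ 2 / 16) := by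
    have h1 : 1 + |k - l| / 2 ≤ Real.exp (|k - l| / 2) := by
      have := Real.add_one_le_exp (|k - l| / 2)
      linarith
    calc E * (1 + |k - l| / 2) ≤ E * Real.exp (|k - l| / 2) :=
          mul_le_mul_of_nonneg_left h1 hE0.le
      _ = Real.exp (-k / 2) * (Real.exp (-(k - l) ^ 2 / 8 + 1 / 4) * Real.exp (|k - l| / 2)) := by
          rw [hE]; ring
      _ ≤ Real.exp (-k / 2) * (Real.exp 2 * Real.exp (-(k - l) ^ 2 / 16)) := by
          refine mul_le_mul_of_nonneg_left ?_ (Real.exp_pos _).le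
          rw [← Real.exp_add, ← Real.exp_add]
          apply Real.exp_le_exp.mpr
          have h2 : (k - l) ^ 2 = |k - l| ^ 2 := (sq_abs _).symm
          rw [h2]
          nlinarith [sq_nonneg (|k - l| / 4 - 1)]
      _ = Real.exp 2 * Real.exp (-k / 2) * Real.exp (-(k - l) ^ 2 / 16) := by ring
  have hE2 : E ≤ Real.exp 2 * Real.exp (-k / 2) * Real.exp (-(k - l) ^ 2 / 16) := by
    refine le_trans ?_ hE1
    exact le_mul_of_one_le_right hE0.le (by have := abs_nonneg (k - l); linarith)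
  set Q : ℝ := Real.exp 2 * Real.exp (-k / 2) * Real.exp (-(k - l) ^ 2 / 16) with hQ
  have hQ0 : 0 < Q := by positivity
  have hpart := Finset.sum_range_by_parts
    (fun n : ℕ => (Real.exp (wexp l (Real.log (K + n))) : ℂ))
    (fun n : ℕ => exp (-(T * Real.log (K + n) : ℝ) * I)) K
  simp only [smul_eq_mul] at hpart
  rw [hpart]
  have hend : ‖(Real.exp (wexp l (Real.log (K + ((K - 1 : ℕ) : ℝ)))) : ℂ) *
      ∑ n ∈ range K, exp (-(T * Real.log (K + n) : ℝ) * I)‖ ≤ Q * S := by
    rw [norm_mul, Complex.norm_real, Real.norm_eq_abs, abs_of_pos (Real.exp_pos _)]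
    have h2 := hlog (K - 1) (by omega)
    exact mul_le_mul ((exp_wexp_le h2.1 h2.2).trans hE2) (h K le_rfl) (norm_nonneg _) hQ0.le
  have hsum : ‖∑ i ∈ range (K - 1), ((Real.exp (wexp l (Real.log (K + ((i + 1 : ℕ) : ℝ)))) : ℂ) -
      (Real.exp (wexp l (Real.log (K + i))) : ℂ)) *
      ∑ n ∈ range (i + 1), exp (-(T * Real.log (K + n) : ℝ) * I)‖ ≤ Q * S := by
    have hterm : ∀ i ∈ range (K - 1),
        ‖((Real.exp (wexp l (Real.log (K + ((i + 1 : ℕ) : ℝ)))) : ℂ) -
      (Real.exp (wexp l (Real.log (K + i))) : ℂ)) *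
      ∑ n ∈ range (i + 1), exp (-(T * Real.log (K + n) : ℝ) * I)‖ ≤ (Q / K) * S := by
      intro i hi
      have hi' : i < K - 1 := mem_range.mp hi
      rw [norm_mul, ← Complex.ofReal_sub, Complex.norm_real, Real.norm_eq_abs]
      refine mul_le_mul ?_ (h (i + 1) (by omega)) (norm_nonneg _) (by positivity)
      have h2 := hlog (i + 1) (by omega)
      have h3 := hlog i (by omega)
      refine (exp_sub_le (exp_wexp_le h2.1 h2.2) (exp_wexp_le h3.1 h3.2)).trans ?_
      rw [← hE]
      have hi0 : (0 : ℝ) ≤ i := Nat.cast_nonneg i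
      have h4 : |Real.log (K + ((i + 1 : ℕ) : ℝ)) - Real.log (K + i)| ≤ 1 / K := by
        rw [← Real.log_div (by positivity) (by positivity)]
        have e1 : (K + ((i + 1 : ℕ) : ℝ)) / (K + i) = 1 + 1 / (K + i) := by
          push_cast; field_simp; ring
        rw [e1]
        have h5 : 0 ≤ Real.log (1 + 1 / ((K : ℝ) + i)) :=
          Real.log_nonneg (by have : 0 ≤ 1 / ((K : ℝ) + i) := by positivity
                              linarith)
        rw [abs_of_nonneg h5]
        have h6 := Real.log_le_sub_one_of_pos (show 0 < 1 + 1 / ((K : ℝ) + i) by positivity)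
        have h7 : 1 / ((K : ℝ) + i) ≤ 1 / K := one_div_le_one_div_of_le hK0 (by linarith)
        linarith
      calc E * |wexp l (Real.log (K + ((i + 1 : ℕ) : ℝ))) - wexp l (Real.log (K + i))|
          ≤ E * ((1 / K) * (1 + |k - l| / 2)) := by
            refine mul_le_mul_of_nonneg_left ((wexp_sub_le h2.1 h2.2 h3.1 h3.2).trans ?_) hE0.le
            exact mul_le_mul_of_nonneg_right h4 (by positivity)
        _ = (E * (1 + |k - l| / 2)) / K := by ring
        _ ≤ Q / K := by gcongr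
    refine (norm_sum_le_of_le _ hterm).trans ?_
    rw [sum_const, card_range, nsmul_eq_mul]
    have h8 : ((K - 1 : ℕ) : ℝ) ≤ K := by exact_mod_cast Nat.sub_le K 1
    calc ((K - 1 : ℕ) : ℝ) * (Q / K * S) ≤ K * (Q / K * S) :=
          mul_le_mul_of_nonneg_right h8 (by positivity)
      _ = Q * S := by field_simp
  refine (norm_sub_le _ _).trans ?_
  refine (add_le_add hend hsum).trans ?_
  rw [hQ]
  apply le_of_eq
  ring

lemma zsum_term {N T : ℝ} (hN : 0 < N) {m : ℕ} (hm : 1 ≤ m) :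
    (Real.exp (-(Real.log (m / N)) ^ 2 / 4) : ℂ) * (m : ℂ) ^ (-(1 / 2 + T * I) : ℂ) =
      (Real.exp (wexp (Real.log N) (Real.log m)) : ℂ) * exp (-(T * Real.log m : ℝ) * I) := by
  have hm0 : (0 : ℝ) < m := by exact_mod_cast hm
  have hmc : (m : ℂ) ≠ 0 := by exact_mod_cast hm0.ne'
  rw [Complex.cpow_def_of_ne_zero hmc, ← Complex.natCast_log, Real.log_div hm0.ne' hN.ne',
    Complex.ofReal_exp, Complex.ofReal_exp, ← Complex.exp_add, ← Complex.exp_add]
  congr 1
  unfold wexp
  push_cast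
  ring

lemma sum_dyadic (F : ℕ → ℂ) (J : ℕ) : ∑ n ∈ range (2 ^ J - 1), F (n + 1) =
    ∑ j ∈ range J, ∑ r ∈ range (2 ^ j), F (2 ^ j + r) := by
  induction J with
  | zero => simp
  | succ J ih =>
    have h1 : 2 ^ (J + 1) - 1 = (2 ^ J - 1) + 2 ^ J := by
      have : 1 ≤ 2 ^ J := Nat.one_le_two_pow
      rw [pow_succ]; omega
    rw [h1, sum_range_add, ih, sum_range_succ]
    congr 1
    refine sum_congr rfl fun r _ => ?_
    congr 1
    have : 1 ≤ 2 ^ J := Nat.one_le_two_pow
    omega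

theorem zsum_le {N T A B D : ℝ} (hN : 0 < N) (hA : 0 ≤ A) (hB : 0 ≤ B) (hD : 0 ≤ D)
    (h : ∀ K M : ℕ, 1 ≤ K → M ≤ K →
      ‖∑ n ∈ range M, exp (-(T * Real.log (K + n) : ℝ) * I)‖ ≤ A * K + B + D * √K) :
    ‖zsum N T‖ ≤ 12 * Real.exp 11 * (A * √N + B / √N + D) := by
  set X : ℝ := A * √N + B / √N + D with hX
  have hsN : 0 < √N := Real.sqrt_pos.mpr hN
  have hX0 : 0 ≤ X := by positivity
  set l : ℝ := Real.log N with hl
  set F : ℕ → ℂ := fun m => (Real.exp (wexp l (Real.log m)) : ℂ) *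
    exp (-(T * Real.log m : ℝ) * I) with hF
  have hNexp : √N = Real.exp (l / 2) := by
    rw [Real.sqrt_eq_rpow, Real.rpow_def_of_pos hN]
    congr 1
    rw [hl]; ring
  -- a single block
  have hblock : ∀ j : ℕ, ‖∑ r ∈ range (2 ^ j), F (2 ^ j + r)‖ ≤
      2 * Real.exp 11 * X * Real.exp (-|j * Real.log 2 + Real.log (1 / N)|) := by
    intro j
    have hK : 1 ≤ 2 ^ j := Nat.one_le_two_pow
    have hb := block_le (T := T) (l := l) (K := 2 ^ j) hK (fun M hM => h (2 ^ j) M hK hM)
    have hKr : (((2 ^ j : ℕ) : ℝ)) = (2 : ℝ) ^ j := by push_cast; rfl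
    set k : ℝ := Real.log ((2 ^ j : ℕ) : ℝ) with hk
    have hkj : k = j * Real.log 2 := by rw [hk, hKr, Real.log_pow]
    have hK0 : (0 : ℝ) < ((2 ^ j : ℕ) : ℝ) := by rw [hKr]; positivity
    have hKk : ((2 ^ j : ℕ) : ℝ) = Real.exp k := (Real.exp_log hK0).symm
    have hsK : √((2 ^ j : ℕ) : ℝ) = Real.exp (k / 2) := by
      rw [Real.sqrt_eq_rpow, Real.rpow_def_of_pos hK0]
      congr 1
      rw [hk]; ring
    have e0 : ∑ r ∈ range (2 ^ j), F (2 ^ j + r) = ∑ n ∈ range (2 ^ j),
        (Real.exp (wexp l (Real.log (((2 ^ j : ℕ) : ℝ) + n))) : ℂ) *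
        exp (-(T * Real.log (((2 ^ j : ℕ) : ℝ) + n) : ℝ) * I) := by
      refine sum_congr rfl fun r _ => ?_
      simp only [hF]
      push_cast
      rfl
    rw [e0]
    refine hb.trans ?_
    set S : ℝ := A * ((2 ^ j : ℕ) : ℝ) + B + D * √((2 ^ j : ℕ) : ℝ) with hS
    have e1 : j * Real.log 2 + Real.log (1 / N) = k - l := by
      rw [one_div, Real.log_inv, hkj]; ring
    rw [e1]
    have h1 : S * Real.exp (-k / 2) ≤ X * Real.exp (|k - l| / 2) := by
      have e2 : S * Real.exp (-k / 2) = A * Real.exp (k / 2) + B * Real.exp (-k / 2) + D := by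
        rw [hS, hsK, hKk]
        have e3 : Real.exp k * Real.exp (-k / 2) = Real.exp (k / 2) := by
          rw [← Real.exp_add]; congr 1; ring
        have e4 : Real.exp (k / 2) * Real.exp (-k / 2) = 1 := by
          rw [← Real.exp_add, show k / 2 + -k / 2 = 0 by ring, Real.exp_zero]
        linear_combination A * e3 + D * e4
      have h2 : Real.exp (k / 2) ≤ √N * Real.exp (|k - l| / 2) := by
        rw [hNexp, ← Real.exp_add]
        apply Real.exp_le_exp.mpr
        have := le_abs_self (k - l)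
        linarith
      have h3 : Real.exp (-k / 2) ≤ (1 / √N) * Real.exp (|k - l| / 2) := by
        rw [hNexp, one_div, ← Real.exp_neg, ← Real.exp_add]
        apply Real.exp_le_exp.mpr
        have := neg_abs_le (k - l)
        linarith
      have h4 : 1 ≤ Real.exp (|k - l| / 2) := Real.one_le_exp (by positivity)
      rw [e2]
      calc A * Real.exp (k / 2) + B * Real.exp (-k / 2) + D
          ≤ A * (√N * Real.exp (|k - l| / 2)) + B * ((1 / √N) * Real.exp (|k - l| / 2)) +
            D * Real.exp (|k - l| / 2) := by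
            have := mul_le_mul_of_nonneg_left h2 hA
            have := mul_le_mul_of_nonneg_left h3 hB
            have := mul_le_mul_of_nonneg_left h4 hD
            linarith
        _ = X * Real.exp (|k - l| / 2) := by rw [hX]; ring
    have h5 : Real.exp (|k - l| / 2) * Real.exp (-(k - l) ^ 2 / 16) ≤
        Real.exp 9 * Real.exp (-|k - l|) := by
      rw [← Real.exp_add, ← Real.exp_add]
      apply Real.exp_le_exp.mpr
      have h2 : (k - l) ^ 2 = |k - l| ^ 2 := (sq_abs _).symm
      rw [h2]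
      nlinarith [sq_nonneg (|k - l| / 4 - 3)]
    have h6 : 0 < Real.exp (-(k - l) ^ 2 / 16) := Real.exp_pos _
    calc 2 * Real.exp 2 * S * Real.exp (-k / 2) * Real.exp (-(k - l) ^ 2 / 16)
        = 2 * Real.exp 2 * (S * Real.exp (-k / 2)) * Real.exp (-(k - l) ^ 2 / 16) := by ring
      _ ≤ 2 * Real.exp 2 * (X * Real.exp (|k - l| / 2)) * Real.exp (-(k - l) ^ 2 / 16) := by
          gcongr
      _ = 2 * Real.exp 2 * X * (Real.exp (|k - l| / 2) * Real.exp (-(k - l) ^ 2 / 16)) := by ring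
      _ ≤ 2 * Real.exp 2 * X * (Real.exp 9 * Real.exp (-|k - l|)) := by gcongr
      _ = 2 * Real.exp 11 * X * Real.exp (-|k - l|) := by
          rw [show (11 : ℝ) = 2 + 9 by norm_num, Real.exp_add]; ring
  -- partial sums
  have hpart : ∀ J : ℕ, ‖∑ n ∈ range (2 ^ J - 1), F (n + 1)‖ ≤ 12 * Real.exp 11 * X := by
    intro J
    rw [sum_dyadic]
    refine (norm_sum_le_of_le _ fun j _ => hblock j).trans ?_
    rw [← mul_sum]
    have := sum_min_le (x := 1 / N) (by positivity) J
    calc 2 * Real.exp 11 * X * ∑ j ∈ range J, Real.exp (-|j * Real.log 2 + Real.log (1 / N)|)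
        ≤ 2 * Real.exp 11 * X * 6 := by gcongr
      _ = 12 * Real.exp 11 * X := by ring
  have hz : zsum N T = ∑' n : ℕ, F (n + 1) := by
    unfold zsum
    refine tsum_congr fun n => ?_
    rw [zsum_term hN (by omega : 1 ≤ n + 1)]
  rw [hz]
  by_cases hsum : Summable fun n : ℕ => F (n + 1)
  · have ht := hsum.hasSum.tendsto_sum_nat
    have hsub : Tendsto (fun J : ℕ => 2 ^ J - 1) atTop atTop := by
      refine tendsto_atTop_mono (f := fun J : ℕ => J) (fun J => ?_) tendsto_id
      have := Nat.lt_two_pow_self (n := J)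
      omega
    have h2 := (ht.comp hsub).norm
    exact le_of_tendsto h2 (Eventually.of_forall fun J => hpart J)
  · rw [tsum_eq_zero_of_not_summable hsum, norm_zero]
    positivity

end Pool.Agent.DBN
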