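import Mathlib
import Pool.Agent.DBN.Kusmin

/-!
# The second derivative test, discrete form, and its use for n^(-it)
-/

set_option autoImplicit false

namespace Pool.Agent.DBN

open Complex Finset

lemma norm_sum_exp_le (m : ℕ) (θ : ℕ → ℝ) : ‖∑ n ∈ range m, exp (θ n * I)‖ ≤ m := by
  refine (norm_sum_le _ _).trans ?_
  have h : ∀ n ∈ range m, ‖exp (θ n * I)‖ = 1 := fun n _ => Complex.norm_exp_ofReal_mul_I _
  rw [sum_congr rfl h]
  simp

lemma inc_mono {m : ℕ} {θ : ℕ → ℝ} {l : ℝ}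
    (h : ∀ n, n + 2 < m → l ≤ θ (n + 2) - 2 * θ (n + 1) + θ n) (i j : ℕ) (hj : i + j + 1 < m) :
    θ (i + 1) - θ i + j * l ≤ θ (i + j + 1) - θ (i + j) := by
  induction j with
  | zero => simp
  | succ j ih =>
    have h1 := ih (by omega)
    have h2 := h (i + j) (by omega)
    rw [show i + (j + 1) + 1 = i + j + 2 by ring, show i + (j + 1) = i + j + 1 by ring]
    push_cast
    linarith

lemma inc_upper {m : ℕ} {θ : ℕ → ℝ} {l : ℝ}
    (h : ∀ n, n + 2 < m → θ (n + 2) - 2 * θ (n + 1) + θ n ≤ l) (i j : ℕ) (hj : i + j + 1 < m) :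
    θ (i + j + 1) - θ (i + j) ≤ θ (i + 1) - θ i + j * l := by
  induction j with
  | zero => simp
  | succ j ih =>
    have h1 := ih (by omega)
    have h2 := h (i + j) (by omega)
    rw [show i + (j + 1) + 1 = i + j + 2 by ring, show i + (j + 1) = i + j + 1 by ring]
    push_cast
    linarith

lemma one_period {m : ℕ} {θ : ℕ → ℝ} {l ρ : ℝ} (hl : 0 < l) (hρ : 0 < ρ) (hρ1 : ρ ≤ 1)
    (h0 : ∀ n, n + 1 < m → 0 ≤ θ (n + 1) - θ n ∧ θ (n + 1) - θ n ≤ 2 * Real.pi)
    (h2 : ∀ n, n + 2 < m → l ≤ θ (n + 2) - 2 * θ (n + 1) + θ n) :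
    ‖∑ n ∈ range m, exp (θ n * I)‖ ≤ 13 / ρ + 2 * (ρ / l) + 2 := by
  have hπ := Real.pi_gt_three
  set q : ℕ := ⌈ρ / l⌉₊ with hq
  have hq1 : ρ / l ≤ q := Nat.le_ceil _
  have hq2 : (q : ℝ) ≤ ρ / l + 1 := (Nat.ceil_lt_add_one (by positivity)).le
  have hql : ρ ≤ q * l := by rwa [div_le_iff₀ hl] at hq1
  have h13 : 0 < 13 / ρ := by positivity
  rcases Nat.lt_or_ge (2 * q) m with hm | hm
  swap
  · have h3 : (m : ℝ) ≤ 2 * q := by exact_mod_cast hm
    have h4 := norm_sum_exp_le m θ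
    linarith
  obtain ⟨r, rfl⟩ : ∃ r, m = q + r + q := ⟨m - 2 * q, by omega⟩
  rw [sum_range_add, sum_range_add]
  have hA := norm_sum_exp_le q θ
  have hB := norm_sum_exp_le q (fun n => θ (q + r + n))
  have hC : ‖∑ n ∈ range r, exp ((fun n => θ (q + n)) n * I)‖ ≤ 13 / ρ := by
    apply kusmin hρ (by linarith)
    · intro n hn
      constructor
      · have h3 := inc_mono h2 0 (q + n) (by omega)
        have h4 := (h0 0 (by omega)).1
        have h5 : (0 : ℕ) + (q + n) = q + n := by ring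
        rw [h5] at h3
        push_cast at h3
        have h6 : 0 ≤ (n : ℝ) * l := by positivity
        have h7 : θ (q + n + 1) - θ (q + n) = θ (q + (n + 1)) - θ (q + n) := by
          rw [add_assoc]
        rw [← h7]
        nlinarith
      · have h3 := inc_mono h2 (q + n) q (by omega)
        have h4 := (h0 (q + n + q) (by omega)).2
        have h7 : θ (q + n + 1) - θ (q + n) = θ (q + (n + 1)) - θ (q + n) := by
          rw [add_assoc]
        rw [← h7]
        linarith
    · intro n hn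
      have h3 := h2 (q + n) (by omega)
      rw [show q + (n + 1) = q + n + 1 by ring, show q + (n + 2) = q + n + 2 by ring]
      linarith
  calc ‖∑ n ∈ range q, exp (θ n * I) + ∑ n ∈ range r, exp (θ (q + n) * I) +
        ∑ n ∈ range q, exp (θ (q + r + n) * I)‖
      ≤ ‖∑ n ∈ range q, exp (θ n * I)‖ + ‖∑ n ∈ range r, exp (θ (q + n) * I)‖ +
        ‖∑ n ∈ range q, exp (θ (q + r + n) * I)‖ := norm_add₃_le
    _ ≤ q + 13 / ρ + q := add_le_add (add_le_add hA hC) hB
    _ ≤ _ := by linarith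

lemma exp_shift_period (θ : ℕ → ℝ) (k : ℤ) (n : ℕ) :
    exp (((θ n - 2 * Real.pi * k * n : ℝ) : ℂ) * I) = exp (θ n * I) := by
  rw [Complex.exp_eq_exp_iff_exists_int]
  refine ⟨-(k * n), ?_⟩
  push_cast
  ring

lemma many_periods {l ρ : ℝ} (hl : 0 < l) (hρ : 0 < ρ) (hρ1 : ρ ≤ 1) (K : ℕ) :
    ∀ (m : ℕ) (θ : ℕ → ℝ),
      (∀ n, n + 1 < m → 0 ≤ θ (n + 1) - θ n ∧ θ (n + 1) - θ n ≤ 2 * Real.pi * (K + 1)) →
      (∀ n, n + 2 < m → l ≤ θ (n + 2) - 2 * θ (n + 1) + θ n) →
      ‖∑ n ∈ range m, exp (θ n * I)‖ ≤ (K + 1) * (13 / ρ + 2 * (ρ / l) + 2) := by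
  have hπ := Real.pi_gt_three
  induction K with
  | zero =>
    intro m θ h0 h2
    have h3 := one_period hl hρ hρ1 (θ := θ) (m := m) (fun n hn => ?_) h2
    · simpa using h3
    · have := h0 n hn
      simpa using this
  | succ K ih =>
    intro m θ h0 h2
    have hB : 0 < 13 / ρ + 2 * (ρ / l) + 2 := by positivity
    by_cases hex : ∃ n, n + 1 < m ∧ 2 * Real.pi < θ (n + 1) - θ n
    swap
    · push Not at hex
      have h3 := one_period hl hρ hρ1 (θ := θ) (m := m)
        (fun n hn => ⟨(h0 n hn).1, hex n hn⟩) h2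
      have h4 : (0 : ℝ) ≤ K := Nat.cast_nonneg _
      push_cast
      nlinarith
    · classical
      set p := Nat.find hex with hp
      have hp1 : p + 1 < m ∧ 2 * Real.pi < θ (p + 1) - θ p := Nat.find_spec hex
      have hp2 : ∀ n, n < p → ¬ (n + 1 < m ∧ 2 * Real.pi < θ (n + 1) - θ n) :=
        fun n hn => Nat.find_min hex hn
      obtain ⟨r, hr⟩ : ∃ r, m = p + r := ⟨m - p, by omega⟩
      have hA : ‖∑ n ∈ range p, exp (θ n * I)‖ ≤ 13 / ρ + 2 * (ρ / l) + 2 := by
        apply one_period hl hρ hρ1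
        · intro n hn
          have h3 := hp2 n (by omega)
          push Not at h3
          exact ⟨(h0 n (by omega)).1, h3 (by omega)⟩
        · intro n hn
          exact h2 n (by omega)
      have hC := ih r (fun n => θ (p + n) - 2 * Real.pi * ((1 : ℤ) : ℝ) * n) (by
        intro n hn
        have h3 := inc_mono h2 p n (by omega)
        have h4 := (h0 (p + n) (by omega)).2
        have h5 : (0 : ℝ) ≤ n * l := by positivity
        rw [show p + (n + 1) = p + n + 1 by ring]
        push_cast at h4 ⊢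
        constructor
        · linarith [hp1.2]
        · linarith) (by
        intro n hn
        have h3 := h2 (p + n) (by omega)
        rw [show p + (n + 1) = p + n + 1 by ring, show p + (n + 2) = p + n + 2 by ring]
        push_cast
        linarith)
      have h5 : ∑ n ∈ range r, exp (((fun n : ℕ => θ (p + n) -
          2 * Real.pi * ((1 : ℤ) : ℝ) * n) n : ℝ) * I) =
          ∑ n ∈ range r, exp (θ (p + n) * I) := by
        apply sum_congr rfl
        intro n _
        exact exp_shift_period (fun n => θ (p + n)) 1 n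
      rw [h5] at hC
      rw [hr, sum_range_add]
      calc ‖∑ n ∈ range p, exp (θ n * I) + ∑ n ∈ range r, exp (θ (p + n) * I)‖
          ≤ _ := norm_add_le _ _
        _ ≤ (13 / ρ + 2 * (ρ / l) + 2) + (K + 1) * (13 / ρ + 2 * (ρ / l) + 2) :=
            add_le_add hA hC
        _ = _ := by push_cast; ring

/-- the second derivative test -/
theorem vdc2 : ∃ C : ℝ, 1 ≤ C ∧ ∀ (m : ℕ) (θ : ℕ → ℝ) (l h : ℝ), 0 < l → 1 ≤ h →
    (∀ n, n + 2 < m → l ≤ θ (n + 2) - 2 * θ (n + 1) + θ n ∧
      θ (n + 2) - 2 * θ (n + 1) + θ n ≤ h * l) →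
    ‖∑ n ∈ range m, exp (θ n * I)‖ ≤ C * (h * m * √l + 1 / √l) := by
  refine ⟨51, by norm_num, ?_⟩
  intro m θ l h hl hh H
  have hπ := Real.pi_gt_three
  have hs : 0 < √l := Real.sqrt_pos.mpr hl
  have hss : √l * √l = l := Real.mul_self_sqrt hl.le
  have hm0 : (0 : ℝ) ≤ m := Nat.cast_nonneg _
  have hinv : 0 < 1 / √l := by positivity
  rcases lt_or_ge 1 l with hl1 | hl1
  · have h1 := norm_sum_exp_le m θ
    have h2 : 1 ≤ √l := Real.one_le_sqrt.mpr hl1.le
    have h3 : (m : ℝ) ≤ h * m * √l := by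
      have h4 : (m : ℝ) ≤ h * m := by nlinarith
      have h5 : h * m ≤ h * m * √l := le_mul_of_one_le_right (by positivity) h2
      linarith
    have h6 : 0 ≤ h * m * √l := by positivity
    linarith
  have hs1 : √l ≤ 1 := by
    rw [Real.sqrt_le_one]
    exact hl1
  rcases Nat.lt_or_ge m 2 with hm | hm
  · have h1 := norm_sum_exp_le m θ
    have h2 : (m : ℝ) ≤ 1 := by exact_mod_cast (by omega : m ≤ 1)
    have h3 : 1 ≤ 1 / √l := by rw [le_div_iff₀ hs]; linarith
    have h6 : 0 ≤ h * m * √l := by positivity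
    linarith
  set k : ℤ := ⌊(θ 1 - θ 0) / (2 * Real.pi)⌋ with hk
  have hk1 : (k : ℝ) * (2 * Real.pi) ≤ θ 1 - θ 0 := by
    have := Int.floor_le ((θ 1 - θ 0) / (2 * Real.pi))
    rwa [le_div_iff₀ (by positivity)] at this
  have hk2 : θ 1 - θ 0 ≤ (k + 1) * (2 * Real.pi) := by
    have := (Int.lt_floor_add_one ((θ 1 - θ 0) / (2 * Real.pi))).le
    rwa [div_le_iff₀ (by positivity)] at this
  set K : ℕ := ⌈h * l * m / (2 * Real.pi)⌉₊ with hK
  have hK1 : h * l * m / (2 * Real.pi) ≤ K := Nat.le_ceil _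
  have hK2 : (K : ℝ) ≤ h * l * m / (2 * Real.pi) + 1 :=
    (Nat.ceil_lt_add_one (by positivity)).le
  have hK3 : h * l * m ≤ K * (2 * Real.pi) := by rwa [div_le_iff₀ (by positivity)] at hK1
  have H1 : ∀ n, n + 2 < m → l ≤ θ (n + 2) - 2 * θ (n + 1) + θ n := fun n hn => (H n hn).1
  have H2 : ∀ n, n + 2 < m → θ (n + 2) - 2 * θ (n + 1) + θ n ≤ h * l :=
    fun n hn => (H n hn).2
  have hmain := many_periods hl hs hs1 K m (fun n => θ n - 2 * Real.pi * k * n) (by
    intro n hn
    have h3 := inc_mono H1 0 n (by omega)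
    have h4 := inc_upper H2 0 n (by omega)
    simp only [zero_add] at h3 h4
    have h5 : 0 ≤ (n : ℝ) * l := by positivity
    have h6 : (n : ℝ) * (h * l) ≤ h * l * m := by
      have h7 : (n : ℝ) ≤ m := by exact_mod_cast (by omega : n ≤ m)
      have h8 : 0 ≤ h * l := by positivity
      nlinarith
    push_cast
    constructor
    · linarith
    · linarith) (by
    intro n hn
    have h3 := H1 n hn
    push_cast
    linarith)
  have h5 : ∑ n ∈ range m, exp (((fun n : ℕ => θ n - 2 * Real.pi * k * n) n : ℝ) * I) =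
      ∑ n ∈ range m, exp (θ n * I) := by
    apply sum_congr rfl
    intro n _
    exact exp_shift_period θ k n
  rw [h5] at hmain
  refine hmain.trans ?_
  have h6 : √l / l = 1 / √l := by
    rw [div_eq_div_iff hl.ne' hs.ne']
    linarith
  have h7 : 13 / √l + 2 * (√l / l) + 2 ≤ 17 * (1 / √l) := by
    rw [h6]
    have h8 : 1 ≤ 1 / √l := by rw [le_div_iff₀ hs]; linarith
    have h9 : 13 / √l = 13 * (1 / √l) := by ring
    rw [h9]
    linarith
  have h8 : (K : ℝ) + 1 ≤ h * l * m / 6 + 2 := by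
    have h9 : h * l * m / (2 * Real.pi) ≤ h * l * m / 6 := by
      apply div_le_div_of_nonneg_left (by positivity) (by norm_num) (by linarith)
    linarith
  calc ((K : ℝ) + 1) * (13 / √l + 2 * (√l / l) + 2)
      ≤ (h * l * m / 6 + 2) * (17 * (1 / √l)) := by gcongr
    _ = 17 / 6 * (h * m * (l * (1 / √l))) + 34 * (1 / √l) := by ring
    _ = 17 / 6 * (h * m * √l) + 34 * (1 / √l) := by
        have h9 : l * (1 / √l) = √l := by
          rw [mul_one_div, div_eq_iff hs.ne']
          linarith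
        rw [h9]
    _ ≤ 51 * (h * m * √l + 1 / √l) := by
        have h10 : 0 ≤ h * m * √l := by positivity
        linarith

lemma log_second {x : ℝ} (hx : 1 ≤ x) :
    2 * Real.log (x + 1) - Real.log (x + 2) - Real.log x =
      Real.log (1 + 1 / (x * (x + 2))) := by
  have h0 : 0 < x := by linarith
  have h1 : 1 + 1 / (x * (x + 2)) = (x + 1) ^ 2 / ((x + 2) * x) := by
    field_simp
    ring
  rw [h1, Real.log_div (by positivity) (by positivity), Real.log_mul (by positivity) h0.ne',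
    Real.log_pow]
  push_cast
  ring

theorem zsec : ∃ C : ℝ, 1 ≤ C ∧ ∀ (N M : ℕ) (T : ℝ), 1 ≤ N → M ≤ N → 1 ≤ T →
    ‖∑ n ∈ range M, exp (-(T * Real.log (N + n) : ℝ) * I)‖ ≤ C * (√T + N / √T) := by
  obtain ⟨C, hC, H⟩ := vdc2
  refine ⟨2 * C, by linarith, ?_⟩
  intro N M T hN hM hT
  have hN0 : (0 : ℝ) < N := by exact_mod_cast hN
  have hMN : (M : ℝ) ≤ N := by exact_mod_cast hM
  have hT0 : 0 < T := by linarith
  have hl : 0 < T / (4 * (N : ℝ) ^ 2) := by positivity
  have h1 := H M (fun n => -(T * Real.log (N + n))) (T / (4 * (N : ℝ) ^ 2)) 4 hl (by norm_num) (by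
    intro n hn
    have hx : (1 : ℝ) ≤ (N : ℝ) + n := by
      have : (1 : ℝ) ≤ N := by exact_mod_cast hN
      have h2 : (0 : ℝ) ≤ n := Nat.cast_nonneg _
      linarith
    set x : ℝ := (N : ℝ) + n with hxd
    have hxN : (N : ℝ) ≤ x := by
      have h2 : (0 : ℝ) ≤ n := Nat.cast_nonneg _
      linarith
    have hx2 : x + 2 ≤ 2 * N := by
      have h2 : ((n + 2 : ℕ) : ℝ) ≤ N := by exact_mod_cast (by omega : n + 2 ≤ N)
      push_cast at h2
      linarith
    have e1 : (N : ℝ) + ((n + 1 : ℕ) : ℝ) = x + 1 := by push_cast; ring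
    have e2 : (N : ℝ) + ((n + 2 : ℕ) : ℝ) = x + 2 := by push_cast; ring
    have h3 := log_second hx
    have hy : 0 < 1 / (x * (x + 2)) := by positivity
    have h4 : Real.log (1 + 1 / (x * (x + 2))) ≤ 1 / (x * (x + 2)) := by
      have := Real.log_le_sub_one_of_pos (x := 1 + 1 / (x * (x + 2))) (by positivity)
      linarith
    have h5 : 1 / (x + 1) ^ 2 ≤ Real.log (1 + 1 / (x * (x + 2))) := by
      have := Real.one_sub_inv_le_log_of_pos (x := 1 + 1 / (x * (x + 2))) (by positivity)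
      refine le_trans (le_of_eq ?_) this
      field_simp
      ring
    have h6 : 1 / (x * (x + 2)) ≤ 1 / (N : ℝ) ^ 2 := by
      apply one_div_le_one_div_of_le (by positivity)
      nlinarith
    have h7 : 1 / (4 * (N : ℝ) ^ 2) ≤ 1 / (x + 1) ^ 2 := by
      apply one_div_le_one_div_of_le (by positivity)
      nlinarith
    rw [e1, e2]
    have e3 : -(T * Real.log (x + 2)) - 2 * -(T * Real.log (x + 1)) + -(T * Real.log x) =
        T * (2 * Real.log (x + 1) - Real.log (x + 2) - Real.log x) := by ring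
    rw [e3, h3]
    constructor
    · calc T / (4 * (N : ℝ) ^ 2) = T * (1 / (4 * (N : ℝ) ^ 2)) := by ring
        _ ≤ _ := by
          apply mul_le_mul_of_nonneg_left _ hT0.le
          linarith
    · calc T * Real.log (1 + 1 / (x * (x + 2))) ≤ T * (1 / (N : ℝ) ^ 2) := by
            apply mul_le_mul_of_nonneg_left _ hT0.le
            linarith
        _ = 4 * (T / (4 * (N : ℝ) ^ 2)) := by
            field_simp)
  have h2 : ∑ n ∈ range M, exp (-(T * Real.log (N + n) : ℝ) * I) =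
      ∑ n ∈ range M, exp (((fun n : ℕ => -(T * Real.log (N + n))) n : ℝ) * I) := by
    apply sum_congr rfl
    intro n _
    push_cast
    ring_nf
  rw [h2]
  refine h1.trans ?_
  have hsq : √(T / (4 * (N : ℝ) ^ 2)) = √T / (2 * N) := by
    rw [Real.sqrt_div hT0.le]
    congr 1
    rw [show 4 * (N : ℝ) ^ 2 = (2 * N) ^ 2 by ring]
    exact Real.sqrt_sq (by positivity)
  rw [hsq]
  have hsT : 0 < √T := Real.sqrt_pos.mpr hT0
  have h3 : 4 * (M : ℝ) * (√T / (2 * N)) ≤ 2 * √T := by
    rw [mul_div_assoc', div_le_iff₀ (by positivity)]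
    nlinarith
  have h4 : 1 / (√T / (2 * N)) = 2 * (N / √T) := by
    field_simp
  rw [h4]
  have hC0 : 0 ≤ C := by linarith
  calc C * (4 * M * (√T / (2 * N)) + 2 * (N / √T))
      ≤ C * (2 * √T + 2 * (N / √T)) := by gcongr
    _ = 2 * C * (√T + N / √T) := by ring

end Pool.Agent.DBN
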