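import Pool.Agent.DBN.Far

/-!
# Vertical averages of xi: the flow at negative times
-/

set_option autoImplicit false

namespace Pool.Agent.DBN

open Complex MeasureTheory Set Filter Topology

/-- the flow at a time `t ≤ 0` is an average over the vertical line -/
lemma flow_vert {t : ℝ} (ht : t ≤ 0) (s : ℂ) : flow t s =
    (√Real.pi : ℂ)⁻¹ * ∫ u : ℝ, (Real.exp (-u ^ 2) : ℂ) * xi (s + √(-t) * u * I) := by
  unfold flow
  rw [Real.sqrt_eq_zero_of_nonpos ht]
  congr 1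
  refine integral_congr_ae (Eventually.of_forall fun u => ?_)
  simp only [Complex.ofReal_zero, zero_add]
  congr 2
  ring

/-- `xi` is the horizontal average of the flow at the time `-t` -/
theorem xi_eq_flow {t : ℝ} (ht : 0 ≤ t) (s : ℂ) : xi s =
    (√Real.pi : ℂ)⁻¹ * ∫ y : ℝ, (Real.exp (-y ^ 2) : ℂ) * flow (-t) (s + √t * y) := by
  have hpi : (0 : ℝ) < Real.pi := Real.pi_pos
  set f : ℂ → ℂ := fun z => xi (s + I * z) with hf
  have hfd : Differentiable ℂ f := by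
    have := differentiable_xi
    simp only [hf]
    fun_prop
  have hfS : SubG f := subG_xi.affine s I
  have h0 := inv_flow hfd hfS (√t) 0 0
  have e0 : f (0 + (√t : ℂ) * ((0 : ℝ) : ℂ)) = xi s := by simp [hf]
  rw [e0] at h0
  have h1 : ∀ y : ℝ, (Real.exp (-y ^ 2) : ℂ) * flow (-t) (s + √t * y) =
      (√Real.pi : ℂ)⁻¹ * (exp (-(((-y : ℝ) : ℂ) + ((0 : ℝ) : ℂ) * I) ^ 2) *
        ∫ x : ℝ, (Real.exp (-x ^ 2) : ℂ) * f (0 + √t * (x + ((-y : ℝ) : ℂ) * I))) := by
    intro y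
    rw [flow_vert (by linarith : -t ≤ 0), neg_neg]
    have e1 : exp (-(((-y : ℝ) : ℂ) + ((0 : ℝ) : ℂ) * I) ^ 2) = (Real.exp (-y ^ 2) : ℂ) := by
      rw [Complex.ofReal_exp]
      congr 1
      push_cast
      ring
    rw [e1]
    have e2 : ∀ x : ℝ, f (0 + √t * (x + ((-y : ℝ) : ℂ) * I)) = xi (s + √t * y + √t * x * I) := by
      intro x
      simp only [hf]
      congr 1
      push_cast
      linear_combination (-(√t : ℂ) * y) * Complex.I_sq
    simp_rw [e2]
    ring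
  simp_rw [h1]
  rw [integral_const_mul, integral_neg_eq_self (fun y : ℝ =>
    exp (-((y : ℂ) + ((0 : ℝ) : ℂ) * I) ^ 2) *
      ∫ x : ℝ, (Real.exp (-x ^ 2) : ℂ) * f (0 + √t * (x + (y : ℂ) * I))), h0]
  have e3 : (√Real.pi : ℂ) * (√Real.pi : ℂ) = Real.pi := by
    rw [← Complex.ofReal_mul, Real.mul_self_sqrt hpi.le]
  have e4 : (√Real.pi : ℂ) ≠ 0 := by
    rw [Complex.ofReal_ne_zero]
    positivity
  rw [← e3]
  field_simp

end Pool.Agent.DBN
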