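import Pool.Agent.DBN.WinSumA

/-!
# The windowed Fourier transform of xi is a smoothed zeta sum, II
-/

set_option autoImplicit false

namespace Pool.Agent.DBN.Nw

open Complex MeasureTheory Set Filter Topology

lemma log_le_quarter {T : ℝ} (hT : 1 ≤ T) : Real.log T ≤ 4 * T ^ (1 / 4 : ℝ) := by
  have h := Real.log_le_rpow_div (x := T) (ε := 1 / 4) (by linarith) (by norm_num)
  linarith

lemma sq_one_add_log {T : ℝ} (hT : 1 ≤ T) : (1 + Real.log T) ^ 2 ≤ 25 * T ^ (1 / 2 : ℝ) := by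
  have h1 := log_le_quarter hT
  have h2 : (1 : ℝ) ≤ T ^ (1 / 4 : ℝ) := Real.one_le_rpow hT (by norm_num)
  have h3 : 0 ≤ Real.log T := Real.log_nonneg hT
  have h4 : T ^ (1 / 2 : ℝ) = (T ^ (1 / 4 : ℝ)) ^ 2 := by
    rw [← Real.rpow_natCast, ← Real.rpow_mul (by linarith)]
    norm_num
  rw [h4]
  calc (1 + Real.log T) ^ 2 ≤ (5 * T ^ (1 / 4 : ℝ)) ^ 2 := by
        gcongr
        linarith
    _ = _ := by ring

lemma near_unif : ∃ C T₀ : ℝ, 0 ≤ C ∧ 2 ≤ T₀ ∧ ∀ (T v : ℝ) (N : ℕ), T₀ ≤ T →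
    T ^ (7 / 5 : ℝ) / 2 ≤ N → (N : ℝ) ≤ T ^ (7 / 5 : ℝ) → |v| ≤ Real.log T →
    ‖xi (1 / 2 + (T + v : ℝ) * I) / gam (1 / 2 + T * I) - rat T v * dpol N (T + v)‖ ≤
      C * Real.exp (3 * |v|) * T ^ (-(1 / 10) : ℝ) := by
  obtain ⟨C, hC1, hC⟩ := gam_ratio_unif
  refine ⟨2 * C + 232, (25 * C) ^ 2 + 16, by linarith, by nlinarith, fun T v N hT hN1 hN2 hv => ?_⟩
  have hT16 : 16 ≤ T := by nlinarith [sq_nonneg (25 * C)]
  have hT0 : 0 < T := by linarith
  have hT1 : 1 ≤ T := by linarith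
  have hl0 : 0 ≤ Real.log T := Real.log_nonneg hT1
  have hv0 : 0 ≤ |v| := abs_nonneg v
  -- the ratio is available
  have hbig : C * (1 + |v|) ^ 2 ≤ T := by
    have h1 : (1 + |v|) ^ 2 ≤ (1 + Real.log T) ^ 2 := by gcongr
    have h2 := sq_one_add_log hT1
    have h3 : 25 * C ≤ T ^ (1 / 2 : ℝ) := by
      have h4 : ((25 * C) ^ 2) ^ (1 / 2 : ℝ) ≤ T ^ (1 / 2 : ℝ) :=
        Real.rpow_le_rpow (by positivity) (by linarith) (by norm_num)
      rw [← Real.rpow_natCast, ← Real.rpow_mul (by linarith)] at h4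
      norm_num at h4
      exact h4
    have h5 : T ^ (1 / 2 : ℝ) * T ^ (1 / 2 : ℝ) = T := by
      rw [← Real.rpow_add hT0]; norm_num
    calc C * (1 + |v|) ^ 2 ≤ C * (25 * T ^ (1 / 2 : ℝ)) := by
          gcongr
          linarith
      _ = 25 * C * T ^ (1 / 2 : ℝ) := by ring
      _ ≤ T ^ (1 / 2 : ℝ) * T ^ (1 / 2 : ℝ) := by gcongr
      _ = T := h5
  have h1 := hC T v hbig
  have hlogT : Real.log T ≤ T / 2 := by
    have h2 : Real.log T = 2 * Real.log (√T) := by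
      rw [Real.log_sqrt hT0.le]; ring
    have h3 : Real.log (√T) ≤ √T := (Real.log_le_sub_one_of_pos (Real.sqrt_pos.2 hT0)).trans
      (by linarith)
    have h4 : √T * √T = T := Real.mul_self_sqrt hT0.le
    have h5 : 4 ≤ √T := by
      rw [show (4 : ℝ) = √16 by rw [show (16 : ℝ) = 4 ^ 2 by norm_num, Real.sqrt_sq (by norm_num)]]
      exact Real.sqrt_le_sqrt hT16
    nlinarith
  set R : ℂ := gam (1 / 2 + (T + v : ℝ) * I) / gam (1 / 2 + T * I) with hR
  set τ : ℝ := T + v with hτ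
  have hv' := abs_le.1 hv
  have hτ1 : T / 2 ≤ τ := by linarith
  have hτ2 : τ ≤ 3 * T := by linarith
  have hτ0 : 0 ≤ τ := by linarith
  have hNpos : (0 : ℝ) < N := lt_of_lt_of_le (by positivity) hN1
  have hN : 1 ≤ N := by
    have : 0 < N := by exact_mod_cast hNpos
    omega
  have h2 := zeta_sum (τ := τ) (by linarith) hN
  -- powers of N
  have hp1 : (N : ℝ) ^ (1 / 2 : ℝ) ≤ T ^ (7 / 10 : ℝ) := by
    calc (N : ℝ) ^ (1 / 2 : ℝ) ≤ (T ^ (7 / 5 : ℝ)) ^ (1 / 2 : ℝ) :=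
          Real.rpow_le_rpow hNpos.le hN2 (by norm_num)
      _ = T ^ (7 / 10 : ℝ) := by
          rw [← Real.rpow_mul hT0.le]; norm_num
  have hp2 : (N : ℝ) ^ (-(3 / 2) : ℝ) ≤ 3 * T ^ (-(21 / 10) : ℝ) := by
    calc (N : ℝ) ^ (-(3 / 2) : ℝ) ≤ (T ^ (7 / 5 : ℝ) / 2) ^ (-(3 / 2) : ℝ) :=
          Real.rpow_le_rpow_of_nonpos (by positivity) hN1 (by norm_num)
      _ = T ^ (-(21 / 10) : ℝ) * 2 ^ (3 / 2 : ℝ) := by
          rw [Real.div_rpow (by positivity) (by norm_num), ← Real.rpow_mul hT0.le,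
            Real.rpow_neg (by norm_num : (0 : ℝ) ≤ 2), div_inv_eq_mul]
          norm_num
      _ ≤ T ^ (-(21 / 10) : ℝ) * 3 := by
          gcongr
          have h3 : (2 : ℝ) ^ (3 / 2 : ℝ) = 2 * √2 := by
            rw [show (3 / 2 : ℝ) = 1 + 1 / 2 by norm_num, Real.rpow_add (by norm_num),
              Real.rpow_one, Real.sqrt_eq_rpow]
          rw [h3]
          have h4 : √2 ≤ 3 / 2 := by
            rw [Real.sqrt_le_left (by norm_num)]
            norm_num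
          linarith
      _ = _ := by ring
  have hq1 : T ^ (7 / 10 : ℝ) / T = T ^ (-(3 / 10) : ℝ) := by
    rw [div_eq_iff hT0.ne']
    nth_rewrite 3 [← Real.rpow_one T]
    rw [← Real.rpow_add hT0]
    norm_num
  have hq2 : T ^ (-(3 / 10) : ℝ) ≤ T ^ (-(1 / 10) : ℝ) :=
    Real.rpow_le_rpow_of_exponent_le hT1 (by norm_num)
  have hq3 : T ^ 2 * T ^ (-(21 / 10) : ℝ) = T ^ (-(1 / 10) : ℝ) := by
    rw [← Real.rpow_natCast, ← Real.rpow_add hT0]
    norm_num
  set Y : ℝ := T ^ (-(1 / 10) : ℝ) with hY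
  have hY0 : 0 < Y := by positivity
  have hz : ‖riemannZeta (1 / 2 + τ * I) - dpol N τ‖ ≤ 116 * Y := by
    refine h2.trans ?_
    have h3 : (N : ℝ) ^ (1 / 2 : ℝ) / τ ≤ 2 * Y := by
      calc (N : ℝ) ^ (1 / 2 : ℝ) / τ ≤ T ^ (7 / 10 : ℝ) / (T / 2) := by gcongr
        _ = 2 * (T ^ (7 / 10 : ℝ) / T) := by field_simp
        _ ≤ 2 * Y := by rw [hq1]; linarith
    have h4 : τ ^ 2 * (N : ℝ) ^ (-(3 / 2) : ℝ) ≤ 27 * Y := by
      calc τ ^ 2 * (N : ℝ) ^ (-(3 / 2) : ℝ) ≤ (3 * T) ^ 2 * (3 * T ^ (-(21 / 10) : ℝ)) := by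
            gcongr
        _ = 27 * (T ^ 2 * T ^ (-(21 / 10) : ℝ)) := by ring
        _ = 27 * Y := by rw [hq3]
    linarith
  have hS : ‖dpol N τ‖ ≤ 2 * T ^ (7 / 10 : ℝ) := (norm_dpol_le N τ).trans (by linarith)
  have he1 : (1 + |v|) ^ 2 ≤ Real.exp (2 * |v|) := by
    have h3 := Real.add_one_le_exp |v|
    calc (1 + |v|) ^ 2 ≤ (Real.exp |v|) ^ 2 := by
          gcongr
          linarith
      _ = Real.exp (2 * |v|) := by rw [← Real.exp_nat_mul]; norm_num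
  have hRn : ‖R‖ ≤ 2 * Real.exp |v| := by
    have e : R = rat T v + (R - rat T v) := by ring
    rw [e]
    refine (norm_add_le _ _).trans ?_
    have h3 : ‖rat T v‖ ≤ Real.exp |v| := by
      rw [norm_rat, Real.exp_le_exp]
      have := neg_abs_le v
      nlinarith [Real.pi_pos, Real.pi_lt_four]
    have h4 : ‖R - rat T v‖ ≤ Real.exp |v| := by
      refine h1.trans ?_
      rw [div_le_iff₀ hT0]
      calc C * (1 + |v|) ^ 2 * Real.exp |v| ≤ T * Real.exp |v| := by gcongr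
        _ = _ := by ring
    linarith
  have hexp13 : Real.exp |v| ≤ Real.exp (3 * |v|) := by
    rw [Real.exp_le_exp]; linarith
  have heq : xi (1 / 2 + (τ : ℝ) * I) / gam (1 / 2 + T * I) - rat T v * dpol N τ =
      (R - rat T v) * dpol N τ + R * (riemannZeta (1 / 2 + τ * I) - dpol N τ) := by
    rw [xi_eq_gam, hR]
    ring
  rw [heq]
  refine (norm_add_le _ _).trans ?_
  rw [norm_mul, norm_mul]
  have h5 : ‖R - rat T v‖ * ‖dpol N τ‖ ≤ 2 * C * Real.exp (3 * |v|) * Y := by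
    calc ‖R - rat T v‖ * ‖dpol N τ‖ ≤
          (C * (1 + |v|) ^ 2 * Real.exp |v| / T) * (2 * T ^ (7 / 10 : ℝ)) := by gcongr
      _ = 2 * C * ((1 + |v|) ^ 2 * Real.exp |v|) * (T ^ (7 / 10 : ℝ) / T) := by ring
      _ ≤ 2 * C * (Real.exp (2 * |v|) * Real.exp |v|) * Y := by
        rw [hq1]
        gcongr
      _ = _ := by
        rw [← Real.exp_add]
        ring_nf
  have h6 : ‖R‖ * ‖riemannZeta (1 / 2 + τ * I) - dpol N τ‖ ≤
      (2 * Real.exp (3 * |v|)) * (116 * Y) := by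
    apply mul_le_mul (hRn.trans (by linarith)) hz (norm_nonneg _) (by positivity)
  calc _ ≤ 2 * C * Real.exp (3 * |v|) * Y + (2 * Real.exp (3 * |v|)) * (116 * Y) :=
        add_le_add h5 h6
    _ = _ := by ring

/-- the exponent of the Gaussian integral -/
noncomputable def bb (ω T x : ℝ) : ℂ :=
  ω + Real.log (T / (2 * Real.pi)) / 2 - Real.log x + Real.pi / 4 * I

lemma gauss2 {x : ℝ} (hx : 0 < x) (ω T v : ℝ) :
    exp (-(v : ℂ) ^ 2 + ω * v * I) * (rat T v *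
      (x : ℂ) ^ (-(1 / 2 + (T + v : ℝ) * I : ℂ))) =
      (x : ℂ) ^ (-(1 / 2 + T * I : ℂ)) * exp ((-1) * (v : ℂ) ^ 2 + (I * bb ω T x) * v + 0) := by
  have hx0 : (x : ℂ) ≠ 0 := by exact_mod_cast hx.ne'
  rw [rat, bb, Complex.cpow_def_of_ne_zero hx0, Complex.cpow_def_of_ne_zero hx0,
    ← Complex.ofReal_log hx.le, ← Complex.exp_add, ← Complex.exp_add, ← Complex.exp_add]
  congr 1
  push_cast
  ring

lemma integrable2 {x : ℝ} (hx : 0 < x) (ω T : ℝ) :
    Integrable fun v : ℝ => exp (-(v : ℂ) ^ 2 + ω * v * I) * (rat T v *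
      (x : ℂ) ^ (-(1 / 2 + (T + v : ℝ) * I : ℂ))) := by
  simp_rw [gauss2 hx]
  apply Integrable.const_mul
  exact integrable_cexp_quadratic' (by simp) _ _

lemma integral2 {x : ℝ} (hx : 0 < x) (ω T : ℝ) :
    ∫ v : ℝ, exp (-(v : ℂ) ^ 2 + ω * v * I) * (rat T v *
      (x : ℂ) ^ (-(1 / 2 + (T + v : ℝ) * I : ℂ))) =
      (√Real.pi : ℂ) * (exp (-(bb ω T x) ^ 2 / 4) * (x : ℂ) ^ (-(1 / 2 + T * I : ℂ))) := by
  simp_rw [gauss2 hx]
  rw [integral_const_mul, integral_cexp_quadratic (by simp)]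
  have h1 : ((Real.pi : ℂ) / - -1) ^ (1 / 2 : ℂ) = (√Real.pi : ℂ) := by
    rw [Real.sqrt_eq_rpow, Complex.ofReal_cpow Real.pi_pos.le]
    push_cast
    simp
  rw [h1]
  have h3 : (0 - (I * bb ω T x) ^ 2 / (4 * (-1)) : ℂ) = -(bb ω T x) ^ 2 / 4 := by
    rw [mul_pow, Complex.I_sq]
    ring
  rw [h3]
  ring

/-- the windowed transform as a finite weighted Dirichlet polynomial -/
lemma win_approx : ∃ C T₀ : ℝ, 0 ≤ C ∧ 2 ≤ T₀ ∧ ∀ (T ω : ℝ) (N : ℕ), T₀ ≤ T →
    T ^ (7 / 5 : ℝ) / 2 ≤ N → (N : ℝ) ≤ T ^ (7 / 5 : ℝ) →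
    ‖win ω T / gam (1 / 2 + T * I) - ∑ n ∈ Finset.range N, (√Real.pi : ℂ) *
      (exp (-(bb ω T (n + 1)) ^ 2 / 4) * ((n + 1 : ℝ) : ℂ) ^ (-(1 / 2 + T * I : ℂ)))‖ ≤
      C * T ^ (-(1 / 10) : ℝ) := by
  obtain ⟨C1, T₁, hC1, hT₁, h1⟩ := near_unif
  obtain ⟨C2, hC2, h2⟩ := far_le
  refine ⟨(C1 * Real.exp 3 + (C2 + 2) * Real.exp 16) * (2 * √Real.pi), T₁ + Real.exp 48,
    by positivity, by linarith [Real.exp_pos 48], fun T ω N hT hN1 hN2 => ?_⟩
  have hT2' : 2 ≤ T := by linarith [Real.exp_pos 48]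
  have hT0 : 0 < T := by linarith
  have hT1 : 1 ≤ T := by linarith
  have hl48 : 48 ≤ Real.log T := by
    rw [Real.le_log_iff_exp_le hT0]
    linarith
  set Y : ℝ := T ^ (-(1 / 10) : ℝ) with hY
  have hY0 : 0 < Y := by positivity
  have hTY : T⁻¹ ≤ Y := by
    calc T⁻¹ = T ^ (-1 : ℝ) := (Real.rpow_neg_one T).symm
      _ ≤ Y := Real.rpow_le_rpow_of_exponent_le hT1 (by norm_num)
  set g0 : ℂ := gam (1 / 2 + T * I) with hg0
  let A : ℝ → ℂ := fun v => exp (-(v : ℂ) ^ 2 + ω * v * I) * (xi (1 / 2 + (T + v : ℝ) * I) / g0)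
  let B : ℝ → ℂ := fun v => exp (-(v : ℂ) ^ 2 + ω * v * I) * (rat T v * dpol N (T + v))
  have hK0 : 0 ≤ C1 * Real.exp 3 + (C2 + 2) * Real.exp 16 := by positivity
  have hkn : ∀ v : ℝ, ‖exp (-(v : ℂ) ^ 2 + ω * v * I)‖ = Real.exp (-v ^ 2) := by
    intro v
    rw [Complex.norm_exp]
    congr 1
    have : (-(v : ℂ) ^ 2 + ω * v * I) = ((-v ^ 2 : ℝ) : ℂ) + ((ω * v : ℝ) : ℂ) * I := by
      push_cast; ring
    rw [this, Complex.add_re, Complex.ofReal_re, Complex.re_ofReal_mul, Complex.I_re, mul_zero,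
      add_zero]
  have hpt : ∀ v : ℝ, ‖A v - B v‖ ≤
      (C1 * Real.exp 3 + (C2 + 2) * Real.exp 16) * Y * Real.exp (-(1 / 4) * v ^ 2) := by
    intro v
    have e1 : A v - B v = exp (-(v : ℂ) ^ 2 + ω * v * I) *
        (xi (1 / 2 + (T + v : ℝ) * I) / g0 - rat T v * dpol N (T + v)) := by
      simp only [A, B]
      ring
    rw [e1, norm_mul, hkn]
    have hsq : |v| ^ 2 = v ^ 2 := sq_abs v
    by_cases hu : |v| ≤ Real.log T
    · have h3 := h1 T v N (by linarith [Real.exp_pos 48]) hN1 hN2 hu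
      have h4 : Real.exp (-v ^ 2) * Real.exp (3 * |v|) ≤
          Real.exp 3 * Real.exp (-(1 / 4) * v ^ 2) := by
        rw [← Real.exp_add, ← Real.exp_add, Real.exp_le_exp]
        nlinarith [sq_nonneg (|v| - 2)]
      calc _ ≤ Real.exp (-v ^ 2) * (C1 * Real.exp (3 * |v|) * Y) := by gcongr
        _ = C1 * Y * (Real.exp (-v ^ 2) * Real.exp (3 * |v|)) := by ring
        _ ≤ C1 * Y * (Real.exp 3 * Real.exp (-(1 / 4) * v ^ 2)) := by gcongr
        _ = C1 * Real.exp 3 * Y * Real.exp (-(1 / 4) * v ^ 2) := by ring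
        _ ≤ _ := by
            gcongr
            have : 0 ≤ (C2 + 2) * Real.exp 16 := by positivity
            linarith
    · push Not at hu
      have hu2 : 24 * Real.log T ≤ v ^ 2 := by
        rw [← hsq]
        nlinarith
      have hexp : Real.exp (-v ^ 2) * Real.exp (4 * |v|) ≤
          (T ^ 12)⁻¹ * Real.exp 16 * Real.exp (-(1 / 4) * v ^ 2) := by
        have h5 : (T ^ 12)⁻¹ = Real.exp (-(12 * Real.log T)) := by
          rw [Real.exp_neg, show (12 : ℝ) * Real.log T = ((12 : ℕ) : ℝ) * Real.log T by norm_num,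
            Real.exp_nat_mul, Real.exp_log hT0]
        rw [h5, ← Real.exp_add, ← Real.exp_add, ← Real.exp_add, Real.exp_le_exp]
        have h6 : 0 ≤ (|v| / 2 - 4) ^ 2 := sq_nonneg _
        nlinarith
      have hA := h2 T v hT2'
      have hB : ‖rat T v * dpol N (T + v)‖ ≤ 2 * T ^ 3 * Real.exp (4 * |v|) := by
        rw [norm_mul, norm_rat]
        have h3 : Real.exp (-(Real.pi * v / 4)) ≤ Real.exp (4 * |v|) := by
          rw [Real.exp_le_exp]
          have h4 := neg_abs_le v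
          have h5 := abs_nonneg v
          nlinarith [Real.pi_pos, Real.pi_lt_four]
        have h4 : ‖dpol N (T + v)‖ ≤ 2 * T ^ 3 := by
          refine (norm_dpol_le N _).trans ?_
          gcongr
          calc (N : ℝ) ^ (1 / 2 : ℝ) ≤ (T ^ (7 / 5 : ℝ)) ^ (1 / 2 : ℝ) :=
                Real.rpow_le_rpow (Nat.cast_nonneg N) hN2 (by norm_num)
            _ = T ^ (7 / 10 : ℝ) := by rw [← Real.rpow_mul hT0.le]; norm_num
            _ ≤ T ^ (3 : ℝ) := Real.rpow_le_rpow_of_exponent_le hT1 (by norm_num)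
            _ = T ^ 3 := by norm_num
        calc _ ≤ Real.exp (4 * |v|) * (2 * T ^ 3) := by gcongr
          _ = _ := by ring
      have hT3 : T ^ 3 * (T ^ 12)⁻¹ ≤ Y := by
        refine le_trans ?_ hTY
        have : T ^ 3 * (T ^ 12)⁻¹ = T⁻¹ * (T ^ 8)⁻¹ := by field_simp
        rw [this]
        have h8 : (T ^ 8)⁻¹ ≤ 1 := inv_le_one_of_one_le₀ (one_le_pow₀ hT1)
        calc T⁻¹ * (T ^ 8)⁻¹ ≤ T⁻¹ * 1 := by gcongr
          _ = T⁻¹ := mul_one _
      calc Real.exp (-v ^ 2) * ‖xi (1 / 2 + (T + v : ℝ) * I) / g0 -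
            rat T v * dpol N (T + v)‖
          ≤ Real.exp (-v ^ 2) * (C2 * T ^ 3 * Real.exp (4 * |v|) +
            2 * T ^ 3 * Real.exp (4 * |v|)) := by
            gcongr
            exact (norm_sub_le _ _).trans (by linarith)
        _ = (C2 + 2) * T ^ 3 * (Real.exp (-v ^ 2) * Real.exp (4 * |v|)) := by ring
        _ ≤ (C2 + 2) * T ^ 3 * ((T ^ 12)⁻¹ * Real.exp 16 * Real.exp (-(1 / 4) * v ^ 2)) := by
            gcongr
        _ = (C2 + 2) * Real.exp 16 * (T ^ 3 * (T ^ 12)⁻¹) * Real.exp (-(1 / 4) * v ^ 2) := by ring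
        _ ≤ (C2 + 2) * Real.exp 16 * Y * Real.exp (-(1 / 4) * v ^ 2) := by gcongr
        _ ≤ _ := by
            have : 0 ≤ C1 * Real.exp 3 * Y * Real.exp (-(1 / 4) * v ^ 2) := by positivity
            nlinarith
  -- continuity and integrability
  have hAc : Continuous A := by
    have := differentiable_xi'.continuous
    simp only [A]
    fun_prop
  have hBsum : B = fun v : ℝ => ∑ n ∈ Finset.range N, exp (-(v : ℂ) ^ 2 + ω * v * I) * (rat T v *
      ((n + 1 : ℝ) : ℂ) ^ (-(1 / 2 + (T + v : ℝ) * I : ℂ))) := by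
    funext v
    simp only [B, dpol, Finset.mul_sum]
  have hti : ∀ n ∈ Finset.range N, Integrable fun v : ℝ => exp (-(v : ℂ) ^ 2 + ω * v * I) *
      (rat T v * ((n + 1 : ℝ) : ℂ) ^ (-(1 / 2 + (T + v : ℝ) * I : ℂ))) := fun n _ =>
    integrable2 (x := (n + 1 : ℝ)) (by positivity) ω T
  have hBint : Integrable B := by
    rw [hBsum]
    exact integrable_finsetSum _ hti
  have hratc : Continuous fun v : ℝ => rat T v := by
    unfold rat
    fun_prop
  have hBc : Continuous B := by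
    have h3 := continuous_dpol N
    simp only [B]
    fun_prop
  have hgint : Integrable fun v : ℝ => (C1 * Real.exp 3 + (C2 + 2) * Real.exp 16) * Y *
      Real.exp (-(1 / 4) * v ^ 2) :=
    (integrable_exp_neg_mul_sq (by norm_num)).const_mul _
  have hDint : Integrable fun v => A v - B v :=
    Integrable.mono' hgint (hAc.sub hBc).aestronglyMeasurable (Eventually.of_forall hpt)
  have hAint : Integrable A := by
    have := hDint.add hBint
    refine this.congr (Eventually.of_forall fun v => ?_)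
    simp
  have hsub : ∫ v, (A v - B v) = (∫ v, A v) - ∫ v, B v := integral_sub hAint hBint
  have hnorm : ‖∫ v, (A v - B v)‖ ≤
      (C1 * Real.exp 3 + (C2 + 2) * Real.exp 16) * Y * (2 * √Real.pi) := by
    refine (norm_integral_le_of_norm_le hgint (Eventually.of_forall hpt)).trans (le_of_eq ?_)
    rw [integral_const_mul, integral_gaussian]
    congr 1
    have : Real.pi / (1 / 4) = 2 ^ 2 * Real.pi := by ring
    rw [this, Real.sqrt_mul (by norm_num), Real.sqrt_sq (by norm_num)]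
  have hAeq : win ω T / g0 = ∫ v, A v := by
    rw [win, ← integral_div]
    refine integral_congr_ae (Eventually.of_forall fun v => ?_)
    simp only [A]
    push_cast
    ring
  have hBeq : ∑ n ∈ Finset.range N, (√Real.pi : ℂ) *
      (exp (-(bb ω T (n + 1)) ^ 2 / 4) * ((n + 1 : ℝ) : ℂ) ^ (-(1 / 2 + T * I : ℂ))) =
      ∫ v, B v := by
    have hBi : ∫ v, B v = ∑ n ∈ Finset.range N, ∫ v : ℝ, exp (-(v : ℂ) ^ 2 + ω * v * I) *
        (rat T v * ((n + 1 : ℝ) : ℂ) ^ (-(1 / 2 + (T + v : ℝ) * I : ℂ))) := by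
      rw [hBsum]
      exact integral_finsetSum _ hti
    rw [hBi]
    refine Finset.sum_congr rfl fun n _ => ?_
    rw [integral2 (by positivity)]
  rw [hAeq, hBeq, ← hsub]
  calc _ ≤ _ := hnorm
    _ = _ := by ring

end Pool.Agent.DBN.Nw
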