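import Mathlib
import Pool.Agent.Lib.ZetaCrude

/-!
# Second order Euler-Maclaurin approximation of zeta by its partial sums

For `Re s > 0`, `s ≠ 1`:
`(s - 1) ζ(s) = (s - 1) ∑_{n ≤ N} n^{-s} + (N+1)^{1-s} + (s - 1) (N+1)^{-s} / 2 + ∑_{n ≥ N} h_n(s)`
with `‖h_n(s)‖ ≤ |s - 1| |s| |s + 1| (n + 1)^{-σ-2}`.
-/

set_option autoImplicit false

namespace Pool.Agent.DBN

open Complex Filter Topology
open Pool.Agent.Lib.ZetaCrude

/-- the trapezoidal term -/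
noncomputable def hterm (n : ℕ) (s : ℂ) : ℂ :=
  (s - 1) * (((n + 1 : ℝ) : ℂ) ^ (-s) + ((n + 2 : ℝ) : ℂ) ^ (-s)) / 2 +
    ((n + 2 : ℝ) : ℂ) ^ (1 - s) - ((n + 1 : ℝ) : ℂ) ^ (1 - s)

lemma norm_hterm_le (n : ℕ) (s : ℂ) (hs : 0 ≤ s.re) :
    ‖hterm n s‖ ≤ ‖s - 1‖ * ‖s‖ * ‖s + 1‖ * (n + 1 : ℝ) ^ (-s.re - 2) := by
  set a : ℝ := n + 1 with ha
  have ha0 : 0 < a := by positivity
  set M : ℝ := ‖s‖ * ‖s + 1‖ * a ^ (-s.re - 2) with hM
  have hM0 : 0 ≤ M := by positivity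
  -- the inner function
  let K : ℝ → ℂ := fun x => (a : ℂ) ^ (-s) - (x : ℂ) ^ (-s) - s * ((x : ℂ) - a) * (x : ℂ) ^ (-s - 1)
  have hKder : ∀ x ∈ Set.Icc a (a + 1), HasDerivWithinAt K
      (s * (s + 1) * ((x : ℂ) - a) * (x : ℂ) ^ (-s - 2)) (Set.Icc a (a + 1)) x := by
    intro x hx
    have hx0 : 0 < x := lt_of_lt_of_le ha0 hx.1
    have h1 := hasDerivAt_cpow_real hx0 (-s)
    have h2 := hasDerivAt_cpow_real hx0 (-s - 1)
    have h3 : HasDerivAt (fun x : ℝ => s * ((x : ℂ) - a)) (s * 1) x :=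
      ((ofRealCLM.hasDerivAt).sub_const _).const_mul _
    have h4 := ((h1.const_sub ((a : ℂ) ^ (-s))).sub (h3.mul h2)).hasDerivWithinAt
      (s := Set.Icc a (a + 1))
    have e : -(-s * (x : ℂ) ^ (-s - 1)) - (s * 1 * (x : ℂ) ^ (-s - 1) +
        s * ((x : ℂ) - a) * ((-s - 1) * (x : ℂ) ^ (-s - 1 - 1))) =
        s * (s + 1) * ((x : ℂ) - a) * (x : ℂ) ^ (-s - 2) := by
      rw [show (-s - 1 - 1) = -s - 2 by ring]
      ring
    rw [e] at h4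
    exact h4
  have hKbd : ∀ x ∈ Set.Icc a (a + 1), ‖K x‖ ≤ M := by
    intro x hx
    have hsub : Set.Icc a x ⊆ Set.Icc a (a + 1) := Set.Icc_subset_Icc le_rfl hx.2
    have hder : ∀ y ∈ Set.Icc a x, HasDerivWithinAt K
        (s * (s + 1) * ((y : ℂ) - a) * (y : ℂ) ^ (-s - 2)) (Set.Icc a x) y := fun y hy =>
      (hKder y (hsub hy)).mono hsub
    have hbd : ∀ y ∈ Set.Icc a x, ‖s * (s + 1) * ((y : ℂ) - a) * (y : ℂ) ^ (-s - 2)‖ ≤ M := by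
      intro y hy
      have hy0 : 0 < y := lt_of_lt_of_le ha0 hy.1
      rw [norm_mul, norm_mul, norm_mul, norm_cpow_eq_rpow_re_of_pos hy0]
      have e1 : (-s - 2).re = -s.re - 2 := by simp
      have e2 : ‖(y : ℂ) - a‖ ≤ 1 := by
        rw [← Complex.ofReal_sub, Complex.norm_real, Real.norm_of_nonneg (by linarith [hy.1])]
        linarith [hy.2, hx.2]
      rw [e1]
      calc ‖s‖ * ‖s + 1‖ * ‖(y : ℂ) - a‖ * y ^ (-s.re - 2)
          ≤ ‖s‖ * ‖s + 1‖ * 1 * a ^ (-s.re - 2) := by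
            gcongr ?_ * ?_ * ?_ * ?_
            exact Real.rpow_le_rpow_of_nonpos ha0 hy.1 (by linarith)
        _ = M := by rw [hM]; ring
    have h6 := Convex.norm_image_sub_le_of_norm_hasDerivWithin_le hder hbd (convex_Icc a x)
      (Set.left_mem_Icc.mpr hx.1) (Set.right_mem_Icc.mpr hx.1)
    have h7 : K a = 0 := by simp [K]
    rw [h7, sub_zero, Real.norm_of_nonneg (by linarith [hx.1])] at h6
    refine h6.trans ?_
    have : x - a ≤ 1 := by linarith [hx.2]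
    nlinarith
  let H : ℝ → ℂ := fun x => (s - 1) / 2 * ((x : ℂ) - a) * ((a : ℂ) ^ (-s) + (x : ℂ) ^ (-s)) +
    (x : ℂ) ^ (1 - s)
  have hHder : ∀ x ∈ Set.Icc a (a + 1), HasDerivWithinAt H ((s - 1) / 2 * K x)
      (Set.Icc a (a + 1)) x := by
    intro x hx
    have hx0 : 0 < x := lt_of_lt_of_le ha0 hx.1
    have h1 := hasDerivAt_cpow_real hx0 (-s)
    have h2 := hasDerivAt_cpow_real hx0 (1 - s)
    have h3 : HasDerivAt (fun x : ℝ => (s - 1) / 2 * ((x : ℂ) - a)) ((s - 1) / 2 * 1) x :=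
      ((ofRealCLM.hasDerivAt).sub_const _).const_mul _
    have h4 := ((h3.mul (h1.const_add ((a : ℂ) ^ (-s)))).add h2).hasDerivWithinAt
      (s := Set.Icc a (a + 1))
    have e : (s - 1) / 2 * 1 * ((a : ℂ) ^ (-s) + (x : ℂ) ^ (-s)) +
        (s - 1) / 2 * ((x : ℂ) - a) * (-s * (x : ℂ) ^ (-s - 1)) +
        (1 - s) * (x : ℂ) ^ (1 - s - 1) = (s - 1) / 2 * K x := by
      rw [show (1 - s - 1) = -s by ring]
      simp only [K]
      ring
    rw [e] at h4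
    exact h4
  have hHbd : ∀ x ∈ Set.Icc a (a + 1), ‖(s - 1) / 2 * K x‖ ≤ ‖s - 1‖ * M := by
    intro x hx
    rw [norm_mul, norm_div, Complex.norm_ofNat]
    have := hKbd x hx
    have h0 := norm_nonneg (s - 1)
    calc ‖s - 1‖ / 2 * ‖K x‖ ≤ ‖s - 1‖ * ‖K x‖ := by
          have := norm_nonneg (K x)
          gcongr
          linarith
      _ ≤ ‖s - 1‖ * M := by gcongr
  have h6 := Convex.norm_image_sub_le_of_norm_hasDerivWithin_le hHder hHbd (convex_Icc a (a + 1))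
    (Set.left_mem_Icc.mpr (by linarith)) (Set.right_mem_Icc.mpr (by linarith))
  have h7 : H (a + 1) - H a = hterm n s := by
    simp only [H, hterm, ha]
    push_cast
    ring_nf
  rw [h7] at h6
  calc ‖hterm n s‖ ≤ ‖s - 1‖ * M * ‖a + 1 - a‖ := h6
    _ = ‖s - 1‖ * ‖s‖ * ‖s + 1‖ * a ^ (-s.re - 2) := by
      rw [hM]; simp; ring

lemma tendsto_cpow_neg {s : ℂ} (hs : 0 < s.re) :
    Tendsto (fun n : ℕ => ((n + 1 : ℝ) : ℂ) ^ (-s)) atTop (𝓝 0) := by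
  have := tendsto_cpow_zero (s := 1 + s) (by simpa using hs)
  have e : (1 - (1 + s)) = -s := by ring
  rw [e] at this
  exact this

lemma summable_hterm {s : ℂ} (hs : 0 < s.re) : Summable fun n => hterm n s := by
  apply Summable.of_norm_bounded
    (g := fun n : ℕ => ‖s - 1‖ * ‖s‖ * ‖s + 1‖ * (n + 1 : ℝ) ^ (-s.re - 2))
  · have := summable_rpow_aux (σ := s.re + 1) (by linarith)
    have h2 : (fun n : ℕ => (n + 1 : ℝ) ^ (-(s.re + 1) - 1)) =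
        fun n : ℕ => (n + 1 : ℝ) ^ (-s.re - 2) := by
      funext n; congr 1; ring
    rw [h2] at this
    exact this.mul_left _
  · intro n; exact norm_hterm_le n s hs.le

theorem zeta_euler_maclaurin {s : ℂ} (hs : 0 < s.re) (hs1 : s ≠ 1) (N : ℕ) :
    (s - 1) * riemannZeta s = (s - 1) * ∑ n ∈ Finset.range N, ((n + 1 : ℝ) : ℂ) ^ (-s) +
      ((N + 1 : ℝ) : ℂ) ^ (1 - s) + (s - 1) * ((N + 1 : ℝ) : ℂ) ^ (-s) / 2 +
      ∑' n, hterm (n + N) s := by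
  have hg : Summable (fun n => g n s) := by
    apply Summable.of_norm_bounded (g := fun n : ℕ => ‖s - 1‖ * ‖s‖ * (n + 1 : ℝ) ^ (-s.re - 1))
    · exact (summable_rpow_aux (by linarith)).mul_left _
    · intro n; exact norm_g_le n s (by linarith)
  have hG : (s - 1) * riemannZeta s = 1 + ∑' n, g n s := by
    have h1 := G_eq hs
    have h2 : riemannZeta s = (s - 1)⁻¹ * riemannZeta₁ s := riemannZeta_eq_inv_sub_mul hs1
    have h3 : s - 1 ≠ 0 := sub_ne_zero.mpr hs1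
    rw [h2, ← h1, ← mul_assoc, mul_inv_cancel₀ h3, one_mul, G]
  have hfin : ∀ N : ℕ, ∑ n ∈ Finset.range N, g n s =
      (s - 1) * ∑ n ∈ Finset.range N, ((n + 1 : ℝ) : ℂ) ^ (-s) + ((N + 1 : ℝ) : ℂ) ^ (1 - s) - 1 := by
    intro N
    induction N with
    | zero => simp
    | succ N ih =>
      rw [Finset.sum_range_succ, ih, Finset.sum_range_succ, g]
      push_cast
      ring_nf
  have hsplit := hg.sum_add_tsum_nat_add N
  -- the tail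
  have hgh : ∀ n : ℕ, g (n + N) s = hterm (n + N) s + (s - 1) / 2 *
      ((((n + N : ℕ) + 1 : ℝ) : ℂ) ^ (-s) - (((n + N : ℕ) + 2 : ℝ) : ℂ) ^ (-s)) := by
    intro n
    rw [g, hterm]
    ring
  have hh : Summable fun n => hterm (n + N) s := (summable_nat_add_iff N).mpr (summable_hterm hs)
  have hgN : Summable fun n => g (n + N) s := (summable_nat_add_iff N).mpr hg
  have htel : HasSum (fun n : ℕ => (s - 1) / 2 *
      ((((n + N : ℕ) + 1 : ℝ) : ℂ) ^ (-s) - (((n + N : ℕ) + 2 : ℝ) : ℂ) ^ (-s)))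
      ((s - 1) / 2 * ((N + 1 : ℝ) : ℂ) ^ (-s)) := by
    have hsumm : Summable fun n : ℕ => (s - 1) / 2 *
        ((((n + N : ℕ) + 1 : ℝ) : ℂ) ^ (-s) - (((n + N : ℕ) + 2 : ℝ) : ℂ) ^ (-s)) := by
      refine (hgN.sub hh).congr fun n => ?_
      rw [hgh n]; ring
    rw [hsumm.hasSum_iff_tendsto_nat]
    have hpart : ∀ K : ℕ, ∑ n ∈ Finset.range K, (s - 1) / 2 *
        ((((n + N : ℕ) + 1 : ℝ) : ℂ) ^ (-s) - (((n + N : ℕ) + 2 : ℝ) : ℂ) ^ (-s)) =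
        (s - 1) / 2 * (((N + 1 : ℝ) : ℂ) ^ (-s) - (((K + N : ℕ) + 1 : ℝ) : ℂ) ^ (-s)) := by
      intro K
      induction K with
      | zero => simp
      | succ K ih =>
        rw [Finset.sum_range_succ, ih]
        push_cast
        ring_nf
    simp_rw [hpart]
    have h1 := (tendsto_cpow_neg hs).comp (tendsto_add_atTop_nat N)
    have h2 := (h1.const_sub (((N + 1 : ℝ) : ℂ) ^ (-s))).const_mul ((s - 1) / 2)
    rw [sub_zero] at h2
    exact h2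
  have htail : ∑' n, g (n + N) s = ∑' n, hterm (n + N) s + (s - 1) / 2 * ((N + 1 : ℝ) : ℂ) ^ (-s) := by
    rw [← htel.tsum_eq, ← hh.tsum_add htel.summable]
    exact tsum_congr hgh
  rw [hG, ← hsplit, hfin, htail]
  ring

lemma rpow_tel {a : ℝ} (ha : 1 ≤ a) :
    a ^ (-(5 / 2) : ℝ) ≤ 5 / 3 * (a ^ (-(3 / 2) : ℝ) - (a + 1) ^ (-(3 / 2) : ℝ)) := by
  have ha0 : 0 < a := by linarith
  have h1 : 1 + 3 / 2 * (1 / a) ≤ (1 + 1 / a) ^ (3 / 2 : ℝ) :=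
    one_add_mul_self_le_rpow_one_add (by have : 0 < 1 / a := by positivity
                                         linarith) (by norm_num)
  have h2 : (a + 1) ^ (-(3 / 2) : ℝ) = a ^ (-(3 / 2) : ℝ) * ((1 + 1 / a) ^ (3 / 2 : ℝ))⁻¹ := by
    have h3 : a + 1 = a * (1 + 1 / a) := by field_simp
    rw [h3, Real.mul_rpow ha0.le (by positivity), Real.rpow_neg (by positivity : 0 ≤ 1 + 1 / a)]
  have h4 : ((1 + 1 / a) ^ (3 / 2 : ℝ))⁻¹ ≤ (1 + 3 / 2 * (1 / a))⁻¹ := by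
    gcongr
  have h5 : (1 + 3 / 2 * (1 / a))⁻¹ = 1 - 3 / (2 * a + 3) := by
    field_simp
    ring
  have h6 : 3 / 5 * (1 / a) ≤ 3 / (2 * a + 3) := by
    rw [div_mul_div_comm, div_le_div_iff₀ (by positivity) (by positivity)]
    nlinarith
  have h7 : a ^ (-(5 / 2) : ℝ) = a ^ (-(3 / 2) : ℝ) * (1 / a) := by
    have : (-(5 / 2) : ℝ) = -(3 / 2) + -1 := by norm_num
    rw [this, Real.rpow_add ha0, Real.rpow_neg_one, one_div]
  have h8 : 0 < a ^ (-(3 / 2) : ℝ) := by positivity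
  rw [h2, h7]
  have h9 : 3 / 5 * (1 / a) ≤ 1 - ((1 + 1 / a) ^ (3 / 2 : ℝ))⁻¹ := by linarith
  have h10 : a ^ (-(3 / 2) : ℝ) * (3 / 5 * (1 / a)) ≤
      a ^ (-(3 / 2) : ℝ) * (1 - ((1 + 1 / a) ^ (3 / 2 : ℝ))⁻¹) := by gcongr
  linarith

lemma tsum_rpow_tail (N : ℕ) :
    ∑' n : ℕ, (((n + N : ℕ) + 1 : ℝ)) ^ (-(5 / 2) : ℝ) ≤ 5 / 3 * (N + 1 : ℝ) ^ (-(3 / 2) : ℝ) := by
  have hpart : ∀ K : ℕ, ∑ n ∈ Finset.range K, (((n + N : ℕ) + 1 : ℝ)) ^ (-(5 / 2) : ℝ) ≤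
      5 / 3 * ((N + 1 : ℝ) ^ (-(3 / 2) : ℝ) - (((K + N : ℕ) + 1 : ℝ)) ^ (-(3 / 2) : ℝ)) := by
    intro K
    induction K with
    | zero => simp
    | succ K ih =>
      rw [Finset.sum_range_succ]
      have h1 := rpow_tel (a := ((K + N : ℕ) + 1 : ℝ)) (by
        have : (0 : ℝ) ≤ ((K + N : ℕ) : ℝ) := Nat.cast_nonneg _
        linarith)
      have h2 : (((K + N : ℕ) + 1 : ℝ) + 1) = (((K + 1 + N : ℕ)) + 1 : ℝ) := by push_cast; ring
      rw [h2] at h1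
      linarith
  refine Real.tsum_le_of_sum_range_le (fun n => by positivity) fun K => ?_
  refine (hpart K).trans ?_
  have : 0 ≤ (((K + N : ℕ) + 1 : ℝ)) ^ (-(3 / 2) : ℝ) := by positivity
  linarith

/-- Approximation of zeta on the critical line by `N` terms. -/
theorem zeta_approx (τ : ℝ) (hτ : 1 ≤ |τ|) (N : ℕ) :
    ‖riemannZeta (1 / 2 + τ * I) - ∑ n ∈ Finset.range N, ((n + 1 : ℝ) : ℂ) ^ (-(1 / 2 + τ * I))‖ ≤
      (N + 1 : ℝ) ^ (1 / 2 : ℝ) / |τ| + (N + 1 : ℝ) ^ (-(1 / 2) : ℝ) +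
        7 * τ ^ 2 * (N + 1 : ℝ) ^ (-(3 / 2) : ℝ) := by
  set s : ℂ := 1 / 2 + τ * I with hs
  have hre : s.re = 1 / 2 := by simp [hs]
  have him : s.im = τ := by simp [hs]
  have hs1 : s ≠ 1 := by
    intro h
    have := congrArg Complex.re h
    rw [hre] at this
    norm_num at this
  have hne : s - 1 ≠ 0 := sub_ne_zero.mpr hs1
  have hτ0 : 0 < |τ| := by linarith
  have hN0 : (0 : ℝ) < N + 1 := by positivity
  have hem := zeta_euler_maclaurin (s := s) (by rw [hre]; norm_num) hs1 N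
  have h1 : riemannZeta s - ∑ n ∈ Finset.range N, ((n + 1 : ℝ) : ℂ) ^ (-s) =
      ((N + 1 : ℝ) : ℂ) ^ (1 - s) / (s - 1) + ((N + 1 : ℝ) : ℂ) ^ (-s) / 2 +
        (∑' n, hterm (n + N) s) / (s - 1) := by
    field_simp
    linear_combination 2 * hem
  rw [h1]
  have hn1 : |τ| ≤ ‖s - 1‖ := by
    have := Complex.abs_im_le_norm (s - 1)
    simpa [him] using this
  have hn1' : 0 < ‖s - 1‖ := by linarith
  have hns : ‖s‖ ≤ 3 / 2 * |τ| := by
    have := Complex.norm_le_abs_re_add_abs_im s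
    rw [hre, him, abs_of_pos (by norm_num)] at this
    linarith
  have hns1 : ‖s + 1‖ ≤ 5 / 2 * |τ| := by
    have := Complex.norm_le_abs_re_add_abs_im (s + 1)
    simp only [Complex.add_re, Complex.one_re, Complex.add_im, Complex.one_im, hre, him,
      add_zero] at this
    rw [abs_of_pos (by norm_num)] at this
    linarith
  have hA : ‖((N + 1 : ℝ) : ℂ) ^ (1 - s) / (s - 1)‖ ≤ (N + 1 : ℝ) ^ (1 / 2 : ℝ) / |τ| := by
    rw [norm_div, norm_cpow_eq_rpow_re_of_pos hN0]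
    have : (1 - s).re = 1 / 2 := by rw [Complex.sub_re, Complex.one_re, hre]; norm_num
    rw [this]
    gcongr
  have hB : ‖((N + 1 : ℝ) : ℂ) ^ (-s) / 2‖ ≤ (N + 1 : ℝ) ^ (-(1 / 2) : ℝ) := by
    rw [norm_div, norm_cpow_eq_rpow_re_of_pos hN0, Complex.neg_re, hre, Complex.norm_ofNat]
    have : 0 < (N + 1 : ℝ) ^ (-(1 / 2) : ℝ) := by positivity
    linarith
  have hC : ‖(∑' n, hterm (n + N) s) / (s - 1)‖ ≤ 7 * τ ^ 2 * (N + 1 : ℝ) ^ (-(3 / 2) : ℝ) := by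
    rw [norm_div, div_le_iff₀ hn1']
    have hb : ∀ n : ℕ, ‖hterm (n + N) s‖ ≤ ‖s - 1‖ * ‖s‖ * ‖s + 1‖ *
        (((n + N : ℕ) + 1 : ℝ)) ^ (-(5 / 2) : ℝ) := by
      intro n
      have := norm_hterm_le (n + N) s (by rw [hre]; norm_num)
      have e : (-s.re - 2 : ℝ) = -(5 / 2) := by rw [hre]; norm_num
      rw [e] at this
      exact this
    have hsum0 : Summable fun n : ℕ => (((n + N : ℕ) + 1 : ℝ)) ^ (-(5 / 2) : ℝ) := by
      have h2 := summable_rpow_aux (σ := 3 / 2) (by norm_num)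
      have h3 : (fun n : ℕ => (n + 1 : ℝ) ^ (-(3 / 2) - 1 : ℝ)) =
          fun n : ℕ => (n + 1 : ℝ) ^ (-(5 / 2) : ℝ) := by
        funext n; congr 1; norm_num
      rw [h3] at h2
      exact (summable_nat_add_iff N).mpr h2
    have h4 : ‖∑' n, hterm (n + N) s‖ ≤ ‖s - 1‖ * ‖s‖ * ‖s + 1‖ *
        ∑' n : ℕ, (((n + N : ℕ) + 1 : ℝ)) ^ (-(5 / 2) : ℝ) := by
      rw [← tsum_mul_left]
      exact tsum_of_norm_bounded (hsum0.mul_left _).hasSum hb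
    refine h4.trans ?_
    calc ‖s - 1‖ * ‖s‖ * ‖s + 1‖ * ∑' n : ℕ, (((n + N : ℕ) + 1 : ℝ)) ^ (-(5 / 2) : ℝ)
        ≤ ‖s - 1‖ * (3 / 2 * |τ|) * (5 / 2 * |τ|) * (5 / 3 * (N + 1 : ℝ) ^ (-(3 / 2) : ℝ)) := by
          gcongr
          exact tsum_rpow_tail N
      _ = 25 / 4 * |τ| ^ 2 * (N + 1 : ℝ) ^ (-(3 / 2) : ℝ) * ‖s - 1‖ := by ring
      _ ≤ 7 * |τ| ^ 2 * (N + 1 : ℝ) ^ (-(3 / 2) : ℝ) * ‖s - 1‖ := by
          gcongr
          norm_num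
      _ = 7 * τ ^ 2 * (N + 1 : ℝ) ^ (-(3 / 2) : ℝ) * ‖s - 1‖ := by rw [sq_abs]
  calc _ ≤ ‖((N + 1 : ℝ) : ℂ) ^ (1 - s) / (s - 1)‖ + ‖((N + 1 : ℝ) : ℂ) ^ (-s) / 2‖ +
        ‖(∑' n, hterm (n + N) s) / (s - 1)‖ := norm_add₃_le
    _ ≤ _ := by gcongr

end Pool.Agent.DBN
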