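import Pool.Agent.DBN.ZDefs
import Pool.Agent.SPZ.Targets

/-!
# Zeros of the flow: auxiliary definitions
-/

set_option autoImplicit false

namespace Pool.Agent.DBN

open Complex Metric

/-- the same as `FewZeros`, for the flow in the variable `s` -/
def FewFlow (c : ℝ) : Prop :=
  ∀ (w : ℂ) (r : ℝ), 0 < r → r < |w.re| → ∀ η : ℝ, 0 < η → ∃ T₀ : ℝ, ∀ T : ℝ, T₀ ≤ T →
    (zeroCount (flow (c / Real.log T)) (1 / 2 + T * I + w) r : ℝ) ≤ η * Real.log T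

/-- bounds for `xi` near `1 / 2 + i T` with the exponent `m (Re w)`, uniform in `w` -/
def XiLe (m : ℝ → ℝ) : Prop :=
  ∀ ε κ : ℝ, 0 < ε → 0 < κ → ∃ C : ℝ, 0 ≤ C ∧ ∀ (T : ℝ) (w : ℂ), 2 ≤ T →
    ‖xi (1 / 2 + T * I + w)‖ ≤
      C * size T * T ^ (m w.re + ε) * Real.exp (κ * ‖w‖ ^ 2 * Real.log T)

/-- bounds for the flow at the time `c / log T` with the exponent `m (Re w)`, for `Re w` in `S` -/
def FlowLe (c : ℝ) (S : Set ℝ) (m : ℝ → ℝ) : Prop :=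
  ∀ ε κ : ℝ, 0 < ε → 0 < κ → ∃ C T₀ : ℝ, 0 ≤ C ∧ 2 ≤ T₀ ∧ ∀ (T : ℝ) (w : ℂ), T₀ ≤ T →
    w.re ∈ S → ‖flow (c / Real.log T) (1 / 2 + T * I + w)‖ ≤
      C * size T * T ^ (m w.re + ε) * Real.exp (κ * ‖w‖ ^ 2 * Real.log T)

/-- a lower bound for the flow far to the right of the critical line, near `1/2 + R + i (T + v)` -/
def Low (c R : ℝ) : Prop :=
  ∀ ρ ε : ℝ, 0 < ρ → 0 < ε → ∃ T₀ : ℝ, 2 ≤ T₀ ∧ ∀ T v : ℝ, T₀ ≤ T → |v| ≤ 1 → ∃ w : ℂ,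
    ‖w - (R + v * I)‖ ≤ ρ ∧
    size T * T ^ (w.re / 2 + c / 16 - ε) ≤ ‖flow (c / Real.log T) (1 / 2 + T * I + w)‖

/-- the bound `T^(δ / 2 + c / 16 + ε) size T` on the lines near the critical line -/
def Strip (c : ℝ) : Prop :=
  ∀ δ ε : ℝ, 0 < δ → δ ≤ 1 → 0 < ε → ∃ T₀ : ℝ, 2 ≤ T₀ ∧ ∀ T v : ℝ, T₀ ≤ T → |v| ≤ 1 →
    ‖flow (c / Real.log T) (1 / 2 + T * I + (δ + v * I))‖ ≤
      size T * T ^ (δ / 2 + c / 16 + ε)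

end Pool.Agent.DBN
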